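import Pool.Agent.Lib.MP_4e5fcd_ag.Cl.K0
import Pool.Agent.Lib.MP_4e5fcd_ag.Inv.Coeff

/-! # CL-A1: expansion of the action on a stable ideal (port of `glSub_expand` in `Inv/LemB.lean`)

PROOF (as in `Inv/LemB.lean`). Let `GXS σ` be the index set of the entries of `(g, h)`. Work in
`MvPolynomial (GXS σ) B`, `B = MvPolynomial (Fin N) ℂ`: the polynomial
`P = f (act (g, h) x)` with `g`, `h` the generic matrices; its values at invertible `(g, h)` are
`shSub σ e g h f ∈ I`, so its coefficients are in `I` (`coeff_mem_of_eval`, `Δ = ∏ a, det g_a * det h_a`).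
`K`, `c`, `F`: the monomials in the support and their coefficients (enumerate the support). -/

open MvPolynomial

namespace MotMono

variable {s N : ℕ} {σ : Fin s → Shp}

/-- the coordinates of the families of square matrices `g`, `h` -/
abbrev GXS (σ : Fin s → Shp) : Type :=
  (Σ a, Fin (σ a).row × Fin (σ a).row) ⊕ (Σ a, Fin (σ a).col × Fin (σ a).col)

/-- the point given by two families of square matrices -/
def ghS {R : Type} (g : ∀ a, Matrix (Fin (σ a).row) (Fin (σ a).row) R)
    (h : ∀ a, Matrix (Fin (σ a).col) (Fin (σ a).col) R) : GXS σ → R :=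
  Sum.elim (fun c => g c.1 c.2.1 c.2.2) (fun c => h c.1 c.2.1 c.2.2)

/-- the generic matrices -/
private noncomputable def A1_g (σ : Fin s → Shp) (N : ℕ) (a : Fin s) :
    Matrix (Fin (σ a).row) (Fin (σ a).row) (MvPolynomial (GXS σ) (MvPolynomial (Fin N) ℂ)) :=
  fun i j => X (Sum.inl ⟨a, (i, j)⟩)

/-- the generic matrices -/
private noncomputable def A1_h (σ : Fin s → Shp) (N : ℕ) (a : Fin s) :
    Matrix (Fin (σ a).col) (Fin (σ a).col) (MvPolynomial (GXS σ) (MvPolynomial (Fin N) ℂ)) :=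
  fun i j => X (Sum.inr ⟨a, (i, j)⟩)

/-- the entries -/
private noncomputable def A1_x (e : (Σ a, (σ a).Idx) ≃ Fin N) (a : Fin s) :
    (σ a).Idx → MvPolynomial (GXS σ) (MvPolynomial (Fin N) ℂ) :=
  fun p => C (X (e ⟨a, p⟩))

/-- the generic point -/
private noncomputable def A1_pt (e : (Σ a, (σ a).Idx) ≃ Fin N) :
    Fin N → MvPolynomial (GXS σ) (MvPolynomial (Fin N) ℂ) :=
  ptS e fun a => (σ a).actI (A1_g σ N a) (A1_h σ N a) (A1_x e a)

/-- the generic value -/
private noncomputable def A1_P (e : (Σ a, (σ a).Idx) ≃ Fin N) (f : MvPolynomial (Fin N) ℂ) :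
    MvPolynomial (GXS σ) (MvPolynomial (Fin N) ℂ) :=
  aeval (A1_pt e) f

/-- evaluation of the generic value -/
private noncomputable def A1_psi {R : Type} [CommRing R] [Algebra ℂ R]
    (e : (Σ a, (σ a).Idx) ≃ Fin N) (v : GXS σ → R) (Y : ∀ a, (σ a).Idx → R) :
    MvPolynomial (GXS σ) (MvPolynomial (Fin N) ℂ) →+* R :=
  eval₂Hom ((aeval (ptS e Y) : MvPolynomial (Fin N) ℂ →ₐ[ℂ] R) : MvPolynomial (Fin N) ℂ →+* R) v

private theorem A1_ptS {R : Type} (e : (Σ a, (σ a).Idx) ≃ Fin N) (Y : ∀ a, (σ a).Idx → R)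
    (a : Fin s) (p : (σ a).Idx) : ptS e Y (e ⟨a, p⟩) = Y a p := by
  unfold ptS
  rw [Equiv.symm_apply_apply]

/-- the value of a ring homomorphism at the generic point -/
private theorem A1_hom {S : Type} [CommRing S] (e : (Σ a, (σ a).Idx) ≃ Fin N)
    (φ : MvPolynomial (GXS σ) (MvPolynomial (Fin N) ℂ) →+* S)
    (g : ∀ a, Matrix (Fin (σ a).row) (Fin (σ a).row) S)
    (h : ∀ a, Matrix (Fin (σ a).col) (Fin (σ a).col) S) (Y : ∀ a, (σ a).Idx → S)
    (hg : ∀ a i j, φ (X (Sum.inl ⟨a, (i, j)⟩)) = g a i j)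
    (hh : ∀ a i j, φ (X (Sum.inr ⟨a, (i, j)⟩)) = h a i j)
    (hY : ∀ a p, φ (C (X (e ⟨a, p⟩))) = Y a p) (x : Fin N) :
    φ (A1_pt e x) = ptS e (fun a => (σ a).actI (g a) (h a) (Y a)) x := by
  have eg : ∀ a, (A1_g σ N a).map φ = g a := fun a => by
    ext i j
    exact hg a i j
  have eh : ∀ a, (A1_h σ N a).map φ = h a := fun a => by
    ext i j
    exact hh a i j
  have eY : ∀ a, (fun p => φ (A1_x e a p)) = Y a := fun a => by
    funext p
    exact hY a p
  have key := Shp.actI_map (σ (e.symm x).1) φ (A1_g σ N (e.symm x).1) (A1_h σ N (e.symm x).1)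
    (A1_x e (e.symm x).1) (e.symm x).2
  rw [eg, eh, eY] at key
  exact key.symm

private theorem A1_psi_P {R : Type} [CommRing R] [Algebra ℂ R]
    (e : (Σ a, (σ a).Idx) ≃ Fin N)
    (g : ∀ a, Matrix (Fin (σ a).row) (Fin (σ a).row) R)
    (h : ∀ a, Matrix (Fin (σ a).col) (Fin (σ a).col) R)
    (Y : ∀ a, (σ a).Idx → R) (f : MvPolynomial (Fin N) ℂ) :
    A1_psi e (ghS g h) Y (A1_P e f) = aeval (ptS e fun a => (σ a).actI (g a) (h a) (Y a)) f := by
  have key : ∀ x, A1_psi e (ghS g h) Y (A1_pt e x) =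
      ptS e (fun a => (σ a).actI (g a) (h a) (Y a)) x := by
    refine A1_hom e _ g h Y ?_ ?_ ?_
    · intro a i j
      unfold A1_psi
      rw [eval₂Hom_X']
      rfl
    · intro a i j
      unfold A1_psi
      rw [eval₂Hom_X']
      rfl
    · intro a p
      unfold A1_psi
      rw [eval₂Hom_C, RingHom.coe_coe, aeval_X, A1_ptS]
  induction f using MvPolynomial.induction_on with
  | C a =>
    unfold A1_P
    rw [← algebraMap_eq, AlgHom.commutes, AlgHom.commutes]
    unfold A1_psi
    rw [IsScalarTower.algebraMap_apply ℂ (MvPolynomial (Fin N) ℂ), MvPolynomial.algebraMap_eq,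
      coe_eval₂Hom, eval₂_C, RingHom.coe_coe, AlgHom.commutes]
  | add p q hp hq =>
    unfold A1_P at hp hq ⊢
    rw [map_add, map_add, hp, hq, map_add]
  | mul_X p x hp =>
    unfold A1_P at hp ⊢
    rw [map_mul, map_mul, hp, map_mul, aeval_X, aeval_X]
    congr 1
    exact key _

theorem shSub_expand (e : (Σ a, (σ a).Idx) ≃ Fin N) (I : Ideal (MvPolynomial (Fin N) ℂ))
    (hI : ShStable σ e I) (f : MvPolynomial (Fin N) ℂ) (hf : f ∈ I) :
    ∃ (K : ℕ) (c : Fin K → MvPolynomial (GXS σ) ℂ) (F : Fin K → MvPolynomial (Fin N) ℂ),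
      (∀ j, F j ∈ I) ∧ ∀ {R : Type} [CommRing R] [Algebra ℂ R]
        (g : ∀ a, Matrix (Fin (σ a).row) (Fin (σ a).row) R)
        (h : ∀ a, Matrix (Fin (σ a).col) (Fin (σ a).col) R) (Y : ∀ a, (σ a).Idx → R),
        aeval (ptS e fun a => (σ a).actI (g a) (h a) (Y a)) f =
          ∑ j, aeval (ghS g h) (c j) * aeval (ptS e Y) (F j) := by
  classical
  -- the coefficients lie in `I`
  have hcoeff : ∀ ν, (A1_P e f).coeff ν ∈ I := by
    set Δ : MvPolynomial (GXS σ) ℂ :=
      (∏ a, (Matrix.of fun i j : Fin (σ a).row => (X (Sum.inl ⟨a, (i, j)⟩) :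
        MvPolynomial (GXS σ) ℂ)).det) *
      ∏ a, (Matrix.of fun i j : Fin (σ a).col => (X (Sum.inr ⟨a, (i, j)⟩) :
        MvPolynomial (GXS σ) ℂ)).det with hΔ
    have hev : ∀ c : GXS σ → ℂ, eval c Δ =
        (∏ a, (Matrix.of fun i j : Fin (σ a).row => c (Sum.inl ⟨a, (i, j)⟩)).det) *
        ∏ a, (Matrix.of fun i j : Fin (σ a).col => c (Sum.inr ⟨a, (i, j)⟩)).det := by
      intro c
      rw [hΔ, map_mul, map_prod, map_prod]
      congr 1
      · refine Finset.prod_congr rfl fun a _ => ?_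
        rw [RingHom.map_det]
        congr 1
        ext i j
        simp
      · refine Finset.prod_congr rfl fun a _ => ?_
        rw [RingHom.map_det]
        congr 1
        ext i j
        simp
    have hΔ0 : Δ ≠ 0 := by
      intro h0
      have h1 := hev (ghS (fun _ => 1) fun _ => 1)
      rw [h0, map_zero] at h1
      have h2 : ∀ a, (Matrix.of fun i j : Fin (σ a).row =>
          ghS (σ := σ) (R := ℂ) (fun _ => 1) (fun _ => 1) (Sum.inl ⟨a, (i, j)⟩)) =
            (1 : Matrix (Fin (σ a).row) (Fin (σ a).row) ℂ) := fun a => rfl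
      have h3 : ∀ a, (Matrix.of fun i j : Fin (σ a).col =>
          ghS (σ := σ) (R := ℂ) (fun _ => 1) (fun _ => 1) (Sum.inr ⟨a, (i, j)⟩)) =
            (1 : Matrix (Fin (σ a).col) (Fin (σ a).col) ℂ) := fun a => rfl
      simp only [h2, h3, Matrix.det_one, Finset.prod_const_one, mul_one] at h1
      exact zero_ne_one h1
    refine coeff_mem_of_eval I _ Δ hΔ0 ?_
    intro c hc
    rw [hev] at hc
    have hc1 := left_ne_zero_of_mul hc
    have hc2 := right_ne_zero_of_mul hc
    rw [Finset.prod_ne_zero_iff] at hc1 hc2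
    have hmem := hI (fun a => Matrix.of fun i j => c (Sum.inl ⟨a, (i, j)⟩))
      (fun a => Matrix.of fun i j => c (Sum.inr ⟨a, (i, j)⟩))
      (fun a => hc1 a (Finset.mem_univ a)) (fun a => hc2 a (Finset.mem_univ a)) f hf
    have hkey : (eval fun v => algebraMap ℂ (MvPolynomial (Fin N) ℂ) (c v)) (A1_P e f) =
        shSub σ e (fun a => Matrix.of fun i j => c (Sum.inl ⟨a, (i, j)⟩))
          (fun a => Matrix.of fun i j => c (Sum.inr ⟨a, (i, j)⟩)) f := by
      unfold A1_P shSub
      have h1 : ((eval fun v => algebraMap ℂ (MvPolynomial (Fin N) ℂ) (c v)).comp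
          ((aeval (A1_pt e) : MvPolynomial (Fin N) ℂ →ₐ[ℂ] _) :
            MvPolynomial (Fin N) ℂ →+* MvPolynomial (GXS σ) (MvPolynomial (Fin N) ℂ))) =
          ((aeval fun x : Fin N =>
            (σ (e.symm x).1).act
              ((Matrix.of fun i j => c (Sum.inl ⟨(e.symm x).1, (i, j)⟩)).map C)
              ((Matrix.of fun i j => c (Sum.inr ⟨(e.symm x).1, (i, j)⟩)).map C)
              ((σ (e.symm x).1).mat fun p => X (e ⟨(e.symm x).1, p⟩))
              ((σ (e.symm x).1).pr (e.symm x).2) ((σ (e.symm x).1).pc (e.symm x).2) :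
              MvPolynomial (Fin N) ℂ →ₐ[ℂ] _) :
            MvPolynomial (Fin N) ℂ →+* MvPolynomial (Fin N) ℂ) := by
        apply MvPolynomial.ringHom_ext
        · intro r
          rw [RingHom.comp_apply, RingHom.coe_coe, RingHom.coe_coe, ← algebraMap_eq,
            AlgHom.commutes, AlgHom.commutes,
            IsScalarTower.algebraMap_apply ℂ (MvPolynomial (Fin N) ℂ),
            MvPolynomial.algebraMap_eq]
          exact eval_C _
        · intro x
          rw [RingHom.comp_apply, RingHom.coe_coe, RingHom.coe_coe, aeval_X, aeval_X]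
          exact A1_hom e (eval fun v => algebraMap ℂ (MvPolynomial (Fin N) ℂ) (c v))
            (fun a => (Matrix.of fun i j => c (Sum.inl ⟨a, (i, j)⟩)).map C)
            (fun a => (Matrix.of fun i j => c (Sum.inr ⟨a, (i, j)⟩)).map C)
            (fun a p => X (e ⟨a, p⟩))
            (fun a i j => by rw [eval_X]; rfl) (fun a i j => by rw [eval_X]; rfl)
            (fun a p => by rw [eval_C]) x
      exact RingHom.congr_fun h1 f
    rw [hkey]
    exact hmem
  refine ⟨(A1_P e f).support.card,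
    fun j => monomial ((A1_P e f).support.equivFin.symm j : GXS σ →₀ ℕ) 1,
    fun j => (A1_P e f).coeff ((A1_P e f).support.equivFin.symm j : GXS σ →₀ ℕ),
    fun j => hcoeff _, ?_⟩
  intro R _ _ g h Y
  rw [← A1_psi_P]
  conv_lhs => rw [(A1_P e f).as_sum]
  rw [map_sum, ← Finset.sum_coe_sort, ← Equiv.sum_comp (A1_P e f).support.equivFin.symm]
  refine Finset.sum_congr rfl fun j _ => ?_
  unfold A1_psi
  rw [coe_eval₂Hom, eval₂_monomial, aeval_monomial, map_one, one_mul, mul_comm]
  rfl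

end MotMono
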