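import Pool.Agent.Lib.MP_4e5fcd_ag.Cl.A1

/-! # CL-A2: consequences of the expansion

PROOF. All from `shSub_expand`. `aeval_shSub`: both sides are algebra homomorphisms in `f`, compare on
`X x` (`actI_map`-type computation). `exists_familyS`: `F = ∑ j, (aeval (ghS g h) (c j)).map C * C (F j)`
(the first factor is a polynomial in one variable over `ℂ`, mapped to `Polynomial (MvPolynomial ..)`);
its coefficients are linear combinations of the `F j`; its values by `shSub_expand` with `R = ℂ` and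
the compatibility of `aeval (ghS g h) (c j)` with the evaluation at `c`. -/

open MvPolynomial

namespace MotMono

variable {s N : ℕ} {σ : Fin s → Shp}

private theorem A2_key {R : Type} [CommRing R] [Algebra ℂ R] (e : (Σ a, (σ a).Idx) ≃ Fin N)
    (g : ∀ a, Matrix (Fin (σ a).row) (Fin (σ a).row) ℂ)
    (h : ∀ a, Matrix (Fin (σ a).col) (Fin (σ a).col) ℂ) (Y : ∀ a, (σ a).Idx → R)
    (a : Fin s) (p : (σ a).Idx) :
    aeval (ptS e Y) ((σ a).act ((g a).map C) ((h a).map C)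
      ((σ a).mat fun p => (X (e ⟨a, p⟩) : MvPolynomial (Fin N) ℂ)) ((σ a).pr p) ((σ a).pc p)) =
      (σ a).actI ((g a).map (algebraMap ℂ R)) ((h a).map (algebraMap ℂ R)) (Y a) p := by
  have h1 := Shp.actI_map (σ a) ((aeval (ptS e Y) : MvPolynomial (Fin N) ℂ →ₐ[ℂ] R) :
    MvPolynomial (Fin N) ℂ →+* R) ((g a).map C) ((h a).map C)
    (fun p => (X (e ⟨a, p⟩) : MvPolynomial (Fin N) ℂ)) p
  have h2 : ((g a).map (C : ℂ →+* MvPolynomial (Fin N) ℂ)).map
      ((aeval (ptS e Y) : MvPolynomial (Fin N) ℂ →ₐ[ℂ] R) : MvPolynomial (Fin N) ℂ →+* R) =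
      (g a).map (algebraMap ℂ R) := by
    ext i j
    simp
  have h3 : ((h a).map (C : ℂ →+* MvPolynomial (Fin N) ℂ)).map
      ((aeval (ptS e Y) : MvPolynomial (Fin N) ℂ →ₐ[ℂ] R) : MvPolynomial (Fin N) ℂ →+* R) =
      (h a).map (algebraMap ℂ R) := by
    ext i j
    simp
  have h4 : (fun p => ((aeval (ptS e Y) : MvPolynomial (Fin N) ℂ →ₐ[ℂ] R) :
      MvPolynomial (Fin N) ℂ →+* R) ((X (e ⟨a, p⟩) : MvPolynomial (Fin N) ℂ))) = Y a := by
    funext q
    rw [RingHom.coe_coe, aeval_X]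
    unfold ptS
    rw [Equiv.symm_apply_apply]
  rw [h2, h3, h4] at h1
  exact h1.symm

private theorem A2_ev {ι : Type} (v : ι → ℂ) (f : MvPolynomial ι ℂ) :
    aeval v f = eval v f := by
  rw [aeval_def, Algebra.algebraMap_self, eval₂_id]

private theorem A2_XM (e : (Σ a, (σ a).Idx) ≃ Fin N) (F : MvPolynomial (Fin N) ℂ) :
    aeval (ptS e fun a p => (X (e ⟨a, p⟩) : MvPolynomial (Fin N) ℂ)) F = F := by
  have h1 : (ptS e fun a p => (X (e ⟨a, p⟩) : MvPolynomial (Fin N) ℂ)) = X := by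
    funext x
    unfold ptS
    exact congrArg X (e.apply_symm_apply x)
  rw [h1, aeval_X_left_apply]

theorem aeval_shSub {R : Type} [CommRing R] [Algebra ℂ R] (e : (Σ a, (σ a).Idx) ≃ Fin N)
    (g : ∀ a, Matrix (Fin (σ a).row) (Fin (σ a).row) ℂ)
    (h : ∀ a, Matrix (Fin (σ a).col) (Fin (σ a).col) ℂ) (Y : ∀ a, (σ a).Idx → R)
    (f : MvPolynomial (Fin N) ℂ) :
    aeval (ptS e Y) (shSub σ e g h f) =
      aeval (ptS e fun a => (σ a).actI ((g a).map (algebraMap ℂ R)) ((h a).map (algebraMap ℂ R))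
        (Y a)) f := by
  have h1 : (aeval (ptS e Y)).comp (shSub σ e g h) =
      aeval (ptS e fun a => (σ a).actI ((g a).map (algebraMap ℂ R)) ((h a).map (algebraMap ℂ R))
        (Y a)) := by
    apply MvPolynomial.algHom_ext
    intro x
    rw [AlgHom.comp_apply]
    unfold shSub
    rw [aeval_X, aeval_X]
    exact A2_key e g h Y (e.symm x).1 (e.symm x).2
  rw [← h1]
  rfl

theorem eval_shSub (e : (Σ a, (σ a).Idx) ≃ Fin N)
    (g : ∀ a, Matrix (Fin (σ a).row) (Fin (σ a).row) ℂ)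
    (h : ∀ a, Matrix (Fin (σ a).col) (Fin (σ a).col) ℂ) (Y : ∀ a, (σ a).Idx → ℂ)
    (f : MvPolynomial (Fin N) ℂ) :
    eval (ptS e Y) (shSub σ e g h f) = eval (ptS e fun a => (σ a).actI (g a) (h a) (Y a)) f := by
  have h1 := aeval_shSub (R := ℂ) e g h Y f
  rw [A2_ev, A2_ev] at h1
  simp only [Algebra.algebraMap_self] at h1
  exact h1

theorem shSub_mem (e : (Σ a, (σ a).Idx) ≃ Fin N) (I : Ideal (MvPolynomial (Fin N) ℂ))
    (hI : ShStable σ e I) (f : MvPolynomial (Fin N) ℂ) (hf : f ∈ I)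
    (g : ∀ a, Matrix (Fin (σ a).row) (Fin (σ a).row) ℂ)
    (h : ∀ a, Matrix (Fin (σ a).col) (Fin (σ a).col) ℂ) : shSub σ e g h f ∈ I := by
  obtain ⟨K, c, F, hF, hexp⟩ := shSub_expand e I hI f hf
  have h1 : shSub σ e g h f = ∑ j, aeval (ghS (σ := σ) (fun a => (g a).map (algebraMap ℂ _))
      fun a => (h a).map (algebraMap ℂ _)) (c j) * F j := by
    rw [← A2_XM e (shSub σ e g h f), aeval_shSub, hexp]
    simp only [A2_XM]
  rw [h1]
  exact Ideal.sum_mem _ fun j _ => I.mul_mem_left _ (hF j)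

theorem dvd_actS (e : (Σ a, (σ a).Idx) ≃ Fin N) (I : Ideal (MvPolynomial (Fin N) ℂ))
    (hI : ShStable σ e I) (Y : ∀ a, (σ a).Idx → PowerSeries ℂ) (k : ℕ)
    (hY : ∀ f ∈ I, (PowerSeries.X : PowerSeries ℂ) ^ k ∣ aeval (ptS e Y) f)
    (g : ∀ a, Matrix (Fin (σ a).row) (Fin (σ a).row) (PowerSeries ℂ))
    (h : ∀ a, Matrix (Fin (σ a).col) (Fin (σ a).col) (PowerSeries ℂ)) :
    ∀ f ∈ I, (PowerSeries.X : PowerSeries ℂ) ^ k ∣
      aeval (ptS e fun a => (σ a).actI (g a) (h a) (Y a)) f := by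
  intro f hf
  obtain ⟨K, c, F, hF, hexp⟩ := shSub_expand e I hI f hf
  rw [hexp]
  exact Finset.dvd_sum fun j _ => Dvd.dvd.mul_left (hY _ (hF j)) _

/-- the same for polynomials in one variable -/
theorem dvd_actS_poly (e : (Σ a, (σ a).Idx) ≃ Fin N) (I : Ideal (MvPolynomial (Fin N) ℂ))
    (hI : ShStable σ e I) (Y : ∀ a, (σ a).Idx → Polynomial ℂ) (k : ℕ)
    (hY : ∀ f ∈ I, (Polynomial.X : Polynomial ℂ) ^ k ∣ aeval (ptS e Y) f)
    (g : ∀ a, Matrix (Fin (σ a).row) (Fin (σ a).row) (Polynomial ℂ))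
    (h : ∀ a, Matrix (Fin (σ a).col) (Fin (σ a).col) (Polynomial ℂ)) :
    ∀ f ∈ I, (Polynomial.X : Polynomial ℂ) ^ k ∣
      aeval (ptS e fun a => (σ a).actI (g a) (h a) (Y a)) f := by
  intro f hf
  obtain ⟨K, c, F, hF, hexp⟩ := shSub_expand e I hI f hf
  rw [hexp]
  exact Finset.dvd_sum fun j _ => Dvd.dvd.mul_left (hY _ (hF j)) _

/-- one-parameter families of substitutions -/
theorem exists_familyS (e : (Σ a, (σ a).Idx) ≃ Fin N) (I : Ideal (MvPolynomial (Fin N) ℂ))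
    (hI : ShStable σ e I) (f : MvPolynomial (Fin N) ℂ) (hf : f ∈ I)
    (g : ∀ a, Matrix (Fin (σ a).row) (Fin (σ a).row) (Polynomial ℂ))
    (h : ∀ a, Matrix (Fin (σ a).col) (Fin (σ a).col) (Polynomial ℂ)) :
    ∃ F : Polynomial (MvPolynomial (Fin N) ℂ), (∀ k, F.coeff k ∈ I) ∧
      ∀ (x : ∀ a, (σ a).Idx → ℂ) (c : ℂ),
        (F.map (eval (ptS e x))).eval c =
          eval (ptS e fun a => (σ a).actI ((g a).map (Polynomial.eval c))
            ((h a).map (Polynomial.eval c)) (x a)) f := by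
  obtain ⟨K, c, F, hF, hexp⟩ := shSub_expand e I hI f hf
  refine ⟨∑ j, (aeval (ghS g h) (c j) : Polynomial ℂ).map (C : ℂ →+* MvPolynomial (Fin N) ℂ) *
    Polynomial.C (F j), fun k => ?_, fun x c₀ => ?_⟩
  · rw [Polynomial.finsetSum_coeff]
    refine Ideal.sum_mem _ fun j _ => ?_
    rw [Polynomial.coeff_mul_C]
    exact I.mul_mem_left _ (hF j)
  · have h0 := hexp (R := ℂ) (fun a => (g a).map (Polynomial.eval c₀))
      (fun a => (h a).map (Polynomial.eval c₀)) x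
    rw [A2_ev] at h0
    rw [h0, Polynomial.map_sum, Polynomial.eval_finsetSum]
    refine Finset.sum_congr rfl fun j _ => ?_
    have h2 : (eval (ptS e x)).comp (C : ℂ →+* MvPolynomial (Fin N) ℂ) = RingHom.id ℂ := by
      ext r
      simp
    rw [Polynomial.map_mul, Polynomial.eval_mul, Polynomial.map_C, Polynomial.eval_C,
      Polynomial.map_map, h2, Polynomial.map_id]
    congr 1
    have h3 : (Polynomial.aeval c₀ : Polynomial ℂ →ₐ[ℂ] ℂ).comp (aeval (ghS g h)) =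
        aeval (ghS (σ := σ) (fun a => (g a).map (Polynomial.eval c₀))
          (fun a => (h a).map (Polynomial.eval c₀))) := by
      apply MvPolynomial.algHom_ext
      intro v
      rw [AlgHom.comp_apply, aeval_X, aeval_X]
      rcases v with v | v
      · exact congrFun (Polynomial.coe_aeval_eq_eval c₀) _
      · exact congrFun (Polynomial.coe_aeval_eq_eval c₀) _
    rw [← h3, AlgHom.comp_apply, Polynomial.coe_aeval_eq_eval]

end MotMono
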