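import Pool.Agent.Lib.MP_4e5fcd_ag.Cl.K0

/-! # CL-B1S: the measure of the profiles (port of `Det/B1.lean`: replace `m`, `n` by the shape `σ`,
`(m - i) * (n - i)` by `(σ.res i).dim`, `Rp (m - i) (n - i)` by `RpS (σ.res i)`; use `rk_res`,
`res_res`, `res_zero`) -/

open MvPolynomial

namespace MotMono

theorem sum_RpS (σ : Shp) : ∑ ρ ∈ Finset.range (σ.rk + 1), RpS σ ρ = 1 := by
  have h0 : σ.rk = 0 → σ.dim = 0 := by
    intro h
    cases σ with
    | gen m n =>
      simp only [Shp.rk] at h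
      simp [Shp.dim, h]
    | eps κ n =>
      cases κ with
      | true =>
        simp only [Shp.rk, if_true, Nat.div_one] at h
        simp [Shp.dim, h]
      | false =>
        have h1 : n / 2 = 0 := by simpa [Shp.rk] using h
        have h2 : n < 2 := by omega
        have h3 : n = 0 ∨ n = 1 := by omega
        rcases h3 with rfl | rfl <;> simp [Shp.dim]
  rcases Nat.eq_zero_or_pos σ.rk with hr | hr
  · rw [hr, zero_add, Finset.sum_range_one]
    simp [RpS, h0 hr]
  · rw [Finset.sum_range_succ]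
    have h1 : Finset.range σ.rk = insert 0 (Finset.Ioo 0 σ.rk) := by
      ext i
      simp only [Finset.mem_range, Finset.mem_insert, Finset.mem_Ioo]
      omega
    rw [h1, Finset.sum_insert (by simp)]
    have h2 : RpS σ 0 = Polynomial.X ^ σ.dim := by simp [RpS]
    have h3 : RpS σ σ.rk = 1 - Polynomial.X ^ σ.dim -
        ∑ ρ' ∈ Finset.Ioo 0 σ.rk, Polynomial.C (MvPolynomial.X (σ, ρ')) := by
      unfold RpS
      rw [if_neg (by omega), if_neg (by omega)]
    have h4 : ∑ ρ ∈ Finset.Ioo 0 σ.rk, RpS σ ρ =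
        ∑ ρ' ∈ Finset.Ioo 0 σ.rk, (Polynomial.C (MvPolynomial.X (σ, ρ')) : BqS) := by
      refine Finset.sum_congr rfl fun ρ hρ => ?_
      rw [Finset.mem_Ioo] at hρ
      unfold RpS
      rw [if_neg (by omega), if_pos hρ.2]
    rw [h2, h3, h4]
    ring

private theorem b1S_fg_congr (P P' : ℕ → Prop) [DecidablePred P] [DecidablePred P'] (k : ℕ)
    (h : ∀ j, 0 < j → j ≤ k → (P j ↔ P' j)) : Nat.findGreatest P k = Nat.findGreatest P' k := by
  induction k with
  | zero => rfl
  | succ k ih =>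
    rw [Nat.findGreatest_succ, Nat.findGreatest_succ, ih fun j h1 h2 => h j h1 (by omega)]
    have h2 := h (k + 1) (by omega) le_rfl
    by_cases h3 : P (k + 1)
    · rw [if_pos h3, if_pos (h2.1 h3)]
    · rw [if_neg h3, if_neg fun h4 => h3 (h2.2 h4)]

private theorem b1S_prevS_congr (b b' : ℕ → ℕ) (i : ℕ) (h : ∀ j < i, (b j ≠ 0 ↔ b' j ≠ 0)) :
    prevS b i = prevS b' i :=
  b1S_fg_congr _ _ _ fun j h1 h2 => h j (by omega)

theorem muS_congr (σ : Shp) (b b' : ℕ → ℕ) (h : ∀ i < σ.rk, b i = b' i) :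
    muS σ b = muS σ b' := by
  have hp : ∀ i ≤ σ.rk, prevS b i = prevS b' i := fun i hi =>
    b1S_prevS_congr b b' i fun j hj => by rw [h j (by omega)]
  unfold muS
  rw [hp σ.rk le_rfl]
  congr 1
  refine Finset.prod_congr rfl fun i hi => ?_
  rw [Finset.mem_range] at hi
  rw [h i hi, hp i hi.le]

theorem muS_of_zero (σ : Shp) (b : ℕ → ℕ) (h : ∀ i < σ.rk, b i = 0) :
    muS σ b = RpS σ σ.rk := by
  have hp : prevS b σ.rk = 0 := by
    unfold prevS
    rw [Nat.findGreatest_eq_zero_iff]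
    intro j h1 h2 h3
    exact h3 (h j (by omega))
  unfold muS
  rw [hp, Finset.prod_eq_one, one_mul, Nat.sub_zero, Shp.res_zero]
  intro i hi
  rw [Finset.mem_range] at hi
  rw [if_pos (h i hi)]

private theorem b1S_prevS_shift (b : ℕ → ℕ) (ρ : ℕ) (hb : b ρ ≠ 0) (i : ℕ) (hi : 1 ≤ i) :
    prevS b (ρ + i) = ρ + prevS (fun i => b (ρ + i) - if i = 0 then 1 else 0) i := by
  obtain ⟨k, rfl⟩ : ∃ k, i = k + 1 := ⟨i - 1, by omega⟩
  have h1 : ρ + (k + 1) - 1 = ρ + k := by omega
  have h2 : k + 1 - 1 = k := by omega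
  unfold prevS
  rw [h1, h2]
  clear h1 h2 hi
  induction k with
  | zero =>
    rw [Nat.findGreatest_zero, Nat.add_zero]
    rcases Nat.eq_zero_or_pos ρ with rfl | hρ
    · rfl
    · exact Nat.findGreatest_eq hb
  | succ k ih =>
    have h3 : ρ + (k + 1) = (ρ + k) + 1 := by omega
    have h5 : (b (ρ + k + 1) ≠ 0) ↔ (b (ρ + (k + 1)) - (if k + 1 = 0 then 1 else 0) ≠ 0) := by
      rw [if_neg (by omega), Nat.sub_zero, h3]
    rw [h3, Nat.findGreatest_succ, Nat.findGreatest_succ, ih]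
    by_cases h4 : b (ρ + k + 1) ≠ 0
    · rw [if_pos h4, if_pos (h5.1 h4)]
      omega
    · rw [if_neg h4, if_neg fun h6 => h4 (h5.2 h6)]

theorem muS_first (σ : Shp) (b : ℕ → ℕ) (ρ : ℕ) (hρ : ρ < σ.rk) (hb : b ρ ≠ 0)
    (h : ∀ i < ρ, b i = 0) :
    muS σ b = RpS σ ρ * muS (σ.res ρ) (fun i => b (ρ + i) - if i = 0 then 1 else 0) := by
  have hs := b1S_prevS_shift b ρ hb
  have hp0 : prevS b ρ = 0 := by
    unfold prevS
    rw [Nat.findGreatest_eq_zero_iff]
    intro j h1 h2 h3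
    exact h3 (h j (by omega))
  set b' : ℕ → ℕ := fun i => b (ρ + i) - if i = 0 then 1 else 0 with hb'
  have hb'0 : b' 0 = b ρ - 1 := by simp [hb']
  have hb's : ∀ i, 1 ≤ i → b' i = b (ρ + i) := by
    intro i hi
    simp only [hb']
    rw [if_neg (by omega), Nat.sub_zero]
  obtain ⟨q, hq⟩ : ∃ q, σ.rk = ρ + (q + 1) := ⟨σ.rk - ρ - 1, by omega⟩
  have hmρ : (σ.res ρ).rk = q + 1 := by rw [Shp.rk_res, hq]; omega
  unfold muS
  rw [hmρ]
  have hlast : prevS b σ.rk = ρ + prevS b' (q + 1) := by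
    rw [hq]
    exact hs (q + 1) (by omega)
  have e1 : σ.rk - prevS b σ.rk = q + 1 - prevS b' (q + 1) := by rw [hlast]; omega
  rw [e1, hlast, ← Shp.res_res]
  have hprod : (∏ i ∈ Finset.range σ.rk, if b i = 0 then (1 : BqS) else
      RpS (σ.res (prevS b i)) (i - prevS b i) *
        Polynomial.X ^ ((σ.res i).dim * (b i - 1))) =
      RpS σ ρ * ∏ i ∈ Finset.range (q + 1), if b' i = 0 then (1 : BqS) else
        RpS ((σ.res ρ).res (prevS b' i)) (i - prevS b' i) *
          Polynomial.X ^ (((σ.res ρ).res i).dim * (b' i - 1)) := by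
    have hr : Finset.range σ.rk = Finset.range (ρ + (q + 1)) := by rw [hq]
    rw [hr, Finset.prod_range_add, Finset.prod_eq_one (s := Finset.range ρ), one_mul,
      Finset.prod_range_succ', Finset.prod_range_succ']
    · have hF0 : (if b (ρ + 0) = 0 then (1 : BqS) else
          RpS (σ.res (prevS b (ρ + 0))) (ρ + 0 - prevS b (ρ + 0)) *
            Polynomial.X ^ ((σ.res (ρ + 0)).dim * (b (ρ + 0) - 1))) =
          RpS σ ρ * (if b' 0 = 0 then (1 : BqS) else
            RpS ((σ.res ρ).res (prevS b' 0)) (0 - prevS b' 0) *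
              Polynomial.X ^ (((σ.res ρ).res 0).dim * (b' 0 - 1))) := by
        rw [Nat.add_zero, if_neg hb, hp0, hb'0, Nat.sub_zero, Shp.res_zero]
        have hp'0 : prevS b' 0 = 0 := rfl
        rw [hp'0, Shp.res_zero]
        by_cases h1 : b ρ - 1 = 0
        · rw [if_pos h1, h1, Nat.mul_zero, pow_zero]
        · rw [if_neg h1]
          have h2 : RpS (σ.res ρ) (0 - 0) = (Polynomial.X : BqS) ^ (σ.res ρ).dim := by
            simp [RpS]
          rw [h2, ← pow_add]
          congr 2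
          obtain ⟨t, ht⟩ : ∃ t, b ρ - 1 = t + 1 := ⟨b ρ - 1 - 1, by omega⟩
          rw [ht, Nat.add_sub_cancel]
          ring
      rw [hF0]
      have hrest : ∀ k ∈ Finset.range q, (if b (ρ + (k + 1)) = 0 then (1 : BqS) else
          RpS (σ.res (prevS b (ρ + (k + 1)))) (ρ + (k + 1) - prevS b (ρ + (k + 1))) *
            Polynomial.X ^ ((σ.res (ρ + (k + 1))).dim * (b (ρ + (k + 1)) - 1))) =
          (if b' (k + 1) = 0 then (1 : BqS) else
            RpS ((σ.res ρ).res (prevS b' (k + 1))) (k + 1 - prevS b' (k + 1)) *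
              Polynomial.X ^ (((σ.res ρ).res (k + 1)).dim * (b' (k + 1) - 1))) := by
        intro k _
        rw [hb's (k + 1) (by omega), hs (k + 1) (by omega)]
        have f3 : ρ + (k + 1) - (ρ + prevS b' (k + 1)) = k + 1 - prevS b' (k + 1) := by omega
        rw [f3, Shp.res_res, Shp.res_res]
      rw [Finset.prod_congr rfl hrest]
      ring
    · intro i hi
      rw [Finset.mem_range] at hi
      rw [if_pos (h i hi)]
  rw [hprod, mul_assoc]

theorem muS_add (σ : Shp) (b u : ℕ → ℕ) (hu : ∀ i < σ.rk, u i ≠ 0 → b i ≠ 0) :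
    muS σ (fun i => b i + u i) =
      Polynomial.X ^ (∑ i ∈ Finset.range σ.rk, (σ.res i).dim * u i) * muS σ b := by
  have hp : ∀ i ≤ σ.rk, prevS (fun i => b i + u i) i = prevS b i := fun i hi =>
    b1S_prevS_congr _ _ i fun j hj => by
      have h1 := hu j (by omega)
      constructor
      · intro h2 h3
        by_cases h4 : u j = 0
        · exact h2 (by rw [h3, h4])
        · exact h1 h4 h3
      · intro h2 h3
        exact h2 (by omega)
  unfold muS
  rw [hp σ.rk le_rfl, ← Finset.prod_pow_eq_pow_sum, ← mul_assoc, ← Finset.prod_mul_distrib]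
  congr 1
  refine Finset.prod_congr rfl fun i hi => ?_
  rw [Finset.mem_range] at hi
  rw [hp i hi.le]
  by_cases h1 : b i = 0
  · have h2 : u i = 0 := by
      by_contra h3
      exact hu i hi h3 h1
    have h3 : b i + u i = 0 := by omega
    rw [if_pos h1, if_pos h3, h2, Nat.mul_zero, pow_zero, one_mul]
  · have h3 : ¬ b i + u i = 0 := by omega
    rw [if_neg h1, if_neg h3]
    have h2 : b i + u i - 1 = (b i - 1) + u i := by omega
    rw [h2, Nat.mul_add, pow_add]
    ring

theorem muS_dvd (σ : Shp) (hσ : σ.Le) (b : ℕ → ℕ) :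
    (Polynomial.X : BqS) ^ (∑ i ∈ Finset.range σ.rk, (b i - 1)) ∣ muS σ b := by
  unfold muS
  rw [← Finset.prod_pow_eq_pow_sum]
  refine Dvd.dvd.mul_right (Finset.prod_dvd_prod_of_dvd _ _ fun i hi => ?_) _
  rw [Finset.mem_range] at hi
  by_cases h1 : b i = 0
  · rw [if_pos h1, h1]
    simp
  · rw [if_neg h1]
    refine Dvd.dvd.mul_left (pow_dvd_pow _ ?_) _
    refine Nat.le_mul_of_pos_left _ ?_
    exact Shp.dim_res_pos σ hσ i hi

end MotMono
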