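import Pool.Agent.Lib.MP_4e5fcd_ag.Cl.B1S
import Pool.Agent.Lib.MP_4e5fcd_ag.Det.B2

/-! # CL-B2S: the first pivot (port of `Det/B2.lean`; `insF` and `b2_extb_ins` etc. are reused) -/

open MvPolynomial

namespace MotMono

theorem locFin_muS (σ : Shp) (hσ : σ.Le) (m : ℕ) (hm : σ.rk = m) :
    LocFin (fun b : Fin m → ℕ => muS σ (extb b)) := by
  intro j
  have hfin : {b : Fin m → ℕ | ∀ i, b i ∈ Set.Iic (j + 1)}.Finite :=
    Set.Finite.pi' (fun _ => Set.finite_Iic _)
  apply hfin.subset
  intro b hb i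
  simp only [Set.mem_setOf_eq] at hb
  rw [Set.mem_Iic]
  have h1 : ∑ i ∈ Finset.range m, (extb b i - 1) ≤ j := by
    by_contra hlt
    push Not at hlt
    apply hb
    have h0 := muS_dvd σ hσ (extb b)
    rw [hm] at h0
    exact (Polynomial.X_pow_dvd_iff.1 h0) j hlt
  have h2 : extb b i - 1 ≤ ∑ i ∈ Finset.range m, (extb b i - 1) :=
    Finset.single_le_sum (f := fun i => extb b i - 1) (fun _ _ => Nat.zero_le _)
      (Finset.mem_range.2 i.2)
  have h3 : extb b i = b i := by
    unfold extb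
    rw [dif_pos i.2]
  rw [h3] at h2
  omega

private theorem b2S_mu_ins (σ : Shp) {m ρ : ℕ} (hm : σ.rk = m) (hρ : ρ < m)
    (b : Fin (m - ρ) → ℕ) :
    muS σ (extb (insF ρ b)) = RpS σ ρ * muS (σ.res ρ) (extb b) := by
  rw [muS_first σ (extb (insF ρ b)) ρ (by omega)]
  · congr 1
    apply muS_congr
    intro i hi
    rw [Shp.rk_res, hm] at hi
    rw [b2_extb_ins b i hi]
    simp only [Nat.add_sub_cancel]
    unfold extb
    rw [dif_pos hi]
  · have h0 : 0 < m - ρ := by omega
    have h1 := b2_extb_ins b 0 h0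
    rw [Nat.add_zero, if_pos rfl] at h1
    rw [h1]
    exact Nat.succ_ne_zero _
  · intro i hi
    exact b2_extb_lt b i hi

open Classical in
theorem SS_firstS (σ : Shp) (hσ : σ.Le) (m : ℕ) (hm : σ.rk = m) (V : Set (Fin m → ℕ)) :
    SS (fun b : Fin m → ℕ => muS σ (extb b)) V =
      ∑ ρ ∈ Finset.range m, (RpS σ ρ : PowerSeries BuS) *
        SS (fun b : Fin (m - ρ) → ℕ => muS (σ.res ρ) (extb b)) {b | insF ρ b ∈ V} +
      if (fun _ => 0) ∈ V then (RpS σ m : PowerSeries BuS) else 0 := by
  set W : ℕ → Set (Fin m → ℕ) := fun ρ => insF ρ '' {b | insF ρ b ∈ V} with hW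
  have hWne : ∀ ρ ∈ Finset.range m, ∀ b ∈ W ρ, extb b ρ ≠ 0 ∧ ∀ i < ρ, extb b i = 0 := by
    rintro ρ hρ _ ⟨b, _, rfl⟩
    rw [Finset.mem_range] at hρ
    constructor
    · have h0 : 0 < m - ρ := by omega
      have h1 := b2_extb_ins b 0 h0
      rw [Nat.add_zero, if_pos rfl] at h1
      rw [h1]
      exact Nat.succ_ne_zero _
    · intro i hi
      exact b2_extb_lt b i hi
  have hV : V = (⋃ ρ ∈ Finset.range m, W ρ) ∪ (V ∩ {fun _ => 0}) := by
    ext b
    constructor
    · intro hb
      by_cases hb0 : b = fun _ => 0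
      · right
        exact ⟨hb, hb0⟩
      · left
        have hex : ∃ i, ∃ hi : i < m, b ⟨i, hi⟩ ≠ 0 := by
          by_contra hcon
          push Not at hcon
          apply hb0
          ext ⟨i, hi⟩
          exact hcon i hi
        have hspec := Nat.find_spec hex
        set ρ := Nat.find hex with hρ
        obtain ⟨hρm, hρ0⟩ := hspec
        have hmin : ∀ i : Fin m, (i : ℕ) < ρ → b i = 0 := by
          intro i hi
          have := Nat.find_min hex hi
          push Not at this
          exact this i.2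
        have hs := b2_ins_surj b hρm hρ0 hmin
        rw [Set.mem_iUnion₂]
        refine ⟨ρ, Finset.mem_range.2 hρm, _, ?_, hs⟩
        rw [Set.mem_setOf_eq, hs]
        exact hb
    · rintro (hb | hb)
      · rw [Set.mem_iUnion₂] at hb
        obtain ⟨ρ, _, b', hb', rfl⟩ := hb
        exact hb'
      · exact hb.1
  have hloc := locFin_muS σ hσ m hm
  have hdisj : Disjoint (⋃ ρ ∈ Finset.range m, W ρ) (V ∩ {fun _ => 0}) := by
    rw [Set.disjoint_left]
    rintro b hb ⟨_, hb0⟩
    rw [Set.mem_iUnion₂] at hb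
    obtain ⟨ρ, hρ, hbρ⟩ := hb
    apply (hWne ρ hρ b hbρ).1
    rw [Set.mem_singleton_iff] at hb0
    rw [hb0]
    unfold extb
    split_ifs <;> rfl
  have hdisj2 : ∀ i ∈ Finset.range m, ∀ j ∈ Finset.range m, i ≠ j → Disjoint (W i) (W j) := by
    intro i hi j hj hij
    rw [Set.disjoint_left]
    intro b hbi hbj
    have h1 := hWne i hi b hbi
    have h2 := hWne j hj b hbj
    rcases lt_or_gt_of_ne hij with h | h
    · exact h1.1 (h2.2 i h)
    · exact h2.1 (h1.2 j h)
  conv_lhs => rw [hV]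
  rw [SS_union hloc hdisj, SS_biUnion hloc _ _ hdisj2]
  congr 1
  · apply Finset.sum_congr rfl
    intro ρ hρ
    rw [Finset.mem_range] at hρ
    have hle : (σ.res ρ).Le := by
      cases σ with
      | gen p q =>
        simp only [Shp.Le] at hσ
        simp only [Shp.res, Shp.Le]
        omega
      | eps κ q => trivial
    exact SS_image (locFin_muS (σ.res ρ) hle (m - ρ) (by rw [Shp.rk_res, hm])) _ (insF ρ)
      b2_ins_inj.injOn _ (fun b _ => b2S_mu_ins σ hm hρ b)
  · by_cases h0 : (fun _ => 0) ∈ V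
    · rw [if_pos h0]
      have h1 : V ∩ {fun _ => 0} = {(fun _ => 0 : Fin m → ℕ)} := by
        ext b
        simp only [Set.mem_inter_iff, Set.mem_singleton_iff]
        constructor
        · exact fun h => h.2
        · intro h
          exact ⟨h ▸ h0, h⟩
      rw [h1, SS_singleton, muS_of_zero, hm]
      intro i hi
      rw [hm] at hi
      unfold extb
      rw [dif_pos hi]
    · rw [if_neg h0]
      have h1 : V ∩ {fun _ => 0} = (∅ : Set (Fin m → ℕ)) := by
        ext b
        simp only [Set.mem_inter_iff, Set.mem_singleton_iff, Set.mem_empty_iff_false, iff_false]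
        rintro ⟨h2, h3⟩
        exact h0 (h3 ▸ h2)
      rw [h1, SS_empty]

end MotMono
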