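import Pool.Agent.Lib.MP_4e5fcd_ag.Cl.B2S
import Pool.Agent.Lib.MP_4e5fcd_ag.Det.B3

/-! # CL-B3S: the measure of the profiles of a family (port of `Det/B3.lean`) -/

open MvPolynomial

namespace MotMono

variable {s : ℕ}

theorem locFin_muAS (σ : Fin s → Shp) (hσ : ∀ a, (σ a).Le) :
    LocFin (muAS σ : ((Σ a, Fin (σ a).rk) → ℕ) → BqS) := by
  intro j
  have h1 := locFin_pi (fun (a : Fin s) (b : Fin (σ a).rk → ℕ) => muS (σ a) (extb b))
    (fun a => locFin_muS (σ a) (hσ a) (σ a).rk rfl) j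
  let c : ((Σ a, Fin (σ a).rk) → ℕ) → ∀ a, Fin (σ a).rk → ℕ := fun b a i => b ⟨a, i⟩
  have hc : Function.Injective c := by
    intro b b' h
    funext ⟨a, i⟩
    exact congrFun (congrFun h a) i
  exact (h1.preimage hc.injOn)

private theorem b3S_part_add {m : Fin s → ℕ} (b u : (Σ a, Fin (m a)) → ℕ) (a : Fin s) :
    part (b + u) a = fun i => part b a i + part u a i := by
  funext i
  unfold part extb
  by_cases h : i < m a
  · simp only [dif_pos h, Pi.add_apply]
  · simp only [dif_neg h, Nat.add_zero]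

theorem muAS_add (σ : Fin s → Shp) (b u : (Σ a, Fin (σ a).rk) → ℕ)
    (hu : ∀ c, u c ≠ 0 → b c ≠ 0) :
    muAS σ (b + u) = Polynomial.X ^ pair (nufS σ) u * muAS σ b := by
  have h1 : pair (nufS σ) u = ∑ a, ∑ i ∈ Finset.range (σ a).rk,
      ((σ a).res i).dim * part (m := fun a => (σ a).rk) u a i := by
    unfold pair nufS
    rw [Fintype.sum_sigma]
    refine Finset.sum_congr rfl fun a _ => ?_
    rw [Finset.sum_range]
    refine Finset.sum_congr rfl fun i _ => ?_
    unfold part extb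
    rw [dif_pos i.2]
  unfold muAS
  rw [h1, ← Finset.prod_pow_eq_pow_sum, ← Finset.prod_mul_distrib]
  refine Finset.prod_congr rfl fun a _ => ?_
  rw [b3S_part_add (m := fun a => (σ a).rk)]
  refine muS_add (σ a) (part (m := fun a => (σ a).rk) b a)
    (part (m := fun a => (σ a).rk) u a) fun i hi h => ?_
  unfold part extb at h ⊢
  rw [dif_pos hi] at h ⊢
  exact hu _ h

end MotMono
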