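import Pool.Agent.Lib.MP_4e5fcd_ag.Cl.B2S
import Pool.Agent.Lib.MP_4e5fcd_ag.Det.B4

/-! # CL-B4S: classes of jets as sums over profiles (port of `Det/B4.lean`; `eb_insF` is reused) -/

open MvPolynomial

namespace MotMono

private theorem b4S_dim_zero (σ : Shp) (h : σ.rk = 0) : σ.dim = 0 := by
  cases σ with
  | gen m n =>
    have h1 : m = 0 := h
    show m * n = 0
    rw [h1, Nat.zero_mul]
  | eps κ n =>
    cases κ with
    | true =>
      have h1 : n / 1 = 0 := h
      rw [Nat.div_one] at h1
      rw [h1]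
      rfl
    | false =>
      have h1 : n / 2 = 0 := h
      have h2 : n < 2 := by omega
      interval_cases n <;> rfl

private theorem b4S_zero_mem {V : Set (Fin 0 → ℕ)} (b : Fin 0 → ℕ) (hb : b ∈ V) : V = {b} := by
  ext c
  rw [Set.mem_singleton_iff]
  constructor
  · intro _
    exact Subsingleton.elim _ _
  · rintro rfl
    exact hb

private theorem b4S_SS_zero (σ : Shp) (hm : σ.rk = 0) (V : Set (Fin 0 → ℕ))
    [Decidable ((fun _ => 0) ∈ V)] :
    SS (fun b : Fin 0 → ℕ => muS σ (extb b)) V = if (fun _ => 0) ∈ V then 1 else 0 := by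
  split_ifs with h
  · rw [b4S_zero_mem _ h, SS_singleton, muS_of_zero _ _ (fun i hi => absurd hi (by omega)), hm]
    unfold RpS
    rw [if_pos rfl, b4S_dim_zero σ hm]
    simp
  · have h1 : V = ∅ := by
      rw [Set.eq_empty_iff_forall_notMem]
      intro b hb
      apply h
      have : b = fun _ => 0 := Subsingleton.elim _ _
      rwa [this] at hb
    rw [h1, SS_empty]

theorem muS_total (σ : Shp) (hσ : σ.Le) (m : ℕ) (hm : σ.rk = m) :
    SS (fun b : Fin m → ℕ => muS σ (extb b)) Set.univ = 1 := by
  classical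
  induction m using Nat.strong_induction_on generalizing σ with
  | _ m ih =>
    rcases Nat.eq_zero_or_pos m with rfl | hpos
    · rw [b4S_SS_zero σ hm, if_pos (Set.mem_univ _)]
    · have h1 := SS_firstS σ hσ m hm Set.univ
      rw [if_pos (Set.mem_univ _)] at h1
      have huniv : ∀ ρ, {b : Fin (m - ρ) → ℕ | insF ρ b ∈ (Set.univ : Set (Fin m → ℕ))} =
          Set.univ := by
        intro ρ
        ext b
        simp
      have hr : Finset.range m = insert 0 (Finset.Ioo 0 m) := by
        ext i
        simp only [Finset.mem_range, Finset.mem_insert, Finset.mem_Ioo]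
        omega
      rw [hr, Finset.sum_insert (by simp)] at h1
      have h2 : ∑ ρ ∈ Finset.Ioo 0 m, (RpS σ ρ : PowerSeries BuS) *
          SS (fun b : Fin (m - ρ) → ℕ => muS (σ.res ρ) (extb b)) {b | insF ρ b ∈
            (Set.univ : Set (Fin m → ℕ))} = ∑ ρ ∈ Finset.Ioo 0 m, (RpS σ ρ : PowerSeries BuS) := by
        refine Finset.sum_congr rfl fun ρ hρ => ?_
        rw [Finset.mem_Ioo] at hρ
        rw [huniv, ih (m - ρ) (by omega) (σ.res ρ) (σ.le_res hσ ρ) (by rw [σ.rk_res, hm]), mul_one]
      have h3 : SS (fun b : Fin (m - 0) → ℕ => muS (σ.res 0) (extb b))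
          {b | insF 0 b ∈ (Set.univ : Set (Fin m → ℕ))} =
          SS (fun b : Fin m → ℕ => muS σ (extb b)) Set.univ := by
        rw [huniv, σ.res_zero]
        rfl
      rw [h2, h3] at h1
      have h4 : ((∑ ρ ∈ Finset.range (m + 1), RpS σ ρ : BqS) : PowerSeries BuS) =
        ((1 : BqS) : PowerSeries BuS) := by rw [← hm, sum_RpS σ]
      have h5 : ((∑ ρ ∈ Finset.range (m + 1), RpS σ ρ : BqS) : PowerSeries BuS) =
          ∑ ρ ∈ Finset.range (m + 1), (RpS σ ρ : PowerSeries BuS) :=
        map_sum (Polynomial.coeToPowerSeries.ringHom (R := BuS)) (fun ρ => RpS σ ρ)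
          (Finset.range (m + 1))
      rw [h5, Finset.sum_range_succ, hr, Finset.sum_insert (by simp), Polynomial.coe_one] at h4
      set F := SS (fun b : Fin m → ℕ => muS σ (extb b)) Set.univ with hF
      have h6 : (F - 1) * (1 - (RpS σ 0 : PowerSeries BuS)) = 0 := by
        have h7 : F = (RpS σ 0 : PowerSeries BuS) * F + (1 - (RpS σ 0 : PowerSeries BuS)) := by
          conv_lhs => rw [h1]
          rw [← h4]
          ring
        linear_combination h7
      rcases mul_eq_zero.1 h6 with h7 | h7
      · exact sub_eq_zero.1 h7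
      · exfalso
        have h8 : (RpS σ 0 : PowerSeries BuS) = PowerSeries.X ^ σ.dim := by
          unfold RpS
          rw [if_pos rfl]
          simp
        rw [h8] at h7
        have h10 : 0 < σ.dim := by
          have h11 := σ.dim_res_pos hσ 0 (by omega)
          rwa [σ.res_zero] at h11
        have h9 := congrArg (PowerSeries.constantCoeff (R := BuS)) h7
        rw [map_sub, map_one, map_pow, PowerSeries.constantCoeff_X, zero_pow (by omega), sub_zero,
          map_zero] at h9
        exact one_ne_zero h9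

private theorem b4S_ev_zero (b : ℕ → ℕ) (m : ℕ) (hb : ∀ i < m, b i = 0) (r : ℕ) (hr : r ≤ m) :
    ev b r = 0 := by
  unfold ev
  refine Finset.sum_eq_zero fun i hi => ?_
  rw [Finset.mem_range] at hi
  rw [hb i (by omega), Nat.mul_zero]

theorem PPS_eq_SS (L : ℕ) (σ : Shp) (hσ : σ.Le) (m : ℕ) (hm : σ.rk = m)
    (Φ : (ℕ → ℕ) → Prop) :
    ((PPS L σ Φ : BqS) : PowerSeries BuS) =
      SS (fun b : Fin m → ℕ => muS σ (extb b)) {b | Φ (eb m L (extb b))} := by
  classical
  induction L generalizing σ m Φ with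
  | zero =>
    have h1 : ∀ b : Fin m → ℕ, eb m 0 (extb b) = 0 := by
      intro b
      funext r
      unfold eb
      simp
    have h2 : PPS 0 σ Φ = if Φ 0 then 1 else 0 := by
      unfold PPS
      by_cases h : Φ 0
      · rw [if_pos h]
      · rw [if_neg h]
    rw [h2]
    by_cases h : Φ 0
    · rw [if_pos h, Polynomial.coe_one, ← muS_total σ hσ m hm]
      congr 1
      ext b
      simp only [Set.mem_univ, Set.mem_ofPred_eq, true_iff]
      rw [h1]
      exact h
    · rw [if_neg h, Polynomial.coe_zero, ← SS_empty (fun b : Fin m → ℕ => muS σ (extb b))]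
      congr 1
      ext b
      simp only [Set.mem_empty_iff_false, Set.mem_ofPred_eq, false_iff]
      rw [h1]
      exact h
  | succ L ih =>
    have h2 : PPS (L + 1) σ Φ = ∑ ρ ∈ Finset.range (m + 1),
      RpS σ ρ * PPS L (σ.res ρ) (fun E => Φ (shiftE ρ (L + 1) E)) := by
      rw [PPS, hm]
    have h3 : ((∑ ρ ∈ Finset.range (m + 1),
      RpS σ ρ * PPS L (σ.res ρ) (fun E => Φ (shiftE ρ (L + 1) E)) : BqS) : PowerSeries BuS) =
        ∑ ρ ∈ Finset.range (m + 1), (RpS σ ρ : PowerSeries BuS) *
          ((PPS L (σ.res ρ) (fun E => Φ (shiftE ρ (L + 1) E)) : BqS) : PowerSeries BuS) := by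
      have h4 := map_sum (Polynomial.coeToPowerSeries.ringHom (R := BuS)) (fun ρ =>
        RpS σ ρ * PPS L (σ.res ρ) (fun E => Φ (shiftE ρ (L + 1) E))) (Finset.range (m + 1))
      refine h4.trans (Finset.sum_congr rfl fun ρ _ => ?_)
      exact map_mul (Polynomial.coeToPowerSeries.ringHom (R := BuS)) _ _
    rw [h2, h3, SS_firstS σ hσ m hm, Finset.sum_range_succ]
    congr 1
    · refine Finset.sum_congr rfl fun ρ hρ => ?_
      rw [Finset.mem_range] at hρ
      rw [ih (σ.res ρ) (σ.le_res hσ ρ) (m - ρ) (by rw [σ.rk_res, hm])]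
      congr 2
      ext b
      simp only [Set.mem_ofPred_eq]
      rw [eb_insF m L ρ hρ b]
    · have hm0 : (σ.res m).rk = 0 := by rw [σ.rk_res, hm, Nat.sub_self]
      rw [ih (σ.res m) (σ.le_res hσ m) 0 hm0, b4S_SS_zero (σ.res m) hm0]
      have h5 : ((fun _ => 0) ∈ {b : Fin 0 → ℕ | Φ (shiftE m (L + 1) (eb 0 L (extb b)))}) ↔
          ((fun _ => 0) ∈ {b : Fin m → ℕ | Φ (eb m (L + 1) (extb b))}) := by
        simp only [Set.mem_ofPred_eq]
        have h6 : shiftE m (L + 1) (eb 0 L (extb (fun _ : Fin 0 => 0))) =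
            eb m (L + 1) (extb (fun _ : Fin m => 0)) := by
          funext r
          unfold shiftE eb
          by_cases hr : r ≤ m
          · rw [if_pos hr, if_pos (by omega), b4S_ev_zero (extb fun _ : Fin m => 0) m
              (fun i hi => by unfold extb; rw [dif_pos hi]) r hr,
              b4S_ev_zero (extb fun _ : Fin 0 => 0) 0 (fun i hi => absurd hi (Nat.not_lt_zero i))
              (r - m) (by omega)]
            simp only [Nat.min_zero, Nat.add_zero]
            omega
          · rw [if_neg hr, if_neg (by omega)]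
            omega
        rw [h6]
      by_cases h6 : ((fun _ => 0) ∈ {b : Fin m → ℕ | Φ (eb m (L + 1) (extb b))})
      · rw [if_pos (h5.2 h6), if_pos h6, mul_one]
      · rw [if_neg (fun h7 => h6 (h5.1 h7)), if_neg h6, mul_zero]

end MotMono
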