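import Pool.Agent.Lib.MP_4e5fcd_ag.Cl.Defs
import Pool.Agent.Lib.MP_4e5fcd_ag.Det.Base

/-!
# Spaces of generic, symmetric and skew-symmetric matrices: auxiliary definitions
-/

open MvPolynomial

namespace MotMono

open Classical in
/-- the order of the `t r × t r` minors, divided by `t` (rounded down) and cut off at `L` -/
noncomputable def etm {ι κ : Type} (t L : ℕ) (M : Matrix ι κ (PowerSeries ℂ)) (r : ℕ) : ℕ :=
  Nat.findGreatest (fun j => Dv (t * j) (t * r) M) L

namespace Shp

instance instFiniteIdx (σ : Shp) : Finite σ.Idx := by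
  cases σ <;> unfold Idx <;> infer_instance

/-- the size of a pivot: `2` for skew-symmetric matrices, else `1` -/
def st : Shp → ℕ
  | gen _ _ => 1
  | eps κ _ => if κ = true then 1 else 2

/-- the maximal number of pivots -/
def rk : Shp → ℕ
  | gen m _ => m
  | eps κ n => n / (if κ = true then 1 else 2)

/-- the dimension -/
def dim : Shp → ℕ
  | gen m n => m * n
  | eps κ n => n * (n - 1) / 2 + if κ = true then n else 0

/-- the shape of what remains after the elimination of `ρ` pivots -/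
def res : Shp → ℕ → Shp
  | gen m n, ρ => gen (m - ρ) (n - ρ)
  | eps κ n, ρ => eps κ (n - (if κ = true then 1 else 2) * ρ)

/-- the generic matrices have at least as many columns as rows -/
def Le : Shp → Prop
  | gen m n => m ≤ n
  | eps _ _ => True

/-- the independent entries of a matrix -/
def ent {R : Type} (σ : Shp) (M : Matrix (Fin σ.row) (Fin σ.col) R) : σ.Idx → R :=
  fun p => M (σ.pr p) (σ.pc p)

/-- the action on the independent entries -/
def actI {R : Type} [CommRing R] (σ : Shp) (g : Matrix (Fin σ.row) (Fin σ.row) R)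
    (h : Matrix (Fin σ.col) (Fin σ.col) R) (x : σ.Idx → R) : σ.Idx → R :=
  σ.ent (σ.act g h (σ.mat x))

open Classical in
/-- the independent entries of the matrix in normal form with the invariant factors `D i`: the
diagonal matrix, for skew-symmetric matrices the matrix with the entries `D i` at
`(2 i, 2 i + 1)` -/
noncomputable def dgI {R : Type} [CommRing R] (σ : Shp) (D : ℕ → R) : σ.Idx → R := fun p =>
  if (σ.pr p : ℕ) % σ.st = 0 ∧ (σ.pc p : ℕ) + 1 = σ.pr p + σ.st then D ((σ.pr p : ℕ) / σ.st) else 0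

/-- the vector of the orders of the `(st r)`-minors divided by `st`, cut off at `L` -/
noncomputable def et (σ : Shp) (L : ℕ) (x : σ.Idx → PowerSeries ℂ) (r : ℕ) : ℕ :=
  etm σ.st L (σ.mat x) r

/-- matrices with exactly `ρ` pivots -/
def RankS (σ : Shp) (ρ : ℕ) : Set (σ.Idx → ℂ) :=
  {x | (∃ (S : Fin (σ.st * ρ) → Fin σ.row) (T : Fin (σ.st * ρ) → Fin σ.col),
      ((σ.mat x).submatrix S T).det ≠ 0) ∧
    ∀ (S : Fin (σ.st * ρ + 1) → Fin σ.row) (T : Fin (σ.st * ρ + 1) → Fin σ.col),
      ((σ.mat x).submatrix S T).det = 0}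

end Shp

/-- the power series of a jet with `L` levels -/
noncomputable def ser {ι : Type} {L : ℕ} (γ : ι × Fin L → ℂ) : ι → PowerSeries ℂ :=
  fun i => PowerSeries.mk fun l => if h : l < L then γ (i, ⟨l, h⟩) else 0

/-- the jets whose vector of orders satisfies `Φ` -/
def SPS (σ : Shp) (L : ℕ) (Φ : (ℕ → ℕ) → Prop) : Set (σ.Idx × Fin L → ℂ) :=
  {γ | Φ (σ.et L (ser γ))}

/-! ### The universal ring -/

/-- coefficients: one variable for each rank stratum -/
abbrev BuS : Type := MvPolynomial (Shp × ℕ) ℤ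

/-- polynomials in `q = L⁻¹` -/
abbrev BqS : Type := Polynomial BuS

/-- the normalised class of the stratum of rank `ρ` -/
noncomputable def RpS (σ : Shp) (ρ : ℕ) : BqS :=
  if ρ = 0 then Polynomial.X ^ σ.dim
  else if ρ < σ.rk then Polynomial.C (MvPolynomial.X (σ, ρ))
  else 1 - Polynomial.X ^ σ.dim -
    ∑ ρ' ∈ Finset.Ioo 0 σ.rk, Polynomial.C (MvPolynomial.X (σ, ρ'))

/-- the homomorphism from the universal ring to `M_ℂ` -/
noncomputable def thetaS : BqS →+* MC :=
  Polynomial.eval₂RingHom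
    (MvPolynomial.eval₂Hom (Int.castRingHom MC) fun c : Shp × ℕ =>
      algebraMap K0 MC (cls (c.1.RankS c.2)) * ((Lu ^ (-(c.1.dim : ℤ)) : MCˣ) : MC))
    ((Lu⁻¹ : MCˣ) : MC)

open Classical in
/-- the normalised class of `SPS σ L Φ` in the universal ring -/
noncomputable def PPS : ℕ → Shp → ((ℕ → ℕ) → Prop) → BqS
  | 0, _, Φ => if Φ 0 then 1 else 0
  | L + 1, σ, Φ => ∑ ρ ∈ Finset.range (σ.rk + 1),
      RpS σ ρ * PPS L (σ.res ρ) (fun E => Φ (shiftE ρ (L + 1) E))

/-- the normalised class of the set of arcs with profile `b` -/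
noncomputable def muS (σ : Shp) (b : ℕ → ℕ) : BqS :=
  (∏ i ∈ Finset.range σ.rk, if b i = 0 then 1 else
    RpS (σ.res (prevS b i)) (i - prevS b i) *
      Polynomial.X ^ ((σ.res i).dim * (b i - 1))) *
    RpS (σ.res (prevS b σ.rk)) (σ.rk - prevS b σ.rk)

/-! ### Families of matrices -/

variable {s N : ℕ} {σ : Fin s → Shp}

/-- the codimensions of the rank strata -/
def nufS (σ : Fin s → Shp) : (Σ a, Fin (σ a).rk) → ℕ := fun c => ((σ c.1).res c.2).dim

/-- the measure of a profile of a family of matrices -/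
noncomputable def muAS (σ : Fin s → Shp) (b : (Σ a, Fin (σ a).rk) → ℕ) : BqS :=
  ∏ a, muS (σ a) (part (m := fun a => (σ a).rk) b a)

/-- the `a`-th matrix of a jet -/
def jetPartS (e : (Σ a, (σ a).Idx) ≃ Fin N) {L : ℕ} (γ : Fin N × Fin L → ℂ) (a : Fin s) :
    (σ a).Idx × Fin L → ℂ :=
  fun c => γ (e ⟨a, c.1⟩, c.2)

/-- the point with the given independent entries as coordinates -/
def ptS {R : Type} (e : (Σ a, (σ a).Idx) ≃ Fin N) (Y : ∀ a, (σ a).Idx → R) : Fin N → R :=
  fun x => Y (e.symm x).1 (e.symm x).2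

/-- the point whose matrices are in normal form with the invariant factors `D a i` -/
noncomputable def dgP {R : Type} [CommRing R] (e : (Σ a, (σ a).Idx) ≃ Fin N) (D : Fin s → ℕ → R) :
    Fin N → R :=
  ptS e fun a => (σ a).dgI (D a)

/-- the exponents of the monomials in the restriction of `I` to the points in normal form -/
def ExS (σ : Fin s → Shp) (e : (Σ a, (σ a).Idx) ≃ Fin N) (I : Ideal (MvPolynomial (Fin N) ℂ)) :
    Set ((Σ a, Fin (σ a).rk) → ℕ) :=
  {β | ∃ f ∈ I, ∀ D : Fin s → ℕ → ℂ, eval (dgP e D) f = ∏ c, D c.1 c.2 ^ β c}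

/-- the exponents `w (a, 0) + … `: the exponent of the invariant factor `D a i` in the product of
the `w (a, j)`-th powers of the products `D a 0 ⋯ D a j` -/
def wtS (w : (Σ a, Fin (σ a).rk) → ℕ) : (Σ a, Fin (σ a).rk) → ℕ :=
  fun c => ∑ i : Fin (σ c.1).rk, if c.2 ≤ i then w ⟨c.1, i⟩ else 0

end MotMono
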