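import Pool.Agent.Lib.MP_4e5fcd_ag.Cl.EDefs
import Pool.Agent.Lib.MP_4e5fcd_ag.Cl.A2

/-! # CL-E2: permutations of the exponents

PROOF. `exists_perm_act`: `g` = the permutation matrix of rows (`gen`, `eps true`: extend `π` by the
identity; `eps false n`: the rows `2 i, 2 i + 1` go to the rows `2 π i, 2 π i + 1`, the last row of odd `n` is
fixed), `h` = the corresponding permutation matrix of the columns (`gen`: extend `π` by the identity to
`Fin n`). A convenient form: `g i j = if j = τ i then 1 else 0` with `τ : Fin row → Fin row`, then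
`(g M gᵀ) i k = M (τ i) (τ k)`; use `mat_map`, `ent`, and the definition of `dgI`.
`exS_perm`: apply all these substitutions at once (`shSub_mem`, `eval_shSub`). -/

open MvPolynomial

namespace MotMono

variable {s N : ℕ} {σ : Fin s → Shp}

/-- the extension of a permutation by the identity -/
private def E2_ext {r : ℕ} (π : Equiv.Perm (Fin r)) (j : ℕ) : ℕ :=
  if h : j < r then (π ⟨j, h⟩ : ℕ) else j

private theorem E2_ext_lt {r : ℕ} (π : Equiv.Perm (Fin r)) {j : ℕ} (h : j < r) :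
    E2_ext π j = (π ⟨j, h⟩ : ℕ) := dif_pos h

private theorem E2_ext_ge {r : ℕ} (π : Equiv.Perm (Fin r)) {j : ℕ} (h : ¬ j < r) :
    E2_ext π j = j := dif_neg h

private theorem E2_ext_lt' {r : ℕ} (π : Equiv.Perm (Fin r)) {j : ℕ} (h : j < r) :
    E2_ext π j < r := by
  rw [E2_ext_lt π h]
  exact (π ⟨j, h⟩).2

private theorem E2_ext_inj {r : ℕ} (π : Equiv.Perm (Fin r)) {i j : ℕ}
    (h : E2_ext π i = E2_ext π j) : i = j := by
  by_cases hi : i < r
  · by_cases hj : j < r
    · rw [E2_ext_lt π hi, E2_ext_lt π hj] at h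
      have h1 := π.injective (Fin.ext h)
      exact congrArg Fin.val h1
    · exfalso
      have h1 := E2_ext_lt' π hi
      rw [h, E2_ext_ge π hj] at h1
      exact hj h1
  · by_cases hj : j < r
    · exfalso
      have h1 := E2_ext_lt' π hj
      rw [← h, E2_ext_ge π hi] at h1
      exact hi h1
    · rw [E2_ext_ge π hi, E2_ext_ge π hj] at h
      exact h

/-- the matrix which moves the rows -/
private def E2_row {m : ℕ} (f : Fin m → Fin m) : Matrix (Fin m) (Fin m) ℂ :=
  fun i j => if j = f i then 1 else 0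

/-- the matrix which moves the columns -/
private def E2_col {m : ℕ} (f : Fin m → Fin m) : Matrix (Fin m) (Fin m) ℂ :=
  fun i j => if i = f j then 1 else 0

private theorem E2_row_mul {R : Type} [CommRing R] [Algebra ℂ R] {m n : ℕ} (f : Fin m → Fin m)
    (M : Matrix (Fin m) (Fin n) R) (i : Fin m) (k : Fin n) :
    ((E2_row f).map (algebraMap ℂ R) * M) i k = M (f i) k := by
  rw [Matrix.mul_apply, Finset.sum_eq_single (f i)]
  · rw [Matrix.map_apply, E2_row, if_pos rfl, map_one, one_mul]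
  · intro j _ hj
    rw [Matrix.map_apply, E2_row, if_neg hj, map_zero, zero_mul]
  · intro h
    exact absurd (Finset.mem_univ _) h

private theorem E2_mul_col {R : Type} [CommRing R] [Algebra ℂ R] {m n : ℕ} (f : Fin n → Fin n)
    (M : Matrix (Fin m) (Fin n) R) (i : Fin m) (k : Fin n) :
    (M * (E2_col f).map (algebraMap ℂ R)) i k = M i (f k) := by
  rw [Matrix.mul_apply, Finset.sum_eq_single (f k)]
  · rw [Matrix.map_apply, E2_col, if_pos rfl, map_one, mul_one]
  · intro j _ hj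
    rw [Matrix.map_apply, E2_col, if_neg hj, map_zero, mul_zero]
  · intro h
    exact absurd (Finset.mem_univ _) h

private theorem E2_transpose {R : Type} [CommRing R] [Algebra ℂ R] {m : ℕ} (f : Fin m → Fin m) :
    ((E2_row f).map (algebraMap ℂ R)).transpose = (E2_col f).map (algebraMap ℂ R) := by
  ext i j
  rfl

private theorem E2_block {n t r : ℕ} (ht : 0 < t) (hr : r = n / t) (π : Equiv.Perm (Fin r))
    {i : ℕ} (hi : i < n) : t * E2_ext π (i / t) + i % t < n := by
  by_cases h : i / t < r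
  · have h1 := E2_ext_lt' π h
    have h2 : i % t < t := Nat.mod_lt _ ht
    have h3 : t * (E2_ext π (i / t) + 1) ≤ t * r := Nat.mul_le_mul_left t h1
    have h4 : t * r ≤ n := by rw [hr]; exact Nat.mul_div_le n t
    rw [mul_add, mul_one] at h3
    omega
  · rw [E2_ext_ge π h, Nat.div_add_mod]
    exact hi

private theorem E2_gen (m n : ℕ) (hmn : m ≤ n) (π : Equiv.Perm (Fin m)) :
    ∃ (g : Matrix (Fin m) (Fin m) ℂ) (h : Matrix (Fin n) (Fin n) ℂ),
      ∀ {R : Type} [CommRing R] [Algebra ℂ R] (D D' : ℕ → R),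
        (∀ i : Fin m, D' i = D (π i)) →
        (Shp.gen m n).actI (g.map (algebraMap ℂ R)) (h.map (algebraMap ℂ R))
          ((Shp.gen m n).dgI D) = (Shp.gen m n).dgI D' := by
  have hcol : ∀ k : Fin n, E2_ext π k < n := by
    intro k
    by_cases h : (k : ℕ) < m
    · exact lt_of_lt_of_le (E2_ext_lt' π h) hmn
    · rw [E2_ext_ge π h]
      exact k.2
  refine ⟨E2_row π, E2_col fun k => ⟨E2_ext π k, hcol k⟩, ?_⟩
  intro R _ _ D D' hD
  funext p
  obtain ⟨i, k⟩ := p
  show ((E2_row π).map (algebraMap ℂ R) * (Shp.gen m n).mat ((Shp.gen m n).dgI D) *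
    (E2_col fun k : Fin n => (⟨E2_ext π k, hcol k⟩ : Fin n)).map (algebraMap ℂ R)) i k = _
  rw [E2_mul_col, E2_row_mul]
  show (if (π i : ℕ) % 1 = 0 ∧ E2_ext π k + 1 = (π i : ℕ) + 1 then D ((π i : ℕ) / 1) else 0) =
    if (i : ℕ) % 1 = 0 ∧ (k : ℕ) + 1 = (i : ℕ) + 1 then D' ((i : ℕ) / 1) else 0
  rw [Nat.div_one, Nat.div_one, hD i]
  have hi : E2_ext π i = π i := E2_ext_lt π i.2
  by_cases hik : (k : ℕ) = i
  · rw [if_pos ⟨Nat.mod_one _, by rw [hik, hi]⟩, if_pos ⟨Nat.mod_one _, by rw [hik]⟩]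
  · rw [if_neg, if_neg]
    · rintro ⟨-, h2⟩
      exact hik (Nat.succ.inj h2)
    · rintro ⟨-, h2⟩
      apply hik
      apply E2_ext_inj π
      rw [hi]
      exact Nat.succ.inj h2

private theorem E2_eps (κ : Bool) (n : ℕ) (π : Equiv.Perm (Fin (Shp.eps κ n).rk)) :
    ∃ (g h : Matrix (Fin n) (Fin n) ℂ),
      ∀ {R : Type} [CommRing R] [Algebra ℂ R] (D D' : ℕ → R),
        (∀ i : Fin (Shp.eps κ n).rk, D' i = D (π i)) →
        (Shp.eps κ n).actI (g.map (algebraMap ℂ R)) (h.map (algebraMap ℂ R))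
          ((Shp.eps κ n).dgI D) = (Shp.eps κ n).dgI D' := by
  obtain ⟨t, ht⟩ : ∃ t, t = (Shp.eps κ n).st := ⟨_, rfl⟩
  have ht0 : 0 < t := by rw [ht]; exact Shp.st_pos _
  have hrk : (Shp.eps κ n).rk = n / t := by rw [ht]; rfl
  have hb : ∀ i : Fin n, t * E2_ext π (i / t) + i % t < n := fun i => E2_block ht0 hrk π i.2
  refine ⟨E2_row fun i => ⟨t * E2_ext π (i / t) + i % t, hb i⟩, 1, ?_⟩
  intro R _ _ D D' hD
  funext p
  obtain ⟨⟨i, k⟩, hp⟩ := p
  obtain ⟨f, hf⟩ : ∃ f : Fin n → Fin n, f = fun i => ⟨t * E2_ext π (i / t) + i % t, hb i⟩ :=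
    ⟨_, rfl⟩
  rw [← hf]
  show ((E2_row f).map (algebraMap ℂ R) * (Shp.eps κ n).mat ((Shp.eps κ n).dgI D) *
    ((E2_row f).map (algebraMap ℂ R)).transpose) i k = _
  rw [E2_transpose, E2_mul_col, E2_row_mul]
  have hfv : ∀ j : Fin n, (f j : ℕ) = t * E2_ext π (j / t) + j % t := fun j => by rw [hf]
  have hmod : ∀ j : Fin n, (f j : ℕ) % t = j % t := fun j => by
    rw [hfv, Nat.mul_add_mod, Nat.mod_mod]
  have hdiv : ∀ j : Fin n, (f j : ℕ) / t = E2_ext π (j / t) := fun j => by
    rw [hfv, Nat.mul_add_div ht0, Nat.div_eq_of_lt (Nat.mod_lt _ ht0), add_zero]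
  -- the entries of the normal form
  have hval : ∀ (E : ℕ → R) (a b : Fin n) (h : a < b ∨ κ = true ∧ a = b),
      (Shp.eps κ n).dgI E ⟨(a, b), h⟩ =
        if (a : ℕ) % t = 0 ∧ (b : ℕ) + 1 = a + t then E (a / t) else 0 := by
    intro E a b h
    rw [ht]
    unfold Shp.dgI
    exact if_congr Iff.rfl rfl rfl
  have hR : (Shp.eps κ n).dgI D' ⟨(i, k), hp⟩ =
      if (i : ℕ) % t = 0 ∧ (k : ℕ) + 1 = i + t then D' (i / t) else 0 := hval D' i k hp
  rw [hR]
  have hik : (i : ℕ) ≤ k := by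
    rcases hp with h | h
    · exact le_of_lt h
    · exact le_of_eq (congrArg Fin.val h.2)
  have hlt : ∀ (x : (Shp.eps κ n).Idx → R) (a b : Fin n) (h : a < b),
      (Shp.eps κ n).mat x a b = x ⟨(a, b), Or.inl h⟩ := by
    intro x a b h
    exact dif_pos h
  have hgt : ∀ (x : (Shp.eps κ n).Idx → R) (a b : Fin n) (h : b < a),
      (Shp.eps κ n).mat x a b = (if κ = true then 1 else -1) * x ⟨(b, a), Or.inl h⟩ := by
    intro x a b h
    exact (dif_neg (not_lt.2 h.le)).trans (dif_pos h)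
  have hne : ∀ {j l : Fin n}, (j : ℕ) / t = l / t → (j : ℕ) % t = l % t → j = l := by
    intro j l h1 h2
    apply Fin.ext
    rw [← Nat.div_add_mod j t, ← Nat.div_add_mod l t, h1, h2]
  have hfd : ∀ {j l : Fin n}, (f j : ℕ) / t = (f l : ℕ) / t → (j : ℕ) / t = l / t := by
    intro j l h
    rw [hdiv, hdiv] at h
    exact E2_ext_inj π h
  cases κ with
  | false =>
    have ht2 : t = 2 := ht
    have hlk : i < k := by
      rcases hp with h | h
      · exact h
      · exact absurd h.1 (by decide)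
    by_cases hc : (i : ℕ) % t = 0 ∧ (k : ℕ) + 1 = i + t
    · rw [if_pos hc]
      have hk2 := k.2
      have h1 : (i : ℕ) / t = k / t := by rw [ht2] at hc ⊢; omega
      have h2 : (i : ℕ) / t < (Shp.eps false n).rk := by rw [hrk]; rw [ht2] at hc ⊢; omega
      have h3 : (f i : ℕ) % t = 0 := by rw [hmod]; exact hc.1
      have h4 : (f k : ℕ) = f i + 1 := by
        rw [hfv, hfv, ← h1]
        rw [ht2] at hc ⊢
        omega
      have h5 : f i < f k := by
        rw [Fin.lt_def]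
        omega
      rw [hlt _ _ _ h5, hval, if_pos ⟨h3, by rw [h4, ht2]⟩, hdiv, E2_ext_lt π h2]
      exact (hD ⟨(i : ℕ) / t, h2⟩).symm
    · rw [if_neg hc]
      rcases lt_trichotomy (f i) (f k) with h | h | h
      · rw [hlt _ _ _ h, hval, if_neg]
        rintro ⟨h1, h2⟩
        rw [hmod] at h1
        apply hc
        have h3 : (f i : ℕ) / t = (f k : ℕ) / t := by
          have h4 := hmod i
          rw [ht2] at h1 h2 h4 ⊢
          omega
        have h5 := hfd h3
        rw [Fin.lt_def] at hlk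
        rw [ht2] at h1 h5 ⊢
        omega
      · rw [h]
        have h1 : (Shp.eps false n).mat ((Shp.eps false n).dgI D) (f k) (f k) = 0 :=
          (dif_neg (lt_irrefl _)).trans ((dif_neg (lt_irrefl _)).trans (dif_neg (by decide)))
        exact h1
      · rw [hgt _ _ _ h, hval, if_neg (c := (f k : ℕ) % t = 0 ∧ _), mul_zero]
        rintro ⟨h1, h2⟩
        rw [hmod] at h1
        have h3 : (f i : ℕ) / t = (f k : ℕ) / t := by
          have h4 := hmod k
          rw [ht2] at h1 h2 h4 ⊢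
          omega
        have h5 := hfd h3
        rw [Fin.lt_def] at hlk
        rw [ht2] at h1 h5
        omega
  | true =>
    have ht1 : t = 1 := ht
    have hfi : ∀ {j l : Fin n}, f j = f l → j = l := by
      intro j l h
      refine hne (hfd (by rw [h])) ?_
      rw [ht1, Nat.mod_one, Nat.mod_one]
    by_cases hc : i = k
    · subst hc
      rw [if_pos ⟨by rw [ht1, Nat.mod_one], by rw [ht1]⟩]
      have h1 : (Shp.eps true n).mat ((Shp.eps true n).dgI D) (f i) (f i) =
          (Shp.eps true n).dgI D ⟨(f i, f i), Or.inr ⟨rfl, rfl⟩⟩ :=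
        (dif_neg (lt_irrefl _)).trans ((dif_neg (lt_irrefl _)).trans (dif_pos rfl))
      have h2 : (i : ℕ) / t < (Shp.eps true n).rk := by
        rw [hrk, ht1, Nat.div_one, Nat.div_one]
        exact i.2
      rw [h1, hval, if_pos ⟨by rw [ht1, Nat.mod_one], by rw [ht1]⟩, hdiv, E2_ext_lt π h2]
      exact (hD ⟨(i : ℕ) / t, h2⟩).symm
    · rw [if_neg (c := (i : ℕ) % t = 0 ∧ _)]
      · rcases lt_trichotomy (f i) (f k) with h | h | h
        · rw [hlt _ _ _ h, hval, if_neg]
          rintro ⟨-, h2⟩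
          rw [Fin.lt_def] at h
          rw [ht1] at h2
          omega
        · exact absurd (hfi h) hc
        · rw [hgt _ _ _ h, hval, if_neg (c := (f k : ℕ) % t = 0 ∧ _), mul_zero]
          rintro ⟨-, h2⟩
          rw [Fin.lt_def] at h
          rw [ht1] at h2
          omega
      · rintro ⟨-, h2⟩
        rw [ht1] at h2
        exact hc (Fin.ext (Nat.succ.inj h2).symm)

theorem exists_perm_act (τ : Shp) (hτ : τ.Le) (π : Equiv.Perm (Fin τ.rk)) :
    ∃ (g : Matrix (Fin τ.row) (Fin τ.row) ℂ) (h : Matrix (Fin τ.col) (Fin τ.col) ℂ),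
      ∀ {R : Type} [CommRing R] [Algebra ℂ R] (D D' : ℕ → R),
        (∀ i : Fin τ.rk, D' i = D (π i)) →
        τ.actI (g.map (algebraMap ℂ R)) (h.map (algebraMap ℂ R)) (τ.dgI D) = τ.dgI D' := by
  cases τ with
  | gen m n => exact E2_gen m n hτ π
  | eps κ n => exact E2_eps κ n π

theorem exS_perm (e : (Σ a, (σ a).Idx) ≃ Fin N) (hσ : ∀ a, (σ a).Le)
    (I : Ideal (MvPolynomial (Fin N) ℂ)) (hI : ShStable σ e I)
    (β : (Σ a, Fin (σ a).rk) → ℕ) (hβ : β ∈ ExS σ e I) (π : ∀ a, Equiv.Perm (Fin (σ a).rk)) :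
    (fun c => β ⟨c.1, π c.1 c.2⟩) ∈ ExS σ e I := by
  obtain ⟨f, hf, hev⟩ := hβ
  choose g h hgh using fun a => exists_perm_act (σ a) (hσ a) (π a).symm
  refine ⟨shSub σ e g h f, shSub_mem e I hI f hf g h, fun D => ?_⟩
  obtain ⟨D', hD'⟩ : ∃ D' : Fin s → ℕ → ℂ, ∀ a (i : Fin (σ a).rk), D' a i = D a ((π a).symm i) := by
    refine ⟨fun a j => if h : j < (σ a).rk then D a ((π a).symm ⟨j, h⟩) else 0, fun a i => ?_⟩
    exact dif_pos i.2
  have h1 : eval (dgP e D) (shSub σ e g h f) = eval (dgP e D') f := by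
    have h3 : (fun a => (σ a).actI (g a) (h a) ((σ a).dgI (D a))) = fun a => (σ a).dgI (D' a) := by
      funext a
      have h2 := hgh a (R := ℂ) (D a) (D' a) (hD' a)
      simp only [Algebra.algebraMap_self] at h2
      exact h2
    unfold dgP
    rw [eval_shSub, h3]
  rw [h1, hev D', ← (Equiv.sigmaCongrRight π).prod_comp]
  refine Finset.prod_congr rfl fun c _ => ?_
  obtain ⟨a, i⟩ := c
  show D' a (π a i) ^ β ⟨a, π a i⟩ = D a i ^ β ⟨a, π a i⟩
  rw [hD', Equiv.symm_apply_apply]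

/-- some rearrangement is weakly decreasing -/
theorem exists_sort (β : (Σ a, Fin (σ a).rk) → ℕ) :
    ∃ π : ∀ a, Equiv.Perm (Fin (σ a).rk), DomS fun c => β ⟨c.1, π c.1 c.2⟩ := by
  refine ⟨fun a => Tuple.sort fun i => OrderDual.toDual (β ⟨a, i⟩), ?_⟩
  intro a i k hik
  exact Tuple.monotone_sort (fun i => OrderDual.toDual (β ⟨a, i⟩)) hik

end MotMono
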