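import Pool.Agent.Lib.MP_4e5fcd_ag.Cl.P3
import Pool.Agent.Lib.MP_4e5fcd_ag.Cl.E2

/-! # CL-P6: from exponents of the normal form to exponents of the form of the reference point

PROOF. `kap_mem`: let `f ∈ I` restrict to `D ^ β` (`exS_dgR`) and let `f' = shSub σ e g h f` with `g`, `h` of
`exists_toDg`: `aeval (FPS e u z) f' = aeval (dgP e (Dz z)) f = ∏ (sg * z (crow i)) ^ β (a, i)` (`aeval_shSub`), which is
a nonzero constant times `z ^ kap β`; divide by the constant. `kap β c = 0` for rows without `CR` by `crow_CR`.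
`sum_kap`: exchange the sums; `crow_vv`. -/

open MvPolynomial

namespace MotMono

variable {s N : ℕ} {σ : Fin s → Shp}

open Classical in
/-- the exponents of the entries of the reference point -/
noncomputable def kap (u : (Σ a, Fin (σ a).rk) → ℕ) (β : (Σ a, Fin (σ a).rk) → ℕ) :
    (Σ a, Fin (σ a).row) → ℕ :=
  fun c => ∑ i : Fin (σ c.1).rk, if (σ c.1).crow (bS u c.1) i = c.2 then β ⟨c.1, i⟩ else 0

private theorem P6_row (hσ : ∀ a, (σ a).Le) (u : (Σ a, Fin (σ a).rk) → ℕ) (a : Fin s)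
    (i : Fin (σ a).rk) : (σ a).crow (bS u a) i < (σ a).row :=
  (σ a).CR_lt_row _ _ ((σ a).crow_CR _ (hσ a) i i.2)

private theorem P6_sg (τ : Shp) (b : ℕ → ℕ) (i : ℕ) : τ.sg b i ≠ 0 := by
  cases τ with
  | gen m n => exact one_ne_zero
  | eps κ n =>
    simp only [Shp.sg]
    split_ifs <;> norm_num

private theorem P6_ev {ι : Type} (v : ι → ℂ) (f : MvPolynomial ι ℂ) :
    aeval v f = eval v f := by
  rw [aeval_def, Algebra.algebraMap_self, eval₂_id]

private theorem P6_prod (hσ : ∀ a, (σ a).Le) (u : (Σ a, Fin (σ a).rk) → ℕ)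
    (β : (Σ a, Fin (σ a).rk) → ℕ) (z : Fin s → ℕ → ℂ) :
    ∏ c : (Σ a, Fin (σ a).row), z c.1 c.2 ^ kap u β c =
      ∏ c : (Σ a, Fin (σ a).rk), z c.1 ((σ c.1).crow (bS u c.1) c.2) ^ β c := by
  classical
  rw [Fintype.prod_sigma, Fintype.prod_sigma]
  refine Finset.prod_congr rfl fun a _ => ?_
  have h1 : ∀ j : Fin (σ a).row, z a j ^ kap u β ⟨a, j⟩ =
      ∏ i : Fin (σ a).rk, z a j ^ (if (σ a).crow (bS u a) i = j then β ⟨a, i⟩ else 0) := by
    intro j
    rw [Finset.prod_pow_eq_pow_sum]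
    rfl
  show ∏ j : Fin (σ a).row, z a j ^ kap u β ⟨a, j⟩ =
    ∏ i : Fin (σ a).rk, z a ((σ a).crow (bS u a) i) ^ β ⟨a, i⟩
  simp only [h1]
  rw [Finset.prod_comm]
  refine Finset.prod_congr rfl fun i _ => ?_
  rw [Finset.prod_eq_single (⟨(σ a).crow (bS u a) i, P6_row hσ u a i⟩ : Fin (σ a).row)]
  · rw [if_pos rfl]
  · intro j _ hj
    rw [if_neg, pow_zero]
    intro h
    apply hj
    apply Fin.ext
    exact h.symm
  · intro h
    exact absurd (Finset.mem_univ _) h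

theorem kap_mem (e : (Σ a, (σ a).Idx) ≃ Fin N) (hσ : ∀ a, (σ a).Le)
    (I : Ideal (MvPolynomial (Fin N) ℂ)) (hI : ShStable σ e I) (u : (Σ a, Fin (σ a).rk) → ℕ)
    (β : (Σ a, Fin (σ a).rk) → ℕ) (hβ : β ∈ ExS σ e I) : kap u β ∈ EF e I u := by
  classical
  refine ⟨?_, ?_⟩
  · intro c hc
    unfold kap
    refine Finset.sum_eq_zero fun i _ => ?_
    rw [if_neg]
    intro h
    apply hc
    have h1 := (σ c.1).crow_CR (bS u c.1) (hσ c.1) i i.2
    rw [h] at h1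
    exact h1
  · obtain ⟨f, hf, hev⟩ := exS_dgR e I β hβ
    choose g g' h h' hgh using fun a => (σ a).exists_toDg (hσ a) (bS u a)
    have hne : (∏ c : (Σ a, Fin (σ a).rk),
        (((σ c.1).sg (bS u c.1) c.2 : ℤ) : ℂ) ^ β c) ≠ 0 := by
      refine Finset.prod_ne_zero_iff.2 fun c _ => pow_ne_zero _ ?_
      exact Int.cast_ne_zero.2 (P6_sg _ _ _)
    refine ⟨C (∏ c : (Σ a, Fin (σ a).rk), (((σ c.1).sg (bS u c.1) c.2 : ℤ) : ℂ) ^ β c)⁻¹ *
      shSub σ e g h f, I.mul_mem_left _ (shSub_mem e I hI f hf g h), fun z => ?_⟩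
    have h1 := aeval_shSub (R := ℂ) e g h (fun a => (σ a).FP (bS u a) (z a)) f
    have h2 : (fun a => (σ a).actI ((g a).map (algebraMap ℂ ℂ)) ((h a).map (algebraMap ℂ ℂ))
        ((σ a).FP (bS u a) (z a))) = fun a => (σ a).dgI ((σ a).Dz (bS u a) (z a)) := by
      funext a
      exact (hgh a (z a)).1
    rw [h2] at h1
    have h3 := hev (R := ℂ) fun a => (σ a).Dz (bS u a) (z a)
    have h4 : eval (FPS e u z) (shSub σ e g h f) =
        ∏ c : (Σ a, Fin (σ a).rk), (σ c.1).Dz (bS u c.1) (z c.1) c.2 ^ β c := by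
      rw [← P6_ev, ← h3]
      exact h1
    rw [map_mul, eval_C, h4, P6_prod hσ]
    have h5 : ∀ c : (Σ a, Fin (σ a).rk), (σ c.1).Dz (bS u c.1) (z c.1) c.2 ^ β c =
        (((σ c.1).sg (bS u c.1) c.2 : ℤ) : ℂ) ^ β c *
          z c.1 ((σ c.1).crow (bS u c.1) c.2) ^ β c := by
      intro c
      unfold Shp.Dz
      rw [mul_pow]
    simp only [h5]
    rw [Finset.prod_mul_distrib, inv_mul_cancel_left₀ hne]

theorem sum_kap {R : Type} [CommRing R] (hσ : ∀ a, (σ a).Le) (u : (Σ a, Fin (σ a).rk) → ℕ)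
    (β : (Σ a, Fin (σ a).rk) → ℕ) (y : Fin s → ℕ → R) :
    ∑ c : (Σ a, Fin (σ a).row), (kap u β c : R) * y c.1 c.2 =
      ∑ c : (Σ a, Fin (σ a).rk), (β c : R) * y c.1 ((σ c.1).crow (bS u c.1) c.2) := by
  classical
  rw [Fintype.sum_sigma, Fintype.sum_sigma]
  refine Finset.sum_congr rfl fun a _ => ?_
  have h1 : ∀ j : Fin (σ a).row, (kap u β ⟨a, j⟩ : R) * y a j =
      ∑ i : Fin (σ a).rk, (if (σ a).crow (bS u a) i = j then (β ⟨a, i⟩ : R) else 0) * y a j := by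
    intro j
    rw [← Finset.sum_mul]
    congr 1
    unfold kap
    rw [Nat.cast_sum]
    refine Finset.sum_congr rfl fun i _ => ?_
    split_ifs
    · rfl
    · exact Nat.cast_zero
  show ∑ j : Fin (σ a).row, (kap u β ⟨a, j⟩ : R) * y a j =
    ∑ i : Fin (σ a).rk, (β ⟨a, i⟩ : R) * y a ((σ a).crow (bS u a) i)
  simp only [h1]
  rw [Finset.sum_comm]
  refine Finset.sum_congr rfl fun i _ => ?_
  rw [Finset.sum_eq_single (⟨(σ a).crow (bS u a) i, P6_row hσ u a i⟩ : Fin (σ a).row)]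
  · rw [if_pos rfl]
  · intro j _ hj
    rw [if_neg, zero_mul]
    intro h
    apply hj
    apply Fin.ext
    exact h.symm
  · intro h
    exact absurd (Finset.mem_univ _) h

theorem sum_kap_vS (hσ : ∀ a, (σ a).Le) (u : (Σ a, Fin (σ a).rk) → ℕ)
    (β : (Σ a, Fin (σ a).rk) → ℕ) :
    ∑ c, kap u β c * vS u c = ∑ c, β c * mue (bS u c.1) c.2 := by
  have h := sum_kap (R := ℤ) hσ u β fun a j => (((σ a).vv (bS u a) j : ℕ) : ℤ)
  have h1 : ∀ c : (Σ a, Fin (σ a).rk),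
      (σ c.1).vv (bS u c.1) ((σ c.1).crow (bS u c.1) c.2) = mue (bS u c.1) c.2 := fun c =>
    (σ c.1).crow_vv _ (hσ c.1) c.2 c.2.2
  simp only [h1] at h
  unfold vS
  exact_mod_cast h

end MotMono
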