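import Pool.Agent.Lib.MP_4e5fcd_ag.Cl.P5
import Pool.Agent.Lib.MP_4e5fcd_ag.Cl.P6
import Pool.Agent.Lib.MP_4e5fcd_ag.Inv.DiagEval

/-! # CL-P4: the exponents of the face determine everything

PROOF. `rank_zero`: let `y' (a, i) = y (a, crow i)` for `i < rk`. For `β ∈ ExS` with `∑ β * mue = n₀` we have `kap u β ∈ EFN`
(`kap_mem`, `sum_kap_vS`), so `∑ β c * y' c = 0` (`sum_kap`). (1) `y'` is constant on blocks: let `i`, `i + 1 < rk` be in
the same block (`u (a, i + 1) = 0`) of positive exponent, and let `i₀` be its first index (`u (a, i₀) ≠ 0`; if there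
is none, then the exponent is `0`, `y' = 0` there since `vS = 0`). By `DetectedS` for `i₀`: either the block is
of length two in a symmetric matrix: `i = i₀` and `crow_two`; or some `r` strictly inside the block is
visible: there is `w ∈ A` in the face with `w (a, r - 1) ≠ 0`, so `β = wtS w` has `β (a, r) < β (a, r - 1)`, `β ∈ ExS`,
`∑ β * mue = pair (Wf w) u = n₀` (`pair_wtw`). Permuting `β` inside the block (`exS_perm`; `∑ β * mue` does not change
since `mue` is constant there) we get `β' ∈ ExS` with `β' (a, i) ≠ β' (a, i + 1)`, and its image under the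
transposition of `i`, `i + 1`; subtract the two equations: `y' (a, i) = y' (a, i + 1)`.
(2) Put `x (a, i) = y' (a, i) - y' (a, i - 1)` (`y' (a, 0)` for `i = 0`). By (1) `x c = 0` if `u c = 0` (in the block of
exponent `0` everything vanishes), and for `w ∈ A` in the face `∑ (Wf w) c * x c = ∑ wtS w c * y' c = 0`
(summation by parts, compare `pair_wtw`). By `Ext` `x = c • u`, and `∑ (Wf w) c * u c = n₀ ≠ 0` gives `c = 0` (a face
functional exists). So `y' = 0`, and `y = 0` (`exists_crow`, `y c = 0` for rows without `CR`).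
`exists_efn`: a face functional `w ∈ A`, `kap u (wtS w)`. `vS_le`: otherwise `κ c = 0` for all `κ ∈ EFN`
(`κ c * vS c ≤ n₀`), and `y` = the unit vector at `c` contradicts `rank_zero`. -/

open MvPolynomial

namespace MotMono

variable {s N : ℕ} {σ : Fin s → Shp} {e : (Σ a, (σ a).Idx) ≃ Fin N}
  {I : Ideal (MvPolynomial (Fin N) ℂ)} {A : Finset ((Σ a, Fin (σ a).rk) → ℕ)}
  {u : (Σ a, Fin (σ a).rk) → ℕ} {n₀ : ℕ}

/-- the extension by zero -/
private def P4Y (y : (Σ a, Fin (σ a).row) → ℚ) (a : Fin s) (i : ℕ) : ℚ :=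
  if h : i < (σ a).row then y ⟨a, ⟨i, h⟩⟩ else 0

/-- the values at the invariant factors -/
private noncomputable def P4y (u : (Σ a, Fin (σ a).rk) → ℕ) (y : (Σ a, Fin (σ a).row) → ℚ)
    (a : Fin s) (i : ℕ) : ℚ :=
  P4Y y a ((σ a).crow (bS u a) i)

private theorem P4_le (h : Dat e I A u n₀) : ∀ a, (σ a).Le := fun a => h.le a

private theorem P4_key (h : Dat e I A u n₀) (y : (Σ a, Fin (σ a).row) → ℚ)
    (hκ : ∀ κ ∈ EFN e I u n₀, ∑ c, (κ c : ℚ) * y c = 0) (β : (Σ a, Fin (σ a).rk) → ℕ)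
    (hβ : β ∈ ExS σ e I) (hs : ∑ c, β c * mue (bS u c.1) c.2 = n₀) :
    ∑ c : (Σ a, Fin (σ a).rk), (β c : ℚ) * P4y u y c.1 c.2 = 0 := by
  have h1 : kap u β ∈ EFN e I u n₀ :=
    ⟨kap_mem e (P4_le h) I h.stable u β hβ, (sum_kap_vS (P4_le h) u β).trans hs⟩
  have h2 := hκ _ h1
  have h3 := sum_kap (R := ℚ) (P4_le h) u β (P4Y y)
  have h4 : ∑ c : (Σ a, Fin (σ a).row), (kap u β c : ℚ) * P4Y y c.1 c.2 = 0 := by
    rw [← h2]
    refine Finset.sum_congr rfl fun c _ => ?_
    unfold P4Y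
    rw [dif_pos c.2.2]
  rw [h4] at h3
  exact h3.symm

private theorem P4_zero (h : Dat e I A u n₀) (y : (Σ a, Fin (σ a).row) → ℚ)
    (hy : ∀ c, ¬ CRS u c ∨ vS u c = 0 → y c = 0) (a : Fin s) (i : ℕ) (hi : i < (σ a).rk)
    (h0 : mue (bS u a) i = 0) : P4y u y a i = 0 := by
  unfold P4y P4Y
  split_ifs with hr
  · refine hy _ (Or.inr ?_)
    show (σ a).vv (bS u a) ((σ a).crow (bS u a) i) = 0
    rw [Shp.crow_vv _ _ (P4_le h a) i hi]
    exact h0
  · rfl

private theorem P4_bS (u : (Σ a, Fin (σ a).rk) → ℕ) (a : Fin s) (i : ℕ) (hi : i < (σ a).rk) :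
    bS u a i = u ⟨a, ⟨i, hi⟩⟩ := by
  unfold bS part extb
  rw [dif_pos hi]

private theorem P4_mue_eq (b : ℕ → ℕ) (i k : ℕ) (hik : i ≤ k) (hb : ∀ j, i < j → j ≤ k → b j = 0) :
    mue b k = mue b i := by
  induction k with
  | zero =>
    have : i = 0 := by omega
    rw [this]
  | succ k ih =>
    rcases Nat.lt_or_ge k i with h1 | h1
    · have : i = k + 1 := by omega
      rw [this]
    · have h2 := ih h1 fun j hj hj' => hb j hj (by omega)
      unfold mue at h2 ⊢
      rw [Finset.sum_range_succ, h2, hb (k + 1) (by omega) le_rfl, add_zero]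

private theorem P4_two (τ : Shp) (b : ℕ → ℕ) (n : ℕ) (hτ : τ = Shp.eps true n) (i : ℕ)
    (hi : i + 1 < τ.rk) (h0 : b i ≠ 0) (h1 : b (i + 1) = 0) :
    τ.crow b (i + 1) = τ.crow b i := by
  subst hτ
  refine Shp.crow_two b n i ?_ h0 h1
  have h2 : (Shp.eps true n).rk = n / 1 := rfl
  rw [h2, Nat.div_one] at hi
  exact hi

private theorem P4_perm (u : (Σ a, Fin (σ a).rk) → ℕ) (β : (Σ a, Fin (σ a).rk) → ℕ)
    (π : ∀ a, Equiv.Perm (Fin (σ a).rk))
    (hπ : ∀ c : (Σ a, Fin (σ a).rk), mue (bS u c.1) (π c.1 c.2) = mue (bS u c.1) c.2) :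
    ∑ c : (Σ a, Fin (σ a).rk), β ⟨c.1, π c.1 c.2⟩ * mue (bS u c.1) c.2 =
      ∑ c, β c * mue (bS u c.1) c.2 := by
  rw [← Equiv.sum_comp (Equiv.sigmaCongrRight π) fun c => β c * mue (bS u c.1) c.2]
  refine Finset.sum_congr rfl fun c _ => ?_
  show β ⟨c.1, π c.1 c.2⟩ * mue (bS u c.1) c.2 =
    β ⟨c.1, π c.1 c.2⟩ * mue (bS u c.1) (π c.1 c.2)
  rw [hπ c]

private theorem P4_swap_mue {M : ℕ} (f : ℕ → ℕ) (x z : Fin M) (hxz : f x = f z) (t : Fin M) :
    f (Equiv.swap x z t) = f t := by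
  by_cases h1 : t = x
  · rw [h1, Equiv.swap_apply_left, hxz]
  · by_cases h2 : t = z
    · rw [h2, Equiv.swap_apply_right, hxz]
    · rw [Equiv.swap_apply_of_ne_of_ne h1 h2]

private theorem P4_upd (a : Fin s) (ρ : Equiv.Perm (Fin (σ a).rk)) (f : Fin s → ℕ → ℕ)
    (hρ : ∀ t, f a (ρ t) = f a t) (c : Σ a, Fin (σ a).rk) :
    f c.1 ((Function.update (fun a => (1 : Equiv.Perm (Fin (σ a).rk))) a ρ) c.1 c.2) =
      f c.1 c.2 := by
  obtain ⟨a', t⟩ := c
  by_cases ha : a' = a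
  · subst ha
    show f a' ((Function.update (fun a => (1 : Equiv.Perm (Fin (σ a).rk))) a' ρ) a' t) = f a' t
    rw [Function.update_self]
    exact hρ t
  · show f a' ((Function.update (fun a => (1 : Equiv.Perm (Fin (σ a).rk))) a ρ) a' t) = f a' t
    rw [Function.update_of_ne ha]
    rfl

/-- the values agree at two indices of a block, if the exponents of some element differ there -/
private theorem P4_swap (h : Dat e I A u n₀) (y : (Σ a, Fin (σ a).row) → ℚ)
    (hκ : ∀ κ ∈ EFN e I u n₀, ∑ c, (κ c : ℚ) * y c = 0) (β : (Σ a, Fin (σ a).rk) → ℕ)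
    (hβ : β ∈ ExS σ e I) (hs : ∑ c, β c * mue (bS u c.1) c.2 = n₀) (a : Fin s)
    (ρ : Equiv.Perm (Fin (σ a).rk)) (hρ : ∀ t, mue (bS u a) (ρ t) = mue (bS u a) t)
    (x z : Fin (σ a).rk) (hxz : x ≠ z) (hm : mue (bS u a) x = mue (bS u a) z)
    (hne : β ⟨a, ρ x⟩ ≠ β ⟨a, ρ z⟩) : P4y u y a x = P4y u y a z := by
  classical
  have h1 : ∀ τ : Equiv.Perm (Fin (σ a).rk), (∀ t, mue (bS u a) (τ t) = mue (bS u a) t) →
      ∑ t : Fin (σ a).rk, (β ⟨a, τ t⟩ : ℚ) * P4y u y a t =
        - ∑ a' ∈ Finset.univ.erase a, ∑ t : Fin (σ a').rk, (β ⟨a', t⟩ : ℚ) * P4y u y a' t := by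
    intro τ hτ
    set π : ∀ a, Equiv.Perm (Fin (σ a).rk) :=
      Function.update (fun a => (1 : Equiv.Perm (Fin (σ a).rk))) a τ with hπ
    have h2 := exS_perm e (P4_le h) I h.stable β hβ π
    have h3 := P4_key h y hκ _ h2 ((P4_perm u β π fun c =>
      P4_upd a τ (fun a => mue (bS u a)) hτ c).trans hs)
    rw [Fintype.sum_sigma, ← Finset.add_sum_erase _ _ (Finset.mem_univ a)] at h3
    have h4 : ∀ t, π a t = τ t := by
      intro t
      rw [hπ, Function.update_self]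
    have h5 : ∀ a' ∈ Finset.univ.erase a, ∀ t : Fin (σ a').rk, π a' t = t := by
      intro a' ha' t
      rw [hπ, Function.update_of_ne (Finset.ne_of_mem_erase ha')]
      rfl
    have h6 : ∑ t : Fin (σ a).rk, (β ⟨a, τ t⟩ : ℚ) * P4y u y a t =
        ∑ t : Fin (σ a).rk, (β ⟨a, π a t⟩ : ℚ) * P4y u y a t :=
      Finset.sum_congr rfl fun t _ => by rw [h4]
    have h7 : ∑ a' ∈ Finset.univ.erase a, ∑ t : Fin (σ a').rk, (β ⟨a', t⟩ : ℚ) * P4y u y a' t =
        ∑ a' ∈ Finset.univ.erase a, ∑ t : Fin (σ a').rk,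
          (β ⟨a', π a' t⟩ : ℚ) * P4y u y a' t :=
      Finset.sum_congr rfl fun a' ha' => Finset.sum_congr rfl fun t _ => by rw [h5 a' ha']
    rw [h6, h7]
    exact eq_neg_of_add_eq_zero_left h3
  have h2 := h1 ρ hρ
  have h3 := h1 (ρ * Equiv.swap x z) fun t => by
    rw [Equiv.Perm.mul_apply, hρ, P4_swap_mue _ x z hm]
  rw [← h2, ← sub_eq_zero, ← Finset.sum_sub_distrib] at h3
  have h4 : ∀ t, t ≠ x ∧ t ≠ z →
      (β ⟨a, (ρ * Equiv.swap x z) t⟩ : ℚ) * P4y u y a t - (β ⟨a, ρ t⟩ : ℚ) * P4y u y a t = 0 := by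
    intro t ht
    rw [Equiv.Perm.mul_apply, Equiv.swap_apply_of_ne_of_ne ht.1 ht.2, sub_self]
  rw [Fintype.sum_eq_add x z hxz h4, Equiv.Perm.mul_apply, Equiv.Perm.mul_apply,
    Equiv.swap_apply_left, Equiv.swap_apply_right] at h3
  have h5 : ((β ⟨a, ρ x⟩ : ℚ) - β ⟨a, ρ z⟩) * (P4y u y a x - P4y u y a z) = 0 := by
    linear_combination -h3
  rcases mul_eq_zero.1 h5 with h6 | h6
  · exact absurd (by exact_mod_cast sub_eq_zero.1 h6) hne
  · exact sub_eq_zero.1 h6

private theorem P4_wt_face (h : Dat e I A u n₀) (w : (Σ a, Fin (σ a).rk) → ℕ)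
    (hw : InFace (AW (m := fun a => (σ a).rk) A) u (Wf (m := fun a => (σ a).rk) w)) :
    ∑ c, wtS w c * mue (bS u c.1) c.2 = n₀ := by
  have h1 := pair_wtw (m := fun a => (σ a).rk) w u
  have h2 : pair (Wf (m := fun a => (σ a).rk) w) u =
      minF (AW (m := fun a => (σ a).rk) A) u := by
    apply le_antisymm
    · obtain ⟨w', hw', hf', hp'⟩ := u1_face_nonempty (m := fun a => (σ a).rk) A u
        (by rw [h.min]; exact h.pos)
      rw [← hp']
      exact hw.2 _ hf'.1
    · exact Nat.sInf_le ⟨_, hw.1, rfl⟩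
  rw [h2, h.min] at h1
  exact h1

/-- the values are constant on the blocks -/
private theorem P4_block (h : Dat e I A u n₀) (y : (Σ a, Fin (σ a).row) → ℚ)
    (hy : ∀ c, ¬ CRS u c ∨ vS u c = 0 → y c = 0)
    (hκ : ∀ κ ∈ EFN e I u n₀, ∑ c, (κ c : ℚ) * y c = 0) (a : Fin s) (i : ℕ)
    (hi : i + 1 < (σ a).rk) (hu : u ⟨a, ⟨i + 1, hi⟩⟩ = 0) :
    P4y u y a i = P4y u y a (i + 1) := by
  have hb1 : bS u a (i + 1) = 0 := by rw [P4_bS u a _ hi, hu]
  by_cases hall : ∀ j ≤ i, bS u a j = 0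
  · have h1 : mue (bS u a) i = 0 := by
      unfold mue
      exact Finset.sum_eq_zero fun j hj => hall j (by rw [Finset.mem_range] at hj; omega)
    have h2 : mue (bS u a) (i + 1) = 0 := by
      rw [← h1]
      exact P4_mue_eq _ _ _ (by omega) fun j hj hj' => by
        have : j = i + 1 := by omega
        rw [this]
        exact hb1
    rw [P4_zero h y hy a i (by omega) h1, P4_zero h y hy a (i + 1) hi h2]
  · obtain ⟨i₀, hi₀, hne, hbl⟩ : ∃ i₀ ≤ i, bS u a i₀ ≠ 0 ∧ ∀ j, i₀ < j → j ≤ i + 1 → bS u a j = 0 := by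
      have h1 : ∃ j, j ≤ i ∧ bS u a j ≠ 0 := by
        push Not at hall
        exact hall
      obtain ⟨j, hj, hj'⟩ := h1
      refine ⟨Nat.findGreatest (fun k => bS u a k ≠ 0) i, Nat.findGreatest_le _, ?_, ?_⟩
      · exact Nat.findGreatest_spec (P := fun k => bS u a k ≠ 0) hj hj'
      · intro k hk hk'
        rcases Nat.lt_or_ge i k with h2 | h2
        · have : k = i + 1 := by omega
          rw [this]
          exact hb1
        · by_contra h3
          exact Nat.findGreatest_is_greatest hk h2 h3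
    have hi₀' : i₀ < (σ a).rk := by omega
    have hdet := h.det a ⟨i₀, hi₀'⟩ (by rw [← P4_bS u a i₀ hi₀']; exact hne)
      (show i₀ + 1 < (σ a).rk by omega)
      (by
        rw [← P4_bS u a (i₀ + 1) (by omega)]
        exact hbl _ (by omega) (by omega))
    rcases hdet with ⟨r, ⟨w, hw, hface, j, hj, hwj⟩, hir, hr, hbr⟩ | ⟨⟨n, hn⟩, h2⟩
    · have hir' : i₀ < r := hir
      have hbr' : ∀ k, i₀ < k → k ≤ r → bS u a k = 0 := by
        intro k hk hk'
        rw [P4_bS u a k (by omega)]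
        exact hbr ⟨k, by omega⟩ hk hk'
      have hjr : (j : ℕ) + 1 = r := hj
      have hw' : (w : (Σ a, Fin (σ a).rk) → ℕ) ⟨a, j⟩ ≠ 0 := hwj
      have hjrk : (j : ℕ) < (σ a).rk := j.2
      set jj : Fin (σ a).rk := ⟨j, hjrk⟩ with hjj
      set j1 : Fin (σ a).rk := ⟨j + 1, by omega⟩ with hj1
      set x : Fin (σ a).rk := ⟨i, by omega⟩ with hx
      set z : Fin (σ a).rk := ⟨i + 1, hi⟩ with hz
      have mx : mue (bS u a) x = mue (bS u a) i₀ :=
        P4_mue_eq _ _ _ hi₀ fun k hk hk' => hbl k hk (by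
          have : k ≤ i := hk'
          omega)
      have mz : mue (bS u a) z = mue (bS u a) i₀ :=
        P4_mue_eq _ _ _ (by show i₀ ≤ i + 1; omega) fun k hk hk' => hbl k hk hk'
      have mj : mue (bS u a) jj = mue (bS u a) i₀ :=
        P4_mue_eq _ _ _ (by show i₀ ≤ (j : ℕ); omega) fun k hk hk' => hbr' k hk (by
          have : k ≤ (j : ℕ) := hk'
          omega)
      have mj1 : mue (bS u a) j1 = mue (bS u a) i₀ :=
        P4_mue_eq _ _ _ (by show i₀ ≤ (j : ℕ) + 1; omega) fun k hk hk' => hbr' k hk (by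
          have : k ≤ (j : ℕ) + 1 := hk'
          omega)
      have hxz : x ≠ z := by
        intro h3
        have : i = i + 1 := congrArg Fin.val h3
        omega
      have hjj1 : jj ≠ j1 := by
        intro h3
        have : (j : ℕ) = j + 1 := congrArg Fin.val h3
        omega
      have hsw := P4_swap_mue (mue (bS u a)) x jj (mx.trans mj.symm)
      set t₀ : Fin (σ a).rk := Equiv.swap x jj j1 with ht₀
      have ht₀m : mue (bS u a) t₀ = mue (bS u a) i₀ := (hsw j1).trans mj1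
      have ht₀x : t₀ ≠ x := by
        intro h3
        have h4 := congrArg (Equiv.swap x jj) h3
        rw [ht₀, Equiv.swap_apply_self, Equiv.swap_apply_left] at h4
        exact hjj1 h4.symm
      refine P4_swap h y hκ (wtS w) (h.gens.2.1 w hw) (P4_wt_face h w hface) a
        (Equiv.swap x jj * Equiv.swap z t₀) ?_ x z hxz (mx.trans mz.symm) ?_
      · intro t
        rw [Equiv.Perm.mul_apply, hsw, P4_swap_mue (mue (bS u a)) z t₀ (mz.trans ht₀m.symm)]
      · rw [Equiv.Perm.mul_apply, Equiv.Perm.mul_apply, Equiv.swap_apply_left,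
          Equiv.swap_apply_of_ne_of_ne hxz ht₀x.symm, Equiv.swap_apply_left, ht₀,
          Equiv.swap_apply_self]
        have h5 : wtS w ⟨a, jj⟩ = w ⟨a, jj⟩ + wtS w ⟨a, j1⟩ := by
          show (∑ i : Fin (σ a).rk, if jj ≤ i then w ⟨a, i⟩ else 0) =
            w ⟨a, jj⟩ + ∑ i : Fin (σ a).rk, if j1 ≤ i then w ⟨a, i⟩ else 0
          have h6 : ∀ i : Fin (σ a).rk, (if jj ≤ i then w ⟨a, i⟩ else 0) =
              (if i = jj then w ⟨a, i⟩ else 0) + if j1 ≤ i then w ⟨a, i⟩ else 0 := by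
            intro i
            have e1 : jj ≤ i ↔ (j : ℕ) ≤ i := Iff.rfl
            have e2 : j1 ≤ i ↔ (j : ℕ) + 1 ≤ i := Iff.rfl
            have e3 : i = jj ↔ (i : ℕ) = j := Fin.ext_iff
            rw [if_congr e1 rfl rfl, if_congr e2 rfl rfl, if_congr e3 rfl rfl]
            split_ifs with c1 c2 c3 c3 c2 c3 <;> omega
          rw [Finset.sum_congr rfl fun i _ => h6 i, Finset.sum_add_distrib,
            Finset.sum_ite_eq' Finset.univ jj fun i => w ⟨a, i⟩, if_pos (Finset.mem_univ _)]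
        rw [h5]
        have h7 : w ⟨a, jj⟩ ≠ 0 := hw'
        omega
    · have hii : i = i₀ := by
        by_contra hcon
        have h3 : i₀ + 2 < (σ a).rk := by omega
        refine h2 h3 ?_
        show u ⟨a, ⟨i₀ + 2, h3⟩⟩ = 0
        rw [← P4_bS u a (i₀ + 2) h3]
        exact hbl _ (by omega) (by omega)
      subst hii
      unfold P4y
      rw [P4_two (σ a) (bS u a) n hn i hi hne hb1]

private theorem P4_parts (f : ℕ → ℚ) (i : ℕ) :
    ∑ k ∈ Finset.range (i + 1), ((i + 1 - k : ℕ) : ℚ) * (f k - if k = 0 then 0 else f (k - 1)) =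
      ∑ k ∈ Finset.range (i + 1), f k := by
  have htel : ∀ i, ∑ k ∈ Finset.range (i + 1), (f k - if k = 0 then 0 else f (k - 1)) = f i := by
    intro i
    induction i with
    | zero => simp
    | succ i ih =>
      rw [Finset.sum_range_succ, ih, if_neg (Nat.succ_ne_zero i), Nat.add_sub_cancel]
      ring
  induction i with
  | zero => simp
  | succ i ih =>
    have h1 : ∀ k ∈ Finset.range (i + 1 + 1),
        ((i + 1 + 1 - k : ℕ) : ℚ) * (f k - if k = 0 then 0 else f (k - 1)) =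
        ((i + 1 - k : ℕ) : ℚ) * (f k - if k = 0 then 0 else f (k - 1)) +
          (f k - if k = 0 then 0 else f (k - 1)) := by
      intro k hk
      rw [Finset.mem_range] at hk
      have h2 : i + 1 + 1 - k = (i + 1 - k) + 1 := by omega
      rw [h2]
      push_cast
      ring
    rw [Finset.sum_congr rfl h1, Finset.sum_add_distrib, htel, Finset.sum_range_succ, ih,
      Nat.sub_self, Nat.cast_zero, zero_mul, add_zero, Finset.sum_range_succ f (i + 1)]

private theorem P4_evq (y' : Fin s → ℕ → ℚ) (a : Fin s) (i : ℕ) (hi : i < (σ a).rk) :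
    evq (m := fun a => (σ a).rk)
      (fun c => y' c.1 c.2 - if (c.2 : ℕ) = 0 then 0 else y' c.1 ((c.2 : ℕ) - 1)) a (i + 1) =
      ∑ k ∈ Finset.range (i + 1), y' a k := by
  rw [← P4_parts (y' a) i]
  unfold evq
  show ∑ k : Fin (σ a).rk, ((i + 1 - (k : ℕ) : ℕ) : ℚ) *
    (y' a k - if (k : ℕ) = 0 then 0 else y' a ((k : ℕ) - 1)) = _
  rw [← Finset.sum_range fun k => ((i + 1 - k : ℕ) : ℚ) *
    (y' a k - if k = 0 then 0 else y' a (k - 1))]
  symm
  refine Finset.sum_subset (Finset.range_subset_range.2 (by omega)) fun k _ hk => ?_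
  rw [Finset.mem_range] at hk
  have h1 : i + 1 - k = 0 := by omega
  rw [h1, Nat.cast_zero, zero_mul]

private theorem P4_wtS (w : (Σ a, Fin (σ a).rk) → ℕ) (y' : Fin s → ℕ → ℚ) :
    ∑ c : (Σ a, Fin (σ a).rk), (wtS w c : ℚ) * y' c.1 c.2 =
      ∑ c : (Σ a, Fin (σ a).rk), (w c : ℚ) * ∑ k ∈ Finset.range ((c.2 : ℕ) + 1), y' c.1 k := by
  rw [Fintype.sum_sigma, Fintype.sum_sigma]
  refine Finset.sum_congr rfl fun a _ => ?_
  show ∑ k : Fin (σ a).rk, ((∑ i : Fin (σ a).rk, if k ≤ i then w ⟨a, i⟩ else 0 : ℕ) : ℚ) *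
      y' a k = ∑ i : Fin (σ a).rk, (w ⟨a, i⟩ : ℚ) * ∑ k ∈ Finset.range ((i : ℕ) + 1), y' a k
  have h1 : ∀ i : Fin (σ a).rk, (w ⟨a, i⟩ : ℚ) * ∑ k ∈ Finset.range ((i : ℕ) + 1), y' a k =
      ∑ k : Fin (σ a).rk, if k ≤ i then (w ⟨a, i⟩ : ℚ) * y' a k else 0 := by
    intro i
    have h2 : ∑ k : Fin (σ a).rk, (if k ≤ i then (w ⟨a, i⟩ : ℚ) * y' a k else 0) =
        ∑ k ∈ Finset.range (σ a).rk, if k ≤ (i : ℕ) then (w ⟨a, i⟩ : ℚ) * y' a k else 0 := by
      rw [Finset.sum_range]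
      rfl
    rw [h2, ← Finset.sum_filter, Finset.mul_sum]
    refine Finset.sum_congr ?_ fun _ _ => rfl
    ext k
    rw [Finset.mem_range, Finset.mem_filter, Finset.mem_range]
    omega
  rw [Finset.sum_congr rfl fun i _ => h1 i, Finset.sum_comm]
  refine Finset.sum_congr rfl fun k _ => ?_
  push_cast
  rw [Finset.sum_mul]
  refine Finset.sum_congr rfl fun i _ => ?_
  split_ifs <;> simp

theorem rank_zero (h : Dat e I A u n₀) (y : (Σ a, Fin (σ a).row) → ℚ)
    (hy : ∀ c, ¬ CRS u c ∨ vS u c = 0 → y c = 0)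
    (hκ : ∀ κ ∈ EFN e I u n₀, ∑ c, (κ c : ℚ) * y c = 0) : y = 0 := by
  classical
  set y' : Fin s → ℕ → ℚ := P4y u y with hy'
  set x : (Σ a, Fin (σ a).rk) → ℚ :=
    fun c => y' c.1 c.2 - if (c.2 : ℕ) = 0 then 0 else y' c.1 ((c.2 : ℕ) - 1) with hx
  have hx0 : ∀ c, u c = 0 → x c = 0 := by
    rintro ⟨a, i, hi⟩ hc
    show y' a i - (if i = 0 then 0 else y' a (i - 1)) = 0
    rcases i with _ | i
    · rw [if_pos rfl, sub_zero]
      refine P4_zero h y hy a 0 hi ?_
      unfold mue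
      rw [Finset.sum_range_one, P4_bS u a 0 hi]
      exact hc
    · rw [if_neg (Nat.succ_ne_zero i), Nat.add_sub_cancel, sub_eq_zero]
      exact (P4_block h y hy hκ a i hi hc).symm
  have hface : ∀ w ∈ A, InFace (AW (m := fun a => (σ a).rk) A) u (Wf (m := fun a => (σ a).rk) w) →
      ∑ c, (Wf (m := fun a => (σ a).rk) w c : ℚ) * x c = 0 := by
    intro w hw hf
    have h1 := sum_Wf_mul (m := fun a => (σ a).rk) w x
    have h2 : ∑ c : (Σ a, Fin (σ a).rk), (w c : ℚ) *
        evq (m := fun a => (σ a).rk) x c.1 (c.2 + 1) = 0 := by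
      have h3 := P4_key h y hκ (wtS w) (h.gens.2.1 w hw) (P4_wt_face h w hf)
      rw [P4_wtS w (P4y u y)] at h3
      rw [← h3]
      refine Finset.sum_congr rfl fun c _ => ?_
      rw [hx, P4_evq y' c.1 c.2 c.2.2]
    exact h1.trans h2
  obtain ⟨q, hq⟩ := h.ext.2 x hx0 (by
    intro W W' hW hW'
    have e1 := hW.1
    have e2 := hW'.1
    unfold AW at e1 e2
    obtain ⟨w, hw, rfl⟩ := Finset.mem_image.1 e1
    obtain ⟨w', hw', rfl⟩ := Finset.mem_image.1 e2
    rw [hface w hw hW, hface w' hw' hW'])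
  obtain ⟨w, hw, hf, hp⟩ := u1_face_nonempty (m := fun a => (σ a).rk) A u
    (by rw [h.min]; exact h.pos)
  have h1 := hface w hw hf
  have h2 : ∑ c, (Wf (m := fun a => (σ a).rk) w c : ℚ) * x c =
      q * (pair (Wf (m := fun a => (σ a).rk) w) u : ℚ) := by
    unfold pair
    push_cast
    rw [Finset.mul_sum]
    refine Finset.sum_congr rfl fun i _ => ?_
    rw [hq i]
    ring
  rw [h1, hp, h.min] at h2
  have h3 : q = 0 := by
    rcases mul_eq_zero.1 h2.symm with h4 | h4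
    · exact h4
    · exfalso
      have h5 : n₀ = 0 := by exact_mod_cast h4
      exact h.pos.ne' h5
  have hxz : ∀ c, x c = 0 := fun c => by rw [hq c, h3, zero_mul]
  have hyz : ∀ a i, i < (σ a).rk → y' a i = 0 := by
    intro a i
    induction i with
    | zero =>
      intro hi
      have h4 : y' a 0 - (if 0 = 0 then 0 else y' a (0 - 1)) = 0 := hxz ⟨a, ⟨0, hi⟩⟩
      rw [if_pos rfl, sub_zero] at h4
      exact h4
    | succ i ih =>
      intro hi
      have h4 : y' a (i + 1) - (if i + 1 = 0 then 0 else y' a (i + 1 - 1)) = 0 :=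
        hxz ⟨a, ⟨i + 1, hi⟩⟩
      rw [if_neg (Nat.succ_ne_zero i), Nat.add_sub_cancel, ih (by omega), sub_zero] at h4
      exact h4
  funext c
  by_cases hc : CRS u c
  · obtain ⟨i, hi, hic⟩ := Shp.exists_crow _ _ _ hc
    have h4 := hyz c.1 i hi
    rw [hy'] at h4
    unfold P4y P4Y at h4
    rw [hic, dif_pos c.2.2] at h4
    exact h4
  · exact hy c (Or.inl hc)

theorem exists_efn (h : Dat e I A u n₀) : ∃ κ, κ ∈ EFN e I u n₀ := by
  obtain ⟨w, hw, hf, hp⟩ := u1_face_nonempty (m := fun a => (σ a).rk) A u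
    (by rw [h.min]; exact h.pos)
  exact ⟨kap u (wtS w), kap_mem e (P4_le h) I h.stable u _ (h.gens.2.1 w hw),
    (sum_kap_vS (P4_le h) u _).trans (P4_wt_face h w hf)⟩

theorem vS_le (h : Dat e I A u n₀) (c : Σ a, Fin (σ a).row) (hc : CRS u c) : vS u c ≤ n₀ := by
  classical
  by_contra hcon
  push Not at hcon
  have h1 := rank_zero h (fun c' => if c' = c then (1 : ℚ) else 0) (by
      intro c' hc'
      show (if c' = c then (1 : ℚ) else 0) = 0
      rw [if_neg]
      rintro rfl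
      rcases hc' with h2 | h2
      · exact h2 hc
      · omega) (by
      intro κ hκ
      have h2 : κ c = 0 := by
        by_contra h3
        have h4 : κ c * vS u c ≤ ∑ c, κ c * vS u c :=
          Finset.single_le_sum (f := fun c => κ c * vS u c) (fun _ _ => Nat.zero_le _)
            (Finset.mem_univ c)
        rw [hκ.2] at h4
        have h5 : vS u c ≤ κ c * vS u c := Nat.le_mul_of_pos_left _ (Nat.pos_of_ne_zero h3)
        omega
      refine Finset.sum_eq_zero fun c' _ => ?_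
      by_cases h3 : c' = c
      · rw [h3, h2, Nat.cast_zero, zero_mul]
      · rw [if_neg h3, mul_zero])
  have h2 := congrFun h1 c
  have h3 : (if c = c then (1 : ℚ) else 0) = 0 := h2
  rw [if_pos rfl] at h3
  exact one_ne_zero h3

end MotMono
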