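import Pool.Agent.Lib.MP_4e5fcd_ag.Cl.K2
import Pool.Agent.Lib.MP_4e5fcd_ag.Inv.DiagMinor

/-! # CL-S2: the vector of orders in terms of the normal form

PROOF. `dv_act`: `Dv.mul_left`, `Dv.mul_right`. `dv_dgI`: for `gen m n` and `eps true n`: the matrix of
`dgI D` is diagonal: all `r`-minors are divisible by `∏ i < r, D i` (`minor_diag_dvd`), and the leading one is
equal to it. For `eps false n`: after the transposition of the columns `2 i`, `2 i + 1` the matrix of
`dgI D` is diagonal with the entries `D 0, - D 0, D 1, - D 1, …, [0]`, so `Dv (2 j) (2 r)` holds iff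
`X ^ (2 j) ∣ ∏ i < r, (D i) ^ 2` iff `X ^ j ∣ ∏ i < r, D i`. -/

open MvPolynomial

namespace MotMono

private theorem s2_diag {m n : ℕ} (D : ℕ → PowerSeries ℂ) (hD : ∀ i j, i ≤ j → D i ∣ D j)
    (j r : ℕ) (hm : r ≤ m) (hn : r ≤ n) :
    Dv j r (Matrix.of fun (i : Fin m) (k : Fin n) => if (i : ℕ) = k then D i else 0) ↔
      (PowerSeries.X : PowerSeries ℂ) ^ j ∣ ∏ i ∈ Finset.range r, D i := by
  have h0 : (∏ i : Fin r, D ((Fin.castLE hm i : Fin m) : ℕ)) = ∏ i ∈ Finset.range r, D i := by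
    rw [← Fin.prod_univ_eq_prod_range]
    rfl
  constructor
  · intro h
    have h1 := h (Fin.castLE hm) (Fin.castLE hn)
    have h2 : ((Matrix.of fun (i : Fin m) (k : Fin n) => if (i : ℕ) = k then D i else 0).submatrix
        (Fin.castLE hm) (Fin.castLE hn)) = Matrix.diagonal fun i : Fin r => D i := by
      ext1 a b
      rw [Matrix.submatrix_apply, Matrix.of_apply, Matrix.diagonal_apply]
      by_cases hab : a = b
      · subst hab
        simp
      · have : (a : ℕ) ≠ b := fun h => hab (Fin.ext h)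
        simp [hab, this]
    rw [h2, Matrix.det_diagonal] at h1
    rw [← h0]
    exact h1
  · intro h S T
    refine h.trans ?_
    have h1 := minor_diag_dvd (fun i : Fin m => D i) (fun i k hik => hD _ _ hik) hm S T
    rw [h0] at h1
    exact h1

theorem dv_act (σ : Shp) (j r : ℕ) (M : Matrix (Fin σ.row) (Fin σ.col) (PowerSeries ℂ))
    (g : Matrix (Fin σ.row) (Fin σ.row) (PowerSeries ℂ))
    (h : Matrix (Fin σ.col) (Fin σ.col) (PowerSeries ℂ)) (hM : Dv j r M) :
    Dv j r (σ.act g h M) := by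
  cases σ with
  | gen m n => exact (hM.mul_left g).mul_right h
  | eps κ n => exact (hM.mul_left g).mul_right g.transpose

/-- transposition of `2 i` and `2 i + 1` -/
private def s2Fun (n : ℕ) (i : Fin n) : Fin n :=
  if _h : (i : ℕ) % 2 = 0 then (if h' : (i : ℕ) + 1 < n then ⟨i + 1, h'⟩ else i)
  else ⟨i - 1, lt_of_le_of_lt (Nat.sub_le _ _) i.2⟩

private theorem s2Fun_invol (n : ℕ) : Function.Involutive (s2Fun n) := by
  intro i
  by_cases h : (i : ℕ) % 2 = 0
  · by_cases h' : (i : ℕ) + 1 < n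
    · have h1 : s2Fun n i = ⟨i + 1, h'⟩ := by
        unfold s2Fun
        rw [dif_pos h, dif_pos h']
      rw [h1]
      unfold s2Fun
      have h2 : ¬ (((⟨i + 1, h'⟩ : Fin n) : ℕ) % 2 = 0) := by
        show ¬ (((i : ℕ) + 1) % 2 = 0)
        omega
      rw [dif_neg h2]
      ext
      simp
    · have h1 : s2Fun n i = i := by
        unfold s2Fun
        rw [dif_pos h, dif_neg h']
      rw [h1, h1]
  · have h1 : s2Fun n i = ⟨i - 1, lt_of_le_of_lt (Nat.sub_le _ _) i.2⟩ := by
      unfold s2Fun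
      rw [dif_neg h]
    rw [h1]
    unfold s2Fun
    have h2 : ((⟨i - 1, lt_of_le_of_lt (Nat.sub_le _ _) i.2⟩ : Fin n) : ℕ) % 2 = 0 := by
      show ((i : ℕ) - 1) % 2 = 0
      omega
    have h3 : ((⟨i - 1, lt_of_le_of_lt (Nat.sub_le _ _) i.2⟩ : Fin n) : ℕ) + 1 < n := by
      show ((i : ℕ) - 1) + 1 < n
      have := i.2
      omega
    rw [dif_pos h2, dif_pos h3]
    ext
    show ((i : ℕ) - 1) + 1 = i
    omega

/-- the diagonal entries in the skew-symmetric case -/
private def s2D (n : ℕ) (D : ℕ → PowerSeries ℂ) (i : ℕ) : PowerSeries ℂ :=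
  if i / 2 < n / 2 then (if i % 2 = 0 then D (i / 2) else - D (i / 2)) else 0

private theorem s2D_dvd (n : ℕ) (D : ℕ → PowerSeries ℂ) (hD : ∀ i j, i ≤ j → D i ∣ D j)
    (i j : ℕ) (hij : i ≤ j) : s2D n D i ∣ s2D n D j := by
  unfold s2D
  by_cases hj : j / 2 < n / 2
  · have hi : i / 2 < n / 2 := lt_of_le_of_lt (Nat.div_le_div_right hij) hj
    have h := hD _ _ (Nat.div_le_div_right (c := 2) hij)
    rw [if_pos hi, if_pos hj]
    split_ifs
    · exact h
    · exact (dvd_neg).2 h
    · exact (neg_dvd).2 h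
    · exact (neg_dvd).2 ((dvd_neg).2 h)
  · rw [if_neg hj]
    exact dvd_zero _

private theorem s2D_prod (n r : ℕ) (D : ℕ → PowerSeries ℂ) (hr : r ≤ n / 2) :
    ∏ i ∈ Finset.range (2 * r), s2D n D i = (-1) ^ r * (∏ i ∈ Finset.range r, D i) ^ 2 := by
  induction r with
  | zero => simp
  | succ r ih =>
    have h1 : 2 * (r + 1) = 2 * r + 1 + 1 := by ring
    rw [h1, Finset.prod_range_succ, Finset.prod_range_succ, ih (by omega),
      Finset.prod_range_succ]
    have h2 : s2D n D (2 * r) = D r := by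
      unfold s2D
      rw [if_pos (by omega), if_pos (by omega)]
      congr 1
      omega
    have h3 : s2D n D (2 * r + 1) = - D r := by
      unfold s2D
      rw [if_pos (by omega), if_neg (by omega)]
      congr 2
      omega
    rw [h2, h3]
    ring

private theorem s2_entry (n : ℕ) (D : ℕ → PowerSeries ℂ) (i k : Fin n) :
    (Shp.eps false n).mat ((Shp.eps false n).dgI D) i k =
      if (i : ℕ) % 2 = 0 ∧ (k : ℕ) = i + 1 then D ((i : ℕ) / 2)
      else if (k : ℕ) % 2 = 0 ∧ (i : ℕ) = k + 1 then - D ((k : ℕ) / 2) else 0 := by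
  unfold Shp.mat
  dsimp only
  by_cases h : i < k
  · have h0 : (i : ℕ) < k := h
    rw [dif_pos h]
    show (if (i : ℕ) % 2 = 0 ∧ (k : ℕ) + 1 = i + 2 then D ((i : ℕ) / 2) else 0) = _
    by_cases h1 : (i : ℕ) % 2 = 0 ∧ (k : ℕ) = i + 1
    · rw [if_pos h1, if_pos ⟨h1.1, by omega⟩]
    · rw [if_neg h1, if_neg (by omega), if_neg (by omega)]
  · have h0 : ¬ (i : ℕ) < k := h
    rw [dif_neg h, if_neg (by omega : ¬ ((i : ℕ) % 2 = 0 ∧ (k : ℕ) = i + 1))]
    by_cases h' : k < i
    · have h0' : (k : ℕ) < i := h'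
      rw [dif_pos h']
      show (if false = true then (1 : PowerSeries ℂ) else -1) *
        (if (k : ℕ) % 2 = 0 ∧ (i : ℕ) + 1 = k + 2 then D ((k : ℕ) / 2) else 0) = _
      rw [if_neg (by decide : ¬ (false = true))]
      by_cases h1 : (k : ℕ) % 2 = 0 ∧ (i : ℕ) = k + 1
      · rw [if_pos h1, if_pos ⟨h1.1, by omega⟩]
        ring
      · rw [if_neg h1, if_neg (by omega)]
        ring
    · have h0' : ¬ (k : ℕ) < i := h'
      rw [dif_neg h', dif_neg (by decide : ¬ (false = true)), if_neg (by omega)]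

private theorem s2_skew (n : ℕ) (D : ℕ → PowerSeries ℂ) :
    ((Shp.eps false n).mat ((Shp.eps false n).dgI D)).submatrix (Equiv.refl (Fin n))
      (Function.Involutive.toPerm (s2Fun n) (s2Fun_invol n)) =
      Matrix.of fun (i : Fin n) (k : Fin n) => if (i : ℕ) = k then s2D n D i else 0 := by
  ext1 i k
  rw [Matrix.submatrix_apply, Matrix.of_apply]
  have e1 : Function.Involutive.toPerm (s2Fun n) (s2Fun_invol n) k = s2Fun n k := rfl
  have e2 : (Equiv.refl (Fin n)) i = i := rfl
  rw [e1, e2, s2_entry]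
  have hi := i.2
  have hk := k.2
  by_cases h : (k : ℕ) % 2 = 0
  · by_cases h' : (k : ℕ) + 1 < n
    · have h1 : ((s2Fun n k : Fin n) : ℕ) = k + 1 := by
        unfold s2Fun
        rw [dif_pos h, dif_pos h']
      rw [h1]
      by_cases h2 : (i : ℕ) = k
      · rw [if_pos (by omega), if_pos h2]
        unfold s2D
        rw [if_pos (by omega), if_pos (by omega)]
      · rw [if_neg (by omega), if_neg (by omega), if_neg h2]
    · have h1 : ((s2Fun n k : Fin n) : ℕ) = k := by
        unfold s2Fun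
        rw [dif_pos h, dif_neg h']
      rw [h1, if_neg (by omega), if_neg (by omega)]
      by_cases h2 : (i : ℕ) = k
      · rw [if_pos h2]
        unfold s2D
        rw [if_neg (by omega)]
      · rw [if_neg h2]
  · have h1 : ((s2Fun n k : Fin n) : ℕ) = k - 1 := by
      unfold s2Fun
      rw [dif_neg h]
    rw [h1]
    by_cases h2 : (i : ℕ) = k
    · rw [if_neg (by omega), if_pos (by omega), if_pos h2]
      unfold s2D
      rw [if_pos (by omega), if_neg (by omega)]
      congr 2
      omega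
    · rw [if_neg (by omega), if_neg (by omega), if_neg h2]

theorem dv_dgI (σ : Shp) (hσ : σ.Le) (D : ℕ → PowerSeries ℂ) (hD : ∀ i j, i ≤ j → D i ∣ D j)
    (j r : ℕ) (hr : r ≤ σ.rk) :
    Dv (σ.st * j) (σ.st * r) (σ.mat (σ.dgI D)) ↔
      (PowerSeries.X : PowerSeries ℂ) ^ j ∣ ∏ i ∈ Finset.range r, D i := by
  cases σ with
  | gen m n =>
    have hmn : m ≤ n := hσ
    have hr' : r ≤ m := hr
    have h1 : (Shp.gen m n).mat ((Shp.gen m n).dgI D) =
        Matrix.of fun (i : Fin m) (k : Fin n) => if (i : ℕ) = k then D i else 0 := by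
      ext1 i k
      show (if (i : ℕ) % 1 = 0 ∧ (k : ℕ) + 1 = i + 1 then D ((i : ℕ) / 1) else 0) =
        if (i : ℕ) = k then D i else 0
      rw [Nat.div_one]
      by_cases h : (i : ℕ) = k
      · rw [if_pos h, if_pos ⟨Nat.mod_one _, by omega⟩]
      · rw [if_neg h, if_neg (fun h2 => h (by omega))]
    rw [h1]
    have h2 : (Shp.gen m n).st = 1 := rfl
    rw [h2, one_mul, one_mul]
    exact s2_diag D hD j r hr' (hr'.trans hmn)
  | eps κ n =>
    cases κ with
    | true =>
      have hr' : r ≤ n := by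
        have h3 : (Shp.eps true n).rk = n := by
          show n / 1 = n
          exact Nat.div_one n
        rwa [h3] at hr
      have h1 : (Shp.eps true n).mat ((Shp.eps true n).dgI D) =
          Matrix.of fun (i : Fin n) (k : Fin n) => if (i : ℕ) = k then D i else 0 := by
        ext1 i k
        rw [Matrix.of_apply]
        unfold Shp.mat
        dsimp only
        by_cases h : i < k
        · have h0 : (i : ℕ) < k := h
          rw [dif_pos h, if_neg (by omega : ¬ (i : ℕ) = k)]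
          show (if (i : ℕ) % 1 = 0 ∧ (k : ℕ) + 1 = i + 1 then D ((i : ℕ) / 1) else 0) = _
          rw [if_neg (by omega)]
        · have h0 : ¬ (i : ℕ) < k := h
          rw [dif_neg h]
          by_cases h' : k < i
          · have h0' : (k : ℕ) < i := h'
            rw [dif_pos h', if_neg (by omega : ¬ (i : ℕ) = k)]
            show (if true = true then (1 : PowerSeries ℂ) else -1) *
              (if (k : ℕ) % 1 = 0 ∧ (i : ℕ) + 1 = k + 1 then D ((k : ℕ) / 1) else 0) = _
            rw [if_neg (by omega : ¬ ((k : ℕ) % 1 = 0 ∧ (i : ℕ) + 1 = k + 1)), mul_zero]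
          · have h0' : ¬ (k : ℕ) < i := h'
            rw [dif_neg h', dif_pos rfl, if_pos (by omega : (i : ℕ) = k)]
            show (if (i : ℕ) % 1 = 0 ∧ (k : ℕ) + 1 = i + 1 then D ((i : ℕ) / 1) else 0) = _
            rw [if_pos ⟨Nat.mod_one _, by omega⟩, Nat.div_one]
      rw [h1]
      have h2 : (Shp.eps true n).st = 1 := rfl
      rw [h2, one_mul, one_mul]
      exact s2_diag D hD j r hr' hr'
    | false =>
      have hr' : r ≤ n / 2 := hr
      have h2 : (Shp.eps false n).st = 2 := rfl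
      rw [h2, ← dv_submatrix _ (Equiv.refl (Fin n)) (Function.Involutive.toPerm (s2Fun n) (s2Fun_invol n)), s2_skew,
        s2_diag (s2D n D) (s2D_dvd n D hD) (2 * j) (2 * r) (by omega) (by omega), s2D_prod n r D hr']
      have h3 : IsUnit ((-1 : PowerSeries ℂ) ^ r) := (isUnit_one.neg).pow r
      rw [h3.dvd_mul_left, mul_comm 2 j, pow_mul]
      exact IsIntegrallyClosed.pow_dvd_pow_iff two_ne_zero

theorem le_etS_smith (σ : Shp) (hσ : σ.Le) (y : σ.Idx → PowerSeries ℂ) (D : ℕ → PowerSeries ℂ)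
    (hD : ∀ i j, i ≤ j → D i ∣ D j) (g g' : Matrix (Fin σ.row) (Fin σ.row) (PowerSeries ℂ))
    (h h' : Matrix (Fin σ.col) (Fin σ.col) (PowerSeries ℂ)) (h1 : y = σ.actI g h (σ.dgI D))
    (h2 : σ.dgI D = σ.actI g' h' y) (L j r : ℕ) (hr : r ≤ σ.rk) :
    j ≤ σ.et L y r ↔ j ≤ L ∧ (PowerSeries.X : PowerSeries ℂ) ^ j ∣ ∏ i ∈ Finset.range r, D i := by
  have h3 : Dv (σ.st * j) (σ.st * r) (σ.mat y) ↔ Dv (σ.st * j) (σ.st * r) (σ.mat (σ.dgI D)) := by
    constructor
    · intro h4
      rw [h2, Shp.mat_actI]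
      exact dv_act σ _ _ _ _ _ h4
    · intro h4
      rw [h1, Shp.mat_actI]
      exact dv_act σ _ _ _ _ _ h4
  unfold Shp.et
  rw [le_etm_iff, h3, dv_dgI σ hσ D hD j r hr]

end MotMono
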