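import Pool.Agent.Lib.MP_4e5fcd_ag.Cl.E1
import Pool.Agent.Lib.MP_4e5fcd_ag.Cl.E2
import Pool.Agent.Lib.MP_4e5fcd_ag.Cl.S2

/-! # CL-E6: the order of `I` at a point in normal form

PROOF. `dvd_chain`: for each `a` write `D a i = ∏ k ≤ i, E a k` (`E a 0 = D a 0`, `D a (i + 1) = D a i * E a (i + 1)`
by `hD`); the exponent of `E a k` in `∏ D ^ β` is `∑ i ≥ k, β (a, i)`, and the sum of `rk - k` terms of `β` is at
least the sum of the `rk - k` last terms of its weakly decreasing rearrangement.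
`dvd_dgP_iff`: (→) `exS_dgR` for `β = wtS w`. (←) `aeval (dgP e D) f = ∑ β, coeff β * ∏ D ^ β` (`aeval_dgR`), every `β` in the
support is in `ExS` (`exS_of_support`); its decreasing rearrangement is in `ExS` (`exS_perm`), so it is
`≥ wtS w` for some `w ∈ A`; use `dvd_chain`. -/

open MvPolynomial

namespace MotMono

variable {s N : ℕ} {σ : Fin s → Shp}

/-- the last terms of a weakly decreasing sequence have the smallest sum -/
private theorem e6_sum_le {m k : ℕ} (c : Fin m → ℕ) (hc : ∀ i j : Fin m, i ≤ j → c j ≤ c i)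
    (S : Finset (Fin m)) (hS : S.card = (Finset.univ.filter fun i : Fin m => k ≤ (i : ℕ)).card) :
    ∑ i ∈ Finset.univ.filter (fun i : Fin m => k ≤ (i : ℕ)), c i ≤ ∑ i ∈ S, c i := by
  classical
  set U : Finset (Fin m) := Finset.univ.filter fun i : Fin m => k ≤ (i : ℕ) with hU
  by_cases hk : k < m
  · have h1 : ∑ i ∈ U, c i = ∑ i ∈ U \ S, c i + ∑ i ∈ U ∩ S, c i := by
      rw [← Finset.sum_sdiff (Finset.inter_subset_left (s₁ := U) (s₂ := S)), Finset.sdiff_inter_self_left]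
    have h2 : ∑ i ∈ S, c i = ∑ i ∈ S \ U, c i + ∑ i ∈ U ∩ S, c i := by
      rw [Finset.inter_comm, ← Finset.sum_sdiff (Finset.inter_subset_left (s₁ := S) (s₂ := U)),
        Finset.sdiff_inter_self_left]
    have h3 : (U \ S).card = (S \ U).card := (Finset.card_sdiff_comm hS).symm
    have h4 : ∑ i ∈ U \ S, c i ≤ (U \ S).card • c ⟨k, hk⟩ := by
      refine Finset.sum_le_card_nsmul _ _ _ fun i hi => hc _ _ ?_
      rw [Finset.mem_sdiff, hU, Finset.mem_filter] at hi
      exact hi.1.2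
    have h5 : (S \ U).card • c ⟨k, hk⟩ ≤ ∑ i ∈ S \ U, c i := by
      refine Finset.card_nsmul_le_sum _ _ _ fun i hi => hc _ _ ?_
      rw [Finset.mem_sdiff, hU, Finset.mem_filter] at hi
      have h6 : ¬ k ≤ (i : ℕ) := fun h => hi.2 ⟨Finset.mem_univ _, h⟩
      show (i : ℕ) ≤ k
      omega
    rw [h1, h2]
    rw [h3] at h4
    omega
  · have h1 : U = ∅ := by
      rw [hU, Finset.filter_eq_empty_iff]
      intro i _
      have := i.2
      omega
    rw [h1]
    simp

private theorem e6_one {R : Type} [CommRing R] {m : ℕ} (D : ℕ → R) (hD : ∀ i j, i ≤ j → D i ∣ D j)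
    (b : Fin m → ℕ) (π : Equiv.Perm (Fin m)) (hπ : ∀ i j : Fin m, i ≤ j → b (π j) ≤ b (π i)) :
    ∏ i : Fin m, D i ^ b (π i) ∣ ∏ i : Fin m, D i ^ b i := by
  classical
  choose q hq using fun i : ℕ => hD i (i + 1) (Nat.le_succ i)
  set E : ℕ → R := fun k => Nat.rec (D 0) (fun j _ => q j) k with hE
  have hDE : ∀ i, D i = ∏ k ∈ Finset.range (i + 1), E k := by
    intro i
    induction i with
    | zero => simp [hE]
    | succ i ih =>
      rw [Finset.prod_range_succ, ← ih, hq i]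
  have key : ∀ b : Fin m → ℕ, ∏ i : Fin m, D i ^ b i =
      ∏ k ∈ Finset.range m, E k ^ ∑ i ∈ Finset.univ.filter (fun i : Fin m => k ≤ (i : ℕ)), b i := by
    intro b
    have h1 : ∀ i : Fin m, D i ^ b i = ∏ k ∈ Finset.range m, E k ^ (if k ≤ (i : ℕ) then b i else 0) := by
      intro i
      rw [hDE i, ← Finset.prod_pow]
      have hsub : Finset.range ((i : ℕ) + 1) ⊆ Finset.range m := by
        rw [Finset.range_subset_range]
        exact i.2
      rw [← Finset.prod_subset hsub]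
      · refine Finset.prod_congr rfl fun k hk => ?_
        rw [Finset.mem_range] at hk
        rw [if_pos (by omega)]
      · intro k _ hk
        rw [Finset.mem_range] at hk
        rw [if_neg (by omega), pow_zero]
    rw [Finset.prod_congr rfl fun i _ => h1 i, Finset.prod_comm]
    refine Finset.prod_congr rfl fun k _ => ?_
    rw [Finset.prod_pow_eq_pow_sum, Finset.sum_filter]
  rw [key b, key fun i => b (π i)]
  refine Finset.prod_dvd_prod_of_dvd _ _ fun k _ => pow_dvd_pow _ ?_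
  set U : Finset (Fin m) := Finset.univ.filter fun i : Fin m => k ≤ (i : ℕ) with hU
  have h2 := e6_sum_le (k := k) (fun i => b (π i)) hπ (U.map π.symm.toEmbedding)
    (by rw [Finset.card_map])
  refine h2.trans (le_of_eq ?_)
  rw [Finset.sum_map]
  refine Finset.sum_congr rfl fun i _ => ?_
  simp

theorem dvd_chain {R : Type} [CommRing R] (D : Fin s → ℕ → R)
    (hD : ∀ a i j, i ≤ j → D a i ∣ D a j) (β : (Σ a, Fin (σ a).rk) → ℕ)
    (π : ∀ a, Equiv.Perm (Fin (σ a).rk)) (hπ : DomS fun c => β ⟨c.1, π c.1 c.2⟩) :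
    ∏ c : (Σ a, Fin (σ a).rk), D c.1 c.2 ^ β ⟨c.1, π c.1 c.2⟩ ∣
      ∏ c : (Σ a, Fin (σ a).rk), D c.1 c.2 ^ β c := by
  rw [Fintype.prod_sigma, Fintype.prod_sigma]
  refine Finset.prod_dvd_prod_of_dvd _ _ fun a _ => ?_
  exact e6_one (D a) (hD a) (fun i => β ⟨a, i⟩) (π a) (fun i j hij => hπ a i j hij)

theorem dvd_dgP_iff (e : (Σ a, (σ a).Idx) ≃ Fin N) (hσ : ∀ a, (σ a).Le)
    (I : Ideal (MvPolynomial (Fin N) ℂ)) (hI : ShStable σ e I)
    (A : Finset ((Σ a, Fin (σ a).rk) → ℕ)) (hA : Gens σ e I A)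
    (D : Fin s → ℕ → PowerSeries ℂ) (hD : ∀ a i j, i ≤ j → D a i ∣ D a j) (k : ℕ) :
    (∀ f ∈ I, (PowerSeries.X : PowerSeries ℂ) ^ k ∣ aeval (dgP e D) f) ↔
      ∀ w ∈ A, (PowerSeries.X : PowerSeries ℂ) ^ k ∣
        ∏ c : (Σ a, Fin (σ a).rk), D c.1 c.2 ^ wtS w c := by
  constructor
  · intro h w hw
    obtain ⟨f, hf, hfe⟩ := exS_dgR e I (wtS w) (hA.2.1 w hw)
    have h1 := h f hf
    rwa [hfe D] at h1
  · intro h f hf
    rw [← aeval_dgR e D f, (dgR σ e f).as_sum, map_sum]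
    refine Finset.dvd_sum fun β hβ => ?_
    rw [aeval_monomial]
    refine Dvd.dvd.mul_left ?_ _
    rw [Finsupp.prod_fintype _ _ (fun c => pow_zero _)]
    obtain ⟨π, hπ⟩ := exists_sort (σ := σ) fun c => β c
    have h1 := exS_perm e hσ I hI _ (exS_of_support e I hI f hf β hβ) π
    obtain ⟨w, hw, hle⟩ := hA.2.2 _ h1 hπ
    refine (h w hw).trans (Dvd.dvd.trans ?_ (dvd_chain D hD (fun c => β c) π hπ))
    exact Finset.prod_dvd_prod_of_dvd _ _ fun c _ => pow_dvd_pow _ (hle c)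

end MotMono
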