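import Pool.Agent.Lib.MP_4e5fcd_ag.Cl.P3
import Pool.Agent.Lib.MP_4e5fcd_ag.Cl.E6
import Pool.Agent.Lib.MP_4e5fcd_ag.Inv.DiagEval

/-! # CL-P5: orders at the points of the form of the reference point

PROOF. `ref_dvd`: by `exists_toDg` and `dvd_actS` it suffices to consider `dgP e D` with
`D a i = sg * z (crow i) * X ^ mue b i` for `i < rk` (`crow_vv`), `D a i = 0` for `i ≥ rk`. The nonzero constants can be
any complex numbers, so first let `D' a i = X ^ mue b i` (a chain) and use `dvd_dgP_iff`: for `w ∈ A` the product is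
`X ^ ∑ c, wtS w c * mue ..` and the exponent is `pair (Wf w) u ≥ minF` (`pair_wtw`; `wtS` is `wtw` with
`m := fun a => (σ a).rk`). So all monomials `β` of `dgR σ e f`, `f ∈ I`, which are in `ExS` (`exS_of_support`), have
`∑ β c * mue .. ≥ n₀` (`exS_dgR`), and this gives the divisibility for all constants (`aeval_dgR`).
`ref_dvd_poly`: the same over `Polynomial ℂ` (compare coefficients, `Polynomial.coe` is injective and compatible
with divisibility by powers of `X`). `ef_ge`: `ef_spec`, `ref_dvd_poly` with `z = 1`. -/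

open MvPolynomial

namespace MotMono

variable {s N : ℕ} {σ : Fin s → Shp} {e : (Σ a, (σ a).Idx) ≃ Fin N}
  {I : Ideal (MvPolynomial (Fin N) ℂ)} {A : Finset ((Σ a, Fin (σ a).rk) → ℕ)}
  {u : (Σ a, Fin (σ a).rk) → ℕ} {n₀ : ℕ}

theorem exS_ge (h : Dat0 e I A u n₀) (β : (Σ a, Fin (σ a).rk) → ℕ) (hβ : β ∈ ExS σ e I) :
    n₀ ≤ ∑ c, β c * mue (bS u c.1) c.2 := by
  have hle : ∀ a, (σ a).Le := fun a => h.le a
  have hmono : ∀ (b : ℕ → ℕ) (i j : ℕ), i ≤ j → mue b i ≤ mue b j := fun b i j hij =>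
    Finset.sum_le_sum_of_subset (Finset.range_subset_range.2 (by omega))
  have hchain : ∀ a i j, i ≤ j → (fun (a : Fin s) (i : ℕ) =>
      (PowerSeries.X : PowerSeries ℂ) ^ mue (bS u a) i) a i ∣
      (fun (a : Fin s) (i : ℕ) => (PowerSeries.X : PowerSeries ℂ) ^ mue (bS u a) i) a j :=
    fun a i j hij => pow_dvd_pow _ (hmono _ _ _ hij)
  have hprod : ∀ γ : (Σ a, Fin (σ a).rk) → ℕ,
      ∏ c : (Σ a, Fin (σ a).rk), ((fun (a : Fin s) (i : ℕ) =>
        (PowerSeries.X : PowerSeries ℂ) ^ mue (bS u a) i) c.1 c.2) ^ γ c =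
      (PowerSeries.X : PowerSeries ℂ) ^ ∑ c, γ c * mue (bS u c.1) c.2 := by
    intro γ
    rw [← Finset.prod_pow_eq_pow_sum]
    refine Finset.prod_congr rfl fun c _ => ?_
    rw [← pow_mul, mul_comm]
  have hdvd := (dvd_dgP_iff e hle I h.stable A h.gens (fun (a : Fin s) (i : ℕ) =>
    (PowerSeries.X : PowerSeries ℂ) ^ mue (bS u a) i) hchain n₀).2 (by
      intro w hw
      rw [hprod]
      refine pow_dvd_pow _ ?_
      have h1 := pair_wtw (m := fun a => (σ a).rk) w u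
      have h2 : minF (AW (m := fun a => (σ a).rk) A) u ≤ pair (Wf (m := fun a => (σ a).rk) w) u := by
        refine Nat.sInf_le ⟨Wf (m := fun a => (σ a).rk) w, ?_, rfl⟩
        classical
        unfold AW
        exact Finset.mem_image_of_mem _ hw
      rw [h.min, ← h1] at h2
      exact h2)
  obtain ⟨f, hf, hev⟩ := exS_dgR e I β hβ
  have h3 := hdvd f hf
  rw [hev, hprod] at h3
  exact (pow_dvd_pow_iff PowerSeries.X_ne_zero PowerSeries.X_prime.not_isUnit).1 h3

theorem ref_dvd_poly (h : Dat0 e I A u n₀) (z : Fin s → ℕ → ℂ) :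
    ∀ f ∈ I, (Polynomial.X : Polynomial ℂ) ^ n₀ ∣
      aeval (FPS e u fun a i =>
        Polynomial.C (z a i) * Polynomial.X ^ (σ a).vv (bS u a) i) f := by
  have hle : ∀ a, (σ a).Le := fun a => h.le a
  choose g g' hh hh' hG using fun a => Shp.exists_toDg (σ a) (hle a) (bS u a)
  set zz : Fin s → ℕ → Polynomial ℂ := fun a i =>
    Polynomial.C (z a i) * Polynomial.X ^ (σ a).vv (bS u a) i with hzz
  have hbase : ∀ f ∈ I, (Polynomial.X : Polynomial ℂ) ^ n₀ ∣
      aeval (ptS e fun a => (σ a).dgI ((σ a).Dz (bS u a) (zz a))) f := by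
    intro f hf
    have h1 : aeval (ptS e fun a => (σ a).dgI ((σ a).Dz (bS u a) (zz a))) f =
        aeval (fun c : (Σ a, Fin (σ a).rk) => (σ c.1).Dz (bS u c.1) (zz c.1) c.2) (dgR σ e f) :=
      (aeval_dgR e (fun a => (σ a).Dz (bS u a) (zz a)) f).symm
    rw [h1, aeval_def, eval₂_eq']
    refine Finset.dvd_sum fun β hβ => ?_
    refine Dvd.dvd.mul_left ?_ _
    have h2 := exS_ge h (fun c => β c) (exS_of_support e I h.stable f hf β hβ)
    refine (pow_dvd_pow _ h2).trans ?_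
    rw [← Finset.prod_pow_eq_pow_sum]
    refine Finset.prod_dvd_prod_of_dvd _ _ fun c _ => ?_
    rw [mul_comm, pow_mul]
    refine pow_dvd_pow_of_dvd ?_ _
    unfold Shp.Dz
    refine Dvd.dvd.mul_left ?_ _
    rw [hzz]
    refine Dvd.dvd.mul_left ?_ _
    rw [Shp.crow_vv _ _ (hle c.1) _ c.2.2]
  intro f hf
  have h4 := dvd_actS_poly e I h.stable (fun a => (σ a).dgI ((σ a).Dz (bS u a) (zz a))) n₀ hbase
    (fun a => (g' a).map (algebraMap ℂ (Polynomial ℂ))) (fun a => (hh' a).map (algebraMap ℂ (Polynomial ℂ)))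
    f hf
  have h5 : (ptS e fun a => (σ a).actI ((g' a).map (algebraMap ℂ (Polynomial ℂ)))
      ((hh' a).map (algebraMap ℂ (Polynomial ℂ))) ((σ a).dgI ((σ a).Dz (bS u a) (zz a)))) =
      FPS e u zz := by
    unfold FPS
    congr 1
    funext a
    exact (hG a (zz a)).2
  rw [h5] at h4
  exact h4

theorem ef_ge (h : Dat0 e I A u n₀) (κ : (Σ a, Fin (σ a).row) → ℕ) (hκ : κ ∈ EF e I u) :
    n₀ ≤ ∑ c, κ c * vS u c := by
  obtain ⟨f, hf, hev⟩ := ef_spec e I u κ hκ
  have h1 := ref_dvd_poly h (fun _ _ => 1) f hf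
  rw [hev] at h1
  have h2 : ∏ c : (Σ a, Fin (σ a).row), (Polynomial.C (1 : ℂ) *
      Polynomial.X ^ (σ c.1).vv (bS u c.1) c.2) ^ κ c =
      (Polynomial.X : Polynomial ℂ) ^ ∑ c, κ c * vS u c := by
    rw [← Finset.prod_pow_eq_pow_sum]
    refine Finset.prod_congr rfl fun c _ => ?_
    rw [map_one, one_mul, ← pow_mul, mul_comm]
    rfl
  rw [h2] at h1
  exact (pow_dvd_pow_iff Polynomial.X_ne_zero Polynomial.not_isUnit_X).1 h1

end MotMono
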