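import Pool.Agent.Lib.MP_4e5fcd_ag.Cl.L0
import Pool.Agent.Lib.MP_4e5fcd_ag.Cl.P4
import Pool.Agent.Lib.MP_4e5fcd_ag.Cl.P5

/-! # CL-C1: the reference curve

PROOF. `crv_lt`: `ref_dvd_poly` with `z = δ`. `crv_ne`: `exists_efn`, `ef_spec`: the value at `crvS` is
`∏ (C δ * X ^ v) ^ κ = C (δ ^ ∑ κ) * X ^ n₀`. `crv_small`: as in `inv_main` (`Inv/Main.lean`). -/

open MvPolynomial

namespace MotMono

variable {s N : ℕ} {σ : Fin s → Shp} {e : (Σ a, (σ a).Idx) ≃ Fin N}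
  {I : Ideal (MvPolynomial (Fin N) ℂ)} {A : Finset ((Σ a, Fin (σ a).rk) → ℕ)}
  {u : (Σ a, Fin (σ a).rk) → ℕ} {n₀ : ℕ}

theorem crv_lt (h : Dat e I A u n₀) (δ : ℂ) :
    ∀ f ∈ I, ∀ l < n₀, (aeval (crvS e u δ) f).coeff l = 0 := by
  intro f hf l hl
  have h1 := ref_dvd_poly h.toDat0 (fun _ _ => δ) f hf
  rw [Polynomial.X_pow_dvd_iff] at h1
  exact h1 l hl

theorem crv_ne (h : Dat e I A u n₀) (δ : ℂ) (hδ : δ ≠ 0) :
    ∃ f ∈ I, (aeval (crvS e u δ) f).coeff n₀ ≠ 0 := by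
  obtain ⟨κ, hκ, hn⟩ := exists_efn h
  obtain ⟨f, hf, hev⟩ := ef_spec e I u κ hκ
  refine ⟨f, hf, ?_⟩
  have h1 : aeval (crvS e u δ) f = Polynomial.C (δ ^ ∑ c, κ c) * Polynomial.X ^ n₀ := by
    unfold crvS
    rw [hev, ← hn, map_pow, ← Finset.prod_pow_eq_pow_sum, ← Finset.prod_pow_eq_pow_sum,
      ← Finset.prod_mul_distrib]
    refine Finset.prod_congr rfl fun c _ => ?_
    rw [mul_pow, ← pow_mul, mul_comm (κ c)]
    rfl
  rw [h1, Polynomial.coeff_C_mul_X_pow, if_pos rfl]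
  exact pow_ne_zero _ hδ

theorem crv_small (e : (Σ a, (σ a).Idx) ≃ Fin N) (u : (Σ a, Fin (σ a).rk) → ℕ) (ε : ℝ)
    (hε : 0 < ε) : ‖fun i => (crvS e u ((ε / 2 : ℝ) : ℂ) i).eval 0‖ < ε := by
  have hle : ∀ i, ‖(crvS e u ((ε / 2 : ℝ) : ℂ) i).eval 0‖ ≤ ε / 2 := by
    intro i
    have h2 : ‖((ε / 2 : ℝ) : ℂ)‖ = ε / 2 := by
      rw [Complex.norm_real, Real.norm_eq_abs, abs_of_pos (by positivity)]
    unfold crvS FPS ptS Shp.FP
    dsimp only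
    split_ifs with h
    · rw [Polynomial.eval_mul, Polynomial.eval_C, Polynomial.eval_pow, Polynomial.eval_X,
        norm_mul, h2, norm_pow, norm_zero]
      have h3 : ∀ k : ℕ, (0 : ℝ) ^ k ≤ 1 := by
        intro k
        rcases Nat.eq_zero_or_pos k with h0 | h0
        · rw [h0, pow_zero]
        · rw [zero_pow h0.ne']; exact zero_le_one
      nlinarith [h3 ((σ (e.symm i).1).vv (bS u (e.symm i).1) ((σ (e.symm i).1).pr (e.symm i).2))]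
    · rw [Polynomial.eval_zero, norm_zero]; positivity
  exact lt_of_le_of_lt ((pi_norm_le_iff_of_nonneg (by positivity)).mpr hle) (by linarith)

end MotMono
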