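import Pool.Agent.Lib.MP_4e5fcd_ag.Cl.K6
import Pool.Agent.Lib.MP_4e5fcd_ag.Cl.B1S
import Pool.Agent.Lib.MP_4e5fcd_ag.Det.C4

/-! # CL-C4S: the classes in the universal ring (port of `Det/C4.lean`; from `K6`: `cls_rankS_zero`,
`sum_rankS`, `cls_SPS_succ`) -/

open MvPolynomial

namespace MotMono

private theorem c4S_LL : algebraMap K0 MC LL = ((Lu : MCˣ) : MC) := by
  unfold Lu
  rw [IsUnit.unit_spec]

private theorem c4S_LL_pow (k : ℕ) : algebraMap K0 MC (LL ^ k) = ((Lu ^ (k : ℤ) : MCˣ) : MC) := by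
  rw [map_pow, c4S_LL, ← Units.val_pow_eq_pow_val, zpow_natCast]

private theorem c4S_X : thetaS Polynomial.X = ((Lu⁻¹ : MCˣ) : MC) := by
  unfold thetaS
  rw [Polynomial.coe_eval₂RingHom, Polynomial.eval₂_X]

theorem thetaS_X_pow (a : ℕ) :
    thetaS ((Polynomial.X : BqS) ^ a) = ((Lu ^ (-(a : ℤ)) : MCˣ) : MC) := by
  rw [map_pow, c4S_X, ← Units.val_pow_eq_pow_val, inv_pow, zpow_neg, zpow_natCast]

private theorem c4S_C (σ : Shp) (ρ : ℕ) :
    thetaS (Polynomial.C (MvPolynomial.X (σ, ρ))) =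
      algebraMap K0 MC (cls (σ.RankS ρ)) * ((Lu ^ (-(σ.dim : ℤ)) : MCˣ) : MC) := by
  unfold thetaS
  rw [Polynomial.coe_eval₂RingHom, Polynomial.eval₂_C, MvPolynomial.coe_eval₂Hom,
    MvPolynomial.eval₂_X]

theorem thetaS_RpS (σ : Shp) (hσ : σ.Le) (ρ : ℕ) (hρ : ρ ≤ σ.rk) :
    thetaS (RpS σ ρ) = algebraMap K0 MC (cls (σ.RankS ρ)) *
      ((Lu ^ (-(σ.dim : ℤ)) : MCˣ) : MC) := by
  unfold RpS
  by_cases h0 : ρ = 0
  · subst h0
    rw [if_pos rfl, thetaS_X_pow, cls_rankS_zero, map_one, one_mul]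
  · rw [if_neg h0]
    by_cases h1 : ρ < σ.rk
    · rw [if_pos h1, c4S_C]
    · rw [if_neg h1]
      have hm : ρ = σ.rk := by omega
      have hsum := sum_rankS σ hσ
      rw [← hm] at hsum ⊢
      rw [Finset.sum_range_succ] at hsum
      have h2 : ∑ ρ' ∈ Finset.range ρ, cls (σ.RankS ρ') =
          1 + ∑ ρ' ∈ Finset.Ioo 0 ρ, cls (σ.RankS ρ') := by
        have h3 : Finset.range ρ = insert 0 (Finset.Ioo 0 ρ) := by
          ext a
          rw [Finset.mem_insert, Finset.mem_range, Finset.mem_Ioo]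
          omega
        rw [h3, Finset.sum_insert (by simp), cls_rankS_zero]
      rw [h2] at hsum
      have h4 : cls (σ.RankS ρ) =
          LL ^ σ.dim - 1 - ∑ ρ' ∈ Finset.Ioo 0 ρ, cls (σ.RankS ρ') := by
        rw [← hsum]
        ring
      rw [h4, map_sub, map_sub, map_sub, map_sub, map_one, map_one, map_sum, map_sum,
        thetaS_X_pow, c4S_LL_pow, sub_mul, sub_mul, ← Units.val_mul, ← zpow_add,
        add_neg_cancel, zpow_zero, Units.val_one, one_mul, Finset.sum_mul]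
      congr 1
      exact Finset.sum_congr rfl fun ρ' _ => c4S_C σ ρ'

private theorem c4S_tri (a b : ℕ) (h : a ≤ b) : a * (a - 1) / 2 ≤ b * (b - 1) / 2 :=
  Nat.div_le_div_right (Nat.mul_le_mul h (Nat.sub_le_sub_right h 1))

private theorem c4S_dim_le (σ : Shp) (ρ : ℕ) : (σ.res ρ).dim ≤ σ.dim := by
  cases σ with
  | gen m n => exact Nat.mul_le_mul (Nat.sub_le _ _) (Nat.sub_le _ _)
  | eps κ n =>
    cases κ with
    | true =>
      simp only [Shp.res, Shp.dim, if_true]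
      have := c4S_tri (n - 1 * ρ) n (Nat.sub_le _ _)
      omega
    | false =>
      simp only [Shp.res, Shp.dim, Bool.false_eq_true, if_false]
      have := c4S_tri (n - 2 * ρ) n (Nat.sub_le _ _)
      omega

private theorem c4S_res_le (σ : Shp) (hσ : σ.Le) (ρ : ℕ) : (σ.res ρ).Le := by
  cases σ with
  | gen m n => exact Nat.sub_le_sub_right hσ ρ
  | eps κ n => trivial

theorem thetaS_PPS (L : ℕ) (σ : Shp) (hσ : σ.Le) (Φ : (ℕ → ℕ) → Prop) :
    thetaS (PPS L σ Φ) = algebraMap K0 MC (cls (SPS σ L Φ)) *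
      ((Lu ^ (-((σ.dim * L : ℕ) : ℤ)) : MCˣ) : MC) := by
  classical
  induction L generalizing σ Φ with
  | zero =>
    have het : ∀ γ : σ.Idx × Fin 0 → ℂ, σ.et 0 (ser γ) = 0 := by
      intro γ
      funext r
      unfold Shp.et etm
      exact Nat.findGreatest_zero
    rw [PPS]
    by_cases hΦ : Φ 0
    · rw [if_pos hΦ]
      have h1 : SPS σ 0 Φ = Set.univ := by
        ext γ
        unfold SPS
        rw [Set.mem_ofPred_eq, het γ]
        exact ⟨fun _ => trivial, fun _ => hΦ⟩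
      have h2 : cls (Set.univ : Set (σ.Idx × Fin 0 → ℂ)) = 1 := by
        haveI := Fintype.ofFinite (σ.Idx × Fin 0)
        rw [cls_univ, Fintype.card_eq_zero, pow_zero]
      rw [h1, h2]
      simp
    · rw [if_neg hΦ]
      have h1 : SPS σ 0 Φ = ∅ := by
        ext γ
        unfold SPS
        rw [Set.mem_ofPred_eq, het γ]
        exact ⟨fun h => (hΦ h).elim, fun h => h.elim⟩
      rw [h1, cls_empty, map_zero, map_zero, zero_mul]
  | succ L ih =>
    rw [PPS, map_sum, cls_SPS_succ σ hσ L Φ, map_sum, Finset.sum_mul]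
    refine Finset.sum_congr rfl fun ρ hρ => ?_
    rw [Finset.mem_range] at hρ
    rw [map_mul, thetaS_RpS σ hσ ρ (by omega), ih (σ.res ρ) (c4S_res_le σ hσ ρ), map_mul, map_mul,
      c4S_LL_pow]
    have hle : (σ.res ρ).dim ≤ σ.dim := c4S_dim_le σ ρ
    have hexp : ((((σ.dim - (σ.res ρ).dim) * L : ℕ) : ℤ)) +
        -((σ.dim * (L + 1) : ℕ) : ℤ) =
        -((σ.dim : ℕ) : ℤ) + -(((σ.res ρ).dim * L : ℕ) : ℤ) := by
      obtain ⟨d, hd⟩ := Nat.exists_eq_add_of_le hle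
      have h5 : σ.dim - (σ.res ρ).dim = d := by omega
      rw [h5, hd]
      push_cast
      ring
    have hu : ((Lu ^ ((((σ.dim - (σ.res ρ).dim) * L : ℕ) : ℤ)) : MCˣ) : MC) *
        ((Lu ^ (-((σ.dim * (L + 1) : ℕ) : ℤ)) : MCˣ) : MC) =
        ((Lu ^ (-((σ.dim : ℕ) : ℤ)) : MCˣ) : MC) *
        ((Lu ^ (-(((σ.res ρ).dim * L : ℕ) : ℤ)) : MCˣ) : MC) := by
      rw [← Units.val_mul, ← Units.val_mul, ← zpow_add, ← zpow_add, hexp]
    calc _ = algebraMap K0 MC (cls (σ.RankS ρ)) *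
          algebraMap K0 MC (cls (SPS (σ.res ρ) L fun E => Φ (shiftE ρ (L + 1) E))) *
          (((Lu ^ (-((σ.dim : ℕ) : ℤ)) : MCˣ) : MC) *
          ((Lu ^ (-(((σ.res ρ).dim * L : ℕ) : ℤ)) : MCˣ) : MC)) := by ring
      _ = _ := by
          rw [← hu]
          ring

end MotMono
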