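import Pool.Agent.Lib.MP_4e5fcd_ag.Cl.K0
import Pool.Agent.Lib.MP_4e5fcd_ag.Det.C1

/-! # CL-K3: constructibility (port of `Det/C1.lean`; `σ.et` is `etm σ.st`)

`etS_one_ne_zero_iff` for skew-symmetric matrices: `Dv 2 2` gives `X ^ 2 ∣ x_ik ^ 2` for the principal
`2 × 2` minors, so `X ∣ x_ik`; conversely clear. -/

open MvPolynomial

namespace MotMono

private theorem k3_ser {ι : Type} {L : ℕ} (E : Set (ι × Fin L → ℂ)) (p : ι) :
    RegSer E fun γ => ser γ p := by
  intro l
  unfold ser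
  simp only [PowerSeries.coeff_mk]
  by_cases h : l < L
  · simp only [h, dif_pos]
    exact regFun_coord E _
  · simp only [h, dif_neg, not_false_eq_true]
    exact regFun_const E 0

private theorem k3_le_et_iff (σ : Shp) (L : ℕ) (x : σ.Idx → PowerSeries ℂ) (r j : ℕ) :
    j ≤ σ.et L x r ↔ j ≤ L ∧ Dv (σ.st * j) (σ.st * r) (σ.mat x) := by
  classical
  have h0 : Dv (σ.st * 0) (σ.st * r) (σ.mat x) := by
    rw [mul_zero]
    exact a2_zero _ _
  constructor
  · intro h
    have h1 : σ.et L x r ≤ L := Nat.findGreatest_le L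
    have h2 : Dv (σ.st * σ.et L x r) (σ.st * r) (σ.mat x) :=
      Nat.findGreatest_spec (P := fun j => Dv (σ.st * j) (σ.st * r) (σ.mat x)) (Nat.zero_le L) h0
    exact ⟨h.trans h1, h2.mono (Nat.mul_le_mul_left _ h)⟩
  · rintro ⟨h1, h2⟩
    exact Nat.le_findGreatest h1 h2

private theorem k3_et_le (σ : Shp) (L : ℕ) (x : σ.Idx → PowerSeries ℂ) (r : ℕ) :
    σ.et L x r ≤ L := ((k3_le_et_iff σ L x r _).1 le_rfl).1

private theorem k3_row_lt (σ : Shp) (r : ℕ) (hr : σ.rk < r) : σ.row < σ.st * r := by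
  cases σ with
  | gen m n =>
    show m < 1 * r
    rw [one_mul]
    exact hr
  | eps κ n =>
    cases κ with
    | true =>
      have hr' : n / 1 < r := hr
      show n < 1 * r
      omega
    | false =>
      have hr' : n / 2 < r := hr
      show n < 2 * r
      omega

private theorem k3_et_of_rk_lt (σ : Shp) (L : ℕ) (x : σ.Idx → PowerSeries ℂ) (r : ℕ)
    (hr : σ.rk < r) : σ.et L x r = L := by
  refine le_antisymm (k3_et_le σ L x r) ((k3_le_et_iff σ L x r L).2 ⟨le_rfl, ?_⟩)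
  refine dv_of_card_lt _ ?_
  rw [Fintype.card_fin]
  exact k3_row_lt σ r hr

/-- the coefficients of the entries of the matrix are regular functions -/
theorem regSer_mat_ser (σ : Shp) {L : ℕ} (E : Set (σ.Idx × Fin L → ℂ)) (i : Fin σ.row)
    (k : Fin σ.col) : RegSer E fun γ => σ.mat (ser γ) i k := by
  cases σ with
  | gen m n => exact k3_ser E (i, k)
  | eps κ n =>
    simp only [Shp.mat]
    by_cases h : i < k
    · simp only [h, dif_pos]
      exact k3_ser E _
    · by_cases h' : k < i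
      · simp only [h, h', dif_pos, dif_neg, not_false_eq_true]
        exact (regSer_const E _).mul (k3_ser E _)
      · by_cases hκ : κ = true
        · simp only [h, h', hκ, dif_pos, dif_neg, not_false_eq_true]
          exact k3_ser E _
        · simp only [h, h', hκ, dif_neg, not_false_eq_true]
          exact regSer_const E _

theorem constr_dvS (σ : Shp) (L j r : ℕ) :
    Constr {γ : σ.Idx × Fin L → ℂ | Dv j r (σ.mat (ser γ))} := by
  have h1 : Constr (⋂ (S : Fin r → Fin σ.row), ⋂ (T : Fin r → Fin σ.col), ⋂ (l : Fin j),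
      {γ : σ.Idx × Fin L → ℂ | γ ∈ Set.univ ∧
        PowerSeries.coeff (l : ℕ) ((σ.mat (ser γ)).submatrix S T).det = 0}) := by
    refine constr_iInter fun S => constr_iInter fun T => constr_iInter fun l => ?_
    refine constr_regSer_coeff constr_univ (regSer_det fun i k => ?_) l 0
    exact regSer_mat_ser σ Set.univ (S i) (T k)
  have e : (⋂ (S : Fin r → Fin σ.row), ⋂ (T : Fin r → Fin σ.col), ⋂ (l : Fin j),
      {γ : σ.Idx × Fin L → ℂ | γ ∈ Set.univ ∧
        PowerSeries.coeff (l : ℕ) ((σ.mat (ser γ)).submatrix S T).det = 0}) =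
      {γ : σ.Idx × Fin L → ℂ | Dv j r (σ.mat (ser γ))} := by
    ext γ
    simp only [Set.mem_iInter, Set.mem_ofPred_eq, Set.mem_univ, true_and]
    unfold Dv
    constructor
    · intro h S T
      rw [PowerSeries.X_pow_dvd_iff]
      intro l hl
      exact h S T ⟨l, hl⟩
    · intro h S T l
      exact PowerSeries.X_pow_dvd_iff.1 (h S T) l l.2
  rwa [e] at h1

private theorem k3_constr_le (σ : Shp) (L c r : ℕ) :
    Constr {γ : σ.Idx × Fin L → ℂ | c ≤ σ.et L (ser γ) r} := by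
  by_cases hc : c ≤ L
  · have e : {γ : σ.Idx × Fin L → ℂ | c ≤ σ.et L (ser γ) r} =
        {γ : σ.Idx × Fin L → ℂ | Dv (σ.st * c) (σ.st * r) (σ.mat (ser γ))} := by
      ext γ
      rw [Set.mem_ofPred_eq, Set.mem_ofPred_eq, k3_le_et_iff]
      exact ⟨fun h => h.2, fun h => ⟨hc, h⟩⟩
    rw [e]
    exact constr_dvS σ L _ _
  · have e : {γ : σ.Idx × Fin L → ℂ | c ≤ σ.et L (ser γ) r} = ∅ := by
      ext γ
      rw [Set.mem_ofPred_eq, k3_le_et_iff]
      exact ⟨fun h => (hc h.1).elim, fun h => h.elim⟩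
    rw [e]
    exact constr_empty

private theorem k3_constr_eq (σ : Shp) (L c r : ℕ) :
    Constr {γ : σ.Idx × Fin L → ℂ | σ.et L (ser γ) r = c} := by
  have h := (k3_constr_le σ L c r).diff (k3_constr_le σ L (c + 1) r)
  have e : {γ : σ.Idx × Fin L → ℂ | c ≤ σ.et L (ser γ) r} \
      {γ : σ.Idx × Fin L → ℂ | c + 1 ≤ σ.et L (ser γ) r} =
      {γ : σ.Idx × Fin L → ℂ | σ.et L (ser γ) r = c} := by
    ext γ
    simp only [Set.mem_sdiff, Set.mem_ofPred_eq]
    omega
  rwa [e] at h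

theorem constr_SPS (σ : Shp) (L : ℕ) (Φ : (ℕ → ℕ) → Prop) : Constr (SPS σ L Φ) := by
  classical
  set N := σ.rk with hN
  let ex : (Fin (N + 1) → Fin (L + 1)) → ℕ → ℕ := fun E r =>
    if h : r < N + 1 then (E ⟨r, h⟩ : ℕ) else L
  have h1 : Constr (⋃ (E : Fin (N + 1) → Fin (L + 1)),
      if Φ (ex E) then ⋂ (r : Fin (N + 1)),
        {γ : σ.Idx × Fin L → ℂ | σ.et L (ser γ) r = E r} else ∅) := by
    refine constr_iUnion fun E => ?_
    split_ifs
    · exact constr_iInter fun r => k3_constr_eq σ L (E r) r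
    · exact constr_empty
  have e : (⋃ (E : Fin (N + 1) → Fin (L + 1)),
      if Φ (ex E) then ⋂ (r : Fin (N + 1)),
        {γ : σ.Idx × Fin L → ℂ | σ.et L (ser γ) r = E r} else ∅) = SPS σ L Φ := by
    ext γ
    unfold SPS
    rw [Set.mem_iUnion, Set.mem_ofPred_eq]
    have key : ∀ E : Fin (N + 1) → Fin (L + 1),
        (∀ r : Fin (N + 1), σ.et L (ser γ) r = E r) → σ.et L (ser γ) = ex E := by
      intro E hE
      funext r
      by_cases h : r < N + 1
      · simp only [ex, h, dif_pos]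
        exact hE ⟨r, h⟩
      · simp only [ex, h, dif_neg, not_false_eq_true]
        exact k3_et_of_rk_lt σ L (ser γ) r (by omega)
    constructor
    · rintro ⟨E, hE⟩
      by_cases hΦ : Φ (ex E)
      · rw [if_pos hΦ, Set.mem_iInter] at hE
        rw [key E hE]
        exact hΦ
      · rw [if_neg hΦ] at hE
        exact hE.elim
    · intro h
      let E : Fin (N + 1) → Fin (L + 1) := fun r =>
        ⟨σ.et L (ser γ) r, Nat.lt_succ_of_le (k3_et_le σ L (ser γ) r)⟩
      refine ⟨E, ?_⟩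
      have hE : ∀ r : Fin (N + 1), σ.et L (ser γ) r = E r := fun r => rfl
      rw [if_pos (by rw [← key E hE]; exact h), Set.mem_iInter]
      exact hE
  rwa [e] at h1

private theorem k3_eval_minor (σ : Shp) {r : ℕ} (S : Fin r → Fin σ.row) (T : Fin r → Fin σ.col)
    (x : σ.Idx → ℂ) :
    eval x ((σ.mat fun p => (X p : MvPolynomial σ.Idx ℂ)).submatrix S T).det =
      ((σ.mat x).submatrix S T).det := by
  rw [RingHom.map_det]
  congr 1
  have h := Shp.mat_map σ (eval x) (fun p => (X p : MvPolynomial σ.Idx ℂ))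
  have h2 : (fun p => eval x (X p : MvPolynomial σ.Idx ℂ)) = x := by
    funext p
    rw [eval_X]
  rw [h2] at h
  rw [h]
  rfl

theorem constr_rankS (σ : Shp) (ρ : ℕ) : Constr (σ.RankS ρ) := by
  have h1 : Constr (⋃ (S : Fin (σ.st * ρ) → Fin σ.row), ⋃ (T : Fin (σ.st * ρ) → Fin σ.col),
      {x : σ.Idx → ℂ | eval x
        ((σ.mat fun p => (X p : MvPolynomial σ.Idx ℂ)).submatrix S T).det ≠ 0}) :=
    constr_iUnion fun S => constr_iUnion fun T => constr_ne _
  have h2 : Constr (⋂ (S : Fin (σ.st * ρ + 1) → Fin σ.row),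
      ⋂ (T : Fin (σ.st * ρ + 1) → Fin σ.col), {x : σ.Idx → ℂ | eval x
        ((σ.mat fun p => (X p : MvPolynomial σ.Idx ℂ)).submatrix S T).det = 0}) :=
    constr_iInter fun S => constr_iInter fun T => Constr.zeroSet _
  have h3 := h1.inter h2
  have e : (⋃ (S : Fin (σ.st * ρ) → Fin σ.row), ⋃ (T : Fin (σ.st * ρ) → Fin σ.col),
      {x : σ.Idx → ℂ | eval x
        ((σ.mat fun p => (X p : MvPolynomial σ.Idx ℂ)).submatrix S T).det ≠ 0}) ∩
      (⋂ (S : Fin (σ.st * ρ + 1) → Fin σ.row),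
      ⋂ (T : Fin (σ.st * ρ + 1) → Fin σ.col), {x : σ.Idx → ℂ | eval x
        ((σ.mat fun p => (X p : MvPolynomial σ.Idx ℂ)).submatrix S T).det = 0}) =
      σ.RankS ρ := by
    ext x
    unfold Shp.RankS
    simp only [Set.mem_inter_iff, Set.mem_iUnion, Set.mem_iInter, Set.mem_ofPred_eq,
      k3_eval_minor]
  rwa [e] at h3

theorem etS_le (σ : Shp) (L : ℕ) (x : σ.Idx → PowerSeries ℂ) (r : ℕ) : σ.et L x r ≤ L :=
  k3_et_le σ L x r

theorem le_etS_iff (σ : Shp) (L : ℕ) (x : σ.Idx → PowerSeries ℂ) (r j : ℕ) :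
    j ≤ σ.et L x r ↔ j ≤ L ∧ Dv (σ.st * j) (σ.st * r) (σ.mat x) :=
  k3_le_et_iff σ L x r j

theorem etS_of_rk_lt (σ : Shp) (L : ℕ) (x : σ.Idx → PowerSeries ℂ) (r : ℕ) (hr : σ.rk < r) :
    σ.et L x r = L := k3_et_of_rk_lt σ L x r hr

private theorem k3_dvd_ser {ι : Type} {L : ℕ} (hL : 0 < L) (γ : ι × Fin L → ℂ) (p : ι) :
    (PowerSeries.X : PowerSeries ℂ) ∣ ser γ p ↔ γ (p, ⟨0, hL⟩) = 0 := by
  rw [PowerSeries.X_dvd_iff, ← PowerSeries.coeff_zero_eq_constantCoeff_apply]
  unfold ser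
  rw [PowerSeries.coeff_mk, dif_pos hL]

private theorem k3_dv_of_dvd {ι κ : Type} {M : Matrix ι κ (PowerSeries ℂ)} (r : ℕ)
    (h : ∀ i k, (PowerSeries.X : PowerSeries ℂ) ∣ M i k) : Dv r r M := by
  intro S T
  choose M' hM' using h
  have e : M.submatrix S T =
      (PowerSeries.X : PowerSeries ℂ) • (Matrix.of fun a b => M' (S a) (T b)) := by
    ext1 a b
    rw [Matrix.submatrix_apply, Matrix.smul_apply, Matrix.of_apply, smul_eq_mul]
    exact hM' _ _
  rw [e, Matrix.det_smul, Fintype.card_fin]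
  exact dvd_mul_right _ _

private theorem k3_dvd_mat (σ : Shp) (x : σ.Idx → PowerSeries ℂ)
    (h : ∀ p, (PowerSeries.X : PowerSeries ℂ) ∣ x p) (i : Fin σ.row) (k : Fin σ.col) :
    (PowerSeries.X : PowerSeries ℂ) ∣ σ.mat x i k := by
  cases σ with
  | gen m n => exact h (i, k)
  | eps κ n =>
    simp only [Shp.mat]
    split_ifs
    · exact h _
    · exact Dvd.dvd.mul_left (h _) _
    · exact Dvd.dvd.mul_left (h _) _
    · exact h _
    · exact dvd_zero _

private theorem k3_mat_lt {n : ℕ} (κ : Bool) (x : (Shp.eps κ n).Idx → PowerSeries ℂ)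
    {i k : Fin n} (h : i < k) : (Shp.eps κ n).mat x i k = x ⟨(i, k), Or.inl h⟩ := dif_pos h

private theorem k3_mat_gt {n : ℕ} (κ : Bool) (x : (Shp.eps κ n).Idx → PowerSeries ℂ)
    {i k : Fin n} (h : i < k) : (Shp.eps κ n).mat x k i =
      (if κ = true then 1 else -1) * x ⟨(i, k), Or.inl h⟩ :=
  (dif_neg h.not_gt).trans (dif_pos h)

private theorem k3_mat_eq {n : ℕ} (x : (Shp.eps true n).Idx → PowerSeries ℂ) (i : Fin n) :
    (Shp.eps true n).mat x i i = x ⟨(i, i), Or.inr ⟨rfl, rfl⟩⟩ :=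
  (dif_neg (lt_irrefl i)).trans ((dif_neg (lt_irrefl i)).trans (dif_pos rfl))

private theorem k3_dvd_of_dv (σ : Shp) (x : σ.Idx → PowerSeries ℂ)
    (h : Dv σ.st σ.st (σ.mat x)) (p : σ.Idx) : (PowerSeries.X : PowerSeries ℂ) ∣ x p := by
  cases σ with
  | gen m n =>
    have h' : Dv 1 1 ((Shp.gen m n).mat x) := h
    obtain ⟨i, k⟩ := p
    have h1 := h' (fun _ => i) (fun _ => k)
    rw [pow_one, Matrix.det_unique] at h1
    exact h1
  | eps κ n =>
    obtain ⟨⟨i, k⟩, hp⟩ := p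
    cases κ with
    | true =>
      have h' : Dv 1 1 ((Shp.eps true n).mat x) := h
      have h1 := h' (fun _ => i) (fun _ => k)
      rw [pow_one, Matrix.det_unique, Matrix.submatrix_apply] at h1
      rcases hp with hp | hp
      · rw [k3_mat_lt true x hp] at h1
        exact h1
      · obtain ⟨-, hp⟩ := hp
        have hp' : i = k := hp
        subst hp'
        rw [k3_mat_eq] at h1
        exact h1
    | false =>
      have h' : Dv 2 2 ((Shp.eps false n).mat x) := h
      have hik : i < k := by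
        rcases hp with hp | hp
        · exact hp
        · exact absurd hp.1 (by decide)
      have h1 := h' ![i, k] ![i, k]
      rw [Matrix.det_fin_two] at h1
      have e00 : ((Shp.eps false n).mat x).submatrix ![i, k] ![i, k] 0 0 = 0 :=
        Shp.mat_diag n x i
      have e01 : ((Shp.eps false n).mat x).submatrix ![i, k] ![i, k] 0 1 =
          x ⟨(i, k), Or.inl hik⟩ := k3_mat_lt false x hik
      have e10 : ((Shp.eps false n).mat x).submatrix ![i, k] ![i, k] 1 0 =
          (if false = true then 1 else -1) * x ⟨(i, k), Or.inl hik⟩ := k3_mat_gt false x hik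
      rw [e00, e01, e10, if_neg (by decide)] at h1
      have h2 : (PowerSeries.X : PowerSeries ℂ) ^ 2 ∣ x ⟨(i, k), Or.inl hik⟩ ^ 2 := by
        refine h1.trans (dvd_of_eq ?_)
        ring
      exact PowerSeries.X_prime.dvd_of_dvd_pow ((dvd_pow_self _ two_ne_zero).trans h2)

theorem etS_one_ne_zero_iff (σ : Shp) {L : ℕ} (hL : 0 < L)
    (γ : σ.Idx × Fin L → ℂ) : σ.et L (ser γ) 1 ≠ 0 ↔ ∀ p, γ (p, ⟨0, hL⟩) = 0 := by
  rw [← Nat.one_le_iff_ne_zero, k3_le_et_iff, mul_one]
  constructor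
  · rintro ⟨-, h⟩ p
    exact (k3_dvd_ser hL γ p).1 (k3_dvd_of_dv σ (ser γ) h p)
  · intro h
    refine ⟨hL, k3_dv_of_dvd _ fun i k => ?_⟩
    exact k3_dvd_mat σ (ser γ) (fun p => (k3_dvd_ser hL γ p).2 (h p)) i k

end MotMono
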