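import Pool.Agent.Lib.MP_4e5fcd_ag.Cl.B3S
import Pool.Agent.Lib.MP_4e5fcd_ag.Cl.B4S
import Pool.Agent.Lib.MP_4e5fcd_ag.Cl.C4S
import Pool.Agent.Lib.MP_4e5fcd_ag.Cl.C5S
import Pool.Agent.Lib.MP_4e5fcd_ag.Cl.K3
import Pool.Agent.Lib.MP_4e5fcd_ag.Det.C7

/-! # CL-C7S: the coefficients of the motivic zeta function (port of `Det/C7.lean`; all lemmas there
on tables (`c7_tab`, `c7_toE`, `c7_mem_iff`, `c7_image`, …) hold for every `m : Fin s → ℕ`: use them
with `m := fun a => (σ a).rk`. `SPSetting` replaces `mem_ordLocus_iff`) -/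

open MvPolynomial

namespace MotMono

variable {s N : ℕ} {σ : Fin s → Shp}

/-- the order of `I` along a jet is the minimum of the functionals given by `A` -/
def OrdBy (σ : Fin s → Shp) (e : (Σ a, (σ a).Idx) ≃ Fin N) (I : Ideal (MvPolynomial (Fin N) ℂ))
    (A : Finset ((Σ a, Fin (σ a).rk) → ℕ)) : Prop :=
  ∀ (k : ℕ) (γ : Fin N × Fin (k + 1) → ℂ), γ ∈ ordLocus I k ↔
    (∀ a, (σ a).et (k + 1) (ser (jetPartS e γ a)) 1 ≠ 0) ∧
      sInf {j | ∃ w ∈ A, ∑ c : (Σ a, Fin (σ a).rk),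
        w c * (σ c.1).et (k + 1) (ser (jetPartS e γ c.1)) (c.2 + 1) = j} = k

theorem c7s_rk_pos (τ : Shp) (h : τ.Ok) : 0 < τ.rk := by
  cases τ with
  | gen m n => exact h.1
  | eps κ n =>
    have h1 : (if κ = true then 1 else 2) ≤ n := h
    show 0 < n / (if κ = true then 1 else 2)
    apply Nat.div_pos h1
    split_ifs <;> norm_num

theorem c7s_le (τ : Shp) (h : τ.Ok) : τ.Le := by
  cases τ with
  | gen m n => exact h.2
  | eps κ n => exact trivial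

/-- the set of jets with a given table of orders -/
def c7s_J (e : (Σ a, (σ a).Idx) ≃ Fin N) (k : ℕ)
    (c : ∀ a : Fin s, Fin ((σ a).rk + 1) → Fin (k + 1 + 1)) : Set (Fin N × Fin (k + 1) → ℂ) :=
  {γ | ∀ a, jetPartS e γ a ∈ SPS (σ a) (k + 1) fun E => E = c7_toE (m := fun a => (σ a).rk) c a}

theorem c7s_ordLocus (e : (Σ a, (σ a).Idx) ≃ Fin N) (I : Ideal (MvPolynomial (Fin N) ℂ))
    (A : Finset ((Σ a, Fin (σ a).rk) → ℕ)) (hO : OrdBy σ e I A) (k : ℕ) :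
    ordLocus I k = ⋃ c ∈ c7_tab (fun a => (σ a).rk) A k, c7s_J e k c := by
  ext γ
  rw [hO k γ]
  have h1 := c7_mem_iff (m := fun a => (σ a).rk) A k
    (fun a => (σ a).et (k + 1) (ser (jetPartS e γ a)))
    (fun a r => etS_le _ _ _ _) (fun a r hr => etS_of_rk_lt _ _ _ _ hr)
  rw [Set.mem_iUnion₂]
  have h2 : c7_Good (fun a => (σ a).rk) A k (fun a => (σ a).et (k + 1) (ser (jetPartS e γ a))) ↔
      (∀ a, (σ a).et (k + 1) (ser (jetPartS e γ a)) 1 ≠ 0) ∧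
        sInf {j | ∃ w ∈ A, ∑ c : (Σ a, Fin (σ a).rk),
          w c * (σ c.1).et (k + 1) (ser (jetPartS e γ c.1)) (c.2 + 1) = j} = k := Iff.rfl
  rw [← h2, ← h1]
  constructor
  · rintro ⟨c, hc, h⟩
    exact ⟨c, hc, h⟩
  · rintro ⟨c, hc, h⟩
    exact ⟨c, hc, h⟩

theorem c7s_theta (e : (Σ a, (σ a).Idx) ≃ Fin N) (hσ : ∀ a, (σ a).Ok)
    (I : Ideal (MvPolynomial (Fin N) ℂ)) (A : Finset ((Σ a, Fin (σ a).rk) → ℕ))
    (hO : OrdBy σ e I A) (k : ℕ) :
    PowerSeries.coeff k (Zmot I) =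
      thetaS (∑ c ∈ c7_tab (fun a => (σ a).rk) A k, ∏ a, PPS (k + 1) (σ a) fun E =>
        E = c7_toE (m := fun a => (σ a).rk) c a) := by
  have h1 : ∀ c : (∀ a : Fin s, Fin ((σ a).rk + 1) → Fin (k + 1 + 1)),
      thetaS (∏ a, PPS (k + 1) (σ a) fun E => E = c7_toE (m := fun a => (σ a).rk) c a) =
      algebraMap K0 MC (cls (c7s_J e k c)) * ((Lu ^ (-(N * (k + 1) : ℤ)) : MCˣ) : MC) := by
    intro c
    have h2 : cls (c7s_J e k c) =
        ∏ a, cls (SPS (σ a) (k + 1) fun E => E = c7_toE (m := fun a => (σ a).rk) c a) :=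
      cls_familyS e (k + 1) _ fun a => constr_SPS _ _ _
    rw [map_prod, h2, map_prod]
    have h3 : ((Lu ^ (-(N * (k + 1) : ℤ)) : MCˣ) : MC) =
        ∏ a, ((Lu ^ (-(((σ a).dim * (k + 1) : ℕ) : ℤ)) : MCˣ) : MC) := by
      rw [c7_prod_Lu, ← Finset.sum_mul, sum_dim e]
      push_cast
      rfl
    rw [h3, ← Finset.prod_mul_distrib]
    exact Finset.prod_congr rfl fun a _ => thetaS_PPS _ _ (c7s_le _ (hσ a)) _
  have h4 : cls (ordLocus I k) = ∑ c ∈ c7_tab (fun a => (σ a).rk) A k, cls (c7s_J e k c) := by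
    rw [c7s_ordLocus e I A hO k]
    apply cls_biUnion
    · intro c _
      exact constr_familyS e (k + 1) _ fun a => constr_SPS _ _ _
    · intro c hc c' hc' hne
      rw [Set.disjoint_left]
      intro γ h h'
      apply hne
      apply c7_toE_inj
      intro a
      exact (h a).symm.trans (h' a)
  rw [Zmot, PowerSeries.coeff_mk, h4, map_sum, map_sum, Finset.sum_mul]
  exact Finset.sum_congr rfl fun c _ => (h1 c).symm

theorem c7s_series (hσ : ∀ a, (σ a).Ok)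
    (A : Finset ((Σ a, Fin (σ a).rk) → ℕ)) (hA : A.Nonempty) (k : ℕ) :
    ((∑ c ∈ c7_tab (fun a => (σ a).rk) A k, ∏ a, PPS (k + 1) (σ a) fun E =>
        E = c7_toE (m := fun a => (σ a).rk) c a : BqS) : PowerSeries BuS) =
      SS (muAS σ) {b | (∀ i ∈ {c : (Σ a, Fin (σ a).rk) | (c.2 : ℕ) = 0}, b i ≠ 0) ∧
        minF (AW (m := fun a => (σ a).rk) A) b = k} := by
  have hloc : ∀ a, LocFin (fun b : Fin (σ a).rk → ℕ => muS (σ a) (extb b)) :=
    fun a => locFin_muS (σ a) (c7s_le _ (hσ a)) _ rfl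
  have hloc' := locFin_pi (fun a (b : Fin (σ a).rk → ℕ) => muS (σ a) (extb b)) hloc
  have h1 : ((∑ c ∈ c7_tab (fun a => (σ a).rk) A k, ∏ a, PPS (k + 1) (σ a) fun E =>
      E = c7_toE (m := fun a => (σ a).rk) c a : BqS) :
      PowerSeries BuS) = ∑ c ∈ c7_tab (fun a => (σ a).rk) A k, ∏ a,
        ((PPS (k + 1) (σ a) fun E => E = c7_toE (m := fun a => (σ a).rk) c a : BqS) :
          PowerSeries BuS) := by
    have := map_sum (Polynomial.coeToPowerSeries.ringHom (R := BuS))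
      (fun c => ∏ a, PPS (k + 1) (σ a) fun E => E = c7_toE (m := fun a => (σ a).rk) c a)
      (c7_tab (fun a => (σ a).rk) A k)
    simp only [map_prod] at this
    exact this
  have h2 : ∀ c : (∀ a : Fin s, Fin ((σ a).rk + 1) → Fin (k + 1 + 1)),
      ∏ a, ((PPS (k + 1) (σ a) fun E => E = c7_toE (m := fun a => (σ a).rk) c a : BqS) :
          PowerSeries BuS) =
        SS (fun b : ∀ a, Fin (σ a).rk → ℕ => ∏ a, muS (σ a) (extb (b a)))
          {b | ∀ a, b a ∈ {x : Fin (σ a).rk → ℕ |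
            eb (σ a).rk (k + 1) (extb x) = c7_toE (m := fun a => (σ a).rk) c a}} := by
    intro c
    rw [SS_pi (fun a (b : Fin (σ a).rk → ℕ) => muS (σ a) (extb b)) hloc]
    exact Finset.prod_congr rfl fun a _ => PPS_eq_SS _ _ (c7s_le _ (hσ a)) _ rfl _
  rw [h1, Finset.sum_congr rfl fun c _ => h2 c, ← SS_biUnion hloc' (c7_tab (fun a => (σ a).rk) A k)
    (fun c => {b | ∀ a, b a ∈ {x : Fin (σ a).rk → ℕ |
      eb (σ a).rk (k + 1) (extb x) = c7_toE (m := fun a => (σ a).rk) c a}})]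
  · have h3 : Set.InjOn (fun (b : ∀ a, Fin (σ a).rk → ℕ) (c : Σ a, Fin (σ a).rk) => b c.1 c.2)
        (⋃ c ∈ c7_tab (fun a => (σ a).rk) A k, {b : ∀ a, Fin (σ a).rk → ℕ |
          ∀ a, b a ∈ {x : Fin (σ a).rk → ℕ |
            eb (σ a).rk (k + 1) (extb x) = c7_toE (m := fun a => (σ a).rk) c a}}) := by
      intro b _ b' _ h
      funext a i
      exact congrFun h ⟨a, i⟩
    have h4 := SS_image (μ' := (muAS σ : ((Σ a, Fin (σ a).rk) → ℕ) → BqS)) hloc' _ _ h3 1 (by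
      intro b _
      rw [one_mul]
      rfl)
    rw [← c7_image (m := fun a => (σ a).rk) (fun a => c7s_rk_pos _ (hσ a)) A hA k, h4,
      Polynomial.coe_one, one_mul]
  · intro c _ c' _ hne
    rw [Set.disjoint_left]
    intro b h h'
    apply hne
    apply c7_toE_inj
    intro a
    exact (h a).symm.trans (h' a)

theorem exists_PS (e : (Σ a, (σ a).Idx) ≃ Fin N) (hσ : ∀ a, (σ a).Ok)
    (I : Ideal (MvPolynomial (Fin N) ℂ)) (A : Finset ((Σ a, Fin (σ a).rk) → ℕ)) (hA : A.Nonempty)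
    (hO : OrdBy σ e I A) (k : ℕ) :
    ∃ P : BqS, PowerSeries.coeff k (Zmot I) = thetaS P ∧
      (P : PowerSeries BuS) = PowerSeries.coeff k
        (ZS (muAS σ) {c : (Σ a, Fin (σ a).rk) | (c.2 : ℕ) = 0}
          (AW (m := fun a => (σ a).rk) A)) := by
  refine ⟨_, c7s_theta e hσ I A hO k, ?_⟩
  rw [ZS, PowerSeries.coeff_mk]
  exact c7s_series hσ A hA k

end MotMono
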