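import Pool.Agent.Lib.MP_4e5fcd_ag.Cl.Base
import Pool.Agent.Lib.MP_4e5fcd_ag.Det.U3

/-!
# Detected rays for spaces of generic, symmetric and skew-symmetric matrices: definitions
-/

open MvPolynomial

namespace MotMono

variable {s : ℕ}

/-- every block of length at least two of `u` is detected by a visible minor, or it is a block of
length exactly two of a symmetric matrix -/
def DetectedS (σ : Fin s → Shp) (A : Finset ((Σ a, Fin (σ a).rk) → ℕ))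
    (u : (Σ a, Fin (σ a).rk) → ℕ) : Prop :=
  ∀ a, ∀ i : Fin (σ a).rk, u ⟨a, i⟩ ≠ 0 → ∀ h : (i : ℕ) + 1 < (σ a).rk, u ⟨a, ⟨i + 1, h⟩⟩ = 0 →
    (∃ r, Vis (m := fun a => (σ a).rk) A u a r ∧ (i : ℕ) < r ∧ r < (σ a).rk ∧
      ∀ k : Fin (σ a).rk, i < k → (k : ℕ) ≤ r → u ⟨a, k⟩ = 0) ∨
    ((∃ n, σ a = Shp.eps true n) ∧
      ∀ h' : (i : ℕ) + 2 < (σ a).rk, u ⟨a, ⟨i + 2, h'⟩⟩ ≠ 0)

end MotMono
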