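import Pool.Agent.Lib.MP_4e5fcd_ag.Cl.EDefs
import Pool.Agent.Lib.MP_4e5fcd_ag.Cl.UDefs
import Pool.Agent.Lib.MP_4e5fcd_ag.LF.Defs

/-!
# The contact arcs for spaces of generic, symmetric and skew-symmetric matrices: definitions

`b` is the profile of one matrix: `mue b i` is the exponent of the invariant factor `i`; a block is a
maximal interval of indices with the same exponent. In the reference point of a symmetric matrix the
indices of a block are paired: `(j, j + 1)` with an even distance of `j` from the start of the block; the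
last index of a block of odd length has no partner. In a skew-symmetric matrix `2 i` and `2 i + 1` are
partners.
-/

open MvPolynomial

namespace MotMono

/-- the first index of the block of `j` -/
def stt (b : ℕ → ℕ) (j : ℕ) : ℕ := Nat.findGreatest (fun k => b k ≠ 0) j

/-- `j` and `j + 1` are partners -/
def lpp (κ : Bool) (b : ℕ → ℕ) (n j : ℕ) : Prop :=
  j + 1 < n ∧ if κ = true then (j - stt b j) % 2 = 0 ∧ b (j + 1) = 0 else j % 2 = 0

/-- `j` has no partner -/
def unq (κ : Bool) (b : ℕ → ℕ) (n j : ℕ) : Prop :=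
  j < n ∧ ¬ lpp κ b n j ∧ ¬ (0 < j ∧ lpp κ b n (j - 1))

open Classical in
/-- the weight of an index for the torus which fixes the reference point -/
noncomputable def twp (κ : Bool) (b : ℕ → ℕ) (n j : ℕ) : ℤ :=
  if lpp κ b n j then (j : ℤ) + 1 else if 0 < j ∧ lpp κ b n (j - 1) then -(j : ℤ) else 0

/-- the determinant of the leading `r × r` submatrix -/
noncomputable def ldm {R : Type} [CommRing R] {n : ℕ} (Y : Matrix (Fin n) (Fin n) R) (r : ℕ) : R :=
  if h : r ≤ n then (Y.submatrix (Fin.castLE h) (Fin.castLE h)).det else 0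

namespace Shp

/-- the positions of the nonzero entries of the reference point -/
def isC : (σ : Shp) → (ℕ → ℕ) → σ.Idx → Prop
  | gen _ _, _, p => (p.1 : ℕ) = p.2
  | eps κ n, b, p => (lpp κ b n p.1.1 ∧ (p.1.2 : ℕ) = p.1.1 + 1) ∨
      (unq κ b n p.1.1 ∧ (p.1.2 : ℕ) = p.1.1)

/-- row `i` contains a nonzero entry of the upper triangular part of the reference point -/
def CR : Shp → (ℕ → ℕ) → ℕ → Prop
  | gen m _, _, i => i < m
  | eps κ n, b, i => lpp κ b n i ∨ (κ = true ∧ unq κ b n i)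

open Classical in
/-- the row of the entry of the reference point which belongs to the index `i < rk` -/
noncomputable def crow : Shp → (ℕ → ℕ) → ℕ → ℕ
  | gen _ _, _, i => i
  | eps κ n, b, i => if κ = true then (if 0 < i ∧ lpp true b n (i - 1) then i - 1 else i) else 2 * i

open Classical in
/-- the factor of the entry of the reference point in the invariant factor `i` -/
noncomputable def sg : Shp → (ℕ → ℕ) → ℕ → ℤ
  | gen _ _, _, _ => 1
  | eps κ n, b, i => if κ = true then (if lpp true b n i then 2 else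
      if 0 < i ∧ lpp true b n (i - 1) then -2 else 1) else 1

/-- the indices without partner -/
def unp : Shp → (ℕ → ℕ) → ℕ → Prop
  | gen _ _, _, _ => False
  | eps κ n, b, i => unq κ b n i

/-- the weights of the rows -/
noncomputable def rwt : Shp → (ℕ → ℕ) → ℕ → ℤ
  | gen _ _, _, i => (i : ℤ)
  | eps κ n, b, i => twp κ b n i

/-- the weights of the columns -/
noncomputable def cwt : Shp → (ℕ → ℕ) → ℕ → ℤ
  | gen _ _, _, k => -(k : ℤ)
  | eps κ n, b, k => twp κ b n k

/-- the weights of the entries -/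
noncomputable def om (σ : Shp) (b : ℕ → ℕ) (p : σ.Idx) : ℤ :=
  σ.rwt b (σ.pr p) + σ.cwt b (σ.pc p)

/-- the exponents, as weights of rows and columns -/
def vv (σ : Shp) (b : ℕ → ℕ) (i : ℕ) : ℕ := mue b (i / σ.st)

/-- the exponents, as weights of the entries -/
def muw (σ : Shp) (b : ℕ → ℕ) (p : σ.Idx) : ℕ := σ.vv b (σ.pr p) + σ.vv b (σ.pc p)

open Classical in
/-- the points of the form of the reference point -/
noncomputable def FP {R : Type} [CommRing R] (σ : Shp) (b : ℕ → ℕ) (z : ℕ → R) : σ.Idx → R :=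
  fun p => if σ.isC b p then z (σ.pr p) else 0

open Classical in
/-- the symmetric matrix with the entries at the positions `isC` on the diagonal (`1` in the other
rows) and the entries of `x` between different indices without partners -/
noncomputable def Yt {R : Type} [CommRing R] :
    (σ : Shp) → (ℕ → ℕ) → (σ.Idx → R) → Matrix (Fin σ.row) (Fin σ.row) R
  | gen _ n, _, x => fun i k =>
      if i = k then (if h : (i : ℕ) < n then x (i, ⟨i, h⟩) else 1) else 0
  | eps κ n, b, x => fun i k =>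
      if i = k then
        (if h : lpp κ b n i then (eps κ n).mat x i ⟨(i : ℕ) + 1, h.1⟩
          else if κ = true ∧ unq κ b n i then (eps κ n).mat x i i else 1)
      else if unq κ b n i ∧ unq κ b n k then (eps κ n).mat x i k else 0

/-- unipotent lower triangular matrices which mix only the indices without partners -/
def UTri (σ : Shp) (b : ℕ → ℕ) (U : Matrix (Fin σ.row) (Fin σ.row) ℂ) : Prop :=
  (∀ i, U i i = 1) ∧ ∀ i k, i ≠ k → U i k ≠ 0 → k < i ∧ σ.unp b i ∧ σ.unp b k

end Shp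

/-! ### Families -/

variable {s N : ℕ} {σ : Fin s → Shp}

/-- the profile of the `a`-th matrix -/
def bS (u : (Σ a, Fin (σ a).rk) → ℕ) (a : Fin s) : ℕ → ℕ := part (m := fun a => (σ a).rk) u a

/-- the weights of the coordinates for the torus which fixes the reference point -/
noncomputable def omS (e : (Σ a, (σ a).Idx) ≃ Fin N) (u : (Σ a, Fin (σ a).rk) → ℕ)
    (x : Fin N) : ℤ :=
  (σ (e.symm x).1).om (bS u (e.symm x).1) (e.symm x).2

/-- the exponents, as weights of the coordinates -/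
def muwS (e : (Σ a, (σ a).Idx) ≃ Fin N) (u : (Σ a, Fin (σ a).rk) → ℕ) (x : Fin N) : ℕ :=
  (σ (e.symm x).1).muw (bS u (e.symm x).1) (e.symm x).2

/-- the points of the form of the reference point -/
noncomputable def FPS {R : Type} [CommRing R] (e : (Σ a, (σ a).Idx) ≃ Fin N)
    (u : (Σ a, Fin (σ a).rk) → ℕ) (z : Fin s → ℕ → R) : Fin N → R :=
  ptS e fun a => (σ a).FP (bS u a) (z a)

/-- the reference curve -/
noncomputable def crvS (e : (Σ a, (σ a).Idx) ≃ Fin N) (u : (Σ a, Fin (σ a).rk) → ℕ) (δ : ℂ) :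
    Fin N → Polynomial ℂ :=
  FPS e u fun a i => Polynomial.C δ * Polynomial.X ^ (σ a).vv (bS u a) i

/-- the exponents of the rows -/
def vS (u : (Σ a, Fin (σ a).rk) → ℕ) : (Σ a, Fin (σ a).row) → ℕ :=
  fun c => (σ c.1).vv (bS u c.1) c.2

/-- the row contains an entry of the reference point -/
def CRS (u : (Σ a, Fin (σ a).rk) → ℕ) (c : Σ a, Fin (σ a).row) : Prop :=
  (σ c.1).CR (bS u c.1) c.2

/-- the restriction of `f` to the points of the form of the reference point -/
noncomputable def fpR (e : (Σ a, (σ a).Idx) ≃ Fin N) (u : (Σ a, Fin (σ a).rk) → ℕ)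
    (f : MvPolynomial (Fin N) ℂ) : MvPolynomial (Σ a, Fin (σ a).row) ℂ :=
  aeval (FPS e u fun a i =>
    if h : i < (σ a).row then (X ⟨a, ⟨i, h⟩⟩ : MvPolynomial (Σ a, Fin (σ a).row) ℂ) else 0) f

/-- the exponents of the monomials in the restriction of `I` to the points of the form of the
reference point -/
def EF (e : (Σ a, (σ a).Idx) ≃ Fin N) (I : Ideal (MvPolynomial (Fin N) ℂ))
    (u : (Σ a, Fin (σ a).rk) → ℕ) : Set ((Σ a, Fin (σ a).row) → ℕ) :=
  {κ | (∀ c, ¬ CRS u c → κ c = 0) ∧ ∃ f ∈ I, ∀ z : Fin s → ℕ → ℂ,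
    eval (FPS e u z) f = ∏ c : (Σ a, Fin (σ a).row), z c.1 c.2 ^ κ c}

/-- the exponents of the face -/
def EFN (e : (Σ a, (σ a).Idx) ≃ Fin N) (I : Ideal (MvPolynomial (Fin N) ℂ))
    (u : (Σ a, Fin (σ a).rk) → ℕ) (n₀ : ℕ) : Set ((Σ a, Fin (σ a).row) → ℕ) :=
  {κ | κ ∈ EF e I u ∧ ∑ c, κ c * vS u c = n₀}

/-- the fixed points of the torus on the set of contact arcs, at `t = 1` -/
def XX (e : (Σ a, (σ a).Idx) ≃ Fin N) (I : Ideal (MvPolynomial (Fin N) ℂ))
    (u : (Σ a, Fin (σ a).rk) → ℕ) (δ : ℂ) (n₀ d : ℕ) : Set (Fin N → ℂ) :=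
  {x | (∀ i, x i ≠ 0 → omS e u i = 0 ∧ 2 * n₀ ∣ d * muwS e u i ∧ muwS e u i ≤ 2 * n₀) ∧
    (∀ i, muwS e u i = 0 → x i = FPS e u (fun _ _ => δ) i) ∧
    ∀ f ∈ I, ∀ j ≤ 2 * n₀, IsWeightedHomogeneous (muwS e u) f j →
      eval x f = if j = 2 * n₀ then eval (FPS e u fun _ _ => δ) f else 0}

/-- the leading minors of the matrices `Yt` of a point -/
noncomputable def ldS (e : (Σ a, (σ a).Idx) ≃ Fin N) (u : (Σ a, Fin (σ a).rk) → ℕ)
    {R : Type} [CommRing R] (x : Fin N → R) (a : Fin s) (r : ℕ) : R :=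
  ldm ((σ a).Yt (bS u a) fun p => x (e ⟨a, p⟩)) r

/-- the coordinate is a position of the nonzero entries of the reference point -/
def isCS (e : (Σ a, (σ a).Idx) ≃ Fin N) (u : (Σ a, Fin (σ a).rk) → ℕ) (i : Fin N) : Prop :=
  (σ (e.symm i).1).isC (bS u (e.symm i).1) (e.symm i).2

/-- the entries of `x` outside the positions of the reference point are admissible -/
def offOk (e : (Σ a, (σ a).Idx) ≃ Fin N) (u : (Σ a, Fin (σ a).rk) → ℕ) (n₀ d : ℕ)
    (x : Fin N → ℂ) : Prop :=
  ∀ i, ¬ isCS e u i → x i ≠ 0 → omS e u i = 0 ∧ 2 * n₀ ∣ d * muwS e u i ∧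
    muwS e u i ≤ 2 * n₀ ∧ muwS e u i ≠ 0

/-- the arc with the coefficient `x i` at the level `d * muwS i / (2 * n₀)` -/
noncomputable def toG (e : (Σ a, (σ a).Idx) ≃ Fin N) (u : (Σ a, Fin (σ a).rk) → ℕ) (n₀ d : ℕ)
    (x : Fin N → ℂ) : Fin N × Fin (d + 1) → ℂ :=
  fun c => if 2 * n₀ * (c.2 : ℕ) = d * muwS e u c.1 then x c.1 else 0

/-- the weights of the action on arcs -/
noncomputable def wtG (e : (Σ a, (σ a).Idx) ≃ Fin N) (u : (Σ a, Fin (σ a).rk) → ℕ) (n₀ d : ℕ)
    (M : ℤ) (c : Fin N × Fin (d + 1)) : ℤ :=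
  M * omS e u c.1 + 2 * n₀ * ((c.2 : ℕ) : ℤ) - d * muwS e u c.1

/-- the finite group -/
def GamS (e : (Σ a, (σ a).Idx) ≃ Fin N) (I : Ideal (MvPolynomial (Fin N) ℂ))
    (u : (Σ a, Fin (σ a).rk) → ℕ) (n₀ : ℕ) : Set ((Σ a, Fin (σ a).row) → ℂ) :=
  {η | (∀ c, η c ≠ 0) ∧ (∀ c, ¬ CRS u c ∨ vS u c = 0 → η c = 1) ∧
    ∀ κ ∈ EFN e I u n₀, ∏ c, η c ^ κ c = 1}

open Classical in
/-- the quotients of the leading minors, divided by `δ` in the rows with an entry of the reference
point -/
noncomputable def quoS (e : (Σ a, (σ a).Idx) ≃ Fin N) (u : (Σ a, Fin (σ a).rk) → ℕ) (δ : ℂ)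
    (x : Fin N → ℂ) : (Σ a, Fin (σ a).row) → ℂ := fun c =>
  (ldS e u x c.1 (c.2 + 1) / ldS e u x c.1 c.2) / if CRS u c then δ else 1

/-- the assumptions on an exponent vector -/
structure Dat0 (e : (Σ a, (σ a).Idx) ≃ Fin N) (I : Ideal (MvPolynomial (Fin N) ℂ))
    (A : Finset ((Σ a, Fin (σ a).rk) → ℕ)) (u : (Σ a, Fin (σ a).rk) → ℕ) (n₀ : ℕ) : Prop where
  le : ∀ a, (σ a).Le
  stable : ShStable σ e I
  gens : Gens σ e I A
  pos : 0 < n₀
  min : minF (AW (m := fun a => (σ a).rk) A) u = n₀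

/-- the assumptions on the ray -/
structure Dat (e : (Σ a, (σ a).Idx) ≃ Fin N) (I : Ideal (MvPolynomial (Fin N) ℂ))
    (A : Finset ((Σ a, Fin (σ a).rk) → ℕ)) (u : (Σ a, Fin (σ a).rk) → ℕ) (n₀ : ℕ) : Prop
    extends Dat0 e I A u n₀ where
  ext : Ext (AW (m := fun a => (σ a).rk) A) u
  det : DetectedS σ A u
  prim : Prim u

end MotMono
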