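import Pool.Agent.Lib.MP_4e5fcd_ag.LF.Defs

/-!
# Spaces of generic, symmetric and skew-symmetric matrices: definitions

The affine space is a product of spaces of generic, symmetric and skew-symmetric matrices, its
coordinates (the independent entries of the matrices) are numbered by an equivalence `e`.
-/

open MvPolynomial

namespace MotMono

/-- The shapes of matrices: `gen m n` stands for all `m × n` matrices, `eps true n` for the
symmetric and `eps false n` for the skew-symmetric `n × n` matrices. -/
inductive Shp : Type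
  | gen (m n : ℕ)
  | eps (κ : Bool) (n : ℕ)

namespace Shp

/-- the number of rows -/
abbrev row : Shp → ℕ
  | gen m _ => m
  | eps _ n => n

/-- the number of columns -/
abbrev col : Shp → ℕ
  | gen _ n => n
  | eps _ n => n

/-- The shape is `m × n` with `0 < m ≤ n`, or the space of (skew-)symmetric matrices is not
zero. -/
def Ok : Shp → Prop
  | gen m n => 0 < m ∧ m ≤ n
  | eps κ n => (if κ = true then 1 else 2) ≤ n

/-- The positions of the independent entries: all positions, resp. the positions `(i, k)` with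
`i ≤ k` (symmetric matrices) or `i < k` (skew-symmetric matrices). -/
def Idx : Shp → Type
  | gen m n => Fin m × Fin n
  | eps κ n => {p : Fin n × Fin n // p.1 < p.2 ∨ κ = true ∧ p.1 = p.2}

/-- the row of a position -/
def pr : (σ : Shp) → σ.Idx → Fin σ.row
  | gen _ _, p => p.1
  | eps _ _, p => p.1.1

/-- the column of a position -/
def pc : (σ : Shp) → σ.Idx → Fin σ.col
  | gen _ _, p => p.2
  | eps _ _, p => p.1.2

/-- The matrix with the given independent entries. -/
def mat {R : Type} [CommRing R] : (σ : Shp) → (σ.Idx → R) → Matrix (Fin σ.row) (Fin σ.col) R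
  | gen _ _, x => fun i k => x (i, k)
  | eps κ _, x => fun i k =>
      if h : i < k then x ⟨(i, k), Or.inl h⟩
      else if h' : k < i then (if κ = true then 1 else -1) * x ⟨(k, i), Or.inl h'⟩
      else if hκ : κ = true then x ⟨(i, k), Or.inr ⟨hκ, le_antisymm (not_lt.1 h') (not_lt.1 h)⟩⟩
      else 0

/-- The action of the general linear groups: `M ↦ g M h` for generic matrices, `M ↦ g M gᵀ` for
symmetric and skew-symmetric matrices. -/
def act {R : Type} [CommRing R] : (σ : Shp) → Matrix (Fin σ.row) (Fin σ.row) R →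
    Matrix (Fin σ.col) (Fin σ.col) R → Matrix (Fin σ.row) (Fin σ.col) R →
      Matrix (Fin σ.row) (Fin σ.col) R
  | gen _ _, g, h, M => g * M * h
  | eps _ _, g, _, M => g * M * g.transpose

end Shp

variable {s N : ℕ}

/-- The substitution `x_a ↦ g_a x_a h_a` (generic matrices), `x_a ↦ g_a x_a g_aᵀ` (symmetric and
skew-symmetric matrices), `a = 1, …, s`, in the polynomial ring. -/
noncomputable def shSub (σ : Fin s → Shp) (e : (Σ a, (σ a).Idx) ≃ Fin N)
    (g : ∀ a, Matrix (Fin (σ a).row) (Fin (σ a).row) ℂ)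
    (h : ∀ a, Matrix (Fin (σ a).col) (Fin (σ a).col) ℂ) :
    MvPolynomial (Fin N) ℂ →ₐ[ℂ] MvPolynomial (Fin N) ℂ :=
  aeval fun x : Fin N =>
    (σ (e.symm x).1).act ((g (e.symm x).1).map C) ((h (e.symm x).1).map C)
      ((σ (e.symm x).1).mat fun p => X (e ⟨(e.symm x).1, p⟩))
      ((σ (e.symm x).1).pr (e.symm x).2) ((σ (e.symm x).1).pc (e.symm x).2)

/-- The ideal is stable under all substitutions `x_a ↦ g_a x_a h_a` (generic matrices),
`x_a ↦ g_a x_a g_aᵀ` (symmetric and skew-symmetric matrices) with invertible matrices `g_a`,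
`h_a`. -/
def ShStable (σ : Fin s → Shp) (e : (Σ a, (σ a).Idx) ≃ Fin N)
    (I : Ideal (MvPolynomial (Fin N) ℂ)) : Prop :=
  ∀ (g : ∀ a, Matrix (Fin (σ a).row) (Fin (σ a).row) ℂ)
    (h : ∀ a, Matrix (Fin (σ a).col) (Fin (σ a).col) ℂ),
    (∀ a, (g a).det ≠ 0) → (∀ a, (h a).det ≠ 0) → ∀ f ∈ I, shSub σ e g h f ∈ I

end MotMono
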