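import Pool.Agent.Lib.MP_4e5fcd_ag.Cl.EDefs
import Pool.Agent.Lib.MP_4e5fcd_ag.Cl.A2

/-! # CL-E1: the exponents of the restriction to the points in normal form

`exS_of_support`: apply `shSub_expand` over the polynomial ring in the variables `X (a, i)` with the
diagonal matrices with entries `X (a, j / st)`; the coefficient of `X ^ (2 β)` gives the element. -/

open MvPolynomial

namespace MotMono

variable {s N : ℕ} {σ : Fin s → Shp}

private theorem E1_div (τ : Shp) (p : τ.Idx)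
    (h : (τ.pr p : ℕ) % τ.st = 0 ∧ (τ.pc p : ℕ) + 1 = τ.pr p + τ.st) :
    (τ.pr p : ℕ) / τ.st < τ.rk ∧ (τ.pc p : ℕ) / τ.st = (τ.pr p : ℕ) / τ.st := by
  obtain ⟨h1, h2⟩ := h
  cases τ with
  | gen m n =>
    have e1 : (Shp.gen m n).st = 1 := rfl
    have e2 : (Shp.gen m n).rk = m := rfl
    have e3 : ((Shp.gen m n).pr p : ℕ) < m := ((Shp.gen m n).pr p).2
    rw [e1] at h1 h2 ⊢
    rw [e2, Nat.div_one, Nat.div_one]
    omega
  | eps κ n =>
    have e3 : ((Shp.eps κ n).pr p : ℕ) < n := ((Shp.eps κ n).pr p).2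
    have e4 : ((Shp.eps κ n).pc p : ℕ) < n := ((Shp.eps κ n).pc p).2
    cases κ with
    | false =>
      have e1 : (Shp.eps false n).st = 2 := rfl
      have e2 : (Shp.eps false n).rk = n / 2 := rfl
      rw [e1] at h1 h2 ⊢
      rw [e2]
      omega
    | true =>
      have e1 : (Shp.eps true n).st = 1 := rfl
      have e2 : (Shp.eps true n).rk = n / 1 := rfl
      rw [e1] at h1 h2 ⊢
      rw [e2, Nat.div_one, Nat.div_one, Nat.div_one]
      omega

private theorem E1_pos (τ : Shp) (hτ : τ.Le) (i : ℕ) (hi : i < τ.rk) :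
    ∃ p : τ.Idx, (τ.pr p : ℕ) = τ.st * i ∧ (τ.pc p : ℕ) + 1 = τ.st * i + τ.st := by
  cases τ with
  | gen m n =>
    have h1 : m ≤ n := hτ
    have h2 : i < m := hi
    refine ⟨(⟨i, h2⟩, ⟨i, lt_of_lt_of_le h2 h1⟩), ?_, ?_⟩
    · show i = 1 * i
      omega
    · show i + 1 = 1 * i + 1
      omega
  | eps κ n =>
    cases κ with
    | false =>
      have h2 : i < n / 2 := hi
      refine ⟨⟨(⟨2 * i, by omega⟩, ⟨2 * i + 1, by omega⟩), Or.inl ?_⟩, ?_, ?_⟩
      · show 2 * i < 2 * i + 1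
        omega
      · show 2 * i = 2 * i
        rfl
      · show 2 * i + 1 + 1 = 2 * i + 2
        rfl
    | true =>
      have h2 : i < n / 1 := hi
      rw [Nat.div_one] at h2
      refine ⟨⟨(⟨i, h2⟩, ⟨i, h2⟩), Or.inr ⟨rfl, rfl⟩⟩, ?_, ?_⟩
      · show i = 1 * i
        omega
      · show i + 1 = 1 * i + 1
        omega

private theorem E1_dgI_congr {R : Type} [CommRing R] (τ : Shp) (D D' : ℕ → R)
    (h : ∀ i < τ.rk, D i = D' i) (p : τ.Idx) : τ.dgI D p = τ.dgI D' p := by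
  unfold Shp.dgI
  split_ifs with hp
  · exact h _ (E1_div τ p hp).1
  · rfl

private theorem E1_dgP_congr {R : Type} [CommRing R] (e : (Σ a, (σ a).Idx) ≃ Fin N)
    (D D' : Fin s → ℕ → R) (h : ∀ a, ∀ i < (σ a).rk, D a i = D' a i) : dgP e D = dgP e D' := by
  funext x
  exact E1_dgI_congr _ _ _ (h _) _

theorem aeval_dgR {R : Type} [CommRing R] [Algebra ℂ R] (e : (Σ a, (σ a).Idx) ≃ Fin N)
    (D : Fin s → ℕ → R) (f : MvPolynomial (Fin N) ℂ) :
    aeval (fun c : (Σ a, Fin (σ a).rk) => D c.1 c.2) (dgR σ e f) = aeval (dgP e D) f := by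
  have h1 : (aeval (fun c : (Σ a, Fin (σ a).rk) => D c.1 c.2)).comp
      (aeval (dgP e fun a i =>
        if h : i < (σ a).rk then (X ⟨a, ⟨i, h⟩⟩ : MvPolynomial (Σ a, Fin (σ a).rk) ℂ) else 0) :
        MvPolynomial (Fin N) ℂ →ₐ[ℂ] MvPolynomial (Σ a, Fin (σ a).rk) ℂ) =
      (aeval (dgP e D) : MvPolynomial (Fin N) ℂ →ₐ[ℂ] R) := by
    apply MvPolynomial.algHom_ext
    intro x
    rw [AlgHom.comp_apply, aeval_X, aeval_X]
    show _ = (σ (e.symm x).1).dgI (D (e.symm x).1) (e.symm x).2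
    have h2 := Shp.dgI_map (σ (e.symm x).1)
      ((aeval (fun c : (Σ a, Fin (σ a).rk) => D c.1 c.2) :
        MvPolynomial (Σ a, Fin (σ a).rk) ℂ →ₐ[ℂ] R) : MvPolynomial (Σ a, Fin (σ a).rk) ℂ →+* R)
      (fun i => if h : i < (σ (e.symm x).1).rk then
        (X ⟨(e.symm x).1, ⟨i, h⟩⟩ : MvPolynomial (Σ a, Fin (σ a).rk) ℂ) else 0) (e.symm x).2
    refine Eq.trans h2.symm ?_
    refine E1_dgI_congr _ _ _ (fun i hi => ?_) _
    rw [dif_pos hi, RingHom.coe_coe, aeval_X]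
  exact congrArg (fun φ : MvPolynomial (Fin N) ℂ →ₐ[ℂ] R => φ f) h1

private theorem E1_ev {ι : Type} (v : ι → ℂ) (f : MvPolynomial ι ℂ) :
    aeval v f = eval v f := by
  rw [aeval_def, Algebra.algebraMap_self, eval₂_id]

private theorem E1_mon (d : (Σ a, Fin (σ a).rk) → ℂ) (β : (Σ a, Fin (σ a).rk) →₀ ℕ) (a : ℂ) :
    aeval (fun c => (X c : MvPolynomial (Σ a, Fin (σ a).rk) ℂ) ^ 2 * C (d c)) (monomial β a) =
      monomial (2 • β) (a * ∏ c, d c ^ β c) := by
  rw [aeval_monomial, Finsupp.prod_fintype _ _ (fun _ => pow_zero _)]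
  have h1 : ∀ c, ((X c : MvPolynomial (Σ a, Fin (σ a).rk) ℂ) ^ 2 * C (d c)) ^ β c =
      X c ^ (2 • β) c * C (d c ^ β c) := by
    intro c
    rw [mul_pow, ← pow_mul, ← C_pow]
    rfl
  rw [Finset.prod_congr rfl fun c _ => h1 c, Finset.prod_mul_distrib, ← map_prod]
  have h2 : (∏ c, (X c : MvPolynomial (Σ a, Fin (σ a).rk) ℂ) ^ (2 • β) c) =
      monomial (2 • β) 1 := by
    rw [monomial_eq, C_1, one_mul, Finsupp.prod_fintype _ _ (fun _ => pow_zero _)]
  rw [h2, algebraMap_eq, mul_comm (monomial (2 • β) 1), ← mul_assoc, ← C_mul, C_mul_monomial,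
    mul_one]

private theorem E1_coeff (d : (Σ a, Fin (σ a).rk) → ℂ) (P : MvPolynomial (Σ a, Fin (σ a).rk) ℂ)
    (β : (Σ a, Fin (σ a).rk) →₀ ℕ) :
    coeff (2 • β) (aeval (fun c => (X c : MvPolynomial (Σ a, Fin (σ a).rk) ℂ) ^ 2 * C (d c)) P) =
      coeff β P * ∏ c, d c ^ β c := by
  classical
  induction P using MvPolynomial.induction_on' with
  | monomial u a =>
    rw [E1_mon, coeff_monomial, coeff_monomial]
    by_cases h : u = β
    · rw [if_pos h, if_pos (by rw [h]), h]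
    · rw [if_neg h, if_neg, zero_mul]
      intro h2
      apply h
      ext c
      have h3 := DFunLike.congr_fun h2 c
      rw [Finsupp.smul_apply, Finsupp.smul_apply, smul_eq_mul, smul_eq_mul] at h3
      omega
  | add p q hp hq =>
    rw [map_add, coeff_add, hp, hq, coeff_add, add_mul]

theorem exS_of_support (e : (Σ a, (σ a).Idx) ≃ Fin N) (I : Ideal (MvPolynomial (Fin N) ℂ))
    (hI : ShStable σ e I) (f : MvPolynomial (Fin N) ℂ) (hf : f ∈ I)
    (β : (Σ a, Fin (σ a).rk) →₀ ℕ) (hβ : β ∈ (dgR σ e f).support) :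
    (fun c => β c) ∈ ExS σ e I := by
  obtain ⟨K, c, F, hF, hexp⟩ := shSub_expand e I hI f hf
  -- the variables
  set V : Fin s → ℕ → MvPolynomial (Σ a, Fin (σ a).rk) ℂ := fun a i =>
    if h : i < (σ a).rk then X ⟨a, ⟨i, h⟩⟩ else 0 with hV
  set g : ∀ a, Matrix (Fin (σ a).row) (Fin (σ a).row) (MvPolynomial (Σ a, Fin (σ a).rk) ℂ) :=
    fun a => Matrix.diagonal fun j => V a ((j : ℕ) / (σ a).st) with hg
  set h : ∀ a, Matrix (Fin (σ a).col) (Fin (σ a).col) (MvPolynomial (Σ a, Fin (σ a).rk) ℂ) :=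
    fun a => Matrix.diagonal fun j => V a ((j : ℕ) / (σ a).st) with hh
  have hne : coeff β (dgR σ e f) ≠ 0 := mem_support_iff.1 hβ
  refine ⟨C (coeff β (dgR σ e f))⁻¹ *
    ∑ j, C (coeff (2 • β) (aeval (ghS g h) (c j))) * F j, ?_, fun D => ?_⟩
  · exact I.mul_mem_left _ (Ideal.sum_mem _ fun j _ => I.mul_mem_left _ (hF j))
  · have key := hexp g h (fun a => (σ a).dgI fun i =>
      (C (D a i) : MvPolynomial (Σ a, Fin (σ a).rk) ℂ))
    have h1 : (ptS e fun a => (σ a).actI (g a) (h a) ((σ a).dgI fun i =>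
        (C (D a i) : MvPolynomial (Σ a, Fin (σ a).rk) ℂ))) =
        dgP e fun a i => V a i ^ 2 * C (D a i) := by
      funext x
      show (σ (e.symm x).1).actI (g (e.symm x).1) (h (e.symm x).1)
          ((σ (e.symm x).1).dgI fun i =>
            (C (D (e.symm x).1 i) : MvPolynomial (Σ a, Fin (σ a).rk) ℂ)) (e.symm x).2 =
        (σ (e.symm x).1).dgI (fun i => V (e.symm x).1 i ^ 2 * C (D (e.symm x).1 i)) (e.symm x).2
      have h2 := Shp.actI_diagonal (σ (e.symm x).1)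
        (fun j => V (e.symm x).1 (j / (σ (e.symm x).1).st))
        (fun j => V (e.symm x).1 (j / (σ (e.symm x).1).st)) (fun _ _ _ => rfl)
        ((σ (e.symm x).1).dgI fun i =>
          (C (D (e.symm x).1 i) : MvPolynomial (Σ a, Fin (σ a).rk) ℂ)) (e.symm x).2
      refine Eq.trans h2 ?_
      unfold Shp.dgI
      split_ifs with hp
      · rw [(E1_div _ _ hp).2]
        ring
      · rw [mul_zero]
    rw [h1, ← aeval_dgR] at key
    have h3 : (fun c : (Σ a, Fin (σ a).rk) =>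
        (fun a i => V a i ^ 2 * C (D a i)) c.1 c.2) =
        fun c => (X c : MvPolynomial (Σ a, Fin (σ a).rk) ℂ) ^ 2 * C (D c.1 c.2) := by
      funext c
      show V c.1 c.2 ^ 2 * C (D c.1 c.2) = _
      rw [hV]
      show (if h : (c.2 : ℕ) < (σ c.1).rk then (X ⟨c.1, ⟨c.2, h⟩⟩ :
        MvPolynomial (Σ a, Fin (σ a).rk) ℂ) else 0) ^ 2 * _ = _
      rw [dif_pos c.2.2]
    have h4 : ∀ j, aeval (ptS e fun a => (σ a).dgI fun i =>
        (C (D a i) : MvPolynomial (Σ a, Fin (σ a).rk) ℂ)) (F j) =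
        C (eval (dgP e D) (F j)) := by
      intro j
      have h5 : (ptS e fun a => (σ a).dgI fun i =>
          (C (D a i) : MvPolynomial (Σ a, Fin (σ a).rk) ℂ)) =
          fun x => algebraMap ℂ (MvPolynomial (Σ a, Fin (σ a).rk) ℂ) (dgP e D x) := by
        funext x
        exact Shp.dgI_map (σ (e.symm x).1)
          (C : ℂ →+* MvPolynomial (Σ a, Fin (σ a).rk) ℂ) (D (e.symm x).1) (e.symm x).2
      have h7 := aeval_algebraMap_apply (MvPolynomial (Σ a, Fin (σ a).rk) ℂ) (dgP e D) (F j)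
      rw [E1_ev] at h7
      rw [h5]
      exact h7
    have key2 := congrArg (coeff (2 • β)) key
    rw [h3, E1_coeff, coeff_sum] at key2
    rw [map_mul, eval_C, map_sum]
    have h6 : ∑ j, eval (dgP e D) (C (coeff (2 • β) (aeval (ghS g h) (c j))) * F j) =
        coeff β (dgR σ e f) * ∏ c : (Σ a, Fin (σ a).rk), D c.1 c.2 ^ β c := by
      rw [key2]
      refine Finset.sum_congr rfl fun j _ => ?_
      rw [h4, map_mul, eval_C]
      refine Eq.trans (mul_comm _ _) ?_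
      rw [← coeff_C_mul]
      exact congrArg (coeff (2 • β)) (mul_comm _ _)
    rw [h6, ← mul_assoc, inv_mul_cancel₀ hne, one_mul]

/-- the monomial is the restriction of an element of `I`, over every algebra -/
theorem exS_dgR (e : (Σ a, (σ a).Idx) ≃ Fin N) (I : Ideal (MvPolynomial (Fin N) ℂ))
    (β : (Σ a, Fin (σ a).rk) → ℕ) (hβ : β ∈ ExS σ e I) :
    ∃ f ∈ I, ∀ {R : Type} [CommRing R] [Algebra ℂ R] (D : Fin s → ℕ → R),
      aeval (dgP e D) f = ∏ c : (Σ a, Fin (σ a).rk), D c.1 c.2 ^ β c := by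
  obtain ⟨f, hf, hev⟩ := hβ
  refine ⟨f, hf, ?_⟩
  have h1 : dgR σ e f = ∏ c : (Σ a, Fin (σ a).rk), X c ^ β c := by
    apply MvPolynomial.funext
    intro v
    have h2 := aeval_dgR (R := ℂ) e (fun a i => if h : i < (σ a).rk then v ⟨a, ⟨i, h⟩⟩ else 0) f
    have h3 : (fun c : (Σ a, Fin (σ a).rk) =>
        (fun a i => if h : i < (σ a).rk then v ⟨a, ⟨i, h⟩⟩ else 0) c.1 (c.2 : ℕ)) = v := by
      funext c
      exact dif_pos c.2.2
    have h4 : (fun c : (Σ a, Fin (σ a).rk) =>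
        if h : (c.2 : ℕ) < (σ c.1).rk then v ⟨c.1, ⟨c.2, h⟩⟩ else 0) = v := h3
    rw [h4, E1_ev, E1_ev, hev] at h2
    rw [h2, map_prod]
    refine Finset.prod_congr rfl fun c _ => ?_
    rw [map_pow, eval_X]
    show (if h : (c.2 : ℕ) < (σ c.1).rk then v ⟨c.1, ⟨c.2, h⟩⟩ else 0) ^ β c = v c ^ β c
    rw [dif_pos c.2.2]
  intro R _ _ D
  rw [← aeval_dgR, h1, map_prod]
  refine Finset.prod_congr rfl fun c _ => ?_
  rw [map_pow, aeval_X]

/-- the exponents are closed under addition -/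
theorem exS_add (e : (Σ a, (σ a).Idx) ≃ Fin N) (hσ : ∀ a, (σ a).Le)
    (I : Ideal (MvPolynomial (Fin N) ℂ)) (β γ : (Σ a, Fin (σ a).rk) → ℕ) (hβ : β ∈ ExS σ e I) :
    β + γ ∈ ExS σ e I := by
  obtain ⟨f, hf, hev⟩ := hβ
  choose p hp1 hp2 using fun c : (Σ a, Fin (σ a).rk) => E1_pos (σ c.1) (hσ c.1) c.2 c.2.2
  refine ⟨(∏ c : (Σ a, Fin (σ a).rk), X (e ⟨c.1, p c⟩) ^ γ c) * f, I.mul_mem_left _ hf,
    fun D => ?_⟩
  rw [map_mul, hev, map_prod, ← Finset.prod_mul_distrib]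
  refine Finset.prod_congr rfl fun c _ => ?_
  rw [map_pow, eval_X]
  have h1 : dgP e D (e ⟨c.1, p c⟩) = D c.1 c.2 := by
    show (σ (e.symm (e ⟨c.1, p c⟩)).1).dgI (D (e.symm (e ⟨c.1, p c⟩)).1)
      (e.symm (e ⟨c.1, p c⟩)).2 = _
    rw [Equiv.symm_apply_apply]
    show (σ c.1).dgI (D c.1) (p c) = _
    unfold Shp.dgI
    rw [if_pos, hp1, Nat.mul_div_cancel_left _ (Shp.st_pos _)]
    refine ⟨?_, ?_⟩
    · rw [hp1, Nat.mul_mod_right]
    · rw [hp2, hp1]
  rw [h1, ← pow_add, Pi.add_apply, add_comm]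

end MotMono
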