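import Pool.Agent.Lib.MP_4e5fcd_ag.Cl.S1a
import Pool.Agent.Lib.MP_4e5fcd_ag.Cl.S1b

/-! # CL-S1: normal forms of matrices of power series

PROOF. `gen m n`: `smith` of `Inv/Smith.lean` (`D i = 0` for `i ≥ m`). `eps κ n`: `smith_sym`, `smith_skew`
applied to `mat y` (`mat_transpose`), then `ent` (`ent_mat`; `actI` is `ent ∘ act ∘ mat`). -/

open MvPolynomial

namespace MotMono

theorem smithS (σ : Shp) (hσ : σ.Le) (y : σ.Idx → PowerSeries ℂ) :
    ∃ (D : ℕ → PowerSeries ℂ) (g g' : Matrix (Fin σ.row) (Fin σ.row) (PowerSeries ℂ))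
      (h h' : Matrix (Fin σ.col) (Fin σ.col) (PowerSeries ℂ)),
      (∀ i j, i ≤ j → D i ∣ D j) ∧ y = σ.actI g h (σ.dgI D) ∧ σ.dgI D = σ.actI g' h' y := by
  cases σ with
  | gen m n =>
    obtain ⟨D₀, g, g', h, h', hD, h1, h2⟩ := smith m n hσ ((Shp.gen m n).mat y)
    obtain ⟨D, hDD⟩ : ∃ D : ℕ → PowerSeries ℂ, D = fun i => if hi : i < m then D₀ ⟨i, hi⟩ else 0 := ⟨_, rfl⟩
    have e : (Shp.gen m n).mat ((Shp.gen m n).dgI D) =
        Matrix.of fun (i : Fin m) (k : Fin n) => if (i : ℕ) = k then D₀ i else 0 := by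
      ext1 i k
      have e1 : (Shp.gen m n).mat ((Shp.gen m n).dgI D) i k = (Shp.gen m n).dgI D (i, k) := rfl
      rw [e1, Matrix.of_apply]
      have e2 : (Shp.gen m n).dgI D (i, k) =
          if (i : ℕ) % 1 = 0 ∧ (k : ℕ) + 1 = i + 1 then D ((i : ℕ) / 1) else 0 := rfl
      rw [e2, hDD, Nat.div_one, Nat.mod_one]
      by_cases hik : (i : ℕ) = k
      · rw [if_pos ⟨rfl, by rw [hik]⟩, if_pos hik]
        exact dif_pos (show (i : ℕ) < m from i.2)
      · rw [if_neg (fun h => hik (by omega)), if_neg hik]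
    refine ⟨D, g, g', h, h', ?_, ?_, ?_⟩
    · intro i j hij
      rw [hDD]
      by_cases hj : j < m
      · simp only [dif_pos hj, dif_pos (hij.trans_lt hj)]
        exact hD _ _ hij
      · simp only [dif_neg hj]
        exact dvd_zero _
    · conv_lhs => rw [← Shp.ent_mat (Shp.gen m n) y, h1, ← e]
      rfl
    · conv_lhs => rw [← Shp.ent_mat (Shp.gen m n) ((Shp.gen m n).dgI D), e, h2]
      rfl
  | eps κ n =>
    have key : ∃ (D : ℕ → PowerSeries ℂ) (P P' : Matrix (Fin n) (Fin n) (PowerSeries ℂ)),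
        (∀ i j, i ≤ j → D i ∣ D j) ∧
        (Shp.eps κ n).mat y = P * ((Shp.eps κ n).mat ((Shp.eps κ n).dgI D)) * P.transpose ∧
        ((Shp.eps κ n).mat ((Shp.eps κ n).dgI D)) = P' * (Shp.eps κ n).mat y * P'.transpose := by
      have ht := Shp.mat_transpose κ n y
      cases κ with
      | true =>
        rw [if_pos rfl, one_smul] at ht
        exact smith_sym n _ ht
      | false =>
        rw [if_neg Bool.false_ne_true, neg_one_smul] at ht
        exact smith_skew n _ ht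
    obtain ⟨D, P, P', hD, h1, h2⟩ := key
    refine ⟨D, P, P', 1, 1, hD, ?_, ?_⟩
    · conv_lhs => rw [← Shp.ent_mat (Shp.eps κ n) y, h1]
      rfl
    · conv_lhs => rw [← Shp.ent_mat (Shp.eps κ n) ((Shp.eps κ n).dgI D), h2]
      rfl

end MotMono
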