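import Pool.Agent.Lib.MP_4e5fcd_ag.Cl.E1
import Pool.Agent.Lib.MP_4e5fcd_ag.Cl.E2
import Pool.Agent.Lib.MP_4e5fcd_ag.Cl.S1
import Pool.Agent.Lib.MP_4e5fcd_ag.Inv.Dickson

/-! # CL-E4: the finite set of minimal exponents

PROOF. `exS_nonempty`: otherwise (`exS_of_support`) `dgR σ e f = 0` for all `f ∈ I`, so `aeval (dgP e D) f = 0` over
every algebra. Let `x : Fin N → ℂ`; apply `smithS` to the constant power series
`y_a p = C (x (e (a, p)))`: `y_a = actI g_a h_a (dgI D_a)`, and `dvd_actS` (for all `k`) shows that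
`aeval (ptS e y) f` is divisible by all `X ^ k`, so it is `0`; it is the constant `C (eval x f)`. So
`f = 0` (`MvPolynomial.funext`), `I = ⊥`.
`exists_gensS`: let `V = {w | wtS w ∈ ExS σ e I}` and let `A` be a finite subset such that every element of
`V` is `≥` an element of `A` (`di_dickson`). Every weakly decreasing `β` is `wtS w`,
`w (a, i) = β (a, i) - β (a, i + 1)` (`β (a, rk) = 0`; telescoping), and `wtS` is monotone. `A` is not empty: sort an
exponent (`exists_sort`, `exS_perm`). -/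

open MvPolynomial

namespace MotMono

variable {s N : ℕ} {σ : Fin s → Shp}

theorem exS_nonempty (e : (Σ a, (σ a).Idx) ≃ Fin N) (hσ : ∀ a, (σ a).Le)
    (I : Ideal (MvPolynomial (Fin N) ℂ)) (hI : ShStable σ e I) (hne : I ≠ ⊥) :
    (ExS σ e I).Nonempty := by
  by_contra hcon
  rw [Set.not_nonempty_iff_eq_empty] at hcon
  have h0 : ∀ f ∈ I, dgR σ e f = 0 := by
    intro f hf
    by_contra hne0
    obtain ⟨β, hβ⟩ := Finset.nonempty_iff_ne_empty.mpr (mt MvPolynomial.support_eq_empty.mp hne0)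
    have h1 := exS_of_support e I hI f hf β hβ
    rw [hcon] at h1
    exact h1
  apply hne
  rw [Submodule.eq_bot_iff]
  intro f hf
  apply MvPolynomial.funext
  intro x
  rw [map_zero]
  have hch : ∀ a, ∃ (D : ℕ → PowerSeries ℂ)
      (g : Matrix (Fin (σ a).row) (Fin (σ a).row) (PowerSeries ℂ))
      (h : Matrix (Fin (σ a).col) (Fin (σ a).col) (PowerSeries ℂ)),
      (fun p : (σ a).Idx => (PowerSeries.C (x (e ⟨a, p⟩)) : PowerSeries ℂ)) =
        (σ a).actI g h ((σ a).dgI D) := by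
    intro a
    obtain ⟨D, g, g', h, h', -, h1, -⟩ := smithS (σ a) (hσ a) fun p => PowerSeries.C (x (e ⟨a, p⟩))
    exact ⟨D, g, h, h1⟩
  choose D g h hD using hch
  have h2 : aeval (ptS e fun a => (σ a).actI (g a) (h a) ((σ a).dgI (D a))) f = 0 := by
    ext k
    have h3 := dvd_actS e I hI (fun a => (σ a).dgI (D a)) (k + 1) (fun f' hf' => by
      have h4 : aeval (ptS e fun a => (σ a).dgI (D a)) f' = (0 : PowerSeries ℂ) := by
        have h5 := aeval_dgR e D f'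
        rw [h0 f' hf', map_zero] at h5
        exact h5.symm
      rw [h4]
      exact dvd_zero _) g h f hf
    rw [PowerSeries.X_pow_dvd_iff] at h3
    rw [map_zero]
    exact h3 k (Nat.lt_succ_self k)
  have h6 : (ptS e fun a => (σ a).actI (g a) (h a) ((σ a).dgI (D a))) =
      (algebraMap ℂ (PowerSeries ℂ)) ∘ x := by
    funext j
    have h9 : PowerSeries.C (x (e ⟨(e.symm j).1, (e.symm j).2⟩)) =
        (σ (e.symm j).1).actI (g (e.symm j).1) (h (e.symm j).1)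
          ((σ (e.symm j).1).dgI (D (e.symm j).1)) (e.symm j).2 :=
      congrFun (hD (e.symm j).1) (e.symm j).2
    have h10 : (⟨(e.symm j).1, (e.symm j).2⟩ : Σ a, (σ a).Idx) = e.symm j := rfl
    rw [h10, e.apply_symm_apply] at h9
    exact h9.symm
  rw [h6, MvPolynomial.aeval_algebraMap_apply] at h2
  have h7 : (PowerSeries.C (aeval x f) : PowerSeries ℂ) = 0 := h2
  have h8 := congrArg (PowerSeries.constantCoeff (R := ℂ)) h7
  rw [PowerSeries.constantCoeff_C, map_zero, aeval_def, Algebra.algebraMap_self, eval₂_id] at h8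
  exact h8

private theorem E4_tel (B : ℕ → ℕ) (hB : ∀ i, B (i + 1) ≤ B i) (j m : ℕ) (hjm : j ≤ m) :
    B m ≤ B j ∧ ∑ i ∈ Finset.range m, (if j ≤ i then B i - B (i + 1) else 0) = B j - B m := by
  induction m, hjm using Nat.le_induction with
  | base =>
    refine ⟨le_refl _, ?_⟩
    rw [Nat.sub_self]
    apply Finset.sum_eq_zero
    intro i hi
    rw [Finset.mem_range] at hi
    rw [if_neg (not_le.mpr hi)]
  | succ k hk ih =>
    have h1 := hB k
    refine ⟨h1.trans ih.1, ?_⟩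
    rw [Finset.sum_range_succ, ih.2, if_pos hk]
    have := ih.1
    omega

theorem exists_wtS (β : (Σ a, Fin (σ a).rk) → ℕ) (hβ : DomS β) :
    ∃ w : (Σ a, Fin (σ a).rk) → ℕ, wtS w = β := by
  obtain ⟨B, hBdef⟩ : ∃ B : Fin s → ℕ → ℕ, B = fun a k =>
    if h : k < (σ a).rk then β ⟨a, ⟨k, h⟩⟩ else 0 := ⟨_, rfl⟩
  have hB0 : ∀ a (k : Fin (σ a).rk), B a k = β ⟨a, k⟩ := by
    intro a k
    rw [hBdef]
    exact dif_pos k.2
  have hB1 : ∀ a k, B a (k + 1) ≤ B a k := by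
    intro a k
    by_cases h1 : k + 1 < (σ a).rk
    · have e1 : B a (k + 1) = β ⟨a, ⟨k + 1, h1⟩⟩ := hB0 a ⟨k + 1, h1⟩
      have e2 : B a k = β ⟨a, ⟨k, by omega⟩⟩ := hB0 a ⟨k, by omega⟩
      rw [e1, e2]
      exact hβ a ⟨k, by omega⟩ ⟨k + 1, h1⟩ (Fin.mk_le_mk.mpr (Nat.le_succ k))
    · have e1 : B a (k + 1) = 0 := by
        rw [hBdef]
        exact dif_neg h1
      rw [e1]
      exact Nat.zero_le _
  refine ⟨fun c => B c.1 c.2 - B c.1 (c.2 + 1), ?_⟩
  funext c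
  obtain ⟨a, j⟩ := c
  have h1 : wtS (σ := σ) (fun c => B c.1 c.2 - B c.1 (c.2 + 1)) ⟨a, j⟩ =
      ∑ i : Fin (σ a).rk, if (j : ℕ) ≤ i then B a i - B a (i + 1) else 0 := rfl
  rw [h1, Fin.sum_univ_eq_sum_range (fun i => if (j : ℕ) ≤ i then B a i - B a (i + 1) else 0),
    (E4_tel (B a) (hB1 a) j (σ a).rk j.2.le).2]
  have e1 : B a (σ a).rk = 0 := by
    rw [hBdef]
    exact dif_neg (lt_irrefl _)
  rw [e1, Nat.sub_zero]
  exact hB0 a j

theorem domS_wtS (w : (Σ a, Fin (σ a).rk) → ℕ) : DomS (wtS w) := by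
  intro a i k hik
  unfold wtS
  apply Finset.sum_le_sum
  intro j _
  by_cases h1 : k ≤ j
  · rw [if_pos h1, if_pos (hik.trans h1)]
  · rw [if_neg h1]
    exact Nat.zero_le _

private theorem E4_mono {w w' : (Σ a, Fin (σ a).rk) → ℕ} (h : w ≤ w') (c : (Σ a, Fin (σ a).rk)) :
    wtS w c ≤ wtS w' c := by
  unfold wtS
  apply Finset.sum_le_sum
  intro j _
  by_cases h1 : c.2 ≤ j
  · rw [if_pos h1, if_pos h1]
    exact h _
  · rw [if_neg h1]
    exact Nat.zero_le _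

theorem exists_gensS (e : (Σ a, (σ a).Idx) ≃ Fin N) (hσ : ∀ a, (σ a).Le)
    (I : Ideal (MvPolynomial (Fin N) ℂ)) (hI : ShStable σ e I) (hne : I ≠ ⊥) :
    ∃ A : Finset ((Σ a, Fin (σ a).rk) → ℕ), Gens σ e I A := by
  obtain ⟨A, hA, hA'⟩ := di_dickson {w : (Σ a, Fin (σ a).rk) → ℕ | wtS w ∈ ExS σ e I}
  have h1 : ∀ β ∈ ExS σ e I, DomS β → ∃ w ∈ A, ∀ c, wtS w c ≤ β c := by
    intro β hβ hD
    obtain ⟨w, hw⟩ := exists_wtS β hD
    obtain ⟨w', hw', hle⟩ := hA' w (by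
      show wtS w ∈ ExS σ e I
      rw [hw]
      exact hβ)
    refine ⟨w', hw', fun c => ?_⟩
    have h2 := E4_mono hle c
    rwa [hw] at h2
  refine ⟨A, ?_, hA, h1⟩
  obtain ⟨β, hβ⟩ := exS_nonempty e hσ I hI hne
  obtain ⟨π, hπ⟩ := exists_sort β
  obtain ⟨w, hw, -⟩ := h1 _ (exS_perm e hσ I hI β hβ π) hπ
  exact ⟨w, hw⟩

end MotMono
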