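import Pool.Agent.Lib.MP_4e5fcd_ag.Cl.E6
import Pool.Agent.Lib.MP_4e5fcd_ag.Cl.C7S
import Pool.Agent.Lib.MP_4e5fcd_ag.Cl.S1
import Pool.Agent.Lib.MP_4e5fcd_ag.Inv.OrdLocus

/-! # CL-E7: the order of `I` along a jet

PROOF. `along_eqS`, `ol_iffS`: port of `along_eq`, `ol_iff` (`Inv/OrdLocus.lean`). `ordBy`: let `y_a = ser (jetPartS e γ a)`
and `D_a`, `g_a`, … by `smithS`. By `dvd_actS` (both directions) and `dvd_dgP_iff`, for every `j`:
`(∀ f ∈ I, X ^ j ∣ aeval (ptS e y) f) ↔ ∀ w ∈ A, X ^ j ∣ ∏ c, D c ^ wtS w c`, and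
`∏ c, D c.1 c.2 ^ wtS w c = ∏ c, (∏ i ≤ c.2, D c.1 i) ^ w c`. For `j ≤ k + 1` this is
`j ≤ ∑ c, w c * et (k + 1) (y c.1) (c.2 + 1)` by `le_etS_smith` (the order of a product is the sum of the orders; a
factor of order `> k` with `w c ≠ 0` makes both sides true). So both conditions of `ol_iffS` say that the
minimum over `A` is `≥ k`, resp. not `≥ k + 1`. The base point condition is `etS_one_ne_zero_iff`
(`γ (i, 0) = 0` for all `i` iff for all `a`, `p`). -/

open MvPolynomial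

namespace MotMono

variable {s N : ℕ} {σ : Fin s → Shp}

theorem along_eqS (e : (Σ a, (σ a).Idx) ≃ Fin N) {L : ℕ} (γ : Fin N × Fin L → ℂ)
    (f : MvPolynomial (Fin N) ℂ) :
    ((along f γ : Polynomial ℂ) : PowerSeries ℂ) =
      aeval (ptS e fun a => ser (jetPartS e γ a)) f := by
  rw [← c6Hom_apply]
  have h1 : c6Hom γ = ((aeval (ptS e fun a => ser (jetPartS e γ a)) :
      MvPolynomial (Fin N) ℂ →ₐ[ℂ] PowerSeries ℂ) : MvPolynomial (Fin N) ℂ →+* PowerSeries ℂ) := by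
    apply MvPolynomial.ringHom_ext
    · intro r
      rw [c6Hom_apply, RingHom.coe_coe, ← algebraMap_eq, AlgHom.commutes]
      unfold along
      rw [AlgHom.commutes]
      rw [Polynomial.algebraMap_eq, Polynomial.coe_C]
      rfl
    · intro x
      rw [c6Hom_apply, RingHom.coe_coe, aeval_X]
      unfold along
      rw [aeval_X]
      ext l
      rw [Polynomial.coeff_coe, c6_coeff_arc]
      have h3 : e ⟨(e.symm x).1, (e.symm x).2⟩ = x := e.apply_symm_apply x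
      have h4 : PowerSeries.coeff l (ser (jetPartS e γ (e.symm x).1) (e.symm x).2) =
          if h : l < L then γ (x, ⟨l, h⟩) else 0 := by
        unfold ser jetPartS
        rw [PowerSeries.coeff_mk]
        split_ifs
        · exact congrArg (fun y => γ (y, _)) h3
        · rfl
      exact h4.symm
  rw [h1]
  rfl

theorem ol_iffS (e : (Σ a, (σ a).Idx) ≃ Fin N) (J : Ideal (MvPolynomial (Fin N) ℂ))
    (k : ℕ) (γ : Fin N × Fin (k + 1) → ℂ) :
    γ ∈ ordLocus J k ↔ (∀ i, γ (i, 0) = 0) ∧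
      (∀ f ∈ J, (PowerSeries.X : PowerSeries ℂ) ^ k ∣
        aeval (ptS e fun a => ser (jetPartS e γ a)) f) ∧
      ¬ ∀ f ∈ J, (PowerSeries.X : PowerSeries ℂ) ^ (k + 1) ∣
        aeval (ptS e fun a => ser (jetPartS e γ a)) f := by
  have hc : ∀ (f : MvPolynomial (Fin N) ℂ) (j : ℕ), (PowerSeries.X : PowerSeries ℂ) ^ j ∣
      aeval (ptS e fun a => ser (jetPartS e γ a)) f ↔ ∀ l < j, (along f γ).coeff l = 0 := by
    intro f j
    rw [← along_eqS, PowerSeries.X_pow_dvd_iff]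
    simp only [Polynomial.coeff_coe]
  simp only [hc]
  unfold ordLocus
  rw [Set.mem_ofPred_eq]
  refine and_congr_right fun _ => and_congr_right fun h2 => ?_
  constructor
  · rintro ⟨f, hf, hne⟩ h
    exact hne (h f hf k (Nat.lt_succ_self k))
  · intro h
    push Not at h
    obtain ⟨f, hf, l, hl, hne⟩ := h
    refine ⟨f, hf, ?_⟩
    intro h3
    rcases Nat.lt_succ_iff_lt_or_eq.mp hl with h4 | h4
    · exact hne (h2 f hf l h4)
    · exact hne (by rw [h4]; exact h3)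

private theorem E7_prod {R : Type} [CommRing R] (D : Fin s → ℕ → R)
    (w : (Σ a, Fin (σ a).rk) → ℕ) :
    ∏ c : (Σ a, Fin (σ a).rk), D c.1 c.2 ^ wtS w c =
      ∏ c : (Σ a, Fin (σ a).rk), (∏ i ∈ Finset.range (c.2 + 1), D c.1 i) ^ w c := by
  rw [Fintype.prod_sigma, Fintype.prod_sigma]
  refine Finset.prod_congr rfl fun a _ => ?_
  have h1 : ∀ i : Fin (σ a).rk, D a i ^ wtS w ⟨a, i⟩ =
      ∏ j : Fin (σ a).rk, if i ≤ j then D a i ^ w ⟨a, j⟩ else 1 := by
    intro i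
    unfold wtS
    rw [← Finset.prod_pow_eq_pow_sum]
    refine Finset.prod_congr rfl fun j _ => ?_
    by_cases h : i ≤ j
    · rw [if_pos h, if_pos h]
    · rw [if_neg h, if_neg h, pow_zero]
  have h2 : ∀ j : Fin (σ a).rk, (∏ i ∈ Finset.range ((j : ℕ) + 1), D a i) ^ w ⟨a, j⟩ =
      ∏ i : Fin (σ a).rk, if i ≤ j then D a i ^ w ⟨a, j⟩ else 1 := by
    intro j
    have h3 : ∏ i ∈ Finset.range ((j : ℕ) + 1), D a i =
        ∏ i : Fin (σ a).rk, if i ≤ j then D a i else 1 := by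
      have h4 : ∏ i : Fin (σ a).rk, (if i ≤ j then D a i else 1) =
          ∏ i ∈ Finset.range (σ a).rk, if i ≤ (j : ℕ) then D a i else 1 :=
        Fin.prod_univ_eq_prod_range (fun i => if i ≤ (j : ℕ) then D a i else 1) (σ a).rk
      rw [h4, ← Finset.prod_filter]
      refine Finset.prod_congr ?_ fun _ _ => rfl
      ext i
      have := j.2
      rw [Finset.mem_range, Finset.mem_filter, Finset.mem_range]
      omega
    rw [h3, ← Finset.prod_pow]
    refine Finset.prod_congr rfl fun i _ => ?_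
    by_cases h : i ≤ j
    · rw [if_pos h, if_pos h]
    · rw [if_neg h, if_neg h, one_pow]
  rw [Finset.prod_congr rfl fun i _ => h1 i, Finset.prod_comm]
  exact (Finset.prod_congr rfl fun j _ => h2 j).symm

private theorem E7_c6P {L : ℕ} {x : PowerSeries ℂ} {t : ℕ}
    (h : ∀ j, j ≤ t ↔ j ≤ L ∧ (PowerSeries.X : PowerSeries ℂ) ^ j ∣ x) :
    c6P L (Ideal.span {x}) t := by
  intro j hj
  rw [Ideal.span_singleton_le_span_singleton, h j]
  exact ⟨fun h1 => ⟨hj, h1⟩, fun h1 => h1.2⟩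

private theorem E7_dvd (D : Fin s → ℕ → PowerSeries ℂ) (w : (Σ a, Fin (σ a).rk) → ℕ) (L : ℕ)
    (t : (Σ a, Fin (σ a).rk) → ℕ)
    (h : ∀ (c : Σ a, Fin (σ a).rk) (j : ℕ), j ≤ t c ↔ j ≤ L ∧
      (PowerSeries.X : PowerSeries ℂ) ^ j ∣ ∏ i ∈ Finset.range (c.2 + 1), D c.1 i)
    (j : ℕ) (hj : j ≤ L) :
    (PowerSeries.X : PowerSeries ℂ) ^ j ∣
      ∏ c : (Σ a, Fin (σ a).rk), D c.1 c.2 ^ wtS w c ↔ j ≤ ∑ c, w c * t c := by
  have h1 := c6P_prod Finset.univ (fun c : (Σ a, Fin (σ a).rk) =>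
    c6P_pow (E7_c6P (h c)) (w c)) j hj
  rw [← h1, E7_prod]
  have h2 : (∏ c : (Σ a, Fin (σ a).rk),
      Ideal.span {∏ i ∈ Finset.range (c.2 + 1), D c.1 i} ^ w c) =
      Ideal.span {∏ c : (Σ a, Fin (σ a).rk),
        (∏ i ∈ Finset.range (c.2 + 1), D c.1 i) ^ w c} := by
    rw [← Ideal.prod_span_singleton]
    refine Finset.prod_congr rfl fun c _ => ?_
    rw [Ideal.span_singleton_pow]
  rw [h2, Ideal.span_singleton_le_span_singleton]

theorem ordBy (e : (Σ a, (σ a).Idx) ≃ Fin N) (hσ : ∀ a, (σ a).Le)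
    (I : Ideal (MvPolynomial (Fin N) ℂ)) (hI : ShStable σ e I)
    (A : Finset ((Σ a, Fin (σ a).rk) → ℕ)) (hA : Gens σ e I A) : OrdBy σ e I A := by
  intro k γ
  choose D g g' h h' hD hY hY' using fun a => smithS (σ a) (hσ a) (ser (jetPartS e γ a))
  have hpt1 : (fun a => (σ a).actI (g a) (h a) ((σ a).dgI (D a))) =
      fun a => ser (jetPartS e γ a) := funext fun a => (hY a).symm
  have hpt2 : (fun a => (σ a).actI (g' a) (h' a) (ser (jetPartS e γ a))) =
      fun a => (σ a).dgI (D a) := funext fun a => (hY' a).symm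
  have key1 : ∀ j, (∀ f ∈ I, (PowerSeries.X : PowerSeries ℂ) ^ j ∣
      aeval (ptS e fun a => ser (jetPartS e γ a)) f) ↔
      ∀ f ∈ I, (PowerSeries.X : PowerSeries ℂ) ^ j ∣ aeval (dgP e D) f := by
    intro j
    constructor
    · intro h1
      have h2 := dvd_actS e I hI _ j h1 g' h'
      rw [hpt2] at h2
      exact h2
    · intro h1
      have h2 := dvd_actS e I hI (fun a => (σ a).dgI (D a)) j h1 g h
      rw [hpt1] at h2
      exact h2
  have key2 : ∀ j ≤ k + 1, (∀ f ∈ I, (PowerSeries.X : PowerSeries ℂ) ^ j ∣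
      aeval (ptS e fun a => ser (jetPartS e γ a)) f) ↔
      ∀ w ∈ A, j ≤ ∑ c : (Σ a, Fin (σ a).rk),
        w c * (σ c.1).et (k + 1) (ser (jetPartS e γ c.1)) (c.2 + 1) := by
    intro j hj
    rw [key1 j, dvd_dgP_iff e hσ I hI A hA D hD j]
    refine forall₂_congr fun w _ => ?_
    refine E7_dvd D w (k + 1)
      (fun c => (σ c.1).et (k + 1) (ser (jetPartS e γ c.1)) (c.2 + 1)) ?_ j hj
    intro c j
    exact le_etS_smith (σ c.1) (hσ c.1) _ (D c.1) (hD c.1) _ _ _ _ (hY c.1) (hY' c.1)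
      (k + 1) j (c.2 + 1) c.2.2
  have h0 : (∀ i, γ (i, 0) = 0) ↔
      ∀ a, (σ a).et (k + 1) (ser (jetPartS e γ a)) 1 ≠ 0 := by
    have h1 : ∀ a, (σ a).et (k + 1) (ser (jetPartS e γ a)) 1 ≠ 0 ↔
        ∀ p, γ (e ⟨a, p⟩, 0) = 0 := fun a =>
      etS_one_ne_zero_iff (σ a) (Nat.succ_pos k) (jetPartS e γ a)
    constructor
    · intro h a
      rw [h1]
      exact fun p => h _
    · intro h i
      obtain ⟨⟨a, p⟩, rfl⟩ := e.surjective i
      exact (h1 a).1 (h a) p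
  have h3 : (∀ w ∈ A, k ≤ ∑ c : (Σ a, Fin (σ a).rk),
          w c * (σ c.1).et (k + 1) (ser (jetPartS e γ c.1)) (c.2 + 1)) ∧
      (¬ ∀ w ∈ A, k + 1 ≤ ∑ c : (Σ a, Fin (σ a).rk),
          w c * (σ c.1).et (k + 1) (ser (jetPartS e γ c.1)) (c.2 + 1)) ↔
      sInf {j | ∃ w ∈ A, ∑ c : (Σ a, Fin (σ a).rk),
          w c * (σ c.1).et (k + 1) (ser (jetPartS e γ c.1)) (c.2 + 1) = j} = k := by
    obtain ⟨w₀, hw₀⟩ := hA.1
    have hne : {j | ∃ w ∈ A, ∑ c : (Σ a, Fin (σ a).rk),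
          w c * (σ c.1).et (k + 1) (ser (jetPartS e γ c.1)) (c.2 + 1) = j}.Nonempty :=
      ⟨_, w₀, hw₀, rfl⟩
    constructor
    · rintro ⟨h4, h5⟩
      push Not at h5
      obtain ⟨w, hw, hlt⟩ := h5
      apply le_antisymm
      · exact le_trans (Nat.sInf_le (⟨w, hw, rfl⟩)) (Nat.lt_succ_iff.mp hlt)
      · refine le_csInf hne ?_
        rintro _ ⟨w', hw', rfl⟩
        exact h4 w' hw'
    · intro h4
      have h5 := Nat.sInf_mem hne
      rw [h4] at h5
      refine ⟨fun w hw => ?_, fun h6 => ?_⟩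
      · exact h4.ge.trans (Nat.sInf_le ⟨w, hw, rfl⟩)
      · obtain ⟨w, hw, h7⟩ := h5
        have h8 := h6 w hw
        omega
  rw [ol_iffS e I k γ, h0, key2 k (Nat.le_succ k), key2 (k + 1) le_rfl, h3]

end MotMono
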