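import Pool.Agent.Lib.MP_4e5fcd_ag.Cl.Base

/-!
# Stable ideals on spaces of generic, symmetric and skew-symmetric matrices: definitions
-/

open MvPolynomial

namespace MotMono

variable {s N : ℕ} {σ : Fin s → Shp}

/-- the restriction of `f` to the points in normal form -/
noncomputable def dgR (σ : Fin s → Shp) (e : (Σ a, (σ a).Idx) ≃ Fin N)
    (f : MvPolynomial (Fin N) ℂ) : MvPolynomial (Σ a, Fin (σ a).rk) ℂ :=
  aeval (dgP e fun a i =>
    if h : i < (σ a).rk then (X ⟨a, ⟨i, h⟩⟩ : MvPolynomial (Σ a, Fin (σ a).rk) ℂ) else 0) f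

/-- the exponents are weakly decreasing -/
def DomS (β : (Σ a, Fin (σ a).rk) → ℕ) : Prop :=
  ∀ a (i k : Fin (σ a).rk), i ≤ k → β ⟨a, k⟩ ≤ β ⟨a, i⟩

/-- the finite set `A` describes the minimal dominant exponents of `I` -/
def Gens (σ : Fin s → Shp) (e : (Σ a, (σ a).Idx) ≃ Fin N) (I : Ideal (MvPolynomial (Fin N) ℂ))
    (A : Finset ((Σ a, Fin (σ a).rk) → ℕ)) : Prop :=
  A.Nonempty ∧ (∀ w ∈ A, wtS w ∈ ExS σ e I) ∧
    ∀ β ∈ ExS σ e I, DomS β → ∃ w ∈ A, ∀ c, wtS w c ≤ β c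

end MotMono
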