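import Pool.Agent.Lib.MP_4e5fcd_ag.Cl.Base

/-! # CL-K0: elementary facts on shapes -/

open MvPolynomial

namespace MotMono

namespace Shp

private theorem K0_lt (n : ℕ) : Nat.card {p : Fin n × Fin n // p.1 < p.2} = n * (n - 1) / 2 := by
  rw [Nat.card_eq_fintype_card, Fintype.card_subtype, Finset.card_filter,
    Fintype.sum_prod_type_right]
  have h1 : ∀ y : Fin n, (∑ x : Fin n, if x < y then 1 else 0) = (y : ℕ) := by
    intro y
    rw [← Finset.card_filter]
    have h2 : (Finset.univ.filter fun x : Fin n => x < y) = Finset.Iio y := by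
      ext x
      simp
    rw [h2, Fin.card_Iio]
  simp only [h1]
  rw [Fin.sum_univ_eq_sum_range (fun i => i) n, Finset.sum_range_id]

private theorem K0_le (n : ℕ) : Nat.card {p : Fin n × Fin n // p.1 ≤ p.2} =
    n * (n - 1) / 2 + n := by
  rw [Nat.card_eq_fintype_card, Fintype.card_subtype, Finset.card_filter,
    Fintype.sum_prod_type_right]
  have h1 : ∀ y : Fin n, (∑ x : Fin n, if x ≤ y then 1 else 0) = (y : ℕ) + 1 := by
    intro y
    rw [← Finset.card_filter]
    have h2 : (Finset.univ.filter fun x : Fin n => x ≤ y) = Finset.Iic y := by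
      ext x
      simp
    rw [h2, Fin.card_Iic]
  simp only [h1]
  rw [Finset.sum_add_distrib, Fin.sum_univ_eq_sum_range (fun i => i) n, Finset.sum_range_id]
  simp

private theorem K0_alt {R : Type} [CommRing R] {n : ℕ} (g A : Matrix (Fin n) (Fin n) R)
    (hA : ∀ a b, A b a = -A a b) (hA0 : ∀ a, A a a = 0) (i : Fin n) :
    (g * A * g.transpose) i i = 0 := by
  have h1 : (g * A * g.transpose) i i = ∑ p : Fin n × Fin n, g i p.2 * A p.2 p.1 * g i p.1 := by
    rw [Matrix.mul_apply, Fintype.sum_prod_type]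
    refine Finset.sum_congr rfl fun a _ => ?_
    rw [Matrix.mul_apply, Finset.sum_mul]
    rfl
  rw [h1]
  refine Finset.sum_involution (fun p _ => p.swap) ?_ ?_ ?_ ?_
  · rintro ⟨a, b⟩ _
    show g i b * A b a * g i a + g i a * A a b * g i b = 0
    rw [hA a b]
    ring
  · rintro ⟨a, b⟩ _ hne heq
    apply hne
    have h2 : b = a := congrArg Prod.fst heq
    show g i b * A b a * g i a = 0
    rw [h2, hA0, mul_zero, zero_mul]
  · rintro ⟨a, b⟩ _
    exact Finset.mem_univ _
  · rintro ⟨a, b⟩ _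
    rfl

theorem rk_res (σ : Shp) (ρ : ℕ) : (σ.res ρ).rk = σ.rk - ρ := by
  cases σ with
  | gen m n => rfl
  | eps κ n =>
    cases κ
    · simp only [res, rk, Bool.false_eq_true, if_false]
      omega
    · simp only [res, rk, if_true]
      omega

theorem res_res (σ : Shp) (i j : ℕ) : (σ.res i).res j = σ.res (i + j) := by
  cases σ with
  | gen m n =>
    simp only [res, Nat.sub_sub]
  | eps κ n =>
    simp only [res, Nat.sub_sub, mul_add]

theorem res_zero (σ : Shp) : σ.res 0 = σ := by
  cases σ with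
  | gen m n => rfl
  | eps κ n =>
    simp only [res, mul_zero, Nat.sub_zero]

theorem st_res (σ : Shp) (ρ : ℕ) : (σ.res ρ).st = σ.st := by
  cases σ <;> rfl

theorem le_res (σ : Shp) (hσ : σ.Le) (ρ : ℕ) : (σ.res ρ).Le := by
  cases σ with
  | gen m n =>
    have h : m ≤ n := hσ
    show m - ρ ≤ n - ρ
    omega
  | eps κ n => trivial

theorem dim_res_pos (σ : Shp) (hσ : σ.Le) (i : ℕ) (hi : i < σ.rk) : 0 < (σ.res i).dim := by
  cases σ with
  | gen m n =>
    have h : m ≤ n := hσ
    have h2 : i < m := hi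
    show 0 < (m - i) * (n - i)
    exact Nat.mul_pos (by omega) (by omega)
  | eps κ n =>
    cases κ
    · have h2 : i < n / 2 := hi
      show 0 < (n - 2 * i) * (n - 2 * i - 1) / 2 + 0
      have h3 : 2 ≤ n - 2 * i := by omega
      obtain ⟨k, hk⟩ : ∃ k, n - 2 * i = k + 2 := ⟨n - 2 * i - 2, by omega⟩
      rw [hk]
      have h4 : 2 ≤ (k + 2) * (k + 2 - 1) := by
        have h5 : k + 2 - 1 = k + 1 := by omega
        rw [h5]
        nlinarith
      omega
    · have h2 : i < n / 1 := hi
      rw [Nat.div_one] at h2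
      show 0 < (n - 1 * i) * (n - 1 * i - 1) / 2 + (n - 1 * i)
      omega

theorem dim_res_le (σ : Shp) (ρ : ℕ) : (σ.res ρ).dim ≤ σ.dim := by
  cases σ with
  | gen m n =>
    show (m - ρ) * (n - ρ) ≤ m * n
    exact Nat.mul_le_mul (Nat.sub_le _ _) (Nat.sub_le _ _)
  | eps κ n =>
    have h1 : ∀ a b : ℕ, a ≤ b → a * (a - 1) / 2 ≤ b * (b - 1) / 2 := fun a b hab =>
      Nat.div_le_div_right (Nat.mul_le_mul hab (by omega))
    cases κ
    · show (n - 2 * ρ) * (n - 2 * ρ - 1) / 2 + 0 ≤ n * (n - 1) / 2 + 0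
      have := h1 (n - 2 * ρ) n (Nat.sub_le _ _)
      omega
    · show (n - 1 * ρ) * (n - 1 * ρ - 1) / 2 + (n - 1 * ρ) ≤ n * (n - 1) / 2 + n
      have := h1 (n - 1 * ρ) n (Nat.sub_le _ _)
      omega

theorem card_Idx (σ : Shp) : Nat.card σ.Idx = σ.dim := by
  cases σ with
  | gen m n =>
    show Nat.card (Fin m × Fin n) = m * n
    rw [Nat.card_prod, Nat.card_eq_fintype_card, Nat.card_eq_fintype_card, Fintype.card_fin,
      Fintype.card_fin]
  | eps κ n =>
    cases κ
    · show Nat.card {p : Fin n × Fin n // p.1 < p.2 ∨ false = true ∧ p.1 = p.2} = n * (n - 1) / 2 + 0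
      have h1 : Nat.card {p : Fin n × Fin n // p.1 < p.2 ∨ false = true ∧ p.1 = p.2} =
          Nat.card {p : Fin n × Fin n // p.1 < p.2} :=
        Nat.card_congr (Equiv.subtypeEquivRight fun p => by simp)
      rw [h1, K0_lt, add_zero]
    · show Nat.card {p : Fin n × Fin n // p.1 < p.2 ∨ true = true ∧ p.1 = p.2} = n * (n - 1) / 2 + n
      have h1 : Nat.card {p : Fin n × Fin n // p.1 < p.2 ∨ true = true ∧ p.1 = p.2} =
          Nat.card {p : Fin n × Fin n // p.1 ≤ p.2} :=
        Nat.card_congr (Equiv.subtypeEquivRight fun p => by simp [le_iff_lt_or_eq])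
      rw [h1, K0_le]

theorem st_pos (σ : Shp) : 0 < σ.st := by
  cases σ with
  | gen m n => exact Nat.one_pos
  | eps κ n =>
    cases κ
    · exact Nat.two_pos
    · exact Nat.one_pos

theorem st_mul_rk_le_row (σ : Shp) : σ.st * σ.rk ≤ σ.row := by
  cases σ with
  | gen m n => exact (one_mul m).le
  | eps κ n => exact Nat.mul_div_le n _

theorem st_mul_rk_le_col (σ : Shp) (hσ : σ.Le) : σ.st * σ.rk ≤ σ.col := by
  cases σ with
  | gen m n =>
    have h : m ≤ n := hσ
    show 1 * m ≤ n
    omega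
  | eps κ n => exact Nat.mul_div_le n _

variable {R : Type} [CommRing R]

theorem ent_mat (σ : Shp) (x : σ.Idx → R) : σ.ent (σ.mat x) = x := by
  cases σ with
  | gen m n => rfl
  | eps κ n =>
    funext p
    obtain ⟨⟨i, k⟩, h⟩ := p
    rcases h with h | ⟨hκ, h⟩
    · exact dif_pos h
    · have h' : i = k := h
      subst h'
      show (if h : i < i then _ else if h' : i < i then _ else if hκ : κ = true then
        x ⟨(i, i), _⟩ else 0) = _
      rw [dif_neg (lt_irrefl i), dif_neg (lt_irrefl i), dif_pos hκ]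

/-- a (skew-)symmetric matrix is determined by its independent entries -/
theorem mat_ent (κ : Bool) (n : ℕ) (M : Matrix (Fin n) (Fin n) R)
    (hM : M.transpose = (if κ = true then (1 : R) else -1) • M) (hd : κ = false → ∀ i, M i i = 0) :
    (eps κ n).mat ((eps κ n).ent M) = M := by
  ext i k
  show (if h : i < k then M i k else if h' : k < i then (if κ = true then (1 : R) else -1) * M k i
    else if hκ : κ = true then M i k else 0) = M i k
  have h1 : M k i = (if κ = true then (1 : R) else -1) * M i k := by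
    have h2 := congrFun (congrFun hM i) k
    rw [Matrix.transpose_apply, Matrix.smul_apply, smul_eq_mul] at h2
    exact h2
  split_ifs with a1 a2 a3 a4
  · rfl
  · rw [if_pos a3] at h1
    rw [h1, one_mul, one_mul]
  · rw [if_neg a3] at h1
    rw [h1]
    ring
  · rfl
  · have h3 : i = k := le_antisymm (not_lt.1 a2) (not_lt.1 a1)
    rw [← h3]
    exact (hd (by simpa using a4) i).symm

theorem mat_transpose (κ : Bool) (n : ℕ) (x : (eps κ n).Idx → R) :
    ((eps κ n).mat x).transpose = (if κ = true then (1 : R) else -1) • (eps κ n).mat x := by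
  ext i k
  rw [Matrix.transpose_apply, Matrix.smul_apply, smul_eq_mul]
  show (if h : k < i then x ⟨(k, i), Or.inl h⟩
      else if h' : i < k then (if κ = true then 1 else -1) * x ⟨(i, k), Or.inl h'⟩
      else if hκ : κ = true then x ⟨(k, i), Or.inr ⟨hκ, le_antisymm (not_lt.1 h') (not_lt.1 h)⟩⟩
      else 0) = (if κ = true then (1 : R) else -1) * (if h : i < k then x ⟨(i, k), Or.inl h⟩
      else if h' : k < i then (if κ = true then 1 else -1) * x ⟨(k, i), Or.inl h'⟩
      else if hκ : κ = true then x ⟨(i, k), Or.inr ⟨hκ, le_antisymm (not_lt.1 h') (not_lt.1 h)⟩⟩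
      else 0)
  rcases lt_trichotomy i k with h | h | h
  · rw [dif_neg (not_lt.2 h.le), dif_pos h, dif_pos h]
  · subst h
    rw [dif_neg (lt_irrefl i), dif_neg (lt_irrefl i)]
    by_cases hκ : κ = true
    · rw [dif_pos hκ, if_pos hκ, one_mul]
    · rw [dif_neg hκ, mul_zero]
  · rw [dif_pos h, dif_neg (not_lt.2 h.le), dif_pos h]
    by_cases hκ : κ = true
    · rw [if_pos hκ, one_mul, one_mul]
    · rw [if_neg hκ]
      ring

theorem mat_diag (n : ℕ) (x : (eps false n).Idx → R) (i : Fin n) :
    (eps false n).mat x i i = 0 := by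
  show (if h : i < i then x ⟨(i, i), Or.inl h⟩
      else if h' : i < i then (if false = true then 1 else -1) * x ⟨(i, i), Or.inl h'⟩
      else if hκ : false = true then x ⟨(i, i), Or.inr ⟨hκ, le_antisymm (not_lt.1 h') (not_lt.1 h)⟩⟩
      else 0) = 0
  rw [dif_neg (lt_irrefl i), dif_neg (lt_irrefl i), dif_neg (by simp)]

theorem mat_actI (σ : Shp) (g : Matrix (Fin σ.row) (Fin σ.row) R)
    (h : Matrix (Fin σ.col) (Fin σ.col) R) (x : σ.Idx → R) :
    σ.mat (σ.actI g h x) = σ.act g h (σ.mat x) := by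
  cases σ with
  | gen m n => rfl
  | eps κ n =>
    show (eps κ n).mat ((eps κ n).ent (g * (eps κ n).mat x * g.transpose)) =
      g * (eps κ n).mat x * g.transpose
    apply mat_ent
    · rw [Matrix.transpose_mul, Matrix.transpose_mul, Matrix.transpose_transpose, mat_transpose,
        Matrix.smul_mul, Matrix.mul_smul, Matrix.mul_assoc]
    · intro hκ i
      subst hκ
      exact K0_alt g _ (fun a b => by
        have h := congrFun (congrFun (mat_transpose (R := R) false n x) a) b
        rw [Matrix.transpose_apply, Matrix.smul_apply, smul_eq_mul, if_neg (by simp)] at h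
        rw [h]
        ring) (fun a => mat_diag n x a) i

theorem act_act (σ : Shp) (g g' : Matrix (Fin σ.row) (Fin σ.row) R)
    (h h' : Matrix (Fin σ.col) (Fin σ.col) R) (M : Matrix (Fin σ.row) (Fin σ.col) R) :
    σ.act g h (σ.act g' h' M) = σ.act (g * g') (h' * h) M := by
  cases σ with
  | gen m n =>
    show g * (g' * M * h') * h = g * g' * M * (h' * h)
    simp only [Matrix.mul_assoc]
  | eps κ n =>
    show g * (g' * M * g'.transpose) * g.transpose = g * g' * M * (g * g').transpose
    rw [Matrix.transpose_mul]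
    simp only [Matrix.mul_assoc]

theorem act_one (σ : Shp) (M : Matrix (Fin σ.row) (Fin σ.col) R) : σ.act 1 1 M = M := by
  cases σ with
  | gen m n =>
    show (1 : Matrix (Fin m) (Fin m) R) * M * 1 = M
    rw [Matrix.one_mul, Matrix.mul_one]
  | eps κ n =>
    show (1 : Matrix (Fin n) (Fin n) R) * M * (1 : Matrix (Fin n) (Fin n) R).transpose = M
    rw [Matrix.transpose_one, Matrix.one_mul, Matrix.mul_one]

theorem actI_actI (σ : Shp) (g g' : Matrix (Fin σ.row) (Fin σ.row) R)
    (h h' : Matrix (Fin σ.col) (Fin σ.col) R) (x : σ.Idx → R) :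
    σ.actI g h (σ.actI g' h' x) = σ.actI (g * g') (h' * h) x := by
  show σ.ent (σ.act g h (σ.mat (σ.actI g' h' x))) = σ.ent (σ.act (g * g') (h' * h) (σ.mat x))
  rw [mat_actI, act_act]

theorem actI_one (σ : Shp) (x : σ.Idx → R) : σ.actI 1 1 x = x := by
  show σ.ent (σ.act 1 1 (σ.mat x)) = x
  rw [act_one, ent_mat]

/-- compatibility with ring homomorphisms -/
theorem mat_map {S : Type} [CommRing S] (σ : Shp) (φ : R →+* S) (x : σ.Idx → R) :
    σ.mat (fun p => φ (x p)) = (σ.mat x).map φ := by
  cases σ with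
  | gen m n => rfl
  | eps κ n =>
    ext i k
    rw [Matrix.map_apply]
    show (if h : i < k then φ (x ⟨(i, k), Or.inl h⟩)
      else if h' : k < i then (if κ = true then 1 else -1) * φ (x ⟨(k, i), Or.inl h'⟩)
      else if hκ : κ = true then φ (x ⟨(i, k), Or.inr ⟨hκ, le_antisymm (not_lt.1 h') (not_lt.1 h)⟩⟩)
      else 0) = φ (if h : i < k then x ⟨(i, k), Or.inl h⟩
      else if h' : k < i then (if κ = true then 1 else -1) * x ⟨(k, i), Or.inl h'⟩
      else if hκ : κ = true then x ⟨(i, k), Or.inr ⟨hκ, le_antisymm (not_lt.1 h') (not_lt.1 h)⟩⟩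
      else 0)
    split_ifs
    · rfl
    · rw [one_mul, one_mul]
    · rw [map_mul, map_neg, map_one]
    · rfl
    · rw [map_zero]

theorem actI_map {S : Type} [CommRing S] (σ : Shp) (φ : R →+* S)
    (g : Matrix (Fin σ.row) (Fin σ.row) R) (h : Matrix (Fin σ.col) (Fin σ.col) R)
    (x : σ.Idx → R) (p : σ.Idx) :
    σ.actI (g.map φ) (h.map φ) (fun p => φ (x p)) p = φ (σ.actI g h x p) := by
  have h1 : ∀ M : Matrix (Fin σ.row) (Fin σ.col) R,
      σ.act (g.map φ) (h.map φ) (M.map φ) = (σ.act g h M).map φ := by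
    intro M
    cases σ with
    | gen m n =>
      show g.map φ * M.map φ * h.map φ = (g * M * h).map φ
      rw [Matrix.map_mul, Matrix.map_mul]
    | eps κ n =>
      show g.map φ * M.map φ * (g.map φ).transpose = (g * M * g.transpose).map φ
      rw [Matrix.map_mul, Matrix.map_mul, Matrix.transpose_map]
  show (σ.act (g.map φ) (h.map φ) (σ.mat fun p => φ (x p))) (σ.pr p) (σ.pc p) =
    φ ((σ.act g h (σ.mat x)) (σ.pr p) (σ.pc p))
  rw [mat_map, h1, Matrix.map_apply]

theorem dgI_map {S : Type} [CommRing S] (σ : Shp) (φ : R →+* S) (D : ℕ → R) (p : σ.Idx) :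
    σ.dgI (fun i => φ (D i)) p = φ (σ.dgI D p) := by
  unfold dgI
  split_ifs
  · rfl
  · rw [map_zero]

/-- diagonal matrices scale the entries (`ra = ca` for (skew-)symmetric matrices) -/
theorem actI_diagonal (σ : Shp) (ra ca : ℕ → R) (hrc : ∀ κ n, σ = eps κ n → ra = ca)
    (x : σ.Idx → R) (p : σ.Idx) :
    σ.actI (Matrix.diagonal fun i : Fin σ.row => ra i) (Matrix.diagonal fun k : Fin σ.col => ca k)
      x p = ra (σ.pr p) * ca (σ.pc p) * x p := by
  have hx := congrFun (σ.ent_mat x) p
  cases σ with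
  | gen m n =>
    show (Matrix.diagonal (fun i : Fin m => ra i) * (gen m n).mat x *
      Matrix.diagonal (fun k : Fin n => ca k)) ((gen m n).pr p) ((gen m n).pc p) = _
    rw [Matrix.mul_diagonal, Matrix.diagonal_mul]
    have hx' : (gen m n).mat x ((gen m n).pr p) ((gen m n).pc p) = x p := hx
    rw [hx']
    ring
  | eps κ n =>
    have h := hrc κ n rfl
    subst h
    show (Matrix.diagonal (fun i : Fin n => ra i) * (eps κ n).mat x *
      (Matrix.diagonal (fun i : Fin n => ra i)).transpose) ((eps κ n).pr p) ((eps κ n).pc p) = _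
    rw [Matrix.diagonal_transpose, Matrix.mul_diagonal, Matrix.diagonal_mul]
    have hx' : (eps κ n).mat x ((eps κ n).pr p) ((eps κ n).pc p) = x p := hx
    rw [hx']
    ring

end Shp

private theorem K0_fg (L : ℕ) (P Q : ℕ → Prop) [DecidablePred P] [DecidablePred Q] (h : P = Q) :
    Nat.findGreatest P L = Nat.findGreatest Q L := by
  subst h
  congr

open Classical in
private theorem K0_etm {ι κ : Type} (L : ℕ) (M : Matrix ι κ (PowerSeries ℂ)) (r : ℕ) :
    etm 1 L M r = et L M r := by
  unfold etm et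
  refine K0_fg L _ _ ?_
  funext j
  rw [one_mul, one_mul]

theorem SPS_gen (m n L : ℕ) (Φ : (ℕ → ℕ) → Prop) : SPS (Shp.gen m n) L Φ = SP m n L Φ := by
  have h : ∀ γ : (Fin m × Fin n) × Fin L → ℂ, (Shp.gen m n).et L (ser γ) = et L (mser γ) := by
    intro γ
    funext r
    exact K0_etm L (mser γ) r
  ext γ
  show Φ ((Shp.gen m n).et L (ser γ)) ↔ Φ (et L (mser γ))
  rw [h γ]

theorem rankS_gen (m n ρ : ℕ) : (Shp.gen m n).RankS ρ = RankSet m n ρ := by
  have h : (Shp.gen m n).st * ρ = ρ := one_mul ρ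
  unfold Shp.RankS
  rw [h]
  rfl

end MotMono
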