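import Pool.Agent.Lib.MP_4e5fcd_ag.Cl.K0
import Pool.Agent.Lib.MP_4e5fcd_ag.Det.C3b

/-! # CL-K1: principal minors of symmetric and skew-symmetric matrices

PROOF. `exists_principal`: let `(S, T)` be a nonvanishing `r`-minor of `M`; all `(r + 1)`-minors
vanish, so the Schur complement of the block `(S, T)` vanishes (`schur_zero` of `Det/C3.lean` after
reindexing by `exists_extend`; `S`, `T` are injective), that is
`M i k = ∑ p q, M i (T p) * (A⁻¹) p q * M (S q) k` for ALL `i`, `k`, where `A = M.submatrix S T`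
(for `i` in the range of `S` or `k` in the range of `T` this is trivial). So every `r`-minor factors:
`minor (S', T') = det (M (S' i) (T p)) * (det A)⁻¹ * det (M (S q) (T' k))`, hence
`minor (S, S) * minor (T, T) = minor (S, T) * minor (T, S)` and `minor (T, S) = ± minor (S, T) ≠ 0`
by (skew-)symmetry, so `minor (S, S) ≠ 0`.
`even_of_skew`: the determinant of a skew-symmetric matrix of odd size vanishes
(`det Mᵀ = (-1) ^ r det M`), apply it to the principal minor.
`exists_unique_rankS`: as `exists_unique_rankSet` in `Det/C3b.lean` (largest nonvanishing size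
`r ≤ row`); for skew-symmetric matrices the size is even by `even_of_skew`. -/

open MvPolynomial

namespace MotMono

/-- the Schur complement formula for the entries of a matrix all of whose `(r + 1)`-minors vanish -/
private theorem K1_schur (n r : ℕ) (M : Matrix (Fin n) (Fin n) ℂ) (S T : Fin r → Fin n)
    (hA : (M.submatrix S T).det ≠ 0)
    (h2 : ∀ (S : Fin (r + 1) → Fin n) (T : Fin (r + 1) → Fin n), (M.submatrix S T).det = 0)
    (i k : Fin n) :
    M i k = (M.submatrix (fun _ : Fin 1 => i) T * (M.submatrix S T)⁻¹ *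
      M.submatrix S (fun _ : Fin 1 => k)) 0 0 := by
  classical
  have hu : IsUnit (M.submatrix S T).det := isUnit_iff_ne_zero.2 hA
  letI : Invertible (M.submatrix S T) := Matrix.invertibleOfIsUnitDet _ hu
  have h1 := h2 (fun x => Sum.elim S (fun _ : Fin 1 => i) (finSumFinEquiv.symm x))
    (fun x => Sum.elim T (fun _ : Fin 1 => k) (finSumFinEquiv.symm x))
  have h3 : M.submatrix (fun x => Sum.elim S (fun _ : Fin 1 => i) (finSumFinEquiv.symm x))
      (fun x => Sum.elim T (fun _ : Fin 1 => k) (finSumFinEquiv.symm x)) =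
      (Matrix.fromBlocks (M.submatrix S T) (M.submatrix S (fun _ : Fin 1 => k))
        (M.submatrix (fun _ : Fin 1 => i) T)
        (M.submatrix (fun _ : Fin 1 => i) fun _ : Fin 1 => k)).submatrix
        finSumFinEquiv.symm finSumFinEquiv.symm := by
    ext1 a b
    rw [Matrix.submatrix_apply, Matrix.submatrix_apply]
    rcases finSumFinEquiv.symm a with x | x <;> rcases finSumFinEquiv.symm b with y | y <;> rfl
  rw [h3, Matrix.det_submatrix_equiv_self, Matrix.det_fromBlocks₁₁] at h1
  have h4 := (mul_eq_zero.1 h1).resolve_left hA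
  rw [Matrix.det_fin_one, Matrix.invOf_eq_nonsing_inv, Matrix.sub_apply] at h4
  exact sub_eq_zero.1 h4

private theorem K1_factor (n r : ℕ) (M : Matrix (Fin n) (Fin n) ℂ) (S T : Fin r → Fin n)
    (hA : (M.submatrix S T).det ≠ 0)
    (h2 : ∀ (S : Fin (r + 1) → Fin n) (T : Fin (r + 1) → Fin n), (M.submatrix S T).det = 0)
    (S' T' : Fin r → Fin n) :
    M.submatrix S' T' = M.submatrix S' T * (M.submatrix S T)⁻¹ * M.submatrix S T' := by
  ext a b
  have h := K1_schur n r M S T hA h2 (S' a) (T' b)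
  rw [Matrix.submatrix_apply, h]
  simp only [Matrix.mul_apply, Matrix.submatrix_apply]

theorem exists_principal (κ : Bool) (n r : ℕ) (M : Matrix (Fin n) (Fin n) ℂ)
    (hM : M.transpose = (if κ = true then (1 : ℂ) else -1) • M)
    (h1 : ∃ (S : Fin r → Fin n) (T : Fin r → Fin n), (M.submatrix S T).det ≠ 0)
    (h2 : ∀ (S : Fin (r + 1) → Fin n) (T : Fin (r + 1) → Fin n), (M.submatrix S T).det = 0) :
    ∃ S : Fin r → Fin n, Function.Injective S ∧ (M.submatrix S S).det ≠ 0 := by
  obtain ⟨S, T, hA⟩ := h1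
  have hf := K1_factor n r M S T hA h2 T S
  have hTS : (M.submatrix T S).det ≠ 0 := by
    have e : M.submatrix T S = (M.transpose.submatrix S T).transpose := by
      ext a b; rfl
    rw [e, Matrix.det_transpose, hM]
    have e2 : ((if κ = true then (1 : ℂ) else -1) • M).submatrix S T
        = (if κ = true then (1 : ℂ) else -1) • M.submatrix S T := by
      ext a b; rfl
    rw [e2, Matrix.det_smul]
    refine mul_ne_zero (pow_ne_zero _ ?_) hA
    split_ifs <;> simp
  have hSS : (M.submatrix S S).det ≠ 0 := by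
    intro h0
    apply hTS
    rw [hf, Matrix.det_mul, h0, mul_zero]
  refine ⟨S, ?_, hSS⟩
  intro a b hab
  by_contra hne
  exact hSS (Matrix.det_zero_of_row_eq hne (by funext c; simp [hab]))

theorem even_of_skew (n r : ℕ) (M : Matrix (Fin n) (Fin n) ℂ) (hM : M.transpose = -M)
    (S : Fin r → Fin n) (h : (M.submatrix S S).det ≠ 0) : Even r := by
  by_contra hr
  rw [Nat.not_even_iff_odd] at hr
  have e : (M.submatrix S S).transpose = -(M.submatrix S S) := by
    rw [Matrix.transpose_submatrix, hM]; rfl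
  have h1 : (M.submatrix S S).det = -(M.submatrix S S).det := by
    conv_lhs => rw [← Matrix.det_transpose, e, Matrix.det_neg, Fintype.card_fin, hr.neg_one_pow]
    ring
  apply h
  linear_combination (1 / 2 : ℂ) * h1

private theorem K1_eps (κ : Bool) (n : ℕ) (x : (Shp.eps κ n).Idx → ℂ) :
    ∃! ρ, ρ ≤ (Shp.eps κ n).rk ∧ x ∈ (Shp.eps κ n).RankS ρ := by
  set M : Matrix (Fin n) (Fin n) ℂ := (Shp.eps κ n).mat x with hMdef
  have hM : M.transpose = (if κ = true then (1 : ℂ) else -1) • M := Shp.mat_transpose κ n x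
  set A : Fin n × Fin n → ℂ := fun c => M c.1 c.2 with hAdef
  have key : ∀ ρ, x ∈ (Shp.eps κ n).RankS ρ ↔ A ∈ RankSet n n ((Shp.eps κ n).st * ρ) :=
    fun ρ => Iff.rfl
  obtain ⟨r, ⟨hrn, hr⟩, hun⟩ := exists_unique_rankSet n n A
  have hst : 0 < (Shp.eps κ n).st := Shp.st_pos _
  have hrk : (Shp.eps κ n).rk = n / (Shp.eps κ n).st := by cases κ <;> rfl
  -- the rank is a multiple of `st`
  have hdvd : ∃ ρ, r = (Shp.eps κ n).st * ρ := by
    cases κ with
    | true => exact ⟨r, by show r = 1 * r; omega⟩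
    | false =>
      obtain ⟨S, -, hS⟩ := exists_principal false n r M hM hr.1 hr.2
      have hneg : M.transpose = -M := by rw [hM]; simp
      obtain ⟨k, hk⟩ := even_of_skew n r M hneg S hS
      exact ⟨k, by show r = 2 * k; omega⟩
  obtain ⟨ρ, hρ⟩ := hdvd
  refine ⟨ρ, ⟨?_, ?_⟩, ?_⟩
  · rw [hrk, Nat.le_div_iff_mul_le hst, Nat.mul_comm, ← hρ]
    exact hrn
  · rw [key, ← hρ]
    exact hr
  · rintro ρ' ⟨h1, h3⟩
    rw [key] at h3
    rw [hrk, Nat.le_div_iff_mul_le hst, Nat.mul_comm] at h1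
    have h4 := hun _ ⟨h1, h3⟩
    rw [hρ] at h4
    exact Nat.eq_of_mul_eq_mul_left hst h4

theorem exists_unique_rankS (σ : Shp) (hσ : σ.Le) (x : σ.Idx → ℂ) :
    ∃! ρ, ρ ≤ σ.rk ∧ x ∈ σ.RankS ρ := by
  cases σ with
  | gen m n =>
    have h := exists_unique_rankSet m n x
    have e : ∀ ρ, x ∈ (Shp.gen m n).RankS ρ ↔ x ∈ RankSet m n ρ := fun ρ => by
      rw [rankS_gen]; rfl
    obtain ⟨ρ, ⟨h1, h2⟩, h3⟩ := h
    exact ⟨ρ, ⟨h1, (e ρ).2 h2⟩, fun ρ' h' => h3 ρ' ⟨h'.1, (e ρ').1 h'.2⟩⟩
  | eps κ n => exact K1_eps κ n x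

end MotMono
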