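import Pool.Agent.Lib.MP_4e5fcd_ag.Cl.K1
import Pool.Agent.Lib.MP_4e5fcd_ag.Det.C2

/-! # CL-K2: elimination of a pivot block and the vector of orders

PROOF. `etm_block`: for `r ≤ ρ` both sides are `0` (`dv_block_le`), for `r = ρ + k`, `k ≥ 1`:
`Dv (t j) (t r) M ⇔ Dv (t j) (t k) (X • D') ⇔ Dv (t (j - k)) (t k) D'` (`dv_block`, `dv_smul_X`;
compare `et_block` in `Det/A2.lean`, the case `t = 1`).
`etm_congr_mat` for `σ = gen m n` or `eps true n` (`t = 1`) is `et_congr`. For `eps false n` (`t = 2`):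
induction on `L` for all `n`: `L = 0` is trivial (both sides are `0`). `L + 1`: the constant terms of
the two matrices agree; by `exists_unique_rankS` and `exists_principal` there are `ρ` and an
injective `S : Fin (2 ρ) → Fin n` with a nonvanishing principal minor of the constant term, and the
Schur complements vanish at `t = 0` (`schur_zero`), so they are `X • D'`, `X • D''` with skew-symmetric
`D'`, `D''` which agree modulo `X ^ L`. Reindex (`exists_extend`, `etm_submatrix`; use the order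
preserving enumeration of the complement or any) and apply `etm_block` and the induction hypothesis
(`mat_ent` turns `D'`, `D''` into matrices of the form `mat`). -/

open MvPolynomial

namespace MotMono

variable {ι κ ι' κ' : Type}

theorem le_etm_iff (t L j r : ℕ) (M : Matrix ι κ (PowerSeries ℂ)) :
    j ≤ etm t L M r ↔ j ≤ L ∧ Dv (t * j) (t * r) M := by
  classical
  constructor
  · intro h
    have h1 : etm t L M r ≤ L := Nat.findGreatest_le L
    have h2 : Dv (t * etm t L M r) (t * r) M :=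
      Nat.findGreatest_spec (P := fun j => Dv (t * j) (t * r) M) (Nat.zero_le L)
        (by rw [Nat.mul_zero]; exact a2_zero _ M)
    exact ⟨h.trans h1, h2.mono (Nat.mul_le_mul_left t h)⟩
  · rintro ⟨h1, h2⟩
    exact Nat.le_findGreatest h1 h2

theorem etm_le (t L r : ℕ) (M : Matrix ι κ (PowerSeries ℂ)) : etm t L M r ≤ L := by
  classical
  exact Nat.findGreatest_le L

theorem etm_submatrix (t L : ℕ) (M : Matrix ι κ (PowerSeries ℂ)) (e : ι' ≃ ι) (f : κ' ≃ κ) :
    etm t L (M.submatrix e f) = etm t L M := by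
  funext r
  refine eq_of_forall_le_iff fun j => ?_
  rw [le_etm_iff, le_etm_iff, dv_submatrix]

private theorem K2_zero_right (t L : ℕ) (ht : 0 < t) (M : Matrix ι κ (PowerSeries ℂ)) :
    etm t L M 0 = 0 := by
  have h := ((le_etm_iff t L (etm t L M 0) 0 M).1 le_rfl).2
  rw [Nat.mul_zero, dv_zero] at h
  exact (Nat.mul_eq_zero.1 h).resolve_left ht.ne'

private theorem K2_sub {j r : ℕ} {M : Matrix ι κ (PowerSeries ℂ)} (h : Dv j r M) (f : ι' → ι)
    (g : κ' → κ) : Dv j r (M.submatrix f g) := fun S T => h (fun i => f (S i)) fun i => g (T i)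

private theorem K2_block_le {ρ : ℕ} (M : Matrix (Fin ρ ⊕ ι) (Fin ρ ⊕ κ) (PowerSeries ℂ))
    (hA : IsUnit M.toBlocks₁₁.det) (j r : ℕ) (hr : r ≤ ρ) : Dv j r M ↔ j = 0 := by
  constructor
  · intro h
    have h1 := K2_sub h (Sum.map (id : Fin ρ → Fin ρ) (fun x : Fin 0 => x.elim0))
      (Sum.map (id : Fin ρ → Fin ρ) (fun x : Fin 0 => x.elim0))
    exact (dv_block_le (M.submatrix (Sum.map (id : Fin ρ → Fin ρ) (fun x : Fin 0 => x.elim0))
      (Sum.map (id : Fin ρ → Fin ρ) (fun x : Fin 0 => x.elim0))) hA j r hr).1 h1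
  · rintro rfl
    exact a2_zero r M

private theorem K2_block {ρ : ℕ} (M : Matrix (Fin ρ ⊕ ι) (Fin ρ ⊕ κ) (PowerSeries ℂ))
    (hA : IsUnit M.toBlocks₁₁.det) (j r : ℕ) :
    Dv j (ρ + r) M ↔
      Dv j r (M.toBlocks₂₂ - M.toBlocks₂₁ * M.toBlocks₁₁⁻¹ * M.toBlocks₁₂) := by
  classical
  constructor
  · intro h S T
    have h1 := K2_sub h (Sum.map (id : Fin ρ → Fin ρ) S) (Sum.map (id : Fin ρ → Fin ρ) T)
    have h2 := (dv_block (M.submatrix (Sum.map (id : Fin ρ → Fin ρ) S)
      (Sum.map (id : Fin ρ → Fin ρ) T)) hA j r).1 h1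
    exact h2 id id
  · intro h S T
    have hf : Finite {i : ι // (Sum.inr i : Fin ρ ⊕ ι) ∈ Set.range S} := by
      have h1 : (Set.range S).Finite := Set.finite_range S
      exact (h1.preimage (Sum.inr_injective.injOn)).to_subtype
    have hg : Finite {i : κ // (Sum.inr i : Fin ρ ⊕ κ) ∈ Set.range T} := by
      have h1 : (Set.range T).Finite := Set.finite_range T
      exact (h1.preimage (Sum.inr_injective.injOn)).to_subtype
    let _ := Fintype.ofFinite {i : ι // (Sum.inr i : Fin ρ ⊕ ι) ∈ Set.range S}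
    let _ := Fintype.ofFinite {i : κ // (Sum.inr i : Fin ρ ⊕ κ) ∈ Set.range T}
    have hS : ∀ x, ∃ y : Fin ρ ⊕ {i : ι // (Sum.inr i : Fin ρ ⊕ ι) ∈ Set.range S},
        Sum.map (id : Fin ρ → Fin ρ) Subtype.val y = S x := by
      intro x
      rcases hx : S x with a | a
      · exact ⟨Sum.inl a, rfl⟩
      · exact ⟨Sum.inr ⟨a, x, hx⟩, rfl⟩
    have hT : ∀ x, ∃ y : Fin ρ ⊕ {i : κ // (Sum.inr i : Fin ρ ⊕ κ) ∈ Set.range T},
        Sum.map (id : Fin ρ → Fin ρ) Subtype.val y = T x := by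
      intro x
      rcases hx : T x with a | a
      · exact ⟨Sum.inl a, rfl⟩
      · exact ⟨Sum.inr ⟨a, x, hx⟩, rfl⟩
    choose S' hS' using hS
    choose T' hT' using hT
    have h1 := K2_sub h (Subtype.val : {i : ι // (Sum.inr i : Fin ρ ⊕ ι) ∈ Set.range S} → ι)
      (Subtype.val : {i : κ // (Sum.inr i : Fin ρ ⊕ κ) ∈ Set.range T} → κ)
    have h2 := (dv_block (M.submatrix
      (Sum.map (id : Fin ρ → Fin ρ) (Subtype.val : {i : ι // (Sum.inr i : Fin ρ ⊕ ι) ∈ Set.range S} → ι))
      (Sum.map (id : Fin ρ → Fin ρ) (Subtype.val : {i : κ // (Sum.inr i : Fin ρ ⊕ κ) ∈ Set.range T} → κ)))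
      hA j r).2 h1 S' T'
    rw [Matrix.submatrix_submatrix] at h2
    convert h2 using 3
    · funext x
      exact (hS' x).symm
    · funext x
      exact (hT' x).symm

theorem etm_block (t ρ : ℕ) (ht : 0 < t)
    (M : Matrix (Fin (t * ρ) ⊕ ι) (Fin (t * ρ) ⊕ κ) (PowerSeries ℂ))
    (hA : IsUnit M.toBlocks₁₁.det) (D' : Matrix ι κ (PowerSeries ℂ))
    (hD : M.toBlocks₂₂ - M.toBlocks₂₁ * M.toBlocks₁₁⁻¹ * M.toBlocks₁₂ =
      (PowerSeries.X : PowerSeries ℂ) • D') (L : ℕ) :
    etm t (L + 1) M = shiftE ρ (L + 1) (etm t L D') := by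
  funext r
  refine eq_of_forall_le_iff fun j => ?_
  rw [le_etm_iff]
  unfold shiftE
  rw [le_min_iff]
  refine and_congr_right fun hj => ?_
  rcases le_or_gt r ρ with hr | hr
  · rw [K2_block_le M hA (t * j) (t * r) (Nat.mul_le_mul_left t hr), Nat.sub_eq_zero_of_le hr,
      K2_zero_right t L ht, Nat.mul_eq_zero]
    omega
  · obtain ⟨k, rfl⟩ := Nat.exists_eq_add_of_le hr.le
    have hk : 1 ≤ k := by omega
    rw [Nat.mul_add, K2_block M hA, hD, dv_smul_X, Nat.add_sub_cancel_left, ← Nat.mul_sub]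
    have h1 : j ≤ k + etm t L D' k ↔ j - k ≤ etm t L D' k := by omega
    rw [h1, le_etm_iff]
    constructor
    · intro h
      exact ⟨by omega, h⟩
    · intro h
      exact h.2

private theorem K2_map_inv {R S : Type} [CommRing R] [CommRing S] {ρ : ℕ} (φ : R →+* S)
    (A : Matrix (Fin ρ) (Fin ρ) R) (hA : IsUnit A.det) : A⁻¹.map φ = (A.map φ)⁻¹ := by
  symm
  apply Matrix.inv_eq_right_inv
  rw [← Matrix.map_mul, Matrix.mul_nonsing_inv _ hA]
  exact Matrix.map_one _ φ.map_zero φ.map_one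

private theorem K2_schur_map {R S : Type} [CommRing R] [CommRing S] {ρ : ℕ} (φ : R →+* S)
    (M : Matrix (Fin ρ ⊕ ι) (Fin ρ ⊕ κ) R) (hA : IsUnit M.toBlocks₁₁.det) :
    (M.toBlocks₂₂ - M.toBlocks₂₁ * M.toBlocks₁₁⁻¹ * M.toBlocks₁₂).map φ =
      (M.map φ).toBlocks₂₂ - (M.map φ).toBlocks₂₁ * (M.map φ).toBlocks₁₁⁻¹ *
        (M.map φ).toBlocks₁₂ := by
  have e : (M.map φ).toBlocks₁₁ = M.toBlocks₁₁.map φ := rfl
  rw [Matrix.map_sub _ (fun a b => map_sub φ a b), Matrix.map_mul, Matrix.map_mul, e,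
    ← K2_map_inv φ _ hA]
  rfl

private theorem K2_schur_skew {R : Type} [CommRing R] {ρ : ℕ}
    (M : Matrix (Fin ρ ⊕ ι) (Fin ρ ⊕ ι) R) (hM : M.transpose = -M)
    (hA : IsUnit M.toBlocks₁₁.det) :
    (M.toBlocks₂₂ - M.toBlocks₂₁ * M.toBlocks₁₁⁻¹ * M.toBlocks₁₂).transpose =
      -(M.toBlocks₂₂ - M.toBlocks₂₁ * M.toBlocks₁₁⁻¹ * M.toBlocks₁₂) := by
  have e11 : M.toBlocks₁₁.transpose = -M.toBlocks₁₁ := by
    ext i k
    exact congrFun (congrFun hM (Sum.inl i)) (Sum.inl k)
  have e22 : M.toBlocks₂₂.transpose = -M.toBlocks₂₂ := by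
    ext i k
    exact congrFun (congrFun hM (Sum.inr i)) (Sum.inr k)
  have e12 : M.toBlocks₁₂.transpose = -M.toBlocks₂₁ := by
    ext i k
    exact congrFun (congrFun hM (Sum.inr i)) (Sum.inl k)
  have e21 : M.toBlocks₂₁.transpose = -M.toBlocks₁₂ := by
    ext i k
    exact congrFun (congrFun hM (Sum.inl i)) (Sum.inr k)
  have einv : (-M.toBlocks₁₁)⁻¹ = -M.toBlocks₁₁⁻¹ := by
    apply Matrix.inv_eq_right_inv
    rw [Matrix.neg_mul, Matrix.mul_neg, neg_neg, Matrix.mul_nonsing_inv _ hA]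
  rw [Matrix.transpose_sub, Matrix.transpose_mul, Matrix.transpose_mul, Matrix.transpose_nonsing_inv,
    e11, e12, e21, e22, einv]
  simp only [Matrix.neg_mul, Matrix.mul_neg, neg_neg, Matrix.mul_assoc]
  abel

private theorem K2_exists_X (M : Matrix ι κ (PowerSeries ℂ))
    (h : M.map (PowerSeries.constantCoeff (R := ℂ)) = 0) :
    ∃ D : Matrix ι κ (PowerSeries ℂ), M = (PowerSeries.X : PowerSeries ℂ) • D := by
  have h1 : ∀ i k, ∃ d, M i k = (PowerSeries.X : PowerSeries ℂ) * d := by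
    intro i k
    have h2 := congrFun (congrFun h i) k
    exact PowerSeries.X_dvd_iff.2 h2
  choose D hD using h1
  exact ⟨fun i k => D i k, Matrix.ext fun i k => hD i k⟩

private theorem K2_skew (L : ℕ) : ∀ (n : ℕ) (M M' : Matrix (Fin n) (Fin n) (PowerSeries ℂ)),
    M.transpose = -M → M'.transpose = -M' →
    (∀ i k, (PowerSeries.X : PowerSeries ℂ) ^ L ∣ M i k - M' i k) → etm 2 L M = etm 2 L M' := by
  classical
  induction L with
  | zero =>
    intro n M M' _ _ _
    funext r
    rw [Nat.le_zero.1 (etm_le 2 0 r M), Nat.le_zero.1 (etm_le 2 0 r M')]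
  | succ L ih =>
    intro n M M' hM hM' hc
    set φ := PowerSeries.constantCoeff (R := ℂ) with hφ
    set A0 : Matrix (Fin n) (Fin n) ℂ := M.map φ with hA0
    have hA0' : M'.map φ = A0 := by
      ext i k
      have h1 : (PowerSeries.X : PowerSeries ℂ) ∣ M i k - M' i k :=
        (dvd_pow_self _ (Nat.succ_ne_zero L)).trans (hc i k)
      rw [PowerSeries.X_dvd_iff, map_sub] at h1
      exact (sub_eq_zero.1 h1).symm
    have hA0t : A0.transpose = -A0 := by
      have e : A0.transpose = M.transpose.map φ := rfl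
      rw [e, hM]
      ext i k
      exact map_neg φ _
    have hA0t' : A0.transpose = (if false = true then (1 : ℂ) else -1) • A0 := by
      rw [hA0t]
      simp
    have hmat : (Shp.eps false n).mat ((Shp.eps false n).ent A0) = A0 :=
      Shp.mat_ent false n A0 hA0t' fun _ i => by
        have h1 := congrFun (congrFun hA0t i) i
        have h2 : A0 i i = -A0 i i := h1
        linear_combination (1 / 2 : ℂ) * h2
    obtain ⟨ρ, ⟨-, hρ⟩, -⟩ := exists_unique_rankS (Shp.eps false n) trivial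
      ((Shp.eps false n).ent A0)
    have hρ1 : ∃ (S : Fin (2 * ρ) → Fin n) (T : Fin (2 * ρ) → Fin n),
        (A0.submatrix S T).det ≠ 0 := by
      have := hρ.1
      rw [hmat] at this
      exact this
    have hρ2 : ∀ (S : Fin (2 * ρ + 1) → Fin n) (T : Fin (2 * ρ + 1) → Fin n),
        (A0.submatrix S T).det = 0 := by
      have := hρ.2
      rw [hmat] at this
      exact this
    obtain ⟨S, hS, hdet⟩ := exists_principal false n (2 * ρ) A0 hA0t' hρ1 hρ2
    obtain ⟨σ, hσ⟩ := exists_extend S hS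
    -- one matrix
    have key : ∀ N : Matrix (Fin n) (Fin n) (PowerSeries ℂ), N.transpose = -N → N.map φ = A0 →
        IsUnit (N.submatrix σ σ).toBlocks₁₁.det ∧
        ∃ D : Matrix (Fin (n - 2 * ρ)) (Fin (n - 2 * ρ)) (PowerSeries ℂ),
          (N.submatrix σ σ).toBlocks₂₂ - (N.submatrix σ σ).toBlocks₂₁ *
            (N.submatrix σ σ).toBlocks₁₁⁻¹ * (N.submatrix σ σ).toBlocks₁₂ =
              (PowerSeries.X : PowerSeries ℂ) • D ∧ D.transpose = -D := by
      intro N hN hN0
      have e0 : (N.submatrix σ σ).map φ = A0.submatrix σ σ := by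
        rw [← hN0]
        rfl
      have e1 : (A0.submatrix σ σ).toBlocks₁₁ = A0.submatrix S S := by
        ext i k
        show A0 (σ (Sum.inl i)) (σ (Sum.inl k)) = A0 (S i) (S k)
        rw [hσ, hσ]
      have hu : IsUnit (N.submatrix σ σ).toBlocks₁₁.det := by
        rw [PowerSeries.isUnit_iff_constantCoeff, ← hφ, RingHom.map_det]
        have e2 : φ.mapMatrix (N.submatrix σ σ).toBlocks₁₁ =
            ((N.submatrix σ σ).map φ).toBlocks₁₁ := rfl
        rw [e2, e0, e1]
        exact isUnit_iff_ne_zero.2 hdet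
      have hz : ((N.submatrix σ σ).toBlocks₂₂ - (N.submatrix σ σ).toBlocks₂₁ *
            (N.submatrix σ σ).toBlocks₁₁⁻¹ * (N.submatrix σ σ).toBlocks₁₂).map φ = 0 := by
        rw [K2_schur_map φ _ hu, e0]
        refine schur_zero _ ?_ fun S' T' => ?_
        · rw [e1]
          exact hdet
        · exact hρ2 (fun x => σ (S' x)) fun x => σ (T' x)
      obtain ⟨D, hD⟩ := K2_exists_X _ hz
      refine ⟨hu, D, hD, ?_⟩
      have ht : (N.submatrix σ σ).transpose = -N.submatrix σ σ := by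
        rw [Matrix.transpose_submatrix, hN]
        rfl
      have hs := K2_schur_skew (N.submatrix σ σ) ht hu
      rw [hD] at hs
      refine Matrix.ext fun i k => ?_
      have h1 : (PowerSeries.X : PowerSeries ℂ) * D k i = -((PowerSeries.X : PowerSeries ℂ) * D i k) :=
        congrFun (congrFun hs i) k
      have h2 : (PowerSeries.X : PowerSeries ℂ) * D k i = PowerSeries.X * (-D i k) := by
        rw [h1]
        ring
      exact mul_left_cancel₀ PowerSeries.X_ne_zero h2
    obtain ⟨hu, D, hD, hDt⟩ := key M hM rfl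
    obtain ⟨hu', D', hD', hDt'⟩ := key M' hM' hA0'
    rw [← etm_submatrix 2 (L + 1) M σ σ, ← etm_submatrix 2 (L + 1) M' σ σ,
      etm_block 2 ρ Nat.two_pos _ hu D hD L, etm_block 2 ρ Nat.two_pos _ hu' D' hD' L,
      ih (n - 2 * ρ) D D' hDt hDt']
    -- the Schur complements agree
    intro i k
    set I : Ideal (PowerSeries ℂ) := Ideal.span {(PowerSeries.X : PowerSeries ℂ) ^ (L + 1)} with hI
    have e3 : (M.submatrix σ σ).map (Ideal.Quotient.mk I) =
        (M'.submatrix σ σ).map (Ideal.Quotient.mk I) := by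
      ext a b
      show Ideal.Quotient.mk I (M (σ a) (σ b)) = Ideal.Quotient.mk I (M' (σ a) (σ b))
      rw [Ideal.Quotient.eq, hI, Ideal.mem_span_singleton]
      exact hc _ _
    have e4 := K2_schur_map (Ideal.Quotient.mk I) (M.submatrix σ σ) hu
    have e5 := K2_schur_map (Ideal.Quotient.mk I) (M'.submatrix σ σ) hu'
    rw [hD] at e4
    rw [hD'] at e5
    rw [e3, ← e5] at e4
    have e6 := congrFun (congrFun e4 i) k
    have e7 : Ideal.Quotient.mk I ((PowerSeries.X : PowerSeries ℂ) * D i k) =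
        Ideal.Quotient.mk I ((PowerSeries.X : PowerSeries ℂ) * D' i k) := e6
    rw [Ideal.Quotient.eq, hI, Ideal.mem_span_singleton, ← mul_sub, pow_succ'] at e7
    exact (mul_dvd_mul_iff_left PowerSeries.X_ne_zero).1 e7

private theorem K2_one (L : ℕ) (M : Matrix ι κ (PowerSeries ℂ)) : etm 1 L M = et L M := by
  funext r
  refine eq_of_forall_le_iff fun j => ?_
  rw [le_etm_iff, le_et_iff, Nat.one_mul, Nat.one_mul]

theorem etm_congr_mat (σ : Shp) (L : ℕ) (x x' : σ.Idx → PowerSeries ℂ)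
    (h : ∀ p, (PowerSeries.X : PowerSeries ℂ) ^ L ∣ x p - x' p) : σ.et L x = σ.et L x' := by
  cases σ with
  | gen m n =>
    show etm 1 L _ = etm 1 L _
    rw [K2_one, K2_one]
    exact et_congr L _ _ fun i k => h (i, k)
  | eps κ n =>
    have hd : ∀ i k, (PowerSeries.X : PowerSeries ℂ) ^ L ∣
        (Shp.eps κ n).mat x i k - (Shp.eps κ n).mat x' i k := by
      intro i k
      unfold Shp.mat
      simp only
      split_ifs with a1 a2 a3 a4
      · exact h _
      · rw [one_mul, one_mul]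
        exact h _
      · rw [← mul_sub]
        exact (h _).mul_left _
      · exact h _
      · rw [sub_self]
        exact dvd_zero _
    cases κ with
    | true =>
      show etm 1 L _ = etm 1 L _
      rw [K2_one, K2_one]
      exact et_congr L _ _ hd
    | false =>
      show etm 2 L _ = etm 2 L _
      refine K2_skew L n _ _ ?_ ?_ hd
      · rw [Shp.mat_transpose]
        simp
      · rw [Shp.mat_transpose]
        simp

end MotMono
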