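import Pool.Agent.Lib.MP_4e5fcd_ag.Cl.K2
import Pool.Agent.Lib.MP_4e5fcd_ag.Cl.K3

/-! # CL-K4: one piece of a rank stratum, (skew-)symmetric matrices

PROOF. `cls_shear`: `RegIso` between the set and `prodSet E F` by `z ↦ (z ∘ inl, z ∘ inr - φ (z ∘ inl))`,
inverse `(x, y) ↦ (x, y + φ x)`.
`cls_pieceE` (compare `Det/C2.lean`, `cls_piece` in `Det/C3.lean`): `σ = eps κ n`, `t = σ.st`. If `Q = ∅` both
sides vanish. `S` is injective (the principal minor does not vanish on `Q`), so `t ρ ≤ n`; let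
`c : Fin (n - t ρ) ↪o Fin n` be the order embedding onto the complement of the range of `S`
(`Finset.orderEmbOfFin`). It induces an injection `cI : (σ.res ρ).Idx → σ.Idx` of positions with
`σ.mat (x) (c i) (c k) = (σ.res ρ).mat (x ∘ cI) i k`. Write the coordinates `σ.Idx × Fin (L + 1)` as
(level `0`) ⊕ (levels `≥ 1`, positions not in the range of `cI`) ⊕ (levels `≥ 1`, positions in the
range of `cI`). On the set where the level `0` is in `Q` the matrix `A = (mat (ser γ)).submatrix S S` is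
invertible over the power series, and `P i k = ∑ M (c i) (S p) (A⁻¹) p q M (S q) (c k)` does not depend
on the third group of coordinates; it is (skew-)symmetric. `φ (cI p, l + 1) = coeff (l + 1) (P ..)`, regular by
`regSer_matInv` etc. By `schur_zero` (reindex by `S` and `c`) the constant term of
`D = M (c i) (c k) - P i k` vanishes for level `0` in `Q ⊆ RankS ρ`; so `D = X • D'` and by `etm_block` (after
reindexing, `etm_submatrix`) `et (L + 1) (ser γ) = shiftE ρ (L + 1) (et L D')`, and by `etm_congr_mat`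
`D'` may be cut off at level `L`. So the set is the set of `cls_shear` with
`E = {level 0 in Q}` (class `cls Q * LL ^ ((dim - dim (res ρ)) * L)`; `card_Idx`), `F = SPS (res ρ) L Φ'`. -/

open MvPolynomial

namespace MotMono

theorem cls_shear {τ υ : Type} [Finite τ] [Finite υ] (E : Set (τ → ℂ)) (hE : Constr E)
    (F : Set (υ → ℂ)) (hF : Constr F) (φ : (τ → ℂ) → (υ → ℂ)) (hφ : RegularOn E φ)
    (hC : Constr {z : τ ⊕ υ → ℂ | (fun i => z (Sum.inl i)) ∈ E ∧
      (fun j => z (Sum.inr j) - φ (fun i => z (Sum.inl i)) j) ∈ F}) :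
    cls {z : τ ⊕ υ → ℂ | (fun i => z (Sum.inl i)) ∈ E ∧
      (fun j => z (Sum.inr j) - φ (fun i => z (Sum.inl i)) j) ∈ F} = cls E * cls F := by
  rw [← cls_prodSet hE hF]
  refine cls_iso hC (hE.prodSet hF) ?_
  refine ⟨fun z => Sum.elim (fun i => z (Sum.inl i))
      fun j => z (Sum.inr j) - φ (fun i => z (Sum.inl i)) j,
    fun z => Sum.elim (fun i => z (Sum.inl i))
      fun j => z (Sum.inr j) + φ (fun i => z (Sum.inl i)) j, ?_, ?_, ?_, ?_, ?_, ?_⟩
  · rintro (i | j)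
    · exact regFun_coord _ (Sum.inl i)
    · exact (regFun_coord _ (Sum.inr j)).sub (RegFun.comp (f := fun z i => z (Sum.inl i))
        (fun i => regFun_coord _ (Sum.inl i)) (hφ j) fun z hz => hz.1)
  · rintro (i | j)
    · exact regFun_coord _ (Sum.inl i)
    · exact (regFun_coord _ (Sum.inr j)).add (RegFun.comp (f := fun z i => z (Sum.inl i))
        (fun i => regFun_coord _ (Sum.inl i)) (hφ j) fun z hz => hz.1)
  · intro z hz
    exact ⟨hz.1, hz.2⟩
  · intro z hz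
    refine ⟨hz.1, ?_⟩
    have h := hz.2
    simpa using h
  · intro z _
    funext j
    rcases j with i | j
    · rfl
    · simp
  · intro z _
    funext j
    rcases j with i | j
    · rfl
    · simp

variable {κ : Bool} {n n' L : ℕ}

/-- the positions of the last block -/
private def K4_cI (c : Fin n' ↪o Fin n) (p : (Shp.eps κ n').Idx) : (Shp.eps κ n).Idx :=
  ⟨(c p.1.1, c p.1.2), p.2.imp (fun h => c.lt_iff_lt.2 h) fun h => ⟨h.1, congrArg c h.2⟩⟩

private theorem K4_cI_inj (c : Fin n' ↪o Fin n) :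
    Function.Injective (K4_cI (κ := κ) c) := by
  rintro ⟨⟨a, b⟩, h⟩ ⟨⟨a', b'⟩, h'⟩ he
  have h1 := congrArg (fun p : (Shp.eps κ n).Idx => p.1) he
  have h2 : (c a, c b) = (c a', c b') := h1
  rw [Prod.mk.injEq, c.injective.eq_iff, c.injective.eq_iff] at h2
  obtain ⟨rfl, rfl⟩ := h2
  rfl

private theorem K4_mat_congr {R : Type} [CommRing R] (x x' : (Shp.eps κ n).Idx → R) (i k : Fin n)
    (h : ∀ p : (Shp.eps κ n).Idx, (p.1.1 = i ∧ p.1.2 = k) ∨ (p.1.1 = k ∧ p.1.2 = i) → x p = x' p) :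
    (Shp.eps κ n).mat x i k = (Shp.eps κ n).mat x' i k := by
  simp only [Shp.mat]
  split_ifs with h1 h2 h3
  · exact h _ (Or.inl ⟨rfl, rfl⟩)
  · exact congrArg (fun z => 1 * z) (h ⟨(k, i), Or.inl h2⟩ (Or.inr ⟨rfl, rfl⟩))
  · exact congrArg (fun z => -1 * z) (h ⟨(k, i), Or.inl h2⟩ (Or.inr ⟨rfl, rfl⟩))
  · exact h _ (Or.inl ⟨rfl, rfl⟩)
  · rfl

private theorem K4_mat_cI (c : Fin n' ↪o Fin n) {R : Type} [CommRing R]
    (x : (Shp.eps κ n).Idx → R) (i k : Fin n') :
    (Shp.eps κ n).mat x (c i) (c k) = (Shp.eps κ n').mat (fun p => x (K4_cI c p)) i k := by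
  simp only [Shp.mat, c.lt_iff_lt]
  rfl

/-- the Schur complement term is symmetric or skew-symmetric -/
private theorem K4_S_transpose {ρ m : ℕ} (M : Matrix (Fin ρ ⊕ Fin m) (Fin ρ ⊕ Fin m) (PowerSeries ℂ))
    (hu : IsUnit M.toBlocks₁₁.det)
    (hM : M.transpose = (if κ = true then (1 : PowerSeries ℂ) else -1) • M) :
    (c2_S M).transpose = (if κ = true then (1 : PowerSeries ℂ) else -1) • c2_S M := by
  obtain ⟨ε, hε⟩ : ∃ ε : PowerSeries ℂ, ε = if κ = true then (1 : PowerSeries ℂ) else -1 := ⟨_, rfl⟩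
  rw [← hε] at hM ⊢
  have hεε : ε * ε = 1 := by
    rw [hε]
    split_ifs <;> ring
  have hs : ∀ a b, M b a = ε * M a b := fun a b => by
    have := congrFun (congrFun hM a) b
    simpa using this
  have e11 : M.toBlocks₁₁.transpose = ε • M.toBlocks₁₁ := by
    ext1 a b
    exact hs (Sum.inl a) (Sum.inl b)
  have e12 : M.toBlocks₁₂.transpose = ε • M.toBlocks₂₁ := by
    ext1 a b
    exact hs (Sum.inr a) (Sum.inl b)
  have e21 : M.toBlocks₂₁.transpose = ε • M.toBlocks₁₂ := by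
    ext1 a b
    exact hs (Sum.inl a) (Sum.inr b)
  have einv : (M.toBlocks₁₁⁻¹).transpose = ε • M.toBlocks₁₁⁻¹ := by
    rw [Matrix.transpose_nonsing_inv, e11]
    refine Matrix.inv_eq_right_inv ?_
    rw [Matrix.smul_mul, Matrix.mul_smul, smul_smul, hεε, one_smul, Matrix.mul_nonsing_inv _ hu]
  unfold c2_S
  rw [Matrix.transpose_mul, Matrix.transpose_mul, e12, e21, einv]
  simp only [Matrix.smul_mul, Matrix.mul_smul, smul_smul, hεε, one_smul, Matrix.mul_assoc]

/-- the constant term of the Schur complement term -/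
private theorem K4_S_const {ρ m m' : ℕ} (M : Matrix (Fin ρ ⊕ Fin m) (Fin ρ ⊕ Fin m') (PowerSeries ℂ))
    (hu : IsUnit M.toBlocks₁₁.det) (G : Matrix (Fin ρ ⊕ Fin m) (Fin ρ ⊕ Fin m') ℂ)
    (hG : ∀ a b, PowerSeries.constantCoeff (M a b) = G a b) (i : Fin m) (k : Fin m') :
    PowerSeries.constantCoeff (c2_S M i k) =
      (G.toBlocks₂₁ * G.toBlocks₁₁⁻¹ * G.toBlocks₁₂) i k := by
  obtain ⟨φ, hφ⟩ : ∃ φ : PowerSeries ℂ →+* ℂ, φ = PowerSeries.constantCoeff := ⟨_, rfl⟩
  rw [← hφ] at hG ⊢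
  have e11 : φ.mapMatrix M.toBlocks₁₁ = G.toBlocks₁₁ := by
    ext1 a b
    exact hG _ _
  have einv : φ.mapMatrix M.toBlocks₁₁⁻¹ = G.toBlocks₁₁⁻¹ := by
    refine (Matrix.inv_eq_right_inv ?_).symm
    rw [← e11, ← map_mul, Matrix.mul_nonsing_inv _ hu, map_one]
  unfold c2_S
  rw [Matrix.mul_apply, Matrix.mul_apply, map_sum]
  refine Finset.sum_congr rfl fun b _ => ?_
  rw [map_mul, Matrix.mul_apply, Matrix.mul_apply, map_sum]
  have e12 : φ (M.toBlocks₁₂ b k) = G.toBlocks₁₂ b k := hG _ _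
  rw [e12]
  congr 1
  refine Finset.sum_congr rfl fun a _ => ?_
  rw [map_mul]
  have e21 : φ (M.toBlocks₂₁ i a) = G.toBlocks₂₁ i a := hG _ _
  have e4 : φ (M.toBlocks₁₁⁻¹ a b) = G.toBlocks₁₁⁻¹ a b := by
    rw [← einv]
    rfl
  rw [e21, e4]

private theorem K4_ser_zero {ι : Type} (γ : ι × Fin (L + 1) → ℂ) (p : ι) :
    PowerSeries.constantCoeff (ser γ p) = γ (p, 0) := by
  rw [← PowerSeries.coeff_zero_eq_constantCoeff_apply]
  unfold ser
  rw [PowerSeries.coeff_mk, dif_pos (Nat.succ_pos L)]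
  rfl

private theorem K4_ser_succ {ι : Type} (γ : ι × Fin (L + 1) → ℂ) (p : ι) (l : Fin L) :
    PowerSeries.coeff ((l : ℕ) + 1) (ser γ p) = γ (p, l.succ) := by
  unfold ser
  rw [PowerSeries.coeff_mk, dif_pos (by have := l.2; omega)]
  rfl

private theorem K4_ser_congr {ι : Type} (γ γ' : ι × Fin (L + 1) → ℂ) (p : ι)
    (h0 : γ (p, 0) = γ' (p, 0)) (h : ∀ l : Fin L, γ (p, l.succ) = γ' (p, l.succ)) :
    ser γ p = ser γ' p := by
  unfold ser
  ext l
  rw [PowerSeries.coeff_mk, PowerSeries.coeff_mk]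
  by_cases hl : l < L + 1
  · rw [dif_pos hl, dif_pos hl]
    rcases l with _ | l
    · exact h0
    · exact h ⟨l, by omega⟩
  · rw [dif_neg hl, dif_neg hl]

/-- the reindexed matrix -/
private noncomputable def K4_M {ρ : ℕ} (e : Fin ρ ⊕ Fin n' ≃ Fin n)
    (γ : (Shp.eps κ n).Idx × Fin (L + 1) → ℂ) :
    Matrix (Fin ρ ⊕ Fin n') (Fin ρ ⊕ Fin n') (PowerSeries ℂ) :=
  ((Shp.eps κ n).mat (ser γ)).submatrix e e

private theorem K4_M_const {ρ : ℕ} (e : Fin ρ ⊕ Fin n' ≃ Fin n)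
    (γ : (Shp.eps κ n).Idx × Fin (L + 1) → ℂ) (a b) :
    PowerSeries.constantCoeff (K4_M e γ a b) =
      (((Shp.eps κ n).mat fun p => γ (p, 0)).submatrix e e) a b := by
  have h := Shp.mat_map (Shp.eps κ n) (PowerSeries.constantCoeff (R := ℂ)) (ser γ)
  have h1 : (fun p => PowerSeries.constantCoeff (ser γ p)) = fun p => γ (p, 0) := by
    funext p
    exact K4_ser_zero γ p
  rw [h1] at h
  rw [Matrix.submatrix_apply, h]
  rfl

private theorem K4_unit {ρ : ℕ} (e : Fin ρ ⊕ Fin n' ≃ Fin n) (S : Fin ρ → Fin n)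
    (he : ∀ a, e (Sum.inl a) = S a) (γ : (Shp.eps κ n).Idx × Fin (L + 1) → ℂ)
    (h : (((Shp.eps κ n).mat fun p => γ (p, 0)).submatrix S S).det ≠ 0) :
    IsUnit (K4_M e γ).toBlocks₁₁.det := by
  rw [PowerSeries.isUnit_iff_constantCoeff, isUnit_iff_ne_zero, RingHom.map_det]
  have h1 : (PowerSeries.constantCoeff (R := ℂ)).mapMatrix (K4_M e γ).toBlocks₁₁ =
      ((Shp.eps κ n).mat fun p => γ (p, 0)).submatrix S S := by
    ext1 a b
    rw [RingHom.mapMatrix_apply, Matrix.map_apply]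
    have h2 := K4_M_const e γ (Sum.inl a) (Sum.inl b)
    rw [Matrix.submatrix_apply, he, he] at h2
    exact h2
  rw [h1]
  exact h

private theorem K4_M_transpose {ρ : ℕ} (e : Fin ρ ⊕ Fin n' ≃ Fin n)
    (γ : (Shp.eps κ n).Idx × Fin (L + 1) → ℂ) :
    (K4_M e γ).transpose = (if κ = true then (1 : PowerSeries ℂ) else -1) • K4_M e γ := by
  have h := Shp.mat_transpose κ n (ser γ)
  ext1 a b
  exact congrFun (congrFun h (e a)) (e b)

private theorem K4_et {ρ : ℕ} (e : Fin ((Shp.eps κ n).st * ρ) ⊕ Fin n' ≃ Fin n)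
    (S : Fin ((Shp.eps κ n).st * ρ) → Fin n) (heS : ∀ a, e (Sum.inl a) = S a)
    (γ : (Shp.eps κ n).Idx × Fin (L + 1) → ℂ)
    (h1 : (((Shp.eps κ n).mat fun p => γ (p, 0)).submatrix S S).det ≠ 0)
    (h2 : (fun p => γ (p, 0)) ∈ (Shp.eps κ n).RankS ρ)
    (d : (Shp.eps κ n').Idx × Fin L → ℂ)
    (hd : ∀ (p : (Shp.eps κ n').Idx) (l : Fin L), d (p, l) = PowerSeries.coeff ((l : ℕ) + 1)
      (K4_M e γ (Sum.inr p.1.1) (Sum.inr p.1.2) - c2_S (K4_M e γ) p.1.1 p.1.2)) :
    (Shp.eps κ n).et (L + 1) (ser γ) = shiftE ρ (L + 1) ((Shp.eps κ n').et L (ser d)) := by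
  have hu := K4_unit e S heS γ h1
  have hMT := K4_M_transpose e γ
  have hMc := K4_M_const e γ
  have hST := K4_S_transpose (K4_M e γ) hu hMT
  obtain ⟨M, hM⟩ : ∃ M, M = K4_M e γ := ⟨_, rfl⟩
  rw [← hM] at hu hMT hMc hST hd
  obtain ⟨G, hG⟩ : ∃ G, G = ((Shp.eps κ n).mat fun p => γ (p, 0)).submatrix e e := ⟨_, rfl⟩
  rw [← hG] at hMc
  have hG1 : G.toBlocks₁₁.det ≠ 0 := by
    have h3 : G.toBlocks₁₁ = ((Shp.eps κ n).mat fun p => γ (p, 0)).submatrix S S := by
      ext1 a b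
      rw [hG]
      show ((Shp.eps κ n).mat fun p => γ (p, 0)) (e (Sum.inl a)) (e (Sum.inl b)) = _
      rw [heS, heS]
      rfl
    rw [h3]
    exact h1
  have hschur := schur_zero G hG1 (fun S' T' => by
    rw [hG]
    exact h2.2 (fun a => e (S' a)) (fun a => e (T' a)))
  obtain ⟨D', hD'⟩ : ∃ D' : Matrix (Fin n') (Fin n') (PowerSeries ℂ), D' = fun i k =>
    PowerSeries.mk fun l => PowerSeries.coeff (l + 1) (M (Sum.inr i) (Sum.inr k) - c2_S M i k) :=
    ⟨_, rfl⟩
  have hDc : ∀ i k l, PowerSeries.coeff l (D' i k) =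
      PowerSeries.coeff (l + 1) (M (Sum.inr i) (Sum.inr k) - c2_S M i k) := by
    intro i k l
    rw [hD']
    exact PowerSeries.coeff_mk _ _
  have hX : M.toBlocks₂₂ - M.toBlocks₂₁ * M.toBlocks₁₁⁻¹ * M.toBlocks₁₂ =
      (PowerSeries.X : PowerSeries ℂ) • D' := by
    ext1 i k
    have e0 : (M.toBlocks₂₂ - M.toBlocks₂₁ * M.toBlocks₁₁⁻¹ * M.toBlocks₁₂) i k
        = M (Sum.inr i) (Sum.inr k) - c2_S M i k := rfl
    rw [e0, Matrix.smul_apply, smul_eq_mul]
    ext l
    rcases l with _ | l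
    · rw [PowerSeries.coeff_zero_X_mul, PowerSeries.coeff_zero_eq_constantCoeff_apply, map_sub,
        K4_S_const M hu G hMc i k, hMc]
      have := congrFun (congrFun hschur i) k
      exact this
    · rw [PowerSeries.coeff_succ_X_mul, hDc]
  have hε : ∀ i k, M (Sum.inr k) (Sum.inr i) - c2_S M k i =
      (if κ = true then (1 : PowerSeries ℂ) else -1) * (M (Sum.inr i) (Sum.inr k) - c2_S M i k) := by
    intro i k
    have a1 := congrFun (congrFun hMT (Sum.inr i)) (Sum.inr k)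
    have a2 := congrFun (congrFun hST i) k
    rw [Matrix.transpose_apply, Matrix.smul_apply, smul_eq_mul] at a1 a2
    rw [a1, a2, mul_sub]
  have hDT : D'.transpose = (if κ = true then (1 : PowerSeries ℂ) else -1) • D' := by
    ext1 i k
    rw [Matrix.transpose_apply, Matrix.smul_apply, smul_eq_mul]
    ext l
    rw [hDc, hε i k]
    split_ifs
    · rw [one_mul, one_mul, hDc]
    · rw [neg_one_mul, neg_one_mul, map_neg, map_neg, hDc]
  have hdiag : κ = false → ∀ i, D' i i = 0 := by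
    intro hκ i
    have a1 := congrFun (congrFun hDT i) i
    rw [Matrix.transpose_apply, Matrix.smul_apply, smul_eq_mul, hκ] at a1
    rw [if_neg (by simp), neg_one_mul] at a1
    ext l
    have a2 := congrArg (PowerSeries.coeff l) a1
    rw [map_neg] at a2
    rw [map_zero]
    linear_combination (1 / 2) * a2
  have hme := Shp.mat_ent κ n' D' hDT hdiag
  have h5 := etm_congr_mat (Shp.eps κ n') L ((Shp.eps κ n').ent D') (ser d) (fun p => by
    rw [PowerSeries.X_pow_dvd_iff]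
    intro l hl
    rw [map_sub]
    have b1 : PowerSeries.coeff l ((Shp.eps κ n').ent D' p) =
        PowerSeries.coeff (l + 1) (M (Sum.inr p.1.1) (Sum.inr p.1.2) - c2_S M p.1.1 p.1.2) :=
      hDc _ _ l
    have b2 : PowerSeries.coeff l (ser d p) = d (p, ⟨l, hl⟩) := by
      unfold ser
      rw [PowerSeries.coeff_mk, dif_pos hl]
    rw [b1, b2, hd p ⟨l, hl⟩, sub_self])
  have h3 := etm_block (Shp.eps κ n).st ρ (Shp.st_pos _) M hu D' hX L
  have h4 : (Shp.eps κ n).et (L + 1) (ser γ) = etm (Shp.eps κ n).st (L + 1) M := by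
    funext r
    have := congrFun (etm_submatrix (Shp.eps κ n).st (L + 1) ((Shp.eps κ n).mat (ser γ)) e e) r
    rw [hM]
    exact this.symm
  have h6 : (Shp.eps κ n').et L ((Shp.eps κ n').ent D') = etm (Shp.eps κ n).st L D' := by
    funext r
    show etm (Shp.eps κ n').st L ((Shp.eps κ n').mat ((Shp.eps κ n').ent D')) r = _
    rw [hme]
    rfl
  rw [h4, h3, ← h5, h6]

/-- the numbering of the coordinates -/
private def K4_fw (CI : (Shp.eps κ n').Idx → (Shp.eps κ n).Idx) :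
    ((Shp.eps κ n).Idx ⊕ ({p // p ∉ Set.range CI} × Fin L)) ⊕ ((Shp.eps κ n').Idx × Fin L) →
      (Shp.eps κ n).Idx × Fin (L + 1) :=
  Sum.elim (Sum.elim (fun p => (p, 0)) fun q => (q.1.1, q.2.succ)) fun q => (CI q.1, q.2.succ)

private theorem K4_fw_bij (CI : (Shp.eps κ n').Idx → (Shp.eps κ n).Idx)
    (hCI : Function.Injective CI) : Function.Bijective (K4_fw (L := L) CI) := by
  constructor
  · rintro ((p | q) | q) ((p' | q') | q') h
    · have h1 : (p, (0 : Fin (L + 1))) = (p', 0) := h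
      rw [Prod.mk.injEq] at h1
      rw [h1.1]
    · have h1 : (p, (0 : Fin (L + 1))) = (q'.1.1, q'.2.succ) := h
      rw [Prod.mk.injEq] at h1
      exact absurd h1.2.symm (Fin.succ_ne_zero _)
    · have h1 : (p, (0 : Fin (L + 1))) = (CI q'.1, q'.2.succ) := h
      rw [Prod.mk.injEq] at h1
      exact absurd h1.2.symm (Fin.succ_ne_zero _)
    · have h1 : (q.1.1, q.2.succ) = (p', (0 : Fin (L + 1))) := h
      rw [Prod.mk.injEq] at h1
      exact absurd h1.2 (Fin.succ_ne_zero _)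
    · have h1 : (q.1.1, q.2.succ) = (q'.1.1, q'.2.succ) := h
      rw [Prod.mk.injEq] at h1
      have h2 : q = q' := Prod.ext (Subtype.ext h1.1) (Fin.succ_injective _ h1.2)
      rw [h2]
    · have h1 : (q.1.1, q.2.succ) = (CI q'.1, q'.2.succ) := h
      rw [Prod.mk.injEq] at h1
      exact absurd ⟨q'.1, h1.1.symm⟩ q.1.2
    · have h1 : (CI q.1, q.2.succ) = (p', (0 : Fin (L + 1))) := h
      rw [Prod.mk.injEq] at h1
      exact absurd h1.2 (Fin.succ_ne_zero _)
    · have h1 : (CI q.1, q.2.succ) = (q'.1.1, q'.2.succ) := h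
      rw [Prod.mk.injEq] at h1
      exact absurd ⟨q.1, h1.1⟩ q'.1.2
    · have h1 : (CI q.1, q.2.succ) = (CI q'.1, q'.2.succ) := h
      rw [Prod.mk.injEq] at h1
      have h2 : q = q' := Prod.ext (hCI h1.1) (Fin.succ_injective _ h1.2)
      rw [h2]
  · rintro ⟨p, l⟩
    refine Fin.cases ?_ (fun l => ?_) l
    · exact ⟨Sum.inl (Sum.inl p), rfl⟩
    · by_cases hp : p ∈ Set.range CI
      · obtain ⟨p', rfl⟩ := hp
        exact ⟨Sum.inr (p', l), rfl⟩
      · exact ⟨Sum.inl (Sum.inr (⟨p, hp⟩, l)), rfl⟩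

private theorem K4_piece {ρ : ℕ} (hn : (Shp.eps κ n).st * ρ + n' = n)
    (S : Fin ((Shp.eps κ n).st * ρ) → Fin n) (hS : Function.Injective S)
    (Q : Set ((Shp.eps κ n).Idx → ℂ)) (hQ : Constr Q) (hQR : Q ⊆ (Shp.eps κ n).RankS ρ)
    (hQ1 : ∀ x ∈ Q, (((Shp.eps κ n).mat x).submatrix S S).det ≠ 0) (Φ : (ℕ → ℕ) → Prop) :
    cls {γ : (Shp.eps κ n).Idx × Fin (L + 1) → ℂ |
        (fun p => γ (p, 0)) ∈ Q ∧ Φ ((Shp.eps κ n).et (L + 1) (ser γ))} =
      cls Q * LL ^ (((Shp.eps κ n).dim - (Shp.eps κ n').dim) * L) *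
        cls (SPS (Shp.eps κ n') L fun E => Φ (shiftE ρ (L + 1) E)) := by
  classical
  have hcard : ((Finset.univ.image S)ᶜ : Finset (Fin n)).card = n' := by
    rw [Finset.card_compl, Finset.card_image_of_injective _ hS, Finset.card_univ,
      Fintype.card_fin, Fintype.card_fin]
    omega
  obtain ⟨c, hc⟩ : ∃ c : Fin n' ↪o Fin n, ∀ i a, c i ≠ S a := by
    refine ⟨Finset.orderEmbOfFin _ hcard, fun i a h => ?_⟩
    have h1 := Finset.orderEmbOfFin_mem _ hcard i
    rw [h, Finset.mem_compl] at h1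
    exact h1 (Finset.mem_image_of_mem S (Finset.mem_univ a))
  have hbij : Function.Bijective
      (Sum.elim S c : Fin ((Shp.eps κ n).st * ρ) ⊕ Fin n' → Fin n) := by
    rw [Fintype.bijective_iff_injective_and_card]
    refine ⟨Function.Injective.sumElim hS c.injective fun a b h => hc b a h.symm, ?_⟩
    rw [Fintype.card_sum, Fintype.card_fin, Fintype.card_fin, Fintype.card_fin]
    exact hn
  obtain ⟨e, heS, hec⟩ : ∃ e : Fin ((Shp.eps κ n).st * ρ) ⊕ Fin n' ≃ Fin n,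
      (∀ a, e (Sum.inl a) = S a) ∧ ∀ i, e (Sum.inr i) = c i :=
    ⟨Equiv.ofBijective _ hbij, fun _ => rfl, fun _ => rfl⟩
  obtain ⟨CI, hCI⟩ : ∃ CI : (Shp.eps κ n').Idx → (Shp.eps κ n).Idx, CI = K4_cI c := ⟨_, rfl⟩
  have hCIi : Function.Injective CI := by
    rw [hCI]
    exact K4_cI_inj c
  -- positions which touch the pivots
  have hout : ∀ (p : (Shp.eps κ n).Idx) (a), (p.1.1 = S a ∨ p.1.2 = S a) → p ∉ Set.range CI := by
    rintro p a h ⟨p', rfl⟩
    rw [hCI] at h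
    rcases h with h | h
    · exact hc _ _ h
    · exact hc _ _ h
  obtain ⟨E, hE1, hE2, hE3⟩ : ∃ E : ((Shp.eps κ n).Idx ⊕ ({p // p ∉ Set.range CI} × Fin L)) ⊕
      ((Shp.eps κ n').Idx × Fin L) ≃ (Shp.eps κ n).Idx × Fin (L + 1),
      (∀ p, E.symm (p, 0) = Sum.inl (Sum.inl p)) ∧
      (∀ (q : {p // p ∉ Set.range CI}) (l : Fin L), E.symm (q.1, l.succ) = Sum.inl (Sum.inr (q, l))) ∧
      ∀ p (l : Fin L), E.symm (CI p, l.succ) = Sum.inr (p, l) := by
    refine ⟨Equiv.ofBijective _ (K4_fw_bij CI hCIi), fun p => ?_, fun q l => ?_, fun p l => ?_⟩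
    · rw [Equiv.symm_apply_eq]
      rfl
    · rw [Equiv.symm_apply_eq]
      rfl
    · rw [Equiv.symm_apply_eq]
      rfl
  obtain ⟨asm, hasm⟩ : ∃ asm : (((Shp.eps κ n).Idx ⊕ ({p // p ∉ Set.range CI} × Fin L)) ⊕
      ((Shp.eps κ n').Idx × Fin L) → ℂ) → ((Shp.eps κ n).Idx × Fin (L + 1) → ℂ),
      asm = fun y i => y (E.symm i) := ⟨_, rfl⟩
  have a1 : ∀ y p, asm y (p, 0) = y (Sum.inl (Sum.inl p)) := fun y p => by rw [hasm, ← hE1]
  have a2 : ∀ y (q : {p // p ∉ Set.range CI}) (l : Fin L),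
      asm y (q.1, l.succ) = y (Sum.inl (Sum.inr (q, l))) := fun y q l => by rw [hasm, ← hE2]
  have a3 : ∀ y p (l : Fin L), asm y (CI p, l.succ) = y (Sum.inr (p, l)) := fun y p l => by
    rw [hasm, ← hE3]
  obtain ⟨A, hA⟩ : ∃ A : Set ((Shp.eps κ n).Idx × Fin (L + 1) → ℂ), A = {γ |
        (fun p => γ (p, 0)) ∈ Q ∧ Φ ((Shp.eps κ n).et (L + 1) (ser γ))} := ⟨_, rfl⟩
  have cA : Constr A := by
    rw [hA]
    exact (hQ.comp fun p => (p, (0 : Fin (L + 1)))).inter (constr_SPS (Shp.eps κ n) (L + 1) Φ)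
  rw [← hA]
  have step1 : cls A = cls {y | asm y ∈ A} := by
    rw [hasm]
    exact cls_iso cA (cA.comp E.symm) (RegIso.reindex E.symm A)
  -- the function `φ`
  obtain ⟨φ, hφ⟩ : ∃ φ : ((Shp.eps κ n).Idx ⊕ ({p // p ∉ Set.range CI} × Fin L) → ℂ) →
      ((Shp.eps κ n').Idx × Fin L → ℂ), φ = fun x q => PowerSeries.coeff ((q.2 : ℕ) + 1)
        (c2_S (K4_M e (asm (Sum.elim x 0))) q.1.1.1 q.1.1.2) := ⟨_, rfl⟩
  have hcong : ∀ y, c2_S (K4_M e (asm y)) =
      c2_S (K4_M e (asm (Sum.elim (fun i => y (Sum.inl i)) 0))) := by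
    intro y
    have key : ∀ (i k : Fin n), ((∃ a, i = S a) ∨ ∃ a, k = S a) →
        (Shp.eps κ n).mat (ser (asm y)) i k =
          (Shp.eps κ n).mat (ser (asm (Sum.elim (fun i => y (Sum.inl i)) 0))) i k := by
      intro i k hik
      refine K4_mat_congr _ _ i k fun p hp => ?_
      have hp' : p ∉ Set.range CI := by
        rcases hik with ⟨a, rfl⟩ | ⟨a, rfl⟩
        · rcases hp with hp | hp
          · exact hout p a (Or.inl hp.1)
          · exact hout p a (Or.inr hp.2)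
        · rcases hp with hp | hp
          · exact hout p a (Or.inr hp.2)
          · exact hout p a (Or.inl hp.1)
      refine K4_ser_congr _ _ p ?_ fun l => ?_
      · rw [a1, a1]
        rfl
      · rw [a2 y ⟨p, hp'⟩ l, a2 _ ⟨p, hp'⟩ l]
        rfl
    refine c2_S_congr _ _ (fun i k => key _ _ (Or.inl ⟨i, heS i⟩))
      (fun i k => key _ _ (Or.inr ⟨k, heS k⟩))
  obtain ⟨E0, hE0⟩ : ∃ E0 : Set ((Shp.eps κ n).Idx ⊕ ({p // p ∉ Set.range CI} × Fin L) → ℂ),
      E0 = prodSet Q Set.univ := ⟨_, rfl⟩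
  have cE0 : Constr E0 := by
    rw [hE0]
    exact hQ.prodSet constr_univ
  have cF := constr_SPS (Shp.eps κ n') L fun E => Φ (shiftE ρ (L + 1) E)
  have step2 : {y | asm y ∈ A} = {z | (fun i => z (Sum.inl i)) ∈ E0 ∧
      (fun j => z (Sum.inr j) - φ (fun i => z (Sum.inl i)) j) ∈
        SPS (Shp.eps κ n') L fun E => Φ (shiftE ρ (L + 1) E)} := by
    ext z
    have hz0 : (fun p => asm z (p, 0)) = fun p => z (Sum.inl (Sum.inl p)) := by
      funext p
      exact a1 z p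
    have hmem : asm z ∈ A ↔ (fun p => z (Sum.inl (Sum.inl p))) ∈ Q ∧
        Φ ((Shp.eps κ n).et (L + 1) (ser (asm z))) := by
      rw [hA, ← hz0]
      rfl
    have hmem2 : (fun i => z (Sum.inl i)) ∈ E0 ↔ (fun p => z (Sum.inl (Sum.inl p))) ∈ Q := by
      rw [hE0]
      exact ⟨fun h => h.1, fun h => ⟨h, Set.mem_univ _⟩⟩
    show asm z ∈ A ↔ (fun i => z (Sum.inl i)) ∈ E0 ∧
      (fun j => z (Sum.inr j) - φ (fun i => z (Sum.inl i)) j) ∈
        SPS (Shp.eps κ n') L fun E => Φ (shiftE ρ (L + 1) E)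
    rw [hmem, hmem2]
    refine and_congr_right fun hzQ => ?_
    have h3 := K4_et e S heS (asm z) (by rw [hz0]; exact hQ1 _ hzQ) (by rw [hz0]; exact hQR hzQ)
      (fun j => z (Sum.inr j) - φ (fun i => z (Sum.inl i)) j) (fun p l => by
        have b1 : K4_M e (asm z) (Sum.inr p.1.1) (Sum.inr p.1.2) = ser (asm z) (CI p) := by
          show (Shp.eps κ n).mat (ser (asm z)) (e (Sum.inr p.1.1)) (e (Sum.inr p.1.2)) = _
          rw [hec, hec, K4_mat_cI, ← hCI]
          exact congrFun (Shp.ent_mat (Shp.eps κ n') fun p => ser (asm z) (CI p)) p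
        rw [map_sub, b1, K4_ser_succ, a3, hcong z, hφ])
    rw [h3]
    rfl
  have hφr : RegularOn E0 φ := by
    have hreg : RegularOn E0 fun x => asm (Sum.elim x 0) := by
      intro q
      rw [hasm]
      rcases h : E.symm q with i | j
      · have h1 : (fun x : ((Shp.eps κ n).Idx ⊕ ({p // p ∉ Set.range CI} × Fin L) → ℂ) =>
            (fun (y : ((Shp.eps κ n).Idx ⊕ ({p // p ∉ Set.range CI} × Fin L)) ⊕
              ((Shp.eps κ n').Idx × Fin L) → ℂ) i => y (E.symm i)) (Sum.elim x 0) q) =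
            fun x => x i := by
          funext x
          show (Sum.elim x 0 : _ → ℂ) (E.symm q) = x i
          rw [h]
          rfl
        rw [h1]
        exact regFun_coord _ i
      · have h1 : (fun x : ((Shp.eps κ n).Idx ⊕ ({p // p ∉ Set.range CI} × Fin L) → ℂ) =>
            (fun (y : ((Shp.eps κ n).Idx ⊕ ({p // p ∉ Set.range CI} × Fin L)) ⊕
              ((Shp.eps κ n').Idx × Fin L) → ℂ) i => y (E.symm i)) (Sum.elim x 0) q) =
            fun _ => 0 := by
          funext x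
          show (Sum.elim x 0 : _ → ℂ) (E.symm q) = 0
          rw [h]
          rfl
        rw [h1]
        exact regFun_const _ 0
    intro j
    rw [hφ]
    refine c2_regSer_S (E := E0) (M := fun x => K4_M e (asm (Sum.elim x 0))) (fun i k l => ?_)
      (fun x hx => ?_) j.1.1.1 j.1.1.2 _
    · exact RegFun.comp (f := fun x => asm (Sum.elim x 0)) hreg
        (regSer_mat_ser (Shp.eps κ n) Set.univ (e i) (e k) l) fun _ _ => Set.mem_univ _
    · refine K4_unit e S heS _ ?_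
      have h1 : (fun p => asm (Sum.elim x 0) (p, 0)) = fun p => x (Sum.inl p) := by
        funext p
        exact a1 _ p
      rw [h1]
      rw [hE0] at hx
      exact hQ1 _ hx.1
  have cC : Constr {z | (fun i => z (Sum.inl i)) ∈ E0 ∧
      (fun j => z (Sum.inr j) - φ (fun i => z (Sum.inl i)) j) ∈
        SPS (Shp.eps κ n') L fun E => Φ (shiftE ρ (L + 1) E)} := by
    rw [← step2, hasm]
    exact cA.comp E.symm
  have step3 := cls_shear E0 cE0 _ cF φ hφr cC
  have step4 : cls E0 = cls Q * LL ^ (((Shp.eps κ n).dim - (Shp.eps κ n').dim) * L) := by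
    have := Fintype.ofFinite ((Shp.eps κ n).Idx)
    have := Fintype.ofFinite ((Shp.eps κ n').Idx)
    rw [hE0, cls_prodSet hQ constr_univ, cls_univ, Fintype.card_prod, Fintype.card_fin]
    congr 3
    have h1 : Nat.card (Shp.eps κ n).Idx = Nat.card (Shp.eps κ n').Idx +
        Nat.card {p // p ∉ Set.range CI} := by
      rw [← Nat.card_congr (Equiv.Set.sumCompl (Set.range CI)), Nat.card_sum,
        ← Nat.card_congr (Equiv.ofInjective CI hCIi)]
      rfl
    rw [Shp.card_Idx, Shp.card_Idx, Nat.card_eq_fintype_card] at h1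
    omega
  rw [step1, step2, step3, step4]

theorem cls_pieceE (κ : Bool) (n ρ L : ℕ) (hρ : ρ ≤ (Shp.eps κ n).rk)
    (S : Fin ((Shp.eps κ n).st * ρ) → Fin n) (Q : Set ((Shp.eps κ n).Idx → ℂ)) (hQ : Constr Q)
    (hQR : Q ⊆ (Shp.eps κ n).RankS ρ)
    (hQ1 : ∀ x ∈ Q, (((Shp.eps κ n).mat x).submatrix S S).det ≠ 0) (Φ : (ℕ → ℕ) → Prop) :
    cls {γ : (Shp.eps κ n).Idx × Fin (L + 1) → ℂ |
        (fun p => γ (p, 0)) ∈ Q ∧ Φ ((Shp.eps κ n).et (L + 1) (ser γ))} =
      cls Q * LL ^ (((Shp.eps κ n).dim - ((Shp.eps κ n).res ρ).dim) * L) *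
        cls (SPS ((Shp.eps κ n).res ρ) L fun E => Φ (shiftE ρ (L + 1) E)) := by
  rcases Set.eq_empty_or_nonempty Q with hQe | ⟨A₀, hA₀⟩
  · have h1 : {γ : (Shp.eps κ n).Idx × Fin (L + 1) → ℂ |
        (fun p => γ (p, 0)) ∈ Q ∧ Φ ((Shp.eps κ n).et (L + 1) (ser γ))} = ∅ := by
      ext γ
      simp [hQe]
    rw [h1, hQe, cls_empty, cls_empty, zero_mul, zero_mul]
  have hdet := hQ1 A₀ hA₀
  have hS : Function.Injective S := by
    intro a b hab
    by_contra hne
    exact hdet (Matrix.det_zero_of_row_eq hne (by funext c; simp [hab]))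
  have hle : (Shp.eps κ n).st * ρ ≤ n := by
    have := Fintype.card_le_of_injective S hS
    rwa [Fintype.card_fin, Fintype.card_fin] at this
  exact K4_piece (n' := n - (if κ = true then 1 else 2) * ρ) (by
    show (if κ = true then 1 else 2) * ρ + (n - (if κ = true then 1 else 2) * ρ) = n
    exact Nat.add_sub_cancel' hle) S hS Q hQ hQR hQ1 Φ

end MotMono
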