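import Pool.Agent.Lib.MP_4e5fcd_ag.Cl.K4
import Pool.Agent.Lib.MP_4e5fcd_ag.Det.C3b

/-! # CL-K6: the rank strata of one space of matrices

PROOF. For `gen m n` everything is in `Det/C3b.lean` (`SPS_gen`, `rankS_gen`). For `eps κ n`: port of
`Det/C3b.lean` with the principal minors `S : Fin (st ρ) → Fin n` instead of `(S, T)` (every point of
`RankS ρ` has a nonvanishing principal minor by `exists_principal`), `exists_unique_rankS`, `cls_first`
and `cls_pieceE`. `cls_rankS_zero`: `RankS 0 = {0}` (for skew-symmetric matrices `st * 0 + 1 = 1`). -/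

open MvPolynomial

namespace MotMono

private theorem k6_mat_zero (σ : Shp) : σ.mat (0 : σ.Idx → ℂ) = 0 := by
  cases σ with
  | gen m n => rfl
  | eps κ n =>
    ext i k
    simp only [Shp.mat, Matrix.zero_apply]
    split_ifs <;> first | rfl | exact mul_zero _

theorem cls_rankS_zero (σ : Shp) : cls (σ.RankS 0) = 1 := by
  have h : σ.RankS 0 = {0} := by
    ext x
    rw [Set.mem_singleton_iff]
    constructor
    · rintro ⟨-, h⟩
      have h' : ∀ (S : Fin 1 → Fin σ.row) (T : Fin 1 → Fin σ.col),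
        ((σ.mat x).submatrix S T).det = 0 := h
      have h0 : ∀ i k, σ.mat x i k = 0 := by
        intro i k
        have h1 := h' (fun _ => i) (fun _ => k)
        rw [Matrix.det_fin_one] at h1
        exact h1
      rw [← Shp.ent_mat σ x]
      funext p
      exact h0 _ _
    · rintro rfl
      refine ⟨?_, ?_⟩
      · show ∃ (S : Fin 0 → Fin σ.row) (T : Fin 0 → Fin σ.col),
          ((σ.mat (0 : σ.Idx → ℂ)).submatrix S T).det ≠ 0
        exact ⟨Fin.elim0, Fin.elim0, by rw [Matrix.det_isEmpty]; exact one_ne_zero⟩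
      · show ∀ (S : Fin 1 → Fin σ.row) (T : Fin 1 → Fin σ.col),
          ((σ.mat (0 : σ.Idx → ℂ)).submatrix S T).det = 0
        intro S T
        rw [Matrix.det_fin_one, k6_mat_zero]
        rfl
  rw [h, cls_singleton]

private theorem k6_disj (σ : Shp) (hσ : σ.Le) {ι : Type} (π : ι → σ.Idx → ℂ) (F : Set ι) (i : ℕ)
    (hi : i ∈ Finset.range (σ.rk + 1)) (j : ℕ) (hj : j ∈ Finset.range (σ.rk + 1)) (hij : i ≠ j) :
    Disjoint (F ∩ π ⁻¹' σ.RankS i) (F ∩ π ⁻¹' σ.RankS j) := by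
  rw [Set.disjoint_left]
  rintro γ ⟨-, h1⟩ ⟨-, h2⟩
  obtain ⟨ρ, -, h3⟩ := exists_unique_rankS σ hσ (π γ)
  have e1 := h3 i ⟨by have := Finset.mem_range.1 hi; omega, h1⟩
  have e2 := h3 j ⟨by have := Finset.mem_range.1 hj; omega, h2⟩
  exact hij (e1.trans e2.symm)

theorem sum_rankS (σ : Shp) (hσ : σ.Le) :
    ∑ ρ ∈ Finset.range (σ.rk + 1), cls (σ.RankS ρ) = LL ^ σ.dim := by
  rw [← cls_biUnion (Finset.range (σ.rk + 1)) (fun ρ _ => constr_rankS σ ρ)]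
  · have h : (⋃ ρ ∈ Finset.range (σ.rk + 1), σ.RankS ρ) = Set.univ := by
      refine Set.eq_univ_of_forall fun A => ?_
      obtain ⟨ρ, ⟨h1, h2⟩, -⟩ := exists_unique_rankS σ hσ A
      exact Set.mem_biUnion (Finset.mem_coe.2 (Finset.mem_range.2 (by omega))) h2
    have : Fintype σ.Idx := Fintype.ofFinite _
    rw [h, cls_univ, ← Nat.card_eq_fintype_card, Shp.card_Idx]
  · intro i hi j hj hij
    have h := k6_disj σ hσ (fun x : σ.Idx → ℂ => x) Set.univ i hi j hj hij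
    simpa using h

private theorem k6_eval_minor (σ : Shp) {r : ℕ} (S : Fin r → Fin σ.row) (T : Fin r → Fin σ.col)
    (x : σ.Idx → ℂ) :
    eval x ((σ.mat fun p => (X p : MvPolynomial σ.Idx ℂ)).submatrix S T).det =
      ((σ.mat x).submatrix S T).det := by
  rw [RingHom.map_det]
  congr 1
  have h := Shp.mat_map σ (eval x) (fun p => (X p : MvPolynomial σ.Idx ℂ))
  have h2 : (fun p => eval x (X p : MvPolynomial σ.Idx ℂ)) = x := by
    funext p
    rw [eval_X]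
  rw [h2] at h
  rw [h]
  rfl

private theorem k6_constr_minor (σ : Shp) {r : ℕ} (S : Fin r → Fin σ.row)
    (T : Fin r → Fin σ.col) :
    Constr {x : σ.Idx → ℂ | ((σ.mat x).submatrix S T).det ≠ 0} := by
  have h := constr_ne ((σ.mat fun p => (X p : MvPolynomial σ.Idx ℂ)).submatrix S T).det
  simpa only [k6_eval_minor] using h

private theorem k6_eps (κ : Bool) (n L : ℕ) (Φ : (ℕ → ℕ) → Prop) :
    cls (SPS (Shp.eps κ n) (L + 1) Φ) = ∑ ρ ∈ Finset.range ((Shp.eps κ n).rk + 1),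
      cls ((Shp.eps κ n).RankS ρ) *
        LL ^ (((Shp.eps κ n).dim - ((Shp.eps κ n).res ρ).dim) * L) *
        cls (SPS ((Shp.eps κ n).res ρ) L fun E => Φ (shiftE ρ (L + 1) E)) := by
  have hσ : (Shp.eps κ n).Le := trivial
  set σ := Shp.eps κ n with hσdef
  set π : (σ.Idx × Fin (L + 1) → ℂ) → (σ.Idx → ℂ) := fun γ c => γ (c, 0) with hπdef
  have hπ : ∀ E : Set (σ.Idx → ℂ), Constr E → Constr (π ⁻¹' E) := fun E hE =>
    hE.comp (fun c => (c, (0 : Fin (L + 1))))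
  have hcon : ∀ ρ, Constr (SPS σ (L + 1) Φ ∩ π ⁻¹' σ.RankS ρ) := fun ρ =>
    (constr_SPS σ (L + 1) Φ).inter (hπ _ (constr_rankS σ ρ))
  have hun : SPS σ (L + 1) Φ
      = ⋃ ρ ∈ Finset.range (σ.rk + 1), (SPS σ (L + 1) Φ ∩ π ⁻¹' σ.RankS ρ) := by
    ext γ
    constructor
    · intro h
      obtain ⟨ρ, ⟨h1, h2⟩, -⟩ := exists_unique_rankS σ hσ (π γ)
      exact Set.mem_biUnion (Finset.mem_coe.2 (Finset.mem_range.2 (by omega))) ⟨h, h2⟩
    · intro h
      rw [Set.mem_iUnion₂] at h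
      obtain ⟨ρ, -, h⟩ := h
      exact h.1
  have h1 : cls (SPS σ (L + 1) Φ)
      = ∑ ρ ∈ Finset.range (σ.rk + 1), cls (SPS σ (L + 1) Φ ∩ π ⁻¹' σ.RankS ρ) := by
    conv_lhs => rw [hun]
    exact cls_biUnion (Finset.range (σ.rk + 1)) (fun ρ _ => hcon ρ)
      (fun i hi j hj hij => k6_disj σ hσ π (SPS σ (L + 1) Φ) i hi j hj hij)
  rw [h1]
  refine Finset.sum_congr rfl fun ρ hρ => ?_
  have hρm : ρ ≤ σ.rk := by have := Finset.mem_range.1 hρ; omega
  -- enumeration of the principal minors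
  set K : ℕ := Fintype.card (Fin (σ.st * ρ) → Fin n) with hK
  let e : (Fin (σ.st * ρ) → Fin n) ≃ Fin K := Fintype.equivFin _
  set P : Fin K → (σ.Idx → ℂ) → Prop := fun p x =>
    ((σ.mat x).submatrix (e.symm p) (e.symm p)).det ≠ 0 with hP
  have hPc : ∀ p, Constr {x | P p x} := fun p => k6_constr_minor σ (e.symm p) (e.symm p)
  have hEP : ∀ x ∈ σ.RankS ρ, ∃ p, P p x := by
    intro x hx
    obtain ⟨S, -, hS⟩ := exists_principal κ n (σ.st * ρ) (σ.mat x)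
      (Shp.mat_transpose κ n x) hx.1 hx.2
    refine ⟨e S, ?_⟩
    rw [hP]
    simp only [Equiv.symm_apply_apply]
    exact hS
  have hE := constr_rankS σ ρ
  have h2 := cls_first π hπ (σ.RankS ρ) hE P hPc hEP (SPS σ (L + 1) Φ ∩ π ⁻¹' σ.RankS ρ)
    (hcon ρ) (fun y hy => hy.2)
  have h3 := cls_first (fun x : σ.Idx → ℂ => x) (fun E hE => hE) (σ.RankS ρ) hE P hPc
    hEP (σ.RankS ρ) hE (fun y hy => hy)
  rw [h2, h3, Finset.sum_mul, Finset.sum_mul]
  refine Finset.sum_congr rfl fun p _ => ?_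
  have hQ := c3b_constr_first (σ.RankS ρ) hE P hPc p
  have e3 : σ.RankS ρ ∩ (fun x : σ.Idx → ℂ => x) ⁻¹'
      {x | x ∈ σ.RankS ρ ∧ P p x ∧ ∀ p' < p, ¬ P p' x}
        = {x | x ∈ σ.RankS ρ ∧ P p x ∧ ∀ p' < p, ¬ P p' x} := by
    ext x
    exact ⟨fun h => h.2, fun h => ⟨h.1, h⟩⟩
  have e2 : (SPS σ (L + 1) Φ ∩ π ⁻¹' σ.RankS ρ) ∩
      π ⁻¹' {x | x ∈ σ.RankS ρ ∧ P p x ∧ ∀ p' < p, ¬ P p' x}
        = {γ : σ.Idx × Fin (L + 1) → ℂ |
            (fun c => γ (c, 0)) ∈ {x | x ∈ σ.RankS ρ ∧ P p x ∧ ∀ p' < p, ¬ P p' x} ∧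
              Φ (σ.et (L + 1) (ser γ))} := by
    ext γ
    constructor
    · rintro ⟨⟨h4, -⟩, h5⟩
      exact ⟨h5, h4⟩
    · rintro ⟨h4, h5⟩
      exact ⟨⟨h5, h4.1⟩, h4⟩
  rw [e2, e3]
  exact cls_pieceE κ n ρ L hρm (e.symm p) _ hQ (fun x hx => hx.1) (fun x hx => hx.2.1) Φ

private theorem k6_cls_gen (m n L : ℕ) (Φ : (ℕ → ℕ) → Prop) :
    cls (SPS (Shp.gen m n) L Φ) = cls (SP m n L Φ) :=
  congrArg (fun E : Set ((Shp.gen m n).Idx × Fin L → ℂ) => cls E) (SPS_gen m n L Φ)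

private theorem k6_rank_gen (m n ρ : ℕ) :
    cls ((Shp.gen m n).RankS ρ) = cls (RankSet m n ρ) :=
  congrArg (fun E : Set ((Shp.gen m n).Idx → ℂ) => cls E) (rankS_gen m n ρ)

theorem cls_SPS_succ (σ : Shp) (hσ : σ.Le) (L : ℕ) (Φ : (ℕ → ℕ) → Prop) :
    cls (SPS σ (L + 1) Φ) = ∑ ρ ∈ Finset.range (σ.rk + 1),
      cls (σ.RankS ρ) * LL ^ ((σ.dim - (σ.res ρ).dim) * L) *
        cls (SPS (σ.res ρ) L fun E => Φ (shiftE ρ (L + 1) E)) := by
  cases σ with
  | gen m n =>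
    have h := cls_SP_succ m n L hσ Φ
    rw [k6_cls_gen, h]
    refine Finset.sum_congr rfl fun ρ _ => ?_
    rw [k6_rank_gen]
    have h2 : cls (SPS ((Shp.gen m n).res ρ) L fun E => Φ (shiftE ρ (L + 1) E)) =
        cls (SP (m - ρ) (n - ρ) L fun E => Φ (shiftE ρ (L + 1) E)) :=
      k6_cls_gen (m - ρ) (n - ρ) L _
    rw [h2]
    rfl
  | eps κ n => exact k6_eps κ n L Φ

end MotMono
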