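import Pool.Agent.Lib.MP_4e5fcd_ag.Cl.P2
import Pool.Agent.Lib.MP_4e5fcd_ag.Cl.E1

/-! # CL-P3: the exponents of the restriction to the points of the form of the reference point

PROOF. `aeval_fpR`: both sides are algebra homomorphisms in `f` (only rows `< row` occur). `ef_of_support`: as
`exS_of_support` (`CL-E1`): apply `shSub_expand` over the polynomial ring in the variables `X (a, i)` with
diagonal matrices: for `gen` the entries `X (a, i) ^ 2` and `1`, for `eps` the entries `X (a, j) ^ 2` if `j` has a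
right partner, `X (a, j)` if `j` has no partner, and `1` for right partners. So an entry in row `i` of a point
`FPS z` is multiplied with `X (a, i) ^ 2`; the coefficient of `X ^ (2 κ)` gives the element.
The variables of rows not in `CRS` do not occur in `fpR e u f` (there is no position `isC` in such a row).
`ef_spec`: from `aeval_fpR` and `MvPolynomial.funext`. -/

open MvPolynomial

namespace MotMono

variable {s N : ℕ} {σ : Fin s → Shp}

theorem aeval_fpR {R : Type} [CommRing R] [Algebra ℂ R] (e : (Σ a, (σ a).Idx) ≃ Fin N)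
    (u : (Σ a, Fin (σ a).rk) → ℕ) (z : Fin s → ℕ → R) (f : MvPolynomial (Fin N) ℂ) :
    aeval (fun c : (Σ a, Fin (σ a).row) => z c.1 c.2) (fpR e u f) = aeval (FPS e u z) f := by
  have h1 : (aeval (fun c : (Σ a, Fin (σ a).row) => z c.1 c.2)).comp
      (aeval (FPS e u fun a i =>
        if h : i < (σ a).row then (X ⟨a, ⟨i, h⟩⟩ : MvPolynomial (Σ a, Fin (σ a).row) ℂ) else 0) :
        MvPolynomial (Fin N) ℂ →ₐ[ℂ] MvPolynomial (Σ a, Fin (σ a).row) ℂ) =
      (aeval (FPS e u z) : MvPolynomial (Fin N) ℂ →ₐ[ℂ] R) := by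
    apply MvPolynomial.algHom_ext
    intro x
    rw [AlgHom.comp_apply, aeval_X, aeval_X]
    show aeval (fun c : (Σ a, Fin (σ a).row) => z c.1 c.2)
        ((σ (e.symm x).1).FP (bS u (e.symm x).1)
          (fun i => if h : i < (σ (e.symm x).1).row then
            (X ⟨(e.symm x).1, ⟨i, h⟩⟩ : MvPolynomial (Σ a, Fin (σ a).row) ℂ) else 0)
          (e.symm x).2) =
      (σ (e.symm x).1).FP (bS u (e.symm x).1) (z (e.symm x).1) (e.symm x).2
    unfold Shp.FP
    split_ifs with hp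
    · beta_reduce
      rw [dif_pos ((σ (e.symm x).1).pr (e.symm x).2).2, aeval_X]
    · rw [map_zero]
  exact congrArg (fun φ : MvPolynomial (Fin N) ℂ →ₐ[ℂ] R => φ f) h1

private theorem P3_ev {ι : Type} (v : ι → ℂ) (f : MvPolynomial ι ℂ) :
    aeval v f = eval v f := by
  rw [aeval_def, Algebra.algebraMap_self, eval₂_id]

private theorem P3_mon {ι : Type} [Fintype ι] (d : ι → ℂ) (β : ι →₀ ℕ) (a : ℂ) :
    aeval (fun c => (X c : MvPolynomial ι ℂ) ^ 2 * C (d c)) (monomial β a) =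
      monomial (2 • β) (a * ∏ c, d c ^ β c) := by
  rw [aeval_monomial, Finsupp.prod_fintype _ _ (fun _ => pow_zero _)]
  have h1 : ∀ c, ((X c : MvPolynomial ι ℂ) ^ 2 * C (d c)) ^ β c =
      X c ^ (2 • β) c * C (d c ^ β c) := by
    intro c
    rw [mul_pow, ← pow_mul, ← C_pow]
    rfl
  rw [Finset.prod_congr rfl fun c _ => h1 c, Finset.prod_mul_distrib, ← map_prod]
  have h2 : (∏ c, (X c : MvPolynomial ι ℂ) ^ (2 • β) c) = monomial (2 • β) 1 := by
    rw [monomial_eq, C_1, one_mul, Finsupp.prod_fintype _ _ (fun _ => pow_zero _)]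
  rw [h2, algebraMap_eq, mul_comm (monomial (2 • β) 1), ← mul_assoc, ← C_mul, C_mul_monomial,
    mul_one]

private theorem P3_coeff {ι : Type} [Fintype ι] (d : ι → ℂ) (P : MvPolynomial ι ℂ) (β : ι →₀ ℕ) :
    coeff (2 • β) (aeval (fun c => (X c : MvPolynomial ι ℂ) ^ 2 * C (d c)) P) =
      coeff β P * ∏ c, d c ^ β c := by
  classical
  induction P using MvPolynomial.induction_on' with
  | monomial u a =>
    rw [P3_mon, coeff_monomial, coeff_monomial]
    by_cases h : u = β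
    · rw [if_pos h, if_pos (by rw [h]), h]
    · rw [if_neg h, if_neg, zero_mul]
      intro h2
      apply h
      ext c
      have h3 := DFunLike.congr_fun h2 c
      rw [Finsupp.smul_apply, Finsupp.smul_apply, smul_eq_mul, smul_eq_mul] at h3
      omega
  | add p q hp hq =>
    rw [map_add, coeff_add, hp, hq, coeff_add, add_mul]

open Classical in
/-- the factors of the rows -/
private noncomputable def P3_r {R : Type} [CommRing R] : Shp → (ℕ → ℕ) → (ℕ → R) → ℕ → R
  | .gen _ _, _, V, i => V i ^ 2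
  | .eps κ n, b, V, i => if lpp κ b n i then V i ^ 2 else if unq κ b n i then V i else 1

open Classical in
/-- the factors of the columns -/
private noncomputable def P3_c {R : Type} [CommRing R] : Shp → (ℕ → ℕ) → (ℕ → R) → ℕ → R
  | .gen _ _, _, _, _ => 1
  | .eps κ n, b, V, i => if lpp κ b n i then V i ^ 2 else if unq κ b n i then V i else 1

private theorem P3_rc {R : Type} [CommRing R] (τ : Shp) (b : ℕ → ℕ) (V : ℕ → R) (p : τ.Idx)
    (hp : τ.isC b p) : P3_r τ b V (τ.pr p) * P3_c τ b V (τ.pc p) = V (τ.pr p) ^ 2 := by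
  cases τ with
  | gen m n =>
    show V _ ^ 2 * 1 = V _ ^ 2
    rw [mul_one]
  | eps κ n =>
    obtain ⟨⟨i, k⟩, hik⟩ := p
    rcases hp with ⟨h1, h2⟩ | ⟨h1, h2⟩
    · have h1' : lpp κ b n (i : ℕ) := h1
      have h2' : (k : ℕ) = i + 1 := h2
      have h3 : ¬ lpp κ b n (k : ℕ) := by
        intro h4
        apply lpp_disj κ b n _ h4
        rw [h2', Nat.add_sub_cancel]
        exact ⟨Nat.succ_pos _, h1'⟩
      have h5 : ¬ unq κ b n (k : ℕ) := by
        intro h4
        apply h4.2.2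
        rw [h2', Nat.add_sub_cancel]
        exact ⟨Nat.succ_pos _, h1'⟩
      have e1 : P3_r (.eps κ n) b V (i : ℕ) = V i ^ 2 := if_pos h1'
      have e2 : P3_c (.eps κ n) b V (k : ℕ) = 1 := (if_neg h3).trans (if_neg h5)
      show P3_r (.eps κ n) b V (i : ℕ) * P3_c (.eps κ n) b V (k : ℕ) = V i ^ 2
      rw [e1, e2, mul_one]
    · have h1' : unq κ b n (i : ℕ) := h1
      have h2' : (k : ℕ) = i := h2
      have e1 : P3_r (.eps κ n) b V (i : ℕ) = V i := (if_neg h1'.2.1).trans (if_pos h1')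
      have e2 : P3_c (.eps κ n) b V (i : ℕ) = V i := (if_neg h1'.2.1).trans (if_pos h1')
      show P3_r (.eps κ n) b V (i : ℕ) * P3_c (.eps κ n) b V (k : ℕ) = V i ^ 2
      rw [h2', e1, e2, sq]

private theorem P3_act {R : Type} [CommRing R] (τ : Shp) (b : ℕ → ℕ) (V z : ℕ → R) (p : τ.Idx) :
    τ.actI (Matrix.diagonal fun i : Fin τ.row => P3_r τ b V i)
      (Matrix.diagonal fun k : Fin τ.col => P3_c τ b V k) (τ.FP b z) p =
      τ.FP b (fun i => V i ^ 2 * z i) p := by
  rw [Shp.actI_diagonal τ (P3_r τ b V) (P3_c τ b V) (by rintro κ n rfl; rfl)]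
  unfold Shp.FP
  split_ifs with hp
  · rw [P3_rc τ b V p hp]
  · rw [mul_zero]

private theorem P3_supp (e : (Σ a, (σ a).Idx) ≃ Fin N) (hσ : ∀ a, (σ a).Le)
    (u : (Σ a, Fin (σ a).rk) → ℕ) (f : MvPolynomial (Fin N) ℂ) :
    fpR e u f ∈ supported ℂ {c : Σ a, Fin (σ a).row | CRS u c} := by
  unfold fpR
  induction f using MvPolynomial.induction_on with
  | C a =>
    rw [aeval_C]
    exact Subalgebra.algebraMap_mem _ _
  | add p q hp hq =>
    rw [map_add]
    exact Subalgebra.add_mem _ hp hq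
  | mul_X p x hp =>
    rw [map_mul, aeval_X]
    refine Subalgebra.mul_mem _ hp ?_
    show (σ (e.symm x).1).FP (bS u (e.symm x).1)
      (fun i => if h : i < (σ (e.symm x).1).row then
        (X ⟨(e.symm x).1, ⟨i, h⟩⟩ : MvPolynomial (Σ a, Fin (σ a).row) ℂ) else 0)
      (e.symm x).2 ∈ supported ℂ {c : Σ a, Fin (σ a).row | CRS u c}
    unfold Shp.FP
    split_ifs with hx
    · beta_reduce
      rw [dif_pos ((σ (e.symm x).1).pr (e.symm x).2).2]
      rw [X_mem_supported]
      show (σ (e.symm x).1).CR (bS u (e.symm x).1) _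
      exact (Shp.CR_or _ _ (hσ _) _ ((σ (e.symm x).1).pr (e.symm x).2).2).1
        ⟨(e.symm x).2, hx, rfl⟩
    · exact Subalgebra.zero_mem _

theorem ef_of_support (e : (Σ a, (σ a).Idx) ≃ Fin N) (hσ : ∀ a, (σ a).Le)
    (I : Ideal (MvPolynomial (Fin N) ℂ)) (hI : ShStable σ e I) (u : (Σ a, Fin (σ a).rk) → ℕ)
    (f : MvPolynomial (Fin N) ℂ) (hf : f ∈ I) (κ : (Σ a, Fin (σ a).row) →₀ ℕ)
    (hκ : κ ∈ (fpR e u f).support) : (fun c => κ c) ∈ EF e I u := by
  refine ⟨fun c hc => ?_, ?_⟩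
  · by_contra hne
    have h1 := P3_supp e hσ u f
    rw [mem_supported] at h1
    exact hc (h1 (Finset.mem_coe.mpr ((mem_vars_iff_mem_support c).mpr ⟨κ, hκ, Finsupp.mem_support_iff.mpr hne⟩)))
  obtain ⟨K, c, F, hF, hexp⟩ := shSub_expand e I hI f hf
  -- the variables
  set V : Fin s → ℕ → MvPolynomial (Σ a, Fin (σ a).row) ℂ := fun a i =>
    if h : i < (σ a).row then X ⟨a, ⟨i, h⟩⟩ else 0 with hV
  set g : ∀ a, Matrix (Fin (σ a).row) (Fin (σ a).row) (MvPolynomial (Σ a, Fin (σ a).row) ℂ) :=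
    fun a => Matrix.diagonal fun j => P3_r (σ a) (bS u a) (V a) j with hg
  set h : ∀ a, Matrix (Fin (σ a).col) (Fin (σ a).col) (MvPolynomial (Σ a, Fin (σ a).row) ℂ) :=
    fun a => Matrix.diagonal fun j => P3_c (σ a) (bS u a) (V a) j with hh
  have hne : coeff κ (fpR e u f) ≠ 0 := mem_support_iff.1 hκ
  refine ⟨C (coeff κ (fpR e u f))⁻¹ *
    ∑ j, C (coeff (2 • κ) (aeval (ghS g h) (c j))) * F j, ?_, fun z => ?_⟩
  · exact I.mul_mem_left _ (Ideal.sum_mem _ fun j _ => I.mul_mem_left _ (hF j))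
  · have key := hexp g h (fun a => (σ a).FP (bS u a) fun i =>
      (C (z a i) : MvPolynomial (Σ a, Fin (σ a).row) ℂ))
    have h1 : (ptS e fun a => (σ a).actI (g a) (h a) ((σ a).FP (bS u a) fun i =>
        (C (z a i) : MvPolynomial (Σ a, Fin (σ a).row) ℂ))) =
        FPS e u fun a i => V a i ^ 2 * C (z a i) := by
      funext x
      exact P3_act (σ (e.symm x).1) (bS u (e.symm x).1) (V (e.symm x).1)
        (fun i => (C (z (e.symm x).1 i) : MvPolynomial (Σ a, Fin (σ a).row) ℂ)) (e.symm x).2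
    rw [h1, ← aeval_fpR] at key
    have h3 : (fun c : (Σ a, Fin (σ a).row) =>
        (fun a i => V a i ^ 2 * C (z a i)) c.1 c.2) =
        fun c => (X c : MvPolynomial (Σ a, Fin (σ a).row) ℂ) ^ 2 * C (z c.1 c.2) := by
      funext c
      show V c.1 c.2 ^ 2 * C (z c.1 c.2) = _
      rw [hV]
      show (if h : (c.2 : ℕ) < (σ c.1).row then (X ⟨c.1, ⟨c.2, h⟩⟩ :
        MvPolynomial (Σ a, Fin (σ a).row) ℂ) else 0) ^ 2 * _ = _
      rw [dif_pos c.2.2]
    have h4 : ∀ j, aeval (ptS e fun a => (σ a).FP (bS u a) fun i =>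
        (C (z a i) : MvPolynomial (Σ a, Fin (σ a).row) ℂ)) (F j) =
        C (eval (FPS e u z) (F j)) := by
      intro j
      have h5 : (ptS e fun a => (σ a).FP (bS u a) fun i =>
          (C (z a i) : MvPolynomial (Σ a, Fin (σ a).row) ℂ)) =
          fun x => algebraMap ℂ (MvPolynomial (Σ a, Fin (σ a).row) ℂ) (FPS e u z x) := by
        funext x
        show (σ (e.symm x).1).FP (bS u (e.symm x).1)
            (fun i => (C (z (e.symm x).1 i) : MvPolynomial (Σ a, Fin (σ a).row) ℂ))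
            (e.symm x).2 =
          C ((σ (e.symm x).1).FP (bS u (e.symm x).1) (z (e.symm x).1) (e.symm x).2)
        unfold Shp.FP
        split_ifs with hp
        · rfl
        · rw [C_0]
      have h7 := aeval_algebraMap_apply (MvPolynomial (Σ a, Fin (σ a).row) ℂ) (FPS e u z) (F j)
      rw [P3_ev] at h7
      rw [h5]
      exact h7
    have key2 := congrArg (coeff (2 • κ)) key
    rw [h3, P3_coeff, coeff_sum] at key2
    rw [map_mul, eval_C, map_sum]
    have h6 : ∑ j, eval (FPS e u z) (C (coeff (2 • κ) (aeval (ghS g h) (c j))) * F j) =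
        coeff κ (fpR e u f) * ∏ c : (Σ a, Fin (σ a).row), z c.1 c.2 ^ κ c := by
      rw [key2]
      refine Finset.sum_congr rfl fun j _ => ?_
      rw [h4, map_mul, eval_C]
      refine Eq.trans (mul_comm _ _) ?_
      rw [← coeff_C_mul]
      exact congrArg (coeff (2 • κ)) (mul_comm _ _)
    rw [h6, ← mul_assoc, inv_mul_cancel₀ hne, one_mul]

theorem ef_spec (e : (Σ a, (σ a).Idx) ≃ Fin N) (I : Ideal (MvPolynomial (Fin N) ℂ))
    (u : (Σ a, Fin (σ a).rk) → ℕ) (κ : (Σ a, Fin (σ a).row) → ℕ) (hκ : κ ∈ EF e I u) :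
    ∃ f ∈ I, ∀ {R : Type} [CommRing R] [Algebra ℂ R] (z : Fin s → ℕ → R),
      aeval (FPS e u z) f = ∏ c : (Σ a, Fin (σ a).row), z c.1 c.2 ^ κ c := by
  obtain ⟨-, f, hf, hev⟩ := hκ
  refine ⟨f, hf, ?_⟩
  have h1 : fpR e u f = ∏ c : (Σ a, Fin (σ a).row), X c ^ κ c := by
    apply MvPolynomial.funext
    intro v
    have h2 := aeval_fpR (R := ℂ) e u
      (fun a i => if h : i < (σ a).row then v ⟨a, ⟨i, h⟩⟩ else 0) f
    have h4 : (fun c : (Σ a, Fin (σ a).row) =>
        if h : (c.2 : ℕ) < (σ c.1).row then v ⟨c.1, ⟨c.2, h⟩⟩ else 0) = v := by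
      funext c
      exact dif_pos c.2.2
    rw [h4, P3_ev, P3_ev, hev] at h2
    rw [h2, map_prod]
    refine Finset.prod_congr rfl fun c _ => ?_
    rw [map_pow, eval_X]
    show (if h : (c.2 : ℕ) < (σ c.1).row then v ⟨c.1, ⟨c.2, h⟩⟩ else 0) ^ κ c = v c ^ κ c
    rw [dif_pos c.2.2]
  intro R _ _ z
  rw [← aeval_fpR, h1, map_prod]
  refine Finset.prod_congr rfl fun c _ => ?_
  rw [map_pow, aeval_X]

end MotMono
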