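import Pool.Agent.Lib.MP_4e5fcd_ag.Cl.P1
import Pool.Agent.Lib.MP_4e5fcd_ag.Cl.P3
import Pool.Agent.Lib.MP_4e5fcd_ag.Cl.A2
import Pool.Agent.Lib.MP_4e5fcd_ag.Inv.Coeff

/-! # CL-L0: homogeneous components

PROOF. `aeval_wh`: expand `f` in monomials. `comp_mem`: for `t ≠ 0` the substitution with the diagonal matrices
`g_a = diagonal (t ^ vv i)`, `h_a = diagonal (t ^ vv k)` (for `eps` only `g_a`) multiplies `X x` by
`t ^ muwS e u x` (`actI_diagonal`-type computation, or use `exists_familyS` with `Polynomial.X ^ vv`), so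
`∑ j, t ^ j • (component j of f) ∈ I`; `coeff_mem_of_eval_one`. `exists_sum_wh`: the components
(`sum_weightedHomogeneousComponent`; only finitely many are not zero). `fps_scale`: at a position `isC` the
weight is `2 * vv (pr)` (`isC_vv`). `ef_hom`: let `f` be as in `ef_spec`, `f = ∑ g j`; by `aeval_wh` and `fps_scale`
`∑ j, t ^ j * g j (FPS z) = f (FPS (t ^ (2 vv) z)) = t ^ (2 ∑ κ v) * ∏ z ^ κ` for all `t`, `z`, so `g (2 ∑ κ v)` does it.
`fpR_wh`: compare `fpR f` with its scaled version in the same way. `coeff_crv`: evaluate at `t ^ 2`: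
`aeval crvS f` composed with `X ^ 2` is `X ^ j * C (eval c₁ f)` (`crvS` at `X ^ 2` is `X ^ muwS * c₁`). -/

open MvPolynomial

namespace MotMono

variable {s N : ℕ} {σ : Fin s → Shp}

private theorem L0_wt {τ : Type} [Fintype τ] (w : τ → ℕ) (d : τ →₀ ℕ) :
    Finsupp.weight w d = ∑ c, d c * w c := by
  rw [Finsupp.weight_apply]
  exact Finsupp.sum_fintype _ _ fun _ => zero_smul _ _

private theorem L0_mono {τ R : Type} [Fintype τ] [CommRing R] [Algebra ℂ R] (w : τ → ℕ) (t : R)
    (x : τ → R) (d : τ →₀ ℕ) (c : ℂ) :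
    aeval (fun i => t ^ w i * x i) (monomial d c) =
      t ^ Finsupp.weight w d * aeval x (monomial d c) := by
  rw [aeval_monomial, aeval_monomial, Finsupp.prod_fintype _ _ fun _ => pow_zero _,
    Finsupp.prod_fintype _ _ fun _ => pow_zero _, L0_wt]
  have h1 : ∏ i, (t ^ w i * x i) ^ d i = t ^ (∑ c, d c * w c) * ∏ i, x i ^ d i := by
    rw [← Finset.prod_pow_eq_pow_sum, ← Finset.prod_mul_distrib]
    refine Finset.prod_congr rfl fun i _ => ?_
    rw [mul_pow, ← pow_mul, mul_comm (w i)]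
  rw [h1]
  ring

private theorem L0_expand {τ R : Type} [Fintype τ] [CommRing R] [Algebra ℂ R] (w : τ → ℕ) (t : R)
    (x : τ → R) (f : MvPolynomial τ ℂ) :
    aeval (fun i => t ^ w i * x i) f =
      ∑ d ∈ f.support, t ^ Finsupp.weight w d * aeval x (monomial d (f.coeff d)) := by
  conv_lhs => rw [f.as_sum, map_sum]
  exact Finset.sum_congr rfl fun d _ => L0_mono w t x d _

private theorem L0_aevalC {τ R : Type} [CommRing R] [Algebra ℂ R] (x : τ → R)
    (f : MvPolynomial τ ℂ) :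
    aeval (fun i => (Polynomial.C (x i) : Polynomial R)) f = Polynomial.C (aeval x f) := by
  have h1 : (aeval (fun i => (Polynomial.C (x i) : Polynomial R)) :
      MvPolynomial τ ℂ →ₐ[ℂ] Polynomial R) =
      ((IsScalarTower.toAlgHom ℂ R (Polynomial R)).comp (aeval x)) := by
    apply MvPolynomial.algHom_ext
    intro i
    rw [aeval_X, AlgHom.comp_apply, aeval_X]
    rfl
  rw [h1]
  rfl

private theorem L0_coeff {τ R : Type} [Fintype τ] [CommRing R] [Algebra ℂ R] (w : τ → ℕ)
    (x : τ → R) (f : MvPolynomial τ ℂ) (n : ℕ) :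
    (aeval (fun i => (Polynomial.X : Polynomial R) ^ w i * Polynomial.C (x i)) f).coeff n =
      aeval x (weightedHomogeneousComponent w n f) := by
  classical
  rw [L0_expand, Polynomial.finsetSum_coeff, weightedHomogeneousComponent_apply, map_sum,
    Finset.sum_filter]
  refine Finset.sum_congr rfl fun d _ => ?_
  rw [L0_aevalC, mul_comm, Polynomial.coeff_C_mul_X_pow]
  by_cases hd : Finsupp.weight w d = n
  · rw [if_pos hd.symm, if_pos hd]
  · rw [if_neg fun h => hd h.symm, if_neg hd]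

private theorem L0_X (e : (Σ a, (σ a).Idx) ≃ Fin N) :
    (ptS e fun a p => (X (e ⟨a, p⟩) : MvPolynomial (Fin N) ℂ)) = X := by
  funext x
  unfold ptS
  exact congrArg X (e.apply_symm_apply x)

private theorem L0_scale (e : (Σ a, (σ a).Idx) ≃ Fin N) (I : Ideal (MvPolynomial (Fin N) ℂ))
    (hI : ShStable σ e I) (u : (Σ a, Fin (σ a).rk) → ℕ) (f : MvPolynomial (Fin N) ℂ)
    (hf : f ∈ I) (t : ℂ) (ht : t ≠ 0) :
    aeval (fun x : Fin N => (C t : MvPolynomial (Fin N) ℂ) ^ muwS e u x * X x) f ∈ I := by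
  have h1 := hI (fun a => Matrix.diagonal fun i : Fin (σ a).row => t ^ (σ a).vv (bS u a) i)
    (fun a => Matrix.diagonal fun k : Fin (σ a).col => t ^ (σ a).vv (bS u a) k)
    (fun a => by
      rw [Matrix.det_diagonal]
      exact Finset.prod_ne_zero_iff.2 fun i _ => pow_ne_zero _ ht)
    (fun a => by
      rw [Matrix.det_diagonal]
      exact Finset.prod_ne_zero_iff.2 fun i _ => pow_ne_zero _ ht) f hf
  have h2 := aeval_shSub (R := MvPolynomial (Fin N) ℂ) e
    (fun a => Matrix.diagonal fun i : Fin (σ a).row => t ^ (σ a).vv (bS u a) i)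
    (fun a => Matrix.diagonal fun k : Fin (σ a).col => t ^ (σ a).vv (bS u a) k)
    (fun a p => (X (e ⟨a, p⟩) : MvPolynomial (Fin N) ℂ)) f
  rw [L0_X, aeval_X_left_apply] at h2
  rw [h2] at h1
  have h3 : (ptS e fun a => (σ a).actI
      ((Matrix.diagonal fun i : Fin (σ a).row => t ^ (σ a).vv (bS u a) i).map
        (algebraMap ℂ (MvPolynomial (Fin N) ℂ)))
      ((Matrix.diagonal fun k : Fin (σ a).col => t ^ (σ a).vv (bS u a) k).map
        (algebraMap ℂ (MvPolynomial (Fin N) ℂ)))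
      fun p => (X (e ⟨a, p⟩) : MvPolynomial (Fin N) ℂ)) =
      fun x : Fin N => (C t : MvPolynomial (Fin N) ℂ) ^ muwS e u x * X x := by
    funext x
    show (σ (e.symm x).1).actI
      ((Matrix.diagonal fun i : Fin (σ (e.symm x).1).row =>
        t ^ (σ (e.symm x).1).vv (bS u (e.symm x).1) i).map
        (algebraMap ℂ (MvPolynomial (Fin N) ℂ)))
      ((Matrix.diagonal fun k : Fin (σ (e.symm x).1).col =>
        t ^ (σ (e.symm x).1).vv (bS u (e.symm x).1) k).map
        (algebraMap ℂ (MvPolynomial (Fin N) ℂ)))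
      (fun p => (X (e ⟨(e.symm x).1, p⟩) : MvPolynomial (Fin N) ℂ)) (e.symm x).2 = _
    rw [Matrix.diagonal_map (map_zero _), Matrix.diagonal_map (map_zero _)]
    have h4 := (σ (e.symm x).1).actI_diagonal
      (fun i => algebraMap ℂ (MvPolynomial (Fin N) ℂ) (t ^ (σ (e.symm x).1).vv (bS u (e.symm x).1) i))
      (fun i => algebraMap ℂ (MvPolynomial (Fin N) ℂ) (t ^ (σ (e.symm x).1).vv (bS u (e.symm x).1) i))
      (fun _ _ _ => rfl)
      (fun p => (X (e ⟨(e.symm x).1, p⟩) : MvPolynomial (Fin N) ℂ)) (e.symm x).2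
    refine h4.trans ?_
    have h5 : (e ⟨(e.symm x).1, (e.symm x).2⟩) = x := e.apply_symm_apply x
    rw [h5, ← map_mul, ← pow_add, MvPolynomial.algebraMap_eq, map_pow]
    rfl
  rw [h3] at h1
  exact h1

open Classical in
private theorem L0_fps {R : Type} [CommRing R] (e : (Σ a, (σ a).Idx) ≃ Fin N)
    (u : (Σ a, Fin (σ a).rk) → ℕ) (z : Fin s → ℕ → R) (i : Fin N) :
    FPS e u z i = if (σ (e.symm i).1).isC (bS u (e.symm i).1) (e.symm i).2 then
      z (e.symm i).1 ((σ (e.symm i).1).pr (e.symm i).2) else 0 := rfl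

private theorem L0_fps_map {R S : Type} [CommRing R] [CommRing S] (φ : R →+* S)
    (e : (Σ a, (σ a).Idx) ≃ Fin N) (u : (Σ a, Fin (σ a).rk) → ℕ) (z : Fin s → ℕ → R) (i : Fin N) :
    FPS e u (fun a k => φ (z a k)) i = φ (FPS e u z i) := by
  rw [L0_fps, L0_fps]
  split_ifs
  · rfl
  · exact (map_zero _).symm

private theorem L0_map (w : Fin N → ℕ) (f : MvPolynomial (Fin N) ℂ) (n : ℕ) :
    (∑ d ∈ f.support, Polynomial.monomial (Finsupp.weight w d)
      (monomial d (f.coeff d) : MvPolynomial (Fin N) ℂ)).coeff n =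
      weightedHomogeneousComponent w n f := by
  classical
  rw [Polynomial.finsetSum_coeff, weightedHomogeneousComponent_apply, Finset.sum_filter]
  refine Finset.sum_congr rfl fun d _ => ?_
  rw [Polynomial.coeff_monomial]

theorem aeval_wh {R : Type} [CommRing R] [Algebra ℂ R] (w : Fin N → ℕ)
    (f : MvPolynomial (Fin N) ℂ) (j : ℕ) (hf : IsWeightedHomogeneous w f j) (t : R)
    (x : Fin N → R) : aeval (fun i => t ^ w i * x i) f = t ^ j * aeval x f := by
  rw [L0_expand]
  conv_rhs => rw [f.as_sum, map_sum, Finset.mul_sum]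
  refine Finset.sum_congr rfl fun d hd => ?_
  rw [hf (mem_support_iff.1 hd)]

theorem comp_mem (e : (Σ a, (σ a).Idx) ≃ Fin N) (I : Ideal (MvPolynomial (Fin N) ℂ))
    (hI : ShStable σ e I) (u : (Σ a, Fin (σ a).rk) → ℕ) (f : MvPolynomial (Fin N) ℂ)
    (hf : f ∈ I) (j : ℕ) : weightedHomogeneousComponent (muwS e u) j f ∈ I := by
  have h1 := coeff_mem_of_eval_one I (∑ d ∈ f.support,
    Polynomial.monomial (Finsupp.weight (muwS e u) d)
      (monomial d (f.coeff d) : MvPolynomial (Fin N) ℂ)) (fun t ht => by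
    have h2 := L0_scale e I hI u f hf t ht
    rw [L0_expand] at h2
    rw [Polynomial.eval_finset_sum]
    have h3 : ∀ d ∈ f.support, Polynomial.eval (algebraMap ℂ (MvPolynomial (Fin N) ℂ) t)
        (Polynomial.monomial (Finsupp.weight (muwS e u) d)
          (monomial d (f.coeff d) : MvPolynomial (Fin N) ℂ)) =
        (C t : MvPolynomial (Fin N) ℂ) ^ Finsupp.weight (muwS e u) d *
          aeval X (monomial d (f.coeff d)) := by
      intro d _
      rw [Polynomial.eval_monomial, aeval_X_left_apply, MvPolynomial.algebraMap_eq, mul_comm]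
    rw [Finset.sum_congr rfl h3]
    exact h2) j
  rwa [L0_map] at h1

theorem exists_sum_wh (e : (Σ a, (σ a).Idx) ≃ Fin N) (I : Ideal (MvPolynomial (Fin N) ℂ))
    (hI : ShStable σ e I) (u : (Σ a, Fin (σ a).rk) → ℕ) (f : MvPolynomial (Fin N) ℂ)
    (hf : f ∈ I) : ∃ (J : Finset ℕ) (g : ℕ → MvPolynomial (Fin N) ℂ),
      (∀ j, g j ∈ I ∧ IsWeightedHomogeneous (muwS e u) (g j) j) ∧ f = ∑ j ∈ J, g j := by
  classical
  refine ⟨f.support.image (Finsupp.weight (muwS e u)),
    fun j => weightedHomogeneousComponent (muwS e u) j f, fun j => ⟨comp_mem e I hI u f hf j,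
      weightedHomogeneousComponent_isWeightedHomogeneous j f⟩, ?_⟩
  have h1 : ∀ j ∈ f.support.image (Finsupp.weight (muwS e u)),
      weightedHomogeneousComponent (muwS e u) j f =
        ∑ d ∈ f.support with Finsupp.weight (muwS e u) d = j, monomial d (coeff d f) :=
    fun j _ => weightedHomogeneousComponent_apply j f
  rw [Finset.sum_congr rfl h1, Finset.sum_fiberwise_of_maps_to
    (fun d hd => Finset.mem_image_of_mem _ hd)]
  exact f.as_sum

theorem fps_scale {R : Type} [CommRing R] (e : (Σ a, (σ a).Idx) ≃ Fin N)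
    (u : (Σ a, Fin (σ a).rk) → ℕ) (z : Fin s → ℕ → R) (t : R) (i : Fin N) :
    FPS e u (fun a k => t ^ (2 * (σ a).vv (bS u a) k) * z a k) i =
      t ^ muwS e u i * FPS e u z i := by
  rw [L0_fps, L0_fps]
  unfold muwS Shp.muw
  by_cases h : (σ (e.symm i).1).isC (bS u (e.symm i).1) (e.symm i).2
  · rw [if_pos h, if_pos h, Shp.isC_vv _ _ _ h, ← two_mul]
  · rw [if_neg h, if_neg h, mul_zero]

theorem ef_hom (e : (Σ a, (σ a).Idx) ≃ Fin N) (I : Ideal (MvPolynomial (Fin N) ℂ))
    (hI : ShStable σ e I) (u : (Σ a, Fin (σ a).rk) → ℕ) (κ : (Σ a, Fin (σ a).row) → ℕ)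
    (hκ : κ ∈ EF e I u) :
    ∃ f ∈ I, IsWeightedHomogeneous (muwS e u) f (2 * ∑ c, κ c * vS u c) ∧
      ∀ {R : Type} [CommRing R] [Algebra ℂ R] (z : Fin s → ℕ → R),
        aeval (FPS e u z) f = ∏ c : (Σ a, Fin (σ a).row), z c.1 c.2 ^ κ c := by
  obtain ⟨f, hf, h1⟩ := ef_spec e I u κ hκ
  refine ⟨weightedHomogeneousComponent (muwS e u) (2 * ∑ c, κ c * vS u c) f,
    comp_mem e I hI u f hf _, weightedHomogeneousComponent_isWeightedHomogeneous _ f, ?_⟩
  intro R _ _ z
  rw [← L0_coeff (muwS e u) (FPS e u z) f]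
  have h2 : (fun i => (Polynomial.X : Polynomial R) ^ muwS e u i * Polynomial.C (FPS e u z i)) =
      FPS e u (fun a k => (Polynomial.X : Polynomial R) ^ (2 * (σ a).vv (bS u a) k) *
        Polynomial.C (z a k)) := by
    funext i
    rw [fps_scale, L0_fps_map Polynomial.C e u z i]
  rw [h2, h1]
  have h3 : ∏ c : (Σ a, Fin (σ a).row),
      ((Polynomial.X : Polynomial R) ^ (2 * (σ c.1).vv (bS u c.1) c.2) *
        Polynomial.C (z c.1 c.2)) ^ κ c =
      Polynomial.C (∏ c : (Σ a, Fin (σ a).row), z c.1 c.2 ^ κ c) *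
        Polynomial.X ^ (2 * ∑ c, κ c * vS u c) := by
    have h4 : ∀ c : (Σ a, Fin (σ a).row),
        ((Polynomial.X : Polynomial R) ^ (2 * (σ c.1).vv (bS u c.1) c.2) *
          Polynomial.C (z c.1 c.2)) ^ κ c =
        Polynomial.C (z c.1 c.2 ^ κ c) * Polynomial.X ^ (2 * (κ c * vS u c)) := by
      intro c
      unfold vS
      rw [mul_pow, ← pow_mul, map_pow]
      ring
    rw [Finset.prod_congr rfl fun c _ => h4 c, Finset.prod_mul_distrib, ← map_prod,
      Finset.prod_pow_eq_pow_sum, Finset.mul_sum]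
  rw [h3, Polynomial.coeff_C_mul_X_pow, if_pos rfl]

theorem fpR_wh (e : (Σ a, (σ a).Idx) ≃ Fin N) (u : (Σ a, Fin (σ a).rk) → ℕ)
    (f : MvPolynomial (Fin N) ℂ) (j : ℕ) (hf : IsWeightedHomogeneous (muwS e u) f j)
    (κ : (Σ a, Fin (σ a).row) →₀ ℕ) (hκ : κ ∈ (fpR e u f).support) :
    2 * ∑ c, κ c * vS u c = j := by
  classical
  have h1 := L0_coeff (fun c => 2 * vS u c)
    (X : (Σ a, Fin (σ a).row) → MvPolynomial (Σ a, Fin (σ a).row) ℂ) (fpR e u f)
    (Finsupp.weight (fun c => 2 * vS u c) κ)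
  rw [aeval_X_left_apply] at h1
  have h2 : aeval (fun c : (Σ a, Fin (σ a).row) =>
      (Polynomial.X : Polynomial (MvPolynomial (Σ a, Fin (σ a).row) ℂ)) ^ (2 * vS u c) *
        Polynomial.C (X c)) (fpR e u f) =
      Polynomial.X ^ j * Polynomial.C (fpR e u f) := by
    have h3 := aeval_fpR (R := Polynomial (MvPolynomial (Σ a, Fin (σ a).row) ℂ)) e u
      (fun a k => Polynomial.X ^ (2 * (σ a).vv (bS u a) k) * Polynomial.C
        (if h : k < (σ a).row then (X ⟨a, ⟨k, h⟩⟩ : MvPolynomial (Σ a, Fin (σ a).row) ℂ) else 0)) f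
    have h4 : (fun c : (Σ a, Fin (σ a).row) =>
        (Polynomial.X : Polynomial (MvPolynomial (Σ a, Fin (σ a).row) ℂ)) ^ (2 * vS u c) *
          Polynomial.C (X c)) = fun c : (Σ a, Fin (σ a).row) =>
        Polynomial.X ^ (2 * (σ c.1).vv (bS u c.1) c.2) * Polynomial.C
        (if h : (c.2 : ℕ) < (σ c.1).row then
          (X ⟨c.1, ⟨c.2, h⟩⟩ : MvPolynomial (Σ a, Fin (σ a).row) ℂ) else 0) := by
      funext c
      rw [dif_pos c.2.2]
      rfl
    rw [h4]
    refine h3.trans ?_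
    have h5 : (FPS e u fun a k =>
        (Polynomial.X : Polynomial (MvPolynomial (Σ a, Fin (σ a).row) ℂ)) ^
          (2 * (σ a).vv (bS u a) k) * Polynomial.C
        (if h : k < (σ a).row then (X ⟨a, ⟨k, h⟩⟩ : MvPolynomial (Σ a, Fin (σ a).row) ℂ) else 0)) =
        fun i => Polynomial.X ^ muwS e u i * Polynomial.C (FPS e u (fun a k =>
          if h : k < (σ a).row then (X ⟨a, ⟨k, h⟩⟩ : MvPolynomial (Σ a, Fin (σ a).row) ℂ) else 0) i) := by
      funext i
      rw [fps_scale]
      congr 1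
      exact L0_fps_map Polynomial.C e u _ i
    rw [h5, aeval_wh (muwS e u) f j hf, L0_aevalC]
    rfl
  rw [h2, mul_comm, Polynomial.coeff_C_mul_X_pow] at h1
  have h6 := congrArg (coeff κ) h1
  rw [coeff_weightedHomogeneousComponent, if_pos rfl] at h6
  have h7 : Finsupp.weight (fun c => 2 * vS u c) κ = j := by
    by_contra h8
    rw [if_neg h8, coeff_zero] at h6
    exact mem_support_iff.1 hκ h6.symm
  rw [← h7, L0_wt, Finset.mul_sum]
  exact Finset.sum_congr rfl fun c _ => by ring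

theorem coeff_crv (e : (Σ a, (σ a).Idx) ≃ Fin N) (u : (Σ a, Fin (σ a).rk) → ℕ) (δ : ℂ)
    (f : MvPolynomial (Fin N) ℂ) (j : ℕ) (hf : IsWeightedHomogeneous (muwS e u) f j) (l : ℕ) :
    (aeval (crvS e u δ) f).coeff l =
      if j = 2 * l then eval (FPS e u fun _ _ => δ) f else 0 := by
  have h1 : Polynomial.expand ℂ 2 (aeval (crvS e u δ) f) =
      Polynomial.X ^ j * Polynomial.C (eval (FPS e u fun _ _ => δ) f) := by
    have h2 : Polynomial.expand ℂ 2 (aeval (crvS e u δ) f) =
        aeval (fun i => Polynomial.expand ℂ 2 (crvS e u δ i)) f := by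
      have h3 : ((Polynomial.expand ℂ 2).comp (aeval (crvS e u δ)) :
          MvPolynomial (Fin N) ℂ →ₐ[ℂ] Polynomial ℂ) =
          aeval (fun i => Polynomial.expand ℂ 2 (crvS e u δ i)) := by
        apply MvPolynomial.algHom_ext
        intro i
        rw [AlgHom.comp_apply, aeval_X, aeval_X]
      rw [← h3]
      rfl
    have h4 : (fun i => Polynomial.expand ℂ 2 (crvS e u δ i)) =
        fun i => Polynomial.X ^ muwS e u i * Polynomial.C (FPS e u (fun _ _ => δ) i) := by
      funext i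
      have h5 := fps_scale (R := Polynomial ℂ) e u (fun _ _ => Polynomial.C δ) Polynomial.X i
      have h6 : FPS e u (fun _ _ => (Polynomial.C δ : Polynomial ℂ)) i =
          Polynomial.C (FPS e u (fun _ _ => δ) i) :=
        L0_fps_map Polynomial.C e u (fun _ _ => δ) i
      rw [← h6, ← h5]
      unfold crvS
      rw [L0_fps, L0_fps]
      split_ifs
      · rw [map_mul, map_pow, Polynomial.expand_C, Polynomial.expand_X, ← pow_mul, mul_comm]
      · exact map_zero _
    rw [h2, h4, aeval_wh (muwS e u) f j hf, L0_aevalC, aeval_def, Algebra.algebraMap_self, eval₂_id]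
  have h7 := congrArg (fun g : Polynomial ℂ => g.coeff (l * 2)) h1
  rw [Polynomial.coeff_expand_mul (by norm_num), mul_comm (Polynomial.X ^ j),
    Polynomial.coeff_C_mul_X_pow] at h7
  rw [h7]
  by_cases h8 : j = 2 * l
  · rw [if_pos h8, if_pos (by omega)]
  · rw [if_neg h8, if_neg (by omega)]

end MotMono
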