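import Pool.Agent.Lib.MP_4e5fcd_ag.Kum.E3
import Pool.Agent.Lib.MP_4e5fcd_ag.LF.X4

/-! # CL-L1: localisation of the Euler characteristic, constructibility

PROOF. `constr_zeros`: the ideal generated by the polynomials is finitely generated (Noetherian);
`constr_biInter_finset`. `constr_contactArcs`: the coefficients of `along f γ` are polynomials in `γ`. `chi_fix`:
let `S = {i | w i ≠ 0}`; `E` is the disjoint union of the fixed set and of the sets `E_i` of the `x ∈ E` with `x i ≠ 0`,
`x j = 0` for all `j < i`, `j ∈ S` (number the finite set `S`). Every `E_i` is invariant, and `χ (E_i) = 0` by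
`Kum.chi_torus` with `h = X i`, `e = w i` if `w i > 0`, and for `w i < 0` with the weights `-w` and `e = - w i`
(replace `τ` by `τ⁻¹`). -/

open MvPolynomial

namespace MotMono

theorem constr_zeros {ι : Type} [Finite ι] (S : Set (MvPolynomial ι ℂ)) :
    Constr {x : ι → ℂ | ∀ f ∈ S, eval x f = 0} := by
  classical
  obtain ⟨T, hT⟩ := IsNoetherian.noetherian (Ideal.span S)
  have e : {x : ι → ℂ | ∀ f ∈ S, eval x f = 0} = ⋂ f ∈ T, {x | eval x f = 0} := by
    ext x
    simp only [Set.mem_ofPred_eq, Set.mem_iInter]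
    have key : ∀ A B : Set (MvPolynomial ι ℂ), Ideal.span A ≤ Ideal.span B →
        (∀ f ∈ B, eval x f = 0) → ∀ f ∈ A, eval x f = 0 := by
      intro A B hAB hB f hf
      have h1 : Ideal.span B ≤ RingHom.ker (eval x) := by
        rw [Ideal.span_le]
        intro g hg
        exact hB g hg
      exact h1 (hAB (Ideal.subset_span hf))
    exact ⟨fun h => key _ _ (le_of_eq hT) h, fun h => key _ _ (le_of_eq hT.symm) h⟩
  rw [e]
  exact constr_biInter_finset T fun f _ => Constr.zeroSet f

private theorem l1_coeff {N n : ℕ} (f : MvPolynomial (Fin N) ℂ) :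
    ∀ l : ℕ, ∃ P : MvPolynomial (Fin N × Fin n) ℂ, ∀ γ, eval γ P = (along f γ).coeff l := by
  classical
  induction f using MvPolynomial.induction_on with
  | C a =>
    intro l
    refine ⟨C (if l = 0 then a else 0), fun γ => ?_⟩
    have h1 : along (C a : MvPolynomial (Fin N) ℂ) γ = Polynomial.C a := by
      unfold along
      rw [aeval_C]
      rfl
    rw [eval_C, h1, Polynomial.coeff_C]
  | add p q hp hq =>
    intro l
    obtain ⟨P, hP⟩ := hp l
    obtain ⟨Q, hQ⟩ := hq l
    refine ⟨P + Q, fun γ => ?_⟩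
    have h1 : along (p + q) γ = along p γ + along q γ := by
      unfold along
      rw [map_add]
    rw [map_add, hP, hQ, h1, Polynomial.coeff_add]
  | mul_X p i hp =>
    intro l
    choose P hP using hp
    refine ⟨∑ ab ∈ Finset.HasAntidiagonal.antidiagonal l, P ab.1 *
      (if h : ab.2 < n then X (i, ⟨ab.2, h⟩) else 0), fun γ => ?_⟩
    have h1 : along (p * X i) γ = along p γ * arc γ i := by
      unfold along
      rw [map_mul, aeval_X]
    have h2 : ∀ b : ℕ, (arc γ i).coeff b = if h : b < n then γ (i, ⟨b, h⟩) else 0 := by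
      intro b
      unfold arc
      rw [Polynomial.finsetSum_coeff]
      simp only [Polynomial.coeff_C_mul, Polynomial.coeff_X_pow, mul_ite, mul_one, mul_zero]
      split_ifs with hb
      · rw [Finset.sum_eq_single (⟨b, hb⟩ : Fin n)]
        · rw [if_pos rfl]
        · intro l' _ hl'
          rw [if_neg]
          intro h3
          exact hl' (Fin.ext h3.symm)
        · intro h3
          exact absurd (Finset.mem_univ _) h3
      · apply Finset.sum_eq_zero
        intro l' _
        rw [if_neg]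
        intro h3
        exact hb (h3 ▸ l'.2)
    rw [map_sum, h1, Polynomial.coeff_mul]
    refine Finset.sum_congr rfl fun ab _ => ?_
    rw [map_mul, hP, h2]
    split_ifs
    · rw [eval_X]
    · rw [map_zero]

theorem constr_contactArcs {N : ℕ} (I : Ideal (MvPolynomial (Fin N) ℂ)) (p : Fin N → ℂ)
    (y : ConePoint I p) (d : ℕ) : Constr (contactArcs I p y d) := by
  classical
  choose P hP using fun f : MvPolynomial (Fin N) ℂ => l1_coeff (n := d + 1) f
  have e : contactArcs I p y d = {γ | ∀ g ∈ ({g | ∃ i, g = X (i, 0) - C (p i)} ∪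
      {g | ∃ f ∈ I, ∃ l < d, g = P f l} ∪ {g | ∃ f ∈ I, g = P f d - C (y.φ 1 f)} :
        Set (MvPolynomial (Fin N × Fin (d + 1)) ℂ)), eval γ g = 0} := by
    ext γ
    unfold contactArcs
    simp only [Set.mem_ofPred_eq, Set.mem_union]
    constructor
    · rintro ⟨h1, h2⟩ g ((⟨i, rfl⟩ | ⟨f, hf, l, hl, rfl⟩) | ⟨f, hf, rfl⟩)
      · rw [map_sub, eval_X, eval_C, h1, sub_self]
      · rw [hP]
        exact (h2 f hf).1 l hl
      · rw [map_sub, eval_C, hP, (h2 f hf).2, sub_self]
    · intro h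
      refine ⟨fun i => ?_, fun f hf => ⟨fun l hl => ?_, ?_⟩⟩
      · have h1 := h (X (i, 0) - C (p i)) (Or.inl (Or.inl ⟨i, rfl⟩))
        rw [map_sub, eval_X, eval_C, sub_eq_zero] at h1
        exact h1
      · have h1 := h (P f l) (Or.inl (Or.inr ⟨f, hf, l, hl, rfl⟩))
        rw [hP] at h1
        exact h1
      · have h1 := h (P f d - C (y.φ 1 f)) (Or.inr ⟨f, hf, rfl⟩)
        rw [map_sub, eval_C, hP, sub_eq_zero] at h1
        exact h1
  rw [e]
  exact constr_zeros _

private theorem l1_constr {ι : Type} [Finite ι] (E : Set (ι → ℂ)) (hE : Constr E) (S : Set ι) :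
    Constr {x | x ∈ E ∧ ∀ i ∈ S, x i = 0} := by
  have h1 := hE.inter (constr_zeros {g : MvPolynomial ι ℂ | ∃ i ∈ S, g = X i})
  have e : {x | x ∈ E ∧ ∀ i ∈ S, x i = 0} = E ∩ {x : ι → ℂ | ∀ f ∈
      {g : MvPolynomial ι ℂ | ∃ i ∈ S, g = X i}, eval x f = 0} := by
    ext x
    simp only [Set.mem_ofPred_eq, Set.mem_inter_iff]
    refine and_congr_right fun _ => ⟨?_, ?_⟩
    · rintro h f ⟨i, hi, rfl⟩
      rw [eval_X]
      exact h i hi
    · intro h i hi
      have := h (X i) ⟨i, hi, rfl⟩
      rwa [eval_X] at this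
  rw [e]
  exact h1

theorem constr_fix {ι : Type} [Finite ι] (E : Set (ι → ℂ)) (hE : Constr E) (w : ι → ℤ) :
    Constr {x | x ∈ E ∧ ∀ i, w i ≠ 0 → x i = 0} :=
  l1_constr E hE {i | w i ≠ 0}

private theorem l1_zero (χ : K0 →+* ℤ) (hχ : IsEulerChar χ) {ι : Type} [Finite ι] (E : Set (ι → ℂ))
    (hE : Constr E) (w : ι → ℤ)
    (hinv : ∀ x ∈ E, ∀ τ : ℂ, τ ≠ 0 → (fun i => τ ^ w i * x i) ∈ E) (a : ι) (ha : w a ≠ 0)
    (h0 : ∀ x ∈ E, x a ≠ 0) : χ (cls E) = 0 := by
  rcases lt_or_gt_of_ne ha with h | h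
  · refine Kum.chi_torus χ hχ E hE (fun i => -w i) (X a) (-w a).toNat (by omega) ?_ ?_ ?_
    · intro x hx τ hτ
      have h1 := hinv x hx τ⁻¹ (inv_ne_zero hτ)
      have e : (fun i => τ ^ (-w i) * x i) = fun i => τ⁻¹ ^ w i * x i := by
        funext i
        rw [inv_zpow', zpow_neg]
      rw [e]
      exact h1
    · intro x hx
      rw [eval_X]
      exact h0 x hx
    · intro x _ τ _
      rw [eval_X, eval_X]
      have h2 : (-w a : ℤ) = (((-w a).toNat : ℕ) : ℤ) := by omega
      rw [← zpow_natCast, ← h2]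
  · refine Kum.chi_torus χ hχ E hE w (X a) (w a).toNat (by omega) hinv ?_ ?_
    · intro x hx
      rw [eval_X]
      exact h0 x hx
    · intro x _ τ _
      rw [eval_X, eval_X]
      have h2 : (w a : ℤ) = (((w a).toNat : ℕ) : ℤ) := by omega
      rw [← zpow_natCast, ← h2]

theorem chi_fix (χ : K0 →+* ℤ) (hχ : IsEulerChar χ) {ι : Type} [Finite ι] (E : Set (ι → ℂ))
    (hE : Constr E) (w : ι → ℤ)
    (hinv : ∀ x ∈ E, ∀ τ : ℂ, τ ≠ 0 → (fun i => τ ^ w i * x i) ∈ E) :
    χ (cls E) = χ (cls {x | x ∈ E ∧ ∀ i, w i ≠ 0 → x i = 0}) := by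
  classical
  have := Fintype.ofFinite ι
  have key : ∀ S : Finset ι, (∀ i ∈ S, w i ≠ 0) →
      χ (cls E) = χ (cls {x | x ∈ E ∧ ∀ i ∈ (S : Set ι), x i = 0}) := by
    intro S
    induction S using Finset.induction_on with
    | empty =>
      intro _
      simp
    | insert a S haS ih =>
      intro hS
      rw [ih fun i hi => hS i (Finset.mem_insert_of_mem hi)]
      have hwa := hS a (Finset.mem_insert_self a S)
      have hc1 := l1_constr E hE (S : Set ι)
      have hc2 := l1_constr E hE ((insert a S : Finset ι) : Set ι)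
      have hsub : {x | x ∈ E ∧ ∀ i ∈ ((insert a S : Finset ι) : Set ι), x i = 0} ⊆
          {x | x ∈ E ∧ ∀ i ∈ (S : Set ι), x i = 0} := by
        rintro x ⟨h1, h2⟩
        refine ⟨h1, fun i hi => h2 i ?_⟩
        rw [Finset.coe_insert]
        exact Set.mem_insert_of_mem a hi
      have hd := cls_diff hc1 hc2 hsub
      have hz : χ (cls ({x | x ∈ E ∧ ∀ i ∈ (S : Set ι), x i = 0} \
          {x | x ∈ E ∧ ∀ i ∈ ((insert a S : Finset ι) : Set ι), x i = 0})) = 0 := by
        refine l1_zero χ hχ _ (hc1.diff hc2) w ?_ a hwa ?_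
        · rintro x ⟨⟨h1, h2⟩, h3⟩ τ hτ
          refine ⟨⟨hinv x h1 τ hτ, fun i hi => ?_⟩, ?_⟩
          · change τ ^ w i * x i = 0
            rw [h2 i hi, mul_zero]
          · rintro ⟨_, h5⟩
            apply h3
            refine ⟨h1, fun i hi => ?_⟩
            have h6 : τ ^ w i * x i = 0 := h5 i hi
            rcases mul_eq_zero.mp h6 with h7 | h7
            · exact absurd h7 (zpow_ne_zero _ hτ)
            · exact h7
        · rintro x ⟨⟨h1, h2⟩, h3⟩ h4
          apply h3
          refine ⟨h1, fun i hi => ?_⟩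
          rw [Finset.coe_insert] at hi
          rcases Set.mem_insert_iff.mp hi with rfl | hi
          · exact h4
          · exact h2 i hi
      rw [hd, map_sub, sub_eq_zero] at hz
      exact hz
  rw [key (Finset.univ.filter fun i => w i ≠ 0) (fun i hi => (Finset.mem_filter.mp hi).2)]
  congr 2
  ext x
  simp

end MotMono
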