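import Pool.Agent.Lib.MP_4e5fcd_ag.Cl.L0
import Pool.Agent.Lib.MP_4e5fcd_ag.Cl.P5

/-! # CL-L2: the action on the contact arcs

PROOF. Let `γ'` be the transformed jet. `arc γ' i (t) = τ ^ (M ω (i) - d μ (i)) * arc γ i (τ ^ (2 n₀) t)`
(`ω = omS`, `μ = muwS`). With the invertible diagonal matrices `g_a = diagonal (τ ^ (M * rwt i - d * vv i))`,
`h_a = diagonal (τ ^ (M * cwt k - d * vv k))` (for `eps`: `rwt = cwt`, `g_a` only) and `f' = shSub σ e g h f ∈ I`:
`along f γ' (t) = (along f' γ) (τ ^ (2 n₀) t)`, so its coefficients of index `l < d` vanish and the coefficient of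
index `d` is `τ ^ (2 n₀ d) * y (f')`. By `hy`, `y (f')` is the coefficient of index `n₀` of `f (g • crvS)`, and
`g • crvS = crvS (τ ^ (-2 d) t)` (at the positions `isC`: `ω = 0`, `μ = 2 vv`; `isC_om`, `isC_vv`), so it is
`τ ^ (-2 d n₀) * y (f)`. The base point: `crvS i (0) ≠ 0` only if `isC` and `vv = 0`, then the weight is `0`. -/

open MvPolynomial

namespace MotMono

variable {s N : ℕ} {σ : Fin s → Shp}

/-- the substitution `t ↦ c t` -/
private noncomputable def L2_sc (c : ℂ) : Polynomial ℂ →ₐ[ℂ] Polynomial ℂ :=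
  Polynomial.aeval (Polynomial.C c * Polynomial.X)

private theorem L2_sc_C (c a : ℂ) : L2_sc c (Polynomial.C a) = Polynomial.C a := by
  unfold L2_sc
  rw [Polynomial.aeval_C]
  rfl

private theorem L2_sc_X (c : ℂ) : L2_sc c Polynomial.X = Polynomial.C c * Polynomial.X := by
  unfold L2_sc
  rw [Polynomial.aeval_X]

private theorem L2_sc_coeff (c : ℂ) (P : Polynomial ℂ) (l : ℕ) :
    (L2_sc c P).coeff l = c ^ l * P.coeff l := by
  induction P using Polynomial.induction_on' with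
  | add p q hp hq => rw [map_add, Polynomial.coeff_add, Polynomial.coeff_add, hp, hq, mul_add]
  | monomial n a =>
    rw [← Polynomial.C_mul_X_pow_eq_monomial, map_mul, map_pow, L2_sc_C, L2_sc_X, mul_pow,
      ← Polynomial.C_pow, ← mul_assoc, ← Polynomial.C_mul, Polynomial.coeff_C_mul_X_pow,
      Polynomial.coeff_C_mul_X_pow]
    split_ifs with h
    · rw [h]
      ring
    · rw [mul_zero]

private theorem L2_act {R : Type} [CommRing R] [Algebra ℂ R] (τ : Shp) (b : ℕ → ℕ) (v : ℂ)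
    (d : ℕ) (M : ℤ) (x : τ.Idx → R) (p : τ.Idx) :
    τ.actI ((Matrix.diagonal fun i : Fin τ.row =>
        v ^ (M * τ.rwt b i - d * (τ.vv b i : ℤ))).map (algebraMap ℂ R))
      ((Matrix.diagonal fun k : Fin τ.col =>
        v ^ (M * τ.cwt b k - d * (τ.vv b k : ℤ))).map (algebraMap ℂ R)) x p =
      algebraMap ℂ R (v ^ (M * τ.rwt b (τ.pr p) - d * (τ.vv b (τ.pr p) : ℤ))) *
        algebraMap ℂ R (v ^ (M * τ.cwt b (τ.pc p) - d * (τ.vv b (τ.pc p) : ℤ))) * x p := by
  rw [Matrix.diagonal_map (map_zero _), Matrix.diagonal_map (map_zero _)]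
  have h1 := Shp.actI_diagonal τ
    (fun i : ℕ => algebraMap ℂ R (v ^ (M * τ.rwt b i - d * (τ.vv b i : ℤ))))
    (fun i : ℕ => algebraMap ℂ R (v ^ (M * τ.cwt b i - d * (τ.vv b i : ℤ))))
    (by rintro κ n rfl; rfl) x p
  exact h1

private theorem L2_wt (e : (Σ a, (σ a).Idx) ≃ Fin N) (u : (Σ a, Fin (σ a).rk) → ℕ) (d : ℕ)
    (M : ℤ) (v : ℂ) (hv : v ≠ 0) (i : Fin N) :
    v ^ (M * (σ (e.symm i).1).rwt (bS u (e.symm i).1) ((σ (e.symm i).1).pr (e.symm i).2) -
        d * ((σ (e.symm i).1).vv (bS u (e.symm i).1) ((σ (e.symm i).1).pr (e.symm i).2) : ℤ)) *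
      v ^ (M * (σ (e.symm i).1).cwt (bS u (e.symm i).1) ((σ (e.symm i).1).pc (e.symm i).2) -
        d * ((σ (e.symm i).1).vv (bS u (e.symm i).1) ((σ (e.symm i).1).pc (e.symm i).2) : ℤ)) =
      v ^ (M * omS e u i - d * (muwS e u i : ℤ)) := by
  rw [← zpow_add₀ hv]
  congr 1
  unfold omS muwS Shp.om Shp.muw
  push_cast
  ring

/-- the coordinates of the reference curve -/
private theorem L2_pos (e : (Σ a, (σ a).Idx) ≃ Fin N) (u : (Σ a, Fin (σ a).rk) → ℕ) (δ : ℂ)
    (i : Fin N) (hp : (σ (e.symm i).1).isC (bS u (e.symm i).1) (e.symm i).2) :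
    crvS e u δ i = Polynomial.C δ * Polynomial.X ^
      (σ (e.symm i).1).vv (bS u (e.symm i).1) ((σ (e.symm i).1).pr (e.symm i).2) :=
  if_pos hp

private theorem L2_neg (e : (Σ a, (σ a).Idx) ≃ Fin N) (u : (Σ a, Fin (σ a).rk) → ℕ) (δ : ℂ)
    (i : Fin N) (hp : ¬ (σ (e.symm i).1).isC (bS u (e.symm i).1) (e.symm i).2) :
    crvS e u δ i = 0 :=
  if_neg hp

private theorem L2_mu (e : (Σ a, (σ a).Idx) ≃ Fin N) (u : (Σ a, Fin (σ a).rk) → ℕ)
    (i : Fin N) (hp : (σ (e.symm i).1).isC (bS u (e.symm i).1) (e.symm i).2) :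
    (muwS e u i : ℤ) = 2 *
      ((σ (e.symm i).1).vv (bS u (e.symm i).1) ((σ (e.symm i).1).pr (e.symm i).2) : ℤ) := by
  unfold muwS Shp.muw
  rw [Shp.isC_vv _ _ _ hp]
  push_cast
  ring

private theorem L2_crv (e : (Σ a, (σ a).Idx) ≃ Fin N) (u : (Σ a, Fin (σ a).rk) → ℕ) (δ : ℂ)
    (d : ℕ) (M : ℤ) (v : ℂ) (i : Fin N) :
    Polynomial.C (v ^ (M * omS e u i - d * (muwS e u i : ℤ))) * crvS e u δ i =
      L2_sc (v ^ (-(2 * d : ℤ))) (crvS e u δ i) := by
  by_cases hp : (σ (e.symm i).1).isC (bS u (e.symm i).1) (e.symm i).2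
  · have h1 : omS e u i = 0 := Shp.isC_om _ _ _ hp
    rw [h1, L2_mu e u i hp, L2_pos e u δ i hp, map_mul, map_pow, L2_sc_C, L2_sc_X, mul_pow,
      ← Polynomial.C_pow]
    have h2 : v ^ (M * 0 - (d : ℤ) * (2 * ((σ (e.symm i).1).vv (bS u (e.symm i).1)
        ((σ (e.symm i).1).pr (e.symm i).2) : ℤ))) =
        (v ^ (-(2 * d : ℤ))) ^ (σ (e.symm i).1).vv (bS u (e.symm i).1)
          ((σ (e.symm i).1).pr (e.symm i).2) := by
      rw [← zpow_natCast, ← zpow_mul]
      congr 1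
      ring
    rw [h2]
    ring
  · rw [L2_neg e u δ i hp, mul_zero, map_zero]

theorem contact_inv (e : (Σ a, (σ a).Idx) ≃ Fin N) (I : Ideal (MvPolynomial (Fin N) ℂ))
    (hI : ShStable σ e I) (u : (Σ a, Fin (σ a).rk) → ℕ) (n₀ : ℕ) (δ : ℂ)
    (y : ConePoint I fun i => (crvS e u δ i).eval 0)
    (hy : ∀ f ∈ I, y.φ 1 f = (aeval (crvS e u δ) f).coeff n₀) (d : ℕ) (M : ℤ)
    (γ : Fin N × Fin (d + 1) → ℂ)
    (hγ : γ ∈ contactArcs I (fun i => (crvS e u δ i).eval 0) y d) (τ : ℂ) (hτ : τ ≠ 0) :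
    (fun c => τ ^ wtG e u n₀ d M c * γ c) ∈
      contactArcs I (fun i => (crvS e u δ i).eval 0) y d := by
  obtain ⟨hγ0, hγ1⟩ := hγ
  refine ⟨fun i => ?_, fun f hf => ?_⟩
  · show τ ^ wtG e u n₀ d M (i, 0) * γ (i, 0) = (crvS e u δ i).eval 0
    rw [hγ0 i]
    show τ ^ wtG e u n₀ d M (i, 0) * (crvS e u δ i).eval 0 = (crvS e u δ i).eval 0
    by_cases hp : (σ (e.symm i).1).isC (bS u (e.symm i).1) (e.symm i).2
    · have h1 : omS e u i = 0 := Shp.isC_om _ _ _ hp
      by_cases h0 : (σ (e.symm i).1).vv (bS u (e.symm i).1) ((σ (e.symm i).1).pr (e.symm i).2) = 0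
      · have h4 : wtG e u n₀ d M (i, 0) = 0 := by
          unfold wtG
          rw [h1]
          show M * 0 + 2 * (n₀ : ℤ) * (((0 : Fin (d + 1)) : ℕ) : ℤ) - d * (muwS e u i : ℤ) = 0
          rw [L2_mu e u i hp, h0]
          simp
        rw [h4, zpow_zero, one_mul]
      · rw [L2_pos e u δ i hp]
        simp [h0]
    · rw [L2_neg e u δ i hp]
      simp
  · -- the transformed polynomial
    set g : ∀ a, Matrix (Fin (σ a).row) (Fin (σ a).row) ℂ := fun a =>
      Matrix.diagonal fun i => τ ^ (M * (σ a).rwt (bS u a) i - d * ((σ a).vv (bS u a) i : ℤ)) with hg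
    set h : ∀ a, Matrix (Fin (σ a).col) (Fin (σ a).col) ℂ := fun a =>
      Matrix.diagonal fun k => τ ^ (M * (σ a).cwt (bS u a) k - d * ((σ a).vv (bS u a) k : ℤ)) with hh
    have hgd : ∀ a, (g a).det ≠ 0 := fun a => by
      rw [hg]
      show (Matrix.diagonal _).det ≠ 0
      rw [Matrix.det_diagonal]
      exact Finset.prod_ne_zero_iff.2 fun i _ => zpow_ne_zero _ hτ
    have hhd : ∀ a, (h a).det ≠ 0 := fun a => by
      rw [hh]
      show (Matrix.diagonal _).det ≠ 0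
      rw [Matrix.det_diagonal]
      exact Finset.prod_ne_zero_iff.2 fun i _ => zpow_ne_zero _ hτ
    have hf' : shSub σ e g h f ∈ I := hI g h hgd hhd f hf
    have hpt : ∀ z : Fin N → Polynomial ℂ,
        (ptS e fun a => (σ a).actI ((g a).map (algebraMap ℂ (Polynomial ℂ)))
          ((h a).map (algebraMap ℂ (Polynomial ℂ))) fun p => z (e ⟨a, p⟩)) =
        fun i => Polynomial.C (τ ^ (M * omS e u i - d * (muwS e u i : ℤ))) * z i := by
      intro z
      funext i
      refine (L2_act (σ (e.symm i).1) (bS u (e.symm i).1) τ d M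
        (fun p => z (e ⟨(e.symm i).1, p⟩)) (e.symm i).2).trans ?_
      rw [← map_mul, L2_wt e u d M τ hτ i]
      have h1 : e ⟨(e.symm i).1, (e.symm i).2⟩ = i := e.apply_symm_apply i
      rw [h1]
      rfl
    have hsub : ∀ z : Fin N → Polynomial ℂ, aeval z (shSub σ e g h f) =
        aeval (fun i => Polynomial.C (τ ^ (M * omS e u i - d * (muwS e u i : ℤ))) * z i) f := by
      intro z
      have h1 := aeval_shSub (R := Polynomial ℂ) e g h (fun a p => z (e ⟨a, p⟩)) f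
      have h2 : (ptS e fun a p => z (e ⟨a, p⟩)) = z := by
        funext i
        exact congrArg z (e.apply_symm_apply i)
      rw [h2, hpt] at h1
      exact h1
    -- the arcs
    have harc : arc (fun c => τ ^ wtG e u n₀ d M c * γ c) = fun i =>
        Polynomial.C (τ ^ (M * omS e u i - d * (muwS e u i : ℤ))) *
          L2_sc (τ ^ (2 * n₀)) (arc γ i) := by
      funext i
      unfold arc
      rw [map_sum, Finset.mul_sum]
      refine Finset.sum_congr rfl fun l _ => ?_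
      rw [map_mul (L2_sc _), map_pow (L2_sc _), L2_sc_C, L2_sc_X, mul_pow, ← Polynomial.C_pow]
      have h1 : τ ^ wtG e u n₀ d M (i, l) =
          τ ^ (M * omS e u i - d * (muwS e u i : ℤ)) * (τ ^ (2 * n₀)) ^ (l : ℕ) := by
        rw [← pow_mul, ← zpow_natCast, ← zpow_add₀ hτ]
        congr 1
        unfold wtG
        push_cast
        ring
      show Polynomial.C (τ ^ wtG e u n₀ d M (i, l) * γ (i, l)) * _ = _
      rw [h1, Polynomial.C_mul, Polynomial.C_mul]
      ring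
    have hal : along f (fun c => τ ^ wtG e u n₀ d M c * γ c) =
        L2_sc (τ ^ (2 * n₀)) (along (shSub σ e g h f) γ) := by
      unfold along
      rw [harc, ← hsub (fun i => L2_sc (τ ^ (2 * n₀)) (arc γ i))]
      exact (MvPolynomial.comp_aeval_apply (arc γ) (L2_sc (τ ^ (2 * n₀))) (shSub σ e g h f)).symm
    have hcr : aeval (crvS e u δ) (shSub σ e g h f) =
        L2_sc (τ ^ (-(2 * d : ℤ))) (aeval (crvS e u δ) f) := by
      rw [hsub]
      have h1 : (fun i => Polynomial.C (τ ^ (M * omS e u i - d * (muwS e u i : ℤ))) *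
          crvS e u δ i) = fun i => L2_sc (τ ^ (-(2 * d : ℤ))) (crvS e u δ i) := by
        funext i
        exact L2_crv e u δ d M τ i
      rw [h1]
      exact (MvPolynomial.comp_aeval_apply (crvS e u δ) (L2_sc (τ ^ (-(2 * d : ℤ)))) f).symm
    obtain ⟨h1, h2⟩ := hγ1 _ hf'
    refine ⟨fun l hl => ?_, ?_⟩
    · rw [hal, L2_sc_coeff, h1 l hl, mul_zero]
    · rw [hal, L2_sc_coeff, h2, hy _ hf', hcr, L2_sc_coeff, ← mul_assoc, hy _ hf]
      have h3 : (τ ^ (2 * n₀)) ^ d * (τ ^ (-(2 * d : ℤ))) ^ n₀ = 1 := by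
        rw [← pow_mul, ← zpow_natCast, ← zpow_natCast (τ ^ (-(2 * d : ℤ))), ← zpow_mul,
          ← zpow_add₀ hτ]
        have h4 : ((2 * n₀ * d : ℕ) : ℤ) + -(2 * (d : ℤ)) * (n₀ : ℤ) = 0 := by
          push_cast
          ring
        rw [h4, zpow_zero]
      rw [h3, one_mul]

end MotMono
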