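import Pool.Agent.Lib.MP_4e5fcd_ag.Cl.L0
import Pool.Agent.Lib.MP_4e5fcd_ag.Cl.L1
import Pool.Agent.Lib.MP_4e5fcd_ag.Cl.L2

/-! # CL-L3: the Euler characteristic of the contact arcs

PROOF. `along_toG`: `arc (toG x) i = C (x i) * X ^ (d μ (i) / (2 n₀))` (`0` if `x i = 0`); in a monomial which does
not vanish at `x` all the divisions are exact, and the exponents add up to `d j / (2 n₀)`.
`constr_XX`: `constr_zeros`, `constr_eq` and finite intersections (the first condition says that some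
coordinates vanish).
`chi_contact_eq`: choose `M > |2 n₀ l - d μ (i)|` for all `i`, `l ≤ d`; then `wtG = 0` iff `omS = 0` and
`2 n₀ l = d μ (i)`. By `contact_inv` and `chi_fix` it suffices to give a `RegIso` between the fixed set and `XX`:
`x ↦ toG x` and `γ ↦ (i ↦ ∑ l, if 2 n₀ l = d μ (i) then γ (i, l) else 0)` (linear maps). A fixed `γ` is `toG x`, `x i ≠ 0`
only if `omS i = 0`, `2 n₀ ∣ d μ (i)`, `μ (i) ≤ 2 n₀` (`l ≤ d`, `d > 0`). Base point: for `μ (i) > 0` both `crvS i (0)` and
`toG x (i, 0)` vanish (`d > 0`); for `μ (i) = 0`: `crvS i (0) = FPS δ i`. The conditions for `f ∈ I` are additive in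
`f`, so it suffices (`exists_sum_wh`) to consider homogeneous `f` of weight `j`: by `along_toG` and `coeff_crv`
they say: `eval x f = 0` for `j < 2 n₀` (if `2 n₀ ∤ d j` this holds anyway), `eval x f = eval (FPS δ) f` for
`j = 2 n₀`, nothing for `j > 2 n₀`. -/

open MvPolynomial

namespace MotMono

variable {s N : ℕ} {σ : Fin s → Shp} {e : (Σ a, (σ a).Idx) ≃ Fin N}
  {I : Ideal (MvPolynomial (Fin N) ℂ)} {A : Finset ((Σ a, Fin (σ a).rk) → ℕ)}
  {u : (Σ a, Fin (σ a).rk) → ℕ} {n₀ : ℕ}

/-- the arc of `toG x` after `t ↦ t ^ (2 n₀)` -/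
private theorem L3_arc (hn : 0 < n₀) (d : ℕ) (x : Fin N → ℂ)
    (hx : ∀ i, x i ≠ 0 → 2 * n₀ ∣ d * muwS e u i ∧ muwS e u i ≤ 2 * n₀) (i : Fin N) :
    Polynomial.expand ℂ (2 * n₀) (arc (toG e u n₀ d x) i) =
      (Polynomial.X ^ d) ^ muwS e u i * Polynomial.C (x i) := by
  have h1 : Polynomial.expand ℂ (2 * n₀) (arc (toG e u n₀ d x) i) =
      ∑ l : Fin (d + 1), if 2 * n₀ * (l : ℕ) = d * muwS e u i then
        (Polynomial.X ^ d) ^ muwS e u i * Polynomial.C (x i) else 0 := by
    unfold arc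
    rw [map_sum]
    refine Finset.sum_congr rfl fun l _ => ?_
    rw [map_mul, map_pow, Polynomial.expand_C, Polynomial.expand_X, ← pow_mul]
    unfold toG
    show Polynomial.C (if 2 * n₀ * (l : ℕ) = d * muwS e u i then x i else 0) * _ = _
    split_ifs with h
    · rw [h, ← pow_mul, mul_comm]
    · rw [map_zero, zero_mul]
  rw [h1]
  by_cases hxi : x i = 0
  · rw [hxi, map_zero, mul_zero]
    exact Finset.sum_eq_zero fun l _ => ite_self _
  · obtain ⟨⟨k, hk⟩, h3⟩ := hx i hxi
    have hkd : k ≤ d := by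
      by_contra h4
      have h5 : d * muwS e u i ≤ d * (2 * n₀) := Nat.mul_le_mul_left _ h3
      have h6 : 2 * n₀ * (d + 1) ≤ 2 * n₀ * k := Nat.mul_le_mul_left _ (by omega)
      have h7 : d * (2 * n₀) < 2 * n₀ * (d + 1) := by nlinarith
      omega
    rw [Finset.sum_eq_single (⟨k, by omega⟩ : Fin (d + 1))]
    · rw [if_pos hk.symm]
    · intro l _ hl
      rw [if_neg]
      intro h4
      apply hl
      apply Fin.ext
      have h5 : 2 * n₀ * (l : ℕ) = 2 * n₀ * k := h4.trans hk
      exact Nat.eq_of_mul_eq_mul_left (by omega) h5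
    · intro h4
      exact absurd (Finset.mem_univ _) h4

private theorem L3_aevalC (x : Fin N → ℂ) (f : MvPolynomial (Fin N) ℂ) :
    aeval (fun i => (Polynomial.C (x i) : Polynomial ℂ)) f = Polynomial.C (eval x f) := by
  have h1 : (aeval (fun i => (Polynomial.C (x i) : Polynomial ℂ)) :
      MvPolynomial (Fin N) ℂ →ₐ[ℂ] Polynomial ℂ) =
      ((IsScalarTower.toAlgHom ℂ ℂ (Polynomial ℂ)).comp (aeval x)) := by
    apply MvPolynomial.algHom_ext
    intro i
    rw [aeval_X, AlgHom.comp_apply, aeval_X]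
    rfl
  rw [h1, AlgHom.comp_apply, aeval_def, Algebra.algebraMap_self, eval₂_id]
  rfl

private theorem L3_expand (hn : 0 < n₀) (d : ℕ) (x : Fin N → ℂ)
    (hx : ∀ i, x i ≠ 0 → 2 * n₀ ∣ d * muwS e u i ∧ muwS e u i ≤ 2 * n₀)
    (f : MvPolynomial (Fin N) ℂ) (j : ℕ) (hf : IsWeightedHomogeneous (muwS e u) f j) :
    Polynomial.expand ℂ (2 * n₀) (along f (toG e u n₀ d x)) =
      Polynomial.C (eval x f) * Polynomial.X ^ (d * j) := by
  unfold along
  have h1 : Polynomial.expand ℂ (2 * n₀) (aeval (arc (toG e u n₀ d x)) f) =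
      aeval (fun i => Polynomial.expand ℂ (2 * n₀) (arc (toG e u n₀ d x) i)) f :=
    MvPolynomial.comp_aeval_apply (arc (toG e u n₀ d x)) (Polynomial.expand ℂ (2 * n₀)) f
  rw [h1]
  have h2 : (fun i => Polynomial.expand ℂ (2 * n₀) (arc (toG e u n₀ d x) i)) =
      fun i => (Polynomial.X ^ d) ^ muwS e u i * Polynomial.C (x i) := by
    funext i
    exact L3_arc hn d x hx i
  rw [h2, aeval_wh (muwS e u) f j hf, L3_aevalC, ← pow_mul, mul_comm]

theorem along_toG (hn : 0 < n₀) (d : ℕ) (x : Fin N → ℂ)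
    (hx : ∀ i, x i ≠ 0 → 2 * n₀ ∣ d * muwS e u i ∧ muwS e u i ≤ 2 * n₀)
    (f : MvPolynomial (Fin N) ℂ) (j : ℕ) (hf : IsWeightedHomogeneous (muwS e u) f j) :
    (∀ k, 2 * n₀ * k = d * j →
      along f (toG e u n₀ d x) = Polynomial.C (eval x f) * Polynomial.X ^ k) ∧
    (¬ 2 * n₀ ∣ d * j → along f (toG e u n₀ d x) = 0 ∧ eval x f = 0) := by
  have h1 := L3_expand hn d x hx f j hf
  have hn2 : 0 < 2 * n₀ := by omega
  refine ⟨fun k hk => ?_, fun hj => ?_⟩
  · apply Polynomial.expand_injective hn2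
    rw [h1, map_mul, map_pow, Polynomial.expand_C, Polynomial.expand_X, ← pow_mul, hk]
  · have h2 : eval x f = 0 := by
      have h3 := congrArg (fun g : Polynomial ℂ => g.coeff (d * j)) h1
      simp only [Polynomial.coeff_C_mul_X_pow, if_true] at h3
      rw [← h3, Polynomial.coeff_expand hn2, if_neg hj]
    refine ⟨?_, h2⟩
    apply Polynomial.expand_injective hn2
    rw [h1, h2, map_zero, zero_mul, map_zero]

theorem constr_XX (δ : ℂ) (d : ℕ) : Constr (XX e I u δ n₀ d) := by
  have h0 : XX e I u δ n₀ d = {x | ∀ g ∈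
      ({g | ∃ i, ¬ (omS e u i = 0 ∧ 2 * n₀ ∣ d * muwS e u i ∧ muwS e u i ≤ 2 * n₀) ∧ g = X i} ∪
      {g | ∃ i, muwS e u i = 0 ∧ g = X i - C (FPS e u (fun _ _ => δ) i)} ∪
      {g | ∃ f ∈ I, ∃ j ≤ 2 * n₀, IsWeightedHomogeneous (muwS e u) f j ∧
        g = f - C (if j = 2 * n₀ then eval (FPS e u fun _ _ => δ) f else 0)} :
        Set (MvPolynomial (Fin N) ℂ)), eval x g = 0} := by
    ext x
    unfold XX
    simp only [Set.mem_ofPred_eq, Set.mem_union]
    constructor
    · rintro ⟨h1, h2, h3⟩ g ((⟨i, hi, rfl⟩ | ⟨i, hi, rfl⟩) | ⟨f, hf, j, hj, hw, rfl⟩)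
      · rw [eval_X]
        by_contra h4
        exact hi (h1 i h4)
      · rw [map_sub, eval_X, eval_C, h2 i hi, sub_self]
      · rw [map_sub, eval_C, h3 f hf j hj hw, sub_self]
    · intro h
      refine ⟨fun i hi => ?_, fun i hi => ?_, fun f hf j hj hw => ?_⟩
      · by_contra h4
        have h1 := h (X i) (Or.inl (Or.inl ⟨i, h4, rfl⟩))
        rw [eval_X] at h1
        exact hi h1
      · have h1 := h (X i - C (FPS e u (fun _ _ => δ) i)) (Or.inl (Or.inr ⟨i, hi, rfl⟩))
        rw [map_sub, eval_X, eval_C, sub_eq_zero] at h1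
        exact h1
      · have h1 := h (f - C (if j = 2 * n₀ then eval (FPS e u fun _ _ => δ) f else 0))
          (Or.inr ⟨f, hf, j, hj, hw, rfl⟩)
        rw [map_sub, eval_C, sub_eq_zero] at h1
        exact h1
  rw [h0]
  exact constr_zeros _

/-- the values of the reference curve at `0` -/
private theorem L3_base (δ : ℂ) (i : Fin N) :
    (crvS e u δ i).eval 0 = if muwS e u i = 0 then FPS e u (fun _ _ => δ) i else 0 := by
  by_cases hp : (σ (e.symm i).1).isC (bS u (e.symm i).1) (e.symm i).2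
  · have h1 : crvS e u δ i = Polynomial.C δ * Polynomial.X ^
        (σ (e.symm i).1).vv (bS u (e.symm i).1) ((σ (e.symm i).1).pr (e.symm i).2) := if_pos hp
    have h2 : FPS e u (fun _ _ => δ) i = δ := if_pos hp
    have h3 : muwS e u i =
        2 * (σ (e.symm i).1).vv (bS u (e.symm i).1) ((σ (e.symm i).1).pr (e.symm i).2) := by
      unfold muwS Shp.muw
      rw [Shp.isC_vv _ _ _ hp, ← two_mul]
    rw [h1, h2, h3, Polynomial.eval_mul, Polynomial.eval_C, Polynomial.eval_pow,
      Polynomial.eval_X]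
    by_cases h4 : (σ (e.symm i).1).vv (bS u (e.symm i).1) ((σ (e.symm i).1).pr (e.symm i).2) = 0
    · rw [h4, pow_zero, mul_one, if_pos (by omega)]
    · rw [zero_pow h4, mul_zero, if_neg (by omega)]
  · have h1 : crvS e u δ i = 0 := if_neg hp
    have h2 : FPS e u (fun _ _ => δ) i = 0 := if_neg hp
    rw [h1, h2, Polynomial.eval_zero, ite_self]

theorem chi_contact_eq (χ : K0 →+* ℤ) (hχ : IsEulerChar χ) (h : Dat e I A u n₀) (δ : ℂ)
    (y : ConePoint I fun i => (crvS e u δ i).eval 0)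
    (hy : ∀ f ∈ I, y.φ 1 f = (aeval (crvS e u δ) f).coeff n₀) (d : ℕ) (hd : 0 < d) :
    χ (cls (contactArcs I (fun i => (crvS e u δ i).eval 0) y d)) =
      χ (cls (XX e I u δ n₀ d)) := by
  have hn := h.pos
  -- a large weight
  set M : ℤ := 2 * n₀ * d + d * (∑ i, muwS e u i : ℕ) + 1 with hM
  have hw : ∀ c : Fin N × Fin (d + 1), wtG e u n₀ d M c = 0 ↔
      omS e u c.1 = 0 ∧ 2 * n₀ * (c.2 : ℕ) = d * muwS e u c.1 := by
    intro c
    have h1 : muwS e u c.1 ≤ ∑ i, muwS e u i :=
      Finset.single_le_sum (fun i _ => Nat.zero_le _) (Finset.mem_univ c.1)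
    have h2 : (c.2 : ℕ) ≤ d := Nat.lt_succ_iff.mp c.2.2
    have h3 : d * muwS e u c.1 ≤ d * ∑ i, muwS e u i := Nat.mul_le_mul_left _ h1
    have h4 : 2 * n₀ * (c.2 : ℕ) ≤ 2 * n₀ * d := Nat.mul_le_mul_left _ h2
    have h3' : (d : ℤ) * (muwS e u c.1 : ℤ) ≤ d * (∑ i, muwS e u i : ℕ) := by exact_mod_cast h3
    have h4' : 2 * (n₀ : ℤ) * ((c.2 : ℕ) : ℤ) ≤ 2 * n₀ * d := by exact_mod_cast h4
    have h5 : (0 : ℤ) ≤ (d : ℤ) * (muwS e u c.1 : ℤ) := by positivity
    have h6 : (0 : ℤ) ≤ 2 * (n₀ : ℤ) * ((c.2 : ℕ) : ℤ) := by positivity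
    have h7 : (0 : ℤ) ≤ 2 * (n₀ : ℤ) * d := by positivity
    have h8 : (0 : ℤ) ≤ (d : ℤ) * (∑ i, muwS e u i : ℕ) := by positivity
    unfold wtG
    constructor
    · intro h9
      by_cases h10 : omS e u c.1 = 0
      · refine ⟨h10, ?_⟩
        rw [h10, mul_zero, zero_add, sub_eq_zero] at h9
        exact_mod_cast h9
      · exfalso
        rcases lt_or_gt_of_ne h10 with h11 | h11
        · have h12 : M * omS e u c.1 ≤ M * (-1) :=
            mul_le_mul_of_nonneg_left (by omega) (by rw [hM]; linarith)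
          linarith
        · have h12 : M * 1 ≤ M * omS e u c.1 :=
            mul_le_mul_of_nonneg_left (by omega) (by rw [hM]; linarith)
          linarith
    · rintro ⟨h9, h10⟩
      rw [h9, mul_zero, zero_add, sub_eq_zero]
      exact_mod_cast h10
  have hc := constr_contactArcs I (fun i => (crvS e u δ i).eval 0) y d
  rw [chi_fix χ hχ _ hc (wtG e u n₀ d M) fun γ hγ τ hτ =>
    contact_inv e I h.stable u n₀ δ y hy d M γ hγ τ hτ]
  congr 1
  -- the coefficients of a homogeneous element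
  have hcoef : ∀ f ∈ I, ∀ j, IsWeightedHomogeneous (muwS e u) f j →
      y.φ 1 f = if j = 2 * n₀ then eval (FPS e u fun _ _ => δ) f else 0 := fun f hf j hj => by
    rw [hy f hf, coeff_crv e u δ f j hj n₀]
  -- the maps
  have hG : ∀ γ : Fin N × Fin (d + 1) → ℂ, (∀ c, wtG e u n₀ d M c ≠ 0 → γ c = 0) →
      toG e u n₀ d (fun i => ∑ l : Fin (d + 1),
        if 2 * n₀ * (l : ℕ) = d * muwS e u i then γ (i, l) else 0) = γ := by
    intro γ hγ
    funext c
    unfold toG
    by_cases h1 : 2 * n₀ * (c.2 : ℕ) = d * muwS e u c.1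
    · rw [if_pos h1]
      show (∑ l : Fin (d + 1), if 2 * n₀ * (l : ℕ) = d * muwS e u c.1 then γ (c.1, l) else 0) = γ c
      rw [Finset.sum_eq_single c.2]
      · rw [if_pos h1]
      · intro l _ hl
        rw [if_neg]
        intro h2
        apply hl
        apply Fin.ext
        exact Nat.eq_of_mul_eq_mul_left (by omega) (h2.trans h1.symm)
      · intro h2
        exact absurd (Finset.mem_univ _) h2
    · rw [if_neg h1]
      refine (hγ c fun h2 => h1 ((hw c).1 h2).2).symm
  refine cls_iso (constr_fix _ hc _) (constr_XX δ d) ⟨fun γ i => ∑ l : Fin (d + 1),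
    if 2 * n₀ * (l : ℕ) = d * muwS e u i then γ (i, l) else 0, toG e u n₀ d,
    fun i => ?_, fun c => ?_, ?_, ?_, ?_, ?_⟩
  · refine (regFun_poly _ (∑ l : Fin (d + 1), if 2 * n₀ * (l : ℕ) = d * muwS e u i then
      (X (i, l) : MvPolynomial (Fin N × Fin (d + 1)) ℂ) else 0)).congr fun γ _ => ?_
    rw [map_sum]
    refine Finset.sum_congr rfl fun l _ => ?_
    split_ifs
    · rw [eval_X]
    · rw [map_zero]
  · unfold toG
    by_cases h1 : 2 * n₀ * (c.2 : ℕ) = d * muwS e u c.1
    · simp only [if_pos h1]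
      exact regFun_coord _ _
    · simp only [if_neg h1]
      exact regFun_const _ _
  · rintro γ ⟨⟨h1, h2⟩, h3⟩
    set x : Fin N → ℂ := fun i => ∑ l : Fin (d + 1),
      if 2 * n₀ * (l : ℕ) = d * muwS e u i then γ (i, l) else 0 with hxdef
    have hx : toG e u n₀ d x = γ := hG γ h3
    have hx1 : ∀ i, x i ≠ 0 → omS e u i = 0 ∧ 2 * n₀ ∣ d * muwS e u i ∧
        muwS e u i ≤ 2 * n₀ := by
      intro i hi
      obtain ⟨l, _, hl⟩ := Finset.exists_ne_zero_of_sum_ne_zero hi
      have h4 : 2 * n₀ * (l : ℕ) = d * muwS e u i := by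
        by_contra h5
        exact hl (if_neg h5)
      rw [if_pos h4] at hl
      have h5 : wtG e u n₀ d M (i, l) = 0 := by
        by_contra h6
        exact hl (h3 _ h6)
      refine ⟨((hw _).1 h5).1, ⟨l, h4.symm⟩, ?_⟩
      have h6 : (l : ℕ) ≤ d := Nat.lt_succ_iff.mp l.2
      have h7 : d * muwS e u i ≤ d * (2 * n₀) := by
        rw [← h4, mul_comm d]
        exact Nat.mul_le_mul_left _ h6
      exact Nat.le_of_mul_le_mul_left h7 hd
    refine ⟨hx1, fun i hi => ?_, fun f hf j hj hfj => ?_⟩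
    · have h4 : γ (i, 0) = (crvS e u δ i).eval 0 := h1 i
      rw [L3_base, if_pos hi] at h4
      have h5 : x i = toG e u n₀ d x (i, 0) := by
        unfold toG
        rw [if_pos (by rw [hi]; simp)]
      rw [hx] at h5
      exact h5.trans h4
    · obtain ⟨h4, h5⟩ := h2 f hf
      obtain ⟨h6, h7⟩ := along_toG hn d x (fun i hi => (hx1 i hi).2) f j hfj
      rw [hx] at h6 h7
      by_cases h8 : j = 2 * n₀
      · rw [if_pos h8]
        have h9 := h6 d (by rw [h8, mul_comm])
        rw [hcoef f hf j hfj, if_pos h8, h9, Polynomial.coeff_C_mul_X_pow, if_pos rfl] at h5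
        exact h5
      · rw [if_neg h8]
        by_cases h9 : 2 * n₀ ∣ d * j
        · obtain ⟨k, hk⟩ := h9
          have h10 := h6 k hk.symm
          have h11 : k < d := by
            by_contra h12
            have h13 : 2 * n₀ * d ≤ 2 * n₀ * k := Nat.mul_le_mul_left _ (by omega)
            have h14 : d * j < d * (2 * n₀) := Nat.mul_lt_mul_of_pos_left (by omega) hd
            have h15 : 2 * n₀ * d = d * (2 * n₀) := mul_comm _ _
            omega
          have h12 := h4 k h11
          rw [h10, Polynomial.coeff_C_mul_X_pow, if_pos rfl] at h12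
          exact h12
        · exact (h7 h9).2
  · rintro x ⟨h1, h2, h3⟩
    refine ⟨⟨fun i => ?_, ?_⟩, fun c hc1 => ?_⟩
    · show toG e u n₀ d x (i, 0) = (crvS e u δ i).eval 0
      rw [L3_base]
      unfold toG
      by_cases h4 : muwS e u i = 0
      · rw [if_pos h4, if_pos (by rw [h4]; simp), h2 i h4]
      · rw [if_neg h4, if_neg]
        intro h5
        have h6 : 0 < d * muwS e u i := Nat.mul_pos hd (Nat.pos_of_ne_zero h4)
        rw [← h5] at h6
        simp at h6
    · -- the homogeneous elements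
      have key : ∀ g ∈ I, ∀ j, IsWeightedHomogeneous (muwS e u) g j →
          (∀ l < d, (along g (toG e u n₀ d x)).coeff l = 0) ∧
            (along g (toG e u n₀ d x)).coeff d = (aeval (crvS e u δ) g).coeff n₀ := by
        intro g hg j hj
        obtain ⟨h6, h7⟩ := along_toG hn d x (fun i hi => (h1 i hi).2) g j hj
        rw [coeff_crv e u δ g j hj n₀]
        by_cases h9 : 2 * n₀ ∣ d * j
        · obtain ⟨k, hk⟩ := h9
          rw [h6 k hk.symm]
          have h10 : 2 * n₀ * d = d * (2 * n₀) := mul_comm _ _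
          rcases lt_trichotomy j (2 * n₀) with h8 | h8 | h8
          · rw [h3 g hg j h8.le hj, if_neg h8.ne, map_zero, zero_mul]
            exact ⟨fun l _ => Polynomial.coeff_zero l, Polynomial.coeff_zero d⟩
          · have h11 : k = d := by
              rw [h8, ← h10] at hk
              exact (Nat.eq_of_mul_eq_mul_left (by omega) hk).symm
            rw [if_pos h8, h11]
            refine ⟨fun l hl => ?_, ?_⟩
            · rw [Polynomial.coeff_C_mul_X_pow, if_neg hl.ne]
            · rw [Polynomial.coeff_C_mul_X_pow, if_pos rfl, h3 g hg j h8.le hj, if_pos h8]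
          · have h11 : d < k := by
              by_contra h12
              have h13 : 2 * n₀ * k ≤ 2 * n₀ * d := Nat.mul_le_mul_left _ (by omega)
              have h14 : d * (2 * n₀) < d * j := Nat.mul_lt_mul_of_pos_left h8 hd
              omega
            rw [if_neg h8.ne']
            refine ⟨fun l hl => ?_, ?_⟩
            · rw [Polynomial.coeff_C_mul_X_pow, if_neg (by omega)]
            · rw [Polynomial.coeff_C_mul_X_pow, if_neg (by omega)]
        · rw [(h7 h9).1]
          have h8 : j ≠ 2 * n₀ := by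
            intro h8
            exact h9 ⟨d, by rw [h8, mul_comm]⟩
          rw [if_neg h8]
          exact ⟨fun l _ => Polynomial.coeff_zero l, Polynomial.coeff_zero d⟩
      intro f hf
      obtain ⟨J, g, hg, rfl⟩ := exists_sum_wh e I h.stable u f hf
      rw [hy _ hf]
      have h4 : along (∑ j ∈ J, g j) (toG e u n₀ d x) = ∑ j ∈ J, along (g j) (toG e u n₀ d x) := by
        unfold along
        rw [map_sum]
      rw [h4, map_sum, Polynomial.finsetSum_coeff, Polynomial.finsetSum_coeff]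
      refine ⟨fun l hl => ?_, ?_⟩
      · rw [Polynomial.finsetSum_coeff]
        exact Finset.sum_eq_zero fun j _ => (key (g j) (hg j).1 j (hg j).2).1 l hl
      · exact Finset.sum_congr rfl fun j _ => (key (g j) (hg j).1 j (hg j).2).2
    · unfold toG
      by_cases h4 : 2 * n₀ * (c.2 : ℕ) = d * muwS e u c.1
      · rw [if_pos h4]
        by_contra h5
        exact hc1 ((hw c).2 ⟨(h1 c.1 h5).1, h4⟩)
      · rw [if_neg h4]
  · rintro γ ⟨_, h3⟩
    exact hG γ h3
  · rintro x ⟨h1, _, _⟩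
    funext i
    show (∑ l : Fin (d + 1), if 2 * n₀ * (l : ℕ) = d * muwS e u i then
      toG e u n₀ d x (i, l) else 0) = x i
    unfold toG
    by_cases hxi : x i = 0
    · rw [hxi]
      exact Finset.sum_eq_zero fun l _ => by
        show (if 2 * n₀ * (l : ℕ) = d * muwS e u i then
          (if 2 * n₀ * (l : ℕ) = d * muwS e u i then x i else 0) else 0) = 0
        rw [hxi, ite_self, ite_self]
    · obtain ⟨_, ⟨k, hk⟩, h3⟩ := h1 i hxi
      have hkd : k ≤ d := by
        by_contra h4
        have h5 : d * muwS e u i ≤ d * (2 * n₀) := Nat.mul_le_mul_left _ h3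
        have h6 : 2 * n₀ * (d + 1) ≤ 2 * n₀ * k := Nat.mul_le_mul_left _ (by omega)
        have h7 : d * (2 * n₀) < 2 * n₀ * (d + 1) := by nlinarith
        omega
      rw [Finset.sum_eq_single (⟨k, by omega⟩ : Fin (d + 1))]
      · rw [if_pos hk.symm]
        exact if_pos hk.symm
      · intro l _ hl
        rw [if_neg]
        intro h4
        apply hl
        apply Fin.ext
        have h5 : 2 * n₀ * (l : ℕ) = 2 * n₀ * k := h4.trans hk
        exact Nat.eq_of_mul_eq_mul_left (by omega) h5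
      · intro h4
        exact absurd (Finset.mem_univ _) h4

end MotMono
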