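import Pool.Agent.Lib.MP_4e5fcd_ag.Cl.CDefs

/-! # CL-N1b: the diagonal entries are determined by the leading minors

PROOF. Induction on `n`. The leading minors of size `≤ n` of an `(n + 1) × (n + 1)` matrix only involve the
leading `n × n` submatrix. The determinant is an affine function of the last diagonal entry, with
coefficient the leading minor of size `n` (expand along the last row, `Matrix.det_succ_row`, or
`Matrix.det_updateRow_add`), which is `∏ D i ≠ 0`. So the last diagonal entry is a polynomial in the other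
entries (the coefficient `∏ D i` is a nonzero constant), hence by induction a polynomial in the entries of
`Y`. -/

open MvPolynomial

namespace MotMono

private def N1b_M {R : Type} {n : ℕ} (x : Fin n → R) (Y : Matrix (Fin n) (Fin n) R) :
    Matrix (Fin n) (Fin n) R := Matrix.of fun i k => if i = k then x i else Y i k

private theorem N1b_ldm_full {R : Type} [CommRing R] {n : ℕ} (Y : Matrix (Fin n) (Fin n) R) :
    ldm Y n = Y.det := by
  unfold ldm
  rw [dif_pos le_rfl]
  congr 1

private theorem N1b_ldm_castSucc {n : ℕ} (x : Fin (n + 1) → ℂ)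
    (Y : Matrix (Fin (n + 1)) (Fin (n + 1)) ℂ) (r : ℕ) (hr : r ≤ n) :
    ldm (N1b_M x Y) r =
      ldm (N1b_M (fun i => x (Fin.castSucc i)) (Y.submatrix Fin.castSucc Fin.castSucc)) r := by
  unfold ldm
  rw [dif_pos hr, dif_pos (le_trans hr (Nat.le_succ n))]
  congr 1
  ext i k
  simp only [N1b_M, Matrix.submatrix_apply, Matrix.of_apply]
  have h1 : (Fin.castLE (le_trans hr (Nat.le_succ n)) i : Fin (n + 1)) =
      Fin.castSucc (Fin.castLE hr i) := by ext; simp
  have h2 : (Fin.castLE (le_trans hr (Nat.le_succ n)) k : Fin (n + 1)) =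
      Fin.castSucc (Fin.castLE hr k) := by ext; simp
  rw [h1, h2]
  simp only [Fin.castSucc_inj]

private theorem N1b_prod_castSucc {n : ℕ} (D : Fin (n + 1) → ℂ) (r : Fin n) :
    ∏ i ∈ Finset.univ.filter (fun i : Fin (n + 1) => i ≤ Fin.castSucc r), D i =
      ∏ i ∈ Finset.univ.filter (fun i : Fin n => i ≤ r), D (Fin.castSucc i) := by
  rw [Finset.prod_filter, Finset.prod_filter, Fin.prod_univ_castSucc]
  have h : ¬ (Fin.last n ≤ Fin.castSucc r) := by
    intro h
    have := Fin.castSucc_lt_last r
    exact absurd h (not_le.mpr this)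
  rw [if_neg h, mul_one]
  refine Finset.prod_congr rfl fun i _ => ?_
  simp only [Fin.castSucc_le_castSucc_iff]

private theorem N1b_prod_last {n : ℕ} (D : Fin (n + 1) → ℂ) :
    ∏ i ∈ Finset.univ.filter (fun i : Fin (n + 1) => i ≤ Fin.last n), D i = ∏ i, D i := by
  rw [Finset.filter_true_of_mem fun i _ => Fin.le_last i]

private theorem N1b_det_of {n : ℕ} (x : Fin n → ℂ) (Y : Matrix (Fin n) (Fin n) ℂ)
    (D : Fin n → ℂ)
    (h : ∀ r : Fin n, ldm (N1b_M x Y) ((r : ℕ) + 1) =
      ∏ i ∈ Finset.univ.filter (fun i : Fin n => i ≤ r), D i) :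
    (N1b_M x Y).det = ∏ i, D i := by
  cases n with
  | zero => simp
  | succ n =>
    have := h (Fin.last n)
    rw [N1b_prod_last, Fin.val_last, N1b_ldm_full] at this
    exact this

private theorem N1b_det_affine {n : ℕ} (x : Fin (n + 1) → ℂ)
    (Y : Matrix (Fin (n + 1)) (Fin (n + 1)) ℂ) :
    (N1b_M x Y).det = x (Fin.last n) *
      (N1b_M (fun i => x (Fin.castSucc i)) (Y.submatrix Fin.castSucc Fin.castSucc)).det +
      (N1b_M (Function.update x (Fin.last n) 0) Y).det := by
  rw [Matrix.det_succ_row _ (Fin.last n), Matrix.det_succ_row _ (Fin.last n),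
    Fin.sum_univ_castSucc, Fin.sum_univ_castSucc]
  have hs : ∀ j : Fin (n + 1), (N1b_M x Y).submatrix (Fin.last n).succAbove j.succAbove =
      (N1b_M (Function.update x (Fin.last n) 0) Y).submatrix (Fin.last n).succAbove
        j.succAbove := by
    intro j
    ext a b
    simp only [N1b_M, Matrix.submatrix_apply, Matrix.of_apply, Fin.succAbove_last]
    rw [Function.update_of_ne (Fin.castSucc_lt_last a).ne]
  have hm : (N1b_M x Y).submatrix (Fin.last n).succAbove (Fin.last n).succAbove =
      N1b_M (fun i => x (Fin.castSucc i)) (Y.submatrix Fin.castSucc Fin.castSucc) := by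
    ext a b
    simp only [N1b_M, Matrix.submatrix_apply, Matrix.of_apply, Fin.succAbove_last,
      Fin.castSucc_inj]
  have hl : (N1b_M x Y) (Fin.last n) (Fin.last n) = x (Fin.last n) := by simp [N1b_M]
  have hl0 : (N1b_M (Function.update x (Fin.last n) 0) Y) (Fin.last n) (Fin.last n) = 0 := by
    simp [N1b_M]
  have hne : ∀ j : Fin n, (N1b_M x Y) (Fin.last n) (Fin.castSucc j) =
      (N1b_M (Function.update x (Fin.last n) 0) Y) (Fin.last n) (Fin.castSucc j) := by
    intro j
    have : Fin.last n ≠ Fin.castSucc j := (Fin.castSucc_lt_last j).ne'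
    simp only [N1b_M, Matrix.of_apply, if_neg this]
  rw [hl0, hl, hm]
  have hsum : ∀ j : Fin n, (-1 : ℂ) ^ (((Fin.last n : Fin (n + 1)) : ℕ) + ((Fin.castSucc j : Fin (n + 1)) : ℕ)) *
        (N1b_M x Y) (Fin.last n) (Fin.castSucc j) *
        ((N1b_M x Y).submatrix (Fin.last n).succAbove (Fin.castSucc j).succAbove).det =
      (-1 : ℂ) ^ (((Fin.last n : Fin (n + 1)) : ℕ) + ((Fin.castSucc j : Fin (n + 1)) : ℕ)) *
        (N1b_M (Function.update x (Fin.last n) 0) Y) (Fin.last n) (Fin.castSucc j) *
        ((N1b_M (Function.update x (Fin.last n) 0) Y).submatrix (Fin.last n).succAbove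
          (Fin.castSucc j).succAbove).det := by
    intro j
    rw [hne j, hs]
  rw [Finset.sum_congr rfl fun j _ => hsum j]
  have hp : (-1 : ℂ) ^ (((Fin.last n : Fin (n + 1)) : ℕ) + ((Fin.last n : Fin (n + 1)) : ℕ)) = 1 := by
    rw [← two_mul, pow_mul]; simp
  rw [hp]
  ring

private theorem N1b_poly (n : ℕ) (D : Fin n → ℂ) (hD : ∀ i, D i ≠ 0) :
    ∃ Q : Fin n → MvPolynomial (Fin n × Fin n) ℂ, ∀ (Y : Matrix (Fin n) (Fin n) ℂ)
      (x : Fin n → ℂ), (∀ r : Fin n,
        ldm (N1b_M x Y) ((r : ℕ) + 1) =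
          ∏ i ∈ Finset.univ.filter (fun i : Fin n => i ≤ r), D i) ↔
        ∀ i, x i = eval (fun c => Y c.1 c.2) (Q i) := by
  induction n with
  | zero => exact ⟨fun i => i.elim0, fun Y x => ⟨fun _ i => i.elim0, fun _ i => i.elim0⟩⟩
  | succ n ih =>
    obtain ⟨Q', hQ'⟩ := ih (fun i => D (Fin.castSucc i)) fun i => hD _
    let q : Fin n → MvPolynomial (Fin (n + 1) × Fin (n + 1)) ℂ := fun i =>
      rename (Prod.map Fin.castSucc Fin.castSucc) (Q' i)
    let x0 : Fin (n + 1) → MvPolynomial (Fin (n + 1) × Fin (n + 1)) ℂ := Fin.snoc q 0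
    let P0 : MvPolynomial (Fin (n + 1) × Fin (n + 1)) ℂ :=
      (N1b_M x0 (Matrix.of fun i k => X (i, k))).det
    let c : ℂ := ∏ i : Fin n, D (Fin.castSucc i)
    have hc : c ≠ 0 := Finset.prod_ne_zero_iff.mpr fun i _ => hD _
    let Q : Fin (n + 1) → MvPolynomial (Fin (n + 1) × Fin (n + 1)) ℂ :=
      Fin.snoc q (C c⁻¹ * (C (∏ i, D i) - P0))
    refine ⟨Q, fun Y x => ?_⟩
    have hev : ∀ i : Fin n, eval (fun c => Y c.1 c.2) (q i) =
        eval (fun c => (Y.submatrix Fin.castSucc Fin.castSucc) c.1 c.2) (Q' i) := by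
      intro i
      simp only [q, eval_rename]
      rfl
    rw [Fin.forall_fin_succ', Fin.forall_fin_succ' (P := fun i => x i = _)]
    have e1 : (∀ i : Fin n, ldm (N1b_M x Y) (((Fin.castSucc i : Fin (n + 1)) : ℕ) + 1) =
        ∏ j ∈ Finset.univ.filter (fun j : Fin (n + 1) => j ≤ Fin.castSucc i), D j) ↔
        ∀ i : Fin n, x (Fin.castSucc i) = eval (fun c => Y c.1 c.2) (Q (Fin.castSucc i)) := by
      have := hQ' (Y.submatrix Fin.castSucc Fin.castSucc) fun i => x (Fin.castSucc i)
      constructor
      · intro h i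
        have h2 := this.mp (fun r => by
          rw [← N1b_prod_castSucc, ← h r, Fin.val_castSucc,
            N1b_ldm_castSucc x Y _ (Nat.succ_le_of_lt r.2)]) i
        rw [h2]
        simp only [Q, Fin.snoc_castSucc]
        exact (hev i).symm
      · intro h r
        have h2 := this.mpr (fun i => by
          rw [h i]
          simp only [Q, Fin.snoc_castSucc]
          exact hev i) r
        rw [N1b_prod_castSucc, ← h2, Fin.val_castSucc,
          N1b_ldm_castSucc x Y _ (Nat.succ_le_of_lt r.2)]
    rw [e1]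
    refine and_congr_right fun hx => ?_
    have hcond := (hQ' (Y.submatrix Fin.castSucc Fin.castSucc)
      fun i => x (Fin.castSucc i)).mpr (fun i => by
        have := hx i
        simp only [Q, Fin.snoc_castSucc] at this
        rw [this]
        exact hev i)
    have hdet := N1b_det_of _ _ _ hcond
    have hP0 : eval (fun c => Y c.1 c.2) P0 =
        (N1b_M (Function.update x (Fin.last n) 0) Y).det := by
      simp only [P0]
      rw [RingHom.map_det]
      congr 1
      ext i k
      simp only [N1b_M, RingHom.mapMatrix_apply, Matrix.map_apply, Matrix.of_apply]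
      by_cases hik : i = k
      · rw [if_pos hik, if_pos hik]
        refine Fin.lastCases ?_ (fun j => ?_) i
        · simp [x0]
        · rw [Function.update_of_ne (Fin.castSucc_lt_last j).ne]
          simp only [x0, Fin.snoc_castSucc]
          have := hx j
          simp only [Q, Fin.snoc_castSucc] at this
          exact this.symm
      · rw [if_neg hik, if_neg hik]
        simp
    rw [N1b_prod_last, Fin.val_last, N1b_ldm_full, N1b_det_affine, hdet]
    simp only [Q, Fin.snoc_last, map_mul, eval_C, map_sub, hP0]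
    change x (Fin.last n) * c + _ = _ ↔ _
    constructor
    · intro h
      rw [← h]
      field_simp
      ring
    · intro h
      rw [h]
      field_simp
      ring

theorem existsUnique_diag (n : ℕ) (Y : Matrix (Fin n) (Fin n) ℂ) (D : Fin n → ℂ)
    (hD : ∀ i, D i ≠ 0) :
    ∃! x : Fin n → ℂ, ∀ r : Fin n,
      ldm (Matrix.of fun i k => if i = k then x i else Y i k) ((r : ℕ) + 1) =
        ∏ i ∈ Finset.univ.filter (fun i : Fin n => i ≤ r), D i := by
  obtain ⟨Q, hQ⟩ := N1b_poly n D hD
  refine ⟨fun i => eval (fun c => Y c.1 c.2) (Q i), ?_, ?_⟩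
  · exact (hQ Y _).mpr fun i => rfl
  · intro y hy
    funext i
    exact (hQ Y y).mp hy i

/-- the solution is a polynomial in the entries of `Y` -/
theorem exists_diag_poly (n : ℕ) (D : Fin n → ℂ) (hD : ∀ i, D i ≠ 0) :
    ∃ Q : Fin n → MvPolynomial (Fin n × Fin n) ℂ, ∀ (Y : Matrix (Fin n) (Fin n) ℂ)
      (x : Fin n → ℂ), (∀ r : Fin n,
        ldm (Matrix.of fun i k => if i = k then x i else Y i k) ((r : ℕ) + 1) =
          ∏ i ∈ Finset.univ.filter (fun i : Fin n => i ≤ r), D i) ↔
        ∀ i, x i = eval (fun c => Y c.1 c.2) (Q i) :=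
  N1b_poly n D hD

end MotMono
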