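import Pool.Agent.Lib.MP_4e5fcd_ag.Cl.P4

/-! # CL-N8: the finite group

PROOF. Compare `card_Gz` in `Det/M11.lean`. `gam_finite`: by `rank_zero` the vectors `κ ∈ EFN`, together with the unit
vectors of the coordinates `c` with `¬ CRS c ∨ vS c = 0`, span `ℚ^rows`, so for some `D > 0` every `D • (unit vector)` is
an integral combination of them; hence `η c ^ D = 1` for all `η` in the group and all `c`: finite.
`gam_card`: the group (multiplication of functions) contains the cyclic group of the elements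
`c ↦ if CRS c then ζ ^ vS c else 1`, `ζ ^ n₀ = 1`; the map `ζ ↦ …` is injective: if `ζ ^ vS c = 1` for all `c` with `CRS`,
then `ζ ^ mue b i = 1` for all `i < rk` (`crow_CR`, `crow_vv`), so `ζ ^ u c = 1` for all `c`, and the order of `ζ`
divides all `u c`, so it is `1` (`Prim`). Lagrange. -/

open MvPolynomial

namespace MotMono

variable {s N : ℕ} {σ : Fin s → Shp} {e : (Σ a, (σ a).Idx) ≃ Fin N}
  {I : Ideal (MvPolynomial (Fin N) ℂ)} {A : Finset ((Σ a, Fin (σ a).rk) → ℕ)}
  {u : (Σ a, Fin (σ a).rk) → ℕ} {n₀ : ℕ}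

/-- the group, with values in the units -/
private def N8_H (e : (Σ a, (σ a).Idx) ≃ Fin N) (I : Ideal (MvPolynomial (Fin N) ℂ))
    (u : (Σ a, Fin (σ a).rk) → ℕ) (n₀ : ℕ) : Subgroup ((Σ a, Fin (σ a).row) → ℂˣ) where
  carrier := {η | (∀ c, ¬ CRS u c ∨ vS u c = 0 → η c = 1) ∧ ∀ κ ∈ EFN e I u n₀, ∏ c, η c ^ κ c = 1}
  mul_mem' := by
    rintro a b ⟨h1, h2⟩ ⟨h3, h4⟩
    refine ⟨fun i hi => by simp [h1 i hi, h3 i hi], fun W hW => ?_⟩
    simp only [Pi.mul_apply, mul_pow]
    rw [Finset.prod_mul_distrib, h2 W hW, h4 W hW, mul_one]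
  one_mem' := ⟨fun i _ => rfl, fun W _ => by simp⟩
  inv_mem' := by
    rintro a ⟨h1, h2⟩
    refine ⟨fun i hi => by simp [h1 i hi], fun W hW => ?_⟩
    simp only [Pi.inv_apply, inv_pow]
    rw [Finset.prod_inv_distrib, h2 W hW, inv_one]

private theorem N8_image (e : (Σ a, (σ a).Idx) ≃ Fin N) (I : Ideal (MvPolynomial (Fin N) ℂ))
    (u : (Σ a, Fin (σ a).rk) → ℕ) (n₀ : ℕ) :
    GamS e I u n₀ = (fun (η : (Σ a, Fin (σ a).row) → ℂˣ) c => ((η c : ℂˣ) : ℂ)) ''
      (N8_H e I u n₀ : Set ((Σ a, Fin (σ a).row) → ℂˣ)) := by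
  ext z
  constructor
  · rintro ⟨h1, h2, h3⟩
    refine ⟨fun c => Units.mk0 (z c) (h1 c), ⟨fun c hc => ?_, fun κ hκ => ?_⟩, rfl⟩
    · exact Units.ext (h2 c hc)
    · apply Units.ext
      rw [Units.coe_prod, Units.val_one, ← h3 κ hκ]
      rfl
  · rintro ⟨η, ⟨h1, h2⟩, rfl⟩
    refine ⟨fun c => (η c).ne_zero, fun c hc => ?_, fun κ hκ => ?_⟩
    · show ((η c : ℂˣ) : ℂ) = 1
      rw [h1 c hc, Units.val_one]
    · have h3 := congrArg (fun x : ℂˣ => (x : ℂ)) (h2 κ hκ)
      rw [Units.coe_prod] at h3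
      exact h3

private theorem N8_inj : Function.Injective
    (fun (η : (Σ a, Fin (σ a).row) → ℂˣ) (c : Σ a, Fin (σ a).row) => ((η c : ℂˣ) : ℂ)) := by
  intro η η' h
  funext c
  exact Units.ext (congrFun h c)

open Classical in
private theorem N8_span (h : Dat e I A u n₀) :
    Submodule.span ℚ ({v : (Σ a, Fin (σ a).row) → ℚ | ∃ κ ∈ EFN e I u n₀, v = fun i => (κ i : ℚ)} ∪
      {v | ∃ j, (¬ CRS u j ∨ vS u j = 0) ∧ v = Pi.single j 1}) = ⊤ := by
  by_contra hne
  obtain ⟨f, hf0, hf⟩ := Submodule.exists_le_ker_of_lt_top _ (lt_top_iff_ne_top.2 hne)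
  apply hf0
  have hfv : ∀ v : (Σ a, Fin (σ a).row) → ℚ, f v = ∑ i, v i * f (Pi.single i 1) := by
    intro v
    conv_lhs => rw [← Finset.univ_sum_single v]
    rw [map_sum]
    apply Finset.sum_congr rfl
    intro i _
    have : (Pi.single i (v i) : (Σ a, Fin (σ a).row) → ℚ) = v i • Pi.single i 1 := by
      rw [← Pi.single_smul, smul_eq_mul, mul_one]
    rw [this, map_smul, smul_eq_mul]
  set y : (Σ a, Fin (σ a).row) → ℚ := fun i => f (Pi.single i 1) with hy
  have hyS : ∀ i, ¬ CRS u i ∨ vS u i = 0 → y i = 0 := by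
    intro i hi
    have h1 : (Pi.single i 1 : (Σ a, Fin (σ a).row) → ℚ) ∈ LinearMap.ker f :=
      hf (Submodule.subset_span (Or.inr ⟨i, hi, rfl⟩))
    exact h1
  have hyW : ∀ κ ∈ EFN e I u n₀, ∑ i, (κ i : ℚ) * y i = 0 := by
    intro κ hκ
    have h1 : (fun i => (κ i : ℚ)) ∈ LinearMap.ker f :=
      hf (Submodule.subset_span (Or.inl ⟨κ, hκ, rfl⟩))
    rw [LinearMap.mem_ker, hfv] at h1
    exact h1
  have hy0 := rank_zero h y hyS hyW
  ext i
  simp only [LinearMap.coe_comp, Function.comp_apply, LinearMap.coe_single, LinearMap.zero_apply]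
  exact congrFun hy0 i

open Classical in
private theorem N8_exp (h : Dat e I A u n₀) (i : Σ a, Fin (σ a).row) :
    ∃ D : ℕ, 0 < D ∧ ∀ η ∈ N8_H e I u n₀, η i ^ D = 1 := by
  have key : ∀ v ∈ Submodule.span ℚ
      ({v : (Σ a, Fin (σ a).row) → ℚ | ∃ κ ∈ EFN e I u n₀, v = fun i => (κ i : ℚ)} ∪
      {v | ∃ j, (¬ CRS u j ∨ vS u j = 0) ∧ v = Pi.single j 1}),
      ∃ D : ℕ, 0 < D ∧ ∃ z : (Σ a, Fin (σ a).row) → ℤ,
      (∀ j, (z j : ℚ) = D * v j) ∧ ∀ η ∈ N8_H e I u n₀, ∏ j, η j ^ z j = 1 := by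
    intro v hv
    induction hv using Submodule.span_induction with
    | mem v hv =>
      rcases hv with ⟨W, hW, rfl⟩ | ⟨j, hj, rfl⟩
      · refine ⟨1, one_pos, fun i => (W i : ℤ), fun j => by simp, ?_⟩
        intro η hη
        have := hη.2 W hW
        simpa using this
      · refine ⟨1, one_pos, Pi.single j 1, ?_, ?_⟩
        · intro k
          by_cases hk : k = j
          · subst hk; simp
          · simp [Pi.single_eq_of_ne hk]
        · intro η hη
          have h1 := hη.1 j hj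
          rw [Finset.prod_eq_single j]
          · rw [h1, one_zpow]
          · intro k _ hk
            rw [Pi.single_eq_of_ne hk, zpow_zero]
          · intro h
            exact absurd (Finset.mem_univ j) h
    | zero => exact ⟨1, one_pos, 0, fun j => by simp, fun η _ => by simp⟩
    | add v w _ _ hv hw =>
      obtain ⟨D, hD, z, hz, hη⟩ := hv
      obtain ⟨D', hD', z', hz', hη'⟩ := hw
      refine ⟨D * D', Nat.mul_pos hD hD', fun j => D' * z j + D * z' j, ?_, ?_⟩
      · intro j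
        push_cast
        rw [hz j, hz' j, Pi.add_apply]
        ring
      · intro η h
        have h1 := hη η h
        have h2 := hη' η h
        have h3 : ∀ j, η j ^ ((D' : ℤ) * z j + D * z' j) =
            (η j ^ z j) ^ (D' : ℤ) * (η j ^ z' j) ^ (D : ℤ) := by
          intro j
          rw [zpow_add, ← zpow_mul, ← zpow_mul, mul_comm (z j), mul_comm (z' j)]
        rw [Finset.prod_congr rfl (fun j _ => h3 j), Finset.prod_mul_distrib,
          Finset.prod_zpow, Finset.prod_zpow, h1, h2, one_zpow, one_zpow, mul_one]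
    | smul q v _ hv =>
      obtain ⟨D, hD, z, hz, hη⟩ := hv
      refine ⟨D * q.den, Nat.mul_pos hD q.den_pos, fun j => q.num * z j, ?_, ?_⟩
      · intro j
        push_cast
        rw [hz j, Pi.smul_apply, smul_eq_mul]
        have h1 : (q.num : ℚ) = q * q.den := (Rat.mul_den_eq_num q).symm
        rw [h1]
        ring
      · intro η h
        have h1 := hη η h
        have h3 : ∀ j, η j ^ (q.num * z j) = (η j ^ z j) ^ q.num := by
          intro j
          rw [← zpow_mul, mul_comm]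
        rw [Finset.prod_congr rfl (fun j _ => h3 j), Finset.prod_zpow, h1, one_zpow]
  obtain ⟨D, hD, z, hz, hη⟩ := key (Pi.single i 1) (by rw [N8_span h]; trivial)
  refine ⟨D, hD, ?_⟩
  intro η h
  have h1 := hη η h
  rw [Finset.prod_eq_single i] at h1
  · have h2 := hz i
    rw [Pi.single_eq_same, mul_one] at h2
    have h3 : z i = D := by exact_mod_cast h2
    rw [h3] at h1
    exact_mod_cast h1
  · intro j _ hj
    have h2 := hz j
    rw [Pi.single_eq_of_ne hj, mul_zero] at h2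
    have h3 : z j = 0 := by exact_mod_cast h2
    rw [h3, zpow_zero]
  · intro h
    exact absurd (Finset.mem_univ i) h

private theorem N8_finite (h : Dat e I A u n₀) :
    (N8_H e I u n₀ : Set ((Σ a, Fin (σ a).row) → ℂˣ)).Finite := by
  choose D hD hη using N8_exp h
  have hfin : ∀ i, {x : ℂˣ | x ^ D i = 1}.Finite := by
    intro i
    have h0 : NeZero (D i) := ⟨(hD i).ne'⟩
    have h1 : Finite (rootsOfUnity (D i) ℂ) := by
      apply Nat.finite_of_card_ne_zero
      rw [Complex.card_rootsOfUnity]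
      exact (hD i).ne'
    have h2 : ((rootsOfUnity (D i) ℂ : Subgroup ℂˣ) : Set ℂˣ).Finite := h1
    exact h2.subset (fun x hx => (mem_rootsOfUnity _ _).2 hx)
  have h2 : {η : (Σ a, Fin (σ a).row) → ℂˣ | ∀ i, η i ∈ {x : ℂˣ | x ^ D i = 1}}.Finite :=
    Set.Finite.pi' hfin
  exact h2.subset (fun η h i => hη i η h)

private theorem N8_vS (h : Dat e I A u n₀) (d : ℕ) (hd : ∀ c, CRS u c → d ∣ vS u c) : d = 1 := by
  have hmue : ∀ a i, i < (σ a).rk → d ∣ mue (bS u a) i := by
    intro a i hi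
    have hle := h.le a
    have h1 := Shp.crow_CR (σ a) (bS u a) hle i hi
    have h2 := hd ⟨a, ⟨(σ a).crow (bS u a) i, Shp.CR_lt_row _ _ _ h1⟩⟩ h1
    have h3 : vS u ⟨a, ⟨(σ a).crow (bS u a) i, Shp.CR_lt_row _ _ _ h1⟩⟩ = mue (bS u a) i :=
      Shp.crow_vv (σ a) (bS u a) hle i hi
    rwa [h3] at h2
  refine h.prim d ?_
  rintro ⟨a, i, hi⟩
  have hb : bS u a i = u ⟨a, ⟨i, hi⟩⟩ := by
    unfold bS part extb
    rw [dif_pos hi]
  rw [← hb]
  rcases i with _ | i
  · have h1 := hmue a 0 hi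
    unfold mue at h1
    rwa [Finset.sum_range_one] at h1
  · have h1 := hmue a (i + 1) hi
    have h2 := hmue a i (by omega)
    unfold mue at h1 h2
    rw [Finset.sum_range_succ] at h1
    exact (Nat.dvd_add_right h2).1 h1

open Classical in
private theorem N8_dvd (h : Dat e I A u n₀) : n₀ ∣ Nat.card (N8_H e I u n₀) := by
  have : NeZero n₀ := ⟨h.pos.ne'⟩
  let f : rootsOfUnity n₀ ℂ →* N8_H e I u n₀ :=
    { toFun := fun ξ => ⟨fun c => if CRS u c then (ξ : ℂˣ) ^ vS u c else 1, by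
        refine ⟨fun c hc => ?_, fun κ hκ => ?_⟩
        · show (if CRS u c then (ξ : ℂˣ) ^ vS u c else 1) = 1
          rcases hc with hc | hc
          · rw [if_neg hc]
          · rw [hc, pow_zero, ite_self]
        · have h1 : ∏ c, (if CRS u c then (ξ : ℂˣ) ^ vS u c else 1) ^ κ c =
              (ξ : ℂˣ) ^ ∑ c, κ c * vS u c := by
            rw [← Finset.prod_pow_eq_pow_sum]
            apply Finset.prod_congr rfl
            intro c _
            split_ifs with hc
            · rw [← pow_mul, mul_comm]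
            · rw [hκ.1.1 c hc, pow_zero, zero_mul, pow_zero]
          refine h1.trans ?_
          rw [hκ.2]
          exact (mem_rootsOfUnity _ _).1 ξ.2⟩
      map_one' := by
        apply Subtype.ext
        funext c
        show (if CRS u c then ((1 : rootsOfUnity n₀ ℂ) : ℂˣ) ^ vS u c else 1) = 1
        rw [OneMemClass.coe_one, one_pow, ite_self]
      map_mul' := by
        intro a b
        apply Subtype.ext
        funext c
        show (if CRS u c then ((a * b : rootsOfUnity n₀ ℂ) : ℂˣ) ^ vS u c else 1) =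
          (if CRS u c then (a : ℂˣ) ^ vS u c else 1) * (if CRS u c then (b : ℂˣ) ^ vS u c else 1)
        split_ifs with hc
        · rw [Subgroup.coe_mul, mul_pow]
        · rw [one_mul] }
  have hf : Function.Injective f := by
    rw [injective_iff_map_eq_one]
    intro ξ hξ
    have h1 : ∀ c, CRS u c → (ξ : ℂˣ) ^ vS u c = 1 := by
      intro c hc
      have h2 := congrArg (fun z : N8_H e I u n₀ => (z : (Σ a, Fin (σ a).row) → ℂˣ) c) hξ
      have h3 : (if CRS u c then (ξ : ℂˣ) ^ vS u c else 1) = 1 := h2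
      rwa [if_pos hc] at h3
    have h2 : orderOf (ξ : ℂˣ) = 1 := N8_vS h _ (fun c hc => orderOf_dvd_of_pow_eq_one (h1 c hc))
    rw [orderOf_eq_one_iff] at h2
    exact Subtype.ext h2
  have h1 := Subgroup.card_dvd_of_injective f hf
  have h2 : Nat.card (rootsOfUnity n₀ ℂ) = n₀ := Complex.card_rootsOfUnity _
  rwa [h2] at h1

theorem gam_finite (h : Dat e I A u n₀) : (GamS e I u n₀).Finite := by
  rw [N8_image]
  exact (N8_finite h).image _

theorem gam_card (h : Dat e I A u n₀) :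
    ∃ c : ℕ, 0 < c ∧ (GamS e I u n₀).ncard = n₀ * c := by
  have hfin : Finite (N8_H e I u n₀) := N8_finite h
  have h1 : (GamS e I u n₀).ncard = Nat.card (N8_H e I u n₀) := by
    rw [N8_image, Set.ncard_image_of_injective _ N8_inj]
    rfl
  obtain ⟨c, hc⟩ := N8_dvd h
  have h2 : 0 < Nat.card (N8_H e I u n₀) := Nat.card_pos
  refine ⟨c, ?_, by rw [h1, hc]⟩
  rcases Nat.eq_zero_or_pos c with h3 | h3
  · rw [hc, h3, Nat.mul_zero] at h2
    exact absurd h2 (lt_irrefl 0)
  · exact h3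

end MotMono
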