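import Pool.Agent.Lib.MP_4e5fcd_ag.Cl.N7
import Pool.Agent.Lib.MP_4e5fcd_ag.Cl.N8
import Pool.Agent.Lib.MP_4e5fcd_ag.Cl.N1b
import Pool.Agent.Lib.MP_4e5fcd_ag.Cl.L3

/-! # CL-N9: the Euler characteristic of `XX`

For `η ∈ GamS` the set of the `x ∈ XX` with `quoS x = η` is isomorphic to the affine space of the
admissible coordinates which are not `isCS`. -/

open MvPolynomial

namespace MotMono

variable {s N : ℕ} {σ : Fin s → Shp} {e : (Σ a, (σ a).Idx) ≃ Fin N}
  {I : Ideal (MvPolynomial (Fin N) ℂ)} {A : Finset ((Σ a, Fin (σ a).rk) → ℕ)}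
  {u : (Σ a, Fin (σ a).rk) → ℕ} {n₀ : ℕ}

/-- off the diagonal `Yt` only depends on the coordinates which are not `isC` -/
private theorem N9_off {R : Type} [CommRing R] (τ : Shp) (b : ℕ → ℕ) (x y : τ.Idx → R)
    (h : ∀ p, ¬ τ.isC b p → x p = y p) (i k : Fin τ.row) (hik : i ≠ k) :
    τ.Yt b x i k = τ.Yt b y i k := by
  classical
  cases τ with
  | gen m n =>
    have e1 : ∀ z : (Shp.gen m n).Idx → R, (Shp.gen m n).Yt b z i k = 0 := fun z => if_neg hik
    rw [e1, e1]
  | eps κ n =>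
    have e1 : ∀ z : (Shp.eps κ n).Idx → R, (Shp.eps κ n).Yt b z i k =
        if unq κ b n i ∧ unq κ b n k then (Shp.eps κ n).mat z i k else 0 := fun z => if_neg hik
    rw [e1, e1]
    by_cases hu : unq κ b n i ∧ unq κ b n k
    · rw [if_pos hu, if_pos hu]
      have key : ∀ (p : (Shp.eps κ n).Idx), p.1.1 ≠ p.1.2 → unq κ b n p.1.1 → x p = y p := by
        intro p hp hq
        apply h
        intro h1
        have h1' : (lpp κ b n p.1.1 ∧ (p.1.2 : ℕ) = p.1.1 + 1) ∨
          (unq κ b n p.1.1 ∧ (p.1.2 : ℕ) = p.1.1) := h1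
        rcases h1' with h1' | h1'
        · exact hq.2.1 h1'.1
        · exact hp (Fin.ext h1'.2.symm)
      rcases lt_or_gt_of_ne hik with h1 | h1
      · have e2 : ∀ z : (Shp.eps κ n).Idx → R, (Shp.eps κ n).mat z i k =
            z ⟨(i, k), Or.inl h1⟩ := fun z => dif_pos h1
        rw [e2, e2]
        exact key _ hik hu.1
      · have e2 : ∀ z : (Shp.eps κ n).Idx → R, (Shp.eps κ n).mat z i k =
            (if κ = true then 1 else -1) * z ⟨(k, i), Or.inl h1⟩ := fun z => by
          show (if h : i < k then z ⟨(i, k), Or.inl h⟩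
            else if h' : k < i then (if κ = true then 1 else -1) * z ⟨(k, i), Or.inl h'⟩
            else if hκ : κ = true then
              z ⟨(i, k), Or.inr ⟨hκ, le_antisymm (not_lt.1 h') (not_lt.1 h)⟩⟩ else 0) = _
          rw [dif_neg (not_lt.2 (le_of_lt h1)), dif_pos h1]
        rw [e2, e2]
        congr 1
        exact key _ (Ne.symm hik) hu.2
    · rw [if_neg hu, if_neg hu]

/-- rows without `CR` have no entries off the diagonal -/
private theorem N9_row {R : Type} [CommRing R] (τ : Shp) (hτ : τ.Le) (b : ℕ → ℕ)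
    (x : τ.Idx → R) (i k : Fin τ.row) (hik : i ≠ k) (hi : ¬ τ.CR b i) : τ.Yt b x i k = 0 := by
  by_contra hne
  obtain ⟨h1, h2, -⟩ := τ.Yt_off b x i k hik hne
  rcases τ.not_CR b hτ i i.2 hi with h | ⟨⟨n, rfl⟩, h⟩
  · exact h.2.2.2 h1
  · have h2' : unq false b n k := h2
    have hck : ¬ (Shp.eps false n).CR b k := by
      intro h3
      have h3' : lpp false b n k ∨ (false = true ∧ unq false b n k) := h3
      rcases h3' with h3' | h3'
      · exact h2'.2.1 h3'
      · exact absurd h3'.1 (by simp)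
    rcases (Shp.eps false n).not_CR b hτ k k.2 hck with h3 | ⟨_, h3⟩
    · exact h3.2.2.2 h2
    · exact hik (Fin.ext (by omega))

private theorem N9_prod {n : ℕ} (D : Fin n → ℂ) (r : Fin n) :
    ∏ i ∈ Finset.univ.filter (fun i : Fin n => i ≤ r), D i =
      (∏ i ∈ Finset.univ.filter (fun i : Fin n => (i : ℕ) < r), D i) * D r := by
  classical
  have h1 : Finset.univ.filter (fun i : Fin n => i ≤ r) =
      insert r (Finset.univ.filter (fun i : Fin n => (i : ℕ) < r)) := by
    ext i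
    simp only [Finset.mem_filter, Finset.mem_univ, true_and, Finset.mem_insert, Fin.ext_iff,
      Fin.le_def]
    omega
  rw [h1, Finset.prod_insert (by simp), mul_comm]

private theorem N9_filter {n : ℕ} (r : ℕ) (hr : r + 1 ≤ n) :
    Finset.univ.filter (fun i : Fin n => i ≤ (⟨r, hr⟩ : Fin n)) =
      Finset.univ.filter (fun i : Fin n => (i : ℕ) < r + 1) := by
  refine Finset.filter_congr fun i _ => ?_
  rw [Fin.le_def]
  show (i : ℕ) ≤ r ↔ _
  omega

private theorem N9_quo_of {n : ℕ} (M : Matrix (Fin n) (Fin n) ℂ) (D : Fin n → ℂ)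
    (hD : ∀ i, D i ≠ 0) (h : ∀ r : Fin n, ldm M ((r : ℕ) + 1) =
      ∏ i ∈ Finset.univ.filter (fun i : Fin n => i ≤ r), D i) :
    (∀ r ≤ n, ldm M r ≠ 0) ∧ ∀ r : Fin n, ldm M ((r : ℕ) + 1) / ldm M r = D r := by
  have h1 : ∀ r ≤ n, ldm M r =
      ∏ i ∈ Finset.univ.filter (fun i : Fin n => (i : ℕ) < r), D i := by
    intro r hr
    cases r with
    | zero =>
      rw [ldm_zero]
      simp
    | succ r =>
      rw [← N9_filter r hr]
      exact h ⟨r, hr⟩
  have h2 : ∀ r ≤ n, ldm M r ≠ 0 := fun r hr => by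
    rw [h1 r hr]
    exact Finset.prod_ne_zero_iff.2 fun i _ => hD i
  refine ⟨h2, fun r => ?_⟩
  rw [div_eq_iff (h2 r r.2.le), h r, N9_prod, ← h1 r r.2.le, mul_comm]

private theorem N9_of_quo {n : ℕ} (M : Matrix (Fin n) (Fin n) ℂ) (D : Fin n → ℂ)
    (h0 : ∀ r ≤ n, ldm M r ≠ 0) (h : ∀ r : Fin n, ldm M ((r : ℕ) + 1) / ldm M r = D r) :
    ∀ r : Fin n, ldm M ((r : ℕ) + 1) =
      ∏ i ∈ Finset.univ.filter (fun i : Fin n => i ≤ r), D i := by
  have h1 : ∀ r ≤ n, ldm M r =
      ∏ i ∈ Finset.univ.filter (fun i : Fin n => (i : ℕ) < r), D i := by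
    intro r
    induction r with
    | zero =>
      intro _
      rw [ldm_zero]
      simp
    | succ r ih =>
      intro hr
      have h2 := h ⟨r, hr⟩
      rw [div_eq_iff (h0 _ (by
        show r ≤ n
        omega))] at h2
      rw [← N9_filter r hr, N9_prod]
      refine Eq.trans h2 ?_
      rw [mul_comm]
      congr 1
      exact ih (by omega)
  intro r
  have h2 := h1 ((r : ℕ) + 1) r.2
  rw [h2, ← N9_filter (r : ℕ) r.2]

private theorem N9_eval {ι κ : Type} (y : ι → ℂ) (F : κ → MvPolynomial ι ℂ)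
    (Q : MvPolynomial κ ℂ) : eval y (aeval F Q) = eval (fun c => eval y (F c)) Q := by
  induction Q using MvPolynomial.induction_on with
  | C a => simp
  | add p q hp hq => rw [map_add, map_add, hp, hq, map_add]
  | mul_X p i hp => rw [map_mul, map_mul, hp, aeval_X, map_mul, eval_X]

/-- the admissible coordinates which are not `isCS` -/
private def N9_P (e : (Σ a, (σ a).Idx) ≃ Fin N) (u : (Σ a, Fin (σ a).rk) → ℕ) (n₀ d : ℕ)
    (i : Fin N) : Prop :=
  ¬ isCS e u i ∧ omS e u i = 0 ∧ 2 * n₀ ∣ d * muwS e u i ∧ muwS e u i ≤ 2 * n₀ ∧ muwS e u i ≠ 0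

open Classical in
/-- the extension by zero -/
private noncomputable def N9_ext {R : Type} [CommRing R] (P : Fin N → Prop)
    (y : {i : Fin N // P i} → R) (i : Fin N) : R :=
  if h : P i then y ⟨i, h⟩ else 0

private theorem N9_ext_map {R S : Type} [CommRing R] [CommRing S] (φ : R →+* S)
    (P : Fin N → Prop) (y : {i : Fin N // P i} → R) (i : Fin N) :
    φ (N9_ext P y i) = N9_ext P (fun j => φ (y j)) i := by
  unfold N9_ext
  split_ifs
  · rfl
  · rw [map_zero]

/-- the matrix of the extension by zero -/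
private noncomputable def N9_Y (e : (Σ a, (σ a).Idx) ≃ Fin N) (u : (Σ a, Fin (σ a).rk) → ℕ)
    {R : Type} [CommRing R] (P : Fin N → Prop) (y : {i : Fin N // P i} → R) (a : Fin s) :
    Matrix (Fin (σ a).row) (Fin (σ a).row) R :=
  (σ a).Yt (bS u a) fun p => N9_ext P y (e ⟨a, p⟩)

open Classical in
/-- the coordinates of the inverse map -/
private noncomputable def N9_G (e : (Σ a, (σ a).Idx) ≃ Fin N) (u : (Σ a, Fin (σ a).rk) → ℕ)
    (P : Fin N → Prop)
    (Q : ∀ a, Fin (σ a).row → MvPolynomial (Fin (σ a).row × Fin (σ a).row) ℂ)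
    (c : Σ a, (σ a).Idx) : MvPolynomial {i : Fin N // P i} ℂ :=
  if (σ c.1).isC (bS u c.1) c.2 then
    aeval (fun k : Fin (σ c.1).row × Fin (σ c.1).row =>
      N9_Y e u P (fun j => (X j : MvPolynomial {i : Fin N // P i} ℂ)) c.1 k.1 k.2)
      (Q c.1 ((σ c.1).pr c.2))
  else N9_ext P (fun j => (X j : MvPolynomial {i : Fin N // P i} ℂ)) (e c)

private theorem N9_Y_eval (e : (Σ a, (σ a).Idx) ≃ Fin N) (u : (Σ a, Fin (σ a).rk) → ℕ)
    (P : Fin N → Prop) (y : {i : Fin N // P i} → ℂ) (a : Fin s) (i k : Fin (σ a).row) :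
    eval y (N9_Y e u P (fun j => (X j : MvPolynomial {i : Fin N // P i} ℂ)) a i k) =
      N9_Y e u P y a i k := by
  have h1 := Shp.Yt_map (σ a) (bS u a) (eval y)
    (fun p => N9_ext P (fun j => (X j : MvPolynomial {i : Fin N // P i} ℂ)) (e ⟨a, p⟩))
  have h2 : (fun p : (σ a).Idx => eval y (N9_ext P
      (fun j => (X j : MvPolynomial {i : Fin N // P i} ℂ)) (e ⟨a, p⟩))) =
      fun p => N9_ext P y (e ⟨a, p⟩) := by
    funext p
    rw [N9_ext_map]
    congr 1
    funext j
    rw [eval_X]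
  rw [h2] at h1
  unfold N9_Y
  rw [h1, Matrix.map_apply]

private theorem N9_G_isC (e : (Σ a, (σ a).Idx) ≃ Fin N) (u : (Σ a, Fin (σ a).rk) → ℕ)
    (P : Fin N → Prop)
    (Q : ∀ a, Fin (σ a).row → MvPolynomial (Fin (σ a).row × Fin (σ a).row) ℂ)
    (c : Σ a, (σ a).Idx) (hc : (σ c.1).isC (bS u c.1) c.2) (y : {i : Fin N // P i} → ℂ) :
    eval y (N9_G e u P Q c) =
      eval (fun k : Fin (σ c.1).row × Fin (σ c.1).row => N9_Y e u P y c.1 k.1 k.2)
        (Q c.1 ((σ c.1).pr c.2)) := by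
  unfold N9_G
  rw [if_pos hc, N9_eval]
  congr 2
  funext k
  exact N9_Y_eval e u P y c.1 k.1 k.2

private theorem N9_G_not (e : (Σ a, (σ a).Idx) ≃ Fin N) (u : (Σ a, Fin (σ a).rk) → ℕ)
    (P : Fin N → Prop)
    (Q : ∀ a, Fin (σ a).row → MvPolynomial (Fin (σ a).row × Fin (σ a).row) ℂ)
    (c : Σ a, (σ a).Idx) (hc : ¬ (σ c.1).isC (bS u c.1) c.2) (y : {i : Fin N // P i} → ℂ) :
    eval y (N9_G e u P Q c) = N9_ext P y (e c) := by
  unfold N9_G
  rw [if_neg hc, N9_ext_map]
  congr 1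
  funext j
  rw [eval_X]

private theorem N9_isCS (e : (Σ a, (σ a).Idx) ≃ Fin N) (u : (Σ a, Fin (σ a).rk) → ℕ)
    (c : Σ a, (σ a).Idx) : isCS e u (e c) ↔ (σ c.1).isC (bS u c.1) c.2 := by
  unfold isCS
  rw [Equiv.symm_apply_apply]

private theorem N9_piece (h : Dat e I A u n₀) (δ : ℂ) (hδ : δ ≠ 0) (d : ℕ) (hd : n₀ ∣ d)
    (η : (Σ a, Fin (σ a).row) → ℂ) (hη : η ∈ GamS e I u n₀) :
    RegIso {x | x ∈ XX e I u δ n₀ d ∧ quoS e u δ x = η}
      (Set.univ : Set ({i : Fin N // N9_P e u n₀ d i} → ℂ)) := by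
  classical
  have hle : ∀ a, (σ a).Le := fun a => h.le a
  set P : Fin N → Prop := N9_P e u n₀ d with hP
  set D : ∀ a, Fin (σ a).row → ℂ := fun a r =>
    η ⟨a, r⟩ * if CRS u ⟨a, r⟩ then δ else 1 with hDdef
  have hD : ∀ a r, D a r ≠ 0 := by
    intro a r
    refine mul_ne_zero (hη.1 _) ?_
    split_ifs
    · exact hδ
    · exact one_ne_zero
  choose Q hQ using fun a => exists_diag_poly (σ a).row (D a) (hD a)
  -- the inverse map
  set g : ({i : Fin N // P i} → ℂ) → (Fin N → ℂ) := fun y i =>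
    eval y (N9_G e u P Q (e.symm i)) with hg
  have hge : ∀ y c, g y (e c) = eval y (N9_G e u P Q c) := by
    intro y c
    show eval y (N9_G e u P Q (e.symm (e c))) = _
    rw [Equiv.symm_apply_apply]
  have hgoff : ∀ y c, ¬ (σ c.1).isC (bS u c.1) c.2 → g y (e c) = N9_ext P y (e c) := by
    intro y c hc
    rw [hge, N9_G_not e u P Q c hc]
  -- the solution in rows without `CR`
  have hsol : ∀ (y : {i : Fin N // P i} → ℂ) (a : Fin s) (r : Fin (σ a).row),
      ¬ (σ a).CR (bS u a) r →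
      eval (fun k : Fin (σ a).row × Fin (σ a).row => N9_Y e u P y a k.1 k.2) (Q a r) = 1 := by
    intro y a r hr
    set x' : Fin (σ a).row → ℂ := fun i =>
      eval (fun k : Fin (σ a).row × Fin (σ a).row => N9_Y e u P y a k.1 k.2) (Q a i) with hx'
    have h1 := (hQ a (N9_Y e u P y a) x').2 (fun i => rfl)
    set M : Matrix (Fin (σ a).row) (Fin (σ a).row) ℂ :=
      Matrix.of fun i k => if i = k then x' i else N9_Y e u P y a i k with hM
    obtain ⟨h2, h3⟩ := N9_quo_of M (D a) (hD a) h1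
    have h4 : ldm M ((r : ℕ) + 1) = M r r * ldm M r := by
      refine ldm_succ M r fun k hk => ?_
      have hne : r ≠ k := ne_of_gt hk
      show (if r = k then x' r else N9_Y e u P y a r k) = 0
      rw [if_neg hne]
      exact N9_row (σ a) (hle a) (bS u a) _ r k hne hr
    have h5 := h3 r
    rw [h4, mul_div_assoc, div_self (h2 r r.2.le), mul_one] at h5
    have h6 : M r r = x' r := if_pos rfl
    have h7 : D a r = 1 := by
      show η ⟨a, r⟩ * (if CRS u ⟨a, r⟩ then δ else 1) = 1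
      have hc : ¬ CRS u ⟨a, r⟩ := hr
      rw [if_neg hc, mul_one]
      exact hη.2.1 _ (Or.inl hc)
    show x' r = 1
    rw [← h6, h5, h7]
  -- the matrices of `g y`
  have hmat : ∀ (y : {i : Fin N // P i} → ℂ) (a : Fin s),
      (σ a).Yt (bS u a) (fun p => g y (e ⟨a, p⟩)) =
        Matrix.of fun i k => if i = k then
          eval (fun k : Fin (σ a).row × Fin (σ a).row => N9_Y e u P y a k.1 k.2) (Q a i)
          else N9_Y e u P y a i k := by
    intro y a
    ext i k
    rw [Matrix.of_apply]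
    by_cases hik : i = k
    · subst hik
      rw [if_pos rfl]
      by_cases hCR : (σ a).CR (bS u a) i
      · obtain ⟨p, hp, hpi⟩ := (Shp.CR_or (σ a) (bS u a) (hle a) i i.2).2 hCR
        rw [Shp.Yt_diag (σ a) (bS u a) _ p hp i hpi.symm, hge, N9_G_isC e u P Q ⟨a, p⟩ hp]
        have h1 : (σ a).pr p = i := Fin.ext hpi
        show eval (fun k : Fin (σ a).row × Fin (σ a).row => N9_Y e u P y a k.1 k.2)
          (Q a ((σ a).pr p)) = _
        rw [h1]
      · rw [Shp.Yt_diag_one (σ a) (bS u a) (hle a) _ i hCR, hsol y a i hCR]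
    · rw [if_neg hik]
      unfold N9_Y
      refine N9_off (σ a) (bS u a) _ _ (fun p hp => ?_) i k hik
      exact hgoff y ⟨a, p⟩ hp
  refine ⟨fun x i => x i, g, fun i => regFun_coord _ _, fun i => regFun_poly _ _,
    fun _ _ => Set.mem_univ _, fun y _ => ?_, fun x hx => ?_, fun y _ => ?_⟩
  · -- `g y` is in the set
    have hld : ∀ a, (∀ r ≤ (σ a).row, ldS e u (g y) a r ≠ 0) ∧
        ∀ r : Fin (σ a).row, ldS e u (g y) a ((r : ℕ) + 1) / ldS e u (g y) a r = D a r := by
      intro a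
      have h1 := (hQ a (N9_Y e u P y a) fun i =>
        eval (fun k : Fin (σ a).row × Fin (σ a).row => N9_Y e u P y a k.1 k.2) (Q a i)).2
          (fun i => rfl)
      rw [← hmat y a] at h1
      exact N9_quo_of _ (D a) (hD a) h1
    have hquo : quoS e u δ (g y) = η := by
      funext c
      obtain ⟨a, r⟩ := c
      have h1 := (hld a).2 r
      show (ldS e u (g y) a ((r : ℕ) + 1) / ldS e u (g y) a r) /
        (if CRS u ⟨a, r⟩ then δ else 1) = η ⟨a, r⟩
      rw [h1]
      show η ⟨a, r⟩ * (if CRS u ⟨a, r⟩ then δ else 1) / (if CRS u ⟨a, r⟩ then δ else 1) = _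
      refine mul_div_cancel_right₀ _ ?_
      split_ifs
      · exact hδ
      · exact one_ne_zero
    refine ⟨(mem_XX_iff h δ hδ d hd (g y)).2 ⟨?_, fun a => (hld a).1, ?_⟩, hquo⟩
    · intro i hi hne
      obtain ⟨c, rfl⟩ := e.surjective i
      rw [N9_isCS] at hi
      rw [hgoff y c hi] at hne
      unfold N9_ext at hne
      by_cases hp : P (e c)
      · exact hp.2
      · rw [dif_neg hp] at hne
        exact absurd rfl hne
    · rw [hquo]
      exact hη
  · -- `g` of the projection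
    obtain ⟨hx1, hx2⟩ := hx
    obtain ⟨hoff, hnv, -⟩ := (mem_XX_iff h δ hδ d hd x).1 hx1
    have hext : ∀ c : (Σ a, (σ a).Idx), ¬ (σ c.1).isC (bS u c.1) c.2 →
        N9_ext P (fun j => x j) (e c) = x (e c) := by
      intro c hc
      unfold N9_ext
      split_ifs with hp
      · rfl
      · by_contra hne
        exact hp ⟨fun h1 => hc ((N9_isCS e u c).1 h1),
          hoff (e c) (fun h1 => hc ((N9_isCS e u c).1 h1)) (Ne.symm hne)⟩
    funext i
    obtain ⟨c, rfl⟩ := e.surjective i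
    by_cases hc : (σ c.1).isC (bS u c.1) c.2
    · obtain ⟨a, p⟩ := c
      show g (fun j => x j) (e ⟨a, p⟩) = x (e ⟨a, p⟩)
      rw [hge, N9_G_isC e u P Q ⟨a, p⟩ hc]
      show eval (fun k : Fin (σ a).row × Fin (σ a).row => N9_Y e u P (fun j => x j) a k.1 k.2)
        (Q a ((σ a).pr p)) = _
      have h1 : (Matrix.of fun i k => if i = k then
          (σ a).Yt (bS u a) (fun p => x (e ⟨a, p⟩)) i i
          else N9_Y e u P (fun j => x j) a i k) =
          (σ a).Yt (bS u a) (fun p => x (e ⟨a, p⟩)) := by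
        ext i k
        rw [Matrix.of_apply]
        by_cases hik : i = k
        · subst hik
          rw [if_pos rfl]
        · rw [if_neg hik]
          unfold N9_Y
          exact N9_off (σ a) (bS u a) _ _ (fun p hp => hext ⟨a, p⟩ hp) i k hik
      have h2 : ∀ r : Fin (σ a).row, ldm ((σ a).Yt (bS u a) (fun p => x (e ⟨a, p⟩)))
          ((r : ℕ) + 1) / ldm ((σ a).Yt (bS u a) (fun p => x (e ⟨a, p⟩))) r = D a r := by
        intro r
        have h3 := congrFun hx2 ⟨a, r⟩
        have h4 : (ldS e u x a ((r : ℕ) + 1) / ldS e u x a r) /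
          (if CRS u ⟨a, r⟩ then δ else 1) = η ⟨a, r⟩ := h3
        rw [div_eq_iff (by
          split_ifs
          · exact hδ
          · exact one_ne_zero)] at h4
        exact h4
      have h3 := N9_of_quo _ (D a) (hnv a) h2
      rw [← h1] at h3
      have h4 := (hQ a (N9_Y e u P (fun j => x j) a) fun i =>
        (σ a).Yt (bS u a) (fun p => x (e ⟨a, p⟩)) i i).1 h3 ((σ a).pr p)
      rw [← h4]
      exact Shp.Yt_diag (σ a) (bS u a) (fun p => x (e ⟨a, p⟩)) p hc _ rfl
    · rw [hgoff _ c hc]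
      exact hext c hc
  · -- the projection of `g y`
    funext i
    obtain ⟨i, hi⟩ := i
    obtain ⟨c, rfl⟩ := e.surjective i
    show g y (e c) = y ⟨e c, hi⟩
    rw [hgoff y c fun h1 => hi.1 ((N9_isCS e u c).2 h1)]
    unfold N9_ext
    rw [dif_pos hi]

private theorem N9_constr (h : Dat e I A u n₀) (δ : ℂ) (hδ : δ ≠ 0) (d : ℕ) (hd : n₀ ∣ d)
    (η : (Σ a, Fin (σ a).row) → ℂ) :
    Constr {x | x ∈ XX e I u δ n₀ d ∧ quoS e u δ x = η} := by
  classical
  have h1 := (constr_XX (I := I) (e := e) (u := u) (n₀ := n₀) δ d).inter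
    (constr_zeros {f : MvPolynomial (Fin N) ℂ | ∃ c : (Σ a, Fin (σ a).row),
      f = ldS e u (fun i => (X i : MvPolynomial (Fin N) ℂ)) c.1 ((c.2 : ℕ) + 1) -
        C (η c * if CRS u c then δ else 1) *
          ldS e u (fun i => (X i : MvPolynomial (Fin N) ℂ)) c.1 c.2})
  have e1 : {x | x ∈ XX e I u δ n₀ d ∧ quoS e u δ x = η} = XX e I u δ n₀ d ∩
      {x : Fin N → ℂ | ∀ f ∈ {f : MvPolynomial (Fin N) ℂ | ∃ c : (Σ a, Fin (σ a).row),
        f = ldS e u (fun i => (X i : MvPolynomial (Fin N) ℂ)) c.1 ((c.2 : ℕ) + 1) -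
        C (η c * if CRS u c then δ else 1) *
          ldS e u (fun i => (X i : MvPolynomial (Fin N) ℂ)) c.1 c.2}, eval x f = 0} := by
    ext x
    refine and_congr_right fun hx => ?_
    obtain ⟨-, hnv, -⟩ := (mem_XX_iff h δ hδ d hd x).1 hx
    have h2 : ∀ a r, eval x (ldS e u (fun i => (X i : MvPolynomial (Fin N) ℂ)) a r) =
        ldS e u x a r := by
      intro a r
      rw [← ldS_map]
      congr 1
      funext i
      rw [eval_X]
    have h3 : ∀ c : (Σ a, Fin (σ a).row), quoS e u δ x c = η c ↔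
        ldS e u x c.1 ((c.2 : ℕ) + 1) - (η c * if CRS u c then δ else 1) *
          ldS e u x c.1 c.2 = 0 := by
      intro c
      have h4 := hnv c.1 c.2 c.2.2.le
      have h5 : (if CRS u c then δ else 1) ≠ 0 := by
        split_ifs
        · exact hδ
        · exact one_ne_zero
      show (ldS e u x c.1 ((c.2 : ℕ) + 1) / ldS e u x c.1 c.2) /
        (if CRS u c then δ else 1) = η c ↔ _
      rw [div_eq_iff h5, div_eq_iff h4, sub_eq_zero]
    constructor
    · rintro hq f ⟨c, rfl⟩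
      rw [map_sub, map_mul, eval_C, h2, h2]
      exact (h3 c).1 (congrFun hq c)
    · intro hq
      funext c
      refine (h3 c).2 ?_
      have h6 := hq _ ⟨c, rfl⟩
      rw [map_sub, map_mul, eval_C, h2, h2] at h6
      exact h6
  rw [e1]
  exact h1

theorem chi_XX (χ : K0 →+* ℤ) (hχ : IsEulerChar χ) (h : Dat e I A u n₀) (δ : ℂ) (hδ : δ ≠ 0)
    (d : ℕ) (hd : n₀ ∣ d) : χ (cls (XX e I u δ n₀ d)) = (GamS e I u n₀).ncard := by
  classical
  have hfin := gam_finite h
  have e1 : XX e I u δ n₀ d = ⋃ η ∈ hfin.toFinset,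
      {x | x ∈ XX e I u δ n₀ d ∧ quoS e u δ x = η} := by
    ext x
    simp only [Set.mem_iUnion]
    constructor
    · intro hx
      exact ⟨quoS e u δ x, hfin.mem_toFinset.2 ((mem_XX_iff h δ hδ d hd x).1 hx).2.2, hx, rfl⟩
    · rintro ⟨η, _, hx, _⟩
      exact hx
  rw [e1, cls_biUnion hfin.toFinset (fun η _ => N9_constr h δ hδ d hd η)
    (fun η _ η' _ hne => Set.disjoint_left.2 fun x hx hx' => hne (hx.2.symm.trans hx'.2)),
    map_sum]
  have h1 : ∀ η ∈ hfin.toFinset,
      χ (cls {x | x ∈ XX e I u δ n₀ d ∧ quoS e u δ x = η}) = 1 := by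
    intro η hη
    have := Fintype.ofFinite {i : Fin N // N9_P e u n₀ d i}
    rw [cls_iso (N9_constr h δ hδ d hd η) constr_univ
      (N9_piece h δ hδ d hd η (hfin.mem_toFinset.1 hη)), cls_univ, map_pow, hχ.line, one_pow]
  rw [Finset.sum_congr rfl h1, Finset.sum_const, nsmul_eq_mul, mul_one,
    Set.ncard_eq_toFinset_card _ hfin]

end MotMono
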