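import Pool.Agent.Lib.MP_4e5fcd_ag.Cl.US1
import Pool.Agent.Lib.MP_4e5fcd_ag.Det.U3a
import Pool.Agent.Lib.MP_4e5fcd_ag.Det.G1

/-! # CL-US2: a ray whose undetected blocks have only forbidden breaks

PROOF. As `exists_detected_ray` in `Det/U3b.lean`, with the zero set
`Z = {c | u c = 0 ∧ ¬ InUndet A u c.1 c.2} ∪ Zx`: take the rays (`exists_isRays`) of the cone of the vectors
which vanish on `Z` and on which the functionals of the face of `u` are minimal; `u` itself is in the cone (`u`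
vanishes on `Zx` since `Zx` lies inside the undetected blocks); among the rays with positive value take one
which minimises (sum of the values `evq` in the undetected places of `u`) / (value). If it had an
undetected block starting at `i` with a place `q` strictly inside, `⟨a, q⟩ ∉ Zx`, then `exists_lowerQ` would give a
contradiction; the break at `q` is allowed since `q` lies inside an undetected block of `u`
(`inUndet_of_inUndet`). -/

open MvPolynomial

namespace MotMono

variable {s : ℕ} {m : Fin s → ℕ}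

private theorem us2_cast {ι : Type} [Fintype ι] (W b : ι → ℕ) :
    ∑ c, (W c : ℚ) * (b c : ℚ) = (pair W b : ℚ) := by
  unfold pair
  push_cast
  rfl

private theorem us2_minF {ι : Type} [Fintype ι] (B : Finset (ι → ℕ)) (u W : ι → ℕ)
    (h : InFace B u W) : minF B u = pair W u := by
  unfold minF
  refine le_antisymm (Nat.sInf_le ⟨W, h.1, rfl⟩) ?_
  refine le_csInf ⟨pair W u, W, h.1, rfl⟩ ?_
  rintro k ⟨W', hW', rfl⟩
  exact h.2 W' hW'

private theorem us2_face {ι : Type} [Fintype ι] (B : Finset (ι → ℕ)) (u : ι → ℕ)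
    (h : 0 < minF B u) : ∃ W, InFace B u W := by
  have hne : B.Nonempty := by
    by_contra hB
    rw [Finset.not_nonempty_iff_eq_empty] at hB
    have h1 : minF B u = 0 := by
      unfold minF
      rw [hB]
      simp
    omega
  obtain ⟨W, hW, hmin⟩ := Finset.exists_min_image B (fun W => pair W u) hne
  exact ⟨W, hW, hmin⟩

theorem exists_ray_min (A : Finset ((Σ a, Fin (m a)) → ℕ)) (u : (Σ a, Fin (m a)) → ℕ)
    (hu : Ext (AW A) u) (hN : 0 < minF (AW A) u) (Zx : Set (Σ a, Fin (m a)))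
    (hZx : ∀ c ∈ Zx, InUndet A u c.1 c.2) :
    ∃ u' : (Σ a, Fin (m a)) → ℕ, Ext (AW A) u' ∧ 0 < minF (AW A) u' ∧
      (∀ a, ∀ i : Fin (m a), u ⟨a, i⟩ = 0 → ¬ InUndet A u a i → u' ⟨a, i⟩ = 0) ∧
      (∀ c ∈ Zx, u' c = 0) ∧ (∀ W, InFace (AW A) u W → InFace (AW A) u' W) ∧
      ∀ a, ∀ i : Fin (m a), Undet A u' a i → ∀ q : Fin (m a), i < q →
        (∀ k : Fin (m a), i < k → k ≤ q → u' ⟨a, k⟩ = 0) → (⟨a, q⟩ : Σ a, Fin (m a)) ∈ Zx := by
  classical
  obtain ⟨Z, hZ⟩ : ∃ Z : Set (Σ a, Fin (m a)),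
      Z = {c | (u c = 0 ∧ ¬ InUndet A u c.1 c.2) ∨ c ∈ Zx} := ⟨_, rfl⟩
  obtain ⟨Ls, hLs⟩ : ∃ Ls : Finset ((Σ a, Fin (m a)) → ℤ), Ls =
      (((AW A).filter (InFace (AW A) u)) ×ˢ (AW A)).image
        (fun p c => (p.2 c : ℤ) - (p.1 c : ℤ)) := ⟨_, rfl⟩
  have hLs' : ∀ l, l ∈ Ls ↔ ∃ W W', InFace (AW A) u W ∧ W' ∈ AW A ∧
      l = fun c => (W' c : ℤ) - (W c : ℤ) := by
    intro l
    rw [hLs, Finset.mem_image]
    constructor
    · rintro ⟨⟨W, W'⟩, hp, rfl⟩
      rw [Finset.mem_product, Finset.mem_filter] at hp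
      exact ⟨W, W', hp.1.2, hp.2, rfl⟩
    · rintro ⟨W, W', h1, h2, rfl⟩
      refine ⟨(W, W'), ?_, rfl⟩
      rw [Finset.mem_product, Finset.mem_filter]
      exact ⟨⟨h1.1, h1⟩, h2⟩
  have hlQ : ∀ (W W' : (Σ a, Fin (m a)) → ℕ) (y : (Σ a, Fin (m a)) → ℚ),
      ∑ c, (((W' c : ℤ) - (W c : ℤ) : ℤ) : ℚ) * y c =
        ∑ c, (W' c : ℚ) * y c - ∑ c, (W c : ℚ) * y c := by
    intro W W' y
    rw [← Finset.sum_sub_distrib]
    refine Finset.sum_congr rfl fun c _ => ?_
    push_cast
    ring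
  have hlZ : ∀ (W W' v : (Σ a, Fin (m a)) → ℕ),
      ∑ c, ((W' c : ℤ) - (W c : ℤ)) * (v c : ℤ) = (pair W' v : ℤ) - (pair W v : ℤ) := by
    intro W W' v
    unfold pair
    push_cast
    rw [← Finset.sum_sub_distrib]
    refine Finset.sum_congr rfl fun c _ => ?_
    ring
  obtain ⟨U, hU⟩ := exists_isRays Z Ls
  obtain ⟨W0, hW0⟩ := us2_face (AW A) u hN
  -- properties of the rays
  have hUf : ∀ v ∈ U, ∀ W, InFace (AW A) u W → InFace (AW A) v W := by
    intro v hv W hW
    refine ⟨hW.1, fun W' hW' => ?_⟩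
    have h1 := hU.nonneg v hv _ ((hLs' _).mpr ⟨W, W', hW, hW', rfl⟩)
    rw [hlZ] at h1
    omega
  have hUe : ∀ v ∈ U, Ext (AW A) v := by
    intro v hv
    refine ⟨hU.ne v hv, fun y hy1 hy2 => hU.ext v hv y hy1 fun l hl h0 => ?_⟩
    obtain ⟨W, W', hW, hW', rfl⟩ := (hLs' l).mp hl
    simp only at h0 ⊢
    rw [hlZ] at h0
    rw [hlQ, sub_eq_zero]
    have h1 := hUf v hv W hW
    have h2 : InFace (AW A) v W' := by
      refine ⟨hW', fun W'' hW'' => ?_⟩
      have := h1.2 W'' hW''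
      omega
    exact hy2 W' W h2 h1
  have hUN : ∀ v ∈ U, minF (AW A) v = pair W0 v := fun v hv =>
    us2_minF _ _ _ (hUf v hv W0 hW0)
  have hUZ : ∀ v ∈ U, ∀ a, ∀ i : Fin (m a), u ⟨a, i⟩ = 0 → ¬ InUndet A u a i →
      v ⟨a, i⟩ = 0 := by
    intro v hv a i h1 h2
    refine hU.zero v hv ⟨a, i⟩ ?_
    rw [hZ]
    exact Or.inl ⟨h1, h2⟩
  have hUZx : ∀ v ∈ U, ∀ c ∈ Zx, v c = 0 := by
    intro v hv c hc
    refine hU.zero v hv c ?_
    rw [hZ]
    exact Or.inr hc
  -- linearity of the value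
  have hgenN : ∀ (x : (Σ a, Fin (m a)) → ℚ) (α : ((Σ a, Fin (m a)) → ℕ) → ℚ),
      (∀ c, x c = ∑ v ∈ U, α v * v c) → ∑ c, (W0 c : ℚ) * x c = ∑ v ∈ U, α v * pair W0 v := by
    intro x α hx
    calc ∑ c, (W0 c : ℚ) * x c = ∑ c, ∑ v ∈ U, α v * ((W0 c : ℚ) * v c) := by
          refine Finset.sum_congr rfl fun c _ => ?_
          rw [hx c, Finset.mul_sum]
          refine Finset.sum_congr rfl fun v _ => ?_
          ring
      _ = ∑ v ∈ U, ∑ c, α v * ((W0 c : ℚ) * v c) := Finset.sum_comm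
      _ = _ := by
          refine Finset.sum_congr rfl fun v _ => ?_
          rw [← Finset.mul_sum, us2_cast]
  -- the sum of the values in the undetected places
  obtain ⟨S, hS⟩ : ∃ S : ((Σ a, Fin (m a)) → ℚ) → ℚ, S = fun y =>
      ∑ a, ∑ r ∈ (Finset.range (m a)).filter (fun r => InUndet A u a r), evq y a r := ⟨_, rfl⟩
  have hgenS : ∀ (x : (Σ a, Fin (m a)) → ℚ) (α : ((Σ a, Fin (m a)) → ℕ) → ℚ),
      (∀ c, x c = ∑ v ∈ U, α v * v c) → S x = ∑ v ∈ U, α v * S (fun c => (v c : ℚ)) := by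
    intro x α hx
    have hev : ∀ a r, evq x a r = ∑ v ∈ U, α v * evq (fun c => (v c : ℚ)) a r := by
      intro a r
      unfold evq
      calc ∑ i : Fin (m a), ((r - (i : ℕ) : ℕ) : ℚ) * x ⟨a, i⟩
          = ∑ i : Fin (m a), ∑ v ∈ U, α v * (((r - (i : ℕ) : ℕ) : ℚ) * v ⟨a, i⟩) := by
            refine Finset.sum_congr rfl fun i _ => ?_
            rw [hx, Finset.mul_sum]
            refine Finset.sum_congr rfl fun v _ => ?_
            ring
        _ = ∑ v ∈ U, ∑ i : Fin (m a), α v * (((r - (i : ℕ) : ℕ) : ℚ) * v ⟨a, i⟩) :=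
            Finset.sum_comm
        _ = _ := by
            refine Finset.sum_congr rfl fun v _ => ?_
            rw [← Finset.mul_sum]
    rw [hS]
    simp only
    calc ∑ a, ∑ r ∈ (Finset.range (m a)).filter (fun r => InUndet A u a r), evq x a r
        = ∑ a, ∑ r ∈ (Finset.range (m a)).filter (fun r => InUndet A u a r),
          ∑ v ∈ U, α v * evq (fun c => (v c : ℚ)) a r := by
          refine Finset.sum_congr rfl fun a _ => Finset.sum_congr rfl fun r _ => hev a r
      _ = ∑ a, ∑ v ∈ U, ∑ r ∈ (Finset.range (m a)).filter (fun r => InUndet A u a r),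
          α v * evq (fun c => (v c : ℚ)) a r := by
          refine Finset.sum_congr rfl fun a _ => Finset.sum_comm
      _ = ∑ v ∈ U, ∑ a, ∑ r ∈ (Finset.range (m a)).filter (fun r => InUndet A u a r),
          α v * evq (fun c => (v c : ℚ)) a r := Finset.sum_comm
      _ = _ := by
          refine Finset.sum_congr rfl fun v _ => ?_
          rw [Finset.mul_sum]
          refine Finset.sum_congr rfl fun a _ => ?_
          rw [Finset.mul_sum]
  have hS0 : ∀ v : (Σ a, Fin (m a)) → ℕ, 0 ≤ S (fun c => (v c : ℚ)) := by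
    intro v
    rw [hS]
    refine Finset.sum_nonneg fun a _ => Finset.sum_nonneg fun r _ => ?_
    unfold evq
    refine Finset.sum_nonneg fun i _ => ?_
    positivity
  -- some ray has a positive value
  have hpos : (U.filter fun v => 0 < pair W0 v).Nonempty := by
    obtain ⟨α, hα0, hα⟩ := hU.gen (fun c => (u c : ℚ)) (fun c => Nat.cast_nonneg _)
      (fun c hc => by
        rw [hZ] at hc
        have hc0 : u c = 0 := by
          rcases hc with hc | hc
          · exact hc.1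
          · obtain ⟨i, _, hir, _, hz⟩ := hZx c hc
            exact hz c.2 hir (le_refl _)
        rw [hc0]
        simp)
      (fun l hl => by
        obtain ⟨W, W', hW, hW', rfl⟩ := (hLs' l).mp hl
        simp only
        rw [hlQ, us2_cast, us2_cast, sub_nonneg]
        exact_mod_cast hW.2 W' hW')
    by_contra hne
    rw [Finset.not_nonempty_iff_eq_empty, Finset.filter_eq_empty_iff] at hne
    have h1 := hgenN (fun c => (u c : ℚ)) α hα
    rw [us2_cast, ← us2_minF _ _ _ hW0] at h1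
    have h2 : ∑ v ∈ U, α v * (pair W0 v : ℚ) = 0 := by
      refine Finset.sum_eq_zero fun v hv => ?_
      have := hne hv
      have h3 : pair W0 v = 0 := by omega
      rw [h3]
      simp
    rw [h2] at h1
    have h4 : minF (AW A) u = 0 := by exact_mod_cast h1
    omega
  obtain ⟨u', hu', hmin⟩ := Finset.exists_min_image (U.filter fun v => 0 < pair W0 v)
    (fun v => S (fun c => (v c : ℚ)) / (pair W0 v : ℚ)) hpos
  rw [Finset.mem_filter] at hu'
  obtain ⟨hu'U, hu'N⟩ := hu'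
  have hu'N' : 0 < minF (AW A) u' := by
    rw [hUN u' hu'U]
    exact hu'N
  refine ⟨u', hUe u' hu'U, hu'N', hUZ u' hu'U, hUZx u' hu'U, hUf u' hu'U, ?_⟩
  intro a i hi q hiq hq
  by_contra hqZ
  obtain ⟨y, hy0, hyZ, hyF, hyA, hyle, hylt, a1, r1, hr1, hlt1⟩ :=
    exists_lowerQ A u' hu'N' a i hi q hiq hq
  have hback : ∀ a r, InUndet A u' a r → InUndet A u a r := fun a r h =>
    inUndet_of_inUndet A u u' hu hN (hUZ u' hu'U) (hUf u' hu'U) a r h
  obtain ⟨α, hα0, hα⟩ := hU.gen y hy0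
    (fun c hc => by
      refine hyZ c (hU.zero u' hu'U c hc) ?_
      intro hcq
      rw [hZ] at hc
      rcases hc with hc | hc
      · refine hc.2 (hback c.1 c.2 ?_)
        subst hcq
        exact ⟨i, hi, hiq, q.2, fun k h1 h2 => hq k h1 h2⟩
      · rw [hcq] at hc
        exact hqZ hc)
    (fun l hl => by
      obtain ⟨W, W', hW, hW', rfl⟩ := (hLs' l).mp hl
      simp only
      rw [hlQ, hyF W (hUf u' hu'U W hW), sub_nonneg]
      exact hyA W' hW')
  have hNy : ∑ v ∈ U, α v * (pair W0 v : ℚ) = pair W0 u' := by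
    rw [← hgenN y α hα, hyF W0 (hUf u' hu'U W0 hW0), hUN u' hu'U]
  have hSy := hgenS y α hα
  have hNpos : (0 : ℚ) < pair W0 u' := by exact_mod_cast hu'N
  have h1 : S (fun c => (u' c : ℚ)) ≤ S y := by
    calc S (fun c => (u' c : ℚ))
        = (S (fun c => (u' c : ℚ)) / (pair W0 u' : ℚ)) * ∑ v ∈ U, α v * (pair W0 v : ℚ) := by
          rw [hNy]
          field_simp
      _ = ∑ v ∈ U, α v * ((S (fun c => (u' c : ℚ)) / (pair W0 u' : ℚ)) * (pair W0 v : ℚ)) := by
          rw [Finset.mul_sum]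
          refine Finset.sum_congr rfl fun v _ => ?_
          ring
      _ ≤ ∑ v ∈ U, α v * S (fun c => (v c : ℚ)) := by
          refine Finset.sum_le_sum fun v hv => mul_le_mul_of_nonneg_left ?_ (hα0 v)
          by_cases hvN : 0 < pair W0 v
          · have h2 := hmin v (Finset.mem_filter.mpr ⟨hv, hvN⟩)
            have h3 : (0 : ℚ) < pair W0 v := by exact_mod_cast hvN
            rwa [le_div_iff₀ h3] at h2
          · have h3 : pair W0 v = 0 := by omega
            rw [h3]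
            simp only [Nat.cast_zero, mul_zero]
            exact hS0 v
      _ = S y := hSy.symm
  have h2 : S y < S (fun c => (u' c : ℚ)) := by
    rw [hS]
    simp only
    refine Finset.sum_lt_sum (fun a _ => Finset.sum_le_sum fun r hr => ?_)
      ⟨a1, Finset.mem_univ a1, Finset.sum_lt_sum (fun r hr => ?_) ⟨r1, ?_, hlt1⟩⟩
    · rw [Finset.mem_filter, Finset.mem_range] at hr
      exact hyle a r hr.1.le
    · rw [Finset.mem_filter, Finset.mem_range] at hr
      exact hyle a1 r hr.1.le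
    · have h3 := hback a1 r1 (hylt a1 r1 hr1 hlt1)
      rw [Finset.mem_filter, Finset.mem_range]
      obtain ⟨_, _, _, h4, _⟩ := id h3
      exact ⟨h4, h3⟩
  exact absurd h1 (not_le.mpr h2)

end MotMono
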