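import Pool.Agent.Lib.MP_4e5fcd_ag.Det.U3

/-! # CL-US3: sums of values of piecewise linear functions, parity

PROOF. `sum_int_or`: compare `two_sum_int` in `Det/U3.lean`. Suppose that the second alternative fails. By strong
induction over the elements `r` of `G`: `∑ k < r, (f k + f (k + 1)) - f r` is an even integer: if `i` is the last
element of `G` before `r`, `g = r - i`, then the sum from `i` to `r` is `g * (f i + f r)` (`f` is affine there); for odd `g`
`g * (f i + f r) ≡ f i + f r ≡ f r - f i` modulo `2`, for even `g` it is even and `f r - f i` is even by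
assumption. So `2 * ∑ r ≤ M, f r = ∑ k < M, (f k + f (k + 1)) + f 0 + f M` is `≡ 2 f M ≡ 0`.
`even_diff`: `f (r + 1) - f r = ∑ k ≤ r, u k` for `f = evq`; the slopes at `i + 2 j` and `i + 2 j + 1` agree. -/

open MvPolynomial

namespace MotMono

variable {s : ℕ} {m : Fin s → ℕ}

private theorem US3_affine (f : ℕ → ℚ) (i g : ℕ)
    (h : ∀ r, i < r → r < i + g → f (r + 1) + f (r - 1) = 2 * f r) :
    ∀ t, t ≤ g → f (i + t) = f i + t * (f (i + 1) - f i) := by
  intro t
  induction t using Nat.strong_induction_on with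
  | _ t ih =>
    intro ht
    rcases Nat.lt_or_ge t 2 with h2 | h2
    · interval_cases t
      · simp
      · simp
    · obtain ⟨k, rfl⟩ : ∃ k, t = k + 2 := ⟨t - 2, by omega⟩
      have h3 := h (i + (k + 1)) (by omega) (by omega)
      have h4 := ih (k + 1) (by omega) (by omega)
      have h5 := ih k (by omega) (by omega)
      have e1 : i + (k + 1) + 1 = i + (k + 2) := by omega
      have e2 : i + (k + 1) - 1 = i + k := by omega
      rw [e1, e2, h4, h5] at h3
      push_cast at h3 ⊢
      linarith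

private theorem US3_affine_sum (f : ℕ → ℚ) (i g : ℕ)
    (h : ∀ r, i < r → r < i + g → f (r + 1) + f (r - 1) = 2 * f r) :
    ∑ t ∈ Finset.range g, (f (i + t) + f (i + t + 1)) = g * (f i + f (i + g)) := by
  have ha := US3_affine f i g h
  have h1 : ∀ k, k ≤ g → ∑ t ∈ Finset.range k, (f (i + t) + f (i + t + 1)) =
      2 * k * f i + (k : ℚ) ^ 2 * (f (i + 1) - f i) := by
    intro k
    induction k with
    | zero => intro _; simp
    | succ k ih =>
      intro hk
      rw [Finset.sum_range_succ, ih (by omega), ha k (by omega)]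
      have := ha (k + 1) hk
      rw [← add_assoc] at this
      rw [this]
      push_cast
      ring
  rw [h1 g le_rfl, ha g le_rfl]
  ring

theorem sum_int_or (f : ℕ → ℚ) (G : Set ℕ) (M : ℕ) (hf0 : f 0 = 0) (h0 : 0 ∈ G) (hM : M ∈ G)
    (hG : ∀ r ∈ G, ∃ z : ℤ, f r = z)
    (hlin : ∀ r, 0 < r → r < M → r ∉ G → f (r + 1) + f (r - 1) = 2 * f r) :
    (∃ z : ℤ, ∑ r ∈ Finset.range (M + 1), f r = z) ∨
      ∃ i g : ℕ, 0 < g ∧ i ∈ G ∧ i + 2 * g ∈ G ∧ i + 2 * g ≤ M ∧
        (∀ k, i < k → k < i + 2 * g → k ∉ G) ∧ ∃ z : ℤ, Odd z ∧ f (i + 2 * g) - f i = z := by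
  classical
  by_contra hcon
  rw [not_or] at hcon
  obtain ⟨hc1, hc2⟩ := hcon
  apply hc1
  have key : ∀ r, r ∈ G → r ≤ M →
      ∃ z : ℤ, ∑ k ∈ Finset.range r, (f k + f (k + 1)) - f r = 2 * z := by
    intro r
    induction r using Nat.strong_induction_on with
    | _ r ih =>
      intro hr hrM
      rcases Nat.eq_zero_or_pos r with h1 | h1
      · subst h1
        exact ⟨0, by simp [hf0]⟩
      · obtain ⟨i, hi⟩ : ∃ i, i = Nat.findGreatest (fun k => k ∈ G) (r - 1) := ⟨_, rfl⟩
        have hi1 : i ∈ G := by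
          rw [hi]
          exact Nat.findGreatest_spec (P := fun k => k ∈ G) (Nat.zero_le _) h0
        have hi2 : i ≤ r - 1 := by
          rw [hi]
          exact Nat.findGreatest_le _
        have hi3 : ∀ k, i < k → k < r → k ∉ G := by
          intro k hk1 hk2 hk3
          have := Nat.le_findGreatest (P := fun k => k ∈ G) (show k ≤ r - 1 by omega) hk3
          omega
        obtain ⟨z1, hz1⟩ := ih i (by omega) hi1 (by omega)
        obtain ⟨z2, hz2⟩ := hG i hi1
        obtain ⟨z3, hz3⟩ := hG r hr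
        obtain ⟨g, rfl⟩ : ∃ g, r = i + g := ⟨r - i, by omega⟩
        have h2 := US3_affine_sum f i g (fun k hk1 hk2 =>
          hlin k (by omega) (by omega) (hi3 k hk1 hk2))
        have h3 : ∑ k ∈ Finset.range i, (f k + f (k + 1)) = 2 * z1 + z2 := by
          rw [hz2] at hz1
          linarith
        rcases Nat.even_or_odd' g with ⟨c, hc | hc⟩
        · -- even length
          subst hc
          have h4 : ¬ Odd (z3 - z2) := by
            intro hodd
            apply hc2
            refine ⟨i, c, by omega, hi1, hr, hrM, hi3, z3 - z2, hodd, ?_⟩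
            rw [hz3, hz2]
            push_cast
            ring
          rw [Int.not_odd_iff_even] at h4
          obtain ⟨w, hw⟩ := h4
          have h5 : (z3 : ℚ) - z2 = 2 * w := by
            have : z3 - z2 = 2 * w := by omega
            exact_mod_cast this
          refine ⟨z1 + c * (z2 + z3) - w, ?_⟩
          rw [Finset.sum_range_add, h3, h2, hz2, hz3]
          push_cast
          linarith
        · subst hc
          refine ⟨z1 + z2 + c * (z2 + z3), ?_⟩
          rw [Finset.sum_range_add, h3, h2, hz2, hz3]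
          push_cast
          ring
  obtain ⟨z1, hz1⟩ := key M hM le_rfl
  obtain ⟨z3, hz3⟩ := hG M hM
  refine ⟨z1 + z3, ?_⟩
  have h1 : ∑ k ∈ Finset.range M, (f k + f (k + 1)) + f 0 + f M =
      2 * ∑ r ∈ Finset.range (M + 1), f r := by
    rw [Finset.sum_add_distrib, two_mul]
    nth_rw 2 [Finset.sum_range_succ']
    rw [Finset.sum_range_succ]
    ring
  rw [hf0, hz3] at h1
  rw [hz3] at hz1
  push_cast
  linarith

theorem even_diff (u : (Σ a, Fin (m a)) → ℕ) (a : Fin s) (i g : ℕ) (hg : i + 2 * g ≤ m a)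
    (hu : ∀ k : Fin (m a), i < k → (k : ℕ) < i + 2 * g → ((k : ℕ) - i) % 2 = 1 → u ⟨a, k⟩ = 0) :
    ∃ z : ℤ, evq (fun c => (u c : ℚ)) a (i + 2 * g) - evq (fun c => (u c : ℚ)) a i = 2 * z := by
  have h1 : ∀ k : Fin (m a), ∃ c : ℤ, ((i + 2 * g - (k : ℕ) : ℕ) : ℚ) * (u ⟨a, k⟩ : ℚ) -
      ((i - (k : ℕ) : ℕ) : ℚ) * (u ⟨a, k⟩ : ℚ) = 2 * c := by
    intro k
    rcases Nat.lt_or_ge i k with hk | hk
    · have e1 : i - (k : ℕ) = 0 := by omega
      rcases Nat.lt_or_ge (k : ℕ) (i + 2 * g) with hk2 | hk2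
      · rcases Nat.mod_two_eq_zero_or_one ((k : ℕ) - i) with h | h
        · obtain ⟨c, hc⟩ : ∃ c, i + 2 * g - (k : ℕ) = 2 * c := ⟨(i + 2 * g - (k : ℕ)) / 2, by omega⟩
          refine ⟨c * u ⟨a, k⟩, ?_⟩
          rw [e1, hc]
          push_cast
          ring
        · refine ⟨0, ?_⟩
          rw [hu k hk hk2 h]
          simp
      · have e2 : i + 2 * g - (k : ℕ) = 0 := by omega
        refine ⟨0, ?_⟩
        rw [e1, e2]
        simp
    · have e2 : i + 2 * g - (k : ℕ) = (i - (k : ℕ)) + 2 * g := by omega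
      refine ⟨g * u ⟨a, k⟩, ?_⟩
      rw [e2]
      push_cast
      ring
  choose c hc using h1
  refine ⟨∑ k, c k, ?_⟩
  unfold evq
  rw [← Finset.sum_sub_distrib, Finset.sum_congr rfl fun k _ => hc k, ← Finset.mul_sum]
  push_cast
  rfl

end MotMono
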