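import Pool.Agent.Lib.MP_4e5fcd_ag.Cl.UDefs

/-! # CL-US4: primitive generators of rays

PROOF. Extract from the proof of `exists_detected` in `Det/U3.lean`: `g` = the greatest common divisor of
the `u₀ c`. -/

open MvPolynomial

namespace MotMono

variable {s : ℕ} {m : Fin s → ℕ}

private theorem US4_minF {ι : Type} [Fintype ι] (B : Finset (ι → ℕ)) (u W : ι → ℕ)
    (h : InFace B u W) : minF B u = pair W u := by
  unfold minF
  refine le_antisymm (Nat.sInf_le ⟨W, h.1, rfl⟩) ?_
  refine le_csInf ⟨pair W u, W, h.1, rfl⟩ ?_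
  rintro k ⟨W', hW', rfl⟩
  exact h.2 W' hW'

private theorem US4_face {ι : Type} [Fintype ι] (B : Finset (ι → ℕ)) (u : ι → ℕ)
    (h : 0 < minF B u) : ∃ W, InFace B u W := by
  have hne : B.Nonempty := by
    by_contra hB
    rw [Finset.not_nonempty_iff_eq_empty] at hB
    have h1 : minF B u = 0 := by
      unfold minF
      rw [hB]
      simp
    omega
  obtain ⟨W, hW, hmin⟩ := Finset.exists_min_image B (fun W => pair W u) hne
  exact ⟨W, hW, hmin⟩

theorem exists_prim (A : Finset ((Σ a, Fin (m a)) → ℕ)) (u₀ : (Σ a, Fin (m a)) → ℕ)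
    (hu : Ext (AW A) u₀) (hN : 0 < minF (AW A) u₀) :
    ∃ (g : ℕ) (u' : (Σ a, Fin (m a)) → ℕ), 0 < g ∧ (∀ c, u₀ c = g * u' c) ∧ Ext (AW A) u' ∧
      Prim u' ∧ 0 < minF (AW A) u' ∧ (∀ W, InFace (AW A) u₀ W ↔ InFace (AW A) u' W) ∧
      ∀ a r, Vis A u₀ a r ↔ Vis A u' a r := by
  classical
  obtain ⟨W0, hW0⟩ := US4_face (AW A) u₀ hN
  -- divide by the greatest common divisor
  obtain ⟨g, hg⟩ : ∃ g, g = Finset.univ.gcd u₀ := ⟨_, rfl⟩
  have hg0 : 0 < g := by
    rcases Nat.eq_zero_or_pos g with h | h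
    · exfalso
      rw [hg, Finset.gcd_eq_zero_iff] at h
      exact hu.1 (funext fun c => h c (Finset.mem_univ c))
    · exact h
  have hdvd : ∀ c, g ∣ u₀ c := by
    intro c
    rw [hg]
    exact Finset.gcd_dvd (Finset.mem_univ c)
  obtain ⟨u', hu'⟩ : ∃ u' : (Σ a, Fin (m a)) → ℕ, u' = fun c => u₀ c / g := ⟨_, rfl⟩
  have hu0 : ∀ c, u₀ c = g * u' c := by
    intro c
    rw [hu']
    exact (Nat.mul_div_cancel' (hdvd c)).symm
  have hz : ∀ c, u₀ c = 0 ↔ u' c = 0 := by
    intro c
    rw [hu0 c]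
    constructor
    · intro h
      rcases Nat.mul_eq_zero.mp h with h1 | h1
      · omega
      · exact h1
    · intro h
      rw [h, mul_zero]
  have hpair : ∀ W, pair W u₀ = g * pair W u' := by
    intro W
    unfold pair
    rw [Finset.mul_sum]
    refine Finset.sum_congr rfl fun c _ => ?_
    rw [hu0 c]
    ring
  have hface : ∀ W, InFace (AW A) u₀ W ↔ InFace (AW A) u' W := by
    intro W
    unfold InFace
    refine and_congr_right fun _ => forall₂_congr fun W' _ => ?_
    rw [hpair, hpair]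
    exact Nat.mul_le_mul_left_iff hg0
  have hfun : u₀ = fun c => g * u' c := funext hu0
  have hN' : minF (AW A) u₀ = g * minF (AW A) u' := by
    rw [US4_minF _ _ _ hW0, US4_minF _ _ _ ((hface W0).mp hW0), hpair]
  have hNpos : 0 < minF (AW A) u' := by
    rcases Nat.eq_zero_or_pos (minF (AW A) u') with h | h
    · rw [h, mul_zero] at hN'
      omega
    · exact h
  have hVis : ∀ a r, Vis A u₀ a r ↔ Vis A u' a r := by
    intro a r
    unfold Vis
    constructor
    · rintro ⟨w, hw, h1, h2⟩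
      exact ⟨w, hw, (hface _).mp h1, h2⟩
    · rintro ⟨w, hw, h1, h2⟩
      exact ⟨w, hw, (hface _).mpr h1, h2⟩
  refine ⟨g, u', hg0, hu0, ⟨?_, ?_⟩, ?_, hNpos, hface, hVis⟩
  · intro h
    apply hu.1
    rw [hfun, h]
    funext c
    simp
  · intro y hy1 hy2
    obtain ⟨c, hc⟩ := hu.2 y (fun i hi => hy1 i ((hz i).mp hi))
      (fun W W' h1 h2 => hy2 W W' ((hface W).mp h1) ((hface W').mp h2))
    refine ⟨c * g, fun i => ?_⟩
    rw [hc i, hu0 i]
    push_cast
    ring
  · intro d hd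
    have h1 : g * d ∣ g := by
      nth_rw 2 [hg]
      refine Finset.dvd_gcd fun c _ => ?_
      rw [hu0 c]
      exact Nat.mul_dvd_mul_left g (hd c)
    have h2 := Nat.le_of_dvd hg0 h1
    have h3 : d ≤ 1 := by
      by_contra h4
      have h5 : g * 2 ≤ g * d := Nat.mul_le_mul_left g (by omega)
      omega
    have h4 : d ≠ 0 := by
      rintro rfl
      rw [mul_zero] at h1
      have := Nat.eq_zero_of_zero_dvd h1
      omega
    omega

end MotMono
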