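import Pool.Agent.Lib.MP_4e5fcd_ag.Cl.US0
import Pool.Agent.Lib.MP_4e5fcd_ag.Cl.US2
import Pool.Agent.Lib.MP_4e5fcd_ag.Cl.US3
import Pool.Agent.Lib.MP_4e5fcd_ag.Cl.US4

/-! # CL-US5: a detected ray of the right denominator

PROOF. Write `f r = evq u a r` and `G_a = {r ≤ rk | ¬ InUndet A u a r}`; `f` is affine between the points of `G_a`
(see `exists_detected` in `Det/U3.lean`). Let `u'` be obtained from `exists_ray_min` for some `Zx` and
`exists_prim`. By `chord` there is `τ' ≥ 0` with `evq u' a r = τ' * evq u a r` on `G_a` and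
`minF u' = τ' * minF u`, so `τ' > 0`, and `τ' f r` is an integer for `r ∈ G_a`. Let `Y' = 2 τ' * pair (nufS σ) u`. By
`pair_nufS` and `two_sum_int` `Y'` is an integer.
(1) `Zx = ∅`: `u'` has no undetected blocks. If `Y'` is even, then `z = Y' / 2` does it
(`pair (nufS σ) u * minF u' = τ' pair (nufS σ) u * minF u`). Otherwise some symmetric `a₀` has
`τ' ∑ r ≤ rk, f r` not integral (generic and skew-symmetric matrices contribute integers), so by `sum_int_or` there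
are `i`, `g` as there, for `M = rk`, `G = G_{a₀}` and `τ' f` (`Odd z`). The places strictly between `i` and `i + 2 g` are
strictly inside an undetected block of `u` starting at `i`.
(2) `Zx = {⟨a₀, k⟩ | i < k < i + 2 g, k - i odd}`: we get `u''`, `τ''`. An undetected block of `u''` has all its
interior places in `Zx`, so it has length exactly two and `a = a₀`, symmetric: `DetectedS`. By `even_diff`
`D'' = τ'' (f (i + 2 g) - f i)` is even, `D' = τ' (f (i + 2 g) - f i)` is odd, and `Y'' * D' = Y' * D''`. So `Y''` is even, and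
`z = Y'' / 2` does it. -/

open MvPolynomial

namespace MotMono

variable {s : ℕ}

private theorem US5_minF {ι : Type} [Fintype ι] (B : Finset (ι → ℕ)) (u W : ι → ℕ)
    (h : InFace B u W) : minF B u = pair W u := by
  unfold minF
  refine le_antisymm (Nat.sInf_le ⟨W, h.1, rfl⟩) ?_
  refine le_csInf ⟨pair W u, W, h.1, rfl⟩ ?_
  rintro k ⟨W', hW', rfl⟩
  exact h.2 W' hW'

private theorem US5_face {ι : Type} [Fintype ι] (B : Finset (ι → ℕ)) (u : ι → ℕ)
    (h : 0 < minF B u) : ∃ W, InFace B u W := by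
  have hne : B.Nonempty := by
    by_contra hB
    rw [Finset.not_nonempty_iff_eq_empty] at hB
    have h1 : minF B u = 0 := by
      unfold minF
      rw [hB]
      simp
    omega
  obtain ⟨W, hW, hmin⟩ := Finset.exists_min_image B (fun W => pair W u) hne
  exact ⟨W, hW, hmin⟩

private theorem US5_ray {m : Fin s → ℕ} (A : Finset ((Σ a, Fin (m a)) → ℕ))
    (u : (Σ a, Fin (m a)) → ℕ) (hu : Ext (AW A) u) (hN : 0 < minF (AW A) u)
    (Zx : Set (Σ a, Fin (m a))) (hZx : ∀ c ∈ Zx, InUndet A u c.1 c.2) :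
    ∃ (u' : (Σ a, Fin (m a)) → ℕ) (τ : ℚ), Ext (AW A) u' ∧ Prim u' ∧ 0 < minF (AW A) u' ∧
      (minF (AW A) u' : ℚ) = τ * minF (AW A) u ∧
      (∀ a r, r ≤ m a → ¬ InUndet A u a r →
        evq (fun c => (u' c : ℚ)) a r = τ * evq (fun c => (u c : ℚ)) a r) ∧
      (∀ c ∈ Zx, u' c = 0) ∧
      ∀ a, ∀ i : Fin (m a), Undet A u' a i → ∀ q : Fin (m a), i < q →
        (∀ k : Fin (m a), i < k → k ≤ q → u' ⟨a, k⟩ = 0) → (⟨a, q⟩ : Σ a, Fin (m a)) ∈ Zx := by
  classical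
  obtain ⟨u₀, hE0, hN0, hZ0, hX0, hF0, hU0⟩ := exists_ray_min A u hu hN Zx hZx
  obtain ⟨g, u', hg0, hu0, hE, hP, hNp, hface, hVis⟩ := exists_prim A u₀ hE0 hN0
  obtain ⟨W0, hW0⟩ := US5_face (AW A) u hN
  have hz : ∀ c, u₀ c = 0 ↔ u' c = 0 := by
    intro c
    rw [hu0 c]
    constructor
    · intro h
      rcases Nat.mul_eq_zero.mp h with h1 | h1
      · omega
      · exact h1
    · intro h
      rw [h, mul_zero]
  obtain ⟨τ, hτ0, hτ1, hτ2⟩ := chord A u hu hN (fun c => (u' c : ℚ))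
      (fun c => Nat.cast_nonneg _)
      (fun a i h1 h2 => by
        have h3 := (hz _).mp (hZ0 a i h1 h2)
        rw [h3]
        simp)
      (fun W W' h1 h2 => by
        have h3 := (hface W).mp (hF0 W h1)
        have h4 := (hface W').mp (hF0 W' h2)
        have h5 : pair W u' = pair W' u' := le_antisymm (h3.2 W' h4.1) (h4.2 W h3.1)
        have h6 : ((pair W u' : ℕ) : ℚ) = ((pair W' u' : ℕ) : ℚ) := by rw [h5]
        unfold pair at h6
        push_cast at h6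
        exact h6)
  have hτN : (minF (AW A) u' : ℚ) = τ * minF (AW A) u := by
    rw [← hτ2 W0 hW0, US5_minF _ _ _ ((hface W0).mp (hF0 W0 hW0))]
    unfold pair
    push_cast
    rfl
  refine ⟨u', τ, hE, hP, hNp, hτN, hτ1, fun c hc => (hz c).mp (hX0 c hc), ?_⟩
  intro a i hi q hiq hk
  refine hU0 a i ?_ q hiq (fun k h1 h2 => (hz _).mpr (hk k h1 h2))
  obtain ⟨h1, ⟨h2, h3⟩, h4⟩ := hi
  refine ⟨fun h => h1 ((hz _).mp h), ⟨h2, (hz _).mpr h3⟩, ?_⟩
  intro r hr hir hrm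
  obtain ⟨k, hk1, hk2, hk3⟩ := h4 r ((hVis a r).mp hr) hir hrm
  exact ⟨k, hk1, hk2, fun h => hk3 ((hz _).mp h)⟩

private theorem US5_lin {m : Fin s → ℕ} (A : Finset ((Σ a, Fin (m a)) → ℕ))
    (u : (Σ a, Fin (m a)) → ℕ) (a : Fin s) (r : ℕ) (_hr1 : 0 < r) (hr2 : r < m a)
    (hin : InUndet A u a r) :
    evq (fun c => (u c : ℚ)) a (r + 1) + evq (fun c => (u c : ℚ)) a (r - 1) =
      2 * evq (fun c => (u c : ℚ)) a r := by
  have hur : u ⟨a, ⟨r, hr2⟩⟩ = 0 := by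
    obtain ⟨i, _, h1, _, h3⟩ := hin
    exact h3 ⟨r, hr2⟩ h1 le_rfl
  unfold evq
  rw [Finset.mul_sum, ← Finset.sum_add_distrib]
  refine Finset.sum_congr rfl fun i _ => ?_
  by_cases hir : (i : ℕ) = r
  · have h4 : i = ⟨r, hr2⟩ := Fin.ext hir
    simp only
    rw [h4, hur]
    simp
  · have h5 : (r + 1 - (i : ℕ)) + (r - 1 - (i : ℕ)) = 2 * (r - (i : ℕ)) := by omega
    have h6 : ((r + 1 - (i : ℕ) : ℕ) : ℚ) + ((r - 1 - (i : ℕ) : ℕ) : ℚ) =
        2 * ((r - (i : ℕ) : ℕ) : ℚ) := by exact_mod_cast h5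
    rw [← add_mul, h6]
    ring

private theorem US5_nuv_mul (σ : Shp) (t S F : ℚ) :
    t * nuv σ S F = nuv σ (t * S) (t * F) := by
  rcases σ with ⟨m, n⟩ | ⟨κ, n⟩
  · show t * (2 * S + ((n : ℚ) - m - 1) * F) = 2 * (t * S) + ((n : ℚ) - m - 1) * (t * F)
    ring
  · show t * (if κ = true then S else 4 * S + (2 * ((n % 2 : ℕ) : ℚ) - 3) * F) =
      if κ = true then t * S else 4 * (t * S) + (2 * ((n % 2 : ℕ) : ℚ) - 3) * (t * F)
    split_ifs
    · rfl
    · ring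

private theorem US5_nuv_int (σ : Shp) (S F : ℚ) (z1 z2 : ℤ) (h1 : 2 * S = z1) (h2 : F = z2) :
    (∃ z : ℤ, 2 * nuv σ S F = z) ∧
      ((∃ z : ℤ, nuv σ S F = z) ∨ ∃ n, σ = Shp.eps true n ∧ nuv σ S F = S) := by
  rcases σ with ⟨m, n⟩ | ⟨κ, n⟩
  · have h3 : nuv (Shp.gen m n) S F = ((z1 + ((n : ℤ) - m - 1) * z2 : ℤ) : ℚ) := by
      show 2 * S + ((n : ℚ) - m - 1) * F = _
      rw [h1, h2]
      push_cast
      ring
    refine ⟨⟨2 * (z1 + ((n : ℤ) - m - 1) * z2), ?_⟩, Or.inl ⟨_, h3⟩⟩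
    rw [h3]
    push_cast
    ring
  · rcases κ with _ | _
    · obtain ⟨p, hp⟩ : ∃ p : ℕ, p = n % 2 := ⟨_, rfl⟩
      have h3 : nuv (Shp.eps false n) S F = ((2 * z1 + (2 * (p : ℤ) - 3) * z2 : ℤ) : ℚ) := by
        show (if (false = true) then S else 4 * S + (2 * ((n % 2 : ℕ) : ℚ) - 3) * F) = _
        rw [if_neg (by decide), ← hp]
        have h4 : 4 * S = 2 * (z1 : ℚ) := by rw [← h1]; ring
        rw [h4, h2]
        push_cast
        ring
      refine ⟨⟨2 * (2 * z1 + (2 * (p : ℤ) - 3) * z2), ?_⟩, Or.inl ⟨_, h3⟩⟩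
      rw [h3]
      push_cast
      ring
    · have h3 : nuv (Shp.eps true n) S F = S := by
        show (if (true = true) then S else 4 * S + (2 * ((n % 2 : ℕ) : ℚ) - 3) * F) = S
        rw [if_pos rfl]
      refine ⟨⟨z1, ?_⟩, Or.inr ⟨n, rfl, h3⟩⟩
      rw [h3, h1]

private theorem US5_sum {ι : Type} (B : Finset ι) (f : ι → ℚ) (h : ∀ i ∈ B, ∃ z : ℤ, f i = z) :
    ∃ z : ℤ, ∑ i ∈ B, f i = z := by
  classical
  induction B using Finset.induction_on with
  | empty => exact ⟨0, by simp⟩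
  | insert i B hi ih =>
    obtain ⟨z1, hz1⟩ := ih fun j hj => h j (Finset.mem_insert_of_mem hj)
    obtain ⟨z2, hz2⟩ := h i (Finset.mem_insert_self _ _)
    refine ⟨z2 + z1, ?_⟩
    rw [Finset.sum_insert hi, hz1, hz2]
    push_cast
    rfl

/-- twice the value is integral, and either the value is integral or there is an odd block -/
private theorem US5_main (σ : Fin s → Shp) (hσ : ∀ a, (σ a).Le)
    (A : Finset ((Σ a, Fin (σ a).rk) → ℕ)) (u u' : (Σ a, Fin (σ a).rk) → ℕ) (τ : ℚ)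
    (hev : ∀ a r, r ≤ (σ a).rk → ¬ InUndet (m := fun a => (σ a).rk) A u a r →
      evq (m := fun a => (σ a).rk) (fun c => (u' c : ℚ)) a r =
        τ * evq (m := fun a => (σ a).rk) (fun c => (u c : ℚ)) a r) :
    (∃ z : ℤ, 2 * (τ * (pair (nufS σ) u : ℚ)) = z) ∧
    ((∃ z : ℤ, τ * (pair (nufS σ) u : ℚ) = z) ∨
      ∃ a₀ : Fin s, (∃ n, σ a₀ = Shp.eps true n) ∧ ∃ i g : ℕ, 0 < g ∧
        ¬ InUndet (m := fun a => (σ a).rk) A u a₀ i ∧
        ¬ InUndet (m := fun a => (σ a).rk) A u a₀ (i + 2 * g) ∧ i + 2 * g ≤ (σ a₀).rk ∧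
        (∀ k, i < k → k < i + 2 * g → InUndet (m := fun a => (σ a).rk) A u a₀ k) ∧
        ∃ z : ℤ, Odd z ∧
          τ * evq (m := fun a => (σ a).rk) (fun c => (u c : ℚ)) a₀ (i + 2 * g) -
            τ * evq (m := fun a => (σ a).rk) (fun c => (u c : ℚ)) a₀ i = z) := by
  classical
  obtain ⟨G, hG⟩ : ∃ G : Fin s → Set ℕ, G = fun a =>
      {r | r ≤ (σ a).rk ∧ ¬ InUndet (m := fun a => (σ a).rk) A u a r} := ⟨_, rfl⟩
  have memG : ∀ a r, r ∈ G a ↔ r ≤ (σ a).rk ∧ ¬ InUndet (m := fun a => (σ a).rk) A u a r := by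
    intro a r
    rw [hG]
    rfl
  have hG0 : ∀ a, 0 ∈ G a := by
    intro a
    rw [memG]
    refine ⟨Nat.zero_le _, ?_⟩
    rintro ⟨i, _, h1, _⟩
    omega
  have hGM : ∀ a, (σ a).rk ∈ G a := by
    intro a
    rw [memG]
    refine ⟨le_rfl, ?_⟩
    rintro ⟨i, _, _, h1, _⟩
    exact absurd h1 (lt_irrefl _)
  have hGz : ∀ a, ∀ r ∈ G a, ∃ z : ℤ,
      τ * evq (m := fun a => (σ a).rk) (fun c => (u c : ℚ)) a r = z := by
    intro a r hr
    rw [memG] at hr
    rw [← hev a r hr.1 hr.2, evq_cast (m := fun a => (σ a).rk) u' a r hr.1]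
    exact ⟨(ev (part (m := fun a => (σ a).rk) u' a) r : ℤ), by push_cast; rfl⟩
  have hlin : ∀ a r, 0 < r → r < (σ a).rk → r ∉ G a →
      τ * evq (m := fun a => (σ a).rk) (fun c => (u c : ℚ)) a (r + 1) +
        τ * evq (m := fun a => (σ a).rk) (fun c => (u c : ℚ)) a (r - 1) =
      2 * (τ * evq (m := fun a => (σ a).rk) (fun c => (u c : ℚ)) a r) := by
    intro a r hr1 hr2 hr3
    have hin : InUndet (m := fun a => (σ a).rk) A u a r := by
      by_contra h
      apply hr3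
      rw [memG]
      exact ⟨hr2.le, h⟩
    rw [← mul_add, US5_lin (m := fun a => (σ a).rk) A u a r hr1 hr2 hin]
    ring
  have h2S : ∀ a, ∃ z : ℤ, 2 * (τ * ∑ r ∈ Finset.range ((σ a).rk + 1),
      evq (m := fun a => (σ a).rk) (fun c => (u c : ℚ)) a r) = z := by
    intro a
    obtain ⟨z, hz⟩ := two_sum_int
      (fun r => τ * evq (m := fun a => (σ a).rk) (fun c => (u c : ℚ)) a r) (G a) (σ a).rk
      (hG0 a) (hGM a) (hGz a) (hlin a)
    refine ⟨z, ?_⟩
    rw [← hz, Finset.mul_sum]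
  have hF : ∀ a, ∃ z : ℤ,
      τ * evq (m := fun a => (σ a).rk) (fun c => (u c : ℚ)) a (σ a).rk = z :=
    fun a => hGz a _ (hGM a)
  have hpair : τ * (pair (nufS σ) u : ℚ) = ∑ a, nuv (σ a)
      (τ * ∑ r ∈ Finset.range ((σ a).rk + 1),
        evq (m := fun a => (σ a).rk) (fun c => (u c : ℚ)) a r)
      (τ * evq (m := fun a => (σ a).rk) (fun c => (u c : ℚ)) a (σ a).rk) := by
    rw [pair_nufS σ hσ u, Finset.mul_sum]
    exact Finset.sum_congr rfl fun a _ => US5_nuv_mul _ _ _ _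
  constructor
  · rw [hpair, Finset.mul_sum]
    refine US5_sum _ _ fun a _ => ?_
    obtain ⟨z1, h1⟩ := h2S a
    obtain ⟨z2, h2⟩ := hF a
    exact (US5_nuv_int (σ a) _ _ z1 z2 h1 h2).1
  · by_cases hall : ∀ a, ∃ z : ℤ, nuv (σ a)
      (τ * ∑ r ∈ Finset.range ((σ a).rk + 1),
        evq (m := fun a => (σ a).rk) (fun c => (u c : ℚ)) a r)
      (τ * evq (m := fun a => (σ a).rk) (fun c => (u c : ℚ)) a (σ a).rk) = z
    · left
      rw [hpair]
      exact US5_sum _ _ fun a _ => hall a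
    · right
      obtain ⟨a₀, ha₀⟩ := not_forall.mp hall
      obtain ⟨z1, h1⟩ := h2S a₀
      obtain ⟨z2, h2⟩ := hF a₀
      rcases (US5_nuv_int (σ a₀) _ _ z1 z2 h1 h2).2 with h3 | ⟨n, hn, h3⟩
      · exact absurd h3 ha₀
      · have hev0 : ∀ i : Fin (σ a₀).rk, ((0 - (i : ℕ) : ℕ) : ℚ) = 0 := by
          intro i
          simp
        have hf0 : τ * evq (m := fun a => (σ a).rk) (fun c => (u c : ℚ)) a₀ 0 = 0 := by
          unfold evq
          rw [Finset.sum_eq_zero, mul_zero]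
          intro i _
          rw [hev0 i, zero_mul]
        rcases sum_int_or
          (fun r => τ * evq (m := fun a => (σ a).rk) (fun c => (u c : ℚ)) a₀ r) (G a₀) (σ a₀).rk
          hf0 (hG0 a₀) (hGM a₀) (hGz a₀) (hlin a₀) with ⟨z, hz⟩ | ⟨i, g, hg, hi1, hi2, hi3, hi4, hi5⟩
        · exfalso
          apply ha₀
          refine ⟨z, ?_⟩
          rw [h3, ← hz, Finset.mul_sum]
        · rw [memG] at hi1 hi2
          refine ⟨a₀, ⟨n, hn⟩, i, g, hg, hi1.2, hi2.2, hi3, ?_, hi5⟩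
          intro k hk1 hk2
          by_contra h
          apply hi4 k hk1 hk2
          rw [memG]
          exact ⟨by omega, h⟩

theorem exists_detectedS (σ : Fin s → Shp) (hσ : ∀ a, (σ a).Le)
    (A : Finset ((Σ a, Fin (σ a).rk) → ℕ)) (u : (Σ a, Fin (σ a).rk) → ℕ)
    (hu : Ext (AW (m := fun a => (σ a).rk) A) u)
    (hN : 0 < minF (AW (m := fun a => (σ a).rk) A) u) :
    ∃ u' : (Σ a, Fin (σ a).rk) → ℕ, Ext (AW (m := fun a => (σ a).rk) A) u' ∧
      DetectedS σ A u' ∧ Prim u' ∧ 0 < minF (AW (m := fun a => (σ a).rk) A) u' ∧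
      ∃ z : ℤ, (pair (nufS σ) u : ℤ) * minF (AW (m := fun a => (σ a).rk) A) u' =
        z * minF (AW (m := fun a => (σ a).rk) A) u := by
  classical
  have fin : ∀ (N' : ℕ) (t : ℚ), (N' : ℚ) = t * (minF (AW (m := fun a => (σ a).rk) A) u : ℚ) →
      (∃ z : ℤ, t * (pair (nufS σ) u : ℚ) = z) →
      ∃ z : ℤ, (pair (nufS σ) u : ℤ) * N' = z * minF (AW (m := fun a => (σ a).rk) A) u := by
    rintro N' t h1 ⟨z, hz⟩
    refine ⟨z, ?_⟩
    have h2 : ((pair (nufS σ) u : ℤ) : ℚ) * (N' : ℚ) =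
        (z : ℚ) * (minF (AW (m := fun a => (σ a).rk) A) u : ℚ) := by
      rw [← hz, h1]
      push_cast
      ring
    exact_mod_cast h2
  obtain ⟨u', τ, hE, hP, hNp, hτN, hev, -, hU⟩ :=
    US5_ray (m := fun a => (σ a).rk) A u hu hN ∅ (fun c hc => absurd hc (Set.notMem_empty c))
  obtain ⟨⟨Y', hY'⟩, h1 | h1⟩ := US5_main σ hσ A u u' τ hev
  · refine ⟨u', hE, ?_, hP, hNp, fin _ τ hτN h1⟩
    intro a i h2 h h3
    left
    by_contra hcon
    have hund : Undet (m := fun a => (σ a).rk) A u' a i := by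
      refine ⟨h2, ⟨h, h3⟩, ?_⟩
      intro r hr hir hrm
      by_contra hk
      apply hcon
      refine ⟨r, hr, hir, hrm, ?_⟩
      intro k hk1 hk2
      by_contra hk3
      exact hk ⟨k, hk1, hk2, hk3⟩
    refine hU a i hund ⟨i + 1, h⟩ (Fin.lt_def.2 (Nat.lt_succ_self _)) ?_
    intro k hk1 hk2
    have hk : k = ⟨i + 1, h⟩ := by
      apply Fin.ext
      have e1 : (i : ℕ) < k := hk1
      have e2 : (k : ℕ) ≤ i + 1 := hk2
      show (k : ℕ) = i + 1
      omega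
    rw [hk]
    exact h3
  · obtain ⟨a₀, hsym, i₀, g, hg, hi1, hi2, hi3, hi4, z', hz'o, hz'⟩ := h1
    obtain ⟨Zx, hZx⟩ : ∃ Zx : Set (Σ a, Fin (σ a).rk), Zx = {c | c.1 = a₀ ∧ i₀ < (c.2 : ℕ) ∧
      (c.2 : ℕ) < i₀ + 2 * g ∧ ((c.2 : ℕ) - i₀) % 2 = 1} := ⟨_, rfl⟩
    have memZ : ∀ c : (Σ a, Fin (σ a).rk), c ∈ Zx ↔ (c.1 = a₀ ∧ i₀ < (c.2 : ℕ) ∧
        (c.2 : ℕ) < i₀ + 2 * g ∧ ((c.2 : ℕ) - i₀) % 2 = 1) := by
      intro c
      rw [hZx]
      rfl
    obtain ⟨u'', τ'', hE2, hP2, hNp2, hτN2, hev2, hX2, hU2⟩ :=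
      US5_ray (m := fun a => (σ a).rk) A u hu hN Zx (by
        rintro ⟨a, k⟩ hc
        rw [memZ] at hc
        obtain ⟨ha, hk1, hk2, -⟩ := hc
        simp only at ha hk1 hk2
        subst ha
        exact hi4 k hk1 hk2)
    obtain ⟨⟨Y2, hY2⟩, -⟩ := US5_main σ hσ A u u'' τ'' hev2
    refine ⟨u'', hE2, ?_, hP2, hNp2, fin _ τ'' hτN2 ?_⟩
    · intro a i h2 h h3
      by_cases hcon : ∃ r, Vis (m := fun a => (σ a).rk) A u'' a r ∧ (i : ℕ) < r ∧ r < (σ a).rk ∧
        ∀ k : Fin (σ a).rk, i < k → (k : ℕ) ≤ r → u'' ⟨a, k⟩ = 0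
      · exact Or.inl hcon
      · right
        have hund : Undet (m := fun a => (σ a).rk) A u'' a i := by
          refine ⟨h2, ⟨h, h3⟩, ?_⟩
          intro r hr hir hrm
          by_contra hk
          apply hcon
          refine ⟨r, hr, hir, hrm, ?_⟩
          intro k hk1 hk2
          by_contra hk3
          exact hk ⟨k, hk1, hk2, hk3⟩
        have hz1 := hU2 a i hund ⟨i + 1, h⟩ (Fin.lt_def.2 (Nat.lt_succ_self _)) (by
          intro k hk1 hk2
          have hk : k = ⟨i + 1, h⟩ := by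
            apply Fin.ext
            have e1 : (i : ℕ) < k := hk1
            have e2 : (k : ℕ) ≤ i + 1 := hk2
            show (k : ℕ) = i + 1
            omega
          rw [hk]
          exact h3)
        rw [memZ] at hz1
        obtain ⟨ha, hz1a, hz1b, hz1c⟩ := hz1
        simp only at ha hz1a hz1b hz1c
        refine ⟨by rw [ha]; exact hsym, ?_⟩
        intro h' h4
        have hz2 := hU2 a i hund ⟨i + 2, h'⟩ (Fin.lt_def.2 (by
          show (i : ℕ) < i + 2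
          omega)) (by
          intro k hk1 hk2
          have e1 : (i : ℕ) < k := hk1
          have e2 : (k : ℕ) ≤ i + 2 := hk2
          have e3 : (k : ℕ) = i + 1 ∨ (k : ℕ) = i + 2 := by omega
          rcases e3 with e3 | e3
          · have hk : k = ⟨i + 1, h⟩ := Fin.ext e3
            rw [hk]
            exact h3
          · have hk : k = ⟨i + 2, h'⟩ := Fin.ext e3
            rw [hk]
            exact h4)
        rw [memZ] at hz2
        obtain ⟨-, hz2a, hz2b, hz2c⟩ := hz2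
        simp only at hz2a hz2b hz2c
        omega
    · obtain ⟨z2, hz2⟩ := even_diff (m := fun a => (σ a).rk) u'' a₀ i₀ g hi3 (by
        intro k hk1 hk2 hk3
        apply hX2
        rw [memZ]
        exact ⟨rfl, hk1, hk2, hk3⟩)
      rw [hev2 a₀ (i₀ + 2 * g) hi3 hi2, hev2 a₀ i₀ (by omega) hi1] at hz2
      -- `Y2 * z' = Y' * (2 * z2)`
      have key : (Y2 : ℚ) * (z' : ℚ) = (Y' : ℚ) * (2 * (z2 : ℚ)) := by
        rw [← hY2, ← hz', ← hY', ← hz2]
        ring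
      have key2 : Y2 * z' = 2 * (Y' * z2) := by
        have : ((Y2 * z' : ℤ) : ℚ) = ((2 * (Y' * z2) : ℤ) : ℚ) := by
          push_cast
          rw [key]
          ring
        exact_mod_cast this
      have heven : Even (Y2 * z') := ⟨Y' * z2, by rw [key2]; ring⟩
      have hY2e : Even Y2 := by
        rcases Int.even_mul.1 heven with h5 | h5
        · exact h5
        · exact absurd h5 (Int.not_even_iff_odd.2 hz'o)
      obtain ⟨w, hw⟩ := hY2e
      refine ⟨w, ?_⟩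
      have h6 : 2 * (τ'' * (pair (nufS σ) u : ℚ)) = 2 * (w : ℚ) := by
        rw [hY2, hw]
        push_cast
        ring
      linarith

end MotMono
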