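import Pool.Agent.Lib.MP_4e5fcd_ag.Cl.C7S
import Pool.Agent.Lib.MP_4e5fcd_ag.Det.G4
import Pool.Agent.Lib.MP_4e5fcd_ag.Det.ZF

/-! # CL-ZFS: every pole comes from a ray (port of `Det/ZF.lean`) -/

open MvPolynomial

namespace MotMono

variable {s N : ℕ} {σ : Fin s → Shp}

private theorem zfs_le {σ : Shp} (h : σ.Ok) : σ.Le := by
  cases σ with
  | gen m n => exact h.2
  | eps κ n => trivial

theorem exists_ray_of_poleS (e : (Σ a, (σ a).Idx) ≃ Fin N) (hσ : ∀ a, (σ a).Ok)
    (I : Ideal (MvPolynomial (Fin N) ℂ)) (A : Finset ((Σ a, Fin (σ a).rk) → ℕ)) (hA : A.Nonempty)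
    (hO : OrdBy σ e I A) (s₀ : ℚ) (hs : IsPole (Zmot I) s₀) :
    ∃ u, Ext (AW (m := fun a => (σ a).rk) A) u ∧ 0 < minF (AW (m := fun a => (σ a).rk) A) u ∧
      s₀ = -(pair (nufS σ) u : ℚ) / (minF (AW (m := fun a => (σ a).rk) A) u : ℚ) := by
  classical
  have hle : ∀ a, (σ a).Le := fun a => zfs_le (hσ a)
  by_contra hcon
  push Not at hcon
  apply hs
  have hA' : (AW (m := fun a => (σ a).rk) A).Nonempty := by
    unfold AW
    exact hA.image _
  have hν : ∀ c : (Σ a, Fin (σ a).rk), 0 < nufS σ c := by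
    intro c
    exact Shp.dim_res_pos (σ c.1) (hle c.1) c.2 c.2.2
  obtain ⟨U, hU, K, hK⟩ := ZS_rational (muAS σ : ((Σ a, Fin (σ a).rk) → ℕ) → BqS)
    (locFin_muAS σ hle) (nufS σ) hν (fun b u h => muAS_add σ b u h)
    {c : (Σ a, Fin (σ a).rk) | (c.2 : ℕ) = 0} (AW (m := fun a => (σ a).rk) A) hA'
  choose P hP1 hP2 using fun k => exists_PS e hσ I A hA hO k
  set Z' : PowerSeries BqS := PowerSeries.mk P with hZ'
  set D' : PowerSeries BqS := ∏ u ∈ U, (1 - PowerSeries.C ((Polynomial.X : BqS) ^ pair (nufS σ) u) *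
    PowerSeries.X ^ minF (AW (m := fun a => (σ a).rk) A) u) with hD'
  have hmapZ : PowerSeries.map (Polynomial.coeToPowerSeries.ringHom (R := BuS)) Z' =
      ZS (muAS σ) {c : (Σ a, Fin (σ a).rk) | (c.2 : ℕ) = 0} (AW (m := fun a => (σ a).rk) A) := by
    ext1 k
    rw [PowerSeries.coeff_map, hZ', PowerSeries.coeff_mk, ← hP2 k]
    rfl
  have hmapD : PowerSeries.map (Polynomial.coeToPowerSeries.ringHom (R := BuS)) D' =
      ∏ u ∈ U, rayFactor BuS (pair (nufS σ) u) (minF (AW (m := fun a => (σ a).rk) A) u) := by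
    rw [hD', map_prod]
    apply Finset.prod_congr rfl
    intro u _
    unfold rayFactor
    rw [map_sub, map_one, map_mul, PowerSeries.map_C, map_pow (PowerSeries.map _),
      PowerSeries.map_X, map_pow, Polynomial.coeToPowerSeries.ringHom_apply, Polynomial.coe_X]
  have hDZ : ∀ k, K ≤ k → PowerSeries.coeff k (D' * Z') = 0 := by
    intro k hk
    have h1 := hK k hk
    rw [← hmapZ, ← hmapD, ← map_mul, PowerSeries.coeff_map] at h1
    apply Polynomial.coe_injective BuS
    rw [Polynomial.coe_zero]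
    exact h1
  have hthZ : PowerSeries.map thetaS Z' = Zmot I := by
    ext1 k
    rw [PowerSeries.coeff_map, hZ', PowerSeries.coeff_mk, ← hP1 k]
  have hthD : PowerSeries.map thetaS D' = ∏ u ∈ U,
      (1 - PowerSeries.C ((Lu ^ (-(pair (nufS σ) u : ℤ)) : MCˣ) : MC) *
        PowerSeries.X ^ minF (AW (m := fun a => (σ a).rk) A) u) := by
    rw [hD', map_prod]
    apply Finset.prod_congr rfl
    intro u _
    rw [map_sub, map_one, map_mul, PowerSeries.map_C, map_pow (PowerSeries.map _),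
      PowerSeries.map_X, thetaS_X_pow]
  obtain ⟨Q, hQ⟩ := zf_isPolyT (F := PowerSeries.map thetaS (D' * Z')) K (by
    intro k hk
    rw [PowerSeries.coeff_map, hDZ k hk, map_zero])
  rw [map_mul, hthZ, hthD] at hQ
  have hinv : ∀ u ∈ U, ∃ g ∈ polarRing s₀,
      g * (1 - PowerSeries.C ((Lu ^ (-(pair (nufS σ) u : ℤ)) : MCˣ) : MC) *
        PowerSeries.X ^ minF (AW (m := fun a => (σ a).rk) A) u) = 1 := by
    intro u hu
    have hpos := (hU u hu).2
    have h1 : IsUnit (1 - PowerSeries.C ((Lu ^ (-(pair (nufS σ) u : ℤ)) : MCˣ) : MC) *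
        PowerSeries.X ^ minF (AW (m := fun a => (σ a).rk) A) u) := by
      rw [PowerSeries.isUnit_iff_constantCoeff]
      have h2 : PowerSeries.constantCoeff
          (1 - PowerSeries.C ((Lu ^ (-(pair (nufS σ) u : ℤ)) : MCˣ) : MC) *
            PowerSeries.X ^ minF (AW (m := fun a => (σ a).rk) A) u) = 1 := by
        rw [map_sub, map_one, map_mul, map_pow, PowerSeries.constantCoeff_X, zero_pow hpos.ne',
          mul_zero, sub_zero]
      rw [h2]
      exact isUnit_one
    obtain ⟨g, hg⟩ := h1.exists_left_inv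
    refine ⟨g, Subring.subset_closure (Or.inr ⟨(pair (nufS σ) u : ℤ), minF (AW (m := fun a => (σ a).rk) A) u, hpos, ?_,
      hg⟩), hg⟩
    intro h3
    exact hcon u (hU u hu).1 hpos (by rw [← h3]; push_cast; rfl)
  choose! g hg1 hg2 using hinv
  have hfin : Zmot I = (∏ u ∈ U, g u) * (Q : PowerSeries MC) := by
    rw [← hQ, ← mul_assoc, ← Finset.prod_mul_distrib, Finset.prod_congr rfl hg2,
      Finset.prod_const_one, one_mul]
  rw [hfin]
  exact (polarRing s₀).mul_mem (Subring.prod_mem _ hg1) (Subring.subset_closure (Or.inl ⟨Q, rfl⟩))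

end MotMono
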