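import Pool.Agent.Lib.MP_4e5fcd_ag.Cl.E4
import Pool.Agent.Lib.MP_4e5fcd_ag.Cl.E7
import Pool.Agent.Lib.MP_4e5fcd_ag.Cl.US5
import Pool.Agent.Lib.MP_4e5fcd_ag.Cl.ZFS
import Pool.Agent.Lib.MP_4e5fcd_ag.Cl.N9
import Pool.Agent.Lib.MP_4e5fcd_ag.Cl.C1
import Pool.Agent.Lib.MP_4e5fcd_ag.Z1
import Pool.Agent.Lib.MP_4e5fcd_ag.Det.M7
import Pool.Agent.Lib.MP_4e5fcd_ag.Inv.Main

/-! # CL-Main: assembly

PROOF. As `inv_main` in `Inv/Main.lean`: `I ≠ ⊥` (`im_Zmot_bot`), `exists_gensS`, `ordBy`, `exists_ray_of_poleS`,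
`exists_detectedS`, `n₀ = minF u`, `Dat`, `exists_conePoint_curve` for `crvS e u δ`, `δ = ε / 2`; `chi_contact_eq`
`chi_XX`, `gam_card`, and for `¬ n₀ ∣ d` the set `XX` is empty (`xx_dvd`, `cls_empty`);
`exists_zeta`. -/

open MvPolynomial

namespace MotMono

variable {s N : ℕ}

theorem cl_main (σ : Fin s → Shp) (hσ : ∀ a, (σ a).Ok) (e : (Σ a, (σ a).Idx) ≃ Fin N)
    (I : Ideal (MvPolynomial (Fin N) ℂ)) (hI : ShStable σ e I) (s₀ : ℚ)
    (hpole : IsPole (Zmot I) s₀) (ε : ℝ) (hε : 0 < ε) :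
    ∃ p : Fin N → ℂ, ‖p‖ < ε ∧ (∀ f ∈ I, eval p f = 0) ∧
      ∃ y : ConePoint I p, y.Nonzero ∧
        ∀ χ : K0 →+* ℤ, IsEulerChar χ →
          ∃ Z, IsZeta (fun d => χ (cls (contactArcs I p y d))) Z ∧
            ZeroOrPole Z (Complex.exp (2 * Real.pi * Complex.I * s₀)) := by
  classical
  have hle : ∀ a, (σ a).Le := fun a => c7s_le _ (hσ a)
  by_cases hbot : I = ⊥
  · exfalso
    rw [hbot, im_Zmot_bot] at hpole
    exact hpole (Subring.zero_mem _)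
  obtain ⟨A, hA⟩ := exists_gensS e hle I hI hbot
  have hO := ordBy e hle I hI A hA
  obtain ⟨u₀, hu₀, hN₀, hs₀⟩ := exists_ray_of_poleS e hσ I A hA.1 hO s₀ hpole
  obtain ⟨u, hu, hdet, hp, hN, z, hz⟩ := exists_detectedS σ hle A u₀ hu₀ hN₀
  obtain ⟨n₀, hn₀⟩ : ∃ n₀, minF (AW (m := fun a => (σ a).rk) A) u = n₀ := ⟨_, rfl⟩
  rw [hn₀] at hN hz
  have h : Dat e I A u n₀ := { le := hle, stable := hI, gens := hA, pos := hN, min := hn₀, ext := hu, det := hdet, prim := hp }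
  obtain ⟨δ, hδdef⟩ : ∃ δ : ℂ, δ = ((ε / 2 : ℝ) : ℂ) := ⟨_, rfl⟩
  have hδ : δ ≠ 0 := by
    rw [hδdef]; exact_mod_cast (by positivity : (ε / 2 : ℝ) ≠ 0)
  obtain ⟨y, hy⟩ := exists_conePoint_curve I (crvS e u δ) n₀ (crv_lt h δ)
  refine ⟨fun i => (crvS e u δ i).eval 0, ?_, ?_, y, ?_, ?_⟩
  · rw [hδdef]
    exact crv_small e u ε hε
  · intro f hf
    have h0 := crv_lt h δ f hf 0 h.pos
    rwa [eval_curve_zero] at h0
  · obtain ⟨f, hf, hne⟩ := crv_ne h δ hδ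
    refine ⟨f, hf, ?_⟩
    rw [hy f hf]
    exact hne
  · intro χ hχ
    obtain ⟨c, hc0, hc⟩ := gam_card h
    refine exists_zeta n₀ h.pos (c : ℤ) (by exact_mod_cast hc0.ne') _ ?_ _ ?_
    · rw [hs₀, ← Complex.exp_nat_mul, Complex.exp_eq_one_iff]
      refine ⟨-z, ?_⟩
      have h1 : ((pair (nufS σ) u₀ : ℤ) : ℂ) * ((n₀ : ℤ) : ℂ) =
          (z : ℂ) * ((minF (AW (m := fun a => (σ a).rk) A) u₀ : ℤ) : ℂ) := by exact_mod_cast hz
      have h2 : ((minF (AW (m := fun a => (σ a).rk) A) u₀ : ℕ) : ℂ) ≠ 0 := by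
        exact_mod_cast hN₀.ne'
      have h3 : (n₀ : ℂ) * (((pair (nufS σ) u₀ : ℕ) : ℂ) /
          ((minF (AW (m := fun a => (σ a).rk) A) u₀ : ℕ) : ℂ)) = z := by
        rw [← mul_div_assoc, div_eq_iff h2]
        push_cast at h1
        rw [← h1]; ring
      push_cast
      rw [← h3]
      ring
    · intro d hd
      rw [chi_contact_eq χ hχ h δ y hy d hd]
      by_cases hdvd : n₀ ∣ d
      · rw [if_pos hdvd, chi_XX χ hχ h δ hδ d hdvd, hc]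
        push_cast
        rfl
      · rw [if_neg hdvd]
        have h4 : XX e I u δ n₀ d = ∅ := by
          rw [Set.eq_empty_iff_forall_notMem]
          intro x hx
          exact hdvd (xx_dvd h δ hδ d x hx)
        rw [h4, cls_empty, map_zero]

end MotMono
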