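import Pool.Agent.Lib.MP_4e5fcd_ag.Cl.P1

/-! # CL-N0: facts on `Yt` and leading minors

PROOF. By cases on the shape. `Yt_FP`: at the diagonal `Yt (FP z)` has `z i` in the rows `CR` (`lpp`: the entry
`(i, i + 1)` of `mat (FP z)` is `z i`; no partner: the entry `(i, i)`), off the diagonal the entries between
indices without partners vanish. -/

open MvPolynomial

namespace MotMono

theorem ldm_zero {R : Type} [CommRing R] {n : ℕ} (Y : Matrix (Fin n) (Fin n) R) :
    ldm Y 0 = 1 := by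
  unfold ldm
  rw [dif_pos (Nat.zero_le n)]
  exact Matrix.det_fin_zero

theorem ldm_map {R S : Type} [CommRing R] [CommRing S] (φ : R →+* S) {n : ℕ}
    (Y : Matrix (Fin n) (Fin n) R) (r : ℕ) : ldm (Y.map φ) r = φ (ldm Y r) := by
  unfold ldm
  by_cases h : r ≤ n
  · rw [dif_pos h, dif_pos h, RingHom.map_det]
    rfl
  · rw [dif_neg h, dif_neg h, map_zero]

/-- the leading minors only depend on the leading submatrix -/
theorem ldm_congr {R : Type} [CommRing R] {n : ℕ} (Y Y' : Matrix (Fin n) (Fin n) R) (r : ℕ)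
    (h : ∀ i k : Fin n, (i : ℕ) < r → (k : ℕ) < r → Y i k = Y' i k) : ldm Y r = ldm Y' r := by
  unfold ldm
  by_cases hr : r ≤ n
  · rw [dif_pos hr, dif_pos hr]
    congr 1
    ext i k
    exact h _ _ i.2 k.2
  · rw [dif_neg hr, dif_neg hr]

theorem ldm_diagonal {R : Type} [CommRing R] {n : ℕ} (D : ℕ → R) (r : ℕ) (hr : r ≤ n) :
    ldm (Matrix.diagonal fun i : Fin n => D i) r = ∏ i ∈ Finset.range r, D i := by
  unfold ldm
  rw [dif_pos hr, Matrix.submatrix_diagonal _ _ (Fin.castLE_injective hr), Matrix.det_diagonal,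
    Finset.prod_range]
  rfl

/-- if the row `r` has no further entries before the diagonal, then the leading minor is a product -/
theorem ldm_succ {R : Type} [CommRing R] {n : ℕ} (Y : Matrix (Fin n) (Fin n) R) (r : Fin n)
    (h : ∀ k : Fin n, k < r → Y r k = 0) : ldm Y ((r : ℕ) + 1) = Y r r * ldm Y r := by
  have h1 : (r : ℕ) + 1 ≤ n := r.2
  have h0 : (r : ℕ) ≤ n := r.2.le
  unfold ldm
  rw [dif_pos h1, dif_pos h0, Matrix.det_succ_row _ (Fin.last (r : ℕ)),
    Finset.sum_eq_single (Fin.last (r : ℕ))]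
  · have hr : Fin.castLE h1 (Fin.last (r : ℕ)) = r := Fin.ext rfl
    rw [Matrix.submatrix_submatrix, Matrix.submatrix_apply, hr, Fin.succAbove_last]
    have hs : (-1 : R) ^ ((Fin.last (r : ℕ) : ℕ) + (Fin.last (r : ℕ) : ℕ)) = 1 :=
      Even.neg_one_pow ⟨_, rfl⟩
    rw [hs, one_mul]
    rfl
  · intro j _ hj
    have hj' : (j : ℕ) < r := by
      have h2 := j.2
      have h3 : (j : ℕ) ≠ r := fun h4 => hj (Fin.ext h4)
      omega
    have hr : Fin.castLE h1 (Fin.last (r : ℕ)) = r := Fin.ext rfl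
    have h4 : Y r (Fin.castLE h1 j) = 0 := h _ (by
      show (j : ℕ) < r
      exact hj')
    rw [Matrix.submatrix_apply, hr, h4, mul_zero, zero_mul]
  · intro h2
    exact absurd (Finset.mem_univ _) h2

namespace Shp

variable (σ : Shp) (b : ℕ → ℕ)

private theorem N0_mat_map {R S : Type} [CommRing R] [CommRing S] (φ : R →+* S) (κ : Bool) (n : ℕ)
    (x : (eps κ n).Idx → R) (i k : Fin n) :
    (eps κ n).mat (fun p => φ (x p)) i k = φ ((eps κ n).mat x i k) := by
  unfold mat
  dsimp only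
  split_ifs <;> simp

private theorem N0_mat_lt {R : Type} [CommRing R] (κ : Bool) (n : ℕ) (x : (eps κ n).Idx → R)
    (i k : Fin n) (h : i < k) : (eps κ n).mat x i k = x ⟨(i, k), Or.inl h⟩ := by
  unfold mat
  dsimp only
  rw [dif_pos h]

private theorem N0_mat_gt {R : Type} [CommRing R] (κ : Bool) (n : ℕ) (x : (eps κ n).Idx → R)
    (i k : Fin n) (h : k < i) :
    (eps κ n).mat x i k = (if κ = true then 1 else -1) * x ⟨(k, i), Or.inl h⟩ := by
  unfold mat
  dsimp only
  rw [dif_neg (not_lt.2 h.le), dif_pos h]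

private theorem N0_unq_false (b : ℕ → ℕ) (n j : ℕ) (h : unq false b n j) : j + 1 = n := by
  obtain ⟨h1, h2, h3⟩ := h
  have e1 : ∀ j, lpp false b n j ↔ j + 1 < n ∧ j % 2 = 0 := by
    intro j
    unfold lpp
    simp
  rw [e1] at h2
  rw [e1] at h3
  by_contra hne
  rcases Nat.mod_two_eq_zero_or_one j with h4 | h4
  · exact h2 ⟨by omega, h4⟩
  · exact h3 ⟨by omega, by omega, by omega⟩

theorem Yt_map {R S : Type} [CommRing R] [CommRing S] (φ : R →+* S) (x : σ.Idx → R) :
    σ.Yt b (fun p => φ (x p)) = (σ.Yt b x).map φ := by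
  cases σ with
  | gen m n =>
    ext i k
    rw [Matrix.map_apply]
    unfold Yt
    dsimp only
    split_ifs <;> simp
  | eps κ n =>
    ext i k
    rw [Matrix.map_apply]
    unfold Yt
    dsimp only
    split_ifs
    · exact N0_mat_map φ κ n x _ _
    · exact N0_mat_map φ κ n x _ _
    · simp
    · exact N0_mat_map φ κ n x _ _
    · simp

theorem Yt_transpose {R : Type} [CommRing R] (x : σ.Idx → R) :
    (σ.Yt b x).transpose = σ.Yt b x := by
  cases σ with
  | gen m n =>
    ext i k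
    rw [Matrix.transpose_apply]
    by_cases hik : i = k
    · rw [hik]
    · unfold Yt
      dsimp only
      rw [if_neg hik, if_neg (fun h => hik h.symm)]
  | eps κ n =>
    ext i k
    rw [Matrix.transpose_apply]
    by_cases hik : i = k
    · rw [hik]
    · unfold Yt
      dsimp only
      rw [if_neg hik, if_neg (fun h => hik h.symm)]
      by_cases h : unq κ b n i ∧ unq κ b n k
      · rw [if_pos h, if_pos ⟨h.2, h.1⟩]
        have hκ : κ = true := by
          by_contra hκ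
          rw [Bool.not_eq_true] at hκ
          subst hκ
          have h1 := N0_unq_false b n i h.1
          have h2 := N0_unq_false b n k h.2
          exact hik (Fin.ext (by omega))
        rcases lt_or_gt_of_ne hik with h1 | h1
        · rw [N0_mat_lt κ n x i k h1, N0_mat_gt κ n x k i h1, if_pos hκ, one_mul]
        · rw [N0_mat_lt κ n x k i h1, N0_mat_gt κ n x i k h1, if_pos hκ, one_mul]
      · rw [if_neg h, if_neg (fun h' => h ⟨h'.2, h'.1⟩)]

theorem Yt_off {R : Type} [CommRing R] (x : σ.Idx → R) (i k : Fin σ.row) (hik : i ≠ k)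
    (h : σ.Yt b x i k ≠ 0) : σ.unp b i ∧ σ.unp b k ∧
      ∃ p : σ.Idx, ¬ σ.isC b p ∧ x p ≠ 0 ∧ (((σ.pr p : ℕ) = i ∧ (σ.pc p : ℕ) = k) ∨
        ((σ.pr p : ℕ) = k ∧ (σ.pc p : ℕ) = i)) := by
  cases σ with
  | gen m n =>
    unfold Yt at h
    dsimp only at h
    rw [if_neg hik] at h
    exact absurd rfl h
  | eps κ n =>
    unfold Yt at h
    dsimp only at h
    rw [if_neg hik] at h
    by_cases hu : unq κ b n i ∧ unq κ b n k
    · rw [if_pos hu] at h
      have hkey : ∀ (i k : Fin n) (hlt : i < k), unq κ b n i →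
          ¬ (eps κ n).isC b ⟨(i, k), Or.inl hlt⟩ := by
        intro i k hlt hi hc
        have hlt' : (i : ℕ) < k := hlt
        rcases hc with ⟨h1, _⟩ | ⟨_, h2⟩
        · exact hi.2.1 h1
        · have h3 : (k : ℕ) = i := h2
          omega
      refine ⟨hu.1, hu.2, ?_⟩
      rcases lt_or_gt_of_ne hik with h1 | h1
      · rw [N0_mat_lt κ n x i k h1] at h
        exact ⟨⟨(i, k), Or.inl h1⟩, hkey i k h1 hu.1, h, Or.inl ⟨rfl, rfl⟩⟩
      · rw [N0_mat_gt κ n x i k h1] at h
        exact ⟨⟨(k, i), Or.inl h1⟩, hkey k i h1 hu.2, right_ne_zero_of_mul h, Or.inr ⟨rfl, rfl⟩⟩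
    · rw [if_neg hu] at h
      exact absurd rfl h

theorem Yt_diag {R : Type} [CommRing R] (x : σ.Idx → R) (p : σ.Idx) (hp : σ.isC b p)
    (i : Fin σ.row) (hi : (i : ℕ) = σ.pr p) : σ.Yt b x i i = x p := by
  cases σ with
  | gen m n =>
    obtain ⟨p1, p2⟩ := p
    have hp' : (p1 : ℕ) = p2 := hp
    have hi' : i = p1 := Fin.ext hi
    subst hi'
    have hlt : (i : ℕ) < n := by
      rw [hp']
      exact p2.2
    unfold Yt
    dsimp only
    rw [if_pos rfl, dif_pos hlt]
    congr 2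
    exact Fin.ext hp'
  | eps κ n =>
    obtain ⟨⟨p1, p2⟩, hpp⟩ := p
    have hi' : i = p1 := Fin.ext hi
    subst hi'
    have hp' : (lpp κ b n i ∧ (p2 : ℕ) = i + 1) ∨ (unq κ b n i ∧ (p2 : ℕ) = i) := hp
    unfold Yt
    dsimp only
    rw [if_pos rfl]
    rcases hp' with ⟨h1, h2⟩ | ⟨h1, h2⟩
    · have e : (⟨(i : ℕ) + 1, h1.1⟩ : Fin n) = p2 := Fin.ext h2.symm
      rw [dif_pos h1, e]
      exact N0_mat_lt κ n x i p2 (by
        show (i : ℕ) < p2
        omega)
    · have e : p2 = i := Fin.ext h2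
      subst e
      have hκ : κ = true := by
        rcases hpp with h3 | h3
        · exact absurd h3 (lt_irrefl _)
        · exact h3.1
      rw [dif_neg h1.2.1, if_pos ⟨hκ, h1⟩]
      unfold mat
      dsimp only
      rw [dif_neg (lt_irrefl _), dif_neg (lt_irrefl _), dif_pos hκ]

theorem Yt_diag_one {R : Type} [CommRing R] (hσ : σ.Le) (x : σ.Idx → R) (i : Fin σ.row)
    (hi : ¬ σ.CR b i) : σ.Yt b x i i = 1 := by
  cases σ with
  | gen m n => exact absurd i.2 hi
  | eps κ n =>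
    have h' : ¬ (lpp κ b n i ∨ (κ = true ∧ unq κ b n i)) := hi
    rw [not_or] at h'
    unfold Yt
    dsimp only
    rw [if_pos rfl, dif_neg h'.1, if_neg h'.2]

open Classical in
theorem Yt_FP {R : Type} [CommRing R] (hσ : σ.Le) (z : ℕ → R) :
    σ.Yt b (σ.FP b z) = Matrix.diagonal fun i : Fin σ.row => if σ.CR b i then z i else 1 := by
  ext i k
  by_cases hik : i = k
  · subst hik
    rw [Matrix.diagonal_apply_eq]
    by_cases hc : σ.CR b i
    · rw [if_pos hc]
      obtain ⟨p, hp, hpi⟩ := (σ.CR_or b hσ i i.2).2 hc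
      rw [σ.Yt_diag b _ p hp i hpi.symm]
      unfold FP
      rw [if_pos hp, hpi]
    · rw [if_neg hc]
      exact σ.Yt_diag_one b hσ _ i hc
  · rw [Matrix.diagonal_apply_ne _ hik]
    by_contra hne
    obtain ⟨_, _, p, hp, hx, _⟩ := σ.Yt_off b _ i k hik hne
    apply hx
    unfold FP
    rw [if_neg hp]

end Shp

variable {s N : ℕ} {σ : Fin s → Shp}

theorem ldS_map {R S : Type} [CommRing R] [CommRing S] (φ : R →+* S)
    (e : (Σ a, (σ a).Idx) ≃ Fin N) (u : (Σ a, Fin (σ a).rk) → ℕ) (x : Fin N → R) (a : Fin s)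
    (r : ℕ) : ldS e u (fun i => φ (x i)) a r = φ (ldS e u x a r) := by
  unfold ldS
  rw [(σ a).Yt_map (bS u a) φ fun p => x (e ⟨a, p⟩), ldm_map]

theorem ldS_ref_ne (e : (Σ a, (σ a).Idx) ≃ Fin N) (hσ : ∀ a, (σ a).Le)
    (u : (Σ a, Fin (σ a).rk) → ℕ) (δ : ℂ) (hδ : δ ≠ 0) (a : Fin s) (r : ℕ)
    (hr : r ≤ (σ a).row) : ldS e u (FPS e u fun _ _ => δ) a r ≠ 0 := by
  classical
  have h1 : (fun p => FPS e u (fun _ _ => δ) (e ⟨a, p⟩)) = (σ a).FP (bS u a) (fun _ => δ) := by
    funext p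
    unfold FPS ptS
    rw [Equiv.symm_apply_apply]
  unfold ldS
  rw [h1, (σ a).Yt_FP (bS u a) (hσ a),
    ldm_diagonal (fun i : ℕ => if (σ a).CR (bS u a) i then δ else 1) r hr]
  refine Finset.prod_ne_zero_iff.2 fun i _ => ?_
  split_ifs
  · exact hδ
  · exact one_ne_zero

end MotMono
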