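import Pool.Agent.Lib.MP_4e5fcd_ag.Cl.CDefs

/-! # CL-N1: symmetric matrices with nonvanishing leading minors

PROOF. Induction on `n` for all `Y`: let `d = Y 0 0 = ldm Y 1 ≠ 0`, `Y' i k = Y i.succ k.succ - Y i.succ 0 * Y 0 k.succ / d`.
Then `d * ldm Y' r = ldm Y (r + 1)` (Schur complement: `Matrix.det_fromBlocks₁₁` or subtract multiples of the first
row), `Y'` is symmetric, `Y' i k ≠ 0`, `i ≠ k` imply `P i.succ ∧ P k.succ`. With `U'`, `D'` for `Y'`:
`U = [[1, 0], [Y i.succ 0 / d, U']]`, `D 0 = d`, `D (r + 1) = D' r`. -/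

open MvPolynomial

namespace MotMono

/-- Gaussian elimination with the pivot `(0, 0)` -/
private theorem N1_det (r : ℕ) (M : Matrix (Fin (r + 1)) (Fin (r + 1)) ℂ) (hd : M 0 0 ≠ 0) :
    M.det = M 0 0 *
      (Matrix.of fun i k : Fin r => M i.succ k.succ - M i.succ 0 * M 0 k.succ / M 0 0).det := by
  classical
  set c : Fin (r + 1) → ℂ := fun i => if i = 0 then 0 else M i 0 / M 0 0 with hc
  set B : Matrix (Fin (r + 1)) (Fin (r + 1)) ℂ := Matrix.of fun i j => M i j - c i * M 0 j with hB
  have hB0 : ∀ j, B 0 j = M 0 j := by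
    intro j
    simp [hB, hc]
  have h1 : M.det = B.det := by
    refine Matrix.det_eq_of_forall_row_eq_smul_add_const c 0 (by simp [hc]) ?_
    intro i j
    rw [hB0]
    simp [hB]
  rw [h1, Matrix.det_succ_column_zero]
  rw [Finset.sum_eq_single (0 : Fin (r + 1))]
  · rw [hB0]
    have e : B.submatrix (Fin.succAbove 0) Fin.succ
        = Matrix.of fun i k : Fin r => M i.succ k.succ - M i.succ 0 * M 0 k.succ / M 0 0 := by
      ext i k
      simp only [hB, hc, Matrix.submatrix_apply, Matrix.of_apply, Fin.zero_succAbove,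
        if_neg (Fin.succ_ne_zero i)]
      ring
    rw [e]
    simp
  · intro i _ hi
    have : B i 0 = 0 := by
      simp only [hB, hc, Matrix.of_apply, if_neg hi]
      field_simp
      ring
    rw [this]
    ring
  · intro h
    exact absurd (Finset.mem_univ _) h

private theorem N1_ldm_zero {n : ℕ} (Y : Matrix (Fin n) (Fin n) ℂ) : ldm Y 0 = 1 := by
  unfold ldm
  rw [dif_pos (Nat.zero_le n), Matrix.det_isEmpty]

private theorem N1_ldm_succ {n : ℕ} (Y : Matrix (Fin (n + 1)) (Fin (n + 1)) ℂ)
    (hd : Y 0 0 ≠ 0) (r : ℕ) (hr : r ≤ n) :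
    ldm Y (r + 1) = Y 0 0 *
      ldm (Matrix.of fun i k : Fin n => Y i.succ k.succ - Y i.succ 0 * Y 0 k.succ / Y 0 0) r := by
  unfold ldm
  rw [dif_pos hr, dif_pos (Nat.succ_le_succ hr)]
  have hd' : (Y.submatrix (Fin.castLE (Nat.succ_le_succ hr)) (Fin.castLE (Nat.succ_le_succ hr))) 0 0
      ≠ 0 := hd
  rw [N1_det r _ hd']
  congr 1

theorem exists_ldl (n : ℕ) (P : Fin n → Prop) (Y : Matrix (Fin n) (Fin n) ℂ)
    (hY : Y.transpose = Y) (hP : ∀ i k, i ≠ k → Y i k ≠ 0 → P i ∧ P k)
    (hΔ : ∀ r ≤ n, ldm Y r ≠ 0) :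
    ∃ (U : Matrix (Fin n) (Fin n) ℂ) (D : ℕ → ℂ), (∀ i, U i i = 1) ∧
      (∀ i k, i ≠ k → U i k ≠ 0 → k < i ∧ P i ∧ P k) ∧
      Y = U * (Matrix.diagonal fun i : Fin n => D i) * U.transpose ∧
      ∀ r < n, D r * ldm Y r = ldm Y (r + 1) := by
  induction n with
  | zero =>
    refine ⟨1, fun _ => 0, fun i => i.elim0, fun i => i.elim0, ?_, fun r hr => absurd hr (by omega)⟩
    ext i
    exact i.elim0
  | succ n ih =>
    have hs : ∀ i k, Y i k = Y k i := fun i k => by
      conv_lhs => rw [← hY]
      rfl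
    have hd : Y 0 0 ≠ 0 := by
      have h := hΔ 1 (by omega)
      unfold ldm at h
      rw [dif_pos (by omega : 1 ≤ n + 1), Matrix.det_fin_one] at h
      exact h
    set Y' : Matrix (Fin n) (Fin n) ℂ :=
      Matrix.of fun i k : Fin n => Y i.succ k.succ - Y i.succ 0 * Y 0 k.succ / Y 0 0 with hY'
    have hYe : ∀ i k, Y' i k = Y i.succ k.succ - Y i.succ 0 * Y 0 k.succ / Y 0 0 := fun i k => rfl
    have hsucc : ∀ r ≤ n, ldm Y (r + 1) = Y 0 0 * ldm Y' r := fun r hr => N1_ldm_succ Y hd r hr
    obtain ⟨U', D', h1, h2, h3, h4⟩ := ih (fun i => P i.succ) Y' (by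
        ext i k
        rw [Matrix.transpose_apply, hYe, hYe, hs k.succ i.succ, hs k.succ 0, hs 0 i.succ]
        ring) (by
        intro i k hik hne
        have hik' : i.succ ≠ k.succ := fun h => hik (Fin.succ_injective _ h)
        by_cases h0 : Y i.succ k.succ = 0
        · rw [hYe, h0] at hne
          have h5 : Y i.succ 0 ≠ 0 := by
            intro h
            apply hne
            rw [h]
            ring
          have h6 : Y 0 k.succ ≠ 0 := by
            intro h
            apply hne
            rw [h]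
            ring
          exact ⟨(hP _ _ (Fin.succ_ne_zero i) h5).1, (hP _ _ (Fin.succ_ne_zero k).symm h6).2⟩
        · exact hP _ _ hik' h0) (by
        intro r hr h
        apply hΔ (r + 1) (by omega)
        rw [hsucc r hr, h, mul_zero])
    let U : Matrix (Fin (n + 1)) (Fin (n + 1)) ℂ := fun i k =>
      Fin.cases (Fin.cases 1 (fun _ => 0) k)
        (fun i' => Fin.cases (Y i'.succ 0 / Y 0 0) (fun k' => U' i' k') k) i
    let D : ℕ → ℂ := fun r => Nat.casesOn r (Y 0 0) D'
    have u00 : U 0 0 = 1 := rfl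
    have u0s : ∀ k, U 0 (Fin.succ k) = 0 := fun k => rfl
    have us0 : ∀ i, U (Fin.succ i) 0 = Y i.succ 0 / Y 0 0 := fun i => rfl
    have uss : ∀ i k, U (Fin.succ i) (Fin.succ k) = U' i k := fun i k => rfl
    have d0 : D 0 = Y 0 0 := rfl
    have ds : ∀ r, D (r + 1) = D' r := fun r => rfl
    refine ⟨U, D, ?_, ?_, ?_, ?_⟩
    · intro i
      refine Fin.cases ?_ (fun i' => ?_) i
      · exact u00
      · rw [uss]
        exact h1 i'
    · intro i k
      refine Fin.cases ?_ (fun i' => ?_) i <;> refine Fin.cases ?_ (fun k' => ?_) k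
      · intro h
        exact absurd rfl h
      · intro _ h
        exact absurd (u0s k') h
      · intro _ h
        rw [us0] at h
        have h5 : Y i'.succ 0 ≠ 0 := by
          intro h'
          apply h
          rw [h', zero_div]
        have h6 := hP _ _ (Fin.succ_ne_zero i') h5
        exact ⟨Fin.succ_pos i', h6.1, h6.2⟩
      · intro hne h
        rw [uss] at h
        have h5 := h2 i' k' (fun h' => hne (by rw [h'])) h
        exact ⟨Fin.succ_lt_succ_iff.2 h5.1, h5.2.1, h5.2.2⟩
    · have hent : ∀ i k, (U * (Matrix.diagonal fun i : Fin (n + 1) => D i) * U.transpose) i k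
          = U i 0 * Y 0 0 * U k 0 + ∑ j : Fin n, U i j.succ * D' j * U k j.succ := by
        intro i k
        rw [Matrix.mul_apply]
        simp only [Matrix.mul_diagonal, Matrix.transpose_apply]
        rw [Fin.sum_univ_succ]
        congr 1
      have hent' : ∀ i k, Y' i k = ∑ j : Fin n, U' i j * D' j * U' k j := by
        intro i k
        conv_lhs => rw [h3, Matrix.mul_apply]
        simp only [Matrix.mul_diagonal, Matrix.transpose_apply]
      ext i k
      rw [hent]
      refine Fin.cases ?_ (fun i' => ?_) i <;> refine Fin.cases ?_ (fun k' => ?_) k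
      · simp [u00, u0s]
      · simp only [u00, u0s, us0, zero_mul, Finset.sum_const_zero]
        rw [hs 0 k'.succ]
        field_simp
        ring
      · simp only [u00, u0s, us0, mul_zero, Finset.sum_const_zero]
        field_simp
        ring
      · simp only [us0, uss]
        rw [← hent', hYe, hs 0 k'.succ]
        field_simp
        ring
    · intro r hr
      cases r with
      | zero =>
        rw [d0, N1_ldm_zero, hsucc 0 (Nat.zero_le n), N1_ldm_zero]
      | succ r =>
        rw [ds, hsucc r (by omega), hsucc (r + 1) (by omega), ← h4 r (by omega)]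
        ring

end MotMono
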