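import Pool.Agent.Lib.MP_4e5fcd_ag.Cl.N0
import Pool.Agent.Lib.MP_4e5fcd_ag.Cl.N1

/-! # CL-N2: the fixed points of the torus are equivalent to points `FP D`

PROOF. Apply `exists_ldl` to `Y = Yt b x`, `P i = unp b i` (`Yt_transpose`, `Yt_off`). `gen`, `eps false n`: `Yt b x` is
diagonal, so `U = 1` (no index is mixed: `unp` is false resp. there is at most one index without partner), and
`x = FP D`: the entries of `x` outside the positions `isC` vanish (`om_zero`), the others are the diagonal
entries of `Yt`. `eps true n`: compare the entries of `mat x` and `U * mat (FP D) * Uᵀ`: `U` is the identity on the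
indices with partner, so the entry `(j, j + 1)` of a pair is `D j = (Yt) j j`, entries between other indices,
one of them with a partner, vanish on both sides (`om_zero`), and between indices without partners
`mat x i k = Yt i k = ∑ l, U i l * D l * U k l`, where only `l` without partner contribute (or `l = i = k`). -/

open MvPolynomial

namespace MotMono

private theorem N2_unq_false (b : ℕ → ℕ) (n j : ℕ) (h : unq false b n j) : j + 1 = n := by
  obtain ⟨h1, h2, h3⟩ := h
  have e : ∀ j, lpp false b n j ↔ j + 1 < n ∧ j % 2 = 0 := by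
    intro j
    unfold lpp
    simp
  rw [e] at h2
  rw [e] at h3
  have h4 : j % 2 = 0 := by
    by_contra hne
    exact h3 ⟨by omega, by omega, by omega⟩
  by_contra hne
  exact h2 ⟨by omega, h4⟩

private theorem N2_mat (κ : Bool) (n : ℕ) (x : (Shp.eps κ n).Idx → ℂ) (i k : Fin n) :
    (Shp.eps κ n).mat x i k = (if h : i < k then x ⟨(i, k), Or.inl h⟩
      else if h' : k < i then (if κ = true then 1 else -1) * x ⟨(k, i), Or.inl h'⟩
      else if hκ : κ = true then x ⟨(i, k), Or.inr ⟨hκ, le_antisymm (not_lt.1 h') (not_lt.1 h)⟩⟩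
      else 0) := rfl

open Classical in
private theorem N2_Yt (κ : Bool) (n : ℕ) (b : ℕ → ℕ) (x : (Shp.eps κ n).Idx → ℂ) (i k : Fin n) :
    (Shp.eps κ n).Yt b x i k = (if i = k then
        (if h : lpp κ b n i then (Shp.eps κ n).mat x i ⟨(i : ℕ) + 1, h.1⟩
          else if κ = true ∧ unq κ b n i then (Shp.eps κ n).mat x i i else 1)
      else if unq κ b n i ∧ unq κ b n k then (Shp.eps κ n).mat x i k else 0) := rfl

private theorem N2_mat_FP (κ : Bool) (n : ℕ) (b : ℕ → ℕ) (D : ℕ → ℂ) (l m : Fin n)
    (h : (Shp.eps κ n).mat ((Shp.eps κ n).FP b D) l m ≠ 0) :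
    (lpp κ b n l ∧ (m : ℕ) = l + 1) ∨ (lpp κ b n m ∧ (l : ℕ) = m + 1) ∨
      (unq κ b n l ∧ l = m) := by
  classical
  rcases lt_trichotomy l m with hlm | hlm | hlm
  · have e : (Shp.eps κ n).mat ((Shp.eps κ n).FP b D) l m =
        (Shp.eps κ n).FP b D ⟨(l, m), Or.inl hlm⟩ := by
      rw [N2_mat, dif_pos hlm]
    rw [e] at h
    unfold Shp.FP at h
    have hC : (Shp.eps κ n).isC b ⟨(l, m), Or.inl hlm⟩ := by
      by_contra hC
      rw [if_neg hC] at h
      exact h rfl
    have hC' : (lpp κ b n l ∧ (m : ℕ) = l + 1) ∨ (unq κ b n l ∧ (m : ℕ) = l) := hC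
    rcases hC' with h1 | h1
    · exact Or.inl h1
    · exfalso
      have := Fin.lt_def.1 hlm
      omega
  · subst hlm
    right
    right
    by_cases hκ : κ = true
    · have e : (Shp.eps κ n).mat ((Shp.eps κ n).FP b D) l l =
          (Shp.eps κ n).FP b D ⟨(l, l), Or.inr ⟨hκ, rfl⟩⟩ := by
        rw [N2_mat, dif_neg (lt_irrefl l), dif_neg (lt_irrefl l), dif_pos hκ]
      rw [e] at h
      unfold Shp.FP at h
      have hC : (Shp.eps κ n).isC b ⟨(l, l), Or.inr ⟨hκ, rfl⟩⟩ := by
        by_contra hC
        rw [if_neg hC] at h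
        exact h rfl
      have hC' : (lpp κ b n l ∧ (l : ℕ) = l + 1) ∨ (unq κ b n l ∧ (l : ℕ) = l) := hC
      rcases hC' with h1 | h1
      · exfalso
        omega
      · exact ⟨h1.1, rfl⟩
    · exfalso
      apply h
      rw [N2_mat, dif_neg (lt_irrefl l), dif_neg (lt_irrefl l), dif_neg hκ]
  · have e : (Shp.eps κ n).mat ((Shp.eps κ n).FP b D) l m =
        (if κ = true then 1 else -1) * (Shp.eps κ n).FP b D ⟨(m, l), Or.inl hlm⟩ := by
      rw [N2_mat, dif_neg (not_lt.2 hlm.le), dif_pos hlm]
    rw [e] at h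
    have h0 := right_ne_zero_of_mul h
    unfold Shp.FP at h0
    have hC : (Shp.eps κ n).isC b ⟨(m, l), Or.inl hlm⟩ := by
      by_contra hC
      rw [if_neg hC] at h0
      exact h0 rfl
    have hC' : (lpp κ b n m ∧ (l : ℕ) = m + 1) ∨ (unq κ b n m ∧ (l : ℕ) = m) := hC
    rcases hC' with h1 | h1
    · exact Or.inr (Or.inl h1)
    · exfalso
      have := Fin.lt_def.1 hlm
      omega

/-- a nonzero entry in the row of an index without partner is on the diagonal -/
private theorem N2_unq_left (κ : Bool) (n : ℕ) (b : ℕ → ℕ) (D : ℕ → ℂ) (l m : Fin n)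
    (hl : unq κ b n l)
    (h : (Shp.eps κ n).mat ((Shp.eps κ n).FP b D) l m ≠ 0) : l = m := by
  rcases N2_mat_FP κ n b D l m h with h1 | h1 | h1
  · exact absurd h1.1 hl.2.1
  · exfalso
    refine hl.2.2 ⟨by omega, ?_⟩
    rw [h1.2, Nat.add_sub_cancel]
    exact h1.1
  · exact h1.2

/-- a nonzero entry in the column of an index without partner is on the diagonal -/
private theorem N2_unq_right (κ : Bool) (n : ℕ) (b : ℕ → ℕ) (D : ℕ → ℂ) (l m : Fin n)
    (hm : unq κ b n m)
    (h : (Shp.eps κ n).mat ((Shp.eps κ n).FP b D) l m ≠ 0) : l = m := by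
  rcases N2_mat_FP κ n b D l m h with h1 | h1 | h1
  · exfalso
    refine hm.2.2 ⟨by omega, ?_⟩
    rw [h1.2, Nat.add_sub_cancel]
    exact h1.1
  · exact absurd h1.1 hm.2.1
  · exact h1.2

private theorem N2_mat_diag (n : ℕ) (b : ℕ → ℕ) (D : ℕ → ℂ) (l : Fin n)
    (hl : unq true b n l) :
    (Shp.eps true n).mat ((Shp.eps true n).FP b D) l l = D l := by
  classical
  have e : (Shp.eps true n).mat ((Shp.eps true n).FP b D) l l =
      (Shp.eps true n).FP b D ⟨(l, l), Or.inr ⟨rfl, rfl⟩⟩ := by
    rw [N2_mat, dif_neg (lt_irrefl l), dif_neg (lt_irrefl l), dif_pos rfl]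
  rw [e]
  unfold Shp.FP
  have hC : (Shp.eps true n).isC b ⟨(l, l), Or.inr ⟨rfl, rfl⟩⟩ := Or.inr ⟨hl, rfl⟩
  rw [if_pos hC]
  rfl

private theorem N2_eps (κ : Bool) (n : ℕ) (b : ℕ → ℕ) (x : (Shp.eps κ n).Idx → ℂ)
    (hx : ∀ p, x p ≠ 0 → (Shp.eps κ n).om b p = 0)
    (U : Matrix (Fin n) (Fin n) ℂ) (D : ℕ → ℂ) (h1 : ∀ i, U i i = 1)
    (h2 : ∀ i k : Fin n, i ≠ k → U i k ≠ 0 → k < i ∧ unq κ b n i ∧ unq κ b n k)
    (hY : ∀ i k : Fin n, (Shp.eps κ n).Yt b x i k = ∑ l : Fin n, U i l * D l * U k l) :
    x = (Shp.eps κ n).actI U 1 ((Shp.eps κ n).FP b D) := by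
  classical
  set M : Matrix (Fin n) (Fin n) ℂ := (Shp.eps κ n).mat ((Shp.eps κ n).FP b D) with hM
  have hent : ∀ i k : Fin n, (U * M * U.transpose) i k = ∑ m, (∑ l, U i l * M l m) * U k m := by
    intro i k
    rw [Matrix.mul_apply]
    refine Finset.sum_congr rfl fun m _ => ?_
    rw [Matrix.mul_apply, Matrix.transpose_apply]
  have hU1 : ∀ i : Fin n, ¬ unq κ b n i → ∀ l, U i l = if i = l then 1 else 0 := by
    intro i hi l
    by_cases h : i = l
    · subst h
      rw [if_pos rfl, h1]
    · rw [if_neg h]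
      by_contra hne
      exact hi (h2 i l h hne).2.1
  have hU2 : ∀ i l : Fin n, unq κ b n i → U i l ≠ 0 → unq κ b n l := by
    intro i l hi hne
    by_cases h : i = l
    · subst h
      exact hi
    · exact (h2 i l h hne).2.2
  have hself := (Shp.eps κ n).ent_mat ((Shp.eps κ n).FP b D)
  funext p
  show x p = (U * M * U.transpose) p.1.1 p.1.2
  have hle : p.1.1 ≤ p.1.2 := by
    rcases p.2 with h | h
    · exact h.le
    · rw [h.2]
  by_cases hi : unq κ b n p.1.1
  · by_cases hk : unq κ b n p.1.2
    · -- both indices without partners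
      have hκ : κ = true := by
        cases κ with
        | true => rfl
        | false =>
          exfalso
          have e1 := N2_unq_false b n _ hi
          have e2 := N2_unq_false b n _ hk
          rcases p.2 with h | h
          · have := Fin.lt_def.1 h
            omega
          · exact absurd h.1 (by simp)
      subst hκ
      have hxp : (Shp.eps true n).mat x p.1.1 p.1.2 = x p :=
        congrFun ((Shp.eps true n).ent_mat x) p
      have hYp : (Shp.eps true n).Yt b x p.1.1 p.1.2 = x p := by
        rw [← hxp, N2_Yt]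
        by_cases hik : p.1.1 = p.1.2
        · rw [if_pos hik, dif_neg hi.2.1, if_pos ⟨rfl, hi⟩, ← hik]
        · rw [if_neg hik, if_pos ⟨hi, hk⟩]
      rw [← hYp, hY, hent]
      have step : ∀ m : Fin n, (∑ l, U p.1.1 l * M l m) * U p.1.2 m =
          U p.1.1 m * D m * U p.1.2 m := by
        intro m
        congr 1
        by_cases hm : unq true b n m
        · rw [Finset.sum_eq_single m]
          · rw [hM, N2_mat_diag n b D m hm]
          · intro l _ hlm
            have : M l m = 0 := by
              by_contra hne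
              exact hlm (N2_unq_right true n b D l m hm hne)
            rw [this, mul_zero]
          · intro h
            exact absurd (Finset.mem_univ _) h
        · have e1 : U p.1.1 m = 0 := by
            by_contra hne
            exact hm (hU2 _ _ hi hne)
          rw [e1, zero_mul]
          refine Finset.sum_eq_zero fun l _ => ?_
          by_contra hne
          have h3 := left_ne_zero_of_mul hne
          have h4 := right_ne_zero_of_mul hne
          have h5 := hU2 _ _ hi h3
          have h6 := N2_unq_left true n b D l m h5 h4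
          rw [h6] at h5
          exact hm h5
      exact (Finset.sum_congr rfl fun m _ => step m).symm
    · -- the column has a partner
      have hx0 : x p = 0 := by
        by_contra hne
        rcases (Shp.eps κ n).om_zero b p (hx p hne) with h | h
        · have h' : (lpp κ b n p.1.1 ∧ (p.1.2 : ℕ) = p.1.1 + 1) ∨
            (unq κ b n p.1.1 ∧ (p.1.2 : ℕ) = p.1.1) := h
          rcases h' with h' | h'
          · exact hi.2.1 h'.1
          · rw [h'.2] at hk
            exact hk hi
        · exact hk h.2.1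
      rw [hx0, hent]
      symm
      refine Finset.sum_eq_zero fun m _ => ?_
      rw [hU1 _ hk m]
      by_cases hm : p.1.2 = m
      · rw [if_pos hm, mul_one]
        refine Finset.sum_eq_zero fun l _ => ?_
        by_contra hne
        have h3 := left_ne_zero_of_mul hne
        have h4 := right_ne_zero_of_mul hne
        have h5 := hU2 _ _ hi h3
        have h6 := N2_unq_left κ n b D l m h5 h4
        rw [h6, ← hm] at h5
        exact hk h5
      · rw [if_neg hm, mul_zero]
  · by_cases hk : unq κ b n p.1.2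
    · -- the row has a partner
      have hx0 : x p = 0 := by
        by_contra hne
        rcases (Shp.eps κ n).om_zero b p (hx p hne) with h | h
        · have h' : (lpp κ b n p.1.1 ∧ (p.1.2 : ℕ) = p.1.1 + 1) ∨
            (unq κ b n p.1.1 ∧ (p.1.2 : ℕ) = p.1.1) := h
          rcases h' with h' | h'
          · refine hk.2.2 ⟨by omega, ?_⟩
            rw [h'.2, Nat.add_sub_cancel]
            exact h'.1
          · exact hi h'.1
        · exact hi h.1
      rw [hx0, hent]
      symm
      refine Finset.sum_eq_zero fun m _ => ?_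
      by_contra hne
      have h3 := left_ne_zero_of_mul hne
      have h4 := right_ne_zero_of_mul hne
      have h5 := hU2 _ _ hk h4
      apply h3
      refine Finset.sum_eq_zero fun l _ => ?_
      rw [hU1 _ hi l]
      by_cases hl : p.1.1 = l
      · rw [if_pos hl, one_mul]
        by_contra hne'
        have h6 := N2_unq_right κ n b D l m h5 hne'
        rw [← h6, ← hl] at h5
        exact hi h5
      · rw [if_neg hl, zero_mul]
    · -- both indices have partners
      have e0 : (U * M * U.transpose) p.1.1 p.1.2 = M p.1.1 p.1.2 := by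
        rw [hent]
        rw [Finset.sum_eq_single p.1.2]
        · rw [hU1 _ hk, if_pos rfl, mul_one, Finset.sum_eq_single p.1.1]
          · rw [hU1 _ hi, if_pos rfl, one_mul]
          · intro l _ hl
            rw [hU1 _ hi, if_neg (Ne.symm hl), zero_mul]
          · intro h
            exact absurd (Finset.mem_univ _) h
        · intro m _ hm
          rw [hU1 _ hk, if_neg (Ne.symm hm), mul_zero]
        · intro h
          exact absurd (Finset.mem_univ _) h
      have e1 : M p.1.1 p.1.2 = (Shp.eps κ n).FP b D p := congrFun hself p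
      rw [e0, e1]
      by_cases hC : (Shp.eps κ n).isC b p
      · have e2 : (Shp.eps κ n).FP b D p = D p.1.1 := by
          unfold Shp.FP
          rw [if_pos hC]
          rfl
        rw [e2, ← (Shp.eps κ n).Yt_diag b x p hC p.1.1 rfl, hY]
        rw [Finset.sum_eq_single p.1.1]
        · rw [h1, one_mul, mul_one]
        · intro l _ hl
          rw [hU1 _ hi, if_neg (Ne.symm hl), zero_mul, zero_mul]
        · intro h
          exact absurd (Finset.mem_univ _) h
      · have e2 : (Shp.eps κ n).FP b D p = 0 := by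
          unfold Shp.FP
          rw [if_neg hC]
        rw [e2]
        by_contra hne
        rcases (Shp.eps κ n).om_zero b p (hx p hne) with h | h
        · exact hC h
        · exact hi h.1

private theorem N2_gen (m n : ℕ) (b : ℕ → ℕ) (x : (Shp.gen m n).Idx → ℂ)
    (hx : ∀ p, x p ≠ 0 → (Shp.gen m n).om b p = 0)
    (U : Matrix (Fin m) (Fin m) ℂ) (D : ℕ → ℂ) (h1 : U = 1)
    (hY : ∀ i k : Fin m, (Shp.gen m n).Yt b x i k = ∑ l : Fin m, U i l * D l * U k l) :
    x = (Shp.gen m n).actI U 1 ((Shp.gen m n).FP b D) := by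
  classical
  subst h1
  rw [Shp.actI_one]
  funext p
  by_cases hC : (Shp.gen m n).isC b p
  · have e2 : (Shp.gen m n).FP b D p = D p.1 := by
      unfold Shp.FP
      rw [if_pos hC]
      rfl
    rw [e2, ← (Shp.gen m n).Yt_diag b x p hC p.1 rfl, hY]
    rw [Finset.sum_eq_single p.1]
    · simp
    · intro l _ hl
      rw [Matrix.one_apply_ne (Ne.symm hl), zero_mul, zero_mul]
    · intro h
      exact absurd (Finset.mem_univ _) h
  · have e2 : (Shp.gen m n).FP b D p = 0 := by
      unfold Shp.FP
      rw [if_neg hC]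
    rw [e2]
    by_contra hne
    rcases (Shp.gen m n).om_zero b p (hx p hne) with h | h
    · exact hC h
    · exact h.1.elim

theorem Shp.exists_factor (σ : Shp) (hσ : σ.Le) (b : ℕ → ℕ) (x : σ.Idx → ℂ)
    (hx : ∀ p, x p ≠ 0 → σ.om b p = 0) (hΔ : ∀ r ≤ σ.row, ldm (σ.Yt b x) r ≠ 0) :
    ∃ (U : Matrix (Fin σ.row) (Fin σ.row) ℂ) (D : ℕ → ℂ), σ.UTri b U ∧
      x = σ.actI U 1 (σ.FP b D) ∧
      ∀ r < σ.row, D r * ldm (σ.Yt b x) r = ldm (σ.Yt b x) (r + 1) := by
  classical
  obtain ⟨U, D, h1, h2, h3, h4⟩ := exists_ldl σ.row (fun i => σ.unp b i) (σ.Yt b x)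
    (σ.Yt_transpose b x) (fun i k hik hne => by
      have h := σ.Yt_off b x i k hik hne
      exact ⟨h.1, h.2.1⟩) hΔ
  have hY : ∀ i k, σ.Yt b x i k = ∑ l, U i l * D l * U k l := by
    intro i k
    conv_lhs => rw [h3, Matrix.mul_apply]
    simp only [Matrix.mul_diagonal, Matrix.transpose_apply]
  refine ⟨U, D, ⟨h1, h2⟩, ?_, h4⟩
  clear h3 h4 hΔ
  cases σ with
  | gen m n =>
    refine N2_gen m n b x hx U D ?_ hY
    ext i k
    by_cases h : i = k
    · subst h
      rw [h1, Matrix.one_apply_eq]
    · rw [Matrix.one_apply_ne h]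
      by_contra hne
      exact (h2 i k h hne).2.1.elim
  | eps κ n => exact N2_eps κ n b x hx U D h1 h2 hY

end MotMono
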