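import Pool.Agent.Lib.MP_4e5fcd_ag.Cl.N0
import Pool.Agent.Lib.MP_4e5fcd_ag.Cl.L0
import Pool.Agent.Lib.MP_4e5fcd_ag.Cl.P5

/-! # CL-N3: values of homogeneous elements of `I` at the points `U • FP z`

PROOF. Let `U_t` have the entries `C (U i k) * X ^ (vv i - vv k)` (`k ≤ i`; `vv` is monotone), so `U_t = U` at `t = 1` and
`U_t = 1` at `t = 0` (`unp_lt`: `vv k < vv i` if `U i k ≠ 0`, `k ≠ i`), and for `t ≠ 0`
`U_t = diagonal (t ^ vv) * U * diagonal (t ^ (- vv))`. Let `P (t) = f (U_t • FP z)`, a polynomial in `t`, and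
`Q (t) = f (U • FP (t ^ (2 vv) z))`. For `t ≠ 0`: `P (t) = t ^ j * Q (t⁻¹)` (`aeval_wh`: the action of `diagonal (t ^ vv)`
multiplies the coordinate `i` by `t ^ muwS i`; `fps_scale`; for `gen` shapes `U = 1` and the statement is clear from
the diagonal action on both sides). By `ref_dvd_poly` (with `X ^ 2` for `X`: `X ^ (2 n₀)` divides
`g (FPS (C z * X ^ (2 vv)))` for all `g ∈ I`) and `dvd_actS_poly` `Q = X ^ (2 n₀) * R`. So
`t ^ (2 n₀ - j) * P (t) = R (t⁻¹)` for all `t ≠ 0`; both sides are polynomials, in `t` and in `t⁻¹`, so they are constant.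
If `j < 2 n₀`: the value at `t = 0` is `0`, so `P (1) = 0`. If `j = 2 n₀`: `P (1) = P (0) = f (FP z)`. -/

open MvPolynomial

namespace MotMono

variable {s N : ℕ} {σ : Fin s → Shp} {e : (Σ a, (σ a).Idx) ≃ Fin N}
  {I : Ideal (MvPolynomial (Fin N) ℂ)} {A : Finset ((Σ a, Fin (σ a).rk) → ℕ)}
  {u : (Σ a, Fin (σ a).rk) → ℕ} {n₀ : ℕ}

/-- a polynomial in `t` which is a polynomial in `t⁻¹` is constant -/
theorem poly_inv_const (P R : Polynomial ℂ) (h : ∀ t : ℂ, t ≠ 0 → P.eval t = R.eval t⁻¹) :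
    P.eval 1 = P.eval 0 := by
  by_cases hP : P = 0
  · rw [hP, Polynomial.eval_zero, Polynomial.eval_zero]
  have h1 : Polynomial.X ^ R.natDegree * P = R.reverse := by
    apply Polynomial.eq_of_infinite_eval_eq
    have h2 : {t : ℂ | t ≠ 0}.Infinite := by
      have h3 : {t : ℂ | t ≠ 0} = ({0} : Set ℂ)ᶜ := by
        ext t
        exact Iff.rfl
      rw [h3]
      exact (Set.finite_singleton (0 : ℂ)).infinite_compl
    refine h2.mono fun t ht => ?_
    have ht' : t ≠ 0 := ht
    show (Polynomial.X ^ R.natDegree * P).eval t = R.reverse.eval t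
    have : Invertible t⁻¹ := invertibleOfNonzero (inv_ne_zero ht')
    have h4 := Polynomial.eval₂_reverse_mul_pow (RingHom.id ℂ) t⁻¹ R
    rw [invOf_eq_inv, inv_inv] at h4
    rw [Polynomial.eval_mul, Polynomial.eval_pow, Polynomial.eval_X, h t ht']
    have h6 : R.eval t⁻¹ = R.reverse.eval t * t⁻¹ ^ R.natDegree := h4.symm
    rw [h6, mul_comm, mul_assoc, ← mul_pow, inv_mul_cancel₀ ht', one_pow, mul_one]
  have h5 : (Polynomial.X ^ R.natDegree * P).natDegree ≤ R.natDegree := by
    rw [h1]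
    exact Polynomial.reverse_natDegree_le R
  rw [Polynomial.natDegree_mul (pow_ne_zero _ Polynomial.X_ne_zero) hP,
    Polynomial.natDegree_X_pow] at h5
  have h6 : P.natDegree = 0 := by omega
  rw [Polynomial.eq_C_of_natDegree_eq_zero h6, Polynomial.eval_C, Polynomial.eval_C]

private theorem N3_ev (t : ℂ) (x : Fin N → Polynomial ℂ) (f : MvPolynomial (Fin N) ℂ) :
    (aeval x f : Polynomial ℂ).eval t = eval (fun i => (x i).eval t) f := by
  have h1 : ((Polynomial.aeval t : Polynomial ℂ →ₐ[ℂ] ℂ).comp (aeval x)) =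
      (aeval (fun i => (x i).eval t) : MvPolynomial (Fin N) ℂ →ₐ[ℂ] ℂ) := by
    apply MvPolynomial.algHom_ext
    intro i
    rw [AlgHom.comp_apply, aeval_X, aeval_X, Polynomial.coe_aeval_eq_eval]
  have h2 := congrArg (fun φ : MvPolynomial (Fin N) ℂ →ₐ[ℂ] ℂ => φ f) h1
  have h3 : (aeval (fun i => (x i).eval t) : MvPolynomial (Fin N) ℂ →ₐ[ℂ] ℂ) f =
      eval (fun i => (x i).eval t) f := by
    rw [aeval_def, Algebra.algebraMap_self, eval₂_id]
  rw [← h3, ← h1, AlgHom.comp_apply, Polynomial.coe_aeval_eq_eval]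

private theorem N3_congr {x y : Fin N → ℂ} (h : ∀ i, x i = y i) (f : MvPolynomial (Fin N) ℂ) :
    eval x f = eval y f := by
  rw [funext h]

private theorem N3_exp (x : Fin N → Polynomial ℂ) (f : MvPolynomial (Fin N) ℂ) :
    Polynomial.expand ℂ 2 (aeval x f) = aeval (fun i => Polynomial.expand ℂ 2 (x i)) f := by
  have h1 : ((Polynomial.expand ℂ 2).comp (aeval x) : MvPolynomial (Fin N) ℂ →ₐ[ℂ] Polynomial ℂ) =
      aeval (fun i => Polynomial.expand ℂ 2 (x i)) := by
    apply MvPolynomial.algHom_ext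
    intro i
    rw [AlgHom.comp_apply, aeval_X, aeval_X]
  rw [← h1]
  rfl

private theorem N3_FP_map {R S : Type} [CommRing R] [CommRing S] (τ : Shp) (b : ℕ → ℕ) (φ : R →+* S)
    (z : ℕ → R) (p : τ.Idx) : φ (τ.FP b z p) = τ.FP b (fun k => φ (z k)) p := by
  unfold Shp.FP
  split_ifs
  · rfl
  · exact map_zero _

private theorem N3_FP_scale (τ : Shp) (b : ℕ → ℕ) (z : ℕ → ℂ) (c : ℂ) :
    τ.FP b (fun k => c ^ (2 * τ.vv b k) * z k) =
      τ.actI (Matrix.diagonal fun i : Fin τ.row => c ^ τ.vv b i)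
        (Matrix.diagonal fun k : Fin τ.col => c ^ τ.vv b k) (τ.FP b z) := by
  funext p
  rw [Shp.actI_diagonal τ (fun i => c ^ τ.vv b i) (fun k => c ^ τ.vv b k) (fun _ _ _ => rfl)]
  unfold Shp.FP
  by_cases hp : τ.isC b p
  · rw [if_pos hp, if_pos hp, τ.isC_vv b p hp, ← pow_add, ← two_mul]
  · rw [if_neg hp, if_neg hp, mul_zero]

private theorem N3_eps (κ : Bool) (n : ℕ) (g : Matrix (Fin (Shp.eps κ n).row) (Fin (Shp.eps κ n).row) ℂ)
    (h h' : Matrix (Fin (Shp.eps κ n).col) (Fin (Shp.eps κ n).col) ℂ) (x : (Shp.eps κ n).Idx → ℂ) :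
    (Shp.eps κ n).actI g h x = (Shp.eps κ n).actI g h' x := rfl

private theorem N3_key (τ : Shp) (b : ℕ → ℕ) (U : Matrix (Fin τ.row) (Fin τ.row) ℂ)
    (hU : τ.UTri b U) (z : ℕ → ℂ) (t : ℂ) (ht : t ≠ 0) (p : τ.Idx) :
    τ.actI (Matrix.of fun i k => U i k * t ^ (τ.vv b i - τ.vv b k)) 1 (τ.FP b z) p =
      t ^ τ.muw b p * τ.actI U 1 (τ.FP b fun k => t⁻¹ ^ (2 * τ.vv b k) * z k) p := by
  have hst : ∀ m : ℕ, t ^ m * t⁻¹ ^ m = 1 := fun m => by
    rw [← mul_pow, mul_inv_cancel₀ ht, one_pow]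
  cases τ with
  | gen m n =>
    have h1 : U = 1 := by
      ext i k
      by_cases hik : i = k
      · rw [hik, hU.1, Matrix.one_apply_eq]
      · rw [Matrix.one_apply_ne hik]
        by_contra hne
        exact (hU.2 i k hik hne).2.1
    have h2 : (Matrix.of fun i k => U i k * t ^ ((Shp.gen m n).vv b i - (Shp.gen m n).vv b k) :
        Matrix (Fin (Shp.gen m n).row) (Fin (Shp.gen m n).row) ℂ) = 1 := by
      ext i k
      rw [Matrix.of_apply, h1]
      by_cases hik : i = k
      · rw [hik, Matrix.one_apply_eq, Nat.sub_self, pow_zero, mul_one]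
      · rw [Matrix.one_apply_ne hik, zero_mul]
    rw [h2, h1, Shp.actI_one, Shp.actI_one]
    unfold Shp.FP Shp.muw
    by_cases hp : (Shp.gen m n).isC b p
    · rw [if_pos hp, if_pos hp, Shp.isC_vv _ b p hp, ← two_mul, ← mul_assoc, hst, one_mul]
    · rw [if_neg hp, if_neg hp, mul_zero]
  | eps κ n =>
    have h2 : (Matrix.of fun i k => U i k * t ^ ((Shp.eps κ n).vv b i - (Shp.eps κ n).vv b k) :
        Matrix (Fin (Shp.eps κ n).row) (Fin (Shp.eps κ n).row) ℂ) =
        (Matrix.diagonal fun i : Fin (Shp.eps κ n).row => t ^ (Shp.eps κ n).vv b i) *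
          U * (Matrix.diagonal fun i : Fin (Shp.eps κ n).row => t⁻¹ ^ (Shp.eps κ n).vv b i) := by
      ext i k
      rw [Matrix.of_apply, Matrix.mul_diagonal, Matrix.diagonal_mul]
      by_cases h0 : U i k = 0
      · rw [h0, zero_mul, mul_zero, zero_mul]
      · have hle : (Shp.eps κ n).vv b k ≤ (Shp.eps κ n).vv b i := by
          by_cases hik : i = k
          · rw [hik]
          · exact Shp.vv_mono _ _ _ _ (hU.2 i k hik h0).1.le
        have h3 : t ^ (Shp.eps κ n).vv b i =
            t ^ ((Shp.eps κ n).vv b i - (Shp.eps κ n).vv b k) * t ^ (Shp.eps κ n).vv b k := by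
          rw [← pow_add, Nat.sub_add_cancel hle]
        rw [h3]
        calc U i k * t ^ ((Shp.eps κ n).vv b i - (Shp.eps κ n).vv b k)
            = U i k * t ^ ((Shp.eps κ n).vv b i - (Shp.eps κ n).vv b k) *
              (t ^ (Shp.eps κ n).vv b k * t⁻¹ ^ (Shp.eps κ n).vv b k) := by rw [hst, mul_one]
          _ = _ := by ring
    have h4 : (Shp.eps κ n).actI ((Matrix.diagonal fun i : Fin (Shp.eps κ n).row =>
          t ^ (Shp.eps κ n).vv b i) *
          U * (Matrix.diagonal fun i : Fin (Shp.eps κ n).row => t⁻¹ ^ (Shp.eps κ n).vv b i)) 1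
          ((Shp.eps κ n).FP b z) =
        (Shp.eps κ n).actI (Matrix.diagonal fun i : Fin (Shp.eps κ n).row =>
            t ^ (Shp.eps κ n).vv b i)
          (Matrix.diagonal fun i : Fin (Shp.eps κ n).col => t ^ (Shp.eps κ n).vv b i)
          ((Shp.eps κ n).actI U 1
            ((Shp.eps κ n).actI (Matrix.diagonal fun i : Fin (Shp.eps κ n).row =>
              t⁻¹ ^ (Shp.eps κ n).vv b i)
              (Matrix.diagonal fun i : Fin (Shp.eps κ n).col => t⁻¹ ^ (Shp.eps κ n).vv b i)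
              ((Shp.eps κ n).FP b z))) := by
      rw [Shp.actI_actI, Shp.actI_actI]
      exact N3_eps κ n _ _ _ _
    rw [h2, h4, Shp.actI_diagonal (Shp.eps κ n) (fun i => t ^ (Shp.eps κ n).vv b i)
      (fun k => t ^ (Shp.eps κ n).vv b k) (fun _ _ _ => rfl), ← N3_FP_scale, ← pow_add]
    rfl

theorem eval_factor (h : Dat0 e I A u n₀) (U : ∀ a, Matrix (Fin (σ a).row) (Fin (σ a).row) ℂ)
    (hU : ∀ a, (σ a).UTri (bS u a) (U a)) (z : Fin s → ℕ → ℂ) (f : MvPolynomial (Fin N) ℂ)
    (hf : f ∈ I) (j : ℕ) (hj : j ≤ 2 * n₀) (hw : IsWeightedHomogeneous (muwS e u) f j) :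
    eval (ptS e fun a => (σ a).actI (U a) 1 ((σ a).FP (bS u a) (z a))) f =
      if j = 2 * n₀ then eval (FPS e u z) f else 0 := by
  set P : Polynomial ℂ := aeval (ptS e fun a => (σ a).actI
    (Matrix.of fun i k => Polynomial.C (U a i k) *
      Polynomial.X ^ ((σ a).vv (bS u a) i - (σ a).vv (bS u a) k)) 1
    ((σ a).FP (bS u a) fun k => Polynomial.C (z a k))) f with hPdef
  have hP : ∀ t : ℂ, P.eval t = eval (ptS e fun a => (σ a).actI
      (Matrix.of fun i k => U a i k * t ^ ((σ a).vv (bS u a) i - (σ a).vv (bS u a) k)) 1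
      ((σ a).FP (bS u a) (z a))) f := by
    intro t
    rw [hPdef, N3_ev]
    refine N3_congr (fun i => ?_) f
    have h1 := Shp.actI_map (σ (e.symm i).1) (Polynomial.evalRingHom t)
      (Matrix.of fun i' k => Polynomial.C (U (e.symm i).1 i' k) *
        Polynomial.X ^ ((σ (e.symm i).1).vv (bS u (e.symm i).1) i' -
          (σ (e.symm i).1).vv (bS u (e.symm i).1) k)) 1
      ((σ (e.symm i).1).FP (bS u (e.symm i).1) fun k => Polynomial.C (z (e.symm i).1 k))
      (e.symm i).2
    refine h1.symm.trans ?_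
    have h2 : ((Matrix.of fun i' k => Polynomial.C (U (e.symm i).1 i' k) *
        Polynomial.X ^ ((σ (e.symm i).1).vv (bS u (e.symm i).1) i' -
          (σ (e.symm i).1).vv (bS u (e.symm i).1) k) :
        Matrix (Fin (σ (e.symm i).1).row) (Fin (σ (e.symm i).1).row) (Polynomial ℂ)).map
          (Polynomial.evalRingHom t)) =
        Matrix.of fun i' k => U (e.symm i).1 i' k *
          t ^ ((σ (e.symm i).1).vv (bS u (e.symm i).1) i' -
            (σ (e.symm i).1).vv (bS u (e.symm i).1) k) := by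
      ext i' k
      rw [Matrix.map_apply, Matrix.of_apply, Matrix.of_apply, map_mul, map_pow,
        Polynomial.coe_evalRingHom, Polynomial.eval_C, Polynomial.eval_X]
    have h3 : (fun p => (Polynomial.evalRingHom t) ((σ (e.symm i).1).FP (bS u (e.symm i).1)
        (fun k => Polynomial.C (z (e.symm i).1 k)) p)) =
        (σ (e.symm i).1).FP (bS u (e.symm i).1) (z (e.symm i).1) := by
      funext p
      rw [N3_FP_map]
      congr 1
      funext k
      rw [Polynomial.coe_evalRingHom, Polynomial.eval_C]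
    rw [h2, h3, Matrix.map_one _ (map_zero _) (map_one _)]
    rfl
  have hQ : ∀ g ∈ I, (Polynomial.X : Polynomial ℂ) ^ (2 * n₀) ∣
      aeval (ptS e fun a => (σ a).FP (bS u a) fun k =>
        (Polynomial.X : Polynomial ℂ) ^ (2 * (σ a).vv (bS u a) k) * Polynomial.C (z a k)) g := by
    intro g hg
    obtain ⟨w, hw'⟩ := ref_dvd_poly h z g hg
    refine ⟨Polynomial.expand ℂ 2 w, ?_⟩
    have h1 := congrArg (Polynomial.expand ℂ 2) hw'
    rw [N3_exp, map_mul, map_pow, Polynomial.expand_X, ← pow_mul] at h1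
    rw [← h1]
    congr 1
    congr 1
    funext i
    unfold FPS ptS
    have h2 := N3_FP_map (σ (e.symm i).1) (bS u (e.symm i).1)
      ((Polynomial.expand ℂ 2 : Polynomial ℂ →ₐ[ℂ] Polynomial ℂ) : Polynomial ℂ →+* Polynomial ℂ)
      (fun k => Polynomial.C (z (e.symm i).1 k) *
        Polynomial.X ^ (σ (e.symm i).1).vv (bS u (e.symm i).1) k) (e.symm i).2
    rw [RingHom.coe_coe] at h2
    rw [h2]
    show (σ (e.symm i).1).FP (bS u (e.symm i).1) (fun k =>
      (Polynomial.X : Polynomial ℂ) ^ (2 * (σ (e.symm i).1).vv (bS u (e.symm i).1) k) *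
        Polynomial.C (z (e.symm i).1 k)) (e.symm i).2 = _
    refine congrArg (fun q : ℕ → Polynomial ℂ =>
      (σ (e.symm i).1).FP (bS u (e.symm i).1) q (e.symm i).2) ?_
    funext k
    rw [map_mul, map_pow, Polynomial.expand_C, Polynomial.expand_X, ← pow_mul, mul_comm]
  obtain ⟨R, hR⟩ := dvd_actS_poly e I h.stable _ (2 * n₀) hQ
    (fun a => (U a).map (algebraMap ℂ (Polynomial ℂ))) (fun _ => 1) f hf
  have hR' : ∀ c : ℂ, eval (ptS e fun a => (σ a).actI (U a) 1
      ((σ a).FP (bS u a) fun k => c ^ (2 * (σ a).vv (bS u a) k) * z a k)) f =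
      c ^ (2 * n₀) * R.eval c := by
    intro c
    have h1 := congrArg (Polynomial.eval c) hR
    rw [N3_ev, Polynomial.eval_mul, Polynomial.eval_pow, Polynomial.eval_X] at h1
    rw [← h1]
    refine N3_congr (fun i => ?_) f
    have h2 := Shp.actI_map (σ (e.symm i).1) (Polynomial.evalRingHom c)
      ((U (e.symm i).1).map (algebraMap ℂ (Polynomial ℂ))) 1
      ((σ (e.symm i).1).FP (bS u (e.symm i).1) fun k =>
        (Polynomial.X : Polynomial ℂ) ^ (2 * (σ (e.symm i).1).vv (bS u (e.symm i).1) k) *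
          Polynomial.C (z (e.symm i).1 k)) (e.symm i).2
    refine Eq.trans ?_ h2
    have h3 : (((U (e.symm i).1).map (algebraMap ℂ (Polynomial ℂ))).map
        (Polynomial.evalRingHom c)) = U (e.symm i).1 := by
      ext i' k
      rw [Matrix.map_apply, Matrix.map_apply, Polynomial.coe_evalRingHom,
        Polynomial.algebraMap_eq, Polynomial.eval_C]
    have h4 : (fun p => (Polynomial.evalRingHom c) ((σ (e.symm i).1).FP (bS u (e.symm i).1)
        (fun k => (Polynomial.X : Polynomial ℂ) ^ (2 * (σ (e.symm i).1).vv (bS u (e.symm i).1) k) *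
          Polynomial.C (z (e.symm i).1 k)) p)) =
        (σ (e.symm i).1).FP (bS u (e.symm i).1) fun k =>
          c ^ (2 * (σ (e.symm i).1).vv (bS u (e.symm i).1) k) * z (e.symm i).1 k := by
      funext p
      rw [N3_FP_map]
      congr 1
      funext k
      rw [Polynomial.coe_evalRingHom, Polynomial.eval_mul, Polynomial.eval_pow, Polynomial.eval_X,
        Polynomial.eval_C]
    rw [h3, h4, Matrix.map_one _ (map_zero _) (map_one _)]
    rfl
  have hmain : ∀ t : ℂ, t ≠ 0 → P.eval t = t ^ j * (t⁻¹ ^ (2 * n₀) * R.eval t⁻¹) := by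
    intro t ht
    rw [hP, ← hR' t⁻¹]
    have h1 : (ptS e fun a => (σ a).actI
        (Matrix.of fun i k => U a i k * t ^ ((σ a).vv (bS u a) i - (σ a).vv (bS u a) k)) 1
        ((σ a).FP (bS u a) (z a))) = fun i => t ^ muwS e u i *
        (ptS e fun a => (σ a).actI (U a) 1
          ((σ a).FP (bS u a) fun k => t⁻¹ ^ (2 * (σ a).vv (bS u a) k) * z a k)) i := by
      funext i
      exact N3_key (σ (e.symm i).1) (bS u (e.symm i).1) (U (e.symm i).1) (hU _)
        (z (e.symm i).1) t ht (e.symm i).2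
    have h2 := aeval_wh (R := ℂ) (muwS e u) f j hw t
      (ptS e fun a => (σ a).actI (U a) 1
        ((σ a).FP (bS u a) fun k => t⁻¹ ^ (2 * (σ a).vv (bS u a) k) * z a k))
    rw [aeval_def, aeval_def, Algebra.algebraMap_self, eval₂_id, eval₂_id] at h2
    rw [h1]
    exact h2
  have hc := poly_inv_const (Polynomial.X ^ (2 * n₀ - j) * P) R (fun t ht => by
    rw [Polynomial.eval_mul, Polynomial.eval_pow, Polynomial.eval_X, hmain t ht, ← mul_assoc,
      ← pow_add, Nat.sub_add_cancel hj, ← mul_assoc, ← mul_pow, mul_inv_cancel₀ ht, one_pow,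
      one_mul])
  rw [Polynomial.eval_mul, Polynomial.eval_mul, Polynomial.eval_pow, Polynomial.eval_pow,
    Polynomial.eval_X, Polynomial.eval_X, one_pow, one_mul, hP 1, hP 0] at hc
  have h1 : (ptS e fun a => (σ a).actI
      (Matrix.of fun i k => U a i k * (1 : ℂ) ^ ((σ a).vv (bS u a) i - (σ a).vv (bS u a) k)) 1
      ((σ a).FP (bS u a) (z a))) = ptS e fun a => (σ a).actI (U a) 1 ((σ a).FP (bS u a) (z a)) := by
    congr 1
    funext a
    congr 1
    ext i k
    rw [Matrix.of_apply, one_pow, mul_one]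
  have h0 : (ptS e fun a => (σ a).actI
      (Matrix.of fun i k => U a i k * (0 : ℂ) ^ ((σ a).vv (bS u a) i - (σ a).vv (bS u a) k)) 1
      ((σ a).FP (bS u a) (z a))) = FPS e u z := by
    unfold FPS
    congr 1
    funext a
    have h2 : (Matrix.of fun i k => U a i k *
        (0 : ℂ) ^ ((σ a).vv (bS u a) i - (σ a).vv (bS u a) k) :
        Matrix (Fin (σ a).row) (Fin (σ a).row) ℂ) = 1 := by
      ext i k
      rw [Matrix.of_apply]
      by_cases hik : i = k
      · rw [hik, (hU a).1, Matrix.one_apply_eq, Nat.sub_self, pow_zero, mul_one]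
      · rw [Matrix.one_apply_ne hik]
        by_cases hne : U a i k = 0
        · rw [hne, zero_mul]
        · obtain ⟨h3, h4, h5⟩ := (hU a).2 i k hik hne
          have h6 := Shp.unp_lt (σ a) (bS u a) k i i.2 h3 h5 h4
          rw [zero_pow (by omega), mul_zero]
    rw [h2, Shp.actI_one]
  rw [h1, h0] at hc
  rw [hc]
  by_cases hjn : j = 2 * n₀
  · rw [if_pos hjn, hjn, Nat.sub_self, pow_zero, one_mul]
  · rw [if_neg hjn, zero_pow (by omega), zero_mul]

end MotMono
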