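import Pool.Agent.Lib.MP_4e5fcd_ag.Cl.N2
import Pool.Agent.Lib.MP_4e5fcd_ag.Cl.N3

/-! # CL-N4: values of homogeneous elements of `I` at fixed points of the torus

PROOF. `eval_quo`: `exists_factor` for every `a` and `eval_factor`; `D a r = ldS (r + 1) / ldS r`. `eval_low`: let
`x_ε = (1 - ε) x + ε (FPS 1)`, `ε ∈ ℂ`. The leading minors `ldS e u x_ε a r` are polynomials in `ε` (`ldS_map` for the
point over `Polynomial ℂ`), not zero at `ε = 1` (`ldS_ref_ne`), so `eval x_ε f = 0` for all but finitely many `ε`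
(`eval_quo`; the weights `omS` of the nonzero coordinates of `FPS 1` vanish, `isC_om`), hence for all `ε`. -/

open MvPolynomial

namespace MotMono

variable {s N : ℕ} {σ : Fin s → Shp} {e : (Σ a, (σ a).Idx) ≃ Fin N}
  {I : Ideal (MvPolynomial (Fin N) ℂ)} {A : Finset ((Σ a, Fin (σ a).rk) → ℕ)}
  {u : (Σ a, Fin (σ a).rk) → ℕ} {n₀ : ℕ}

private theorem N4_om (x : Fin N → ℂ) (hx : ∀ i, x i ≠ 0 → omS e u i = 0) (a : Fin s)
    (p : (σ a).Idx) (hp : x (e ⟨a, p⟩) ≠ 0) : (σ a).om (bS u a) p = 0 := by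
  have h1 := hx _ hp
  unfold omS at h1
  rw [e.symm_apply_apply] at h1
  exact h1

theorem eval_quo (h : Dat0 e I A u n₀) (x : Fin N → ℂ) (hx : ∀ i, x i ≠ 0 → omS e u i = 0)
    (hΔ : ∀ a, ∀ r ≤ (σ a).row, ldS e u x a r ≠ 0) (f : MvPolynomial (Fin N) ℂ) (hf : f ∈ I)
    (j : ℕ) (hj : j ≤ 2 * n₀) (hw : IsWeightedHomogeneous (muwS e u) f j) :
    eval x f = if j = 2 * n₀ then
      eval (FPS e u fun a r => ldS e u x a (r + 1) / ldS e u x a r) f else 0 := by
  have key : ∀ a, ∃ (U : Matrix (Fin (σ a).row) (Fin (σ a).row) ℂ) (D : ℕ → ℂ),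
      (σ a).UTri (bS u a) U ∧
      (fun p => x (e ⟨a, p⟩)) = (σ a).actI U 1 ((σ a).FP (bS u a) D) ∧
      ∀ r < (σ a).row, D r * ldS e u x a r = ldS e u x a (r + 1) := by
    intro a
    exact Shp.exists_factor (σ a) (h.le a) (bS u a) (fun p => x (e ⟨a, p⟩))
      (fun p hp => N4_om x hx a p hp) (fun r hr => hΔ a r hr)
  choose U D hU hxf hD using key
  have hxe : x = ptS e fun a => (σ a).actI (U a) 1 ((σ a).FP (bS u a) (D a)) := by
    funext i
    show x i = (σ (e.symm i).1).actI (U (e.symm i).1) 1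
      ((σ (e.symm i).1).FP (bS u (e.symm i).1) (D (e.symm i).1)) (e.symm i).2
    rw [← hxf]
    show x i = x (e (e.symm i))
    rw [e.apply_symm_apply]
  have hFD : FPS e u D = FPS e u fun a r => ldS e u x a (r + 1) / ldS e u x a r := by
    classical
    funext i
    show (if (σ (e.symm i).1).isC (bS u (e.symm i).1) (e.symm i).2 then
      D (e.symm i).1 ((σ (e.symm i).1).pr (e.symm i).2) else 0) =
      (if (σ (e.symm i).1).isC (bS u (e.symm i).1) (e.symm i).2 then
      ldS e u x (e.symm i).1 (((σ (e.symm i).1).pr (e.symm i).2 : ℕ) + 1) /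
        ldS e u x (e.symm i).1 ((σ (e.symm i).1).pr (e.symm i).2) else 0)
    have hlt : (((σ (e.symm i).1).pr (e.symm i).2 : Fin _) : ℕ) < (σ (e.symm i).1).row :=
      ((σ (e.symm i).1).pr (e.symm i).2).2
    have h1 := hD (e.symm i).1 _ hlt
    have h2 := hΔ (e.symm i).1 _ hlt.le
    split_ifs
    · rw [eq_div_iff h2]
      exact h1
    · rfl
  have hmain := eval_factor h U hU D f hf j hj hw
  rw [← hxe, hFD] at hmain
  exact hmain

private theorem N4_ref_om (i : Fin N) (z : Fin s → ℕ → ℂ) (hi : FPS e u z i ≠ 0) :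
    omS e u i = 0 := by
  by_cases hc : (σ (e.symm i).1).isC (bS u (e.symm i).1) (e.symm i).2
  · exact (σ (e.symm i).1).isC_om _ _ hc
  · exact absurd (if_neg hc) hi

theorem eval_low (h : Dat0 e I A u n₀) (x : Fin N → ℂ) (hx : ∀ i, x i ≠ 0 → omS e u i = 0)
    (f : MvPolynomial (Fin N) ℂ) (hf : f ∈ I) (j : ℕ) (hj : j < 2 * n₀)
    (hw : IsWeightedHomogeneous (muwS e u) f j) : eval x f = 0 := by
  classical
  obtain ⟨c, hc⟩ : ∃ c : Fin N → ℂ, c = FPS e u fun _ _ => (1 : ℂ) := ⟨_, rfl⟩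
  obtain ⟨xp, hxp⟩ : ∃ xp : Fin N → Polynomial ℂ, xp = fun i =>
    (1 - Polynomial.X) * Polynomial.C (x i) + Polynomial.X * Polynomial.C (c i) := ⟨_, rfl⟩
  have hev : ∀ (ε : ℂ) (i : Fin N), (Polynomial.evalRingHom ε) (xp i) =
      (1 - ε) * x i + ε * c i := by
    intro ε i
    rw [hxp]
    simp only [Polynomial.coe_evalRingHom, Polynomial.eval_add, Polynomial.eval_mul,
      Polynomial.eval_sub, Polynomial.eval_one, Polynomial.eval_X, Polynomial.eval_C]
  have hld : ∀ (ε : ℂ) (a : Fin s) (r : ℕ),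
      (Polynomial.evalRingHom ε) (ldS e u xp a r) =
        ldS e u (fun i => (1 - ε) * x i + ε * c i) a r := by
    intro ε a r
    rw [← ldS_map (Polynomial.evalRingHom ε) e u xp a r]
    simp only [hev]
  have hne : ∀ a, ∀ r ≤ (σ a).row, ldS e u xp a r ≠ 0 := by
    intro a r hr h0
    have h1 := hld 1 a r
    rw [h0, map_zero] at h1
    have h2 : (fun i => (1 - (1 : ℂ)) * x i + 1 * c i) = c := by
      funext i
      ring
    rw [h2, hc] at h1
    exact ldS_ref_ne e (fun a => h.le a) u 1 one_ne_zero a r hr h1.symm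
  obtain ⟨G, hG⟩ : ∃ G : Polynomial ℂ, G = ∏ a : Fin s, ∏ r ∈ Finset.range ((σ a).row + 1),
    ldS e u xp a r := ⟨_, rfl⟩
  have hG0 : G ≠ 0 := by
    rw [hG]
    refine Finset.prod_ne_zero_iff.2 fun a _ => Finset.prod_ne_zero_iff.2 fun r hr => ?_
    rw [Finset.mem_range] at hr
    exact hne a r (by omega)
  obtain ⟨F, hF⟩ : ∃ F : Polynomial ℂ, F = aeval xp f := ⟨_, rfl⟩
  have hFe : ∀ ε : ℂ, F.eval ε = eval (fun i => (1 - ε) * x i + ε * c i) f := by
    intro ε
    have h1 : (Polynomial.aeval ε) (aeval xp f) = aeval (fun i => (Polynomial.aeval ε) (xp i)) f :=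
      MvPolynomial.comp_aeval_apply (φ := Polynomial.aeval ε) (f := xp) f
    have h2 : ∀ i, (Polynomial.aeval ε) (xp i) = (1 - ε) * x i + ε * c i := by
      intro i
      rw [← hev ε i, Polynomial.coe_aeval_eq_eval, Polynomial.coe_evalRingHom]
    rw [hF, ← Polynomial.coe_aeval_eq_eval, h1]
    simp only [h2]
    rw [MvPolynomial.aeval_eq_eval]
  have hFG : F * G = 0 := by
    refine Polynomial.funext fun ε => ?_
    rw [Polynomial.eval_mul, Polynomial.eval_zero]
    by_cases hg : G.eval ε = 0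
    · rw [hg, mul_zero]
    · rw [hFe]
      have hΔ : ∀ a, ∀ r ≤ (σ a).row,
          ldS e u (fun i => (1 - ε) * x i + ε * c i) a r ≠ 0 := by
        intro a r hr h0
        apply hg
        rw [hG, Polynomial.eval_prod]
        refine Finset.prod_eq_zero (Finset.mem_univ a) ?_
        rw [Polynomial.eval_prod]
        refine Finset.prod_eq_zero (Finset.mem_range.2 (Nat.lt_succ_of_le hr)) ?_
        rw [← Polynomial.coe_evalRingHom, hld, h0]
      have hx' : ∀ i, (1 - ε) * x i + ε * c i ≠ 0 → omS e u i = 0 := by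
        intro i hi
        by_cases h1 : x i = 0
        · refine N4_ref_om i (fun _ _ => (1 : ℂ)) fun h2 => hi ?_
          rw [h1, hc, h2]
          ring
        · exact hx i h1
      rw [eval_quo h _ hx' hΔ f hf j hj.le hw, if_neg (by omega), zero_mul]
  have hF0 : F = 0 := (mul_eq_zero.1 hFG).resolve_right hG0
  have h3 := hFe 0
  rw [hF0, Polynomial.eval_zero] at h3
  have h4 : (fun i => (1 - (0 : ℂ)) * x i + 0 * c i) = x := by
    funext i
    ring
  rw [h4] at h3
  exact h3.symm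

end MotMono
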