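import Pool.Agent.Lib.MP_4e5fcd_ag.Cl.N4
import Pool.Agent.Lib.MP_4e5fcd_ag.Cl.P4

/-! # CL-N5: the leading minors do not vanish

PROOF. Let `x_ε = (1 - ε) x + ε (FPS δ)` and let `Δ a r ∈ ℂ[ε]` be its leading minors (`ldS` of the point over
`Polynomial ℂ`), nonzero polynomials (`ldS_ref_ne` at `ε = 1`). Let `m a r` be the multiplicity of the root `0` of
`Δ a r`, `y (a, r) = m a (r + 1) - m a r` (`r < row`). For `κ ∈ EFN` let `f` be as in `ef_hom`; `eval x_ε f * ∏ (Δ a r) ^ κ (a, r)
= ∏ (Δ a (r + 1)) ^ κ (a, r)` for all but finitely many `ε` (`eval_quo`; in rows without `CR` `κ = 0`), hence as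
polynomials, and `eval x_0 f = eval (FPS δ) f ≠ 0` (`x ∈ XX`), so `∑ κ c * y c = 0`. If row `r` has no `CR`, then the row
`r` of `Yt` has no other entries (`Yt_off`: `unp` and not `CR` only for the last row of `eps false n`, where there is
no other index without partner; `not_CR`) and the diagonal entry `1`: `Δ (r + 1) = Δ r`, `y = 0`. If `vS (a, r) = 0`: all
entries of `x_ε` of weight `muwS = 0` are those of `FPS δ` (definition of `XX`), and `vv` is monotone, so the leading
submatrix of size `r + 1` of `Yt (x_ε)` is that of `FPS δ` (`ldm_congr`), its minors are nonzero constants, `y = 0`.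
By `rank_zero` `y = 0`, so `m a r = m a 0 = 0` for all `r`. -/

open MvPolynomial

namespace MotMono

variable {s N : ℕ} {σ : Fin s → Shp} {e : (Σ a, (σ a).Idx) ≃ Fin N}
  {I : Ideal (MvPolynomial (Fin N) ℂ)} {A : Finset ((Σ a, Fin (σ a).rk) → ℕ)}
  {u : (Σ a, Fin (σ a).rk) → ℕ} {n₀ : ℕ}

private theorem N5_muw (e : (Σ a, (σ a).Idx) ≃ Fin N) (u : (Σ a, Fin (σ a).rk) → ℕ) (a : Fin s)
    (p : (σ a).Idx) : muwS e u (e ⟨a, p⟩) = (σ a).muw (bS u a) p := by
  unfold muwS
  rw [e.symm_apply_apply]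

private theorem N5_FPS (e : (Σ a, (σ a).Idx) ≃ Fin N) (u : (Σ a, Fin (σ a).rk) → ℕ) (a : Fin s)
    (p : (σ a).Idx) (z : Fin s → ℕ → ℂ) : FPS e u z (e ⟨a, p⟩) = (σ a).FP (bS u a) (z a) p := by
  unfold FPS ptS
  rw [e.symm_apply_apply]

/-- a row without further entries -/
private theorem N5_row {R : Type} [CommRing R] (e : (Σ a, (σ a).Idx) ≃ Fin N)
    (u : (Σ a, Fin (σ a).rk) → ℕ) (x : Fin N → R) (a : Fin s) (r : Fin (σ a).row)
    (h : ∀ k : Fin (σ a).row, k < r → ¬ ((σ a).unp (bS u a) r ∧ (σ a).unp (bS u a) k)) :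
    ldS e u x a ((r : ℕ) + 1) =
      (σ a).Yt (bS u a) (fun p => x (e ⟨a, p⟩)) r r * ldS e u x a r := by
  unfold ldS
  refine ldm_succ _ r fun k hk => ?_
  by_contra hne
  obtain ⟨h1, h2, -⟩ := (σ a).Yt_off (bS u a) _ r k (ne_of_gt hk) hne
  exact h k hk ⟨h1, h2⟩

private theorem N5_eps (τ : Shp) (b : ℕ → ℕ) (n i : ℕ) (hτ : τ = Shp.eps false n)
    (hi : τ.unp b i) (hin : i + 1 < τ.row) : False := by
  subst hτ
  obtain ⟨h6, h7, h8⟩ := (hi : unq false b n i)
  have hin' : i + 1 < n := hin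
  unfold lpp at h7 h8
  simp only [Bool.false_eq_true, if_false] at h7 h8
  by_cases h9 : i % 2 = 0
  · exact h7 ⟨hin', h9⟩
  · exact h8 ⟨by omega, by omega, by omega⟩

/-- rows without entries of the reference point -/
private theorem N5_row_one {R : Type} [CommRing R] (e : (Σ a, (σ a).Idx) ≃ Fin N)
    (hσ : ∀ a, (σ a).Le) (u : (Σ a, Fin (σ a).rk) → ℕ) (x : Fin N → R) (a : Fin s)
    (r : Fin (σ a).row) (hr : ¬ (σ a).CR (bS u a) r) :
    ldS e u x a ((r : ℕ) + 1) = ldS e u x a r := by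
  rw [N5_row, Shp.Yt_diag_one _ _ (hσ a) _ _ hr, one_mul]
  intro k hk
  rintro ⟨h1, h2⟩
  rcases (σ a).not_CR (bS u a) (hσ a) r r.2 hr with h3 | ⟨⟨n, h3⟩, h4⟩
  · exact h3.2.2.2 h1
  · have hk' : (k : ℕ) < r := hk
    exact N5_eps (σ a) (bS u a) n k h3 h2 (by omega)

/-- rows of exponent zero with an entry of the reference point -/
private theorem N5_row_C {R : Type} [CommRing R] (e : (Σ a, (σ a).Idx) ≃ Fin N)
    (u : (Σ a, Fin (σ a).rk) → ℕ) (x : Fin N → R) (a : Fin s) (p : (σ a).Idx)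
    (hp : (σ a).isC (bS u a) p) (hv : (σ a).vv (bS u a) ((σ a).pr p) = 0) :
    ldS e u x a (((σ a).pr p : ℕ) + 1) = x (e ⟨a, p⟩) * ldS e u x a ((σ a).pr p) := by
  rw [N5_row, Shp.Yt_diag _ _ _ p hp _ rfl]
  intro k hk
  rintro ⟨h1, h2⟩
  have := (σ a).unp_lt (bS u a) k ((σ a).pr p) ((σ a).pr p).2 hk h2 h1
  omega

private theorem N5_ev {ι : Type} (v : ι → ℂ) (f : MvPolynomial ι ℂ) : aeval v f = eval v f := by
  rw [aeval_def, Algebra.algebraMap_self, eval₂_id]

private theorem N5_muw2 (τ : Shp) (b : ℕ → ℕ) (p : τ.Idx) (hp : τ.isC b p) :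
    τ.muw b p = 2 * τ.vv b (τ.pr p) := by
  unfold Shp.muw
  rw [Shp.isC_vv _ _ _ hp]
  ring

private theorem N5_pow (g : Polynomial ℂ) (hg : g ≠ 0) (k : ℕ) :
    (g ^ k).rootMultiplicity 0 = k * g.rootMultiplicity 0 := by
  induction k with
  | zero =>
    rw [pow_zero, zero_mul, ← Polynomial.C_1, Polynomial.rootMultiplicity_C]
  | succ k ih =>
    rw [pow_succ, Polynomial.rootMultiplicity_mul (mul_ne_zero (pow_ne_zero _ hg) hg), ih]
    ring

private theorem N5_prod {ι : Type} (S : Finset ι) (g : ι → Polynomial ℂ) (k : ι → ℕ)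
    (hg : ∀ i, g i ≠ 0) : (∏ i ∈ S, g i ^ k i).rootMultiplicity 0 =
      ∑ i ∈ S, k i * (g i).rootMultiplicity 0 := by
  classical
  induction S using Finset.induction_on with
  | empty =>
    rw [Finset.prod_empty, Finset.sum_empty, ← Polynomial.C_1, Polynomial.rootMultiplicity_C]
  | insert i S hi ih =>
    rw [Finset.prod_insert hi, Finset.sum_insert hi, Polynomial.rootMultiplicity_mul, ih,
      N5_pow _ (hg i)]
    exact mul_ne_zero (pow_ne_zero _ (hg i))
      (Finset.prod_ne_zero_iff.2 fun j _ => pow_ne_zero _ (hg j))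

private theorem N5_ref_om (e : (Σ a, (σ a).Idx) ≃ Fin N) (u : (Σ a, Fin (σ a).rk) → ℕ)
    (i : Fin N) (z : Fin s → ℕ → ℂ) (hi : FPS e u z i ≠ 0) : omS e u i = 0 := by
  by_cases hc : (σ (e.symm i).1).isC (bS u (e.symm i).1) (e.symm i).2
  · exact (σ (e.symm i).1).isC_om _ _ hc
  · exact absurd (if_neg hc) hi

theorem xx_nonvan (h : Dat e I A u n₀) (δ : ℂ) (hδ : δ ≠ 0) (d : ℕ) (x : Fin N → ℂ)
    (hx : x ∈ XX e I u δ n₀ d) (a : Fin s) (r : ℕ) (hr : r ≤ (σ a).row) :
    ldS e u x a r ≠ 0 := by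
  classical
  have hle : ∀ a, (σ a).Le := fun a => h.le a
  obtain ⟨c, hc⟩ : ∃ c : Fin N → ℂ, c = FPS e u fun _ _ => δ := ⟨_, rfl⟩
  obtain ⟨xp, hxp⟩ : ∃ xp : Fin N → Polynomial ℂ, xp = fun i =>
    (1 - Polynomial.X) * Polynomial.C (x i) + Polynomial.X * Polynomial.C (c i) := ⟨_, rfl⟩
  have hev : ∀ (ε : ℂ) (i : Fin N), (Polynomial.evalRingHom ε) (xp i) =
      (1 - ε) * x i + ε * c i := by
    intro ε i
    rw [hxp]
    simp only [Polynomial.coe_evalRingHom, Polynomial.eval_add, Polynomial.eval_mul,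
      Polynomial.eval_sub, Polynomial.eval_one, Polynomial.eval_X, Polynomial.eval_C]
  have hld : ∀ (ε : ℂ) (a : Fin s) (r : ℕ),
      (ldS e u xp a r).eval ε =
        ldS e u (fun i => (1 - ε) * x i + ε * c i) a r := by
    intro ε a r
    rw [← Polynomial.coe_evalRingHom, ← ldS_map (Polynomial.evalRingHom ε) e u xp a r]
    simp only [hev]
  have hne : ∀ a, ∀ r ≤ (σ a).row, ldS e u xp a r ≠ 0 := by
    intro a r hr h0
    have h1 := hld 1 a r
    rw [h0, Polynomial.eval_zero] at h1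
    have h2 : (fun i => (1 - (1 : ℂ)) * x i + 1 * c i) = c := by
      funext i
      ring
    rw [h2, hc] at h1
    exact ldS_ref_ne e hle u δ hδ a r hr h1.symm
  obtain ⟨G, hG⟩ : ∃ G : Polynomial ℂ, G = ∏ a : Fin s, ∏ r ∈ Finset.range ((σ a).row + 1),
    ldS e u xp a r := ⟨_, rfl⟩
  have hG0 : G ≠ 0 := by
    rw [hG]
    refine Finset.prod_ne_zero_iff.2 fun a _ => Finset.prod_ne_zero_iff.2 fun r hr => ?_
    rw [Finset.mem_range] at hr
    exact hne a r (by omega)
  -- the rational vector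
  have hy0 := rank_zero h (fun c : (Σ a, Fin (σ a).row) =>
    (((ldS e u xp c.1 ((c.2 : ℕ) + 1)).rootMultiplicity 0 : ℕ) : ℚ) -
      ((ldS e u xp c.1 c.2).rootMultiplicity 0 : ℕ)) (by
      rintro ⟨a', r'⟩ hcr
      show (((ldS e u xp a' ((r' : ℕ) + 1)).rootMultiplicity 0 : ℕ) : ℚ) -
        ((ldS e u xp a' r').rootMultiplicity 0 : ℕ) = 0
      by_cases hC : CRS u ⟨a', r'⟩
      · have hv : vS u ⟨a', r'⟩ = 0 := by
          rcases hcr with hcr | hcr
          · exact absurd hC hcr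
          · exact hcr
        obtain ⟨p, hp, hpr⟩ := ((σ a').CR_or (bS u a') (hle a') r' r'.2).2 hC
        have hv' : (σ a').vv (bS u a') ((σ a').pr p) = 0 := by
          rw [hpr]
          exact hv
        have h1 := N5_row_C e u xp a' p hp hv'
        rw [hpr] at h1
        have h2 : x (e ⟨a', p⟩) = δ := by
          rw [hx.2.1 (e ⟨a', p⟩) (by rw [N5_muw, N5_muw2 _ _ _ hp, hv']), N5_FPS]
          unfold Shp.FP
          rw [if_pos hp]
        have h3 : c (e ⟨a', p⟩) = δ := by
          rw [hc, N5_FPS]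
          unfold Shp.FP
          rw [if_pos hp]
        have h4 : xp (e ⟨a', p⟩) = Polynomial.C δ := by
          rw [hxp]
          show (1 - Polynomial.X) * Polynomial.C (x (e ⟨a', p⟩)) +
            Polynomial.X * Polynomial.C (c (e ⟨a', p⟩)) = Polynomial.C δ
          rw [h2, h3]
          ring
        rw [h1, h4, Polynomial.rootMultiplicity_mul
          (mul_ne_zero (Polynomial.C_ne_zero.2 hδ) (hne a' r' r'.2.le)),
          Polynomial.rootMultiplicity_C, zero_add, sub_self]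
      · rw [N5_row_one e hle u xp a' r' hC, sub_self]) (by
      intro κ hκ
      obtain ⟨f, hf, hw, hfe⟩ := ef_hom e I h.stable u κ hκ.1
      rw [hκ.2] at hw
      obtain ⟨F, hF⟩ : ∃ F : Polynomial ℂ, F = aeval xp f := ⟨_, rfl⟩
      have hFe : ∀ ε : ℂ, F.eval ε = eval (fun i => (1 - ε) * x i + ε * c i) f := by
        intro ε
        have h1 : (Polynomial.aeval ε) (aeval xp f) =
            aeval (fun i => (Polynomial.aeval ε) (xp i)) f :=
          MvPolynomial.comp_aeval_apply (φ := Polynomial.aeval ε) (f := xp) f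
        have h2 : ∀ i, (Polynomial.aeval ε) (xp i) = (1 - ε) * x i + ε * c i := by
          intro i
          rw [← hev ε i, Polynomial.coe_aeval_eq_eval, Polynomial.coe_evalRingHom]
        rw [hF, ← Polynomial.coe_aeval_eq_eval, h1]
        simp only [h2]
        rw [MvPolynomial.aeval_eq_eval]
      obtain ⟨P1, hP1⟩ : ∃ P : Polynomial ℂ, P = ∏ c : (Σ a, Fin (σ a).row),
        ldS e u xp c.1 c.2 ^ κ c := ⟨_, rfl⟩
      obtain ⟨P2, hP2⟩ : ∃ P : Polynomial ℂ, P = ∏ c : (Σ a, Fin (σ a).row),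
        ldS e u xp c.1 ((c.2 : ℕ) + 1) ^ κ c := ⟨_, rfl⟩
      have hFP : F * P1 = P2 := by
        have h1 : (F * P1 - P2) * G = 0 := by
          refine Polynomial.funext fun ε => ?_
          rw [Polynomial.eval_mul, Polynomial.eval_zero]
          by_cases hg : G.eval ε = 0
          · rw [hg, mul_zero]
          · rw [Polynomial.eval_sub, Polynomial.eval_mul, hFe]
            have hΔ : ∀ a, ∀ r ≤ (σ a).row,
                ldS e u (fun i => (1 - ε) * x i + ε * c i) a r ≠ 0 := by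
              intro a r hr h0
              apply hg
              rw [hG, Polynomial.eval_prod]
              refine Finset.prod_eq_zero (Finset.mem_univ a) ?_
              rw [Polynomial.eval_prod]
              refine Finset.prod_eq_zero (Finset.mem_range.2 (Nat.lt_succ_of_le hr)) ?_
              rw [hld, h0]
            have hx' : ∀ i, (1 - ε) * x i + ε * c i ≠ 0 → omS e u i = 0 := by
              intro i hi
              by_cases h1 : x i = 0
              · refine N5_ref_om e u i (fun _ _ => δ) fun h2 => hi ?_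
                rw [h1, hc, h2]
                ring
              · exact (hx.1 i h1).1
            rw [eval_quo h.toDat0 _ hx' hΔ f hf (2 * n₀) le_rfl hw, if_pos rfl, ← N5_ev,
              hfe (R := ℂ), hP1, hP2, Polynomial.eval_prod, Polynomial.eval_prod,
              ← Finset.prod_mul_distrib]
            have h3 : ∀ c' : (Σ a, Fin (σ a).row),
                (ldS e u (fun i => (1 - ε) * x i + ε * c i) c'.1 ((c'.2 : ℕ) + 1) /
                  ldS e u (fun i => (1 - ε) * x i + ε * c i) c'.1 c'.2) ^ κ c' *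
                (ldS e u xp c'.1 c'.2 ^ κ c').eval ε =
                (ldS e u xp c'.1 ((c'.2 : ℕ) + 1) ^ κ c').eval ε := by
              intro c'
              rw [Polynomial.eval_pow, Polynomial.eval_pow, hld, hld, ← mul_pow,
                div_mul_cancel₀ _ (hΔ c'.1 c'.2 c'.2.2.le)]
            rw [Finset.prod_congr rfl fun c' _ => h3 c', sub_self, zero_mul]
        exact sub_eq_zero.1 ((mul_eq_zero.1 h1).resolve_right hG0)
      have hF0 : F.eval 0 ≠ 0 := by
        rw [hFe]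
        have h4 : (fun i => (1 - (0 : ℂ)) * x i + 0 * c i) = x := by
          funext i
          ring
        rw [h4, hx.2.2 f hf (2 * n₀) le_rfl hw, if_pos rfl, ← N5_ev, hfe (R := ℂ)]
        exact Finset.prod_ne_zero_iff.2 fun c' _ => pow_ne_zero _ hδ
      have hne1 : ∀ c' : (Σ a, Fin (σ a).row), ldS e u xp c'.1 c'.2 ≠ 0 := fun c' =>
        hne c'.1 c'.2 c'.2.2.le
      have hne2 : ∀ c' : (Σ a, Fin (σ a).row), ldS e u xp c'.1 ((c'.2 : ℕ) + 1) ≠ 0 := fun c' =>
        hne c'.1 _ c'.2.2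
      have hP1ne : P1 ≠ 0 := by
        rw [hP1]
        exact Finset.prod_ne_zero_iff.2 fun c' _ => pow_ne_zero _ (hne1 c')
      have hFne : F ≠ 0 := by
        intro h0
        rw [h0, Polynomial.eval_zero] at hF0
        exact hF0 rfl
      have hm := congrArg (fun q : Polynomial ℂ => q.rootMultiplicity 0) hFP
      have hm' : (F * P1).rootMultiplicity 0 = P2.rootMultiplicity 0 := hm
      rw [Polynomial.rootMultiplicity_mul (mul_ne_zero hFne hP1ne),
        Polynomial.rootMultiplicity_eq_zero (p := F) (x := 0) hF0, zero_add, hP1, hP2,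
        N5_prod _ _ _ hne1, N5_prod _ _ _ hne2] at hm'
      have hm2 : (∑ c' : (Σ a, Fin (σ a).row),
          (κ c' : ℚ) * ((ldS e u xp c'.1 c'.2).rootMultiplicity 0 : ℕ)) =
          ∑ c' : (Σ a, Fin (σ a).row),
          (κ c' : ℚ) * ((ldS e u xp c'.1 ((c'.2 : ℕ) + 1)).rootMultiplicity 0 : ℕ) := by
        exact_mod_cast hm'
      rw [Finset.sum_congr rfl fun c' _ => mul_sub _ _ _, Finset.sum_sub_distrib, ← hm2,
        sub_self])
  have hstep : ∀ r' < (σ a).row, (ldS e u xp a (r' + 1)).rootMultiplicity 0 =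
      (ldS e u xp a r').rootMultiplicity 0 := by
    intro r' hr'
    have h1 := congrFun hy0 ⟨a, ⟨r', hr'⟩⟩
    have h2 : (((ldS e u xp a (r' + 1)).rootMultiplicity 0 : ℕ) : ℚ) -
        ((ldS e u xp a r').rootMultiplicity 0 : ℕ) = 0 := h1
    exact_mod_cast sub_eq_zero.1 h2
  have hzero : ∀ r' ≤ (σ a).row, (ldS e u xp a r').rootMultiplicity 0 = 0 := by
    intro r' 
    induction r' with
    | zero =>
      intro _
      have h1 : ldS e u xp a 0 = 1 := ldm_zero _
      rw [h1, ← Polynomial.C_1, Polynomial.rootMultiplicity_C]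
    | succ r' ih =>
      intro hr'
      rw [hstep r' (by omega), ih (by omega)]
  have h1 := hzero r hr
  rw [Polynomial.rootMultiplicity_eq_zero_iff] at h1
  intro h0
  apply hne a r hr
  apply h1
  rw [Polynomial.IsRoot.def, hld]
  have h4 : (fun i => (1 - (0 : ℂ)) * x i + 0 * c i) = x := by
    funext i
    ring
  rw [h4]
  exact h0

end MotMono
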