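import Pool.Agent.Lib.MP_4e5fcd_ag.Cl.N0

/-! # CL-N6: divisibility of `d`

PROOF. Let `v k = vv k`. For `r ≤ row`: `2 n₀ ∣ 2 d * ∑ k < r, CR k, v k`: the leading minor of size `r` is not
zero, so there is a permutation `π` of `Fin r` with `∏ k, Yt (π k) k ≠ 0`. For `k` with `CR`, also `π k` has `CR`
(`Yt_off`, `not_CR`), and the entry comes from a coordinate `p` of `x`
with `x p ≠ 0` (`Yt_off`, `Yt_diag`, `CR_or`) and `muw p = v k + v (π k)` (for `π k = k`: `isC_vv`), so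
`2 n₀ ∣ d * (v k + v (π k))`; sum over the rows `k < r` with `CR`. So `n₀ ∣ d * v k` for all rows with `CR`. By `crow_CR`,
`crow_vv` `n₀ ∣ d * mue b i` for all `i < rk`, so `n₀ ∣ d * u c` for all `c`. Let `g = n₀ / gcd n₀ d`; then `g ∣ u c` for
all `c`, `g = 1` by `Prim`. -/

open MvPolynomial

namespace MotMono

variable {s N : ℕ} {σ : Fin s → Shp}

private theorem N6_unp (σ : Shp) (hσ : σ.Le) (b : ℕ → ℕ) (i k : ℕ) (hi : i < σ.row)
    (hk : k < σ.row) (hik : i ≠ k) (h1 : σ.unp b i) (h2 : σ.unp b k) : σ.CR b k := by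
  by_contra hc
  rcases σ.not_CR b hσ k hk hc with h | ⟨⟨n, rfl⟩, h⟩
  · exact h.2.2.2 h2
  · have hci : ¬ (Shp.eps false n).CR b i := by
      intro h3
      have h3' : lpp false b n i ∨ (false = true ∧ unq false b n i) := h3
      have h1' : unq false b n i := h1
      rcases h3' with h4 | h4
      · exact h1'.2.1 h4
      · exact absurd h4.1 (by simp)
    rcases (Shp.eps false n).not_CR b hσ i hi hci with h3 | ⟨_, h3⟩
    · exact h3.2.2.2 h1
    · omega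

private theorem N6_perm {n r : ℕ} (Y : Matrix (Fin n) (Fin n) ℂ) (hr : r ≤ n)
    (h : ldm Y r ≠ 0) : ∃ π : Equiv.Perm (Fin r), ∀ k, Y (Fin.castLE hr (π k)) (Fin.castLE hr k) ≠ 0 := by
  unfold ldm at h
  rw [dif_pos hr, Matrix.det_apply] at h
  obtain ⟨π, _, hπ⟩ := Finset.exists_ne_zero_of_sum_ne_zero h
  refine ⟨π, fun k hk => hπ ?_⟩
  have h0 : (∏ i : Fin r, (Y.submatrix (Fin.castLE hr) (Fin.castLE hr)) (π i) i) = 0 :=
    Finset.prod_eq_zero (Finset.mem_univ k) hk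
  rw [h0, smul_zero]

open Classical in
private theorem N6_sum (σ : Shp) (hσ : σ.Le) (b : ℕ → ℕ) (y : σ.Idx → ℂ) (n₀ d : ℕ)
    (hy : ∀ p, y p ≠ 0 → 2 * n₀ ∣ d * σ.muw b p) (r : ℕ) (hr : r ≤ σ.row)
    (h : ldm (σ.Yt b y) r ≠ 0) :
    n₀ ∣ d * ∑ k ∈ (Finset.range r).filter (fun k => σ.CR b k), σ.vv b k := by
  obtain ⟨π, hπ⟩ := N6_perm _ hr h
  set S : Finset (Fin r) := Finset.univ.filter (fun k : Fin r => σ.CR b k) with hS
  have hmem : ∀ k : Fin r, k ∈ S ↔ σ.CR b k := fun k => by simp [hS]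
  have hπS : ∀ k ∈ S, π k ∈ S := by
    intro k hk
    by_cases hkk : π k = k
    · rw [hkk]; exact hk
    · rw [hmem]
      have hne : Fin.castLE hr (π k) ≠ Fin.castLE hr k := fun h' =>
        hkk (Fin.castLE_injective hr h')
      obtain ⟨h1, h2, _⟩ := σ.Yt_off b y _ _ hne (hπ k)
      exact N6_unp σ hσ b k (π k) (lt_of_lt_of_le k.2 hr) (lt_of_lt_of_le (π k).2 hr)
        (fun h' => hkk (Fin.ext h'.symm)) h2 h1
  have hdvd : ∀ k ∈ S, 2 * n₀ ∣ d * (σ.vv b (π k) + σ.vv b k) := by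
    intro k hk
    by_cases hkk : π k = k
    · have hC := (hmem k).1 hk
      have hkr : (k : ℕ) < σ.row := lt_of_lt_of_le k.2 hr
      obtain ⟨p, hp, hpk⟩ := (σ.CR_or b hσ k hkr).2 hC
      have h1 := σ.Yt_diag b y p hp (Fin.castLE hr k) (by simpa using hpk.symm)
      have h2 := hπ k
      rw [hkk, h1] at h2
      have h3 := hy p h2
      have h4 : σ.muw b p = σ.vv b k + σ.vv b k := by
        unfold Shp.muw
        rw [σ.isC_vv b p hp, hpk]
      rw [hkk, ← h4]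
      exact h3
    · have hne : Fin.castLE hr (π k) ≠ Fin.castLE hr k := fun h' =>
        hkk (Fin.castLE_injective hr h')
      obtain ⟨_, _, p, _, hp, hpp⟩ := σ.Yt_off b y _ _ hne (hπ k)
      have h3 := hy p hp
      have h4 : σ.muw b p = σ.vv b (π k) + σ.vv b k := by
        unfold Shp.muw
        rcases hpp with ⟨h5, h6⟩ | ⟨h5, h6⟩
        · rw [h5, h6]; rfl
        · rw [h5, h6, add_comm]; rfl
      rw [← h4]
      exact h3
  have himg : S.image π = S := by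
    apply Finset.eq_of_subset_of_card_le
    · intro j hj
      obtain ⟨k, hk, rfl⟩ := Finset.mem_image.1 hj
      exact hπS k hk
    · rw [Finset.card_image_of_injective _ π.injective]
  have hsum : ∑ k ∈ S, σ.vv b (π k) = ∑ k ∈ S, σ.vv b k := by
    conv_rhs => rw [← himg]
    rw [Finset.sum_image fun a _ c _ h' => π.injective h']
  have hS2 : ∑ k ∈ (Finset.range r).filter (fun k => σ.CR b k), σ.vv b k =
      ∑ k ∈ S, σ.vv b k := by
    rw [Finset.sum_filter, Finset.sum_range, hS, Finset.sum_filter]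
  have h5 : 2 * n₀ ∣ ∑ k ∈ S, d * (σ.vv b (π k) + σ.vv b k) := Finset.dvd_sum hdvd
  rw [← Finset.mul_sum, Finset.sum_add_distrib, hsum] at h5
  rw [hS2]
  have h6 : d * (∑ k ∈ S, σ.vv b k + ∑ k ∈ S, σ.vv b k) = 2 * (d * ∑ k ∈ S, σ.vv b k) := by
    ring
  rw [h6] at h5
  exact Nat.dvd_of_mul_dvd_mul_left (by norm_num) h5

private theorem N6_row (σ : Shp) (hσ : σ.Le) (b : ℕ → ℕ) (y : σ.Idx → ℂ) (n₀ d : ℕ)
    (hy : ∀ p, y p ≠ 0 → 2 * n₀ ∣ d * σ.muw b p)
    (h : ∀ r ≤ σ.row, ldm (σ.Yt b y) r ≠ 0) (k : ℕ) (hk : σ.CR b k) : n₀ ∣ d * σ.vv b k := by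
  classical
  have hk' := σ.CR_lt_row b k hk
  have h1 := N6_sum σ hσ b y n₀ d hy k hk'.le (h k hk'.le)
  have h2 := N6_sum σ hσ b y n₀ d hy (k + 1) hk' (h (k + 1) hk')
  rw [Finset.range_add_one, Finset.filter_insert, if_pos hk, Finset.sum_insert (by simp),
    mul_add] at h2
  exact (Nat.dvd_add_left h1).1 h2

theorem dvd_of_levels (e : (Σ a, (σ a).Idx) ≃ Fin N) (hσ : ∀ a, (σ a).Le)
    (u : (Σ a, Fin (σ a).rk) → ℕ) (hp : Prim u) (n₀ : ℕ) (hn : 0 < n₀) (d : ℕ)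
    (x : Fin N → ℂ) (hx : ∀ i, x i ≠ 0 → 2 * n₀ ∣ d * muwS e u i)
    (hΔ : ∀ a, ∀ r ≤ (σ a).row, ldS e u x a r ≠ 0) : n₀ ∣ d := by
  have h1 : ∀ a k, (σ a).CR (bS u a) k → n₀ ∣ d * (σ a).vv (bS u a) k := by
    intro a k hk
    refine N6_row (σ a) (hσ a) (bS u a) (fun p => x (e ⟨a, p⟩)) n₀ d ?_ (hΔ a) k hk
    intro p hp'
    have h2 := hx _ hp'
    have h3 : muwS e u (e ⟨a, p⟩) = (σ a).muw (bS u a) p := by
      unfold muwS
      rw [Equiv.symm_apply_apply]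
    rwa [h3] at h2
  have h2 : ∀ a i, i < (σ a).rk → n₀ ∣ d * mue (bS u a) i := by
    intro a i hi
    rw [← (σ a).crow_vv (bS u a) (hσ a) i hi]
    exact h1 a _ ((σ a).crow_CR (bS u a) (hσ a) i hi)
  have h3 : ∀ a i, i < (σ a).rk → n₀ ∣ d * bS u a i := by
    intro a i hi
    cases i with
    | zero =>
      have := h2 a 0 hi
      simpa [mue] using this
    | succ i =>
      have h4 := h2 a i (by omega)
      have h5 := h2 a (i + 1) hi
      have h6 : mue (bS u a) (i + 1) = mue (bS u a) i + bS u a (i + 1) := by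
        unfold mue
        rw [Finset.sum_range_succ _ (i + 1)]
      rw [h6, mul_add] at h5
      exact (Nat.dvd_add_right h4).1 h5
  have h4 : ∀ c, n₀ ∣ d * u c := by
    rintro ⟨a, i⟩
    have h5 := h3 a i i.2
    have h6 : bS u a i = u ⟨a, i⟩ := by
      unfold bS part extb
      rw [dif_pos i.2]
    rwa [h6] at h5
  have hg : 0 < Nat.gcd n₀ d := Nat.gcd_pos_of_pos_left _ hn
  have h5 : n₀ / Nat.gcd n₀ d = 1 := by
    apply hp
    intro c
    have h6 : Nat.Coprime (n₀ / Nat.gcd n₀ d) (d / Nat.gcd n₀ d) :=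
      Nat.coprime_div_gcd_div_gcd hg
    refine h6.dvd_of_dvd_mul_left ?_
    obtain ⟨n', hn'⟩ := Nat.gcd_dvd_left n₀ d
    obtain ⟨d', hd'⟩ := Nat.gcd_dvd_right n₀ d
    have h7 := h4 c
    have e1 : n₀ / Nat.gcd n₀ d = n' := Nat.div_eq_of_eq_mul_right hg hn'
    have e2 : d / Nat.gcd n₀ d = d' := Nat.div_eq_of_eq_mul_right hg hd'
    rw [e1, e2]
    obtain ⟨m, hm⟩ := h7
    refine ⟨m, ?_⟩
    apply Nat.eq_of_mul_eq_mul_left hg
    calc Nat.gcd n₀ d * (d' * u c) = (Nat.gcd n₀ d * d') * u c := by ring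
      _ = d * u c := by rw [← hd']
      _ = n₀ * m := hm
      _ = (Nat.gcd n₀ d * n') * m := by rw [← hn']
      _ = Nat.gcd n₀ d * (n' * m) := by ring
  have h6 : n₀ = Nat.gcd n₀ d := by
    have h7 := Nat.div_mul_cancel (Nat.gcd_dvd_left n₀ d)
    rw [h5, one_mul] at h7
    exact h7.symm
  rw [h6]
  exact Nat.gcd_dvd_right n₀ d

end MotMono
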