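import Pool.Agent.Lib.MP_4e5fcd_ag.Cl.N5
import Pool.Agent.Lib.MP_4e5fcd_ag.Cl.N6

/-! # CL-N7: the structure of the set `XX`

PROOF. (→) `offOk`: for a coordinate not `isCS` with `x i ≠ 0`: `muwS i ≠ 0` since otherwise `x i = FPS δ i = 0`. Nonvanishing:
`xx_nonvan`. `quoS ∈ GamS`: in rows without `CR` the quotient is `1` (see `CL-N5`), in rows with `CR` and `vS = 0` it is
`δ` (the leading submatrix is that of `FPS δ`, `Yt_FP`, `ldm_diagonal`); for `κ ∈ EFN` take `f` of `ef_hom`: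
`∏ (ldS (r + 1) / ldS r) ^ κ = eval x f = eval (FPS δ) f = ∏ δ ^ κ` (`eval_quo`).
(←) Level conditions: a coordinate `isCS` has `omS = 0` and `muwS = 2 vS` (of its row, `isC_om`, `isC_vv`), `vS ≤ n₀`
(`vS_le`) and `n₀ ∣ d`. `muwS i = 0`: not `isCS`: `x i = 0` by `offOk`; `isCS`, in row `r` with `vS = 0`: the row `r` of `Yt` has
no other entries before the diagonal (they would come from coordinates of weight `0` not `isCS`), so
`x i = ldS (r + 1) / ldS r = δ` (`ldm_succ`, `Yt_diag`). Values: for `f ∈ I` homogeneous of weight `j ≤ 2 n₀` use `eval_quo`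
(for `x` and for `FPS δ`); for `j = 2 n₀` expand `fpR e u f`: its monomials are in `EFN` (`ef_of_support`, `fpR_wh`), and
there `∏ (ldS (r + 1) / ldS r) ^ κ = ∏ δ ^ κ` since `quoS ∈ GamS` (`κ = 0` in rows without `CR`). -/

open MvPolynomial

namespace MotMono

variable {s N : ℕ} {σ : Fin s → Shp} {e : (Σ a, (σ a).Idx) ≃ Fin N}
  {I : Ideal (MvPolynomial (Fin N) ℂ)} {A : Finset ((Σ a, Fin (σ a).rk) → ℕ)}
  {u : (Σ a, Fin (σ a).rk) → ℕ} {n₀ : ℕ}

private theorem N7_om (e : (Σ a, (σ a).Idx) ≃ Fin N) (u : (Σ a, Fin (σ a).rk) → ℕ) (a : Fin s)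
    (p : (σ a).Idx) : omS e u (e ⟨a, p⟩) = (σ a).om (bS u a) p := by
  unfold omS
  rw [e.symm_apply_apply]

private theorem N7_muw (e : (Σ a, (σ a).Idx) ≃ Fin N) (u : (Σ a, Fin (σ a).rk) → ℕ) (a : Fin s)
    (p : (σ a).Idx) : muwS e u (e ⟨a, p⟩) = (σ a).muw (bS u a) p := by
  unfold muwS
  rw [e.symm_apply_apply]

private theorem N7_isC (e : (Σ a, (σ a).Idx) ≃ Fin N) (u : (Σ a, Fin (σ a).rk) → ℕ) (a : Fin s)
    (p : (σ a).Idx) : isCS e u (e ⟨a, p⟩) ↔ (σ a).isC (bS u a) p := by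
  unfold isCS
  rw [e.symm_apply_apply]

private theorem N7_FPS (e : (Σ a, (σ a).Idx) ≃ Fin N) (u : (Σ a, Fin (σ a).rk) → ℕ) (a : Fin s)
    (p : (σ a).Idx) (z : Fin s → ℕ → ℂ) : FPS e u z (e ⟨a, p⟩) = (σ a).FP (bS u a) (z a) p := by
  unfold FPS ptS
  rw [e.symm_apply_apply]

/-- a row without further entries -/
private theorem N7_row (e : (Σ a, (σ a).Idx) ≃ Fin N) (u : (Σ a, Fin (σ a).rk) → ℕ) (x : Fin N → ℂ)
    (a : Fin s) (r : Fin (σ a).row)
    (h : ∀ k : Fin (σ a).row, k < r → ¬ ((σ a).unp (bS u a) r ∧ (σ a).unp (bS u a) k)) :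
    ldS e u x a ((r : ℕ) + 1) =
      (σ a).Yt (bS u a) (fun p => x (e ⟨a, p⟩)) r r * ldS e u x a r := by
  unfold ldS
  refine ldm_succ _ r fun k hk => ?_
  by_contra hne
  obtain ⟨h1, h2, -⟩ := (σ a).Yt_off (bS u a) _ r k (ne_of_gt hk) hne
  exact h k hk ⟨h1, h2⟩

/-- rows without entries of the reference point -/
private theorem N7_row_one (e : (Σ a, (σ a).Idx) ≃ Fin N) (hσ : ∀ a, (σ a).Le)
    (u : (Σ a, Fin (σ a).rk) → ℕ) (x : Fin N → ℂ) (a : Fin s) (r : Fin (σ a).row)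
    (hr : ¬ (σ a).CR (bS u a) r) : ldS e u x a ((r : ℕ) + 1) = ldS e u x a r := by
  rw [N7_row, Shp.Yt_diag_one _ _ (hσ a) _ _ hr, one_mul]
  intro k hk
  rintro ⟨h1, h2⟩
  rcases (σ a).not_CR (bS u a) (hσ a) r r.2 hr with h3 | ⟨⟨n, h3⟩, h4⟩
  · exact h3.2.2.2 h1
  · have h5 : ∀ (τ : Shp) (b : ℕ → ℕ) (n i : ℕ), τ = Shp.eps false n → τ.unp b i → i + 1 < τ.row →
        False := by
      intro τ b n i hτ hi hin
      subst hτ
      obtain ⟨h6, h7, h8⟩ := (hi : unq false b n i)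
      have hin' : i + 1 < n := hin
      unfold lpp at h7 h8
      simp only [Bool.false_eq_true, if_false] at h7 h8
      by_cases h9 : i % 2 = 0
      · exact h7 ⟨hin', h9⟩
      · exact h8 ⟨by omega, by omega, by omega⟩
    have hk' : (k : ℕ) < r := hk
    exact h5 (σ a) (bS u a) n k h3 h2 (by omega)

/-- rows of exponent zero with an entry of the reference point -/
private theorem N7_row_C (e : (Σ a, (σ a).Idx) ≃ Fin N) (u : (Σ a, Fin (σ a).rk) → ℕ)
    (x : Fin N → ℂ) (a : Fin s) (p : (σ a).Idx) (hp : (σ a).isC (bS u a) p)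
    (hv : (σ a).vv (bS u a) ((σ a).pr p) = 0) :
    ldS e u x a (((σ a).pr p : ℕ) + 1) = x (e ⟨a, p⟩) * ldS e u x a ((σ a).pr p) := by
  rw [N7_row, Shp.Yt_diag _ _ _ p hp _ rfl]
  intro k hk
  rintro ⟨h1, h2⟩
  have := (σ a).unp_lt (bS u a) k ((σ a).pr p) ((σ a).pr p).2 hk h2 h1
  omega

private theorem N7_quo (e : (Σ a, (σ a).Idx) ≃ Fin N) (u : (Σ a, Fin (σ a).rk) → ℕ) (δ : ℂ)
    (hδ : δ ≠ 0) (x : Fin N → ℂ) (κ : (Σ a, Fin (σ a).row) → ℕ)
    (hκ : ∀ c, ¬ CRS u c → κ c = 0) :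
    ∏ c, quoS e u δ x c ^ κ c = 1 ↔
      ∏ c : (Σ a, Fin (σ a).row), (ldS e u x c.1 ((c.2 : ℕ) + 1) / ldS e u x c.1 c.2) ^ κ c =
        ∏ c : (Σ a, Fin (σ a).row), δ ^ κ c := by
  have h1 : ∀ c : (Σ a, Fin (σ a).row), quoS e u δ x c ^ κ c =
      (ldS e u x c.1 ((c.2 : ℕ) + 1) / ldS e u x c.1 c.2) ^ κ c / δ ^ κ c := by
    intro c
    unfold quoS
    by_cases hc : CRS u c
    · rw [if_pos hc, div_pow _ δ]
    · rw [hκ c hc]
      simp
  simp only [h1]
  rw [Finset.prod_div_distrib, div_eq_one_iff_eq]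
  exact Finset.prod_ne_zero_iff.2 fun c _ => pow_ne_zero _ hδ

private theorem N7_ev {ι : Type} (v : ι → ℂ) (f : MvPolynomial ι ℂ) : aeval v f = eval v f := by
  rw [aeval_def, Algebra.algebraMap_self, eval₂_id]

private theorem N7_muw2 (τ : Shp) (b : ℕ → ℕ) (p : τ.Idx) (hp : τ.isC b p) :
    τ.muw b p = 2 * τ.vv b (τ.pr p) := by
  unfold Shp.muw
  rw [Shp.isC_vv _ _ _ hp]
  ring

theorem xx_dvd (h : Dat e I A u n₀) (δ : ℂ) (hδ : δ ≠ 0) (d : ℕ) (x : Fin N → ℂ)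
    (hx : x ∈ XX e I u δ n₀ d) : n₀ ∣ d :=
  dvd_of_levels e (fun a => h.le a) u h.prim n₀ h.pos d x
    (fun i hi => (hx.1 i hi).2.1) (fun a r hr => xx_nonvan h δ hδ d x hx a r hr)

theorem mem_XX_iff (h : Dat e I A u n₀) (δ : ℂ) (hδ : δ ≠ 0) (d : ℕ) (hd : n₀ ∣ d)
    (x : Fin N → ℂ) : x ∈ XX e I u δ n₀ d ↔ offOk e u n₀ d x ∧
      (∀ a, ∀ r ≤ (σ a).row, ldS e u x a r ≠ 0) ∧ quoS e u δ x ∈ GamS e I u n₀ := by
  have hle : ∀ a, (σ a).Le := fun a => h.le a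
  constructor
  · intro hx
    have hΔ : ∀ a, ∀ r ≤ (σ a).row, ldS e u x a r ≠ 0 := fun a r hr =>
      xx_nonvan h δ hδ d x hx a r hr
    refine ⟨?_, hΔ, ?_, ?_, ?_⟩
    · intro i hi hxi
      obtain ⟨h1, h2, h3⟩ := hx.1 i hxi
      refine ⟨h1, h2, h3, ?_⟩
      intro h0
      apply hxi
      rw [hx.2.1 i h0]
      obtain ⟨⟨a, p⟩, rfl⟩ := e.surjective i
      rw [N7_isC] at hi
      rw [N7_FPS]
      unfold Shp.FP
      rw [if_neg hi]
    · intro c
      unfold quoS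
      refine div_ne_zero (div_ne_zero (hΔ _ _ c.2.2) (hΔ _ _ (le_of_lt c.2.2))) ?_
      split_ifs
      · exact hδ
      · exact one_ne_zero
    · rintro ⟨a, r⟩ hc
      unfold quoS
      have hne : ldS e u x a r ≠ 0 := hΔ a r (le_of_lt r.2)
      by_cases hC : CRS u ⟨a, r⟩
      · rw [if_pos hC]
        have hv : vS u ⟨a, r⟩ = 0 := by
          rcases hc with hc | hc
          · exact absurd hC hc
          · exact hc
        obtain ⟨p, hp, hpr⟩ := ((σ a).CR_or (bS u a) (hle a) r r.2).2 hC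
        have hv' : (σ a).vv (bS u a) ((σ a).pr p) = 0 := by
          rw [hpr]
          exact hv
        have h1 := N7_row_C e u x a p hp hv'
        rw [hpr] at h1
        have h2 : x (e ⟨a, p⟩) = δ := by
          rw [hx.2.1 (e ⟨a, p⟩) (by rw [N7_muw, N7_muw2 _ _ _ hp, hv']), N7_FPS]
          unfold Shp.FP
          rw [if_pos hp]
        show ldS e u x a ((r : ℕ) + 1) / ldS e u x a r / δ = 1
        rw [h1, h2, mul_div_assoc, div_self hne, mul_one, div_self hδ]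
      · rw [if_neg hC]
        show ldS e u x a ((r : ℕ) + 1) / ldS e u x a r / 1 = 1
        rw [N7_row_one e hle u x a r hC, div_self hne, div_one]
    · intro κ hκ
      rw [N7_quo e u δ hδ x κ hκ.1.1]
      obtain ⟨f, hf, hw, hev⟩ := ef_hom e I h.stable u κ hκ.1
      rw [hκ.2] at hw
      have h1 := hx.2.2 f hf (2 * n₀) le_rfl hw
      rw [if_pos rfl] at h1
      have h2 := eval_quo h.toDat0 x (fun i hi => (hx.1 i hi).1) hΔ f hf (2 * n₀) le_rfl hw
      rw [if_pos rfl] at h2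
      rw [h1] at h2
      have h3 := hev (R := ℂ) fun a r => ldS e u x a (r + 1) / ldS e u x a r
      have h4 := hev (R := ℂ) fun _ _ => δ
      rw [N7_ev] at h3 h4
      rw [← h3, ← h4, h2]
  · rintro ⟨hoff, hΔ, hq0, hq1, hqκ⟩
    have hC : ∀ (a : Fin s) (p : (σ a).Idx), (σ a).isC (bS u a) p →
        CRS u ⟨a, (σ a).pr p⟩ := fun a p hp =>
      ((σ a).CR_or (bS u a) (hle a) _ ((σ a).pr p).2).1 ⟨p, hp, rfl⟩
    have hlev : ∀ i, x i ≠ 0 → omS e u i = 0 ∧ 2 * n₀ ∣ d * muwS e u i ∧ muwS e u i ≤ 2 * n₀ := by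
      intro i hxi
      by_cases hi : isCS e u i
      · obtain ⟨⟨a, p⟩, rfl⟩ := e.surjective i
        rw [N7_isC] at hi
        rw [N7_om, N7_muw, N7_muw2 _ _ _ hi]
        refine ⟨Shp.isC_om _ _ _ hi, ?_, ?_⟩
        · obtain ⟨c, rfl⟩ := hd
          exact ⟨c * (σ a).vv (bS u a) ((σ a).pr p), by ring⟩
        · have := vS_le h ⟨a, (σ a).pr p⟩ (hC a p hi)
          have h2 : (σ a).vv (bS u a) ((σ a).pr p) ≤ n₀ := this
          omega
      · obtain ⟨h1, h2, h3, -⟩ := hoff i hi hxi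
        exact ⟨h1, h2, h3⟩
    refine ⟨hlev, ?_, ?_⟩
    · intro i h0
      obtain ⟨⟨a, p⟩, rfl⟩ := e.surjective i
      rw [N7_FPS]
      unfold Shp.FP
      by_cases hi : (σ a).isC (bS u a) p
      · rw [if_pos hi]
        rw [N7_muw, N7_muw2 _ _ _ hi] at h0
        have hv : (σ a).vv (bS u a) ((σ a).pr p) = 0 := by omega
        have h1 := N7_row_C e u x a p hi hv
        have h2 := hq1 ⟨a, (σ a).pr p⟩ (Or.inr hv)
        unfold quoS at h2
        rw [if_pos (hC a p hi)] at h2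
        have hne : ldS e u x a ((σ a).pr p) ≠ 0 := hΔ a _ (le_of_lt ((σ a).pr p).2)
        have h3 : ldS e u x a (((σ a).pr p : ℕ) + 1) / ldS e u x a ((σ a).pr p) / δ = 1 := h2
        rw [h1, mul_div_assoc, div_self hne, mul_one, div_eq_one_iff_eq hδ] at h3
        exact h3
      · rw [if_neg hi]
        by_contra hne
        exact (hoff _ (by rw [N7_isC]; exact hi) hne).2.2.2 h0
    · intro f hf j hj hw
      rw [eval_quo h.toDat0 x (fun i hi => (hlev i hi).1) hΔ f hf j hj hw]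
      by_cases hj2 : j = 2 * n₀
      · rw [if_pos hj2, if_pos hj2]
        subst hj2
        rw [← N7_ev, ← N7_ev, ← aeval_fpR, ← aeval_fpR, aeval_def, aeval_def, eval₂_eq', eval₂_eq']
        refine Finset.sum_congr rfl fun κ hκ => ?_
        congr 1
        have h1 := ef_of_support e hle I h.stable u f hf κ hκ
        have h2 := fpR_wh e u f (2 * n₀) hw κ hκ
        have h3 : (fun c => κ c) ∈ EFN e I u n₀ := ⟨h1, by
          show ∑ c, κ c * vS u c = n₀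
          omega⟩
        exact (N7_quo e u δ hδ x (fun c => κ c) h1.1).1 (hqκ _ h3)
      · rw [if_neg hj2, if_neg hj2]

end MotMono
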