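import Pool.Agent.Lib.MP_4e5fcd_ag.Cl.CDefs
import Pool.Agent.Lib.MP_4e5fcd_ag.Cl.K0

/-! # CL-P1: facts on partners

PROOF. `lpp_disj`: symmetric: `b j = 0` gives `stt b j = stt b (j - 1)`, the distances of `j` and `j - 1` from it are
not both even. `unq_lt` (symmetric case): if `i` has no partner then its distance from `stt b i` is even
(otherwise `b i = 0`, and `lpp (i - 1)`), so `¬ lpp i` and `i + 1 < n` give `b (i + 1) ≠ 0`; `mue b` is monotone and
`mue b (i + 1) = mue b i + b (i + 1)`. (Skew-symmetric: only `n - 1` can have no partner.)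
`om_zero`: the weights `twp` are `j + 1` (left), `-j` (right), `0` (no partner).
All other statements are by cases on the shape (and `κ`). -/

open MvPolynomial

namespace MotMono

private theorem P1_lt (b : ℕ → ℕ) (n j : ℕ) :
    lpp true b n j ↔ j + 1 < n ∧ (j - stt b j) % 2 = 0 ∧ b (j + 1) = 0 := by
  unfold lpp
  simp

private theorem P1_lf (b : ℕ → ℕ) (n j : ℕ) : lpp false b n j ↔ j + 1 < n ∧ j % 2 = 0 := by
  unfold lpp
  simp

private theorem P1_stt_le (b : ℕ → ℕ) (j : ℕ) : stt b j ≤ j := Nat.findGreatest_le j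

private theorem P1_stt_self (b : ℕ → ℕ) (j : ℕ) (h : b j ≠ 0) : stt b j = j :=
  le_antisymm (P1_stt_le b j) (Nat.le_findGreatest le_rfl h)

private theorem P1_stt_pred (b : ℕ → ℕ) (j : ℕ) (hj : 0 < j) (h : b j = 0) :
    stt b j = stt b (j - 1) := by
  obtain ⟨k, rfl⟩ : ∃ k, j = k + 1 := ⟨j - 1, by omega⟩
  unfold stt
  rw [Nat.add_sub_cancel]
  exact Nat.findGreatest_of_not (by simpa using h)

private theorem P1_mue_mono (b : ℕ → ℕ) {i k : ℕ} (h : i ≤ k) : mue b i ≤ mue b k := by
  unfold mue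
  refine Finset.sum_le_sum_of_subset ?_
  intro x hx
  rw [Finset.mem_range] at hx ⊢
  omega

private theorem P1_mue_succ (b : ℕ → ℕ) (i : ℕ) : mue b (i + 1) = mue b i + b (i + 1) := by
  unfold mue
  rw [Finset.sum_range_succ _ (i + 1)]

/-- an odd distance from the start of the block: the left neighbour is a left partner -/
private theorem P1_odd (b : ℕ → ℕ) (n j : ℕ) (hj : j < n) (h : (j - stt b j) % 2 = 1) :
    0 < j ∧ lpp true b n (j - 1) := by
  have h0 : b j = 0 := by
    by_contra hne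
    rw [P1_stt_self b j hne] at h
    omega
  have hpos : 0 < j := by omega
  refine ⟨hpos, ?_⟩
  rw [P1_lt, ← P1_stt_pred b j hpos h0]
  refine ⟨by omega, by omega, ?_⟩
  rw [show j - 1 + 1 = j by omega]
  exact h0

private theorem P1_unq_false (b : ℕ → ℕ) (n j : ℕ) (h : unq false b n j) : j + 1 = n ∧ j % 2 = 0 := by
  obtain ⟨h1, h2, h3⟩ := h
  rw [P1_lf] at h2
  rw [P1_lf] at h3
  have h4 : j % 2 = 0 := by
    by_contra hne
    exact h3 ⟨by omega, by omega, by omega⟩
  refine ⟨?_, h4⟩
  by_contra hne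
  exact h2 ⟨by omega, h4⟩

theorem lpp_disj (κ : Bool) (b : ℕ → ℕ) (n j : ℕ) (h : lpp κ b n j) :
    ¬ (0 < j ∧ lpp κ b n (j - 1)) := by
  rintro ⟨hj, h'⟩
  cases κ with
  | true =>
    rw [P1_lt] at h h'
    obtain ⟨_, h2, _⟩ := h
    obtain ⟨_, h5, h6⟩ := h'
    rw [show j - 1 + 1 = j by omega] at h6
    rw [← P1_stt_pred b j hj h6] at h5
    have h7 : stt b j ≤ j - 1 := by
      rw [P1_stt_pred b j hj h6]
      exact P1_stt_le b _
    omega
  | false =>
    rw [P1_lf] at h h'
    omega

theorem lpp_or (κ : Bool) (b : ℕ → ℕ) (n j : ℕ) (hj : j < n) :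
    lpp κ b n j ∨ (0 < j ∧ lpp κ b n (j - 1)) ∨ unq κ b n j := by
  by_cases h1 : lpp κ b n j
  · exact Or.inl h1
  · by_cases h2 : 0 < j ∧ lpp κ b n (j - 1)
    · exact Or.inr (Or.inl h2)
    · exact Or.inr (Or.inr ⟨hj, h1, h2⟩)

/-- the weights of the indices -/
private theorem P1_tw_left (κ : Bool) (b : ℕ → ℕ) (n j : ℕ) (h : lpp κ b n j) :
    twp κ b n j = (j : ℤ) + 1 := by
  unfold twp
  rw [if_pos h]

private theorem P1_tw_right (κ : Bool) (b : ℕ → ℕ) (n j : ℕ) (h : 0 < j ∧ lpp κ b n (j - 1)) :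
    twp κ b n j = -(j : ℤ) := by
  unfold twp
  rw [if_neg (fun h' => lpp_disj κ b n j h' h), if_pos h]

private theorem P1_tw_unq (κ : Bool) (b : ℕ → ℕ) (n j : ℕ) (h : unq κ b n j) :
    twp κ b n j = 0 := by
  unfold twp
  rw [if_neg h.2.1, if_neg h.2.2]

namespace Shp

variable (σ : Shp) (b : ℕ → ℕ)

private theorem P1_ct1 (n c : ℕ) (h : 0 < c ∧ lpp true b n (c - 1)) :
    (eps true n).crow b c = c - 1 := by
  unfold crow
  simp only [if_true]
  exact if_pos h

private theorem P1_ct2 (n c : ℕ) (h : ¬ (0 < c ∧ lpp true b n (c - 1))) :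
    (eps true n).crow b c = c := by
  unfold crow
  simp only [if_true]
  exact if_neg h

theorem ok_le (hσ : σ.Ok) : σ.Le := by
  cases σ with
  | gen m n => exact hσ.2
  | eps κ n => trivial

theorem ok_rk (hσ : σ.Ok) : 0 < σ.rk := by
  cases σ with
  | gen m n => exact hσ.1
  | eps κ n =>
    have h : (if κ = true then 1 else 2) ≤ n := hσ
    show 0 < n / (if κ = true then 1 else 2)
    refine Nat.div_pos h ?_
    split_ifs <;> omega

theorem vv_mono (i k : ℕ) (h : i ≤ k) : σ.vv b i ≤ σ.vv b k :=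
  P1_mue_mono b (Nat.div_le_div_right h)

theorem unp_lt (i k : ℕ) (hk : k < σ.row) (h : i < k) (h1 : σ.unp b i) (h2 : σ.unp b k) :
    σ.vv b i < σ.vv b k := by
  cases σ with
  | gen m n => exact h1.elim
  | eps κ n =>
    have hk' : k < n := hk
    have h1' : unq κ b n i := h1
    cases κ with
    | true =>
      have hb : b (i + 1) ≠ 0 := by
        intro h0
        rcases Nat.mod_two_eq_zero_or_one (i - stt b i) with h3 | h3
        · exact h1'.2.1 ((P1_lt b n i).2 ⟨by omega, h3, h0⟩)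
        · exact h1'.2.2 (P1_odd b n i (by omega) h3)
      have e : ∀ j, (eps true n).vv b j = mue b j := fun j => by
        show mue b (j / 1) = mue b j
        rw [Nat.div_one]
      rw [e, e]
      have h4 : mue b (i + 1) ≤ mue b k := P1_mue_mono b (by omega)
      rw [P1_mue_succ] at h4
      omega
    | false =>
      have := P1_unq_false b n i h1'
      omega

theorem CR_lt_row (i : ℕ) (h : σ.CR b i) : i < σ.row := by
  cases σ with
  | gen m n => exact h
  | eps κ n =>
    have h' : lpp κ b n i ∨ (κ = true ∧ unq κ b n i) := h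
    show i < n
    rcases h' with h' | h'
    · have := h'.1
      omega
    · exact h'.2.1

theorem crow_CR (hσ : σ.Le) (i : ℕ) (hi : i < σ.rk) : σ.CR b (σ.crow b i) := by
  cases σ with
  | gen m n => exact hi
  | eps κ n =>
    cases κ with
    | true =>
      have hi' : i < n := by
        have h : i < n / 1 := hi
        rwa [Nat.div_one] at h
      show lpp true b n ((eps true n).crow b i) ∨
        (true = true ∧ unq true b n ((eps true n).crow b i))
      by_cases h : 0 < i ∧ lpp true b n (i - 1)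
      · rw [P1_ct1 b n i h]
        exact Or.inl h.2
      · rw [P1_ct2 b n i h]
        rcases lpp_or true b n i hi' with h1 | h1 | h1
        · exact Or.inl h1
        · exact absurd h1 h
        · exact Or.inr ⟨rfl, h1⟩
    | false =>
      have hi' : i < n / 2 := hi
      show lpp false b n ((eps false n).crow b i) ∨
        (false = true ∧ unq false b n ((eps false n).crow b i))
      have e : (eps false n).crow b i = 2 * i := by
        unfold crow
        simp
      rw [e, P1_lf]
      left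
      omega

theorem crow_vv (hσ : σ.Le) (i : ℕ) (hi : i < σ.rk) : σ.vv b (σ.crow b i) = mue b i := by
  cases σ with
  | gen m n =>
    show mue b (i / 1) = mue b i
    rw [Nat.div_one]
  | eps κ n =>
    cases κ with
    | true =>
      show mue b ((eps true n).crow b i / 1) = mue b i
      rw [Nat.div_one]
      by_cases h : 0 < i ∧ lpp true b n (i - 1)
      · rw [P1_ct1 b n i h]
        obtain ⟨k, rfl⟩ : ∃ k, i = k + 1 := ⟨i - 1, by omega⟩
        rw [Nat.add_sub_cancel] at h ⊢
        have h3 := ((P1_lt b n k).1 h.2).2.2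
        rw [P1_mue_succ, h3, Nat.add_zero]
      · rw [P1_ct2 b n i h]
    | false =>
      show mue b ((eps false n).crow b i / 2) = mue b i
      have e : (eps false n).crow b i = 2 * i := by
        unfold crow
        simp
      rw [e, Nat.mul_div_cancel_left i (by norm_num)]

theorem exists_crow (c : ℕ) (h : σ.CR b c) : ∃ i < σ.rk, σ.crow b i = c := by
  cases σ with
  | gen m n => exact ⟨c, h, rfl⟩
  | eps κ n =>
    have h' : lpp κ b n c ∨ (κ = true ∧ unq κ b n c) := h
    have hc : c < n := (eps κ n).CR_lt_row b c h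
    cases κ with
    | true =>
      refine ⟨c, ?_, ?_⟩
      · show c < n / 1
        rwa [Nat.div_one]
      · refine P1_ct2 b n c ?_
        rcases h' with h' | h'
        · exact lpp_disj true b n c h'
        · exact h'.2.2.2
    | false =>
      rcases h' with h' | h'
      · rw [P1_lf] at h'
        refine ⟨c / 2, ?_, ?_⟩
        · show c / 2 < n / 2
          omega
        · have e : (eps false n).crow b (c / 2) = 2 * (c / 2) := by
            unfold crow
            simp
          rw [e]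
          omega
      · exact absurd h'.1 (by simp)

/-- the two indices of a block of length two of a symmetric matrix are partners -/
theorem crow_two (n : ℕ) (i : ℕ) (hi : i + 1 < n) (h0 : b i ≠ 0) (h1 : b (i + 1) = 0) :
    (eps true n).crow b (i + 1) = (eps true n).crow b i := by
  have hl : lpp true b n i := by
    rw [P1_lt, P1_stt_self b i h0]
    exact ⟨hi, by omega, h1⟩
  rw [P1_ct1 b n (i + 1) (by rw [Nat.add_sub_cancel]; exact ⟨by omega, hl⟩),
    P1_ct2 b n i (lpp_disj true b n i hl), Nat.add_sub_cancel]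

theorem CR_or (hσ : σ.Le) (i : ℕ) (hi : i < σ.row) :
    (∃ p : σ.Idx, σ.isC b p ∧ (σ.pr p : ℕ) = i) ↔ σ.CR b i := by
  cases σ with
  | gen m n =>
    have hmn : m ≤ n := hσ
    have hi' : i < m := hi
    constructor
    · intro _
      exact hi'
    · intro _
      exact ⟨(⟨i, hi'⟩, ⟨i, by omega⟩), rfl, rfl⟩
  | eps κ n =>
    have hi' : i < n := hi
    constructor
    · rintro ⟨p, hp, hpi⟩
      have hp' : (lpp κ b n p.1.1 ∧ (p.1.2 : ℕ) = p.1.1 + 1) ∨
        (unq κ b n p.1.1 ∧ (p.1.2 : ℕ) = p.1.1) := hp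
      have hpi' : (p.1.1 : ℕ) = i := hpi
      show lpp κ b n i ∨ (κ = true ∧ unq κ b n i)
      rw [hpi'] at hp'
      rcases hp' with h | h
      · exact Or.inl h.1
      · right
        refine ⟨?_, h.1⟩
        rcases p.2 with h1 | h1
        · have : (p.1.1 : ℕ) < p.1.2 := h1
          omega
        · exact h1.1
    · intro h
      have h' : lpp κ b n i ∨ (κ = true ∧ unq κ b n i) := h
      rcases h' with h' | h'
      · have hlt : i + 1 < n := h'.1
        refine ⟨⟨(⟨i, hi'⟩, ⟨i + 1, hlt⟩), Or.inl (by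
          show i < i + 1
          omega)⟩, Or.inl ⟨h', rfl⟩, rfl⟩
      · exact ⟨⟨(⟨i, hi'⟩, ⟨i, hi'⟩), Or.inr ⟨h'.1, rfl⟩⟩, Or.inr ⟨h'.2, rfl⟩, rfl⟩

theorem isC_unique (p q : σ.Idx) (hp : σ.isC b p) (hq : σ.isC b q)
    (h : (σ.pr p : ℕ) = σ.pr q) : p = q := by
  cases σ with
  | gen m n =>
    have hp' : (p.1 : ℕ) = p.2 := hp
    have hq' : (q.1 : ℕ) = q.2 := hq
    have h' : (p.1 : ℕ) = q.1 := h
    exact Prod.ext (Fin.ext h') (Fin.ext (by omega))
  | eps κ n =>
    have hp' : (lpp κ b n p.1.1 ∧ (p.1.2 : ℕ) = p.1.1 + 1) ∨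
      (unq κ b n p.1.1 ∧ (p.1.2 : ℕ) = p.1.1) := hp
    have hq' : (lpp κ b n q.1.1 ∧ (q.1.2 : ℕ) = q.1.1 + 1) ∨
      (unq κ b n q.1.1 ∧ (q.1.2 : ℕ) = q.1.1) := hq
    have h' : (p.1.1 : ℕ) = q.1.1 := h
    rw [← h'] at hq'
    refine Subtype.ext (Prod.ext (Fin.ext h') (Fin.ext ?_))
    rcases hp' with h1 | h1 <;> rcases hq' with h2 | h2
    · rw [h1.2, h2.2]
    · exact absurd h1.1 h2.1.2.1
    · exact absurd h2.1 h1.1.2.1
    · rw [h1.2, h2.2]

theorem isC_om (p : σ.Idx) (hp : σ.isC b p) : σ.om b p = 0 := by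
  cases σ with
  | gen m n =>
    have hp' : (p.1 : ℕ) = p.2 := hp
    show ((p.1 : ℕ) : ℤ) + -((p.2 : ℕ) : ℤ) = 0
    rw [hp']
    ring
  | eps κ n =>
    have hp' : (lpp κ b n p.1.1 ∧ (p.1.2 : ℕ) = p.1.1 + 1) ∨
      (unq κ b n p.1.1 ∧ (p.1.2 : ℕ) = p.1.1) := hp
    show twp κ b n p.1.1 + twp κ b n p.1.2 = 0
    rcases hp' with h1 | h1
    · rw [h1.2, P1_tw_left κ b n _ h1.1, P1_tw_right κ b n _ ⟨by omega, by
        rw [Nat.add_sub_cancel]; exact h1.1⟩]
      push_cast
      ring
    · rw [h1.2, P1_tw_unq κ b n _ h1.1]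
      ring

theorem isC_vv (p : σ.Idx) (hp : σ.isC b p) : σ.vv b (σ.pc p) = σ.vv b (σ.pr p) := by
  cases σ with
  | gen m n =>
    have hp' : (p.1 : ℕ) = p.2 := hp
    show mue b ((p.2 : ℕ) / 1) = mue b ((p.1 : ℕ) / 1)
    rw [hp']
  | eps κ n =>
    have hp' : (lpp κ b n p.1.1 ∧ (p.1.2 : ℕ) = p.1.1 + 1) ∨
      (unq κ b n p.1.1 ∧ (p.1.2 : ℕ) = p.1.1) := hp
    rcases hp' with h1 | h1
    · cases κ with
      | true =>
        show mue b ((p.1.2 : ℕ) / 1) = mue b ((p.1.1 : ℕ) / 1)
        rw [h1.2, Nat.div_one, Nat.div_one, P1_mue_succ, ((P1_lt b n _).1 h1.1).2.2, Nat.add_zero]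
      | false =>
        show mue b ((p.1.2 : ℕ) / 2) = mue b ((p.1.1 : ℕ) / 2)
        have h2 := ((P1_lf b n _).1 h1.1).2
        rw [h1.2]
        congr 1
        omega
    · show (eps κ n).vv b (p.1.2 : ℕ) = (eps κ n).vv b (p.1.1 : ℕ)
      rw [h1.2]

theorem om_zero (p : σ.Idx) (hp : σ.om b p = 0) :
    σ.isC b p ∨ (σ.unp b (σ.pr p) ∧ σ.unp b (σ.pc p) ∧ (σ.pr p : ℕ) < σ.pc p ∧
      ∃ n, σ = eps true n) := by
  cases σ with
  | gen m n =>
    left
    have hp' : ((p.1 : ℕ) : ℤ) + -((p.2 : ℕ) : ℤ) = 0 := hp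
    show (p.1 : ℕ) = p.2
    omega
  | eps κ n =>
    have hp' : twp κ b n p.1.1 + twp κ b n p.1.2 = 0 := hp
    have hle : (p.1.1 : ℕ) ≤ p.1.2 := by
      rcases p.2 with h1 | h1
      · exact le_of_lt h1
      · rw [h1.2]
    have h1n : (p.1.1 : ℕ) < n := p.1.1.2
    have h2n : (p.1.2 : ℕ) < n := p.1.2.2
    rcases lpp_or κ b n _ h1n with h1 | h1 | h1
    · rcases lpp_or κ b n _ h2n with h2 | h2 | h2
      · rw [P1_tw_left κ b n _ h1, P1_tw_left κ b n _ h2] at hp'
        omega
      · rw [P1_tw_left κ b n _ h1, P1_tw_right κ b n _ h2] at hp'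
        left
        exact Or.inl ⟨h1, by omega⟩
      · rw [P1_tw_left κ b n _ h1, P1_tw_unq κ b n _ h2] at hp'
        omega
    · rcases lpp_or κ b n _ h2n with h2 | h2 | h2
      · rw [P1_tw_right κ b n _ h1, P1_tw_left κ b n _ h2] at hp'
        omega
      · rw [P1_tw_right κ b n _ h1, P1_tw_right κ b n _ h2] at hp'
        omega
      · rw [P1_tw_right κ b n _ h1, P1_tw_unq κ b n _ h2] at hp'
        omega
    · rcases lpp_or κ b n _ h2n with h2 | h2 | h2
      · rw [P1_tw_unq κ b n _ h1, P1_tw_left κ b n _ h2] at hp'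
        omega
      · rw [P1_tw_unq κ b n _ h1, P1_tw_right κ b n _ h2] at hp'
        omega
      · by_cases heq : (p.1.2 : ℕ) = p.1.1
        · left
          exact Or.inr ⟨h1, heq⟩
        · right
          have hlt : (p.1.1 : ℕ) < p.1.2 := by omega
          refine ⟨h1, h2, hlt, n, ?_⟩
          cases κ with
          | true => rfl
          | false =>
            exfalso
            have e1 := P1_unq_false b n _ h1
            omega

/-- in a row which contains no entry of the reference point and is not the row of the right partner,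
the index has no partner: this happens only for skew-symmetric matrices of odd size -/
theorem not_CR (hσ : σ.Le) (i : ℕ) (hi : i < σ.row) (h : ¬ σ.CR b i) :
    (0 < i ∧ σ.CR b (i - 1) ∧ σ.vv b (i - 1) = σ.vv b i ∧ ¬ σ.unp b i) ∨
      ((∃ n, σ = eps false n) ∧ i + 1 = σ.row) := by
  cases σ with
  | gen m n => exact absurd hi h
  | eps κ n =>
    have hi' : i < n := hi
    have h' : ¬ (lpp κ b n i ∨ (κ = true ∧ unq κ b n i)) := h
    rcases lpp_or κ b n i hi' with h1 | h1 | h1
    · exact absurd (Or.inl h1) h'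
    · left
      refine ⟨h1.1, Or.inl h1.2, ?_, fun h2 => ?_⟩
      · obtain ⟨k, rfl⟩ : ∃ k, i = k + 1 := ⟨i - 1, by omega⟩
        rw [Nat.add_sub_cancel] at h1 ⊢
        cases κ with
        | true =>
          show mue b (k / 1) = mue b ((k + 1) / 1)
          rw [Nat.div_one, Nat.div_one, P1_mue_succ, ((P1_lt b n _).1 h1.2).2.2, Nat.add_zero]
        | false =>
          show mue b (k / 2) = mue b ((k + 1) / 2)
          have h2 := ((P1_lf b n _).1 h1.2).2
          congr 1
          omega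
      · have h2' : unq κ b n i := h2
        exact h2'.2.2 h1
    · right
      cases κ with
      | true => exact absurd (Or.inr ⟨rfl, h1⟩) h'
      | false => exact ⟨⟨n, rfl⟩, (P1_unq_false b n i h1).1⟩

end Shp

end MotMono
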