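import Pool.Agent.Lib.MP_4e5fcd_ag.Cl.P1

/-! # CL-P2: the points `FP z` are equivalent to points in normal form

PROOF. `gen`, `eps false n`: `g = h = 1`, the points agree (`FP b z = dgI (z ∘ crow)`, `sg = 1`). `eps true n`: let `g` be the
matrix with the blocks `[[1, 1], [1, -1]]` on the pairs `(j, j + 1)` and `1` at the indices without partner;
then `g * mat (FP z) * gᵀ` is diagonal with the entries `2 z j`, `-2 z j` resp. `z j`, and `g' = g⁻¹` (blocks
`1/2 * [[1, 1], [1, -1]]`). The sums over `Fin n` have at most two nonzero terms. Alternatively use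
`(g * M * gᵀ) = ` the matrix of the bilinear form `M` in the basis `e_j + e_{j+1}`, `e_j - e_{j+1}`. -/

open MvPolynomial

namespace MotMono

namespace Shp

/-- the invariant factors of `FP b z` -/
noncomputable def Dz {R : Type} [CommRing R] (σ : Shp) (b : ℕ → ℕ) (z : ℕ → R) : ℕ → R :=
  fun i => (σ.sg b i : R) * z (σ.crow b i)

/-- from one identity of matrices to the two actions -/
private theorem P2_of (σ : Shp) {R : Type} [CommRing R] (g g' : Matrix (Fin σ.row) (Fin σ.row) R)
    (h h' : Matrix (Fin σ.col) (Fin σ.col) R) (hg : g' * g = 1) (hh : h * h' = 1)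
    (x y : σ.Idx → R) (hxy : σ.mat y = σ.act g h (σ.mat x)) :
    σ.actI g h x = y ∧ σ.actI g' h' y = x := by
  refine ⟨?_, ?_⟩
  · unfold actI
    rw [← hxy, ent_mat]
  · unfold actI
    rw [hxy]
    have h1 : σ.act g' h' (σ.act g h (σ.mat x)) = σ.mat x := by
      cases σ with
      | gen m n =>
        show g' * (g * _ * h) * h' = _
        rw [Matrix.mul_assoc g, ← Matrix.mul_assoc g', hg, Matrix.one_mul, Matrix.mul_assoc, hh,
          Matrix.mul_one]
      | eps κ n =>
        show g' * (g * _ * g.transpose) * g'.transpose = _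
        rw [Matrix.mul_assoc g, ← Matrix.mul_assoc g', hg, Matrix.one_mul, Matrix.mul_assoc,
          ← Matrix.transpose_mul, hg, Matrix.transpose_one, Matrix.mul_one]
    rw [h1, ent_mat]

section sym

variable (b : ℕ → ℕ) (n : ℕ)

open Classical in
/-- the partner -/
private noncomputable def P2_pn (i : ℕ) : ℕ :=
  if lpp true b n i then i + 1 else if 0 < i ∧ lpp true b n (i - 1) then i - 1 else i

private theorem P2_left {i : ℕ} (h : lpp true b n i) : P2_pn b n i = i + 1 := if_pos h

private theorem P2_right {i : ℕ} (h : 0 < i ∧ lpp true b n (i - 1)) : P2_pn b n i = i - 1 := by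
  unfold P2_pn
  rw [if_neg fun h1 => lpp_disj true b n i h1 h, if_pos h]

private theorem P2_none {i : ℕ} (h : ¬ lpp true b n i) (h2 : ¬ (0 < i ∧ lpp true b n (i - 1))) :
    P2_pn b n i = i := by
  unfold P2_pn
  rw [if_neg h, if_neg h2]

private theorem P2_lt {i : ℕ} (hi : i < n) : P2_pn b n i < n := by
  by_cases h : lpp true b n i
  · rw [P2_left b n h]
    exact h.1
  · by_cases h2 : 0 < i ∧ lpp true b n (i - 1)
    · rw [P2_right b n h2]
      omega
    · rw [P2_none b n h h2]
      exact hi

private noncomputable def P2_pf (i : Fin n) : Fin n := ⟨P2_pn b n i, P2_lt b n i.2⟩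

private theorem P2_pn_pn (i : ℕ) : P2_pn b n (P2_pn b n i) = i := by
  by_cases h : lpp true b n i
  · rw [P2_left b n h, P2_right b n (i := i + 1) ⟨by omega, by simpa using h⟩]
    omega
  · by_cases h2 : 0 < i ∧ lpp true b n (i - 1)
    · rw [P2_right b n h2, P2_left b n h2.2]
      omega
    · rw [P2_none b n h h2, P2_none b n h h2]

private theorem P2_pf_pf (i : Fin n) : P2_pf b n (P2_pf b n i) = i :=
  Fin.ext (P2_pn_pn b n i)

open Classical in
private noncomputable def P2_s (i : ℕ) : ℤ := if 0 < i ∧ lpp true b n (i - 1) then -1 else 1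

private theorem P2_s_sq (i : ℕ) : P2_s b n i * P2_s b n i = 1 := by
  unfold P2_s
  split_ifs <;> norm_num

private theorem P2_s_pn (i : ℕ) (h : P2_pn b n i ≠ i) :
    P2_s b n (P2_pn b n i) = -P2_s b n i := by
  by_cases h1 : lpp true b n i
  · have h2 : ¬ (0 < i ∧ lpp true b n (i - 1)) := lpp_disj true b n i h1
    rw [P2_left b n h1]
    unfold P2_s
    rw [if_pos (show 0 < i + 1 ∧ lpp true b n (i + 1 - 1) from ⟨by omega, by simpa using h1⟩),
      if_neg h2]
  · by_cases h2 : 0 < i ∧ lpp true b n (i - 1)
    · rw [P2_right b n h2]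
      unfold P2_s
      rw [if_pos h2, if_neg (lpp_disj true b n (i - 1) h2.2)]
      norm_num
    · exact absurd (P2_none b n h1 h2) h

open Classical in
private noncomputable def P2_t (i : ℕ) : ℤ := if P2_pn b n i = i then 0 else 1

private theorem P2_t_pn (i : ℕ) : P2_t b n (P2_pn b n i) = P2_t b n i := by
  unfold P2_t
  rw [P2_pn_pn]
  by_cases h : P2_pn b n i = i
  · rw [if_pos h.symm, if_pos h]
  · rw [if_neg (Ne.symm h), if_neg h]

/-- the matrix of the change of coordinates -/
private noncomputable def P2_g (R : Type) [CommRing R] : Matrix (Fin n) (Fin n) R :=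
  Matrix.of fun i k =>
  (if k = i then (P2_s b n i : R) else 0) + (if k = P2_pf b n i then (P2_t b n i : R) else 0)

private theorem P2_g_apply (R : Type) [CommRing R] (i k : Fin n) : P2_g b n R i k =
    (if k = i then (P2_s b n i : R) else 0) + (if k = P2_pf b n i then (P2_t b n i : R) else 0) :=
  rfl

private theorem P2_g_mul {R : Type} [CommRing R] (M : Matrix (Fin n) (Fin n) R) (i k : Fin n) :
    (P2_g b n R * M) i k = (P2_s b n i : R) * M i k + (P2_t b n i : R) * M (P2_pf b n i) k := by
  rw [Matrix.mul_apply]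
  simp only [P2_g_apply, add_mul, ite_mul, zero_mul, Finset.sum_add_distrib, Finset.sum_ite_eq',
    Finset.mem_univ, if_true]

private theorem P2_g_sq (i k : Fin n) :
    (P2_g b n ℂ * P2_g b n ℂ) i k = if k = i then (if P2_pn b n i = i then 1 else 2) else 0 := by
  have hs : (P2_s b n i : ℂ) * (P2_s b n i : ℂ) = 1 := by
    exact_mod_cast P2_s_sq b n i
  rw [P2_g_mul]
  by_cases hp : P2_pn b n i = i
  · have ht : P2_t b n i = 0 := if_pos hp
    rw [ht, if_pos hp]
    simp only [P2_g_apply]
    rw [ht]
    simp only [Int.cast_zero, ite_self, add_zero, zero_mul, mul_ite, mul_zero, hs]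
  · have hpf : P2_pf b n i ≠ i := fun h => hp (congrArg Fin.val h)
    have ht : P2_t b n i = 1 := if_neg hp
    have e1 : P2_s b n (P2_pf b n i : Fin n) = -P2_s b n i := P2_s_pn b n i hp
    have e2 : P2_t b n (P2_pf b n i : Fin n) = 1 := by
      rw [← ht]
      exact P2_t_pn b n i
    simp only [P2_g_apply]
    rw [e1, e2, ht, P2_pf_pf, if_neg hp]
    push_cast
    by_cases hk : k = i
    · have hk2 : k ≠ P2_pf b n i := fun h => hpf (h.symm.trans hk)
      rw [if_pos hk, if_neg hk2, if_pos hk, if_neg hk2, if_pos hk, add_zero, hs]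
      norm_num
    · rw [if_neg hk, if_neg hk, if_neg hk]
      by_cases hk2 : k = P2_pf b n i
      · rw [if_pos hk2, if_pos hk2]
        ring
      · rw [if_neg hk2, if_neg hk2]
        ring

private theorem P2_g_map (R : Type) [CommRing R] [Algebra ℂ R] :
    (P2_g b n ℂ).map (algebraMap ℂ R) = P2_g b n R := by
  refine Matrix.ext fun i k => ?_
  rw [Matrix.map_apply, P2_g_apply, P2_g_apply, map_add]
  split_ifs <;> simp

open Classical in
private theorem P2_crow (j : ℕ) (h : 0 < j ∧ lpp true b n (j - 1)) :
    (eps true n).crow b j = j - 1 := by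
  show (if (true : Bool) = true then (if 0 < j ∧ lpp true b n (j - 1) then j - 1 else j)
    else 2 * j) = _
  rw [if_pos rfl, if_pos h]

open Classical in
private theorem P2_crow' (j : ℕ) (h : ¬ (0 < j ∧ lpp true b n (j - 1))) :
    (eps true n).crow b j = j := by
  show (if (true : Bool) = true then (if 0 < j ∧ lpp true b n (j - 1) then j - 1 else j)
    else 2 * j) = _
  rw [if_pos rfl, if_neg h]

private theorem P2_FP {R : Type} [CommRing R] (z : ℕ → R) (p : (eps true n).Idx)
    (h : (lpp true b n p.1.1 ∧ (p.1.2 : ℕ) = p.1.1 + 1) ∨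
        (unq true b n p.1.1 ∧ (p.1.2 : ℕ) = p.1.1)) : (eps true n).FP b z p = z p.1.1 := if_pos h

private theorem P2_FP' {R : Type} [CommRing R] (z : ℕ → R) (p : (eps true n).Idx)
    (h : ¬ ((lpp true b n p.1.1 ∧ (p.1.2 : ℕ) = p.1.1 + 1) ∨
        (unq true b n p.1.1 ∧ (p.1.2 : ℕ) = p.1.1))) : (eps true n).FP b z p = 0 := if_neg h

private theorem P2_dgI {R : Type} [CommRing R] (D : ℕ → R) (p : (eps true n).Idx)
    (h : (p.1.2 : ℕ) = p.1.1) : (eps true n).dgI D p = D p.1.1 := by
  have h1 : ((eps true n).pr p : ℕ) % (eps true n).st = 0 ∧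
      ((eps true n).pc p : ℕ) + 1 = (eps true n).pr p + (eps true n).st :=
    ⟨Nat.mod_one _, congrArg (· + 1) h⟩
  have h2 : (eps true n).dgI D p = D (((eps true n).pr p : ℕ) / (eps true n).st) := if_pos h1
  rw [h2]
  exact congrArg D (Nat.div_one _)

private theorem P2_dgI' {R : Type} [CommRing R] (D : ℕ → R) (p : (eps true n).Idx)
    (h : (p.1.2 : ℕ) ≠ p.1.1) : (eps true n).dgI D p = 0 :=
  if_neg fun h1 => h (Nat.succ_injective h1.2)

private theorem P2_FPa {R : Type} [CommRing R] (z : ℕ → R) (i k : Fin n)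
    (hp : i < k ∨ true = true ∧ i = k)
    (h : (lpp true b n i ∧ (k : ℕ) = i + 1) ∨ (unq true b n i ∧ (k : ℕ) = i)) :
    (eps true n).FP b z ⟨(i, k), hp⟩ = z i := P2_FP b n z ⟨(i, k), hp⟩ h

private theorem P2_FPb {R : Type} [CommRing R] (z : ℕ → R) (i k : Fin n)
    (hp : i < k ∨ true = true ∧ i = k)
    (h : ¬ ((lpp true b n i ∧ (k : ℕ) = i + 1) ∨ (unq true b n i ∧ (k : ℕ) = i))) :
    (eps true n).FP b z ⟨(i, k), hp⟩ = 0 := P2_FP' b n z ⟨(i, k), hp⟩ h

private theorem P2_dgIa {R : Type} [CommRing R] (D : ℕ → R) (i k : Fin n)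
    (hp : i < k ∨ true = true ∧ i = k) (h : (k : ℕ) = i) :
    (eps true n).dgI D ⟨(i, k), hp⟩ = D i := P2_dgI n D ⟨(i, k), hp⟩ h

private theorem P2_dgIb {R : Type} [CommRing R] (D : ℕ → R) (i k : Fin n)
    (hp : i < k ∨ true = true ∧ i = k) (h : (k : ℕ) ≠ i) :
    (eps true n).dgI D ⟨(i, k), hp⟩ = 0 := P2_dgI' n D ⟨(i, k), hp⟩ h

private theorem P2_mat {R : Type} [CommRing R] (z : ℕ → R) (i k : Fin n) :
    (eps true n).mat ((eps true n).FP b z) i k =
      if k = P2_pf b n i then z ((eps true n).crow b i) else 0 := by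
  have hpf : ∀ a c : Fin n, c = P2_pf b n a ↔ (c : ℕ) = P2_pn b n a := fun a c => Fin.ext_iff
  show (if h : i < k then (eps true n).FP b z ⟨(i, k), Or.inl h⟩
      else if h' : k < i then (if true = true then 1 else -1) *
        (eps true n).FP b z ⟨(k, i), Or.inl h'⟩
      else if hκ : true = true then (eps true n).FP b z ⟨(i, k), Or.inr ⟨hκ,
        le_antisymm (not_lt.1 h') (not_lt.1 h)⟩⟩
      else 0) = _
  by_cases hik : i < k
  · rw [dif_pos hik]
    have hik' : (i : ℕ) < k := hik
    by_cases h1 : lpp true b n i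
    · have h2 : ¬ (0 < (i : ℕ) ∧ lpp true b n ((i : ℕ) - 1)) := lpp_disj true b n i h1
      rw [P2_crow' b n _ h2]
      by_cases h3 : (k : ℕ) = i + 1
      · rw [P2_FPa b n z i k _ (Or.inl ⟨h1, h3⟩),
          if_pos ((hpf i k).2 (by rw [P2_left b n h1]; exact h3))]
      · rw [P2_FPb b n z i k, if_neg]
        · intro h4
          rw [hpf, P2_left b n h1] at h4
          exact h3 h4
        · rintro (h4 | h4)
          · exact h3 h4.2
          · have := h4.2
            omega
    · rw [P2_FPb b n z i k, if_neg]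
      · intro h4
        rw [hpf] at h4
        by_cases h2 : 0 < (i : ℕ) ∧ lpp true b n ((i : ℕ) - 1)
        · rw [P2_right b n h2] at h4
          omega
        · rw [P2_none b n h1 h2] at h4
          omega
      · rintro (h4 | h4)
        · exact h1 h4.1
        · have := h4.2
          omega
  · rw [dif_neg hik]
    by_cases hki : k < i
    · rw [dif_pos hki, if_pos rfl, one_mul]
      have hki' : (k : ℕ) < i := hki
      by_cases h2 : 0 < (i : ℕ) ∧ lpp true b n ((i : ℕ) - 1)
      · rw [P2_crow b n _ h2]
        by_cases h3 : (k : ℕ) = i - 1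
        · rw [P2_FPa b n z k i _ (Or.inl ⟨by rw [h3]; exact h2.2, by omega⟩),
            if_pos ((hpf i k).2 (by rw [P2_right b n h2]; exact h3))]
          exact congrArg z h3
        · rw [P2_FPb b n z k i, if_neg]
          · intro h4
            rw [hpf, P2_right b n h2] at h4
            exact h3 h4
          · rintro (h4 | h4)
            · have := h4.2
              omega
            · have := h4.2
              omega
      · rw [P2_FPb b n z k i, if_neg]
        · intro h4
          rw [hpf] at h4
          by_cases h1 : lpp true b n i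
          · rw [P2_left b n h1] at h4
            omega
          · rw [P2_none b n h1 h2] at h4
            omega
        · rintro (h4 | h4)
          · apply h2
            have h5 := h4.2
            have h6 := h4.1
            refine ⟨by omega, ?_⟩
            have e : (i : ℕ) - 1 = k := by omega
            rw [e]
            exact h6
          · have := h4.2
            omega
    · rw [dif_neg hki, dif_pos rfl]
      have e : (k : ℕ) = i := by
        have h1 : ¬ (i : ℕ) < k := hik
        have h2 : ¬ (k : ℕ) < i := hki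
        omega
      by_cases hu : unq true b n i
      · rw [P2_FPa b n z i k _ (Or.inr ⟨hu, e⟩),
          if_pos ((hpf i k).2 (by rw [P2_none b n hu.2.1 hu.2.2]; exact e)),
          P2_crow' b n _ hu.2.2]
      · rw [P2_FPb b n z i k, if_neg]
        · intro h4
          rw [hpf] at h4
          apply hu
          refine ⟨i.2, fun h1 => ?_, fun h2 => ?_⟩
          · rw [P2_left b n h1] at h4
            omega
          · rw [P2_right b n h2] at h4
            omega
        · rintro (h4 | h4)
          · have := h4.2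
            omega
          · exact hu h4.1

private theorem P2_mat_dg {R : Type} [CommRing R] (D : ℕ → R) (i k : Fin n) :
    (eps true n).mat ((eps true n).dgI D) i k = if k = i then D i else 0 := by
  show (if h : i < k then (eps true n).dgI D ⟨(i, k), Or.inl h⟩
      else if h' : k < i then (if true = true then 1 else -1) *
        (eps true n).dgI D ⟨(k, i), Or.inl h'⟩
      else if hκ : true = true then (eps true n).dgI D ⟨(i, k), Or.inr ⟨hκ,
        le_antisymm (not_lt.1 h') (not_lt.1 h)⟩⟩
      else 0) = _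
  by_cases hik : i < k
  · have hik' : (i : ℕ) < k := hik
    rw [dif_pos hik, P2_dgIb n D i k _ (by omega), if_neg]
    intro h
    rw [h] at hik'
    omega
  · rw [dif_neg hik]
    by_cases hki : k < i
    · have hki' : (k : ℕ) < i := hki
      rw [dif_pos hki, P2_dgIb n D k i _ (by omega), mul_zero, if_neg]
      intro h
      rw [h] at hki'
      omega
    · have e : k = i := le_antisymm (not_lt.1 hik) (not_lt.1 hki)
      subst e
      rw [dif_neg hki, dif_pos rfl, if_pos rfl]
      exact P2_dgIa n D k k _ rfl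

private theorem P2_zeta (i : ℕ) :
    (eps true n).crow b (P2_pn b n i) = (eps true n).crow b i := by
  by_cases h1 : lpp true b n i
  · rw [P2_left b n h1, P2_crow b n (i + 1) ⟨by omega, by simpa using h1⟩,
      P2_crow' b n i (lpp_disj true b n i h1)]
    omega
  · by_cases h2 : 0 < i ∧ lpp true b n (i - 1)
    · rw [P2_right b n h2, P2_crow b n i h2, P2_crow' b n (i - 1) (lpp_disj true b n (i - 1) h2.2)]
    · rw [P2_none b n h1 h2]

open Classical in
private theorem P2_sg (i : ℕ) : (eps true n).sg b i =
    P2_s b n i * (1 + P2_t b n i) := by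
  show (if (true : Bool) = true then (if lpp true b n i then 2 else
      if 0 < i ∧ lpp true b n (i - 1) then -2 else 1) else 1) = _
  rw [if_pos rfl]
  unfold P2_s P2_t
  by_cases h1 : lpp true b n i
  · rw [if_pos h1, if_neg (lpp_disj true b n i h1), if_neg]
    · norm_num
    · rw [P2_left b n h1]
      omega
  · rw [if_neg h1]
    by_cases h2 : 0 < i ∧ lpp true b n (i - 1)
    · rw [if_pos h2, if_pos h2, if_neg]
      · norm_num
      · rw [P2_right b n h2]
        omega
    · rw [if_neg h2, if_neg h2, if_pos (P2_none b n h1 h2)]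
      norm_num

private theorem P2_alg {R : Type} [CommRing R] (M : Matrix (Fin n) (Fin n) R) (ζ : Fin n → R)
    (hζ : ∀ i, ζ (P2_pf b n i) = ζ i) (hM : ∀ i k, M i k = if k = P2_pf b n i then ζ i else 0)
    (i k : Fin n) : (P2_g b n R * M * (P2_g b n R).transpose) i k =
      if k = i then ((P2_s b n i * (1 + P2_t b n i) : ℤ) : R) * ζ i else 0 := by
  have h1 : (P2_g b n R * M * (P2_g b n R).transpose) i k =
      (P2_g b n R * (P2_g b n R * M).transpose) k i := by
    have h2 : (P2_g b n R * M * (P2_g b n R).transpose) =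
        (P2_g b n R * (P2_g b n R * M).transpose).transpose := by
      rw [Matrix.transpose_mul, Matrix.transpose_transpose]
    rw [h2, Matrix.transpose_apply]
  rw [h1, P2_g_mul, Matrix.transpose_apply, Matrix.transpose_apply, P2_g_mul, P2_g_mul,
    hM, hM, hM, hM, P2_pf_pf, hζ]
  have hs : (P2_s b n i : R) * (P2_s b n i : R) = 1 := by
    have := congrArg (fun x : ℤ => (x : R)) (P2_s_sq b n i)
    push_cast at this
    exact this
  push_cast
  by_cases hp : P2_pn b n i = i
  · have ht : P2_t b n i = 0 := if_pos hp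
    have hpf : P2_pf b n i = i := Fin.ext hp
    rw [ht, hpf]
    push_cast
    by_cases hk : k = i
    · subst hk
      rw [if_pos rfl, if_pos rfl, ht]
      push_cast
      have : (P2_s b n k : R) = 1 := by
        have h5 : P2_s b n k = 1 := by
          unfold P2_s
          rw [if_neg]
          intro h6
          rw [P2_right b n h6] at hp
          omega
        rw [h5]
        push_cast
        rfl
      rw [this]
      ring
    · rw [if_neg hk, if_neg hk]
      have hk2 : P2_pf b n k ≠ i := by
        intro hk2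
        apply hk
        rw [← P2_pf_pf b n k, hk2, hpf]
      rw [if_neg hk2]
      ring
  · have ht : P2_t b n i = 1 := if_neg hp
    have hpf : P2_pf b n i ≠ i := fun h => hp (congrArg Fin.val h)
    rw [ht]
    push_cast
    by_cases hk : k = i
    · subst hk
      rw [if_neg (Ne.symm hpf), if_pos rfl, if_pos rfl, if_pos rfl, ht, if_neg hpf]
      push_cast
      ring
    · rw [if_neg hk, if_neg hk]
      by_cases hk2 : k = P2_pf b n i
      · have hk3 : P2_pf b n k = i := by rw [hk2, P2_pf_pf]
        have e1 : P2_s b n k = -P2_s b n i := by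
          rw [hk2]
          exact P2_s_pn b n i hp
        have e2 : P2_t b n k = 1 := by
          rw [hk2, ← ht]
          exact P2_t_pn b n i
        rw [if_pos hk2, hk3, if_neg (Ne.symm hpf), if_pos rfl, e1, e2]
        push_cast
        linear_combination (-ζ i) * hs
      · have hk3 : P2_pf b n k ≠ P2_pf b n i := by
          intro h
          apply hk
          rw [← P2_pf_pf b n k, h, P2_pf_pf]
        have hk4 : P2_pf b n k ≠ i := by
          intro h
          apply hk2
          rw [← h, P2_pf_pf]
        rw [if_neg hk2, if_neg hk3, if_neg hk4]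
        ring

private theorem P2_main {R : Type} [CommRing R] (z : ℕ → R) :
    (eps true n).mat ((eps true n).dgI ((eps true n).Dz b z)) =
      P2_g b n R * (eps true n).mat ((eps true n).FP b z) * (P2_g b n R).transpose := by
  refine Matrix.ext fun (i : Fin n) (k : Fin n) => ?_
  have h1 := P2_alg b n ((eps true n).mat ((eps true n).FP b z))
    (fun i => z ((eps true n).crow b i)) (fun i => congrArg z (P2_zeta b n i)) (P2_mat b n z) i k
  refine Eq.trans ?_ h1.symm
  refine (P2_mat_dg n _ i k).trans ?_
  unfold Dz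
  rw [P2_sg]

end sym

theorem exists_toDg (σ : Shp) (hσ : σ.Le) (b : ℕ → ℕ) :
    ∃ (g g' : Matrix (Fin σ.row) (Fin σ.row) ℂ) (h h' : Matrix (Fin σ.col) (Fin σ.col) ℂ),
      ∀ {R : Type} [CommRing R] [Algebra ℂ R] (z : ℕ → R),
        σ.actI (g.map (algebraMap ℂ R)) (h.map (algebraMap ℂ R)) (σ.FP b z) = σ.dgI (σ.Dz b z) ∧
        σ.actI (g'.map (algebraMap ℂ R)) (h'.map (algebraMap ℂ R)) (σ.dgI (σ.Dz b z)) =
          σ.FP b z := by
  classical
  -- the trivial case
  have htriv : (∀ (R : Type) [CommRing R] (z : ℕ → R), σ.FP b z = σ.dgI (σ.Dz b z)) →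
      ∃ (g g' : Matrix (Fin σ.row) (Fin σ.row) ℂ) (h h' : Matrix (Fin σ.col) (Fin σ.col) ℂ),
      ∀ {R : Type} [CommRing R] [Algebra ℂ R] (z : ℕ → R),
        σ.actI (g.map (algebraMap ℂ R)) (h.map (algebraMap ℂ R)) (σ.FP b z) = σ.dgI (σ.Dz b z) ∧
        σ.actI (g'.map (algebraMap ℂ R)) (h'.map (algebraMap ℂ R)) (σ.dgI (σ.Dz b z)) =
          σ.FP b z := by
    intro h0
    refine ⟨1, 1, 1, 1, fun {R} _ _ z => ?_⟩
    rw [Matrix.map_one _ (map_zero _) (map_one _), Matrix.map_one _ (map_zero _) (map_one _)]
    refine P2_of σ 1 1 1 1 (Matrix.one_mul 1) (Matrix.one_mul 1) _ _ ?_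
    rw [h0]
    cases σ with
    | gen m n =>
      show _ = 1 * _ * 1
      rw [Matrix.one_mul, Matrix.mul_one]
    | eps κ n =>
      show _ = 1 * _ * Matrix.transpose 1
      rw [Matrix.one_mul, Matrix.transpose_one, Matrix.mul_one]
  cases σ with
  | gen m n =>
    apply htriv
    intro R _ z
    funext p
    by_cases h : (p.1 : ℕ) = p.2
    · have e1 : (gen m n).FP b z p = z (p.1 : ℕ) := if_pos h
      have e2 : (gen m n).dgI ((gen m n).Dz b z) p = (gen m n).Dz b z ((p.1 : ℕ) / 1) :=
        if_pos ⟨Nat.mod_one _, congrArg (· + 1) h.symm⟩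
      rw [e1, e2, Nat.div_one]
      show _ = ((1 : ℤ) : R) * z (p.1 : ℕ)
      rw [Int.cast_one, one_mul]
    · have e1 : (gen m n).FP b z p = 0 := if_neg h
      have e2 : (gen m n).dgI ((gen m n).Dz b z) p = 0 :=
        if_neg fun h1 => h (Nat.succ_injective h1.2).symm
      rw [e1, e2]
  | eps κ n =>
    cases κ with
    | false =>
      apply htriv
      intro R _ z
      funext p
      obtain ⟨⟨i, k⟩, hp⟩ := p
      have hik : (i : ℕ) < k := by
        rcases hp with hp | hp
        · exact hp
        · exact absurd hp.1 (by simp)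
      have hsg : (eps false n).sg b ((i : ℕ) / 2) = 1 := rfl
      have hcr : (eps false n).crow b ((i : ℕ) / 2) = 2 * ((i : ℕ) / 2) := rfl
      have hl : lpp false b n i ↔ (i : ℕ) + 1 < n ∧ (i : ℕ) % 2 = 0 := by
        unfold lpp
        rw [if_neg (by simp)]
      by_cases h : (i : ℕ) % 2 = 0 ∧ (k : ℕ) + 1 = i + 2
      · have hk := k.2
        have hk' : (k : ℕ) < n := hk
        have e1 : (eps false n).FP b z ⟨(i, k), hp⟩ = z (i : ℕ) :=
          if_pos (Or.inl ⟨hl.2 ⟨by omega, h.1⟩, by show (k : ℕ) = i + 1; omega⟩)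
        have e2 : (eps false n).dgI ((eps false n).Dz b z) ⟨(i, k), hp⟩ =
            (eps false n).Dz b z ((i : ℕ) / 2) := if_pos h
        rw [e1, e2]
        unfold Dz
        rw [hsg, hcr, Int.cast_one, one_mul]
        congr 1
        omega
      · have e2 : (eps false n).dgI ((eps false n).Dz b z) ⟨(i, k), hp⟩ = 0 := if_neg h
        rw [e2]
        refine if_neg ?_
        rintro (h1 | h1)
        · have h2 : (k : ℕ) = i + 1 := h1.2
          exact h ⟨(hl.1 h1.1).2, by omega⟩
        · have h2 : (k : ℕ) = i := h1.2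
          omega
    | true =>
      refine ⟨P2_g b n ℂ, Matrix.diagonal (fun i : Fin n => if P2_pn b n i = i then 1 else 1 / 2) *
        P2_g b n ℂ, 1, 1, fun {R} _ _ z => ?_⟩
      refine P2_of (eps true n) _ _ _ _ ?_ ?_ _ _ ?_
      · rw [← Matrix.map_mul, Matrix.mul_assoc]
        have h1 : (Matrix.diagonal (fun i : Fin n => if P2_pn b n i = i then (1 : ℂ) else 1 / 2) *
            (P2_g b n ℂ * P2_g b n ℂ)) = 1 := by
          ext i k
          rw [Matrix.diagonal_mul, P2_g_sq, Matrix.one_apply]
          by_cases hk : k = i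
          · rw [if_pos hk, if_pos hk.symm]
            split_ifs <;> norm_num
          · rw [if_neg hk, if_neg (Ne.symm hk), mul_zero]
        rw [h1]
        exact Matrix.map_one _ (map_zero _) (map_one _)
      · rw [Matrix.map_one _ (map_zero _) (map_one _), Matrix.one_mul]
      · show _ = (P2_g b n ℂ).map (algebraMap ℂ R) * _ *
          ((P2_g b n ℂ).map (algebraMap ℂ R)).transpose
        rw [P2_g_map]
        exact P2_main b n z

end Shp

end MotMono
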