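import Pool.Agent.Lib.MP_4e5fcd_ag.Cl.K0
import Pool.Agent.Lib.MP_4e5fcd_ag.Inv.Smith

/-! # CL-S1a: normal form of symmetric matrices of power series

PROOF. Compare `Inv/Smith.lean`. Induction on `n`; `n = 0` trivial (`D = 0`). `PowerSeries ℂ` is a valuation
ring (`ValuationRing.dvd_total`) in which `2` is a unit. Let `M` be symmetric of size `n + 1` and let
`a = M i₀ k₀` divide all entries. If no diagonal entry divides all entries (so `i₀ ≠ k₀`), replace `M` by
`T M Tᵀ`, `T = transvection i₀ k₀ 1`: its diagonal entry at `i₀` is `M i₀ i₀ + 2 a + M k₀ k₀`, which is `a`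
times a unit (`M i₀ i₀`, `M k₀ k₀` are divisible by `a` and not associated to `a`, hence by `a X`), and it
divides all entries of the new matrix. By a permutation matrix move this entry to `(0, 0)`, clear the
first row and column by `U M Uᵀ` with a unitriangular `U`. The remaining symmetric matrix of size `n` has
all entries divisible by `D 0`; use the induction hypothesis (its `D i` are linear combinations of the
entries by the second equation, so `D 0` divides them). Put `D i = 0` for `i ≥ n`. -/

open MvPolynomial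

namespace MotMono

namespace S1aAux

variable {R : Type} [CommRing R]

private theorem exists_dvd_all (htot : ∀ a b : R, a ∣ b ∨ b ∣ a) {ι : Type} (s : Finset ι)
    (hs : s.Nonempty) (f : ι → R) : ∃ i ∈ s, ∀ j ∈ s, f i ∣ f j := by
  classical
  induction hs using Finset.Nonempty.cons_induction with
  | singleton a => exact ⟨a, by simp, by simp⟩
  | cons a s ha hs ih =>
    obtain ⟨i, hi, h⟩ := ih
    rcases htot (f a) (f i) with h1 | h1
    · refine ⟨a, by simp, ?_⟩
      intro j hj
      rcases Finset.mem_cons.1 hj with rfl | hj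
      · exact dvd_rfl
      · exact h1.trans (h j hj)
    · refine ⟨i, Finset.mem_cons_of_mem hi, ?_⟩
      intro j hj
      rcases Finset.mem_cons.1 hj with rfl | hj
      · exact h1
      · exact h j hj

private def blk {m : ℕ} (a : R) (A : Matrix (Fin m) (Fin m) R) :
    Matrix (Fin (m + 1)) (Fin (m + 1)) R :=
  Matrix.of (Fin.cons (Fin.cons a 0) (fun i => Fin.cons 0 (A i)))

private def colM {m : ℕ} (c : Fin m → R) : Matrix (Fin (m + 1)) (Fin (m + 1)) R :=
  Matrix.of (Fin.cons (Fin.cons 1 0) (fun i => Fin.cons (c i) ((1 : Matrix (Fin m) (Fin m) R) i)))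

private theorem blk_mul {m : ℕ} (a b : R) (A B : Matrix (Fin m) (Fin m) R) :
    blk a A * blk b B = blk (a * b) (A * B) := by
  ext i k
  rw [Matrix.mul_apply, Fin.sum_univ_succ]
  refine Fin.cases ?_ (fun i => ?_) i <;> refine Fin.cases ?_ (fun k => ?_) k <;>
    simp [blk, Matrix.mul_apply]

private theorem blk_transpose {m : ℕ} (a : R) (A : Matrix (Fin m) (Fin m) R) :
    (blk a A).transpose = blk a A.transpose := by
  ext i k
  rw [Matrix.transpose_apply]
  refine Fin.cases ?_ (fun i => ?_) i <;> refine Fin.cases ?_ (fun k => ?_) k <;> simp [blk]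

private theorem colM_mul {m : ℕ} (c : Fin m → R) : colM (-c) * colM c = 1 := by
  ext i k
  rw [Matrix.mul_apply, Fin.sum_univ_succ]
  refine Fin.cases ?_ (fun i => ?_) i <;> refine Fin.cases ?_ (fun k => ?_) k <;>
    simp [colM, Matrix.one_apply, Fin.succ_ne_zero, (Fin.succ_ne_zero _).symm]

private theorem decomp {m : ℕ} (M : Matrix (Fin (m + 1)) (Fin (m + 1)) R) (x : R)
    (c : Fin m → R) (hx : M 0 0 = x) (hc : ∀ i, M (Fin.succ i) 0 = x * c i)
    (hd : ∀ k, M 0 (Fin.succ k) = x * c k) :
    M = colM c * blk x (Matrix.of fun i k => M (Fin.succ i) (Fin.succ k) - c i * x * c k) *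
      (colM c).transpose := by
  ext i k
  rw [Matrix.mul_apply, Fin.sum_univ_succ]
  simp only [Matrix.mul_apply, Fin.sum_univ_succ, Matrix.transpose_apply]
  refine Fin.cases ?_ (fun i => ?_) i <;> refine Fin.cases ?_ (fun k => ?_) k
  · simp [colM, blk, hx]
  · simp [colM, blk, hd, Matrix.one_apply]
  · simp [colM, blk, hc, mul_comm]
  · simp [colM, blk, Matrix.one_apply]

private theorem dvd_mul_mul {n : ℕ} (a : R) (A M B : Matrix (Fin n) (Fin n) R)
    (h : ∀ i k, a ∣ M i k) (i k : Fin n) : a ∣ (A * M * B) i k := by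
  rw [Matrix.mul_apply]
  refine Finset.dvd_sum fun j _ => Dvd.dvd.mul_right ?_ _
  rw [Matrix.mul_apply]
  exact Finset.dvd_sum fun l _ => Dvd.dvd.mul_left (h _ _) _

private theorem perm_conj {n : ℕ} (M : Matrix (Fin n) (Fin n) R) (τ : Equiv.Perm (Fin n)) (i k : Fin n) :
    ((1 : Matrix (Fin n) (Fin n) R).submatrix τ id * M *
      ((1 : Matrix (Fin n) (Fin n) R).submatrix τ id).transpose) i k = M (τ i) (τ k) := by
  simp [Matrix.mul_apply, Matrix.one_apply, Matrix.transpose_apply]

private theorem perm_inv {n : ℕ} (d e : Fin n) :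
    (1 : Matrix (Fin n) (Fin n) R).submatrix (Equiv.swap d e) id *
      (1 : Matrix (Fin n) (Fin n) R).submatrix (Equiv.swap d e) id = 1 := by
  ext i k
  rw [Matrix.mul_apply, Finset.sum_eq_single (Equiv.swap d e i)]
  · simp [Matrix.one_apply]
  · intro b _ hb
    simp [Matrix.one_apply, hb.symm]
  · simp

private theorem pivot_diag {n : ℕ} (M : Matrix (Fin (n + 1)) (Fin (n + 1)) R) (d : Fin (n + 1))
    (h : ∀ i k, M d d ∣ M i k) :
    ∃ Q Q' : Matrix (Fin (n + 1)) (Fin (n + 1)) R, Q * Q' = 1 ∧ Q' * Q = 1 ∧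
      ∀ i k, (Q * M * Q.transpose) 0 0 ∣ (Q * M * Q.transpose) i k := by
  refine ⟨(1 : Matrix _ _ R).submatrix (Equiv.swap 0 d) id,
    (1 : Matrix _ _ R).submatrix (Equiv.swap 0 d) id, perm_inv _ _, perm_inv _ _, fun i k => ?_⟩
  rw [perm_conj, perm_conj, Equiv.swap_apply_left]
  exact h _ _

private theorem trans_conj {n : ℕ} (M : Matrix (Fin n) (Fin n) R) (i₀ k₀ : Fin n) :
    (Matrix.transvection i₀ k₀ (1 : R) * M * (Matrix.transvection i₀ k₀ (1 : R)).transpose) i₀ i₀ =
      M i₀ i₀ + M i₀ k₀ + (M k₀ i₀ + M k₀ k₀) := by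
  have e : (Matrix.transvection i₀ k₀ (1 : R)).transpose = Matrix.transvection k₀ i₀ (1 : R) := by
    simp [Matrix.transvection, Matrix.transpose_add]
  rw [e, Matrix.mul_transvection_apply_same, Matrix.transvection_mul_apply_same,
    Matrix.transvection_mul_apply_same]
  ring

private theorem pivot [IsLocalRing R] (h2 : IsUnit (2 : R)) (htot : ∀ a b : R, a ∣ b ∨ b ∣ a) {n : ℕ}
    (M : Matrix (Fin (n + 1)) (Fin (n + 1)) R) (hM : M.transpose = M) :
    ∃ Q Q' : Matrix (Fin (n + 1)) (Fin (n + 1)) R, Q * Q' = 1 ∧ Q' * Q = 1 ∧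
      ∀ i k, (Q * M * Q.transpose) 0 0 ∣ (Q * M * Q.transpose) i k := by
  obtain ⟨⟨i₀, k₀⟩, -, hdvd⟩ := exists_dvd_all htot (Finset.univ : Finset (Fin (n + 1) × Fin (n + 1)))
    ⟨(0, 0), Finset.mem_univ _⟩ (fun p => M p.1 p.2)
  replace hdvd : ∀ i k, M i₀ k₀ ∣ M i k := fun i k => hdvd (i, k) (Finset.mem_univ _)
  by_cases hd : ∃ d, M d d ∣ M i₀ k₀
  · obtain ⟨d, hd⟩ := hd
    exact pivot_diag M d fun i k => hd.trans (hdvd i k)
  · push Not at hd
    have hik : i₀ ≠ k₀ := by
      rintro rfl
      exact hd i₀ dvd_rfl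
    have hnu : ∀ d, ∃ u ∈ nonunits R, M d d = M i₀ k₀ * u := by
      intro d
      obtain ⟨u, hu⟩ := hdvd d d
      refine ⟨u, ?_, hu⟩
      intro hunit
      apply hd d
      rw [hu]
      exact (hunit.mul_right_dvd).2 dvd_rfl
    obtain ⟨u, hu, hu'⟩ := hnu i₀
    obtain ⟨v, hv, hv'⟩ := hnu k₀
    have hw : IsUnit (u + v + 2) := by
      by_contra hcon
      have h3 : u + v ∈ nonunits R := IsLocalRing.nonunits_add hu hv
      have h4 : -(u + v) ∈ nonunits R := by
        intro hh
        exact h3 (by simpa using hh.neg)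
      have h5 := IsLocalRing.nonunits_add hcon h4
      apply h5
      have e : u + v + 2 + -(u + v) = 2 := by ring
      rw [e]
      exact h2
    set T : Matrix (Fin (n + 1)) (Fin (n + 1)) R := Matrix.transvection i₀ k₀ (1 : R) with hT
    set T' : Matrix (Fin (n + 1)) (Fin (n + 1)) R := Matrix.transvection i₀ k₀ (-1 : R) with hT'
    have hTT : T * T' = 1 := by
      rw [hT, hT', Matrix.transvection_mul_transvection_same _ _ hik]
      simp
    have hTT' : T' * T = 1 := by
      rw [hT, hT', Matrix.transvection_mul_transvection_same _ _ hik]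
      simp
    have hsym : M k₀ i₀ = M i₀ k₀ := by
      conv_lhs => rw [← hM]
      rfl
    have hentry : (T * M * T.transpose) i₀ i₀ = M i₀ k₀ * (u + v + 2) := by
      rw [hT, trans_conj, hsym, hu', hv']
      ring
    obtain ⟨Q, Q', h3, h4, h5⟩ := pivot_diag (T * M * T.transpose) i₀ (by
      intro i k
      rw [hentry]
      exact (hw.mul_right_dvd).2 (dvd_mul_mul _ _ _ _ hdvd i k))
    refine ⟨Q * T, T' * Q', ?_, ?_, ?_⟩
    · calc Q * T * (T' * Q') = Q * (T * T') * Q' := by simp only [Matrix.mul_assoc]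
        _ = 1 := by rw [hTT, Matrix.mul_one, h3]
    · calc T' * Q' * (Q * T) = T' * (Q' * Q) * T := by simp only [Matrix.mul_assoc]
        _ = 1 := by rw [h4, Matrix.mul_one, hTT']
    · have e : Q * T * M * (Q * T).transpose = Q * (T * M * T.transpose) * Q.transpose := by
        rw [Matrix.transpose_mul]
        simp only [Matrix.mul_assoc]
      rw [e]
      exact h5

private theorem main [IsLocalRing R] (h2 : IsUnit (2 : R)) (htot : ∀ a b : R, a ∣ b ∨ b ∣ a) :
    ∀ (n : ℕ) (M : Matrix (Fin n) (Fin n) R) (_ : M.transpose = M),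
    ∃ (D : ℕ → R) (P P' : Matrix (Fin n) (Fin n) R),
      (∀ i, n ≤ i → D i = 0) ∧ (∀ i j, i ≤ j → D i ∣ D j) ∧
      M = P * Matrix.diagonal (fun i : Fin n => D i) * P.transpose ∧
      Matrix.diagonal (fun i : Fin n => D i) = P' * M * P'.transpose := by
  intro n
  induction n with
  | zero =>
    intro M _
    exact ⟨0, 0, 0, fun _ _ => rfl, fun _ _ _ => dvd_rfl, by ext i; exact i.elim0,
      by ext i; exact i.elim0⟩
  | succ n ih =>
    intro M hM
    obtain ⟨Q, Q', hQ, hQ', hN0⟩ := pivot h2 htot M hM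
    set N : Matrix (Fin (n + 1)) (Fin (n + 1)) R := Q * M * Q.transpose with hN
    have hMN : M = Q' * N * Q'.transpose := by
      have e : Q.transpose * Q'.transpose = 1 := by
        rw [← Matrix.transpose_mul, hQ', Matrix.transpose_one]
      calc M = (Q' * Q) * M * (Q.transpose * Q'.transpose) := by
            rw [hQ', e, Matrix.one_mul, Matrix.mul_one]
        _ = Q' * N * Q'.transpose := by
            rw [hN]
            simp only [Matrix.mul_assoc]
    have hNs : N.transpose = N := by
      rw [hN, Matrix.transpose_mul, Matrix.transpose_mul, Matrix.transpose_transpose, hM, Matrix.mul_assoc]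
    have hNs' : ∀ i k, N k i = N i k := fun i k => by
      conv_lhs => rw [← hNs]
      rfl
    choose c hc using fun i : Fin n => hN0 (Fin.succ i) 0
    set x := N 0 0 with hx
    set M₁ : Matrix (Fin n) (Fin n) R :=
      Matrix.of fun i k => N (Fin.succ i) (Fin.succ k) - c i * x * c k with hM₁
    have hM₁s : M₁.transpose = M₁ := by
      ext i k
      rw [Matrix.transpose_apply, hM₁, Matrix.of_apply, Matrix.of_apply, hNs' (Fin.succ i) (Fin.succ k)]
      ring
    have hdec : N = colM c * blk x M₁ * (colM c).transpose :=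
      decomp N x c rfl hc fun k => by rw [hNs' (Fin.succ k) 0, hc]
    have hcc : (colM c).transpose * (colM (-c)).transpose = 1 := by
      rw [← Matrix.transpose_mul, colM_mul, Matrix.transpose_one]
    have hdec' : blk x M₁ = colM (-c) * N * (colM (-c)).transpose := by
      rw [hdec]
      calc blk x M₁ = (colM (-c) * colM c) * blk x M₁ * ((colM c).transpose * (colM (-c)).transpose) := by
            rw [colM_mul, hcc, Matrix.one_mul, Matrix.mul_one]
        _ = _ := by simp only [Matrix.mul_assoc]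
    obtain ⟨D, P, P', hD0, hD, h1, h2'⟩ := ih M₁ hM₁s
    have hxM : ∀ i k, x ∣ M₁ i k := by
      intro i k
      rw [hM₁]
      exact dvd_sub (hN0 _ _) ⟨c i * c k, by ring⟩
    have hxD : ∀ i, x ∣ D i := by
      intro i
      rcases lt_or_ge i n with hi | hi
      · have e := congrFun (congrFun h2' ⟨i, hi⟩) ⟨i, hi⟩
        rw [Matrix.diagonal_apply_eq] at e
        have e' : D i = (P' * M₁ * P'.transpose) ⟨i, hi⟩ ⟨i, hi⟩ := e
        rw [e']
        exact dvd_mul_mul _ _ _ _ hxM _ _
      · rw [hD0 i hi]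
        exact dvd_zero _
    set D' : ℕ → R := fun i => Nat.casesOn i x D with hD'
    have hS : Matrix.diagonal (fun i : Fin (n + 1) => D' i) =
        blk x (Matrix.diagonal (fun i : Fin n => D i)) := by
      ext i k
      refine Fin.cases ?_ (fun i => ?_) i <;> refine Fin.cases ?_ (fun k => ?_) k
      · simp [blk, hD']
      · simp [blk, Matrix.diagonal_apply, (Fin.succ_ne_zero _).symm]
      · simp [blk, Matrix.diagonal_apply, Fin.succ_ne_zero]
      · simp [blk, Matrix.diagonal_apply, hD']
    refine ⟨D', Q' * (colM c * blk 1 P), (blk 1 P' * colM (-c)) * Q, ?_, ?_, ?_, ?_⟩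
    · intro i hi
      obtain ⟨j, rfl⟩ : ∃ j, i = j + 1 := ⟨i - 1, by omega⟩
      exact hD0 j (by omega)
    · intro i j hij
      rcases i with _ | i
      · rcases j with _ | j
        · exact dvd_rfl
        · exact hxD j
      · rcases j with _ | j
        · omega
        · exact hD i j (by omega)
    · rw [hS]
      have hb : blk x M₁ = blk 1 P * blk x (Matrix.diagonal (fun i : Fin n => D i)) *
          (blk 1 P).transpose := by
        rw [blk_transpose, blk_mul, blk_mul, one_mul, mul_one, ← h1]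
      conv_lhs => rw [hMN, hdec, hb]
      simp only [Matrix.transpose_mul, Matrix.mul_assoc]
    · rw [hS]
      have hb : blk x (Matrix.diagonal (fun i : Fin n => D i)) =
          blk 1 P' * blk x M₁ * (blk 1 P').transpose := by
        rw [blk_transpose, blk_mul, blk_mul, one_mul, mul_one, ← h2']
      rw [hb, hdec', hN]
      simp only [Matrix.transpose_mul, Matrix.mul_assoc]

private theorem mat_dgI (n : ℕ) (D : ℕ → R) :
    (Shp.eps true n).mat ((Shp.eps true n).dgI D) = Matrix.diagonal (fun i : Fin n => D i) := by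
  ext i k
  have key : ∀ p : (Shp.eps true n).Idx, (Shp.eps true n).dgI D p =
      if (p.1.1 : ℕ) = p.1.2 then D p.1.1 else 0 := by
    intro p
    unfold Shp.dgI
    simp only [Shp.st, Shp.pr, Shp.pc, if_true, Nat.mod_one, true_and, Nat.div_one, Nat.add_right_cancel_iff]
    by_cases h : (p.1.1 : ℕ) = p.1.2
    · rw [if_pos h, if_pos h.symm]
    · rw [if_neg h, if_neg fun h' => h h'.symm]
  show (if h : i < k then _ else _) = _
  rw [Matrix.diagonal_apply]
  by_cases h : i < k
  · rw [dif_pos h, key, if_neg (ne_of_lt h), if_neg]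
    intro h'
    exact absurd h' (ne_of_lt h)
  · rw [dif_neg h]
    by_cases h' : k < i
    · have e1 : ¬ ((k : ℕ) = i) := Nat.ne_of_lt h'
      rw [dif_pos h', key, if_neg (ne_of_gt h')]
      show _ * (if (k : ℕ) = i then D k else 0) = 0
      rw [if_neg e1, mul_zero]
    · rw [dif_neg h', dif_pos rfl, key]
      have e : i = k := le_antisymm (not_lt.1 h') (not_lt.1 h)
      subst e
      simp

end S1aAux

theorem smith_sym (n : ℕ) (M : Matrix (Fin n) (Fin n) (PowerSeries ℂ)) (hM : M.transpose = M) :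
    ∃ (D : ℕ → PowerSeries ℂ) (P P' : Matrix (Fin n) (Fin n) (PowerSeries ℂ)),
      (∀ i j, i ≤ j → D i ∣ D j) ∧
      M = P * ((Shp.eps true n).mat ((Shp.eps true n).dgI D)) * P.transpose ∧
      ((Shp.eps true n).mat ((Shp.eps true n).dgI D)) = P' * M * P'.transpose := by
  have h2 : IsUnit (2 : PowerSeries ℂ) := by
    have h : IsUnit ((PowerSeries.C (R := ℂ)) 2) := (IsUnit.mk0 (2 : ℂ) two_ne_zero).map _
    rwa [map_ofNat] at h
  obtain ⟨D, P, P', -, hD, h3, h4⟩ := S1aAux.main h2 (fun a b => ValuationRing.dvd_total a b) n M hM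
  refine ⟨D, P, P', hD, ?_, ?_⟩
  · rw [S1aAux.mat_dgI]
    exact h3
  · rw [S1aAux.mat_dgI]
    exact h4

end MotMono
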