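import Pool.Agent.Lib.MP_4e5fcd_ag.Cl.UDefs

/-! # CL-US0: the codimension functional

PROOF. As `pair_nuf` in `Det/U3.lean` (`u3_tri` there is private: copy it): with `M = rk`, `d = M - i`,
`2 * ∑ r ≤ M, (r - i) = d (d + 1)`. `gen m n`: `(m - i) (n - i) = d (d + 1) + (n - m - 1) d`. `eps true n`: the dimension
of `res i` is `(n - i) (n - i - 1) / 2 + (n - i) = d (d + 1) / 2`. `eps false n`, `n = 2 M + p`, `p ≤ 1`: the dimension
of `res i` is `(2 d + p) (2 d + p - 1) / 2 = 2 d (d + 1) + (2 p - 3) d`. -/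

open MvPolynomial

namespace MotMono

variable {s : ℕ}

/-- the contribution of one shape to the codimension functional; `S = ∑ r ≤ rk, f r`, `F = f rk` -/
def nuv : Shp → ℚ → ℚ → ℚ
  | Shp.gen m n, S, F => 2 * S + ((n : ℚ) - m - 1) * F
  | Shp.eps κ n, S, F => if κ = true then S else 4 * S + (2 * ((n % 2 : ℕ) : ℚ) - 3) * F

private theorem us0_tri (i M : ℕ) (hi : i ≤ M) :
    ∑ r ∈ Finset.range (M + 1), ((r - i : ℕ) : ℚ) =
      ((M - i : ℕ) : ℚ) * (((M - i : ℕ) : ℚ) + 1) / 2 := by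
  obtain ⟨t, rfl⟩ : ∃ t, M = i + t := ⟨M - i, by omega⟩
  clear hi
  induction t with
  | zero =>
    have h1 : ∑ r ∈ Finset.range (i + 0 + 1), ((r - i : ℕ) : ℚ) = 0 := by
      refine Finset.sum_eq_zero fun r hr => ?_
      rw [Finset.mem_range] at hr
      have : r - i = 0 := by omega
      rw [this]
      simp
    rw [h1]
    simp
  | succ t ih =>
    have e1 : i + (t + 1) + 1 = (i + t + 1) + 1 := by omega
    rw [e1, Finset.sum_range_succ, ih]
    have e2 : i + t - i = t := by omega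
    have e3 : i + (t + 1) - i = t + 1 := by omega
    have e4 : i + t + 1 - i = t + 1 := by omega
    rw [e2, e3, e4]
    push_cast
    ring

private theorem us0_half (k : ℕ) : ((k * (k - 1) / 2 : ℕ) : ℚ) = (k : ℚ) * ((k : ℚ) - 1) / 2 := by
  have h1 : 2 ∣ k * (k - 1) := by
    rcases k with _ | k
    · simp
    · rw [Nat.add_sub_cancel, mul_comm]
      exact (Nat.even_mul_succ_self k).two_dvd
  rw [Nat.cast_div h1 (by norm_num)]
  rcases k with _ | k
  · simp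
  · push_cast
    ring

private theorem us0_dim (σ : Shp) (hσ : σ.Le) (i : ℕ) (hi : i ≤ σ.rk) :
    ((σ.res i).dim : ℚ) = nuv σ (((σ.rk - i : ℕ) : ℚ) * (((σ.rk - i : ℕ) : ℚ) + 1) / 2)
      ((σ.rk - i : ℕ) : ℚ) := by
  rcases σ with ⟨m, n⟩ | ⟨κ, n⟩
  · have hmn : m ≤ n := hσ
    have hi' : i ≤ m := hi
    show (((m - i) * (n - i) : ℕ) : ℚ) = 2 * (((m - i : ℕ) : ℚ) * (((m - i : ℕ) : ℚ) + 1) / 2) +
      ((n : ℚ) - m - 1) * ((m - i : ℕ) : ℚ)
    have h2 : n - i = (m - i) + (n - m) := by omega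
    rw [h2]
    push_cast
    rw [Nat.cast_sub hmn]
    ring
  · rcases κ with _ | _
    · have hi' : i ≤ n / 2 := hi
      show (((n - 2 * i) * ((n - 2 * i) - 1) / 2 + 0 : ℕ) : ℚ) =
        4 * (((n / 2 - i : ℕ) : ℚ) * (((n / 2 - i : ℕ) : ℚ) + 1) / 2) +
          (2 * ((n % 2 : ℕ) : ℚ) - 3) * ((n / 2 - i : ℕ) : ℚ)
      obtain ⟨d, hd⟩ : ∃ d, d = n / 2 - i := ⟨_, rfl⟩
      obtain ⟨p, hp⟩ : ∃ p, p = n % 2 := ⟨_, rfl⟩
      have h2 : n - 2 * i = 2 * d + p := by omega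
      rw [h2, ← hd, ← hp, add_zero, us0_half]
      have h3 : p = 0 ∨ p = 1 := by omega
      rcases h3 with rfl | rfl
      · push_cast
        ring
      · push_cast
        ring
    · have hi' : i ≤ n / 1 := hi
      show (((n - 1 * i) * ((n - 1 * i) - 1) / 2 + (n - 1 * i) : ℕ) : ℚ) =
        ((n / 1 - i : ℕ) : ℚ) * (((n / 1 - i : ℕ) : ℚ) + 1) / 2
      rw [Nat.div_one, one_mul, Nat.cast_add, us0_half]
      ring

private theorem us0_lin (σ : Shp) (S F S' F' a b : ℚ) :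
    nuv σ (a * S + b * S') (a * F + b * F') = a * nuv σ S F + b * nuv σ S' F' := by
  rcases σ with ⟨m, n⟩ | ⟨κ, n⟩
  · show 2 * (a * S + b * S') + ((n : ℚ) - m - 1) * (a * F + b * F') =
      a * (2 * S + ((n : ℚ) - m - 1) * F) + b * (2 * S' + ((n : ℚ) - m - 1) * F')
    ring
  · show (if κ = true then (a * S + b * S') else 4 * (a * S + b * S') +
        (2 * ((n % 2 : ℕ) : ℚ) - 3) * (a * F + b * F')) =
      a * (if κ = true then S else 4 * S + (2 * ((n % 2 : ℕ) : ℚ) - 3) * F) +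
        b * (if κ = true then S' else 4 * S' + (2 * ((n % 2 : ℕ) : ℚ) - 3) * F')
    split_ifs <;> ring

private theorem us0_sum (σ : Shp) {ι : Type} (B : Finset ι) (S F u : ι → ℚ) :
    nuv σ (∑ i ∈ B, S i * u i) (∑ i ∈ B, F i * u i) = ∑ i ∈ B, nuv σ (S i) (F i) * u i := by
  classical
  induction B using Finset.induction_on with
  | empty =>
    simp only [Finset.sum_empty]
    have := us0_lin σ 0 0 0 0 0 0
    simpa using this
  | insert i B hi ih =>
    rw [Finset.sum_insert hi, Finset.sum_insert hi, Finset.sum_insert hi, ← ih]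
    have := us0_lin σ (S i) (F i) (∑ i ∈ B, S i * u i) (∑ i ∈ B, F i * u i) (u i) 1
    rw [one_mul, one_mul, one_mul] at this
    rw [mul_comm (S i), mul_comm (F i), this]
    ring

theorem pair_nufS (σ : Fin s → Shp) (hσ : ∀ a, (σ a).Le) (u : (Σ a, Fin (σ a).rk) → ℕ) :
    (pair (nufS σ) u : ℚ) = ∑ a, nuv (σ a)
      (∑ r ∈ Finset.range ((σ a).rk + 1),
        evq (m := fun a => (σ a).rk) (fun c => (u c : ℚ)) a r)
      (evq (m := fun a => (σ a).rk) (fun c => (u c : ℚ)) a (σ a).rk) := by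
  unfold pair nufS
  push_cast
  rw [Fintype.sum_sigma]
  refine Finset.sum_congr rfl fun a _ => ?_
  unfold evq
  rw [Finset.sum_comm]
  have e1 : ∀ i : Fin (σ a).rk, ∑ r ∈ Finset.range ((σ a).rk + 1),
      ((r - (i : ℕ) : ℕ) : ℚ) * ((u ⟨a, i⟩ : ℕ) : ℚ) =
      ((((σ a).rk - (i : ℕ) : ℕ) : ℚ) * ((((σ a).rk - (i : ℕ) : ℕ) : ℚ) + 1) / 2) *
        ((u ⟨a, i⟩ : ℕ) : ℚ) := by
    intro i
    rw [← Finset.sum_mul, us0_tri i (σ a).rk i.2.le]
  rw [Finset.sum_congr rfl fun i _ => e1 i]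
  rw [us0_sum (σ a) Finset.univ
    (fun i : Fin (σ a).rk => ((((σ a).rk - (i : ℕ) : ℕ) : ℚ) * ((((σ a).rk - (i : ℕ) : ℕ) : ℚ) + 1) / 2))
    (fun i : Fin (σ a).rk => (((σ a).rk - (i : ℕ) : ℕ) : ℚ)) (fun i => ((u ⟨a, i⟩ : ℕ) : ℚ))]
  refine Finset.sum_congr rfl fun i _ => ?_
  rw [← us0_dim (σ a) (hσ a) i i.2.le]

end MotMono
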