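import Pool.Agent.Lib.MP_4e5fcd_ag.Det.U3

/-! # CL-US1: lowering the values inside an undetected block, with a break at a given place

PROOF. As `exists_lower` in `Det/U3b.lean` (its auxiliary lemmas are private: copy them), where
`q = i' - 1`. Now `q` is any index strictly inside the block `i < q < i'`; the perturbation is `-(i' - q)` at `i`,
`i' - i` at `q`, `-(q - i)` at `i'` (if `i' < m a`), times `ε`; its value `evq` at `r ≤ m a` is `-(i' - q) (r - i)` for
`i ≤ r ≤ q`, `-(q - i) (i' - r)` for `q ≤ r ≤ i'` and `0` otherwise. -/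

open MvPolynomial

namespace MotMono

variable {s : ℕ} {m : Fin s → ℕ}

private theorem us1_cast {ι : Type} [Fintype ι] (W b : ι → ℕ) :
    ∑ c, (W c : ℚ) * (b c : ℚ) = (pair W b : ℚ) := by
  unfold pair
  push_cast
  rfl

private theorem us1_minF {ι : Type} [Fintype ι] (B : Finset (ι → ℕ)) (u W : ι → ℕ)
    (h : InFace B u W) : minF B u = pair W u := by
  unfold minF
  refine le_antisymm (Nat.sInf_le ⟨W, h.1, rfl⟩) ?_
  refine le_csInf ⟨pair W u, W, h.1, rfl⟩ ?_
  rintro k ⟨W', hW', rfl⟩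
  exact h.2 W' hW'

private theorem us1_face {ι : Type} [Fintype ι] (B : Finset (ι → ℕ)) (u : ι → ℕ)
    (h : 0 < minF B u) : ∃ W, InFace B u W := by
  have hne : B.Nonempty := by
    by_contra hB
    rw [Finset.not_nonempty_iff_eq_empty] at hB
    have h1 : minF B u = 0 := by
      unfold minF
      rw [hB]
      simp
    omega
  obtain ⟨W, hW, hmin⟩ := Finset.exists_min_image B (fun W => pair W u) hne
  exact ⟨W, hW, hmin⟩

private theorem us1_evq_add (x y : (Σ a, Fin (m a)) → ℚ) (e : ℚ) (a : Fin s) (r : ℕ) :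
    evq (fun c => x c + e * y c) a r = evq x a r + e * evq y a r := by
  unfold evq
  rw [Finset.mul_sum, ← Finset.sum_add_distrib]
  refine Finset.sum_congr rfl fun i _ => ?_
  ring

/-- the perturbation -/
private def us1D (i q i' : ℕ) (j : ℕ) : ℚ :=
  (if j = i then -((i' - q : ℕ) : ℚ) else 0) + (if j = q then ((i' - i : ℕ) : ℚ) else 0) +
    (if j = i' then -((q - i : ℕ) : ℚ) else 0)

/-- the value of the perturbation -/
private def us1V (i q i' : ℕ) (r : ℕ) : ℚ :=
  -(((i' - q : ℕ) : ℚ) * ((r - i : ℕ) : ℚ)) + ((i' - i : ℕ) : ℚ) * ((r - q : ℕ) : ℚ) -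
    ((q - i : ℕ) : ℚ) * ((r - i' : ℕ) : ℚ)

private theorem us1_sumD (i q i' M r : ℕ) (h1 : i < q) (h2 : q < i') (h3 : i' ≤ M) (hr : r ≤ M) :
    ∑ j ∈ Finset.range M, ((r - j : ℕ) : ℚ) * us1D i q i' j = us1V i q i' r := by
  unfold us1D us1V
  simp only [mul_add, Finset.sum_add_distrib, mul_ite, mul_zero]
  rw [Finset.sum_ite_eq' (Finset.range M) i, Finset.sum_ite_eq' (Finset.range M) q,
    Finset.sum_ite_eq' (Finset.range M) i', if_pos (Finset.mem_range.mpr (by omega)),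
    if_pos (Finset.mem_range.mpr (by omega))]
  have h4 : (if i' ∈ Finset.range M then ((r - i' : ℕ) : ℚ) * -((q - i : ℕ) : ℚ) else 0) =
      ((r - i' : ℕ) : ℚ) * -((q - i : ℕ) : ℚ) := by
    split_ifs with h
    · rfl
    · rw [Finset.mem_range] at h
      have : r - i' = 0 := by omega
      rw [this]
      simp
  rw [h4]
  ring

private theorem us1_V (i q i' r : ℕ) (h1 : i < q) (h2 : q < i') :
    us1V i q i' r ≤ 0 ∧ (¬ (i < r ∧ r < i') → us1V i q i' r = 0) ∧
      (r = q → us1V i q i' r < 0) := by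
  unfold us1V
  obtain ⟨g, rfl⟩ : ∃ g, q = i + 1 + g := ⟨q - (i + 1), by omega⟩
  obtain ⟨h, rfl⟩ : ∃ h, i' = i + 1 + g + 1 + h := ⟨i' - (i + 1 + g + 1), by omega⟩
  have e1 : i + 1 + g + 1 + h - (i + 1 + g) = 1 + h := by omega
  have e2 : i + 1 + g + 1 + h - i = g + h + 2 := by omega
  have e3 : i + 1 + g - i = g + 1 := by omega
  rw [e1, e2, e3]
  have hg : (0 : ℚ) ≤ g := Nat.cast_nonneg _
  have hh : (0 : ℚ) ≤ h := Nat.cast_nonneg _
  rcases Nat.lt_or_ge i r with c1 | c1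
  · rcases Nat.lt_or_ge (i + 1 + g) r with c2 | c2
    · rcases Nat.lt_or_ge r (i + 1 + g + 1 + h) with c3 | c3
      · obtain ⟨t, rfl⟩ : ∃ t, r = i + 1 + g + 1 + t := ⟨r - (i + 1 + g + 1), by omega⟩
        obtain ⟨k, rfl⟩ : ∃ k, h = t + 1 + k := ⟨h - (t + 1), by omega⟩
        have f1 : i + 1 + g + 1 + t - i = g + t + 2 := by omega
        have f2 : i + 1 + g + 1 + t - (i + 1 + g) = t + 1 := by omega
        have f3 : i + 1 + g + 1 + t - (i + 1 + g + 1 + (t + 1 + k)) = 0 := by omega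
        rw [f1, f2, f3]
        push_cast
        have ht : (0 : ℚ) ≤ t := Nat.cast_nonneg _
        have hk : (0 : ℚ) ≤ k := Nat.cast_nonneg _
        have key : -((1 + ((t : ℚ) + 1 + k)) * ((g : ℚ) + t + 2)) +
            ((g : ℚ) + (t + 1 + k) + 2) * ((t : ℚ) + 1) - ((g : ℚ) + 1) * 0 =
            -(((g : ℚ) + 1) * ((k : ℚ) + 1)) := by ring
        rw [key]
        refine ⟨?_, fun hn => absurd ⟨c1, c3⟩ hn, fun hq => ?_⟩
        · have : 0 ≤ ((g : ℚ) + 1) * ((k : ℚ) + 1) := by positivity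
          linarith
        · omega
      · obtain ⟨t, rfl⟩ : ∃ t, r = i + 1 + g + 1 + h + t := ⟨r - (i + 1 + g + 1 + h), by omega⟩
        have f1 : i + 1 + g + 1 + h + t - i = g + h + t + 2 := by omega
        have f2 : i + 1 + g + 1 + h + t - (i + 1 + g) = h + t + 1 := by omega
        have f3 : i + 1 + g + 1 + h + t - (i + 1 + g + 1 + h) = t := by omega
        rw [f1, f2, f3]
        push_cast
        have key : -((1 + (h : ℚ)) * ((g : ℚ) + h + t + 2)) +
            ((g : ℚ) + h + 2) * ((h : ℚ) + t + 1) - ((g : ℚ) + 1) * t = 0 := by ring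
        rw [key]
        exact ⟨le_refl _, fun _ => rfl, fun hq => by omega⟩
    · obtain ⟨t, rfl⟩ : ∃ t, r = i + 1 + t := ⟨r - (i + 1), by omega⟩
      have f1 : i + 1 + t - i = t + 1 := by omega
      have f2 : i + 1 + t - (i + 1 + g) = 0 := by omega
      have f3 : i + 1 + t - (i + 1 + g + 1 + h) = 0 := by omega
      rw [f1, f2, f3]
      push_cast
      have ht : (0 : ℚ) ≤ t := Nat.cast_nonneg _
      have hpos : 0 < (1 + (h : ℚ)) * ((t : ℚ) + 1) := by positivity
      refine ⟨by linarith, fun hn => absurd ⟨c1, by omega⟩ hn, fun _ => by linarith⟩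
  · have f1 : r - i = 0 := by omega
    have f2 : r - (i + 1 + g) = 0 := by omega
    have f3 : r - (i + 1 + g + 1 + h) = 0 := by omega
    rw [f1, f2, f3]
    simp only [Nat.cast_zero, mul_zero, neg_zero, add_zero, sub_zero, le_refl, true_and]
    exact ⟨fun _ => trivial, fun hq => by omega⟩

private def us1d (a : Fin s) (i q i' : ℕ) : (Σ a, Fin (m a)) → ℚ :=
  fun c => if c.1 = a then us1D i q i' c.2 else 0

private theorem us1_evq_d (a : Fin s) (i q i' : ℕ) (h1 : i < q) (h2 : q < i') (h3 : i' ≤ m a)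
    (a' : Fin s) (r : ℕ) (hr : r ≤ m a') :
    evq (m := m) (us1d a i q i') a' r = if a' = a then us1V i q i' r else 0 := by
  by_cases ha : a' = a
  · subst ha
    unfold evq us1d
    simp only [if_true]
    rw [← us1_sumD i q i' (m a') r h1 h2 h3 hr, Finset.sum_range]
  · unfold evq us1d
    simp only [if_neg ha, mul_zero, Finset.sum_const_zero]

theorem exists_lowerQ (A : Finset ((Σ a, Fin (m a)) → ℕ)) (u' : (Σ a, Fin (m a)) → ℕ)
    (hN : 0 < minF (AW A) u') (a : Fin s) (i : Fin (m a)) (hi : Undet A u' a i)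
    (q : Fin (m a)) (hiq : i < q) (hq : ∀ k : Fin (m a), i < k → k ≤ q → u' ⟨a, k⟩ = 0) :
    ∃ y : (Σ a, Fin (m a)) → ℚ, (∀ c, 0 ≤ y c) ∧
      (∀ c : (Σ a, Fin (m a)), u' c = 0 → c ≠ ⟨a, q⟩ → y c = 0) ∧
      (∀ W, InFace (AW A) u' W → ∑ c, (W c : ℚ) * y c = minF (AW A) u') ∧
      (∀ W ∈ AW A, (minF (AW A) u' : ℚ) ≤ ∑ c, (W c : ℚ) * y c) ∧
      (∀ a' r, r ≤ m a' → evq y a' r ≤ evq (fun c => (u' c : ℚ)) a' r) ∧
      (∀ a' r, r ≤ m a' → evq y a' r < evq (fun c => (u' c : ℚ)) a' r → InUndet A u' a' r) ∧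
      ∃ a' r, r ≤ m a' ∧ evq y a' r < evq (fun c => (u' c : ℚ)) a' r := by
  classical
  obtain ⟨hi1, ⟨hi2, hi3⟩, hi4⟩ := hi
  -- the end of the block
  obtain ⟨i', hii', hi'm, hi'e, hi'z⟩ : ∃ i' : ℕ, (i : ℕ) < i' ∧ i' ≤ m a ∧
      (i' = m a ∨ ∃ h : i' < m a, u' ⟨a, ⟨i', h⟩⟩ ≠ 0) ∧
      ∀ k : Fin (m a), i < k → (k : ℕ) < i' → u' ⟨a, k⟩ = 0 := by
    have hex : ∃ n : ℕ, (i : ℕ) < n ∧ (n = m a ∨ ∃ h : n < m a, u' ⟨a, ⟨n, h⟩⟩ ≠ 0) :=
      ⟨m a, i.2, Or.inl rfl⟩
    refine ⟨Nat.find hex, (Nat.find_spec hex).1, ?_, (Nat.find_spec hex).2, ?_⟩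
    · exact Nat.find_min' hex ⟨i.2, Or.inl rfl⟩
    · intro k hk1 hk2
      by_contra hk3
      exact Nat.find_min hex hk2 ⟨hk1, Or.inr ⟨k.2, hk3⟩⟩
  have hiqN : (i : ℕ) < q := hiq
  have hqi' : (q : ℕ) < i' := by
    rcases hi'e with h2 | ⟨h2, h3⟩
    · rw [h2]
      exact q.2
    · by_contra h4
      exact h3 (hq ⟨i', h2⟩ hii' (by
        change i' ≤ (q : ℕ)
        omega))
  have hUndet : Undet A u' a i := ⟨hi1, ⟨hi2, hi3⟩, hi4⟩
  have hin : ∀ r : ℕ, (i : ℕ) < r → r < i' → InUndet A u' a r := by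
    intro r hr1 hr2
    exact ⟨i, hUndet, hr1, by omega, fun k hk1 hk2 => hi'z k hk1 (by omega)⟩
  obtain ⟨d, hd⟩ : ∃ d : (Σ a, Fin (m a)) → ℚ, d = us1d a i q i' := ⟨_, rfl⟩
  obtain ⟨C, hC⟩ : ∃ C : ℚ, C = ∑ W ∈ AW A, |∑ c, (W c : ℚ) * d c| := ⟨_, rfl⟩
  have hC0 : 0 ≤ C := by
    rw [hC]
    exact Finset.sum_nonneg fun _ _ => abs_nonneg _
  obtain ⟨ε, hε⟩ : ∃ ε : ℚ, ε = 1 / (C + i' + 1) := ⟨_, rfl⟩
  have hden : 0 < C + i' + 1 := by positivity
  have hε0 : 0 < ε := by
    rw [hε]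
    positivity
  have hε1 : ε * C ≤ 1 := by
    rw [hε, one_div, inv_mul_le_iff₀ hden]
    have : (0 : ℚ) ≤ i' := Nat.cast_nonneg _
    linarith
  have hε2 : ε * i' ≤ 1 := by
    rw [hε, one_div, inv_mul_le_iff₀ hden]
    linarith
  have hevd : ∀ a' r, r ≤ m a' → evq d a' r = if a' = a then us1V i q i' r else 0 := by
    intro a' r hr
    rw [hd]
    exact us1_evq_d a i q i' hiqN hqi' hi'm a' r hr
  have hevy : ∀ a' r, evq (fun c => (u' c : ℚ) + ε * d c) a' r =
      evq (fun c => (u' c : ℚ)) a' r + ε * evq d a' r :=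
    fun a' r => us1_evq_add (fun c => (u' c : ℚ)) d ε a' r
  have hWy : ∀ W : (Σ a, Fin (m a)) → ℕ, ∑ c, (W c : ℚ) * ((u' c : ℚ) + ε * d c) =
      (pair W u' : ℚ) + ε * ∑ c, (W c : ℚ) * d c := by
    intro W
    rw [← us1_cast, Finset.mul_sum, ← Finset.sum_add_distrib]
    refine Finset.sum_congr rfl fun c _ => ?_
    ring
  have hface : ∀ W, InFace (AW A) u' W → ∑ c, (W c : ℚ) * ((u' c : ℚ) + ε * d c) =
      minF (AW A) u' := by
    intro W hW
    rw [hWy, us1_minF _ _ _ hW]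
    have hW1 := hW.1
    unfold AW at hW1
    rw [Finset.mem_image] at hW1
    obtain ⟨w, hw, rfl⟩ := hW1
    have h1 : ∑ c, (Wf w c : ℚ) * d c = 0 := by
      rw [sum_Wf_mul]
      refine Finset.sum_eq_zero fun c _ => ?_
      rw [hevd c.1 (c.2 + 1) (by have := c.2.2; omega)]
      by_cases hwc : w c = 0
      · rw [hwc]
        simp
      · obtain ⟨a', k⟩ := c
        by_cases ha : a' = a
        · subst ha
          simp only [if_true]
          rw [(us1_V i q i' ((k : ℕ) + 1) hiqN hqi').2.1]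
          · ring
          · rintro ⟨h3, h4⟩
            obtain ⟨k', hk1, hk2, hk3⟩ := hi4 (k + 1) ⟨w, hw, hW, k, rfl, hwc⟩ h3 (by omega)
            exact hk3 (hi'z k' hk1 (by omega))
        · simp only [if_neg ha]
          ring
    rw [h1]
    ring
  refine ⟨fun c => (u' c : ℚ) + ε * d c, ?_, ?_, hface, ?_, ?_, ?_, ?_⟩
  · -- nonnegative
    rintro ⟨a', k⟩
    simp only
    rw [hd]
    unfold us1d
    simp only
    split_ifs with ha
    · subst ha
      unfold us1D
      have hg : ((i' - (q : ℕ) : ℕ) : ℚ) ≤ i' := by exact_mod_cast Nat.sub_le _ _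
      have hg0 : (0 : ℚ) ≤ ((i' - (i : ℕ) : ℕ) : ℚ) := Nat.cast_nonneg _
      have hg1 : (((q : ℕ) - (i : ℕ) : ℕ) : ℚ) ≤ i' := by
        exact_mod_cast (show (q : ℕ) - (i : ℕ) ≤ i' by omega)
      by_cases hk1 : (k : ℕ) = i
      · have hk : k = i := Fin.ext hk1
        rw [if_pos hk1, if_neg (by omega), if_neg (by omega), hk]
        have h1 : (1 : ℚ) ≤ (u' ⟨a', i⟩ : ℚ) := by
          exact_mod_cast Nat.one_le_iff_ne_zero.mpr hi1
        have h2 : ε * ((i' - (q : ℕ) : ℕ) : ℚ) ≤ 1 :=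
          (mul_le_mul_of_nonneg_left hg hε0.le).trans hε2
        nlinarith
      · rw [if_neg hk1]
        by_cases hk2 : (k : ℕ) = q
        · rw [if_pos hk2, if_neg (by omega)]
          have : (0 : ℚ) ≤ (u' ⟨a', k⟩ : ℚ) := Nat.cast_nonneg _
          have h3 : 0 ≤ ε * ((i' - (i : ℕ) : ℕ) : ℚ) := by positivity
          linarith
        · rw [if_neg hk2]
          by_cases hk3 : (k : ℕ) = i'
          · rw [if_pos hk3]
            have h1 : u' ⟨a', k⟩ ≠ 0 := by
              rcases hi'e with h2 | ⟨h2, h3⟩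
              · have := k.2
                omega
              · have h4 : k = ⟨i', h2⟩ := Fin.ext hk3
                rw [h4]
                exact h3
            have h2 : (1 : ℚ) ≤ (u' ⟨a', k⟩ : ℚ) := by
              exact_mod_cast Nat.one_le_iff_ne_zero.mpr h1
            have h3 : ε * (((q : ℕ) - (i : ℕ) : ℕ) : ℚ) ≤ 1 :=
              (mul_le_mul_of_nonneg_left hg1 hε0.le).trans hε2
            nlinarith
          · rw [if_neg hk3]
            have : (0 : ℚ) ≤ (u' ⟨a', k⟩ : ℚ) := Nat.cast_nonneg _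
            linarith
    · have : (0 : ℚ) ≤ (u' ⟨a', k⟩ : ℚ) := Nat.cast_nonneg _
      linarith
  · rintro ⟨a', k⟩ hk1 hk2
    simp only
    rw [hk1, hd]
    unfold us1d
    simp only
    split_ifs with ha
    · subst ha
      unfold us1D
      rw [if_neg, if_neg, if_neg]
      · simp
      · intro h
        rcases hi'e with h2 | ⟨h2, h3⟩
        · have := k.2
          omega
        · apply h3
          have h4 : k = ⟨i', h2⟩ := Fin.ext h
          rw [← h4]
          exact hk1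
      · intro h
        have h4 : k = q := Fin.ext h
        rw [h4] at hk2
        exact hk2 rfl
      · intro h
        have h4 : k = i := Fin.ext h
        rw [h4] at hk1
        exact hi1 hk1
    · simp
  · -- other functionals
    intro W hW
    by_cases hf : InFace (AW A) u' W
    · exact (hface W hf).ge
    · obtain ⟨W0, hW0⟩ := us1_face (AW A) u' hN
      have h1 : minF (AW A) u' + 1 ≤ pair W u' := by
        by_contra h2
        apply hf
        refine ⟨hW, fun W' hW' => ?_⟩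
        rw [us1_minF _ _ _ hW0] at h2
        have h3 := hW0.2 W' hW'
        omega
      rw [hWy]
      have h2 : |∑ c, (W c : ℚ) * d c| ≤ C := by
        rw [hC]
        exact Finset.single_le_sum (f := fun W : (Σ a, Fin (m a)) → ℕ => |∑ c, (W c : ℚ) * d c|)
          (fun _ _ => abs_nonneg _) hW
      have h3 := (abs_le.mp h2).1
      have h4 : ε * (-C) ≤ ε * ∑ c, (W c : ℚ) * d c := mul_le_mul_of_nonneg_left h3 hε0.le
      have h5 : (minF (AW A) u' : ℚ) + 1 ≤ (pair W u' : ℚ) := by exact_mod_cast h1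
      linarith
  · intro a' r hr
    rw [hevy, hevd a' r hr]
    split_ifs
    · have := (us1_V i q i' r hiqN hqi').1
      nlinarith
    · linarith
  · intro a' r hr h
    rw [hevy, hevd a' r hr] at h
    split_ifs at h with h2
    · subst h2
      by_contra hc
      have h5 : ¬ ((i : ℕ) < r ∧ r < i') := fun h6 => hc (hin r h6.1 h6.2)
      rw [(us1_V i q i' r hiqN hqi').2.1 h5] at h
      linarith
    · linarith
  · refine ⟨a, q, by omega, ?_⟩
    rw [hevy, hevd a q (by omega), if_pos rfl]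
    have := (us1_V i q i' q hiqN hqi').2.2 rfl
    nlinarith

end MotMono
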